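import Pool.Agent.H60.SL.CkCell

/-!
# Soundness of the upper cell bounds
-/

set_option autoImplicit false

open Set

namespace Pool.Agent.H60.SL.Ck

/-- `E` lies in the lobe `L` of frequency `k` -/
def InL (k L : ℕ) (E : ℝ) : Prop :=
  0 ≤ E ∧ (L = 0 → (k : ℝ) ^ 2 * E ≤ 159769600) ∧
  (1 ≤ L → L ≤ 6 ∧ ((L : ℝ) * Real.pi) ^ 2 < (k : ℝ) ^ 2 * (E / 2 ^ 24) ∧
    (k : ℝ) ^ 2 * (E / 2 ^ 24) < (((L : ℝ) + 1) * Real.pi) ^ 2)

theorem inLobe_sound {k lo hi L : ℕ} (h : inLobe k lo hi L = true) :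
    ∀ E ∈ Icc ((25 * lo : ℕ) : ℝ) ((25 * hi : ℕ) : ℝ), InL k L E := by
  intro E hE
  have hE0 : 0 ≤ E := le_trans (Nat.cast_nonneg _) hE.1
  unfold inLobe at h
  rcases Nat.eq_zero_or_pos L with h0 | h0
  · subst h0
    have : Nat.beq 0 0 = true := rfl
    rw [this, cond_true] at h
    refine ⟨hE0, fun _ => kkE h hE.2, fun h1 => by omega⟩
  · rw [beq_zero_pos h0, cond_false] at h
    simp only [Bool.and_eq_true] at h
    obtain ⟨⟨h1, h2⟩, h3⟩ := h
    have hL := Nat.le_of_ble_eq_true h3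
    refine ⟨hE0, fun h4 => by omega, fun _ => ⟨hL, ?_, ?_⟩⟩
    · exact lobe_lo (by omega) (Nat.le_of_ble_eq_true h1) hE.1
    · have := lobe_hi (L := L + 1) (by omega) (by omega) (Nat.le_of_ble_eq_true h2) hE.2
      push_cast at this
      exact this

section

variable {k r : ℕ}

theorem FF_zero_r (k : ℕ) (y : ℝ) : FF k 0 y = nu ((k : ℝ) ^ 2 * y) := by
  unfold FF
  simp [nu_zero]

theorem ceil_div_real (A : ℤ) {b : ℕ} (hb : 0 < b) :
    (A : ℝ) / b ≤ (((-((-A) / (b : ℤ)) : ℤ)) : ℝ) := by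
  have hb' : (0 : ℝ) < b := by exact_mod_cast hb
  have h := Int.ediv_mul_le (-A) (b := (b : ℤ)) (by exact_mod_cast hb.ne')
  rw [div_le_iff₀ hb']
  have h2 : (((-A) / (b : ℤ) : ℤ) : ℝ) * b ≤ ((-A : ℤ) : ℝ) := by exact_mod_cast h
  push_cast at h2 ⊢
  linarith

theorem chordT_sound {E L J : ℕ} {V : ℤ} (hL1 : 1 ≤ L) (hL2 : L ≤ 6)
    (h : chordT k E L J = some V) : 2 ^ 72 * nu ((k : ℝ) ^ 2 * ((E : ℝ) / 2 ^ 24)) ≤ V := by
  unfold chordT at h
  cases hb : (Nat.ble (rl L) J && Nat.ble (J + 1) (rh L) && Nat.ble (16384 * (J * J)) (k * k * E) &&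
      Nat.ble (k * k * E) (16384 * ((J + 1) * (J + 1))))
  · rw [hb, cond_false] at h
    cases h
  · rw [hb, cond_true] at h
    have hV := Option.some.inj h
    simp only [Bool.and_eq_true] at hb
    obtain ⟨⟨⟨h1, h2⟩, h3⟩, h4⟩ := hb
    have g1 := Nat.le_of_ble_eq_true h1
    have g2 := Nat.le_of_ble_eq_true h2
    have g3 := Nat.le_of_ble_eq_true h3
    have g4 := Nat.le_of_ble_eq_true h4
    have r1 : RL L ≤ J := by interval_cases L <;> exact g1
    have r2 : J + 1 ≤ RH L := by interval_cases L <;> exact g2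
    have s0 := spec2 hL1 hL2 r1 (by omega)
    have s1 := spec2 hL1 hL2 (J := J + 1) (by omega) r2
    have n0 := node_lobe hL1 hL2 r1 (by omega)
    have n1 := node_lobe hL1 hL2 (J := J + 1) (by omega) r2
    set y0 : ℕ := 16384 * (J * J) with hy0
    set y1 : ℕ := 16384 * ((J + 1) * (J + 1)) with hy1
    set Y : ℕ := k * k * E with hY
    have hy01 : y0 < y1 := by
      have hJJ : J * J < (J + 1) * (J + 1) := Nat.mul_self_lt_mul_self (Nat.lt_succ_self J)
      exact Nat.mul_lt_mul_of_pos_left hJJ (by norm_num)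
    have hb0 : 0 < y1 - y0 := by omega
    set V0 : ℤ := t2D J * (y0 : ℤ) - t2F J + 549755813888 with hV0
    set V1 : ℤ := t2D (J + 1) * (y1 : ℤ) - t2F (J + 1) + 549755813888 with hV1
    have eV : V = -((-(V0 * ((y1 - Y : ℕ) : ℤ) + V1 * ((Y - y0 : ℕ) : ℤ))) / ((y1 - y0 : ℕ) : ℤ)) := hV.symm
    have hc := ceil_div_real (V0 * ((y1 - Y : ℕ) : ℤ) + V1 * ((Y - y0 : ℕ) : ℤ)) hb0
    rw [← eV] at hc
    refine le_trans ?_ hc
    push_cast [Nat.cast_sub g3, Nat.cast_sub g4, Nat.cast_sub hy01.le]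
    have e0 : ((y0 : ℕ) : ℝ) = 2 ^ 24 * ((J : ℝ) / 32) ^ 2 := by rw [hy0]; push_cast; ring
    have e1 : ((y1 : ℕ) : ℝ) = 2 ^ 24 * (((J + 1 : ℕ) : ℝ) / 32) ^ 2 := by rw [hy1]; push_cast; ring
    have eY : (k : ℝ) ^ 2 * ((E : ℝ) / 2 ^ 24) = (Y : ℝ) / 2 ^ 24 := by rw [hY]; push_cast; ring
    have v0 : 2 ^ 72 * nu (((J : ℝ) / 32) ^ 2) ≤ (V0 : ℝ) := by
      refine s0.2.2.2.trans (le_of_eq ?_)
      rw [hV0, hy0]; push_cast; ring
    have v1 : 2 ^ 72 * nu ((((J + 1 : ℕ) : ℝ) / 32) ^ 2) ≤ (V1 : ℝ) := by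
      refine s1.2.2.2.trans (le_of_eq ?_)
      rw [hV1, hy1]; push_cast; ring
    set x0 := ((J : ℝ) / 32) ^ 2
    set x1 := (((J + 1 : ℕ) : ℝ) / 32) ^ 2
    have hY0 : (y0 : ℝ) ≤ Y := by exact_mod_cast g3
    have hY1 : (Y : ℝ) ≤ y1 := by exact_mod_cast g4
    have hd : (0 : ℝ) < (y1 : ℝ) - y0 := by
      have : (y0 : ℝ) < y1 := by exact_mod_cast hy01
      linarith
    have hconv := (nu_convex_lobe hL1).2 n0 n1
      (show 0 ≤ ((y1 : ℝ) - (Y : ℝ)) / ((y1 : ℝ) - (y0 : ℝ)) from div_nonneg (by linarith) hd.le)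
      (show 0 ≤ ((Y : ℝ) - (y0 : ℝ)) / ((y1 : ℝ) - (y0 : ℝ)) from div_nonneg (by linarith) hd.le)
      (by field_simp; ring)
    simp only [smul_eq_mul] at hconv
    have ex : ((y1 : ℝ) - Y) / (y1 - y0) * x0 + ((Y : ℝ) - y0) / (y1 - y0) * x1 = (Y : ℝ) / 2 ^ 24 := by
      have a0 : x0 = (y0 : ℝ) / 2 ^ 24 := by rw [e0]; ring
      have a1 : x1 = (y1 : ℝ) / 2 ^ 24 := by rw [e1]; ring
      rw [a0, a1]
      field_simp
      ring
    rw [ex] at hconv
    rw [eY]
    calc 2 ^ 72 * nu ((Y : ℝ) / 2 ^ 24)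
        ≤ 2 ^ 72 * (((y1 : ℝ) - Y) / (y1 - y0) * nu x0 + ((Y : ℝ) - y0) / (y1 - y0) * nu x1) :=
          mul_le_mul_of_nonneg_left hconv (by positivity)
      _ = (((y1 : ℝ) - Y) * (2 ^ 72 * nu x0) + ((Y : ℝ) - y0) * (2 ^ 72 * nu x1)) / (y1 - y0) := by
          field_simp
      _ ≤ ((V0 : ℝ) * (y1 - Y) + V1 * (Y - y0)) / (y1 - y0) := by
          apply div_le_div_of_nonneg_right _ hd.le
          have m0 := mul_le_mul_of_nonneg_right v0 (sub_nonneg.2 hY1)
          have m1 := mul_le_mul_of_nonneg_right v1 (sub_nonneg.2 hY0)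
          rw [mul_comm ((y1 : ℝ) - (Y : ℝ)), mul_comm ((Y : ℝ) - (y0 : ℝ))]
          exact add_le_add m0 m1

theorem orElse_some {a b : Option ℤ} {V : ℤ} (h : orElse a b = some V) : a = some V ∨ b = some V := by
  cases a with
  | none => exact Or.inr h
  | some x => exact Or.inl h

theorem nuUp_sound {E j L : ℕ} {V : ℤ} (hk : 1 ≤ k) (hrk : r ≤ k) (hr : r = 0 ∨ L = 0)
    (hin : InL k L E) (h : nuUp k r E j L = some V) :
    2 ^ 72 * FF k r ((E : ℝ) / 2 ^ 24) ≤ V := by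
  unfold nuUp at h
  rcases Nat.eq_zero_or_pos L with hL | hL
  · subst hL
    have hb : Nat.beq 0 0 = true := rfl
    rw [hb, cond_true] at h
    rcases Nat.eq_zero_or_pos E with hE | hE
    · subst hE
      rw [hb, cond_true] at h
      have := Option.some.inj h
      rw [← this]
      simp [FF_zero]
    · rw [beq_zero_pos hE, cond_false] at h
      cases hr0 : Nat.beq r 0
      · rw [hr0, cond_false] at h
        cases h1 : (Nat.ble E (nd (j + 1)) && Nat.ble (k * (j + 1)) 790)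
        · rw [h1, cond_false] at h
          cases h2 : (Nat.ble E (nd (j + 2)) && Nat.ble (k * (j + 2)) 790)
          · rw [h2, cond_false] at h
            cases h
          · rw [h2, cond_true] at h
            rw [Bool.and_eq_true] at h2
            rw [← Option.some.inj h]
            exact fUp_sound hk hrk (Nat.le_of_ble_eq_true h2.2) (Nat.le_of_ble_eq_true h2.1)
        · rw [h1, cond_true] at h
          rw [Bool.and_eq_true] at h1
          rw [← Option.some.inj h]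
          exact fUp_sound hk hrk (Nat.le_of_ble_eq_true h1.2) (Nat.le_of_ble_eq_true h1.1)
      · rw [hr0, cond_true] at h
        have hr00 : r = 0 := Nat.eq_of_beq_eq_true hr0
        subst hr00
        cases h1 : Nat.ble (k * k * E) (256 * (upJ k j * upJ k j))
        · rw [h1, cond_false] at h
          cases h
        · rw [h1, cond_true] at h
          have hV := Option.some.inj h
          have hJ : upJ k j ≤ 790 := by unfold upJ; rw [nmin_eq]; omega
          set J := upJ k j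
          have hYJ := Nat.le_of_ble_eq_true h1
          have hY0 : 0 < k * k * E := by positivity
          have h3 := fUp_sound (k := 1) (r := 0) (j := J) (E := k * k * E) le_rfl (by omega)
            (by omega) hYJ
          have e1 : FF k 0 ((E : ℝ) / 2 ^ 24) = FF 1 0 (((k * k * E : ℕ) : ℝ) / 2 ^ 24) := by
            rw [FF_zero_r, FF_zero_r]
            push_cast
            congr 1
            ring
          rw [e1]
          refine h3.trans (le_of_eq ?_)
          have e2 : fUp 1 0 J (k * k * E) = sD 1 0 J * ((k * k * E : ℕ) : ℤ) - sF 1 0 J + 2199023255552 +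
              sMu 1 0 J * (((nd J - k * k * E) ^ 2 : ℕ) : ℤ) := by
            unfold fUp
            rw [beq_zero_pos hY0]
            rfl
          have e3 : V = ((t1D J * (k * k * E) + 1099511627776 : ℕ) : ℤ) - ((t1F J : ℕ) : ℤ) +
              (((t1M J + 2) * (256 * (J * J) - k * k * E) ^ 2 : ℕ) : ℤ) := hV.symm
          rw [e2, e3]
          have e4 : nd J = 256 * (J * J) := rfl
          rw [e4]
          push_cast
          have hJ0 : 0 < J := by
            rcases Nat.eq_zero_or_pos J with h0 | h0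
            · rw [h0, Nat.mul_zero] at hYJ
              omega
            · exact h0
          rw [sD_real, sF_real 1 0 hJ0, sMu_real]
          have e5 : t1F (0 * J) = 0 := by
            rw [Nat.zero_mul]
            exact spec0.2.2.1
          rw [e5, one_mul]
          push_cast
          ring
  · have hr0 : r = 0 := by omega
    subst hr0
    rw [beq_zero_pos hL, cond_false] at h
    rw [FF_zero_r]
    have hL2 := (hin.2.2 hL).1
    rcases orElse_some h with h1 | h1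
    · exact chordT_sound hL hL2 h1
    · rcases orElse_some h1 with h2 | h2
      · exact chordT_sound hL hL2 h2
      · exact chordT_sound hL hL2 h2

theorem G_convex {L : ℕ} (hk : 1 ≤ k) (hrk : r ≤ k) (hr : r = 0 ∨ L = 0) {u v : ℝ}
    (hin : ∀ E ∈ Icc u v, InL k L E) :
    ConvexOn ℝ (Icc u v) (fun E => 2 ^ 72 * FF k r (E / 2 ^ 24)) := by
  rcases Nat.eq_zero_or_pos L with hL | hL
  · subst hL
    refine ⟨convex_Icc _ _, fun x hx y hy α β hα hβ hab => ?_⟩
    have mem : ∀ E ∈ Icc u v, E / 2 ^ 24 ∈ Ico 0 (Real.pi ^ 2 / (k : ℝ) ^ 2) := fun E hE =>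
      ⟨div_nonneg (hin E hE).1 (by positivity), lt_R hk (E_lt ((hin E hE).2.1 rfl))⟩
    have := (PS_FF hk hrk).convexOn.2 (mem x hx) (mem y hy) hα hβ hab
    simp only [smul_eq_mul] at this ⊢
    have e : (α * x + β * y) / 2 ^ 24 = α * (x / 2 ^ 24) + β * (y / 2 ^ 24) := by ring
    rw [e]
    nlinarith
  · have hr0 : r = 0 := by omega
    subst hr0
    refine ⟨convex_Icc _ _, fun x hx y hy α β hα hβ hab => ?_⟩
    have mem : ∀ E ∈ Icc u v, (k : ℝ) ^ 2 * (E / 2 ^ 24) ∈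
        Ioo (((L : ℝ) * Real.pi) ^ 2) (((L + 1) * Real.pi) ^ 2) := fun E hE =>
      ((hin E hE).2.2 hL).2
    have := (nu_convex_lobe hL).2 (mem x hx) (mem y hy) hα hβ hab
    simp only [smul_eq_mul, FF_zero_r] at this ⊢
    have e : (k : ℝ) ^ 2 * ((α * x + β * y) / 2 ^ 24) =
        α * ((k : ℝ) ^ 2 * (x / 2 ^ 24)) + β * ((k : ℝ) ^ 2 * (y / 2 ^ 24)) := by ring
    rw [e]
    nlinarith

theorem subUp_sound {u v : ℕ} (huv : u ≤ v) {G : ℝ → ℝ} (hconv : ConvexOn ℝ (Icc (u : ℝ) v) G)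
    {a c vu vv : ℤ} (hu : G u ≤ vu) (hv : G v ≤ vv) {E : ℝ} (hE : E ∈ Icc (u : ℝ) v) :
    4 * (G E - a * E - c * E ^ 2) ≤ ((subUp u v a c vu vv : ℤ) : ℝ) := by
  have hm := le_imax (Int.sub (Int.mul 4 (Int.sub vu (Int.mul a (Int.ofNat u)))) (Int.mul c (Int.ofNat (4 * (u * u)))))
      (Int.sub (Int.mul 4 (Int.sub vv (Int.mul a (Int.ofNat v)))) (Int.mul c (Int.ofNat (4 * (v * v)))))
  obtain ⟨m1, m2⟩ := hm
  have es : subUp u v a c vu vv = imax (Int.sub (Int.mul 4 (Int.sub vu (Int.mul a (Int.ofNat u)))) (Int.mul c (Int.ofNat (4 * (u * u)))))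
      (Int.sub (Int.mul 4 (Int.sub vv (Int.mul a (Int.ofNat v)))) (Int.mul c (Int.ofNat (4 * (v * v))))) +
      (bif nn c then Int.mul c (Int.ofNat ((v - u) * (v - u))) else 0) := rfl
  rw [es]
  set m : ℤ := imax (Int.sub (Int.mul 4 (Int.sub vu (Int.mul a (Int.ofNat u)))) (Int.mul c (Int.ofNat (4 * (u * u)))))
      (Int.sub (Int.mul 4 (Int.sub vv (Int.mul a (Int.ofNat v)))) (Int.mul c (Int.ofNat (4 * (v * v)))))
  change ((4 * (vu - a * (u : ℤ)) - c * ((4 * (u * u) : ℕ) : ℤ) : ℤ) : ℝ) ≤ (m : ℝ) at m1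
  change ((4 * (vv - a * (v : ℤ)) - c * ((4 * (v * v) : ℕ) : ℤ) : ℤ) : ℝ) ≤ (m : ℝ) at m2
  push_cast at m1 m2 ⊢
  have hint : 0 ≤ (E - u) * (v - E) := mul_nonneg (sub_nonneg.2 hE.1) (sub_nonneg.2 hE.2)
  -- the affine interpolation of `G`
  have hG : ∃ α β : ℝ, α + β * u ≤ vu ∧ α + β * v ≤ vv ∧ G E ≤ α + β * E := by
    rcases huv.eq_or_lt with h | h
    · subst h
      have : E = u := le_antisymm hE.2 hE.1
      refine ⟨G u, 0, by simpa using hu, by simpa using hv, ?_⟩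
      rw [this]; simp
    · have h' : (u : ℝ) < v := by exact_mod_cast h
      have hd : (0 : ℝ) < v - u := by linarith
      have := hconv.2 (left_mem_Icc.2 h'.le) (right_mem_Icc.2 h'.le)
        (show 0 ≤ ((v : ℝ) - E) / ((v : ℝ) - (u : ℝ)) from div_nonneg (by linarith [hE.2]) hd.le)
        (show 0 ≤ (E - (u : ℝ)) / ((v : ℝ) - (u : ℝ)) from div_nonneg (by linarith [hE.1]) hd.le)
        (by field_simp; ring)
      simp only [smul_eq_mul] at this
      have e : ((v : ℝ) - E) / (v - u) * u + (E - u) / (v - u) * v = E := by field_simp; ring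
      rw [e] at this
      refine ⟨G u - (G v - G u) / (v - u) * u, (G v - G u) / (v - u), ?_, ?_, this.trans (le_of_eq ?_)⟩
      · have : G u - (G v - G u) / (v - u) * u + (G v - G u) / (v - u) * u = G u := by ring
        rw [this]; exact hu
      · have : G u - (G v - G u) / (v - u) * u + (G v - G u) / (v - u) * v = G v := by
          field_simp; ring
        rw [this]; exact hv
      · field_simp; ring
  obtain ⟨α, β, h1, h2, h3⟩ := hG
  have hvu : (u : ℝ) ≤ v := by exact_mod_cast huv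
  have h4 : (4 * α + 4 * c * (u * v)) + (4 * (β - a) - 4 * c * (u + v)) * E ≤ m :=
    affine_max hE.1 hE.2 (by nlinarith) (by nlinarith)
  cases hc : nn c
  · have hc0 := nn_false hc
    simp only [cond_false, Int.cast_zero, add_zero]
    nlinarith [mul_nonneg_of_nonpos_of_nonpos hc0.le (neg_nonpos.2 hint)]
  · have hc0 := nn_real hc
    simp only [cond_true]
    have e5 : (((Int.mul c (Int.ofNat ((v - u) * (v - u)))) : ℤ) : ℝ) = (c : ℝ) * ((v : ℝ) - u) ^ 2 := by
      have : Int.mul c (Int.ofNat ((v - u) * (v - u))) = c * (((v - u) * (v - u) : ℕ) : ℤ) := rfl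
      rw [this]
      push_cast [Nat.cast_sub huv]
      ring
    rw [e5]
    have h6 : 4 * ((E - u) * (v - E)) ≤ ((v : ℝ) - u) ^ 2 := by nlinarith [sq_nonneg (2 * E - u - v)]
    nlinarith [mul_le_mul_of_nonneg_left h6 hc0]

theorem subHi_sound {u v ju jv L : ℕ} {a c H : ℤ} (hk : 1 ≤ k) (hrk : r ≤ k) (hr : r = 0 ∨ L = 0)
    (huv : u ≤ v) (hin : ∀ E ∈ Icc (u : ℝ) v, InL k L E) (h : subHi k r u v ju jv L a c = some H)
    {E : ℝ} (hE : E ∈ Icc (u : ℝ) v) :
    4 * (2 ^ 72 * FF k r (E / 2 ^ 24) - a * E - c * E ^ 2) ≤ H := by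
  unfold subHi at h
  have huv' : (u : ℝ) ≤ v := by exact_mod_cast huv
  cases h1 : nuUp k r u ju L with
  | none => rw [h1] at h; cases h
  | some vu =>
    cases h2 : nuUp k r v jv L with
    | none => rw [h1, h2] at h; cases h
    | some vv =>
      rw [h1, h2] at h
      rw [← Option.some.inj h]
      exact subUp_sound huv (G_convex hk hrk hr hin)
        (nuUp_sound hk hrk hr (hin _ (left_mem_Icc.2 huv')) h1)
        (nuUp_sound hk hrk hr (hin _ (right_mem_Icc.2 huv')) h2) hE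

theorem omax_some {a b : Option ℤ} {H : ℤ} (h : omax a b = some H) :
    ∃ x y, a = some x ∧ b = some y ∧ (x : ℝ) ≤ H ∧ (y : ℝ) ≤ H := by
  cases a with
  | none => cases b <;> cases h
  | some x =>
    cases b with
    | none => cases h
    | some y =>
      have := Option.some.inj h
      rw [← this]
      exact ⟨x, y, rfl, rfl, (le_imax x y).1, (le_imax x y).2⟩

theorem cellHiR_sound {lo hi jl jh q L : ℕ} {a c : ℤ} (hk : 1 ≤ k) (hrk : r ≤ k)
    (hr : r = 0 ∨ L = 0) (hlh : lo ≤ hi)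
    (hin : ∀ E ∈ Icc ((25 * lo : ℕ) : ℝ) ((25 * hi : ℕ) : ℝ), InL k L E) :
    ∀ n : ℕ, n + 1 ≤ q → ∀ H : ℤ, cellHiR k r lo hi jl jh q L a c n = some H →
      ∀ E ∈ Icc ((25 * lo : ℕ) : ℝ) ((25 * (lo + (hi - lo) * (n + 1) / q) : ℕ) : ℝ),
      4 * (2 ^ 72 * FF k r (E / 2 ^ 24) - a * E - c * E ^ 2) ≤ H := by
  have htop : ∀ n : ℕ, n ≤ q → 25 * (lo + (hi - lo) * n / q) ≤ 25 * hi := by
    intro n hn
    have h1 : (hi - lo) * n / q ≤ hi - lo := by
      apply Nat.div_le_of_le_mul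
      calc (hi - lo) * n ≤ (hi - lo) * q := Nat.mul_le_mul_left _ hn
        _ = q * (hi - lo) := Nat.mul_comm _ _
    omega
  intro n
  induction n with
  | zero =>
    intro hn H h E hE
    have ht := htop 1 hn
    have ht' : ((25 * (lo + (hi - lo) * 1 / q) : ℕ) : ℝ) ≤ ((25 * hi : ℕ) : ℝ) := by exact_mod_cast ht
    exact subHi_sound hk hrk hr (Nat.mul_le_mul_left 25 (Nat.le_add_right lo _))
      (fun E hE => hin E ⟨hE.1, hE.2.trans ht'⟩) h hE
  | succ n ih =>
    intro hn H h E hE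
    rw [cellHiR] at h
    obtain ⟨x, y, hx, hy, h1, h2⟩ := omax_some h
    have ht := htop (n + 2) hn
    have ht' : ((25 * (lo + (hi - lo) * (n + 2) / q) : ℕ) : ℝ) ≤ ((25 * hi : ℕ) : ℝ) := by
      exact_mod_cast ht
    rcases le_total E ((25 * (lo + (hi - lo) * (n + 1) / q) : ℕ) : ℝ) with hh | hh
    · exact (ih (by omega) y hy E ⟨hE.1, hh⟩).trans h2
    · have hmono : (hi - lo) * (n + 1) / q ≤ (hi - lo) * (n + 2) / q :=
        Nat.div_le_div_right (Nat.mul_le_mul_left _ (by omega))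
      have hlow : ((25 * lo : ℕ) : ℝ) ≤ ((25 * (lo + (hi - lo) * (n + 1) / q) : ℕ) : ℝ) := by
        exact_mod_cast (Nat.mul_le_mul_left 25 (Nat.le_add_right lo _) : 25 * lo ≤ 25 * (lo + (hi - lo) * (n + 1) / q))
      exact (subHi_sound (u := 25 * (lo + (hi - lo) * (n + 1) / q))
        (v := 25 * (lo + (hi - lo) * (n + 2) / q)) hk hrk hr (by omega)
        (fun E hE => hin E ⟨hlow.trans hE.1, hE.2.trans ht'⟩) hx ⟨hh, hE.2⟩).trans h1

theorem ceil4_real (x : ℤ) : (x : ℝ) / 4 ≤ ((Int.neg (Int.ediv (Int.neg x) 4) : ℤ) : ℝ) := by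
  have h := ceil_div_real x (b := 4) (by norm_num)
  push_cast at h
  have e : Int.neg (Int.ediv (Int.neg x) 4) = -((-x) / 4) := rfl
  rw [e]
  push_cast
  exact h

theorem cellHi_sound {lo hi jl jh L : ℕ} {a c H : ℤ} (hk : 1 ≤ k) (hrk : r ≤ k)
    (hr : r = 0 ∨ L = 0) (hlh : lo ≤ hi)
    (hin : ∀ E ∈ Icc ((25 * lo : ℕ) : ℝ) ((25 * hi : ℕ) : ℝ), InL k L E)
    (h : cellHi k r lo hi jl jh L a c = some H) {E : ℝ}
    (hE : E ∈ Icc ((25 * lo : ℕ) : ℝ) ((25 * hi : ℕ) : ℝ)) :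
    2 ^ 72 * FF k r (E / 2 ^ 24) ≤ a * E + c * E ^ 2 + H := by
  have hq := nsub_pos k lo jl jh
  unfold cellHi at h
  set q := nsub k lo jl jh
  cases h1 : cellHiR k r lo hi jl jh q L a c (q - 1) with
  | none => rw [h1] at h; cases h
  | some x =>
    rw [h1] at h
    have h2 := cellHiR_sound hk hrk hr hlh hin (q - 1) (by omega) x h1 E (by
      have e : q - 1 + 1 = q := by omega
      rw [e, Nat.mul_div_cancel _ hq, Nat.add_sub_cancel' hlh]
      exact hE)
    have h3 := ceil4_real x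
    have h4 : Int.neg (Int.ediv (Int.neg x) 4) = H := Option.some.inj h
    rw [h4] at h3
    linarith

theorem cell0HiR_sound {lo hi q : ℕ} {a c : ℤ} (hlh : lo ≤ hi) :
    ∀ n : ℕ, n + 1 ≤ q → ∀ E ∈ Icc ((25 * lo : ℕ) : ℝ) ((25 * (lo + (hi - lo) * (n + 1) / q) : ℕ) : ℝ),
      -((a : ℝ) * E + c * E ^ 2) ≤ ((cell0HiR lo hi q a c n : ℤ) : ℝ) / 4 := by
  have hc0 : ∀ u v : ℝ, ConvexOn ℝ (Icc u v) (fun _ : ℝ => (0 : ℝ)) := fun u v =>
    convexOn_const 0 (convex_Icc _ _)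
  intro n
  induction n with
  | zero =>
    intro hn E hE
    have := subUp_sound (u := 25 * lo) (v := 25 * (lo + (hi - lo) * 1 / q))
      (Nat.mul_le_mul_left 25 (Nat.le_add_right lo _)) (hc0 _ _)
      (a := a) (c := c) (vu := 0) (vv := 0) (by simp) (by simp) hE
    rw [cell0HiR]
    linarith
  | succ n ih =>
    intro hn E hE
    have hm := le_imax (subUp (25 * (lo + (hi - lo) * (n + 1) / q)) (25 * (lo + (hi - lo) * (n + 2) / q)) a c 0 0)
      (cell0HiR lo hi q a c n)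
    rw [cell0HiR]
    rcases le_total E ((25 * (lo + (hi - lo) * (n + 1) / q) : ℕ) : ℝ) with h | h
    · have := ih (by omega) E ⟨hE.1, h⟩
      linarith [hm.2]
    · have hmono : (hi - lo) * (n + 1) / q ≤ (hi - lo) * (n + 2) / q :=
        Nat.div_le_div_right (Nat.mul_le_mul_left _ (by omega))
      have := subUp_sound (u := 25 * (lo + (hi - lo) * (n + 1) / q))
        (v := 25 * (lo + (hi - lo) * (n + 2) / q)) (by omega) (hc0 _ _)
        (a := a) (c := c) (vu := 0) (vv := 0) (by simp) (by simp) ⟨h, hE.2⟩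
      linarith [hm.1]

theorem cell0Hi_sound {lo hi jl jh : ℕ} {a c : ℤ} (hlh : lo ≤ hi) {E : ℝ}
    (hE : E ∈ Icc ((25 * lo : ℕ) : ℝ) ((25 * hi : ℕ) : ℝ)) :
    0 ≤ (a : ℝ) * E + c * E ^ 2 + ((cell0Hi k lo hi jl jh a c : ℤ) : ℝ) := by
  have hq := nsub_pos k lo jl jh
  unfold cell0Hi
  set q := nsub k lo jl jh
  have h := cell0HiR_sound (q := q) (a := a) (c := c) hlh (q - 1) (by omega) E (by
      have e : q - 1 + 1 = q := by omega
      rw [e, Nat.mul_div_cancel _ hq, Nat.add_sub_cancel' hlh]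
      exact hE)
  have := ceil4_real (cell0HiR lo hi q a c (q - 1))
  linarith

end

end Pool.Agent.H60.SL.Ck
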