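import Pool.Agent.H60.SL.CkLineDefs

/-!
# Cell bounds (kernel evaluation)
-/

set_option autoImplicit false

namespace Pool.Agent.H60.SL.Ck

/-- evaluate a natural number before use -/
def force {α : Type} (n : Nat) (f : Nat → α) : α :=
  match n with
  | 0 => f 0
  | n + 1 => f (n + 1)

def forceI {α : Type} (a : Int) (f : Int → α) : α :=
  match a with
  | .ofNat n => force n fun n => f (.ofNat n)
  | .negSucc n => force n fun n => f (.negSucc n)

def imin (a b : Int) : Int := bif le a b then a else b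
def imax (a b : Int) : Int := bif le a b then b else a


/-- `4` times a lower bound of `d E - f - a E - c E²` on `[u, v]` -/
def subVal (u v : Nat) (a c d f : Int) : Int :=
  bif nn c then
    imin (Int.sub (Int.mul 4 (Int.sub (Int.mul (Int.sub d a) (Int.ofNat u)) f)) (Int.mul c (Int.ofNat (4 * (u * u)))))
      (Int.sub (Int.mul 4 (Int.sub (Int.mul (Int.sub d a) (Int.ofNat v)) f)) (Int.mul c (Int.ofNat (4 * (v * v)))))
  else
    imin (Int.sub (Int.mul 4 (Int.sub (Int.mul (Int.sub d a) (Int.ofNat u)) f))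
        (Int.mul c (Int.sub (Int.ofNat (3 * (u * u) + 2 * (u * v))) (Int.ofNat (v * v)))))
      (Int.sub (Int.mul 4 (Int.sub (Int.mul (Int.sub d a) (Int.ofNat v)) f))
        (Int.mul c (Int.sub (Int.ofNat (3 * (v * v) + 2 * (u * v))) (Int.ofNat (u * u)))))

def clampJ (L J : Nat) : Nat := nmin (nmax J (rl L)) (rh L)

/-- tangent in lobe `L ≥ 1` -/
def subL (k u v L J : Nat) (a c : Int) : Int :=
  subVal u v a c (Int.mul (Int.ofNat (k * k)) (t2D (clampJ L J))) (t2F (clampJ L J))

/-- across the zero `b` -/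
def subZ (k u v b ju jv : Nat) (dflt a c : Int) : Int :=
  bif (Nat.beq b 1 || nn (t2D (clampJ (b - 1) ((k * ju + 4) / 8)))) &&
      nn (Int.neg (t2D (clampJ b ((k * jv + 4) / 8)))) then
    subVal u v a c 0 (Int.neg (imin
      (bif Nat.beq b 1 then
        Int.sub (Int.ofNat (k * k * t1D (nmin (k * ju) 790) * u)) (Int.ofNat (t1F (nmin (k * ju) 790)))
      else Int.sub (Int.mul (t2D (clampJ (b - 1) ((k * ju + 4) / 8))) (Int.ofNat (k * k * u)))
        (t2F (clampJ (b - 1) ((k * ju + 4) / 8))))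
      (Int.sub (Int.mul (t2D (clampJ b ((k * jv + 4) / 8))) (Int.ofNat (k * k * v)))
        (t2F (clampJ b ((k * jv + 4) / 8))))))
  else dflt

/-- beyond the first lobe; `L1`, `b1` are guesses of the lobe and of the nearest zero -/
def subBigL (k u v ju jv j L1 b1 : Nat) (dflt a c : Int) : Int :=
  bif Nat.ble 1 L1 && Nat.ble L1 2 && Nat.ble (PLt L1) (k * k * u) &&
      Nat.ble (k * k * v) (PHt (L1 + 1)) then
    subL k u v L1 ((k * j + 4) / 8) a c
  else bif Nat.ble 1 b1 && Nat.ble b1 2 && (Nat.beq b1 1 || Nat.ble (PLt (b1 - 1)) (k * k * u)) &&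
      Nat.ble (k * k * v) (PHt (b1 + 1)) then
    subZ k u v b1 ju jv dflt a c
  else dflt

def subBig (k u v ju jv j : Nat) (dflt a c : Int) : Int :=
  bif Nat.ble (k * k * v) 1490260362 then
    force (k * j * 1000 / 804248) fun L1 => force ((k * j * 1000 + 402124) / 804248) fun b1 =>
      subBigL k u v ju jv j L1 b1 dflt a c
  else dflt

/-- `4` times a lower bound of `2^72 nu-difference - a E - c E²` on `[u, v]`;
`lg` is a lower bound of `2^72 (log k + log √η)` -/
def subLo (k r u v ju jv : Nat) (lg a c : Int) : Int :=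
  bif Nat.ble (k * k * v) 159769600 then
    bif Nat.beq r 0 then
      subVal u v a c (Int.ofNat (k * k * t1D (nmin (k * ((ju + jv) / 2)) 790)))
        (Int.ofNat (t1F (nmin (k * ((ju + jv) / 2)) 790)))
    else
      subVal u v a c (sD k r (nmin ((ju + jv) / 2) (790 / k))) (sF k r (nmin ((ju + jv) / 2) (790 / k)))
  else subBig k u v ju jv ((ju + jv) / 2) (subVal u v a c 0 (Int.neg lg)) a c

/-- minimum over the subcells `0, ..., n` of `q` -/
def cellLoR (k r lo hi jl jh q : Nat) (lg a c : Int) : Nat → Int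
  | 0 => subLo k r (25 * lo) (25 * (lo + (hi - lo) * 1 / q)) jl ((jl * (q - 1) + jh * 1) / q) lg a c
  | n + 1 => imin (subLo k r (25 * (lo + (hi - lo) * (n + 1) / q)) (25 * (lo + (hi - lo) * (n + 2) / q))
      ((jl * (q - (n + 1)) + jh * (n + 1)) / q) ((jl * (q - (n + 2)) + jh * (n + 2)) / q) lg a c)
      (cellLoR k r lo hi jl jh q lg a c n)

/-- number of subcells -/
def nsub (k lo jl jh : Nat) : Nat :=
  bif Nat.ble 1490260362 (k * k * (25 * lo)) then 1 else k * (jh - jl) / 32 + 1

def cellLo (k r lo hi jl jh : Nat) (lg a c : Int) : Int :=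
  Int.ediv (cellLoR k r lo hi jl jh (nsub k lo jl jh) lg a c (nsub k lo jl jh - 1)) 4

/-- cell without `nu`, `- a E - c E²` -/
def cell0R (lo hi q : Nat) (a c : Int) : Nat → Int
  | 0 => subVal (25 * lo) (25 * (lo + (hi - lo) * 1 / q)) a c 0 0
  | n + 1 => imin (subVal (25 * (lo + (hi - lo) * (n + 1) / q)) (25 * (lo + (hi - lo) * (n + 2) / q)) a c 0 0)
      (cell0R lo hi q a c n)

def cell0 (k lo hi jl jh : Nat) (a c : Int) : Int :=
  Int.ediv (cell0R lo hi (nsub k lo jl jh) a c (nsub k lo jl jh - 1)) 4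

/-! ## upper bounds -/

/-- the node used on the first lobe -/
def upJ (k j : Nat) : Nat := nmin (k * (j + 1) + 1) 790

def chordUp (y0 y1 Y : Nat) (V0 V1 : Int) : Int :=
  Int.neg (Int.ediv (Int.neg (Int.add (Int.mul V0 (Int.ofNat (y1 - Y))) (Int.mul V1 (Int.ofNat (Y - y0))))) (Int.ofNat (y1 - y0)))

def chordT (k E L J : Nat) : Option Int :=
  bif Nat.ble (rl L) J && Nat.ble (J + 1) (rh L) && Nat.ble (16384 * (J * J)) (k * k * E) &&
      Nat.ble (k * k * E) (16384 * ((J + 1) * (J + 1))) then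
    some (chordUp (16384 * (J * J)) (16384 * ((J + 1) * (J + 1))) (k * k * E)
      (Int.add (Int.sub (Int.mul (t2D J) (Int.ofNat (16384 * (J * J)))) (t2F J)) 549755813888)
      (Int.add (Int.sub (Int.mul (t2D (J + 1)) (Int.ofNat (16384 * ((J + 1) * (J + 1))))) (t2F (J + 1))) 549755813888))
  else none

def orElse (a b : Option Int) : Option Int :=
  match a with
  | some x => some x
  | none => b

/-- upper bound of `2^72` times the `nu`-difference at `E` in lobe `L` -/
def nuUp (k r E j L : Nat) : Option Int :=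
  bif Nat.beq L 0 then
    bif Nat.beq E 0 then some 0
    else bif Nat.beq r 0 then
      bif Nat.ble (k * k * E) (256 * (upJ k j * upJ k j)) then
        some (Int.add (Int.sub (Int.ofNat (t1D (upJ k j) * (k * k * E) + 1099511627776)) (Int.ofNat (t1F (upJ k j))))
          (Int.ofNat ((t1M (upJ k j) + 2) * (256 * (upJ k j * upJ k j) - k * k * E) ^ 2)))
      else none
    else bif Nat.ble E (nd (j + 1)) && Nat.ble (k * (j + 1)) 790 then some (fUp k r (j + 1) E)
    else bif Nat.ble E (nd (j + 2)) && Nat.ble (k * (j + 2)) 790 then some (fUp k r (j + 2) E)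
    else none
  else orElse (chordT k E L (k * j / 8)) (orElse (chordT k E L (k * j / 8 + 1)) (chordT k E L (k * j / 8 - 1)))

/-- `4` times an upper bound of `V - a E - c E²` on `[u, v]`, `V` convex with end values `vu, vv` -/
def subUp (u v : Nat) (a c vu vv : Int) : Int :=
  Int.add (imax (Int.sub (Int.mul 4 (Int.sub vu (Int.mul a (Int.ofNat u)))) (Int.mul c (Int.ofNat (4 * (u * u)))))
      (Int.sub (Int.mul 4 (Int.sub vv (Int.mul a (Int.ofNat v)))) (Int.mul c (Int.ofNat (4 * (v * v))))))
    (bif nn c then Int.mul c (Int.ofNat ((v - u) * (v - u))) else 0)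

def subHi (k r u v ju jv L : Nat) (a c : Int) : Option Int :=
  match nuUp k r u ju L, nuUp k r v jv L with
  | some vu, some vv => some (subUp u v a c vu vv)
  | _, _ => none

def omax (a b : Option Int) : Option Int :=
  match a, b with
  | some x, some y => some (imax x y)
  | _, _ => none

def cellHiR (k r lo hi jl jh q L : Nat) (a c : Int) : Nat → Option Int
  | 0 => subHi k r (25 * lo) (25 * (lo + (hi - lo) * 1 / q)) jl ((jl * (q - 1) + jh * 1) / q) L a c
  | n + 1 => omax (subHi k r (25 * (lo + (hi - lo) * (n + 1) / q)) (25 * (lo + (hi - lo) * (n + 2) / q))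
      ((jl * (q - (n + 1)) + jh * (n + 1)) / q) ((jl * (q - (n + 2)) + jh * (n + 2)) / q) L a c)
      (cellHiR k r lo hi jl jh q L a c n)

/-- `⌈x / 4⌉` -/
def ceil4 (a : Option Int) : Option Int :=
  match a with
  | some x => some (Int.neg (Int.ediv (Int.neg x) 4))
  | none => none

def cellHi (k r lo hi jl jh L : Nat) (a c : Int) : Option Int :=
  ceil4 (cellHiR k r lo hi jl jh (nsub k lo jl jh) L a c (nsub k lo jl jh - 1))

/-- the cell lies in the lobe `L` (range condition) -/
def inLobe (k lo hi L : Nat) : Bool :=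
  bif Nat.beq L 0 then Nat.ble (k * k * (25 * hi)) 159769600
  else Nat.ble (PLt L) (k * k * (25 * lo)) && Nat.ble (k * k * (25 * hi)) (PHt (L + 1)) && Nat.ble L 6

/-- cell without `nu`, upper bound -/
def cell0HiR (lo hi q : Nat) (a c : Int) : Nat → Int
  | 0 => subUp (25 * lo) (25 * (lo + (hi - lo) * 1 / q)) a c 0 0
  | n + 1 => imax (subUp (25 * (lo + (hi - lo) * (n + 1) / q)) (25 * (lo + (hi - lo) * (n + 2) / q)) a c 0 0)
      (cell0HiR lo hi q a c n)

def cell0Hi (k lo hi jl jh : Nat) (a c : Int) : Int :=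
  Int.neg (Int.ediv (Int.neg (cell0HiR lo hi (nsub k lo jl jh) a c (nsub k lo jl jh - 1))) 4)

end Pool.Agent.H60.SL.Ck
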