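import Pool.Agent.H60.SL.CkLine2
import Pool.Agent.H60.SL.CkCellDefs

/-!
# Soundness of the lower cell bounds
-/

set_option autoImplicit false

open Set

namespace Pool.Agent.H60.SL.Ck

theorem imin_le (a b : ℤ) : ((imin a b : ℤ) : ℝ) ≤ a ∧ ((imin a b : ℤ) : ℝ) ≤ b := by
  unfold imin
  cases h : le a b
  · have : ¬ a ≤ b := fun h2 => by rw [le_iff.2 h2] at h; cases h
    rw [cond_false]
    exact ⟨by exact_mod_cast (not_le.1 this).le, le_rfl⟩
  · have : a ≤ b := le_iff.1 h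
    rw [cond_true]
    exact ⟨le_rfl, by exact_mod_cast this⟩

theorem le_imin {a b : ℤ} {x : ℝ} (h1 : x ≤ a) (h2 : x ≤ b) : x ≤ ((imin a b : ℤ) : ℝ) := by
  unfold imin
  cases h : le a b
  · rw [cond_false]; exact h2
  · rw [cond_true]; exact h1

theorem le_imax (a b : ℤ) : (a : ℝ) ≤ ((imax a b : ℤ) : ℝ) ∧ (b : ℝ) ≤ ((imax a b : ℤ) : ℝ) := by
  unfold imax
  cases h : le a b
  · have : ¬ a ≤ b := fun h2 => by rw [le_iff.2 h2] at h; cases h
    rw [cond_false]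
    exact ⟨le_rfl, by exact_mod_cast (not_le.1 this).le⟩
  · have : a ≤ b := le_iff.1 h
    rw [cond_true]
    exact ⟨by exact_mod_cast this, le_rfl⟩

theorem nn_false {c : ℤ} (h : nn c = false) : (c : ℝ) < 0 := by
  have : ¬ (0 ≤ c) := fun h2 => by rw [nn_iff.2 h2] at h; cases h
  exact_mod_cast not_le.1 this

/-- an affine function is at least the minimum of its end values -/
theorem affine_min {α β u v E m : ℝ} (hu : u ≤ E) (hv : E ≤ v) (h1 : m ≤ α + β * u)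
    (h2 : m ≤ α + β * v) : m ≤ α + β * E := by
  rcases le_total 0 β with h | h
  · nlinarith
  · nlinarith

theorem affine_max {α β u v E m : ℝ} (hu : u ≤ E) (hv : E ≤ v) (h1 : α + β * u ≤ m)
    (h2 : α + β * v ≤ m) : α + β * E ≤ m := by
  rcases le_total 0 β with h | h
  · nlinarith
  · nlinarith

theorem subVal_sound {u v : ℕ} {a c d f : ℤ} {E : ℝ} (hE : E ∈ Icc (u : ℝ) v) :
    ((subVal u v a c d f : ℤ) : ℝ) ≤ 4 * ((d : ℝ) * E - f - a * E - c * E ^ 2) := by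
  unfold subVal
  have huv : 0 ≤ (E - u) * (v - E) := mul_nonneg (sub_nonneg.2 hE.1) (sub_nonneg.2 hE.2)
  cases hc : nn c
  · rw [cond_false]
    have hc0 := nn_false hc
    have h1 := (imin_le (Int.sub (Int.mul 4 (Int.sub (Int.mul (Int.sub d a) (Int.ofNat u)) f))
        (Int.mul c (Int.sub (Int.ofNat (3 * (u * u) + 2 * (u * v))) (Int.ofNat (v * v)))))
      (Int.sub (Int.mul 4 (Int.sub (Int.mul (Int.sub d a) (Int.ofNat v)) f))
        (Int.mul c (Int.sub (Int.ofNat (3 * (v * v) + 2 * (u * v))) (Int.ofNat (u * u))))))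
    set m : ℝ := ((imin (Int.sub (Int.mul 4 (Int.sub (Int.mul (Int.sub d a) (Int.ofNat u)) f))
        (Int.mul c (Int.sub (Int.ofNat (3 * (u * u) + 2 * (u * v))) (Int.ofNat (v * v)))))
      (Int.sub (Int.mul 4 (Int.sub (Int.mul (Int.sub d a) (Int.ofNat v)) f))
        (Int.mul c (Int.sub (Int.ofNat (3 * (v * v) + 2 * (u * v))) (Int.ofNat (u * u))))) : ℤ) : ℝ)
    obtain ⟨h2, h3⟩ := h1
    change m ≤ ((4 * ((d - a) * (u : ℤ) - f) - c * (((3 * (u * u) + 2 * (u * v) : ℕ) : ℤ) - ((v * v : ℕ) : ℤ)) : ℤ) : ℝ) at h2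
    change m ≤ ((4 * ((d - a) * (v : ℤ) - f) - c * (((3 * (v * v) + 2 * (u * v) : ℕ) : ℤ) - ((u * u : ℕ) : ℤ)) : ℤ) : ℝ) at h3
    push_cast at h2 h3
    have h4 : m ≤ (-4 * (f : ℝ) + c * (u + v) ^ 2) + (4 * ((d : ℝ) - a) - 4 * c * (u + v)) * E :=
      affine_min hE.1 hE.2 (by nlinarith) (by nlinarith)
    nlinarith [mul_nonneg_of_nonpos_of_nonpos hc0.le (neg_nonpos.2 (sq_nonneg (2 * E - u - v)))]
  · rw [cond_true]
    have hc0 := nn_real hc
    have h1 := (imin_le (Int.sub (Int.mul 4 (Int.sub (Int.mul (Int.sub d a) (Int.ofNat u)) f)) (Int.mul c (Int.ofNat (4 * (u * u)))))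
      (Int.sub (Int.mul 4 (Int.sub (Int.mul (Int.sub d a) (Int.ofNat v)) f)) (Int.mul c (Int.ofNat (4 * (v * v))))))
    set m : ℝ := ((imin (Int.sub (Int.mul 4 (Int.sub (Int.mul (Int.sub d a) (Int.ofNat u)) f)) (Int.mul c (Int.ofNat (4 * (u * u)))))
      (Int.sub (Int.mul 4 (Int.sub (Int.mul (Int.sub d a) (Int.ofNat v)) f)) (Int.mul c (Int.ofNat (4 * (v * v))))) : ℤ) : ℝ)
    obtain ⟨h2, h3⟩ := h1
    change m ≤ ((4 * ((d - a) * (u : ℤ) - f) - c * ((4 * (u * u) : ℕ) : ℤ) : ℤ) : ℝ) at h2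
    change m ≤ ((4 * ((d - a) * (v : ℤ) - f) - c * ((4 * (v * v) : ℕ) : ℤ) : ℤ) : ℝ) at h3
    push_cast at h2 h3
    have h4 : m ≤ (-4 * (f : ℝ) + 4 * c * (u * v)) + (4 * ((d : ℝ) - a) - 4 * c * (u + v)) * E :=
      affine_min hE.1 hE.2 (by nlinarith) (by nlinarith)
    nlinarith [mul_nonneg hc0 huv]

/-- a lower bound by an affine function gives the subcell bound -/
theorem LB_subVal {k r u v : ℕ} {a c d f : ℤ} {E : ℝ} (hE : E ∈ Icc (u : ℝ) v)
    (h : LB k r E ((d : ℝ) * E - f)) :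
    LB k r E ((a : ℝ) * E + c * E ^ 2 + ((subVal u v a c d f : ℤ) : ℝ) / 4) := by
  refine h.mono ?_
  have := subVal_sound (a := a) (c := c) (d := d) (f := f) hE
  linarith

theorem clampJ_mem {L : ℕ} (hL : 1 ≤ L) (J : ℕ) : rl L ≤ clampJ L J ∧ clampJ L J ≤ rh L := by
  unfold clampJ
  rw [nmin_eq, nmax_eq]
  have : rl L ≤ rh L := by
    unfold rl rh
    rcases L with _ | _ | _ | _ | _ | _ | _ <;> simp_all
  omega

section

variable {k r : ℕ}

theorem scaleE (E : ℝ) : (k : ℝ) ^ 2 * (E / 2 ^ 24) = (k : ℝ) ^ 2 * E / 2 ^ 24 := by ring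

theorem lobe_lo {L u : ℕ} (hL : L ≤ 7) (h : PLt L ≤ k * k * u) {E : ℝ} (hE : (u : ℝ) ≤ E) :
    ((L : ℝ) * Real.pi) ^ 2 < (k : ℝ) ^ 2 * (E / 2 ^ 24) := by
  have h1 := PLt_gt hL
  have h2 : ((PLt L : ℕ) : ℝ) ≤ ((k * k * u : ℕ) : ℝ) := by exact_mod_cast h
  push_cast at h2
  rw [scaleE, lt_div_iff₀ (by positivity)]
  nlinarith [mul_le_mul_of_nonneg_left hE (sq_nonneg (k : ℝ))]

theorem lobe_hi {L v : ℕ} (h0 : 1 ≤ L) (hL : L ≤ 7) (h : k * k * v ≤ PHt L) {E : ℝ}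
    (hE : E ≤ v) : (k : ℝ) ^ 2 * (E / 2 ^ 24) < ((L : ℝ) * Real.pi) ^ 2 := by
  have h1 := PHt_lt h0 hL
  have h2 : ((k * k * v : ℕ) : ℝ) ≤ ((PHt L : ℕ) : ℝ) := by exact_mod_cast h
  push_cast at h2
  rw [scaleE, div_lt_iff₀ (by positivity)]
  nlinarith [mul_le_mul_of_nonneg_left hE (sq_nonneg (k : ℝ))]

theorem subL_sound {u v L J : ℕ} {a c : ℤ} (hL1 : 1 ≤ L) (hL2 : L ≤ 6)
    (h1 : PLt L ≤ k * k * u) (h2 : k * k * v ≤ PHt (L + 1)) {E : ℝ} (hE : E ∈ Icc (u : ℝ) v) :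
    LB k 0 E ((a : ℝ) * E + c * E ^ 2 + ((subL k u v L J a c : ℤ) : ℝ) / 4) := by
  have hE0 : 0 ≤ E := le_trans (Nat.cast_nonneg _) hE.1
  refine LB_subVal hE (LB_of_nu hE0 fun _ => ?_)
  have hb : Nat.beq L 0 = false := beq_zero_pos hL1
  have h3 := tan_lobe (k := k) (L := L) (J := clampJ L J) hL2 (clampJ_mem hL1 J).1 (clampJ_mem hL1 J).2 hE0
    (Or.inr (lobe_lo (by omega) h1 hE.1)) (by
      have := lobe_hi (L := L + 1) (by omega) (by omega) h2 hE.2
      push_cast at this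
      exact this)
  have e1 : tD k L (clampJ L J) = ((k * k : ℕ) : ℤ) * t2D (clampJ L J) := by unfold tD; rw [hb]; rfl
  have e2 : tF L (clampJ L J) = t2F (clampJ L J) := by unfold tF; rw [hb]; rfl
  rw [e1, e2] at h3
  exact h3

theorem subZ_sound {u v b ju jv : ℕ} {dflt a c : ℤ} (hb1 : 1 ≤ b) (hb2 : b ≤ 2)
    (h1 : b = 1 ∨ PLt (b - 1) ≤ k * k * u) (h2 : k * k * v ≤ PHt (b + 1)) {E : ℝ}
    (hE : E ∈ Icc (u : ℝ) v) (hd : LB k 0 E ((a : ℝ) * E + c * E ^ 2 + (dflt : ℝ) / 4)) :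
    LB k 0 E ((a : ℝ) * E + c * E ^ 2 + ((subZ k u v b ju jv dflt a c : ℤ) : ℝ) / 4) := by
  have hE0 : 0 ≤ E := le_trans (Nat.cast_nonneg _) hE.1
  unfold subZ
  cases hok : ((Nat.beq b 1 || nn (t2D (clampJ (b - 1) ((k * ju + 4) / 8)))) &&
      nn (Int.neg (t2D (clampJ b ((k * jv + 4) / 8)))))
  · rw [cond_false]; exact hd
  · rw [cond_true]
    rw [Bool.and_eq_true, Bool.or_eq_true] at hok
    obtain ⟨ok1, ok2⟩ := hok
    have sr : ((t2D (clampJ b ((k * jv + 4) / 8)) : ℤ) : ℝ) ≤ 0 := by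
      have := nn_real ok2
      change (0 : ℝ) ≤ ((-(t2D (clampJ b ((k * jv + 4) / 8))) : ℤ) : ℝ) at this
      push_cast at this
      linarith
    refine LB_subVal hE ?_
    set lf : ℤ := (bif Nat.beq b 1 then
        Int.sub (Int.ofNat (k * k * t1D (nmin (k * ju) 790) * u)) (Int.ofNat (t1F (nmin (k * ju) 790)))
      else Int.sub (Int.mul (t2D (clampJ (b - 1) ((k * ju + 4) / 8))) (Int.ofNat (k * k * u)))
        (t2F (clampJ (b - 1) ((k * ju + 4) / 8)))) with hlf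
    set rt : ℤ := (Int.sub (Int.mul (t2D (clampJ b ((k * jv + 4) / 8))) (Int.ofNat (k * k * v)))
        (t2F (clampJ b ((k * jv + 4) / 8)))) with hrt
    have e0 : ((0 : ℤ) : ℝ) * E - ((Int.neg (imin lf rt) : ℤ) : ℝ) = ((imin lf rt : ℤ) : ℝ) := by
      have : Int.neg (imin lf rt) = -(imin lf rt) := rfl
      rw [this]
      push_cast
      ring
    rw [e0]
    have hm := imin_le lf rt
    have hhi := lobe_hi (L := b + 1) (by omega) (by omega) h2 hE.2
    push_cast at hhi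
    rcases lt_trichotomy ((k : ℝ) ^ 2 * (E / 2 ^ 24)) (((b : ℝ) * Real.pi) ^ 2) with h | h | h
    · -- left of the zero
      refine LB_of_nu hE0 fun _ => hm.1.trans ?_
      rcases Nat.lt_or_ge b 2 with hb | hb
      · have hb' : b = 1 := by omega
        subst hb'
        have e1 : lf = ((k * k * t1D (nmin (k * ju) 790) * u : ℕ) : ℤ) - ((t1F (nmin (k * ju) 790) : ℕ) : ℤ) := by
          rw [hlf]; rfl
        have hJ : nmin (k * ju) 790 ≤ 790 := by rw [nmin_eq]; omega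
        have h3 := tan_lobe (k := k) (L := 0) (J := nmin (k * ju) 790) (by omega) (Nat.zero_le _) hJ hE0
          (Or.inl rfl) (by simpa using h)
        have e2 : tD k 0 (nmin (k * ju) 790) = ((k * k * t1D (nmin (k * ju) 790) : ℕ) : ℤ) := rfl
        have e3 : tF 0 (nmin (k * ju) 790) = ((t1F (nmin (k * ju) 790) : ℕ) : ℤ) := rfl
        rw [e2, e3] at h3
        rw [e1]
        push_cast at h3 ⊢
        have h4 : (0 : ℝ) ≤ (k : ℝ) * k * t1D (nmin (k * ju) 790) := by positivity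
        have h5 := mul_le_mul_of_nonneg_left hE.1 h4
        linarith
      · have hb' : b = 2 := by omega
        subst hb'
        have hbq : Nat.beq 2 1 = false := rfl
        rw [hbq] at ok1
        have sl : (0 : ℝ) ≤ ((t2D (clampJ (2 - 1) ((k * ju + 4) / 8)) : ℤ) : ℝ) := by
          rcases ok1 with h9 | h9
          · cases h9
          · exact nn_real h9
        have e1 : lf = t2D (clampJ (2 - 1) ((k * ju + 4) / 8)) * ((k * k * u : ℕ) : ℤ) -
            t2F (clampJ (2 - 1) ((k * ju + 4) / 8)) := by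
          rw [hlf]; rfl
        have hlo : ((((2 - 1 : ℕ)) : ℝ) * Real.pi) ^ 2 < (k : ℝ) ^ 2 * (E / 2 ^ 24) := by
          rcases h1 with h9 | h9
          · omega
          · exact lobe_lo (by omega) h9 hE.1
        have h3 := tan_lobe (k := k) (L := 2 - 1) (J := clampJ (2 - 1) ((k * ju + 4) / 8)) (by omega)
          (clampJ_mem (by omega) _).1 (clampJ_mem (by omega) _).2 hE0
          (Or.inr hlo) (by
            have : (((2 - 1 : ℕ) : ℝ) + 1) = ((2 : ℕ) : ℝ) := by norm_num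
            rw [this]
            exact h)
        have e2 : tD k (2 - 1) (clampJ (2 - 1) ((k * ju + 4) / 8)) =
            ((k * k : ℕ) : ℤ) * t2D (clampJ (2 - 1) ((k * ju + 4) / 8)) := rfl
        have e3 : tF (2 - 1) (clampJ (2 - 1) ((k * ju + 4) / 8)) = t2F (clampJ (2 - 1) ((k * ju + 4) / 8)) := rfl
        rw [e2, e3] at h3
        rw [e1]
        push_cast at h3 ⊢
        have h4 : (0 : ℝ) ≤ (k : ℝ) * k * ((t2D (clampJ (2 - 1) ((k * ju + 4) / 8)) : ℤ) : ℝ) := by positivity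
        have h5 := mul_le_mul_of_nonneg_left hE.1 h4
        linarith
    · -- at the zero
      exact LB_of_nu hE0 fun h9 => absurd (sinc_zero_of hb1 hE0 h) h9
    · -- right of the zero
      refine LB_of_nu hE0 fun _ => hm.2.trans ?_
      have hbq : Nat.beq b 0 = false := beq_zero_pos hb1
      have h3 := tan_lobe (k := k) (L := b) (J := clampJ b ((k * jv + 4) / 8)) (by omega)
        (clampJ_mem hb1 _).1 (clampJ_mem hb1 _).2 hE0 (Or.inr h) hhi
      have e2 : tD k b (clampJ b ((k * jv + 4) / 8)) =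
          ((k * k : ℕ) : ℤ) * t2D (clampJ b ((k * jv + 4) / 8)) := by unfold tD; rw [hbq]; rfl
      have e3 : tF b (clampJ b ((k * jv + 4) / 8)) = t2F (clampJ b ((k * jv + 4) / 8)) := by
        unfold tF; rw [hbq]; rfl
      rw [e2, e3] at h3
      have e1 : rt = t2D (clampJ b ((k * jv + 4) / 8)) * ((k * k * v : ℕ) : ℤ) -
          t2F (clampJ b ((k * jv + 4) / 8)) := rfl
      rw [e1]
      push_cast at h3 ⊢
      have h4 : (k : ℝ) * k * ((t2D (clampJ b ((k * jv + 4) / 8)) : ℤ) : ℝ) ≤ 0 :=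
        mul_nonpos_of_nonneg_of_nonpos (by positivity) sr
      have h5 := mul_le_mul_of_nonpos_left hE.2 h4
      linarith

theorem force_eq {α : Type} (n : ℕ) (f : ℕ → α) : force n f = f n := by
  cases n <;> rfl

theorem forceI_eq {α : Type} (n : ℤ) (f : ℤ → α) : forceI n f = f n := by
  cases n with
  | ofNat n => cases n <;> rfl
  | negSucc n => cases n <;> rfl

theorem subBigL_sound {u v ju jv j L1 b1 : ℕ} {dflt a c : ℤ} {E : ℝ} (hE : E ∈ Icc (u : ℝ) v)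
    (hd : LB k 0 E ((a : ℝ) * E + c * E ^ 2 + (dflt : ℝ) / 4)) :
    LB k 0 E ((a : ℝ) * E + c * E ^ 2 + ((subBigL k u v ju jv j L1 b1 dflt a c : ℤ) : ℝ) / 4) := by
  unfold subBigL
  cases h1 : (Nat.ble 1 L1 && Nat.ble L1 2 && Nat.ble (PLt L1) (k * k * u) &&
      Nat.ble (k * k * v) (PHt (L1 + 1)))
  · rw [cond_false]
    cases h2 : (Nat.ble 1 b1 && Nat.ble b1 2 &&
      (Nat.beq b1 1 || Nat.ble (PLt (b1 - 1)) (k * k * u)) && Nat.ble (k * k * v) (PHt (b1 + 1)))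
    · rw [cond_false]; exact hd
    · rw [cond_true]
      simp only [Bool.and_eq_true, Bool.or_eq_true] at h2
      obtain ⟨⟨⟨h3, h4⟩, h5⟩, h6⟩ := h2
      refine subZ_sound (Nat.le_of_ble_eq_true h3) (Nat.le_of_ble_eq_true h4) ?_
        (Nat.le_of_ble_eq_true h6) hE hd
      rcases h5 with h5 | h5
      · exact Or.inl (Nat.eq_of_beq_eq_true h5)
      · exact Or.inr (Nat.le_of_ble_eq_true h5)
  · rw [cond_true]
    simp only [Bool.and_eq_true] at h1
    obtain ⟨⟨⟨h3, h4⟩, h5⟩, h6⟩ := h1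
    exact subL_sound (Nat.le_of_ble_eq_true h3) ((Nat.le_of_ble_eq_true h4).trans (by norm_num))
      (Nat.le_of_ble_eq_true h5) (Nat.le_of_ble_eq_true h6) hE

theorem subBig_sound {u v ju jv j : ℕ} {dflt a c : ℤ} {E : ℝ} (hE : E ∈ Icc (u : ℝ) v)
    (hd : LB k 0 E ((a : ℝ) * E + c * E ^ 2 + (dflt : ℝ) / 4)) :
    LB k 0 E ((a : ℝ) * E + c * E ^ 2 + ((subBig k u v ju jv j dflt a c : ℤ) : ℝ) / 4) := by
  unfold subBig
  cases Nat.ble (k * k * v) 1490260362
  · rw [cond_false]; exact hd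
  · rw [cond_true, force_eq, force_eq]
    exact subBigL_sound hE hd

theorem subLo_sound {u v ju jv : ℕ} {lg a c : ℤ} (hk : 1 ≤ k) (hrk : r ≤ k)
    (hr : r = 0 ∨ k * k * v ≤ 159769600) {E : ℝ} (hE : E ∈ Icc (u : ℝ) v)
    (hlg : LB k 0 E lg) :
    LB k r E ((a : ℝ) * E + c * E ^ 2 + ((subLo k r u v ju jv lg a c : ℤ) : ℝ) / 4) := by
  have hE0 : 0 ≤ E := le_trans (Nat.cast_nonneg _) hE.1
  unfold subLo
  cases h0 : Nat.ble (k * k * v) 159769600
  · rw [cond_false]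
    have hr0 : r = 0 := by
      rcases hr with h | h
      · exact h
      · rw [Nat.ble_eq_true_of_le h] at h0
        cases h0
    subst hr0
    refine subBig_sound hE (LB_subVal hE (hlg.mono ?_))
    have : Int.neg lg = -lg := rfl
    rw [this]
    push_cast
    linarith
  · rw [cond_true]
    have h1 := Nat.le_of_ble_eq_true h0
    have hkE : (k : ℝ) ^ 2 * E ≤ 159769600 := kkE h0 hE.2
    cases h2 : Nat.beq r 0
    · rw [cond_false]
      have hj : k * nmin ((ju + jv) / 2) (790 / k) ≤ 790 := by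
        rw [nmin_eq]
        calc k * min ((ju + jv) / 2) (790 / k) ≤ k * (790 / k) :=
              Nat.mul_le_mul_left k (min_le_right _ _)
          _ ≤ 790 := Nat.mul_div_le _ _
      refine LB_subVal hE (LB_of_FF hrk hE0 (lt_pi_sq (E_lt hkE)) ?_)
      refine (tan_bounds hrk hj hE0 (by linarith)).1.trans ?_
      refine mul_le_mul_of_nonneg_left ?_ (by positivity)
      exact (PS_FF hk hrk).tangent (by positivity) (lt_R hk (node_lt hj)) (by positivity)
        (lt_R hk (E_lt hkE))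
    · rw [cond_true]
      have hr0 : r = 0 := Nat.eq_of_beq_eq_true h2
      subst hr0
      refine LB_subVal hE (LB_of_nu hE0 fun _ => ?_)
      have hJ : nmin (k * ((ju + jv) / 2)) 790 ≤ 790 := by rw [nmin_eq]; omega
      have h3 := tan_lobe (k := k) (L := 0) (J := nmin (k * ((ju + jv) / 2)) 790) (by omega)
        (Nat.zero_le _) hJ hE0 (Or.inl rfl) (by
          have := lt_pi_sq (E_lt (k := k) hkE)
          simpa using this)
      exact h3

/-- the subcells -/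
theorem cellLoR_sound {lo hi jl jh q : ℕ} {lg a c : ℤ} (hk : 1 ≤ k) (hrk : r ≤ k) (hlh : lo ≤ hi)
    (hr : r = 0 ∨ k * k * (25 * hi) ≤ 159769600)
    (hlg : ∀ E ∈ Icc ((25 * lo : ℕ) : ℝ) ((25 * hi : ℕ) : ℝ), LB k 0 E lg) :
    ∀ n : ℕ, n + 1 ≤ q → ∀ E ∈ Icc ((25 * lo : ℕ) : ℝ) ((25 * (lo + (hi - lo) * (n + 1) / q) : ℕ) : ℝ),
      LB k r E ((a : ℝ) * E + c * E ^ 2 + ((cellLoR k r lo hi jl jh q lg a c n : ℤ) : ℝ) / 4) := by
  have htop : ∀ n : ℕ, n + 1 ≤ q → 25 * (lo + (hi - lo) * (n + 1) / q) ≤ 25 * hi := by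
    intro n hn
    have h1 : (hi - lo) * (n + 1) / q ≤ hi - lo := by
      apply Nat.div_le_of_le_mul
      calc (hi - lo) * (n + 1) ≤ (hi - lo) * q := Nat.mul_le_mul_left _ hn
        _ = q * (hi - lo) := Nat.mul_comm _ _
    omega
  intro n
  induction n with
  | zero =>
    intro hn E hE
    have ht := htop 0 hn
    have hE' : E ∈ Icc ((25 * lo : ℕ) : ℝ) ((25 * hi : ℕ) : ℝ) :=
      ⟨hE.1, hE.2.trans (by exact_mod_cast ht)⟩
    exact subLo_sound hk hrk (hr.imp id fun h => (Nat.mul_le_mul_left _ ht).trans h) hE (hlg E hE')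
  | succ n ih =>
    intro hn E hE
    have ht := htop (n + 1) hn
    have hE' : E ∈ Icc ((25 * lo : ℕ) : ℝ) ((25 * hi : ℕ) : ℝ) :=
      ⟨hE.1, hE.2.trans (by exact_mod_cast ht)⟩
    have hm := imin_le (subLo k r (25 * (lo + (hi - lo) * (n + 1) / q)) (25 * (lo + (hi - lo) * (n + 2) / q))
      ((jl * (q - (n + 1)) + jh * (n + 1)) / q) ((jl * (q - (n + 2)) + jh * (n + 2)) / q) lg a c)
      (cellLoR k r lo hi jl jh q lg a c n)
    rw [cellLoR]
    rcases le_total E ((25 * (lo + (hi - lo) * (n + 1) / q) : ℕ) : ℝ) with h | h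
    · refine (ih (by omega) E ⟨hE.1, h⟩).mono ?_
      linarith [hm.2]
    · refine (subLo_sound (v := 25 * (lo + (hi - lo) * (n + 2) / q))
        (ju := (jl * (q - (n + 1)) + jh * (n + 1)) / q) (jv := (jl * (q - (n + 2)) + jh * (n + 2)) / q)
        (a := a) (c := c) hk hrk
        (hr.imp id fun h => (Nat.mul_le_mul_left _ ht).trans h) ⟨h, hE.2⟩ (hlg E hE')).mono ?_
      linarith [hm.1]

theorem ediv4_le (x : ℤ) : (((Int.ediv x 4 : ℤ)) : ℝ) ≤ (x : ℝ) / 4 := by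
  have h := Int.ediv_mul_le x (b := 4) (by norm_num)
  rw [le_div_iff₀ (by norm_num)]
  exact_mod_cast h

theorem nsub_pos (k lo jl jh : ℕ) : 1 ≤ nsub k lo jl jh := by
  unfold nsub
  cases Nat.ble 1490260362 (k * k * (25 * lo))
  · rw [cond_false]; omega
  · rw [cond_true]

theorem cellLo_sound {lo hi jl jh : ℕ} {lg a c : ℤ} (hk : 1 ≤ k) (hrk : r ≤ k) (hlh : lo ≤ hi)
    (hr : r = 0 ∨ k * k * (25 * hi) ≤ 159769600)
    (hlg : ∀ E ∈ Icc ((25 * lo : ℕ) : ℝ) ((25 * hi : ℕ) : ℝ), LB k 0 E lg) {E : ℝ}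
    (hE : E ∈ Icc ((25 * lo : ℕ) : ℝ) ((25 * hi : ℕ) : ℝ)) :
    LB k r E ((a : ℝ) * E + c * E ^ 2 + ((cellLo k r lo hi jl jh lg a c : ℤ) : ℝ)) := by
  have hq := nsub_pos k lo jl jh
  unfold cellLo
  set q := nsub k lo jl jh
  have h := cellLoR_sound (k := k) (r := r) (jl := jl) (jh := jh) (q := q) (a := a) (c := c)
    hk hrk hlh hr hlg (q - 1) (by omega) E (by
      have e : q - 1 + 1 = q := by omega
      rw [e, Nat.mul_div_cancel _ hq, Nat.add_sub_cancel' hlh]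
      exact hE)
  refine h.mono ?_
  have := ediv4_le (cellLoR k r lo hi jl jh q lg a c (q - 1))
  linarith

/-- cell without `nu` -/
theorem cell0R_sound {lo hi q : ℕ} {a c : ℤ} (hlh : lo ≤ hi) :
    ∀ n : ℕ, n + 1 ≤ q → ∀ E ∈ Icc ((25 * lo : ℕ) : ℝ) ((25 * (lo + (hi - lo) * (n + 1) / q) : ℕ) : ℝ),
      ((cell0R lo hi q a c n : ℤ) : ℝ) / 4 ≤ -((a : ℝ) * E + c * E ^ 2) := by
  intro n
  induction n with
  | zero =>
    intro hn E hE
    have := subVal_sound (a := a) (c := c) (d := 0) (f := 0) hE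
    push_cast at this
    rw [cell0R]
    linarith
  | succ n ih =>
    intro hn E hE
    have hm := imin_le (subVal (25 * (lo + (hi - lo) * (n + 1) / q)) (25 * (lo + (hi - lo) * (n + 2) / q)) a c 0 0)
      (cell0R lo hi q a c n)
    rw [cell0R]
    rcases le_total E ((25 * (lo + (hi - lo) * (n + 1) / q) : ℕ) : ℝ) with h | h
    · have := ih (by omega) E ⟨hE.1, h⟩
      linarith [hm.2]
    · have := subVal_sound (v := 25 * (lo + (hi - lo) * (n + 2) / q)) (a := a) (c := c) (d := 0) (f := 0)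
        ⟨h, hE.2⟩
      push_cast at this hm
      linarith [hm.1]

theorem cell0_sound {lo hi jl jh : ℕ} {a c : ℤ} (hlh : lo ≤ hi) {E : ℝ}
    (hE : E ∈ Icc ((25 * lo : ℕ) : ℝ) ((25 * hi : ℕ) : ℝ)) :
    (a : ℝ) * E + c * E ^ 2 + ((cell0 k lo hi jl jh a c : ℤ) : ℝ) ≤ 0 := by
  have hq := nsub_pos k lo jl jh
  unfold cell0
  set q := nsub k lo jl jh
  have h := cell0R_sound (q := q) (a := a) (c := c) hlh (q - 1) (by omega) E (by
      have e : q - 1 + 1 = q := by omega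
      rw [e, Nat.mul_div_cancel _ hq, Nat.add_sub_cancel' hlh]
      exact hE)
  have := ediv4_le (cell0R lo hi q a c (q - 1))
  linarith

end

end Pool.Agent.H60.SL.Ck
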