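import Pool.Agent.H60.Big.Base

set_option autoImplicit false

open MeasureTheory Set Filter Topology

namespace Pool.Agent.H60.SL

open Pool.Agent.H64.Slab Pool.Agent.H60.Slab Pool.Agent.H60.Big

/-- normalised average over the cube. -/
noncomputable def avgc {m : ℕ} (b : Fin m → ℝ) (f : ℝ → ℝ) (t : ℝ) : ℝ :=
  (1 / 2 ^ m) * ∫ x, f (t + dot x b) ∂(cubeM m)

theorem avgc_zero (b : Fin 0 → ℝ) (f : ℝ → ℝ) : avgc b f = f := by
  ext t
  unfold avgc
  rw [integral_cube_zero _ (f t) (by intro x; rw [dot_zero_dim, add_zero])]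
  simp

theorem avgc_succ {m : ℕ} (b : Fin (m + 1) → ℝ) (hb : 0 < b 0) {f : ℝ → ℝ} (hf : Continuous f) :
    avgc b f = avgc (fun j => b ((0 : Fin (m + 1)).succAbove j)) (wavg (b 0) f) := by
  ext t
  unfold avgc
  rw [integral_dot_succ 0 hf b t]
  have e : (fun x' : Fin m → ℝ => ∫ u in (-1 : ℝ)..1,
      f ((t + dot x' (fun j => b ((0 : Fin (m + 1)).succAbove j))) + u * b 0)) =
      fun x' => 2 * wavg (b 0) f (t + dot x' (fun j => b ((0 : Fin (m + 1)).succAbove j))) := by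
    ext x'
    rw [wavg_eq hb]
    have : (fun u : ℝ => f ((t + dot x' (fun j => b ((0 : Fin (m + 1)).succAbove j))) + u * b 0)) =
        fun u => f ((t + dot x' (fun j => b ((0 : Fin (m + 1)).succAbove j))) + b 0 * u) := by
      ext u; rw [mul_comm u]
    rw [this]; ring
  rw [e, integral_const_mul, pow_succ]
  ring

theorem good_cube : ∀ (m : ℕ) (b : Fin m → ℝ) (v q F : ℝ → ℝ) (z L : ℝ), Good v q F z L →
    (∀ j, 0 < b j) → (∀ j, b j ≤ L) →
    ∃ z', Good (avgc b v) (avgc b q) (avgc b F) z' (L + ∑ j, b j) := by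
  intro m
  induction m with
  | zero =>
    intro b v q F z L hG _ _
    refine ⟨z, ?_⟩
    rw [avgc_zero, avgc_zero, avgc_zero]
    simpa using hG
  | succ m ih =>
    intro b v q F z L hG hb hbL
    obtain ⟨z', hG'⟩ := hG.avg (hb 0) (hbL 0)
    rw [avgc_succ b (hb 0) hG.v_cont, avgc_succ b (hb 0) hG.q_cont, avgc_succ b (hb 0) hG.hF,
      Fin.sum_univ_succAbove _ 0, ← add_assoc]
    exact ih _ _ _ _ z' (L + b 0) hG' (fun j => hb _)
      (fun j => by linarith [hbL ((0 : Fin (m + 1)).succAbove j), hb 0])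

theorem good_pos_F {v q F : ℝ → ℝ} {z L : ℝ} (h : Good v q F z L) {t0 t : ℝ} (h0 : 0 < t0)
    (hq : 0 < q t0) (hF : 0 < F t0) (ht : t0 ≤ t) (htL : t < L) : 0 < F t := by
  have hz : z < t0 := by
    by_contra hcon
    have := h.qneg t0 h0.le (not_lt.1 hcon)
    linarith
  have h1 := h.qlog t0 t hz ht htL
  have h2 : 0 < q t := h.qpos t (hz.trans_le ht) htL
  by_contra hcon
  have h3 : F t ≤ 0 := not_lt.1 hcon
  have h4 : 0 ≤ -F t * q t0 := mul_nonneg (by linarith) hq.le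
  have h5 : 0 < F t0 * q t := mul_pos hF h2
  linarith

/-- once positive (with positive `q` average) the pair functional stays positive. -/
theorem good_monotone {m : ℕ} (b : Fin m → ℝ) {p d t0 t : ℝ} (hd : 0 < d) (hp : d < p)
    (hb : ∀ j, 0 < b j) (hbp : ∀ j, b j ≤ p) (ht0 : 0 < t0)
    (hF : 0 < ∫ x, LL 1 p d (t0 + dot x b) ∂(cubeM m))
    (hq : 0 < ∫ x, LL 2 p d (t0 + dot x b) ∂(cubeM m))
    (ht : t0 ≤ t) (htL : t < p + ∑ j, b j) :
    0 < ∫ x, LL 1 p d (t + dot x b) ∂(cubeM m) := by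
  obtain ⟨z, hG⟩ := base_good hd hp
  obtain ⟨z', hG'⟩ := good_cube m b _ _ _ z p hG hb hbp
  have h1 : 0 < avgc b (LL 1 p d) t := by
    refine good_pos_F hG' ht0 ?_ ?_ ht htL
    · unfold avgc; positivity
    · unfold avgc; positivity
  unfold avgc at h1
  exact (mul_pos_iff_of_pos_left (by positivity)).1 h1

end Pool.Agent.H60.SL
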