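import Pool.Agent.H60.Big.Link
import Pool.Agent.H60.SL.Mono

set_option autoImplicit false

open MeasureTheory Set Filter Topology

namespace Pool.Agent.H60.SL

open Pool.Agent.H64.Slab Pool.Agent.H60.Slab Pool.Agent.H60.Big

/-- P criterion: a strict decrease of `q` between `t1` and `t0` -/
theorem good_crit {v q F : ℝ → ℝ} {z L : ℝ} (h : Good v q F z L) {t1 t0 t : ℝ} (h1 : 0 < t1)
    (h10 : t1 < t0) (hq : 0 < q t1) (hqq : q t0 < q t1) (ht : t0 ≤ t) (htL : t < L) : 0 < F t := by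
  have hz : z < t1 := by
    by_contra hcon
    have := h.qneg t1 h1.le (not_lt.1 hcon)
    linarith
  obtain ⟨s, hs, hs2⟩ := exists_hasDerivAt_eq_slope q (fun x => -F x) h10
    (fun x _ => (h.hq x).continuousAt.continuousWithinAt) (fun x _ => h.hq x)
  have hF : 0 < F s := by
    have h3 : (q t0 - q t1) / (t0 - t1) < 0 := div_neg_of_neg_of_pos (by linarith) (by linarith)
    rw [← hs2] at h3
    linarith
  have hqs : 0 < q s := h.qpos s (hz.trans hs.1) (by linarith [hs.2])
  exact good_pos_F h (h1.trans hs.1) hqs hF (by linarith [hs.2]) htL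

theorem crit_monotone {m : ℕ} (b : Fin m → ℝ) {p d t1 t0 t : ℝ} (hd : 0 < d) (hp : d < p)
    (hb : ∀ j, 0 < b j) (hbp : ∀ j, b j ≤ p) (h1 : 0 < t1) (h10 : t1 < t0)
    (hq : 0 < avgc b (LL 2 p d) t1) (hqq : avgc b (LL 2 p d) t0 < avgc b (LL 2 p d) t1)
    (ht : t0 ≤ t) (htL : t < p + ∑ j, b j) :
    0 < ∫ x, LL 1 p d (t + dot x b) ∂(cubeM m) := by
  obtain ⟨z, hG⟩ := base_good hd hp
  obtain ⟨z', hG'⟩ := good_cube m b _ _ _ z p hG hb hbp
  have h2 : 0 < avgc b (LL 1 p d) t := good_crit hG' h1 h10 hq hqq ht htL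
  unfold avgc at h2
  exact (mul_pos_iff_of_pos_left (by positivity)).1 h2

/-- If `τ > z`, `F ≤ 0` on `(z, τ)` and `F ≥ 0` beyond, then `3 τ² m₁ ≤ 10 m₃`. -/
theorem peak_bound {v q F : ℝ → ℝ} {z L : ℝ} (h : Good v q F z L) {τ : ℝ} (hzτ' : z < τ)
    (hFneg : ∀ x, z < x → x < τ → F x ≤ 0) (hFpos : ∀ x, τ < x → 0 ≤ F x) :
    3 * τ ^ 2 * mom1 v L ≤ 10 * mom3 v L := by
  have hL := h.L_pos
  set n1 := ∫ x in (0 : ℝ)..L, x * v x with hn1
  set n3 := ∫ x in (0 : ℝ)..L, x ^ 3 * v x with hn3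
  have e1 : mom1 v L = 2 * n1 := h.half_mom (fun x => x) continuous_id (fun x => rfl)
  have e3 : mom3 v L = 2 * n3 := h.half_mom (fun x => x ^ 3) (by fun_prop) (fun x => by ring)
  rw [e1, e3]
  have n1pos : 0 < n1 := by
    apply intervalIntegral.intervalIntegral_pos_of_pos_on
      ((continuous_id.mul h.v_cont).intervalIntegrable _ _) _ hL
    intro x hx
    exact mul_pos hx.1 (h.pos x hx.1 hx.2)
  have n3pos : 0 < n3 := by
    apply intervalIntegral.intervalIntegral_pos_of_pos_on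
      (((continuous_pow 3).mul h.v_cont).intervalIntegrable _ _) _ hL
    intro x hx
    exact mul_pos (pow_pos hx.1 3) (h.pos x hx.1 hx.2)
  by_contra hcon
  have hcon' := not_le.1 hcon
  -- (i) z^2 n1 ≤ 2 n3
  have hz2 : z ^ 2 * n1 ≤ 2 * n3 := by
    have hbp := h.by_parts_v (g := fun x => x ^ 4 - z ^ 2 * x ^ 2)
      (g' := fun x => 4 * x ^ 3 - z ^ 2 * (2 * x)) (a := 0) (c := L) (fun x => by
        have h1 := (hasDerivAt_pow 4 x).sub ((hasDerivAt_pow 2 x).const_mul (z ^ 2))
        refine h1.congr_deriv ?_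
        norm_num) (by fun_prop)
    have hpos : 0 ≤ ∫ x in (0 : ℝ)..L, (x ^ 4 - z ^ 2 * x ^ 2) * q x := by
      apply intervalIntegral.integral_nonneg hL.le
      intro x hx
      have e : x ^ 4 - z ^ 2 * x ^ 2 = x ^ 2 * ((x - z) * (x + z)) := by ring
      rw [e, mul_assoc]
      apply mul_nonneg (sq_nonneg x)
      rcases le_total x z with h1 | h1
      · have := h.qneg x hx.1 h1
        have h2 : (x - z) * (x + z) ≤ 0 :=
          mul_nonpos_of_nonpos_of_nonneg (by linarith) (by linarith [hx.1, h.z_pos])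
        exact mul_nonneg_of_nonpos_of_nonpos h2 this
      · exact mul_nonneg (mul_nonneg (by linarith) (by linarith [hx.1, h.z_pos])) (h.q_nonneg' h1)
    rw [hbp, h.v_zero, h.supp L le_rfl] at hpos
    have e : ∫ x in (0 : ℝ)..L, (4 * x ^ 3 - z ^ 2 * (2 * x)) * v x = 4 * n3 - 2 * z ^ 2 * n1 := by
      rw [hn1, hn3, ← intervalIntegral.integral_const_mul, ← intervalIntegral.integral_const_mul,
        ← intervalIntegral.integral_sub]
      · apply intervalIntegral.integral_congr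
        intro x _
        simp only
        ring
      all_goals apply Continuous.intervalIntegrable; have := h.v_cont; fun_prop
    rw [e] at hpos
    linarith
  -- the test function
  have hτ0 : 0 < τ := h.z_pos.trans hzτ'
  set g : ℝ → ℝ := fun x => x ^ 5 - τ ^ 2 * x ^ 3 with hg
  set g' : ℝ → ℝ := fun x => 5 * x ^ 4 - τ ^ 2 * (3 * x ^ 2) with hg'
  have dg : ∀ x, HasDerivAt g (g' x) x := by
    intro x
    have h1 := (hasDerivAt_pow 5 x).sub ((hasDerivAt_pow 3 x).const_mul (τ ^ 2))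
    refine h1.congr_deriv ?_
    rw [hg']; norm_num
  have cg : Continuous g := by rw [hg]; fun_prop
  have cg' : Continuous g' := by rw [hg']; fun_prop
  have dg' : ∀ x, HasDerivAt g' (20 * x ^ 3 - τ ^ 2 * (6 * x)) x := by
    intro x
    have h1 := ((hasDerivAt_pow 4 x).const_mul 5).sub
      (((hasDerivAt_pow 2 x).const_mul 3).const_mul (τ ^ 2))
    refine h1.congr_deriv ?_
    norm_num
    ring
  have total : ∫ x in (0 : ℝ)..L, g x * F x = 20 * n3 - 6 * τ ^ 2 * n1 := by
    rw [h.by_parts_q dg cg', h.by_parts_v dg' (by fun_prop), h.v_zero, h.supp L le_rfl,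
      h.q_supp le_rfl]
    have e0 : g 0 = 0 := by rw [hg]; norm_num
    rw [e0]
    have e : ∫ x in (0 : ℝ)..L, (20 * x ^ 3 - τ ^ 2 * (6 * x)) * v x = 20 * n3 - 6 * τ ^ 2 * n1 := by
      rw [hn1, hn3, ← intervalIntegral.integral_const_mul, ← intervalIntegral.integral_const_mul,
        ← intervalIntegral.integral_sub]
      · apply intervalIntegral.integral_congr
        intro x _
        simp only
        ring
      all_goals apply Continuous.intervalIntegrable; have := h.v_cont; fun_prop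
    rw [e]; ring
  have hneg : 20 * n3 - 6 * τ ^ 2 * n1 < 0 := by nlinarith
  have hi : ∀ a c, IntervalIntegrable (fun x => g x * F x) volume a c := fun a c =>
    (cg.mul h.hF).intervalIntegrable a c
  have part2 : 0 ≤ ∫ x in z..L, g x * F x := by
    apply intervalIntegral.integral_nonneg h.z_lt.le
    intro x hx
    have hx0 : 0 < x := lt_of_lt_of_le h.z_pos hx.1
    have e : g x = x ^ 3 * ((x - τ) * (x + τ)) := by rw [hg]; ring
    rw [e, mul_assoc]
    apply mul_nonneg (by positivity)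
    rcases lt_trichotomy x τ with h1 | h1 | h1
    · have hF' : F x ≤ 0 := by
        rcases hx.1.lt_or_eq with h2 | h2
        · exact hFneg x h2 h1
        · -- x = z: by continuity
          have hc : Tendsto F (𝓝[>] z) (𝓝 (F z)) :=
            h.hF.continuousAt.tendsto.mono_left nhdsWithin_le_nhds
          rw [← h2]
          refine le_of_tendsto hc ?_
          filter_upwards [Ioo_mem_nhdsGT hzτ'] with y hy
          exact hFneg y hy.1 hy.2
      exact mul_nonneg_of_nonpos_of_nonpos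
        (mul_nonpos_of_nonpos_of_nonneg (by linarith) (by linarith)) hF'
    · rw [h1]; simp
    · exact mul_nonneg (mul_nonneg (by linarith) (by linarith)) (hFpos x h1)
  have hzτ : 5 * z ^ 2 ≤ 3 * τ ^ 2 := by
    by_contra hc
    have hc' := not_le.1 hc
    have : 3 * τ ^ 2 * n1 < 5 * z ^ 2 * n1 := mul_lt_mul_of_pos_right hc' n1pos
    nlinarith
  have part1 : 0 ≤ ∫ x in (0 : ℝ)..z, g x * F x := by
    rw [h.by_parts_q dg cg', h.q_z]
    have e0 : g 0 = 0 := by rw [hg]; norm_num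
    rw [e0]
    have : 0 ≤ ∫ x in (0 : ℝ)..z, g' x * q x := by
      apply intervalIntegral.integral_nonneg h.z_pos.le
      intro x hx
      have h1 : g' x ≤ 0 := by
        have e : g' x = x ^ 2 * (5 * x ^ 2 - 3 * τ ^ 2) := by rw [hg']; ring
        rw [e]
        apply mul_nonpos_of_nonneg_of_nonpos (sq_nonneg x)
        have : x ^ 2 ≤ z ^ 2 := by nlinarith [hx.1, hx.2]
        linarith
      exact mul_nonneg_of_nonpos_of_nonpos h1 (h.qneg x hx.1 hx.2)
    linarith
  have hsum := intervalIntegral.integral_add_adjacent_intervals (hi 0 z) (hi z L)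
  rw [total] at hsum
  linarith

/-- `z² m₁ ≤ 2 m₃` -/
theorem z_bound {v q F : ℝ → ℝ} {z L : ℝ} (h : Good v q F z L) :
    z ^ 2 * mom1 v L ≤ 2 * mom3 v L := by
  have hL := h.L_pos
  set n1 := ∫ x in (0 : ℝ)..L, x * v x with hn1
  set n3 := ∫ x in (0 : ℝ)..L, x ^ 3 * v x with hn3
  have e1 : mom1 v L = 2 * n1 := h.half_mom (fun x => x) continuous_id (fun x => rfl)
  have e3 : mom3 v L = 2 * n3 := h.half_mom (fun x => x ^ 3) (by fun_prop) (fun x => by ring)
  rw [e1, e3]
  have hbp := h.by_parts_v (g := fun x => x ^ 4 - z ^ 2 * x ^ 2)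
    (g' := fun x => 4 * x ^ 3 - z ^ 2 * (2 * x)) (a := 0) (c := L) (fun x => by
      have h1 := (hasDerivAt_pow 4 x).sub ((hasDerivAt_pow 2 x).const_mul (z ^ 2))
      refine h1.congr_deriv ?_
      norm_num) (by fun_prop)
  have hpos : 0 ≤ ∫ x in (0 : ℝ)..L, (x ^ 4 - z ^ 2 * x ^ 2) * q x := by
    apply intervalIntegral.integral_nonneg hL.le
    intro x hx
    have e : x ^ 4 - z ^ 2 * x ^ 2 = x ^ 2 * ((x - z) * (x + z)) := by ring
    rw [e, mul_assoc]
    apply mul_nonneg (sq_nonneg x)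
    rcases le_total x z with h1 | h1
    · have := h.qneg x hx.1 h1
      have h2 : (x - z) * (x + z) ≤ 0 :=
        mul_nonpos_of_nonpos_of_nonneg (by linarith) (by linarith [hx.1, h.z_pos])
      exact mul_nonneg_of_nonpos_of_nonpos h2 this
    · exact mul_nonneg (mul_nonneg (by linarith) (by linarith [hx.1, h.z_pos])) (h.q_nonneg' h1)
  rw [hbp, h.v_zero, h.supp L le_rfl] at hpos
  have e : ∫ x in (0 : ℝ)..L, (4 * x ^ 3 - z ^ 2 * (2 * x)) * v x = 4 * n3 - 2 * z ^ 2 * n1 := by
    rw [hn1, hn3, ← intervalIntegral.integral_const_mul, ← intervalIntegral.integral_const_mul,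
      ← intervalIntegral.integral_sub]
    · apply intervalIntegral.integral_congr
      intro x _
      simp only
      ring
    all_goals apply Continuous.intervalIntegrable; have := h.v_cont; fun_prop
  rw [e] at hpos
  linarith

theorem mom1_pos {v q F : ℝ → ℝ} {z L : ℝ} (h : Good v q F z L) : 0 < mom1 v L := by
  have e1 : mom1 v L = 2 * ∫ x in (0 : ℝ)..L, x * v x :=
    h.half_mom (fun x => x) continuous_id (fun x => rfl)
  rw [e1]
  have : 0 < ∫ x in (0 : ℝ)..L, x * v x := by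
    apply intervalIntegral.intervalIntegral_pos_of_pos_on
      ((continuous_id.mul h.v_cont).intervalIntegrable _ _) _ h.L_pos
    intro x hx
    exact mul_pos hx.1 (h.pos x hx.1 hx.2)
  linarith

/-- strict version of `Good.final` -/
theorem final_strict {v q F : ℝ → ℝ} {z L : ℝ} (h : Good v q F z L) {t : ℝ} (ht0 : 0 < t)
    (ht : 10 * mom3 v L < 3 * t ^ 2 * mom1 v L) (htL : t < L) : 0 < F t := by
  have hm := mom1_pos h
  have hge : ∀ x, t ≤ x → 0 ≤ F x := by
    intro x hx
    apply h.final (ht0.trans_le hx)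
    have : 3 * t ^ 2 * mom1 v L ≤ 3 * x ^ 2 * mom1 v L :=
      mul_le_mul_of_nonneg_right (by nlinarith) hm.le
    linarith
  have hzb := z_bound h
  have hzt : z < t := by
    by_contra hc
    have hc' := not_lt.1 hc
    have h1 : t ^ 2 * mom1 v L ≤ z ^ 2 * mom1 v L :=
      mul_le_mul_of_nonneg_right (by nlinarith) hm.le
    have h2 : 0 < t ^ 2 * mom1 v L := by positivity
    nlinarith
  rcases (hge t le_rfl).lt_or_eq with h1 | h1
  · exact h1
  · exfalso
    have hneg : ∀ x, z < x → x < t → F x ≤ 0 := by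
      intro x hx hxt
      have h2 := h.qlog x t hx hxt.le htL
      rw [← h1, neg_zero, zero_mul] at h2
      have h3 := h.qpos t hzt htL
      by_contra hc
      have : -F x * q t < 0 := mul_neg_of_neg_of_pos (by linarith [not_le.1 hc]) h3
      linarith
    have := peak_bound h hzt hneg (fun x hx => hge x hx.le)
    linarith

theorem iterate_pos : ∀ (m : ℕ) (b : Fin m → ℝ) (v q F : ℝ → ℝ) (z L t : ℝ),
    Good v q F z L → (∀ j, 0 < b j) → (∀ j, b j ≤ L) → 0 < t →
    10 * (mom3 v L + (∑ j, b j ^ 2) * mom1 v L) < 3 * t ^ 2 * mom1 v L → t < L + ∑ j, b j →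
    0 < avgc b F t := by
  intro m
  induction m with
  | zero =>
    intro b v q F z L t hG _ _ ht h htL
    rw [avgc_zero]
    apply final_strict hG ht (by simpa using h) (by simpa using htL)
  | succ m ih =>
    intro b v q F z L t hG hb hbL ht h htL
    obtain ⟨z', hG'⟩ := hG.avg (hb 0) (hbL 0)
    rw [avgc_succ b (hb 0) hG.hF]
    apply ih (fun j => b ((0 : Fin (m + 1)).succAbove j)) _ _ _ z' (L + b 0) t hG'
      (fun j => hb _) (fun j => by linarith [hbL ((0 : Fin (m + 1)).succAbove j), hb 0]) ht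
    · rw [mom1_avg hG.v_cont hG.L_pos.le hG.supp' (hb 0),
        mom3_avg hG.v_cont hG.L_pos.le hG.supp' (hb 0)]
      rw [Fin.sum_univ_succAbove _ 0] at h
      linarith
    · rw [Fin.sum_univ_succAbove _ 0] at htL
      linarith

/-- strict LastPhase: the second alternative of the core statement for
`3 t² > 10 (3/7 (al²+ga²) + Σ b²)`. -/
theorem F_pos_large {m : ℕ} (b : Fin m → ℝ) {p d t : ℝ} (hd : 0 < d) (hp : d < p)
    (hb : ∀ j, 0 < b j) (hbp : ∀ j, b j ≤ p) (ht0 : 0 < t)
    (ht : 10 * (3 / 7 * ((p ^ 2 + d ^ 2) / 2) + ∑ j, b j ^ 2) < 3 * t ^ 2)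
    (htL : t < p + ∑ j, b j) :
    0 < ∫ x, LL 1 p d (t + dot x b) ∂(cubeM m) := by
  obtain ⟨z, hG⟩ := base_good hd hp
  have h2 : 0 < avgc b (LL 1 p d) t := by
    apply iterate_pos m b _ _ _ z p t hG hb hbp ht0 _ htL
    obtain ⟨h1, h3⟩ := base_moments hd hp
    rw [h3, h1]
    have hδ : 0 < (p ^ 2 - d ^ 2) / 4 := by nlinarith
    have h4 : 0 < 4 / 45 * ((p ^ 2 - d ^ 2) / 4) ^ 3 := by positivity
    have h5 := mul_lt_mul_of_pos_right ht h4
    calc 10 * (4 / 105 * ((p ^ 2 + d ^ 2) / 2) * ((p ^ 2 - d ^ 2) / 4) ^ 3 +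
          (∑ j, b j ^ 2) * (4 / 45 * ((p ^ 2 - d ^ 2) / 4) ^ 3)) =
        10 * (3 / 7 * ((p ^ 2 + d ^ 2) / 2) + ∑ j, b j ^ 2) * (4 / 45 * ((p ^ 2 - d ^ 2) / 4) ^ 3) := by
          ring
      _ < 3 * t ^ 2 * (4 / 45 * ((p ^ 2 - d ^ 2) / 4) ^ 3) := h5
  unfold avgc at h2
  exact (mul_pos_iff_of_pos_left (by positivity)).1 h2

end Pool.Agent.H60.SL
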