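import Pool.Agent.H60.SL.Mono
import Pool.Agent.H60.Slab.Values

set_option autoImplicit false

open MeasureTheory Set Filter Topology

namespace Pool.Agent.H60.SL

open Pool.Agent.H64.Slab Pool.Agent.H60.Slab Pool.Agent.H60.Big

theorem wavg_F {v q F : ℝ → ℝ} {z L : ℝ} (h : Good v q F z L) (b x : ℝ) :
    wavg b F x = (q (x - b) - q (x + b)) / (2 * b) := by
  unfold wavg
  rw [h.int_F]

theorem wavg_wavg_F {v q F : ℝ → ℝ} {z L : ℝ} (h : Good v q F z L) (b c x : ℝ) :
    wavg c (wavg b F) x =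
      (v (x - c - b) - v (x + c - b) - v (x - c + b) + v (x + c + b)) / (2 * b) / (2 * c) := by
  have e : wavg b F = fun x => (q (x - b) - q (x + b)) / (2 * b) := funext (wavg_F h b)
  rw [e]
  unfold wavg
  rw [intervalIntegral.integral_div, intervalIntegral.integral_sub]
  · rw [intervalIntegral.integral_comp_sub_right, intervalIntegral.integral_comp_add_right,
      h.int_q, h.int_q]
    congr 2
    ring
  · exact (h.q_cont.comp (continuous_sub_right b)).intervalIntegrable _ _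
  · exact (h.q_cont.comp (continuous_add_const b)).intervalIntegrable _ _

/-- `q` is positive on `[(p+d)/2, p)`. -/
theorem q_pos_al {p d y : ℝ} (hd : 0 < d) (hp : d < p) (hy : (p + d) / 2 ≤ y) (hy2 : y < p) :
    0 < LL 2 p d y := by
  have hp0 : 0 < p := hd.trans hp
  rw [q_out hd hp (by linarith) hy2.le]
  have h4 : 0 < p - y := by linarith
  have h5 : 0 < 3 * ((p ^ 2 - d ^ 2) / p) - 4 * (p - y) := by
    have : 3 * ((p ^ 2 - d ^ 2) / p) - 4 * (p - y) = (4 * p * y - p ^ 2 - 3 * d ^ 2) / p := by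
      field_simp; ring
    rw [this]
    apply div_pos _ hp0
    nlinarith [mul_pos (by linarith : 0 < p - d) (by linarith : 0 < p + 3 * d)]
  positivity

theorem fin_one_avg (b : Fin 1 → ℝ) (hb : 0 < b 0) {f : ℝ → ℝ} (hf : Continuous f) (t : ℝ) :
    avgc b f t = wavg (b 0) f t := by
  rw [avgc_succ b hb hf, avgc_zero]

theorem fin_two_avg (b : Fin 2 → ℝ) (hb : ∀ j, 0 < b j) {f : ℝ → ℝ} (hf : Continuous f) (t : ℝ) :
    avgc b f t = wavg (b 1) (wavg (b 0) f) t := by
  rw [avgc_succ b (hb 0) hf]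
  have h : (0 : Fin 2).succAbove (0 : Fin 1) = 1 := rfl
  rw [avgc_succ _ (by rw [h]; exact hb 1) (wavg_continuous hf _), avgc_zero, h]

theorem small_b {m : ℕ} (hm : m ≤ 2) (b : Fin m → ℝ) {α β t : ℝ} (hβ : 0 < β) (hlt : β < α)
    (hbα : ∀ k, b k ≤ α) (hbβ : ∀ k, β ≤ b k) (hbt : ∀ k, α + b k < t) (hβt : α + β < t)
    (hts : t < α + β + ∑ k, b k) :
    0 < ∫ x, LL 1 (α + β) (α - β) (t + dot x b) ∂(cubeM m) := by
  have hd : 0 < α - β := by linarith
  have hp : α - β < α + β := by linarith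
  have hb : ∀ k, 0 < b k := fun k => lt_of_lt_of_le hβ (hbβ k)
  obtain ⟨z, hG⟩ := base_good hd hp
  suffices h : 0 < avgc b (LL 1 (α + β) (α - β)) t by
    unfold avgc at h
    exact (mul_pos_iff_of_pos_left (by positivity)).1 h
  obtain rfl | rfl | rfl : m = 0 ∨ m = 1 ∨ m = 2 := by omega
  · simp only [Finset.univ_eq_empty, Finset.sum_empty, add_zero] at hts
    linarith
  · rw [fin_one_avg b (hb 0) hG.hF, wavg_F hG]
    rw [Fin.sum_univ_one] at hts
    have h0 : LL 2 (α + β) (α - β) (t + b 0) = 0 :=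
      LL_far (by norm_num) hd hp (by linarith [hbt 0, hbβ 0, hb 0])
    have h1 : 0 < LL 2 (α + β) (α - β) (t - b 0) :=
      q_pos_al hd hp (by linarith [hbt 0]) (by linarith)
    rw [h0, sub_zero]
    have := hb 0
    positivity
  · rw [fin_two_avg b hb hG.hF, wavg_wavg_F hG]
    rw [Fin.sum_univ_two] at hts
    have b0 := hb 0
    have b1 := hb 1
    have c0 := hbt 0
    have c1 := hbt 1
    have d0 := hbβ 0
    have d1 := hbβ 1
    have e0 := hbα 0
    have e1 := hbα 1
    rw [LL_far (by norm_num) hd hp (by linarith : α + β ≤ t + b 1 - b 0),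
      LL_far (by norm_num) hd hp (by linarith : α + β ≤ t - b 1 + b 0),
      LL_far (by norm_num) hd hp (by linarith : α + β ≤ t + b 1 + b 0)]
    have h1 : 0 < LL 3 (α + β) (α - β) (t - b 1 - b 0) :=
      LL3_pos hd hp (by linarith) (by linarith)
    simp only [sub_zero, add_zero]
    positivity

/-- the pair criterion holds in dimensions at most four for `t > a_1 + a_2`. -/
theorem core_small {m : ℕ} (hm : m ≤ 2) (a : Fin (m + 2) → ℝ) (i : Fin (m + 2)) (j : Fin (m + 1))
    (ha : ∀ k, 0 < a k) (himax : ∀ k, a k ≤ a i) (hmin : ∀ k, a (i.succAbove j) ≤ a k)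
    (hlt : a (i.succAbove j) < a i) {t : ℝ} (ht : ∀ k, k ≠ i → a i + a k < t)
    (hts : t < ∑ k, a k) :
    0 < ∫ x, LL 1 (a i + a (i.succAbove j)) (a i - a (i.succAbove j))
      (t + dot x (fun k => a (i.succAbove (j.succAbove k)))) ∂(cubeM m) := by
  have hsum : ∑ k, a k = a i + a (i.succAbove j) + ∑ k, a (i.succAbove (j.succAbove k)) := by
    rw [Fin.sum_univ_succAbove _ i, Fin.sum_univ_succAbove _ j]
    ring
  exact small_b hm _ (ha _) hlt (fun k => himax _) (fun k => hmin _)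
    (fun k => ht _ (Fin.succAbove_ne _ _)) (ht _ (Fin.succAbove_ne _ _)) (by rw [← hsum]; exact hts)

theorem FV_full {n : ℕ} (a b : Fin n → ℝ) {t : ℝ} (ha : ∀ k, 0 ≤ a k) (hts : ∑ k, a k ≤ t) :
    FV b t 0 ≤ FV a t 0 := by
  have h1 : FV a t 0 = 2 ^ n := by
    rw [← cubeM_univ n]
    unfold FV Measure.real
    congr 1
    apply measure_congr
    have hae : ∀ᵐ x ∂(cubeM n), x ∈ Icc (fun _ => (-1 : ℝ)) (fun _ : Fin n => (1 : ℝ)) := by
      rw [cubeM_eq]
      exact ae_restrict_mem measurableSet_Icc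
    filter_upwards [hae] with x hx
    have h2 : |0 + dot x a| ≤ t := by
      rw [zero_add]
      refine le_trans ?_ hts
      unfold dot
      refine le_trans (Finset.abs_sum_le_sum_abs _ _) (Finset.sum_le_sum fun k _ => ?_)
      rw [abs_mul, abs_of_nonneg (ha k)]
      exact mul_le_of_le_one_left (ha k) (abs_le.2 ⟨hx.1 k, hx.2 k⟩)
    exact propext ⟨fun _ => trivial, fun _ => h2⟩
  rw [h1, ← cubeM_univ n]
  exact measureReal_mono (subset_univ _)

end Pool.Agent.H60.SL
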