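import Pool.Agent.H60.SL.Psi1

set_option autoImplicit false

open MeasureTheory Set Filter Topology

namespace Pool.Agent.H60.SL

open Pool.Agent.H64.Slab Pool.Agent.H60.Slab Pool.Agent.H60.Big

theorem two_num {α β w t : ℝ} (hβ : 0 < β) (hβ3 : β ≤ 3 / 10) (h : α ^ 2 + β ^ 2 = 1) (hα : 0 < α)
    (hw : 0 ≤ w) (hww : w ^ 2 = 2 * α * β) (ht : 17 / 20 ≤ t) (htD : α - β ≤ t) :
    α + β - Real.sqrt 2 * w ≤ t * (1 - w) := by
  have hs2 := s2_lb
  have hs2' := s2_ub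
  have hα1 : α ≤ 1 := by nlinarith
  have hp : (α + β) ^ 2 = 1 + w ^ 2 := by nlinarith
  have hD : (α - β) ^ 2 = 1 - w ^ 2 := by nlinarith
  have hw2 : w ^ 2 ≤ 0.6 := by nlinarith
  have hw1 : w ≤ 0.7747 := by nlinarith
  have hp0 : 0 < α + β := by linarith
  have hαβ : 0 < α - β := by nlinarith
  have hsw : 1.41421 * w ≤ Real.sqrt 2 * w := mul_le_mul_of_nonneg_right hs2.le hw
  rcases le_total (17 / 20) (α - β) with h1 | h1
  · have hw3 : w ^ 2 ≤ 0.2775 := by nlinarith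
    have hw4 : w ≤ 0.5268 := by nlinarith
    have g1 : 1 - 0.541 * w ^ 2 ≤ α - β := by
      have : (1 - 0.541 * w ^ 2) ^ 2 ≤ (α - β) ^ 2 := by
        rw [hD]
        have : 0 ≤ w ^ 2 * (0.2801 - w ^ 2) := mul_nonneg (sq_nonneg _) (by linarith)
        nlinarith
      exact abs_le_of_sq_le_sq' this hαβ.le |>.2
    have g2 : α + β ≤ 1 + w ^ 2 / 2 := by
      have : (α + β) ^ 2 ≤ (1 + w ^ 2 / 2) ^ 2 := by
        rw [hp]
        nlinarith [sq_nonneg (w ^ 2)]
      exact abs_le_of_sq_le_sq' this (by positivity) |>.2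
    have g3 : (α - β) * (1 - w) ≤ t * (1 - w) := mul_le_mul_of_nonneg_right htD (by linarith)
    have g4 : (1 - 0.541 * w ^ 2) * (1 - w) ≤ (α - β) * (1 - w) :=
      mul_le_mul_of_nonneg_right g1 (by linarith)
    have g5 : 0 ≤ w * (0.41421 - 1.041 * w + 0.541 * w ^ 2) := by
      apply mul_nonneg hw
      nlinarith
    nlinarith
  · have hw3 : 0.2775 ≤ w ^ 2 := by nlinarith
    have hw4 : 0.5 ≤ w := by nlinarith
    have g2 : α + β ≤ 0.85 + 0.56421 * w := by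
      have : (α + β) ^ 2 ≤ (0.85 + 0.56421 * w) ^ 2 := by
        rw [hp]
        have : 0 ≤ (w - 0.5) * (0.78 - w) := mul_nonneg (by linarith) (by linarith)
        nlinarith
      exact abs_le_of_sq_le_sq' this (by positivity) |>.2
    have g3 : 17 / 20 * (1 - w) ≤ t * (1 - w) := mul_le_mul_of_nonneg_right ht (by linarith)
    nlinarith

/-- the region `a_2 < 3/10` for two coordinates -/
theorem two_region (a : Fin 2 → ℝ) (i : Fin 2) (j : Fin 1) (hpos : ∀ k, 0 < a k)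
    (hsum : ∑ k, a k ^ 2 = 1) (hβ : a (i.succAbove j) ≤ 3 / 10) {t : ℝ} (ht : 17 / 20 ≤ t)
    (htp : t ≤ a i + a (i.succAbove j)) :
    FV (stdVec 2 2) t 0 ≤ FV a t 0 := by
  have hα0 := hpos i
  have hβ0 := hpos (i.succAbove j)
  have hsum2 : a i ^ 2 + a (i.succAbove j) ^ 2 = 1 := by
    rw [← hsum, Fin.sum_univ_succAbove _ i]
    simp [Subsingleton.elim j 0]
  have hs2 := s2_lb
  have hs2' := s2_ub
  have ht0 : 0 ≤ t := by linarith
  have ht2 : t ≤ Real.sqrt 2 := by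
    apply Real.le_sqrt_of_sq_le
    nlinarith [sq_nonneg (a i - a (i.succAbove j))]
  have hv2 : FV (stdVec 2 2) t 0 = 2 ^ 2 * (1 - T2 t) := by
    have := FV_f2 0 (t := t) ht0 ht2
    rw [this]
    congr 1
    rw [vv, T2]
    have := s2_sq
    nlinarith
  suffices h : 1 - FV a t 0 / 2 ^ 2 ≤ T2 t by
    rw [hv2]
    have h5 : 1 - T2 t ≤ FV a t 0 / 2 ^ 2 := by linarith
    rw [le_div_iff₀ (by norm_num)] at h5
    linarith
  rcases le_total (a i - a (i.succAbove j)) t with h | h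
  · have hK2 := T_le_K2 (m := 0) a i j ht0 hα0 hβ0
    simp only [Finset.univ_eq_empty, Finset.sum_empty, zero_add] at hK2
    refine hK2.trans ?_
    obtain ⟨α, hα⟩ : ∃ α, a i = α := ⟨_, rfl⟩
    obtain ⟨β, hβe⟩ : ∃ β, a (i.succAbove j) = β := ⟨_, rfl⟩
    rw [hα] at hα0 hsum2 htp h ⊢
    rw [hβe] at hβ0 hβ hsum2 htp h ⊢
    have hαβ : 0 < α * β := mul_pos hα0 hβ0
    set w := Real.sqrt (2 * α * β) with hw
    have hww : w ^ 2 = 2 * α * β := Real.sq_sqrt (by nlinarith)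
    have h1 := two_num hβ0 hβ hsum2 hα0 (Real.sqrt_nonneg _) hww ht h
    have h2 : α + β - t ≤ w * (Real.sqrt 2 - t) := by nlinarith
    have h3 : (α + β - t) ^ 2 ≤ (w * (Real.sqrt 2 - t)) ^ 2 :=
      pow_le_pow_left₀ (by linarith) h2 2
    rw [mul_pow, hww] at h3
    rw [div_le_iff₀ (by positivity), T2]
    nlinarith
  · have hA := T_le_A (m := 1) a i ht0 hα0 (by linarith)
    have e1 : ∑ k, a (i.succAbove k) ^ 2 = a (i.succAbove j) ^ 2 := by
      simp [Subsingleton.elim j 0]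
    rw [e1] at hA
    refine hA.trans ?_
    obtain ⟨α, hα⟩ : ∃ α, a i = α := ⟨_, rfl⟩
    obtain ⟨β, hβe⟩ : ∃ β, a (i.succAbove j) = β := ⟨_, rfl⟩
    rw [hα] at hα0 hsum2 htp h ⊢
    rw [hβe] at hβ0 hβ hsum2 htp h ⊢
    have hα1 : α ≤ 1 := by nlinarith
    have hg : β ≤ α - t := by linarith
    have hg0 : 0 < α - t := by linarith
    have e2 : β ^ 2 / (12 * (α - t)) ≤ (α - t) / 12 := by
      rw [div_le_div_iff₀ (by positivity) (by norm_num)]
      nlinarith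
    have e3 : (1 / (2 * α)) * (2 * (α - t) + β ^ 2 / (12 * (α - t))) ≤
        (1 / (2 * α)) * (25 / 12 * (α - t)) := by
      apply mul_le_mul_of_nonneg_left _ (by positivity)
      linarith
    refine e3.trans ?_
    have e4 : (1 / (2 * α)) * (25 / 12 * (α - t)) = 25 * (α - t) / (24 * α) := by
      field_simp
      ring
    rw [e4, div_le_iff₀ (by positivity), T2]
    have e5 : (1.41421 - t) ^ 2 ≤ (Real.sqrt 2 - t) ^ 2 := by
      apply pow_le_pow_left₀ <;> linarith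
    have e6 : 25 * (1 - t) ≤ (1.41421 - t) ^ 2 / 2 * 24 := by nlinarith [sq_nonneg (t - 17 / 20)]
    have e7 : 25 * (α - t) ≤ 25 * (1 - t) * α := by nlinarith
    have e8 : 25 * (1 - t) * α ≤ (1.41421 - t) ^ 2 / 2 * 24 * α :=
      mul_le_mul_of_nonneg_right e6 hα0.le
    nlinarith

end Pool.Agent.H60.SL
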