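import Pool.Agent.H60.SL.Assembly
import Pool.Agent.H60.SL.Crit
import Pool.Agent.H60.SL.Small
import Pool.Agent.H60.SL.Two

set_option autoImplicit false

open MeasureTheory Set Filter Topology

namespace Pool.Agent.H60.SL

open Pool.Agent.H64.Slab Pool.Agent.H60.Slab Pool.Agent.H60.Big

/-- What remains for the numerical cover: at least three coordinates, maximum below `47/50`,
`t` below the strict large bound, `t > a_i + a_k` for all `a_k ≥ 3/10`, and for three or four
coordinates `t ≤ a_i + a_k` for some `k` (so all other coordinates are below `3/10` then). -/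
def CoverProp : Prop :=
  ∀ (m : ℕ) (t : ℝ), 17 / 20 < t → 3 * t ^ 2 < 10 → ∀ (a : Fin (m + 2) → ℝ) (i : Fin (m + 2))
    (j : Fin (m + 1)), (∀ k, 0 < a k) → ∑ k, a k ^ 2 = 1 → (∀ k, a k ≤ a i) →
    (∀ k, a (i.succAbove j) ≤ a k) → a (i.succAbove j) < a i →
    1 ≤ m → a i < 47 / 50 → t < ∑ k, a k →
    3 * t ^ 2 ≤ 10 * (1 - 4 / 7 * (a i ^ 2 + a (i.succAbove j) ^ 2)) →
    (∀ k, k ≠ i → 3 / 10 ≤ a k → a i + a k < t) →
    (m ≤ 2 → ∃ k, k ≠ i ∧ t ≤ a i + a k) →
    (∃ q, 1 ≤ q ∧ q ≤ m + 2 ∧ FV (stdVec (m + 2) q) t 0 ≤ FV a t 0) ∨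
    0 < ∫ x, LL 1 (a i + a (i.succAbove j)) (a i - a (i.succAbove j))
      (t + dot x (fun k => a (i.succAbove (j.succAbove k)))) ∂(cubeM m)

theorem core_of_cover (hC : CoverProp) : CoreProp := by
  intro m t ht ht2 a i j hpos hsum hmax hmin hlt
  have ht0 : 0 < t := by linarith
  -- t at least the sum
  rcases le_or_gt (∑ k, a k) t with hts | hts
  · exact Or.inl ⟨1, le_rfl, by omega, FV_full a _ (fun k => (hpos k).le) hts⟩
  -- K region
  by_cases hK : ∃ k, k ≠ i ∧ 3 / 10 ≤ a k ∧ t ≤ a i + a k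
  · obtain ⟨k, hki, hk3, hkt⟩ := hK
    obtain ⟨k', rfl⟩ := Fin.exists_succAbove_eq hki
    exact Or.inl (K_region ht.le a i k' hpos hsum (hmax _) hk3 hkt)
  push Not at hK
  -- large t
  have hsplit : a i ^ 2 + a (i.succAbove j) ^ 2 +
      ∑ k, a (i.succAbove (j.succAbove k)) ^ 2 = 1 := by
    rw [← hsum, Fin.sum_univ_succAbove _ i, Fin.sum_univ_succAbove _ j]
    ring
  have hssum : ∑ k, a k = a i + a (i.succAbove j) + ∑ k, a (i.succAbove (j.succAbove k)) := by
    rw [Fin.sum_univ_succAbove _ i, Fin.sum_univ_succAbove _ j]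
    ring
  rcases lt_or_ge (10 * (1 - 4 / 7 * (a i ^ 2 + a (i.succAbove j) ^ 2))) (3 * t ^ 2) with hl | hl
  · right
    apply F_pos_large _ (by linarith) (by linarith [hpos (i.succAbove j)]) (fun k => hpos _)
      (fun k => by linarith [hmax (i.succAbove (j.succAbove k)), hpos (i.succAbove j)]) ht0
    · nlinarith
    · rw [← hssum]; exact hts
  rcases Nat.eq_zero_or_pos m with hm | hm
  · -- two coordinates
    subst hm
    have h3 : a i + a (i.succAbove j) = ∑ k, a k := by
      rw [hssum]; simp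
    left
    refine ⟨2, by norm_num, by norm_num, ?_⟩
    rcases le_total (3 / 10) (a (i.succAbove j)) with h | h
    · have := hK _ (Fin.succAbove_ne _ _) h
      linarith
    · exact two_region a i j hpos hsum h ht.le (by linarith)
  · -- psi region
    rcases le_or_gt (47 / 50) (a i) with h47 | h47
    · left
      obtain ⟨m', rfl⟩ : ∃ m', m = m' + 1 := ⟨m - 1, by omega⟩
      have hg : 0 ≤ a (i.succAbove j) ^ 2 := sq_nonneg _
      obtain ⟨q, hq1, hq2, hq⟩ := psi_region (n := m') a i hsum h47 ht.le (by nlinarith)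
      exact ⟨q, by omega, by omega, hq⟩
    by_cases hm2 : m ≤ 2 ∧ ∀ k, k ≠ i → a i + a k < t
    · right
      exact core_small hm2.1 a i j hpos hmax hmin hlt hm2.2 hts
    · refine hC m t ht ht2 a i j hpos hsum hmax hmin hlt hm h47 hts hl (fun k hk h => hK k hk h)
        (fun h2 => ?_)
      by_contra hcon
      apply hm2
      refine ⟨h2, fun k hk => ?_⟩
      by_contra hkt
      exact hcon ⟨k, hk, not_lt.1 hkt⟩

end Pool.Agent.H60.SL
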