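import Pool.Agent.H60.SL.PS
import Pool.Agent.H60.Slab.Phi

namespace Pool.Agent.H60.Big
end Pool.Agent.H60.Big

namespace Pool.Agent.H64.Slab
end Pool.Agent.H64.Slab

set_option autoImplicit false

open MeasureTheory Set Filter Topology

namespace Pool.Agent.H60.SL

open Pool.Agent.H64.Slab Pool.Agent.H60.Slab Pool.Agent.H60.Big

/-- `|sinc z| = exp (-nu z²)` away from the zeros -/
theorem abs_sinc_eq_exp {z : ℝ} (hz : 0 ≤ z) (hs : Real.sinc z ≠ 0) :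
    |Real.sinc z| = Real.exp (-nu (z ^ 2)) := by
  rw [nu_sq hz, neg_neg, ← Real.log_abs, Real.exp_log (abs_pos.2 hs)]

theorem sinc_eq_exp {z : ℝ} (hz : 0 ≤ z) (hs : 0 < Real.sinc z) :
    Real.sinc z = Real.exp (-nu (z ^ 2)) := by
  rw [← abs_sinc_eq_exp hz hs.ne', abs_of_pos hs]

theorem prod_sinc_eq_exp {ι : Type*} (S : Finset ι) (a : ι → ℝ) {w : ℝ} (hw : 0 ≤ w)
    (ha : ∀ j ∈ S, 0 ≤ a j) (hp : ∀ j ∈ S, w * a j < Real.pi) :
    ∏ j ∈ S, Real.sinc (w * a j) = Real.exp (-∑ j ∈ S, nu (w ^ 2 * a j ^ 2)) := by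
  rw [← Finset.sum_neg_distrib, Real.exp_sum]
  refine Finset.prod_congr rfl fun j hj => ?_
  have h0 : 0 ≤ w * a j := mul_nonneg hw (ha j hj)
  rw [sinc_eq_exp h0 (sinc_pos' h0 (hp j hj)), mul_pow]

/-- lower bound of a sum by a quadratic line -/
theorem sum_line_le {ι : Type*} (S : Finset ι) (y : ι → ℝ) {F : ℝ → ℝ} {κ a c lo hi : ℝ}
    (hy : ∀ j ∈ S, y j ∈ Icc lo hi) (hF : ∀ z ∈ Icc lo hi, κ + a * z + c * z ^ 2 ≤ F z) :
    S.card * κ + a * ∑ j ∈ S, y j + c * ∑ j ∈ S, y j ^ 2 ≤ ∑ j ∈ S, F (y j) := by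
  have h := Finset.sum_le_sum fun j hj => hF (y j) (hy j hj)
  rw [Finset.sum_add_distrib, Finset.sum_add_distrib, ← Finset.mul_sum, ← Finset.mul_sum,
    Finset.sum_const, nsmul_eq_mul] at h
  exact h

theorem sum_line_ge {ι : Type*} (S : Finset ι) (y : ι → ℝ) {F : ℝ → ℝ} {κ a c lo hi : ℝ}
    (hy : ∀ j ∈ S, y j ∈ Icc lo hi) (hF : ∀ z ∈ Icc lo hi, F z ≤ κ + a * z + c * z ^ 2) :
    ∑ j ∈ S, F (y j) ≤ S.card * κ + a * ∑ j ∈ S, y j + c * ∑ j ∈ S, y j ^ 2 := by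
  have h := Finset.sum_le_sum fun j hj => hF (y j) (hy j hj)
  rw [Finset.sum_add_distrib, Finset.sum_add_distrib, ← Finset.mul_sum, ← Finset.mul_sum,
    Finset.sum_const, nsmul_eq_mul] at h
  exact h

/-- the three largest entries -/
theorem top3 {n : ℕ} (hn : 3 ≤ n) (a : Fin n → ℝ) (i0 : Fin n) (h0 : ∀ k, a k ≤ a i0) :
    ∃ i1 i2 : Fin n, i1 ≠ i0 ∧ i2 ≠ i0 ∧ i2 ≠ i1 ∧ a i2 ≤ a i1 ∧
      (∀ k, k ≠ i0 → a k ≤ a i1) ∧ ∀ k, k ≠ i0 → k ≠ i1 → a k ≤ a i2 := by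
  classical
  have c0 : (Finset.univ.erase i0).card = n - 1 := by
    rw [Finset.card_erase_of_mem (Finset.mem_univ _), Finset.card_univ, Fintype.card_fin]
  have ne0 : (Finset.univ.erase i0).Nonempty := by
    rw [← Finset.card_pos, c0]; omega
  obtain ⟨i1, hi1, h1⟩ := Finset.exists_max_image (Finset.univ.erase i0) a ne0
  have c1 : ((Finset.univ.erase i0).erase i1).card = n - 1 - 1 := by
    rw [Finset.card_erase_of_mem hi1, c0]
  have ne1 : ((Finset.univ.erase i0).erase i1).Nonempty := by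
    rw [← Finset.card_pos, c1]; omega
  obtain ⟨i2, hi2, h2⟩ := Finset.exists_max_image ((Finset.univ.erase i0).erase i1) a ne1
  simp only [Finset.mem_erase, Finset.mem_univ, and_true] at hi1 hi2 h1 h2
  exact ⟨i1, i2, hi1, hi2.2, hi2.1, h1 i2 hi2.2, fun k hk => h1 k hk, fun k hk hk1 => h2 k ⟨hk1, hk⟩⟩

/-- splitting off three indices from a product -/
theorem prod_split3 {n : ℕ} (f : Fin n → ℝ) {i0 i1 i2 : Fin n} (h1 : i1 ≠ i0) (h2 : i2 ≠ i0)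
    (h3 : i2 ≠ i1) : ∏ k, f k = f i0 * f i1 * f i2 *
      ∏ k ∈ ((Finset.univ.erase i0).erase i1).erase i2, f k := by
  rw [← Finset.mul_prod_erase Finset.univ f (Finset.mem_univ i0),
    ← Finset.mul_prod_erase (Finset.univ.erase i0) f (a := i1) (by simp [h1]),
    ← Finset.mul_prod_erase ((Finset.univ.erase i0).erase i1) f (a := i2) (by simp [h2, h3])]
  ring

theorem sum_split3 {n : ℕ} (f : Fin n → ℝ) {i0 i1 i2 : Fin n} (h1 : i1 ≠ i0) (h2 : i2 ≠ i0)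
    (h3 : i2 ≠ i1) : ∑ k, f k = f i0 + f i1 + f i2 +
      ∑ k ∈ ((Finset.univ.erase i0).erase i1).erase i2, f k := by
  rw [← Finset.add_sum_erase Finset.univ f (Finset.mem_univ i0),
    ← Finset.add_sum_erase (Finset.univ.erase i0) f (a := i1) (by simp [h1]),
    ← Finset.add_sum_erase ((Finset.univ.erase i0).erase i1) f (a := i2) (by simp [h2, h3])]
  ring

theorem card_split3 {n : ℕ} {i0 i1 i2 : Fin n} (h1 : i1 ≠ i0) (h2 : i2 ≠ i0)
    (h3 : i2 ≠ i1) : (((Finset.univ.erase i0).erase i1).erase i2).card = n - 3 := by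
  rw [Finset.card_erase_of_mem (by simp [h2, h3]), Finset.card_erase_of_mem (by simp [h1]),
    Finset.card_erase_of_mem (Finset.mem_univ _), Finset.card_univ, Fintype.card_fin]
  omega

theorem mem_split3 {n : ℕ} {i0 i1 i2 k : Fin n} :
    k ∈ ((Finset.univ.erase i0).erase i1).erase i2 ↔ k ≠ i2 ∧ k ≠ i1 ∧ k ≠ i0 := by
  simp

/-- bounds for the sum of squares over the rest -/
theorem rest_sq_bounds {ι : Type*} (S : Finset ι) (x : ι → ℝ) {c σ : ℝ} (hx : ∀ j ∈ S, 0 ≤ x j)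
    (hc : ∀ j ∈ S, x j ≤ c) (hσ : ∑ j ∈ S, x j = σ) :
    σ ^ 2 ≤ S.card * ∑ j ∈ S, x j ^ 2 ∧ ∑ j ∈ S, x j ^ 2 ≤ c * σ := by
  constructor
  · rw [← hσ]
    exact sq_sum_le_card_mul_sum_sq
  · rw [← hσ, Finset.mul_sum]
    refine Finset.sum_le_sum fun j hj => ?_
    have := mul_le_mul_of_nonneg_right (hc j hj) (hx j hj)
    nlinarith

/-- the product of the characteristic functions with three coordinates split off -/
theorem phi_split3 {n : ℕ} (a : Fin n → ℝ) (ha : ∀ j, 0 ≤ a j) {w : ℝ} (hw : 0 ≤ w)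
    {i0 i1 i2 : Fin n} (h1 : i1 ≠ i0) (h2 : i2 ≠ i0) (h3 : i2 ≠ i1)
    (hp : ∀ k, k ≠ i2 → k ≠ i1 → k ≠ i0 → w * a k < Real.pi) :
    phi a w = Real.sinc (w * a i0) * Real.sinc (w * a i1) * Real.sinc (w * a i2) *
      Real.exp (-∑ k ∈ ((Finset.univ.erase i0).erase i1).erase i2, nu (w ^ 2 * a k ^ 2)) := by
  rw [phi, prod_split3 _ h1 h2 h3, prod_sinc_eq_exp _ a hw (fun j _ => ha j)]
  intro j hj
  rw [mem_split3] at hj
  exact hp j hj.1 hj.2.1 hj.2.2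

/-- products at two lattice frequencies -/
theorem prod_sinc_ratio {ι : Type*} (S : Finset ι) (a : ι → ℝ) {k r : ℕ} (hrk : r ≤ k) {δ : ℝ}
    (hδ : 0 ≤ δ) (ha : ∀ j ∈ S, 0 ≤ a j) (hp : ∀ j ∈ S, (k : ℝ) * δ * a j < Real.pi) :
    ∏ j ∈ S, Real.sinc ((k : ℝ) * δ * a j) = (∏ j ∈ S, Real.sinc ((r : ℝ) * δ * a j)) *
      Real.exp (-∑ j ∈ S, FF k r (δ ^ 2 * a j ^ 2)) := by
  have hk0 : (0 : ℝ) ≤ k := Nat.cast_nonneg k
  have hr0 : (0 : ℝ) ≤ r := Nat.cast_nonneg r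
  have hrk' : (r : ℝ) ≤ k := by exact_mod_cast hrk
  rw [prod_sinc_eq_exp S a (mul_nonneg hk0 hδ) ha hp,
    prod_sinc_eq_exp S a (mul_nonneg hr0 hδ) ha (fun j hj => lt_of_le_of_lt
      (mul_le_mul_of_nonneg_right (mul_le_mul_of_nonneg_right hrk' hδ) (ha j hj)) (hp j hj)),
    ← Real.exp_add]
  congr 1
  rw [← neg_add, ← Finset.sum_add_distrib]
  congr 1
  refine Finset.sum_congr rfl fun j _ => ?_
  rw [FF]
  have e1 : ((k : ℝ) * δ) ^ 2 * a j ^ 2 = (k : ℝ) ^ 2 * (δ ^ 2 * a j ^ 2) := by ring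
  have e2 : ((r : ℝ) * δ) ^ 2 * a j ^ 2 = (r : ℝ) ^ 2 * (δ ^ 2 * a j ^ 2) := by ring
  rw [e1, e2]
  ring

/-- chord bound for `exp (-(A + B s))` -/
theorem exp_chord {A B s0 s1 s : ℝ} (h0 : s0 ≤ s) (h1 : s ≤ s1) (h01 : s0 < s1) :
    Real.exp (-(A + B * s)) ≤ (s1 - s) / (s1 - s0) * Real.exp (-(A + B * s0)) +
      (s - s0) / (s1 - s0) * Real.exp (-(A + B * s1)) := by
  have hd : 0 < s1 - s0 := by linarith
  have ha : 0 ≤ (s1 - s) / (s1 - s0) := div_nonneg (by linarith) hd.le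
  have hb : 0 ≤ (s - s0) / (s1 - s0) := div_nonneg (by linarith) hd.le
  have hab : (s1 - s) / (s1 - s0) + (s - s0) / (s1 - s0) = 1 := by field_simp; ring
  have h := convexOn_exp.2 (Set.mem_univ (-(A + B * s0))) (Set.mem_univ (-(A + B * s1))) ha hb hab
  simp only [smul_eq_mul] at h
  refine le_trans (le_of_eq ?_) h
  congr 1
  field_simp
  ring

/-- tangent bound for `exp (-(A + B s))` -/
theorem exp_tangent (A B c s : ℝ) :
    Real.exp (-(A + B * c)) * (1 - B * (s - c)) ≤ Real.exp (-(A + B * s)) := by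
  have h := Real.add_one_le_exp (-(B * (s - c)))
  have e : Real.exp (-(A + B * s)) = Real.exp (-(A + B * c)) * Real.exp (-(B * (s - c))) := by
    rw [← Real.exp_add]; congr 1; ring
  rw [e]
  exact mul_le_mul_of_nonneg_left (by linarith) (Real.exp_pos _).le

/-- an affine function which is `≤ 0` at two points is `≤ 0` between -/
theorem affine_le {A B s0 s1 s : ℝ} (h0 : s0 ≤ s) (h1 : s ≤ s1) (e0 : A + B * s0 ≤ 0)
    (e1 : A + B * s1 ≤ 0) : A + B * s ≤ 0 := by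
  rcases le_total 0 B with h | h
  · nlinarith
  · nlinarith

end Pool.Agent.H60.SL
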