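import Pool.Agent.H60.SL.CkLine
import Pool.Agent.H60.SL.Leaf

/-!
# Lines over several lobes and upper lines
-/

set_option autoImplicit false

open Set

namespace Pool.Agent.H60.SL.Ck

/-! ## constants -/

theorem PLt_gt {L : ℕ} (hL : L ≤ 7) : ((L : ℝ) * Real.pi) ^ 2 * 2 ^ 24 < PLt L := by
  have h1 := Real.pi_gt_d20
  have h2 := Real.pi_lt_d20
  have h3 : Real.pi ^ 2 < 3.14159265358979323847 ^ 2 := by
    apply pow_lt_pow_left₀ h2 (by linarith) (by norm_num)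
  interval_cases L <;> simp only [PLt] <;> push_cast <;> nlinarith

theorem PHt_lt {L : ℕ} (h0 : 1 ≤ L) (hL : L ≤ 7) :
    (PHt L : ℝ) < ((L : ℝ) * Real.pi) ^ 2 * 2 ^ 24 := by
  have h1 := Real.pi_gt_d20
  have h3 : 3.14159265358979323846 ^ 2 < Real.pi ^ 2 := by
    apply pow_lt_pow_left₀ h1 (by norm_num) (by norm_num)
  interval_cases L <;> simp only [PHt] <;> push_cast <;> nlinarith

/-! ## the bounds as statements on `sinc` -/

/-- `z = √(E / 2^24)` -/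
noncomputable def zE (E : ℝ) : ℝ := Real.sqrt (E / 2 ^ 24)

theorem zE_nonneg (E : ℝ) : 0 ≤ zE E := Real.sqrt_nonneg _

theorem zE_sq {E : ℝ} (hE : 0 ≤ E) : zE E ^ 2 = E / 2 ^ 24 := Real.sq_sqrt (by positivity)

def LB (k r : ℕ) (E V : ℝ) : Prop :=
  |Real.sinc (k * zE E)| ≤ |Real.sinc (r * zE E)| * Real.exp (-(V / 2 ^ 72))

def UB (k r : ℕ) (E V : ℝ) : Prop :=
  |Real.sinc (r * zE E)| * Real.exp (-(V / 2 ^ 72)) ≤ |Real.sinc (k * zE E)|

theorem LB.mono {k r : ℕ} {E V V' : ℝ} (h : LB k r E V) (hV : V' ≤ V) : LB k r E V' := by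
  refine le_trans h (mul_le_mul_of_nonneg_left (Real.exp_le_exp.2 ?_) (abs_nonneg _))
  linarith

theorem UB.mono {k r : ℕ} {E V V' : ℝ} (h : UB k r E V) (hV : V ≤ V') : UB k r E V' := by
  refine le_trans (mul_le_mul_of_nonneg_left (Real.exp_le_exp.2 ?_) (abs_nonneg _)) h
  linarith

theorem kz_sq {k : ℕ} {E : ℝ} (hE : 0 ≤ E) : ((k : ℝ) * zE E) ^ 2 = (k : ℝ) ^ 2 * (E / 2 ^ 24) := by
  rw [mul_pow, zE_sq hE]

theorem kz_lt_pi {k : ℕ} {E : ℝ} (hE : 0 ≤ E) (h : (k : ℝ) ^ 2 * (E / 2 ^ 24) < Real.pi ^ 2) :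
    (k : ℝ) * zE E < Real.pi := by
  rw [← kz_sq hE] at h
  exact lt_of_pow_lt_pow_left₀ 2 Real.pi_pos.le h

theorem ratio_eq {k r : ℕ} (hrk : r ≤ k) {E : ℝ} (hE : 0 ≤ E)
    (h : (k : ℝ) ^ 2 * (E / 2 ^ 24) < Real.pi ^ 2) :
    |Real.sinc (k * zE E)| = |Real.sinc (r * zE E)| * Real.exp (-FF k r (E / 2 ^ 24)) := by
  have hz := zE_nonneg E
  have hk0 : 0 ≤ (k : ℝ) * zE E := by positivity
  have hr0 : 0 ≤ (r : ℝ) * zE E := by positivity
  have hk1 := kz_lt_pi hE h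
  have hr1 : (r : ℝ) * zE E < Real.pi := by
    have : (r : ℝ) ≤ k := by exact_mod_cast hrk
    exact lt_of_le_of_lt (mul_le_mul_of_nonneg_right this hz) hk1
  rw [abs_sinc_eq_exp hk0 (sinc_pos' hk0 hk1).ne', abs_sinc_eq_exp hr0 (sinc_pos' hr0 hr1).ne',
    ← Real.exp_add, kz_sq hE, kz_sq hE]
  congr 1
  unfold FF
  ring

theorem LB_of_FF {k r : ℕ} (hrk : r ≤ k) {E V : ℝ} (hE : 0 ≤ E)
    (h : (k : ℝ) ^ 2 * (E / 2 ^ 24) < Real.pi ^ 2) (hV : V ≤ 2 ^ 72 * FF k r (E / 2 ^ 24)) :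
    LB k r E V := by
  unfold LB
  rw [ratio_eq hrk hE h]
  refine mul_le_mul_of_nonneg_left (Real.exp_le_exp.2 ?_) (abs_nonneg _)
  rw [neg_le_neg_iff, div_le_iff₀ (by positivity)]
  linarith

theorem UB_of_FF {k r : ℕ} (hrk : r ≤ k) {E V : ℝ} (hE : 0 ≤ E)
    (h : (k : ℝ) ^ 2 * (E / 2 ^ 24) < Real.pi ^ 2) (hV : 2 ^ 72 * FF k r (E / 2 ^ 24) ≤ V) :
    UB k r E V := by
  unfold UB
  rw [ratio_eq hrk hE h]
  refine mul_le_mul_of_nonneg_left (Real.exp_le_exp.2 ?_) (abs_nonneg _)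
  rw [neg_le_neg_iff, le_div_iff₀ (by positivity)]
  linarith

theorem LB_of_nu {k : ℕ} {E V : ℝ} (hE : 0 ≤ E)
    (h : Real.sinc (k * zE E) ≠ 0 → V ≤ 2 ^ 72 * nu ((k : ℝ) ^ 2 * (E / 2 ^ 24))) : LB k 0 E V := by
  unfold LB
  rw [Nat.cast_zero, zero_mul, Real.sinc_zero, abs_one, one_mul]
  by_cases hs : Real.sinc (k * zE E) = 0
  · rw [hs, abs_zero]
    exact (Real.exp_pos _).le
  · have hz := zE_nonneg E
    rw [abs_sinc_eq_exp (by positivity) hs, kz_sq hE]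
    apply Real.exp_le_exp.2
    rw [neg_le_neg_iff, div_le_iff₀ (by positivity)]
    linarith [h hs]

theorem UB_of_nu {k : ℕ} {E V : ℝ} (hE : 0 ≤ E) (hs : Real.sinc (k * zE E) ≠ 0)
    (h : 2 ^ 72 * nu ((k : ℝ) ^ 2 * (E / 2 ^ 24)) ≤ V) : UB k 0 E V := by
  unfold UB
  rw [Nat.cast_zero, zero_mul, Real.sinc_zero, abs_one, one_mul]
  have hz := zE_nonneg E
  rw [abs_sinc_eq_exp (by positivity) hs, kz_sq hE]
  apply Real.exp_le_exp.2
  rw [neg_le_neg_iff, le_div_iff₀ (by positivity)]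
  linarith

theorem lt_pi_sq {x : ℝ} (h : x ≤ 9.6) : x < Real.pi ^ 2 := by
  have := pi_sq_gt
  linarith

/-! ## several lobes -/

/-- tangent in lobe `L` -/
theorem tan_lobe {k L J : ℕ} (hL : L ≤ 6) (h1 : rl L ≤ J) (h2 : J ≤ rh L) {E : ℝ} (hE : 0 ≤ E)
    (hlo : L = 0 ∨ ((L : ℝ) * Real.pi) ^ 2 < (k : ℝ) ^ 2 * (E / 2 ^ 24))
    (hhi : (k : ℝ) ^ 2 * (E / 2 ^ 24) < (((L : ℝ) + 1) * Real.pi) ^ 2) :
    ((tD k L J : ℤ) : ℝ) * E - ((tF L J : ℤ) : ℝ) ≤ 2 ^ 72 * nu ((k : ℝ) ^ 2 * (E / 2 ^ 24)) := by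
  rcases Nat.eq_zero_or_pos L with h0 | h0
  · subst h0
    have hJ : J ≤ 790 := h2
    have e1 : tD k 0 J = ((k * k * t1D J : ℕ) : ℤ) := rfl
    have e2 : tF 0 J = ((t1F J : ℕ) : ℤ) := rfl
    rw [e1, e2]
    push_cast
    have hY : (k : ℝ) ^ 2 * (E / 2 ^ 24) < Real.pi ^ 2 := by
      simpa using hhi
    have hp3 : Real.pi ^ 2 < 10 := by
      have := Real.pi_lt_d6
      nlinarith [Real.pi_pos]
    have h28 : (k : ℝ) ^ 2 * E ≤ 2 ^ 28 := by
      have : (k : ℝ) ^ 2 * E = 2 ^ 24 * ((k : ℝ) ^ 2 * (E / 2 ^ 24)) := by ring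
      rw [this]
      nlinarith
    have h3 := (T1_line hJ (Y := (k : ℝ) ^ 2 * E) (by positivity) h28).1
    have hx : (((J : ℝ)) / 256) ^ 2 < Real.pi ^ 2 := by
      apply lt_pi_sq
      have : (J : ℝ) ≤ 790 := by exact_mod_cast hJ
      have h0 : (0 : ℝ) ≤ J := Nat.cast_nonneg _
      nlinarith
    have h4 := nu_tangent (by positivity) hx (y := (k : ℝ) ^ 2 * (E / 2 ^ 24)) (by positivity) hY
    have e3 : (k : ℝ) ^ 2 * E / 2 ^ 24 = (k : ℝ) ^ 2 * (E / 2 ^ 24) := by ring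
    rw [e3] at h3
    have h5 := mul_le_mul_of_nonneg_left h4 (by positivity : (0 : ℝ) ≤ 2 ^ 72)
    nlinarith
  · have hlo' : ((L : ℝ) * Real.pi) ^ 2 < (k : ℝ) ^ 2 * (E / 2 ^ 24) := by
      rcases hlo with h | h
      · omega
      · exact h
    have hb : Nat.beq L 0 = false := beq_zero_pos h0
    have e1 : tD k L J = ((k * k : ℕ) : ℤ) * t2D J := by unfold tD; rw [hb]; rfl
    have e2 : tF L J = t2F J := by unfold tF; rw [hb]; rfl
    rw [e1, e2]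
    push_cast
    have hr1 : RL L ≤ J := by
      interval_cases L <;> exact h1
    have hr2 : J ≤ RH L := by
      interval_cases L <;> exact h2
    have h3 := T2_line h0 hL hr1 hr2 (Y := (k : ℝ) ^ 2 * E) (by
      have e3 : (k : ℝ) ^ 2 * E / 2 ^ 24 = (k : ℝ) ^ 2 * (E / 2 ^ 24) := by ring
      rw [e3]
      exact ⟨hlo', hhi⟩)
    have e3 : (k : ℝ) ^ 2 * E / 2 ^ 24 = (k : ℝ) ^ 2 * (E / 2 ^ 24) := by ring
    rw [e3] at h3
    nlinarith

theorem sinc_zero_of {k L : ℕ} (hL : 1 ≤ L) {E : ℝ} (hE : 0 ≤ E)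
    (h : (k : ℝ) ^ 2 * (E / 2 ^ 24) = ((L : ℝ) * Real.pi) ^ 2) : Real.sinc (k * zE E) = 0 := by
  have hz := zE_nonneg E
  rw [← kz_sq hE] at h
  have h1 : (k : ℝ) * zE E = L * Real.pi :=
    (pow_left_inj₀ (by positivity) (by have := Real.pi_pos; positivity) (by norm_num)).1 h
  rw [h1, Real.sinc_of_ne_zero]
  · rw [Real.sin_nat_mul_pi, zero_div]
  · have : (0 : ℝ) < L := by exact_mod_cast hL
    have := Real.pi_pos
    positivity

theorem div_floor_le {a b : ℕ} (hb : 0 < b) {x : ℝ} (h : (a : ℝ) ≤ b * x) :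
    ((a / b : ℕ) : ℝ) ≤ x := by
  have hb' : (0 : ℝ) < b := by exact_mod_cast hb
  refine (Nat.cast_div_le).trans ?_
  rw [div_le_iff₀ hb']
  linarith

theorem le_div_floor {a b : ℕ} (hb : 0 < b) {x : ℝ} (h : (b : ℝ) * x ≤ a) :
    x ≤ ((a / b + 1 : ℕ) : ℝ) := by
  have hb' : (0 : ℝ) < b := by exact_mod_cast hb
  have h1 : a < (a / b + 1) * b := by
    have := Nat.div_add_mod a b
    have h2 := Nat.mod_lt a hb
    nlinarith
  have h3 : (a : ℝ) < ((a / b + 1 : ℕ) : ℝ) * b := by exact_mod_cast h1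
  have : (b : ℝ) * x < b * ((a / b + 1 : ℕ) : ℝ) := by linarith
  exact (lt_of_mul_lt_mul_left this hb'.le).le

theorem lowT3L_sound {k E0 E1 : ℕ} {kap a c : ℤ} (hk : 1 ≤ k) :
    ∀ (ns : List ℕ) (L : ℕ), lowT3L k E0 E1 kap a c L ns = true → ∀ E ∈ Icc (E0 : ℝ) E1,
      ((L : ℝ) * Real.pi) ^ 2 ≤ (k : ℝ) ^ 2 * (E / 2 ^ 24) →
      LB k 0 E ((kap : ℝ) + a * E + c * E ^ 2)
  | [], L, h, _, _, _ => by simp [lowT3L] at h
  | J :: ns, L, h, E, hE, hlo => by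
    rw [lowT3L] at h
    simp only [Bool.and_eq_true, Bool.or_eq_true] at h
    obtain ⟨⟨h1, h2⟩, h3⟩ := h
    have hL : L ≤ 6 := Nat.le_of_ble_eq_true h2
    have hE0 : 0 ≤ E := le_trans (Nat.cast_nonneg _) hE.1
    have hpi := Real.pi_pos
    have hk0 : (0 : ℝ) < k := by exact_mod_cast hk
    have hkk : 0 < k * k := by positivity
    have e0 : (k : ℝ) ^ 2 * E = (k : ℝ) ^ 2 * (E / 2 ^ 24) * 2 ^ 24 := by ring
    rcases lt_or_ge ((k : ℝ) ^ 2 * (E / 2 ^ 24)) ((((L : ℝ) + 1) * Real.pi) ^ 2) with hhi | hhi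
    · -- in the lobe
      have hP := PLt_gt (L := L + 1) (by omega)
      push_cast at hP
      have hup : (k : ℝ) ^ 2 * E < PLt (L + 1) := by
        rw [e0]
        have := mul_lt_mul_of_pos_right hhi (by positivity : (0 : ℝ) < 2 ^ 24)
        linarith
      rcases h1 with h1 | h1
      · exfalso
        have h4 : ((PLt (L + 1) : ℕ) : ℝ) ≤ ((k * k * E0 : ℕ) : ℝ) := by
          exact_mod_cast Nat.le_of_ble_eq_true h1
        push_cast at h4
        have h5 := mul_le_mul_of_nonneg_left hE.1 (sq_nonneg (k : ℝ))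
        nlinarith
      · obtain ⟨⟨h4, h5⟩, h6⟩ := h1
        have h4' := Nat.le_of_ble_eq_true h4
        have h5' := Nat.le_of_ble_eq_true h5
        rcases eq_or_lt_of_le hlo with heq | hlt
        · rcases Nat.eq_zero_or_pos L with hL0 | hL0
          · -- E = 0
            subst hL0
            have hE00 : E = 0 := by
              have : (0 : ℝ) = (k : ℝ) ^ 2 * (E / 2 ^ 24) := by simpa using heq
              have h7 : (k : ℝ) ^ 2 * (E / 2 ^ 24) = (k : ℝ) ^ 2 / 2 ^ 24 * E := by ring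
              rw [h7] at this
              have h8 : (k : ℝ) ^ 2 / 2 ^ 24 ≠ 0 := by positivity
              rcases mul_eq_zero.1 this.symm with h9 | h9
              · exact absurd h9 h8
              · exact h9
            refine LB_of_nu hE0 fun _ => ?_
            refine le_trans (sepOn_sound h6 ?_) (tan_lobe hL h4' h5' hE0 (Or.inl rfl) hhi)
            rw [nmax_eq, nmin_eq, Nat.cast_max, Nat.cast_min]
            refine ⟨max_le hE.1 ?_, le_min hE.2 ?_⟩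
            · have : PHt 0 / (k * k) = 0 := by simp [PHt]
              rw [this]
              simpa using hE0
            · apply le_div_floor hkk
              push_cast
              nlinarith
          · -- at a zero
            have hs := sinc_zero_of hL0 hE0 heq.symm
            exact LB_of_nu hE0 fun h => absurd hs h
        · refine LB_of_nu hE0 fun _ => ?_
          refine le_trans (sepOn_sound h6 ?_) (tan_lobe hL h4' h5' hE0 (Or.inr hlt) hhi)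
          rw [nmax_eq, nmin_eq, Nat.cast_max, Nat.cast_min]
          refine ⟨max_le hE.1 ?_, le_min hE.2 ?_⟩
          · rcases Nat.eq_zero_or_pos L with hL0 | hL0
            · subst hL0
              have : PHt 0 / (k * k) = 0 := by simp [PHt]
              rw [this]
              simpa using hE0
            · apply div_floor_le hkk
              have := PHt_lt hL0 (by omega)
              have h7 := mul_lt_mul_of_pos_right hlt (by positivity : (0 : ℝ) < 2 ^ 24)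
              push_cast
              nlinarith
          · apply le_div_floor hkk
            push_cast
            nlinarith
    · -- beyond the lobe
      rcases h3 with h3 | h3
      · exfalso
        have h4 : ((k * k * E1 : ℕ) : ℝ) ≤ ((PHt (L + 1) : ℕ) : ℝ) := by
          exact_mod_cast Nat.le_of_ble_eq_true h3
        push_cast at h4
        have h5 := mul_le_mul_of_nonneg_left hE.2 (sq_nonneg (k : ℝ))
        have h6 := PHt_lt (L := L + 1) (by omega) (by omega)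
        push_cast at h6
        have h7 := mul_le_mul_of_nonneg_right hhi (by positivity : (0 : ℝ) ≤ 2 ^ 24)
        nlinarith
      · refine lowT3L_sound hk ns (L + 1) h3 E hE ?_
        push_cast
        exact hhi

/-! ## upper lines -/

variable {k r : ℕ}

theorem upT1_sound {j E0 E1 i1 : ℕ} {kap a c : ℤ} (hk : 1 ≤ k) (hrk : r ≤ k)
    (h : upT1 k r j E1 i1 kap a c = true) {E : ℝ} (hE : E ∈ Icc (E0 : ℝ) E1) :
    2 ^ 72 * FF k r (E / 2 ^ 24) ≤ (kap : ℝ) + a * E + c * E ^ 2 := by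
  unfold upT1 at h
  simp only [Bool.and_eq_true] at h
  obtain ⟨⟨⟨⟨⟨⟨⟨h1, h2⟩, h3⟩, h3b⟩, h4⟩, h5⟩, h6⟩, h7⟩ := h
  have hj := Nat.le_of_ble_eq_true h2
  have hi := Nat.le_of_ble_eq_true h3
  have hEn := Nat.le_of_ble_eq_true h3b
  have hE1 := kE1_real h1
  have hE01 : (E0 : ℝ) ≤ E1 := hE.1.trans hE.2
  have e4 : a = sD k r j - c * ((2 * nd j : ℕ) : ℤ) := eqI_eq h4
  have e5 : (c : ℝ) * ((nd j : ℕ) : ℝ) ^ 2 - ((sF k r j : ℤ) : ℝ) + 2 * 2 ^ 40 ≤ kap := by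
    have := le_real h5
    change ((c * ((nd j * nd j : ℕ) : ℤ) - sF k r j + 2199023255552 : ℤ) : ℝ) ≤ (kap : ℝ) at this
    push_cast at this
    linarith
  have e6 := le_real h6
  have e7 := (fUp_sound hk hrk hi hEn).trans (le_real h7)
  rw [lv_real] at e7
  have ea : (a : ℝ) = ((sD k r j : ℤ) : ℝ) - 2 * c * ((nd j : ℕ) : ℝ) := by
    rw [e4]; push_cast; ring
  have hsec := (second_bounds (r := r) hrk hj).2
  set x := ((j : ℝ) / 256) ^ 2 with hx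
  have hx0 : 0 ≤ x := by positivity
  have hn : ((nd j : ℕ) : ℝ) = 2 ^ 24 * x := nd_real j
  set cc : ℝ := (c : ℝ) / 2 ^ 24 with hcc
  set A : ℝ := kap / 2 ^ 72 - cc * x ^ 2 with hA
  set B : ℝ := ((sD k r j : ℤ) : ℝ) / 2 ^ 48 with hB
  have hAn : -((sF k r j : ℤ) : ℝ) + 2 * 2 ^ 40 ≤ A * 2 ^ 72 := by
    rw [hA, hcc]
    rw [hn] at e5
    have : (kap / 2 ^ 72 - (c : ℝ) / 2 ^ 24 * x ^ 2) * 2 ^ 72 = kap - c * (2 ^ 24 * x) ^ 2 := by ring
    rw [this]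
    linarith
  have hform : ∀ y : ℝ, 2 ^ 72 * (A + B * y + cc * (y - x) ^ 2) =
      kap + a * (2 ^ 24 * y) + c * (2 ^ 24 * y) ^ 2 := by
    intro y
    rw [ea, hn, hA, hB, hcc]
    ring
  have hl : ∀ y : ℝ, 0 ≤ y → (k : ℝ) ^ 2 * (2 ^ 24 * y) ≤ 2 ^ 28 →
      FF k r x + dFF k r x * (y - x) ≤ A + B * y := by
    intro y hy0 hy
    have h8 := (tan_bounds (r := r) hrk hj (E := 2 ^ 24 * y) (by positivity) hy).2
    have e8 : 2 ^ 24 * y / 2 ^ 24 = y := by ring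
    rw [e8, ← hx] at h8
    have e9 : 2 ^ 72 * (A + B * y) = A * 2 ^ 72 + ((sD k r j : ℤ) : ℝ) * (2 ^ 24 * y) := by
      rw [hB]; ring
    have h10 : 2 ^ 72 * (FF k r x + dFF k r x * (y - x)) ≤ 2 ^ 72 * (A + B * y) := by
      rw [e9]; linarith
    exact le_of_mul_le_mul_left h10 (by positivity)
  have hkx := node_lt (k := k) hj
  have hmain := (PS_FF hk hrk).up_touch (x := x) (y0 := (E0 : ℝ) / 2 ^ 24) (y1 := (E1 : ℝ) / 2 ^ 24)
    (A := A) (B := B) (cc := cc) hx0 (lt_R hk hkx) (by positivity) (lt_R hk (E_lt hE1))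
    (by
      rcases hx0.eq_or_lt with h0 | h0
      · intro y hy hyx
        have : y = x := by linarith
        rw [this]
        simp
      · exact FF_up2 hk hrk h0 (lt_R hk hkx) (by
          rw [hcc, le_div_iff₀ (by positivity)]
          linarith))
    (by
      have := hl x hx0 (by nlinarith)
      simpa using this)
    (fun y hy => hl y (le_trans (by positivity) hy.1) (by
      have h11 : 2 ^ 24 * y ≤ E1 := by
        have := hy.2
        rw [le_div_iff₀ (by positivity)] at this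
        linarith
      have h12 := mul_le_mul_of_nonneg_left h11 (sq_nonneg (k : ℝ))
      linarith))
    (by
      have h13 : 2 ^ 72 * FF k r ((E1 : ℝ) / 2 ^ 24) ≤
          2 ^ 72 * (A + B * ((E1 : ℝ) / 2 ^ 24) + cc * ((E1 : ℝ) / 2 ^ 24 - x) ^ 2) := by
        rw [hform]
        have : 2 ^ 24 * ((E1 : ℝ) / 2 ^ 24) = E1 := by ring
        rw [this]
        exact e7
      exact le_of_mul_le_mul_left h13 (by positivity))
    (E / 2 ^ 24) ⟨div_le_div_of_nonneg_right hE.1 (by positivity),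
      div_le_div_of_nonneg_right hE.2 (by positivity)⟩
  have h14 := mul_le_mul_of_nonneg_left hmain (by positivity : (0 : ℝ) ≤ 2 ^ 72)
  rw [hform] at h14
  have e15 : 2 ^ 24 * (E / 2 ^ 24) = E := by ring
  rw [e15] at h14
  exact h14

theorem E_le_node {E i : ℕ} (h : E ≤ nd i) : (E : ℝ) / 2 ^ 24 ≤ ((i : ℝ) / 256) ^ 2 := by
  have : (E : ℝ) ≤ ((nd i : ℕ) : ℝ) := by exact_mod_cast h
  rw [nd_real] at this
  rw [div_le_iff₀ (by positivity)]
  linarith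

theorem dFF_E_le {E i : ℕ} (hk : 1 ≤ k) (hrk : r ≤ k) (hi : k * i ≤ 790) (h : E ≤ nd i) :
    2 ^ 48 * dFF k r ((E : ℝ) / 2 ^ 24) ≤ ((sD k r i : ℤ) : ℝ) + 2 * (k : ℝ) ^ 2 := by
  have h1 := E_le_node h
  have h2 := lt_R hk (node_lt hi)
  have hm := (PS_FF hk hrk).deriv_monotoneOn ⟨by positivity, h1.trans_lt h2⟩
    ⟨by positivity, h2⟩ h1
  have := dFF_node_le (r := r) hrk hi
  nlinarith

theorem upT2_sound {E0 E1 i0 i1 : ℕ} {kap a c : ℤ} (hk : 1 ≤ k) (hrk : r ≤ k)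
    (h : upT2 k r E0 E1 i0 i1 kap a c = true) {E : ℝ} (hE : E ∈ Icc (E0 : ℝ) E1) :
    2 ^ 72 * FF k r (E / 2 ^ 24) ≤ (kap : ℝ) + a * E + c * E ^ 2 := by
  unfold upT2 at h
  simp only [Bool.and_eq_true, Bool.or_eq_true] at h
  obtain ⟨⟨⟨⟨⟨⟨⟨h1, h2⟩, h3⟩, h4⟩, h4b⟩, h5⟩, h6⟩, h7⟩ := h
  have hi0 := Nat.le_of_ble_eq_true h2
  have hi1 := Nat.le_of_ble_eq_true h3
  have hE1n := Nat.le_of_ble_eq_true h4
  have hE0n := Nat.le_of_ble_eq_true h4b
  have hE1 := kE1_real h1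
  have hE01 : (E0 : ℝ) ≤ E1 := hE.1.trans hE.2
  have e5 := (fUp_sound hk hrk hi0 hE0n).trans (le_real h5)
  have e6 := (fUp_sound hk hrk hi1 hE1n).trans (le_real h6)
  rw [lv_real, line_conv] at e5 e6
  have e5' := le_of_mul_le_mul_left e5 (by positivity)
  have e6' := le_of_mul_le_mul_left e6 (by positivity)
  rw [line_conv]
  refine mul_le_mul_of_nonneg_left ?_ (by positivity)
  have hE1R := lt_R hk (E_lt hE1)
  have hsub : Icc ((E0 : ℝ) / 2 ^ 24) ((E1 : ℝ) / 2 ^ 24) ⊆ Ico 0 (Real.pi ^ 2 / (k : ℝ) ^ 2) :=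
    fun t ht => ⟨le_trans (by positivity) ht.1, ht.2.trans_lt hE1R⟩
  have hmem : E / 2 ^ 24 ∈ Icc ((E0 : ℝ) / 2 ^ 24) ((E1 : ℝ) / 2 ^ 24) :=
    ⟨div_le_div_of_nonneg_right hE.1 (by positivity), div_le_div_of_nonneg_right hE.2 (by positivity)⟩
  rcases h7 with h7 | h7
  · -- c ≤ 0
    have hc : (c : ℝ) ≤ 0 := by
      have := nn_real h7
      change (0 : ℝ) ≤ ((-c : ℤ) : ℝ) at this
      push_cast at this
      linarith
    have hconv : ConvexOn ℝ (Icc ((E0 : ℝ) / 2 ^ 24) ((E1 : ℝ) / 2 ^ 24))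
        (fun y => FF k r y - ((kap : ℝ) / 2 ^ 72 + (a / 2 ^ 48) * y + (c / 2 ^ 24) * y ^ 2)) := by
      have h8 : ConvexOn ℝ (Icc ((E0 : ℝ) / 2 ^ 24) ((E1 : ℝ) / 2 ^ 24)) (FF k r) :=
        (PS_FF hk hrk).convexOn.subset hsub (convex_Icc _ _)
      have h9 : ConvexOn ℝ (Icc ((E0 : ℝ) / 2 ^ 24) ((E1 : ℝ) / 2 ^ 24)) (fun y : ℝ => y ^ 2) :=
        (even_two.convexOn_pow).subset (subset_univ _) (convex_Icc _ _)
      refine ⟨convex_Icc _ _, fun x hx y hy α β hα hβ hab => ?_⟩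
      have g1 := h8.2 hx hy hα hβ hab
      have g2 := h9.2 hx hy hα hβ hab
      simp only [smul_eq_mul] at g1 g2 ⊢
      have hcc : (c : ℝ) / 2 ^ 24 ≤ 0 := div_nonpos_of_nonpos_of_nonneg hc (by positivity)
      have g3 := mul_le_mul_of_nonpos_left g2 hcc
      have e10 : (kap : ℝ) / 2 ^ 72 = (α + β) * (kap / 2 ^ 72) := by rw [hab, one_mul]
      nlinarith [g1, g3, e10]
    have := hconv.le_max_of_mem_Icc (left_mem_Icc.2 (hmem.1.trans hmem.2))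
      (right_mem_Icc.2 (hmem.1.trans hmem.2)) hmem
    rcases le_max_iff.1 this with h9 | h9 <;> linarith
  · have e7 := le_real h7
    change ((sD k r i0 + ((2 * (k * k) : ℕ) : ℤ) : ℤ) : ℝ) ≤ ((a + c * ((2 * E0 : ℕ) : ℤ) : ℤ) : ℝ) at e7
    push_cast at e7
    refine line_E' (f := FF k r) (f' := dFF k r) (y0 := (E0 : ℝ) / 2 ^ 24) (y1 := (E1 : ℝ) / 2 ^ 24)
      ((FF_continuousOn hk hrk).mono hsub) (fun y hy => FF_hasDerivAt hk hrk
        (lt_of_le_of_lt (by positivity) hy.1) (hy.2.trans hE1R))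
      ((dFF_convexOn hk hrk).subset hsub (convex_Icc _ _)) e5' e6' ?_ (E / 2 ^ 24) hmem
    have hd := dFF_E_le (r := r) hk hrk hi0 hE0n
    have : 2 ^ 48 * dFF k r ((E0 : ℝ) / 2 ^ 24) ≤ 2 ^ 48 * ((a : ℝ) / 2 ^ 48 + 2 * ((c : ℝ) / 2 ^ 24) * ((E0 : ℝ) / 2 ^ 24)) := by
      have e8 : 2 ^ 48 * ((a : ℝ) / 2 ^ 48 + 2 * ((c : ℝ) / 2 ^ 24) * ((E0 : ℝ) / 2 ^ 24)) = a + c * (2 * E0) := by
        ring
      rw [e8]
      nlinarith
    exact le_of_mul_le_mul_left this (by positivity)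

/-- through the origin -/
theorem upT3_sound {E0 E1 i0 i1 : ℕ} {a c : ℤ} (hk : 1 ≤ k) (hrk : r ≤ k)
    (h : upT3 k r E0 E1 i0 i1 a c = true) {E : ℝ} (hE : E ∈ Icc (E0 : ℝ) E1) :
    2 ^ 72 * FF k r (E / 2 ^ 24) ≤ a * E + c * E ^ 2 := by
  unfold upT3 at h
  simp only [Bool.and_eq_true] at h
  obtain ⟨⟨⟨⟨⟨⟨⟨h1, h2⟩, h3⟩, h4⟩, h4b⟩, h5⟩, h6⟩, h7⟩ := h
  have hi0 := Nat.le_of_ble_eq_true h2
  have hi1 := Nat.le_of_ble_eq_true h3
  have hE1n := Nat.le_of_ble_eq_true h4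
  have hE0n := Nat.le_of_ble_eq_true h4b
  have hE1p := Nat.le_of_ble_eq_true h5
  have hE1 := kE1_real h1
  have hE01 : (E0 : ℝ) ≤ E1 := hE.1.trans hE.2
  have hE1R := lt_R hk (E_lt hE1)
  have hE1pos : (0 : ℝ) < E1 := by exact_mod_cast hE1p
  have hR := R_pos k hk
  have hmem : E / 2 ^ 24 ∈ Icc ((E0 : ℝ) / 2 ^ 24) ((E1 : ℝ) / 2 ^ 24) :=
    ⟨div_le_div_of_nonneg_right hE.1 (by positivity), div_le_div_of_nonneg_right hE.2 (by positivity)⟩
  have hsub : Icc ((E0 : ℝ) / 2 ^ 24) ((E1 : ℝ) / 2 ^ 24) ⊆ Ico 0 (Real.pi ^ 2 / (k : ℝ) ^ 2) :=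
    fun t ht => ⟨le_trans (by positivity) ht.1, ht.2.trans_lt hE1R⟩
  -- quotient at a positive point
  have hq : ∀ E' : ℕ, 0 < E' → 2 ^ 72 * FF k r ((E' : ℝ) / 2 ^ 24) ≤ a * E' + c * (E' : ℝ) ^ 2 →
      quo (FF k r) (dFF k r) ((E' : ℝ) / 2 ^ 24) ≤ (a : ℝ) / 2 ^ 48 + (c : ℝ) / 2 ^ 24 * ((E' : ℝ) / 2 ^ 24) := by
    intro E' h0 h8
    have h0' : (0 : ℝ) < E' := by exact_mod_cast h0
    unfold quo
    rw [if_neg (by positivity), div_le_iff₀ (by positivity)]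
    have : 2 ^ 72 * FF k r ((E' : ℝ) / 2 ^ 24) ≤ 2 ^ 72 *
        (((a : ℝ) / 2 ^ 48 + (c : ℝ) / 2 ^ 24 * ((E' : ℝ) / 2 ^ 24)) * ((E' : ℝ) / 2 ^ 24)) := by
      have e8 : 2 ^ 72 * (((a : ℝ) / 2 ^ 48 + (c : ℝ) / 2 ^ 24 * ((E' : ℝ) / 2 ^ 24)) * ((E' : ℝ) / 2 ^ 24)) =
          a * E' + c * (E' : ℝ) ^ 2 := by ring
      rw [e8]
      exact h8
    exact le_of_mul_le_mul_left this (by positivity)
  have q1 : quo (FF k r) (dFF k r) ((E1 : ℝ) / 2 ^ 24) ≤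
      (a : ℝ) / 2 ^ 48 + (c : ℝ) / 2 ^ 24 * ((E1 : ℝ) / 2 ^ 24) := by
    refine hq E1 hE1p ?_
    have := (fUp_sound hk hrk hi1 hE1n).trans (le_real h6)
    rw [lv_real] at this
    push_cast at this
    linarith
  have q0 : quo (FF k r) (dFF k r) ((E0 : ℝ) / 2 ^ 24) ≤
      (a : ℝ) / 2 ^ 48 + (c : ℝ) / 2 ^ 24 * ((E0 : ℝ) / 2 ^ 24) := by
    rcases Nat.eq_zero_or_pos E0 with h0 | h0
    · subst h0
      have : Nat.beq 0 0 = true := rfl
      rw [this, cond_true] at h7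
      have h8 := le_real h7
      change ((sD k r 0 + ((2 * (k * k) : ℕ) : ℤ) : ℤ) : ℝ) ≤ (a : ℝ) at h8
      push_cast at h8
      have h9 := dFF_node_le (r := r) hrk (show k * 0 ≤ 790 by omega)
      simp only [Nat.cast_zero, zero_div, ne_eq, OfNat.ofNat_ne_zero, not_false_eq_true,
        zero_pow, mul_zero, add_zero] at h9 ⊢
      unfold quo
      rw [if_pos rfl, le_div_iff₀ (by positivity)]
      nlinarith
    · rw [beq_zero_pos h0, cond_false] at h7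
      refine hq E0 h0 ?_
      have := (fUp_sound hk hrk hi0 hE0n).trans (le_real h7)
      rw [lv_real] at this
      push_cast at this
      linarith
  have hconv : ConvexOn ℝ (Icc ((E0 : ℝ) / 2 ^ 24) ((E1 : ℝ) / 2 ^ 24))
      (fun y => quo (FF k r) (dFF k r) y - ((a : ℝ) / 2 ^ 48 + (c / 2 ^ 24) * y)) := by
    have h8 : ConvexOn ℝ (Icc ((E0 : ℝ) / 2 ^ 24) ((E1 : ℝ) / 2 ^ 24)) (quo (FF k r) (dFF k r)) :=
      (PS_FF hk hrk).quo_convexOn.subset hsub (convex_Icc _ _)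
    refine ⟨convex_Icc _ _, fun x hx y hy α β hα hβ hab => ?_⟩
    have g1 := h8.2 hx hy hα hβ hab
    simp only [smul_eq_mul] at g1 ⊢
    have e10 : (a : ℝ) / 2 ^ 48 = (α + β) * (a / 2 ^ 48) := by rw [hab, one_mul]
    nlinarith [g1, e10]
  have h10 := hconv.le_max_of_mem_Icc (left_mem_Icc.2 (hmem.1.trans hmem.2))
    (right_mem_Icc.2 (hmem.1.trans hmem.2)) hmem
  have h11 : quo (FF k r) (dFF k r) (E / 2 ^ 24) ≤ (a : ℝ) / 2 ^ 48 + (c / 2 ^ 24) * (E / 2 ^ 24) := by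
    rcases le_max_iff.1 h10 with h9 | h9 <;> linarith
  have h12 := (PS_FF hk hrk).mul_quo hR (E / 2 ^ 24)
  have hy0 : 0 ≤ E / 2 ^ 24 := (hsub hmem).1
  rw [← h12]
  have h13 := mul_le_mul_of_nonneg_left h11 hy0
  have e13 : (a : ℝ) * E + c * E ^ 2 =
      2 ^ 72 * (E / 2 ^ 24 * ((a : ℝ) / 2 ^ 48 + (c / 2 ^ 24) * (E / 2 ^ 24))) := by ring
  rw [e13]
  exact mul_le_mul_of_nonneg_left h13 (by positivity)

end Pool.Agent.H60.SL.Ck
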