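import Pool.Agent.H60.Slab.Comb

set_option autoImplicit false

open MeasureTheory Set

namespace Pool.Agent.H60.SL

open Pool.Agent.H60.Slab

/-- `t ↦ FV a t 0` is concave on `[0, ∞)`. -/
theorem FV_chord {n : ℕ} (a : Fin n → ℝ) (hsum : ∑ j, a j ^ 2 = 1) {t1 t t2 : ℝ} (h0 : 0 ≤ t1)
    (h1 : t1 ≤ t) (h2 : t ≤ t2) :
    (t2 - t) * FV a t1 0 + (t - t1) * FV a t2 0 ≤ (t2 - t1) * FV a t 0 := by
  have h := comb_nonneg a hsum (-(t2 - t)) (t2 - t1) (-(t - t1)) h0 (h0.trans h1)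
    (h0.trans (h1.trans h2)) (by
      intro x hx
      rcases le_total x t1 with a1 | a1
      · rw [min_eq_left a1, min_eq_left (a1.trans h1), min_eq_left (a1.trans (h1.trans h2))]
        nlinarith
      · rcases le_total x t with a2 | a2
        · rw [min_eq_right a1, min_eq_left a2, min_eq_left (a2.trans h2)]
          nlinarith [mul_nonneg (sub_nonneg.2 h2) (sub_nonneg.2 a1)]
        · rcases le_total x t2 with a3 | a3
          · rw [min_eq_right a1, min_eq_right a2, min_eq_left a3]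
            nlinarith [mul_nonneg (sub_nonneg.2 h1) (sub_nonneg.2 a3)]
          · rw [min_eq_right a1, min_eq_right a2, min_eq_right a3]
            nlinarith)
  linarith

/-- chord form for `T = 1 - FV/2^n` -/
theorem T_chord {n : ℕ} (a : Fin n → ℝ) (hsum : ∑ j, a j ^ 2 = 1) {t1 t t2 : ℝ} (h0 : 0 ≤ t1)
    (h1 : t1 ≤ t) (h2 : t ≤ t2) :
    (t2 - t1) * (1 - FV a t 0 / 2 ^ n) ≤
      (t2 - t) * (1 - FV a t1 0 / 2 ^ n) + (t - t1) * (1 - FV a t2 0 / 2 ^ n) := by
  have h := FV_chord a hsum h0 h1 h2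
  have h3 := div_le_div_of_nonneg_right h (by positivity : (0 : ℝ) ≤ 2 ^ n)
  rw [add_div, mul_div_assoc, mul_div_assoc, mul_div_assoc] at h3
  linarith

end Pool.Agent.H60.SL
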