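import Pool.Agent.H60.SL.AvgPoi

set_option autoImplicit false

open MeasureTheory Set Filter Topology

namespace Pool.Agent.H60.SL

open Pool.Agent.H64.Slab Pool.Agent.H60.Slab Pool.Agent.H60.Big

theorem F_trans_KK {α γ ξ : ℝ} (hγ : 0 < γ) (hαγ : γ < α) (hξ : ξ ≠ 0) :
    ∫ y, LL 1 (α + γ) (α - γ) y * Real.sin (ξ * y) =
      -(4 / 45) * (α * γ) ^ 3 * (ξ ^ 3 * KK (α * ξ) (γ * ξ)) := by
  rw [F_trans hγ hαγ hξ]
  have hα : 0 < α := hγ.trans hαγ
  have h1 : α * ξ ≠ 0 := mul_ne_zero hα.ne' hξ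
  have h2 : γ * ξ ≠ 0 := mul_ne_zero hγ.ne' hξ
  have h3 : α ^ 2 - γ ^ 2 ≠ 0 := by
    have : 0 < (α - γ) * (α + γ) := mul_pos (by linarith) (by linarith)
    nlinarith
  have h4 : (α * ξ) ^ 2 - (γ * ξ) ^ 2 = (α ^ 2 - γ ^ 2) * ξ ^ 2 := by ring
  unfold KK phiB
  rw [Real.sinc_of_ne_zero h1, Real.sinc_of_ne_zero h2, h4]
  field_simp
  ring

theorem F_trans_bound {α γ : ℝ} (hγ : 0 < γ) (hαγ : γ < α) :
    ∃ A B : ℝ, 0 ≤ A ∧ 0 ≤ B ∧ ∀ ξ : ℝ, ξ ≠ 0 →
      |∫ y, LL 1 (α + γ) (α - γ) y * Real.sin (ξ * y)| ≤ A / |ξ| ^ 3 + B / |ξ| ^ 2 := by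
  have hα : 0 < α := hγ.trans hαγ
  have h3 : 0 < α ^ 2 - γ ^ 2 := by
    have : 0 < (α - γ) * (α + γ) := mul_pos (by linarith) (by linarith)
    nlinarith
  refine ⟨4 / (α ^ 2 - γ ^ 2) * (γ ^ 2 + α ^ 2), 4 / (α ^ 2 - γ ^ 2) * (γ ^ 2 * α + α ^ 2 * γ),
    by positivity, by positivity, fun ξ hξ => ?_⟩
  rw [F_trans hγ hαγ hξ]
  have hx : 0 < |ξ| := abs_pos.2 hξ
  have s1 : ∀ c : ℝ, 0 < c → |Real.sin (c * ξ) - c * ξ * Real.cos (c * ξ)| ≤ 1 + c * |ξ| := by
    intro c hc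
    refine (abs_sub _ _).trans ?_
    apply add_le_add (Real.abs_sin_le_one _)
    rw [abs_mul, abs_mul, abs_of_pos hc]
    exact mul_le_of_le_one_right (by positivity) (Real.abs_cos_le_one _)
  have s2 : |γ ^ 2 * (Real.sin (α * ξ) - α * ξ * Real.cos (α * ξ)) * Real.sin (γ * ξ) -
         α ^ 2 * (Real.sin (γ * ξ) - γ * ξ * Real.cos (γ * ξ)) * Real.sin (α * ξ)| ≤
         γ ^ 2 * (1 + α * |ξ|) + α ^ 2 * (1 + γ * |ξ|) := by
    refine (abs_sub _ _).trans ?_
    apply add_le_add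
    · rw [abs_mul, abs_mul, abs_of_nonneg (by positivity : (0 : ℝ) ≤ γ ^ 2)]
      have h5 : 0 ≤ 1 + α * |ξ| := by positivity
      calc γ ^ 2 * |Real.sin (α * ξ) - α * ξ * Real.cos (α * ξ)| * |Real.sin (γ * ξ)|
          ≤ γ ^ 2 * (1 + α * |ξ|) * 1 := by
            apply mul_le_mul _ (Real.abs_sin_le_one _) (abs_nonneg _) (by positivity)
            exact mul_le_mul_of_nonneg_left (s1 α hα) (by positivity)
        _ = _ := by ring
    · rw [abs_mul, abs_mul, abs_of_nonneg (by positivity : (0 : ℝ) ≤ α ^ 2)]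
      calc α ^ 2 * |Real.sin (γ * ξ) - γ * ξ * Real.cos (γ * ξ)| * |Real.sin (α * ξ)|
          ≤ α ^ 2 * (1 + γ * |ξ|) * 1 := by
            apply mul_le_mul _ (Real.abs_sin_le_one _) (abs_nonneg _) (by positivity)
            exact mul_le_mul_of_nonneg_left (s1 γ hγ) (by positivity)
        _ = _ := by ring
  rw [abs_mul, abs_div, abs_neg, abs_mul, abs_of_pos h3, abs_pow,
    abs_of_pos (by norm_num : (0 : ℝ) < 4)]
  calc 4 / ((α ^ 2 - γ ^ 2) * |ξ| ^ 3) * |γ ^ 2 * (Real.sin (α * ξ) - α * ξ * Real.cos (α * ξ)) *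
        Real.sin (γ * ξ) - α ^ 2 * (Real.sin (γ * ξ) - γ * ξ * Real.cos (γ * ξ)) *
        Real.sin (α * ξ)|
      ≤ 4 / ((α ^ 2 - γ ^ 2) * |ξ| ^ 3) * (γ ^ 2 * (1 + α * |ξ|) + α ^ 2 * (1 + γ * |ξ|)) :=
        mul_le_mul_of_nonneg_left s2 (by positivity)
    _ = _ := by
        field_simp
        ring

theorem int_odd_zero {g : ℝ → ℝ} (hg : ∀ x, g (-x) = -g x) : ∫ x, g x = 0 := by
  have h := integral_neg_eq_self g (volume : Measure ℝ)
  simp only [hg, integral_neg] at h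
  linarith

theorem summable_of_bound {g : ℤ → ℝ} {A B P : ℝ} (hA : 0 ≤ A) (hP : 0 < P)
    (h0 : g 0 = 0)
    (h : ∀ k : ℤ, k ≠ 0 → |g k| ≤ A / |2 * Real.pi * k / P| ^ 3 + B / |2 * Real.pi * k / P| ^ 2) :
    Summable g := by
  have hs : Summable (fun k : ℤ => (A * (P / (2 * Real.pi)) ^ 3 + B * (P / (2 * Real.pi)) ^ 2) *
      (1 / (k : ℝ) ^ 2)) :=
    (Real.summable_one_div_int_pow.2 (by norm_num)).mul_left _
  apply Summable.of_norm_bounded hs
  intro k
  rw [Real.norm_eq_abs]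
  have hpi := Real.pi_pos
  by_cases hk : k = 0
  · rw [hk, h0]
    simp
  · refine (h k hk).trans ?_
    have h1 : (1 : ℝ) ≤ |(k : ℝ)| := by
      have : (1 : ℤ) ≤ |k| := Int.one_le_abs hk
      exact_mod_cast this
    have h2 : |2 * Real.pi * k / P| = 2 * Real.pi / P * |(k : ℝ)| := by
      rw [abs_div, abs_mul, abs_of_pos hP, abs_of_pos (by positivity : 0 < 2 * Real.pi)]
      ring
    rw [h2, ← sq_abs (k : ℝ)]
    have hk0 : 0 < |(k : ℝ)| := by linarith
    have h3 : A / (2 * Real.pi / P * |(k : ℝ)|) ^ 3 ≤ A * (P / (2 * Real.pi)) ^ 3 * (1 / |(k : ℝ)| ^ 2) := by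
      have e : A / (2 * Real.pi / P * |(k : ℝ)|) ^ 3 =
          A * (P / (2 * Real.pi)) ^ 3 * (1 / |(k : ℝ)| ^ 3) := by
        field_simp
      rw [e]
      apply mul_le_mul_of_nonneg_left _ (by positivity)
      apply one_div_le_one_div_of_le (by positivity)
      exact pow_le_pow_right₀ h1 (by norm_num)
    have h4 : B / (2 * Real.pi / P * |(k : ℝ)|) ^ 2 = B * (P / (2 * Real.pi)) ^ 2 * (1 / |(k : ℝ)| ^ 2) := by
      field_simp
    rw [h4, add_mul]
    linarith

theorem F_cont {α γ : ℝ} : Continuous (LL 1 (α + γ) (α - γ)) := LL_continuous _ _ _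

theorem F_supp {α γ : ℝ} (hγ : 0 < γ) (hαγ : γ < α) (x : ℝ) (hx : α + γ ≤ |x|) :
    LL 1 (α + γ) (α - γ) x = 0 := by
  have hd : 0 < α - γ := by linarith
  have hp : α - γ < α + γ := by linarith
  rcases abs_cases x with ⟨h, _⟩ | ⟨h, _⟩
  · exact LL_far (by norm_num) hd hp (by linarith)
  · have h1 := F_odd hd hp x
    rw [LL_far (by norm_num) hd hp (by linarith)] at h1
    linarith

theorem q_evn {α γ : ℝ} (hγ : 0 < γ) (hαγ : γ < α) (x : ℝ) :
    LL 2 (α + γ) (α - γ) (-x) = LL 2 (α + γ) (α - γ) x := by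
  obtain ⟨z, hG⟩ := base_good (p := α + γ) (d := α - γ) (by linarith) (by linarith)
  exact hG.q_even x

theorem q_supp {α γ : ℝ} (hγ : 0 < γ) (hαγ : γ < α) (x : ℝ) (hx : α + γ ≤ |x|) :
    LL 2 (α + γ) (α - γ) x = 0 := by
  have hd : 0 < α - γ := by linarith
  have hp : α - γ < α + γ := by linarith
  rcases abs_cases x with ⟨h, _⟩ | ⟨h, _⟩
  · exact LL_far (by norm_num) hd hp (by linarith)
  · rw [← q_evn hγ hαγ]
    exact LL_far (by norm_num) hd hp (by linarith)

/-- cosine transform of `LL 2` -/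
theorem q_trans {α γ ξ : ℝ} (hγ : 0 < γ) (hαγ : γ < α) (hξ : ξ ≠ 0) :
    ∫ y, LL 2 (α + γ) (α - γ) y * Real.cos (ξ * y) =
      (∫ y, LL 1 (α + γ) (α - γ) y * Real.sin (ξ * y)) / ξ := by
  have hq := q_supp hγ hαγ
  have hF := F_supp hγ hαγ
  have hcq : Continuous (LL 2 (α + γ) (α - γ)) := LL_continuous _ _ _
  have hcF : Continuous (LL 1 (α + γ) (α - γ)) := LL_continuous _ _ _
  have h := integral_mul_deriv_eq_deriv_mul_of_integrable
    (u := LL 2 (α + γ) (α - γ)) (v := fun y => Real.sin (ξ * y) / ξ)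
    (u' := fun y => -LL 1 (α + γ) (α - γ) y) (v' := fun y => Real.cos (ξ * y))
    (fun x _ => LL_hasDerivAt (k := 1) le_rfl _ _ x)
    (fun x _ => by
      have h0 : HasDerivAt (fun y : ℝ => ξ * y) ξ x := by
        simpa using (hasDerivAt_id x).const_mul ξ
      have := h0.sin.div_const ξ
      refine this.congr_deriv ?_
      field_simp)
    (by
      apply supp_integrable (p := α + γ) (by fun_prop)
      intro x hx
      simp [hq x hx])
    (by
      apply supp_integrable (p := α + γ) (by fun_prop)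
      intro x hx
      simp [hF x hx])
    (by
      apply supp_integrable (p := α + γ) (by fun_prop)
      intro x hx
      simp [hq x hx])
  rw [h, ← integral_neg, ← integral_div]
  congr 1
  ext y
  ring

theorem q_int_zero {α γ : ℝ} (hγ : 0 < γ) (hαγ : γ < α) : ∫ y, LL 2 (α + γ) (α - γ) y = 0 := by
  have hd : 0 < α - γ := by linarith
  have hp : α - γ < α + γ := by linarith
  have hq := q_supp hγ hαγ
  have hcq : Continuous (LL 2 (α + γ) (α - γ)) := LL_continuous _ _ _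
  have h3 : ∀ x, α + γ ≤ |x| → LL 3 (α + γ) (α - γ) x = 0 := by
    intro x hx
    rcases abs_cases x with ⟨h, _⟩ | ⟨h, _⟩
    · exact LL_far (by norm_num) hd hp (by linarith)
    · have h1 := LL3_odd hd hp x
      rw [LL_far (by norm_num) hd hp (by linarith)] at h1
      linarith
  have h := integral_eq_zero_of_hasDerivAt_of_integrable
    (f := LL 3 (α + γ) (α - γ)) (f' := fun y => -LL 2 (α + γ) (α - γ) y)
    (fun x => LL_hasDerivAt (k := 2) (by norm_num) _ _ x)
    (by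
      apply supp_integrable (p := α + γ) (by fun_prop)
      intro x hx
      simp [hq x hx])
    (supp_integrable (p := α + γ) (LL_continuous _ _ _) h3)
  rw [integral_neg] at h
  linarith

theorem hasSum_half {g : ℤ → ℝ} {s : ℝ} (h : HasSum g s) (h0 : g 0 = 0) (he : ∀ k, g (-k) = g k) :
    HasSum (fun n : ℕ => 2 * g ((n : ℤ) + 1)) s := by
  have h1 := h.nat_add_neg
  rw [h0, add_zero] at h1
  have h2 : HasSum (fun n : ℕ => 2 * g (n : ℤ)) s := by
    refine h1.congr_fun ?_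
    intro n
    rw [he]
    ring
  have h3 := (hasSum_nat_add_iff' (f := fun n : ℕ => 2 * g (n : ℤ)) 1).2 h2
  simp only [Finset.range_one, Finset.sum_singleton, Nat.cast_zero, h0, mul_zero, sub_zero] at h3
  simp only [Nat.cast_add, Nat.cast_one] at h3
  exact h3

theorem KK_neg (u v : ℝ) : KK (-u) (-v) = KK u v := by
  unfold KK phiB
  rw [Real.sinc_neg, Real.sinc_neg, Real.sin_neg, Real.sin_neg, Real.cos_neg, Real.cos_neg]
  have h1 : ∀ z : ℝ, 15 * ((3 - (-z) ^ 2) * -Real.sin z - 3 * -z * Real.cos z) / (-z) ^ 5 =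
      15 * ((3 - z ^ 2) * Real.sin z - 3 * z * Real.cos z) / z ^ 5 := by
    intro z
    rw [show (-z) ^ 5 = -(z ^ 5) by ring, div_neg, ← neg_div]
    congr 1
    ring
  rw [h1, h1]
  norm_num

/-- Poisson summation for the averaged `LL 1` -/
theorem F_poisson {m : ℕ} (b : Fin m → ℝ) {α γ P : ℝ} (hγ : 0 < γ) (hαγ : γ < α) (hP : 0 < P)
    (t : ℝ) :
    HasSum (fun k : ℕ => -(8 / (45 * P)) * (α * γ) ^ 3 *
      ((2 * Real.pi * (k + 1) / P) ^ 3 * Real.sin (t * (2 * Real.pi * (k + 1) / P)) *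
        KK (α * (2 * Real.pi * (k + 1) / P)) (γ * (2 * Real.pi * (k + 1) / P)) *
        ∏ j, Real.sinc (b j * (2 * Real.pi * (k + 1) / P))))
      (∑' j : ℤ, avgc b (LL 1 (α + γ) (α - γ)) (t + j * P)) := by
  obtain ⟨A, B, hA, hB, hbd⟩ := F_trans_bound hγ hαγ
  have hd : 0 < α - γ := by linarith
  have hp : α - γ < α + γ := by linarith
  have hC0 : ∀ ξ : ℝ, (0 : ℝ) = ∫ y, LL 1 (α + γ) (α - γ) y * Real.cos (ξ * y) := by
    intro ξ
    rw [int_odd_zero]
    intro x
    rw [F_odd hd hp, mul_neg, Real.cos_neg]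
    ring
  have hpi := Real.pi_pos
  have hSs : Summable (fun k : ℤ => ∫ y, LL 1 (α + γ) (α - γ) y *
      Real.sin ((2 * Real.pi * k / P) * y)) := by
    apply summable_of_bound hA hP
    · simp
    · intro k hk
      apply hbd
      have : (k : ℝ) ≠ 0 := by exact_mod_cast hk
      positivity
  have h := avgc_poisson b (LL_continuous 1 (α + γ) (α - γ)) (F_supp hγ hαγ)
    (C := fun _ => 0) (S := fun ξ => ∫ y, LL 1 (α + γ) (α - γ) y * Real.sin (ξ * y))
    hC0 (fun _ => rfl) hP (by simp) hSs t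
  have h1 := hasSum_half h (by simp) (by
    intro k
    have e : (2 * Real.pi * ((-k : ℤ) : ℝ) / P) = -(2 * Real.pi * k / P) := by
      push_cast
      ring
    rw [e]
    simp only [zero_mul, zero_add, mul_neg, Real.sin_neg, Real.sinc_neg]
    have e2 : ∫ y, LL 1 (α + γ) (α - γ) y * Real.sin (-(2 * Real.pi * k / P) * y) =
        -∫ y, LL 1 (α + γ) (α - γ) y * Real.sin ((2 * Real.pi * k / P) * y) := by
      rw [← integral_neg]
      congr 1
      ext y
      rw [neg_mul, Real.sin_neg, mul_neg]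
    rw [e2]
    ring)
  have h2 := h1.mul_left (1 / P)
  rw [one_div, inv_mul_cancel_left₀ hP.ne'] at h2
  refine h2.congr_fun ?_
  intro k
  have hk : (0 : ℝ) < 2 * Real.pi * (k + 1) / P := by positivity
  simp only [Int.cast_add, Int.cast_natCast, Int.cast_one, zero_mul, zero_add]
  rw [F_trans_KK hγ hαγ hk.ne']
  ring

/-- Poisson summation for the averaged `LL 2` -/
theorem q_poisson {m : ℕ} (b : Fin m → ℝ) {α γ P : ℝ} (hγ : 0 < γ) (hαγ : γ < α) (hP : 0 < P)
    (t : ℝ) :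
    HasSum (fun k : ℕ => -(8 / (45 * P)) * (α * γ) ^ 3 *
      ((2 * Real.pi * (k + 1) / P) ^ 2 * Real.cos (t * (2 * Real.pi * (k + 1) / P)) *
        KK (α * (2 * Real.pi * (k + 1) / P)) (γ * (2 * Real.pi * (k + 1) / P)) *
        ∏ j, Real.sinc (b j * (2 * Real.pi * (k + 1) / P))))
      (∑' j : ℤ, avgc b (LL 2 (α + γ) (α - γ)) (t + j * P)) := by
  obtain ⟨A, B, hA, hB, hbd⟩ := F_trans_bound hγ hαγ
  have hd : 0 < α - γ := by linarith
  have hp : α - γ < α + γ := by linarith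
  have hS0 : ∀ ξ : ℝ, (0 : ℝ) = ∫ y, LL 2 (α + γ) (α - γ) y * Real.sin (ξ * y) := by
    intro ξ
    rw [int_odd_zero]
    intro x
    rw [q_evn hγ hαγ, mul_neg, Real.sin_neg]
    ring
  have hpi := Real.pi_pos
  have hSs : Summable (fun k : ℤ => ∫ y, LL 2 (α + γ) (α - γ) y *
      Real.cos ((2 * Real.pi * k / P) * y)) := by
    apply summable_of_bound (A := A * (P / (2 * Real.pi))) (B := B * (P / (2 * Real.pi)))
      (by positivity) hP
    · simpa using q_int_zero hγ hαγ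
    · intro k hk
      have hk0 : (k : ℝ) ≠ 0 := by exact_mod_cast hk
      have hne : (2 * Real.pi * k / P) ≠ 0 := by positivity
      rw [q_trans hγ hαγ hne, abs_div]
      have h1 : (1 : ℝ) ≤ |(k : ℝ)| := by
        have : (1 : ℤ) ≤ |k| := Int.one_le_abs hk
        exact_mod_cast this
      have h2 : |2 * Real.pi * k / P| = 2 * Real.pi / P * |(k : ℝ)| := by
        rw [abs_div, abs_mul, abs_of_pos hP, abs_of_pos (by positivity : 0 < 2 * Real.pi)]
        ring
      have h3 : 2 * Real.pi / P ≤ |2 * Real.pi * k / P| := by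
        rw [h2]
        exact le_mul_of_one_le_right (by positivity) h1
      have h4 : (1 : ℝ) / |2 * Real.pi * k / P| ≤ P / (2 * Real.pi) := by
        rw [div_le_div_iff₀ (abs_pos.2 hne) (by positivity), one_mul]
        rw [div_le_iff₀ hP] at h3
        linarith
      have h5 := hbd _ hne
      have h6 : 0 ≤ A / |2 * Real.pi * k / P| ^ 3 + B / |2 * Real.pi * k / P| ^ 2 := by positivity
      calc |∫ y, LL 1 (α + γ) (α - γ) y * Real.sin (2 * Real.pi * k / P * y)| /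
            |2 * Real.pi * k / P| = |∫ y, LL 1 (α + γ) (α - γ) y *
              Real.sin (2 * Real.pi * k / P * y)| * (1 / |2 * Real.pi * k / P|) := by
              rw [mul_one_div]
        _ ≤ (A / |2 * Real.pi * k / P| ^ 3 + B / |2 * Real.pi * k / P| ^ 2) *
              (P / (2 * Real.pi)) := by
              apply mul_le_mul h5 h4 (by positivity) h6
        _ = _ := by ring
  have h := avgc_poisson b (LL_continuous 2 (α + γ) (α - γ)) (q_supp hγ hαγ)
    (C := fun ξ => ∫ y, LL 2 (α + γ) (α - γ) y * Real.cos (ξ * y)) (S := fun _ => 0)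
    (fun _ => rfl) hS0 hP hSs (by simp) t
  have h1 := hasSum_half h (by simpa using q_int_zero hγ hαγ) (by
    intro k
    have e : (2 * Real.pi * ((-k : ℤ) : ℝ) / P) = -(2 * Real.pi * k / P) := by
      push_cast
      ring
    rw [e]
    simp only [zero_mul, add_zero, mul_neg, neg_mul, Real.cos_neg, Real.sinc_neg])
  have h2 := h1.mul_left (1 / P)
  rw [one_div, inv_mul_cancel_left₀ hP.ne'] at h2
  refine h2.congr_fun ?_
  intro k
  have hk : (0 : ℝ) < 2 * Real.pi * (k + 1) / P := by positivity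
  simp only [Int.cast_add, Int.cast_natCast, Int.cast_one, zero_mul, add_zero]
  rw [q_trans hγ hαγ hk.ne', F_trans_KK hγ hαγ hk.ne']
  field_simp
  ring

/-- no alias terms when the period is large -/
theorem tsum_no_alias {m : ℕ} (b : Fin m → ℝ) {f : ℝ → ℝ} {L P t : ℝ} (hs : ∀ x, L ≤ |x| → f x = 0)
    (ht : 0 ≤ t) (hP : t + L + ∑ j, |b j| ≤ P) :
    ∑' j : ℤ, avgc b f (t + j * P) = avgc b f t := by
  rw [tsum_eq_single (0 : ℤ)]
  · simp
  · intro j hj
    by_cases hP0 : P ≤ 0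
    · apply avgc_far b hs
      have h1 := abs_nonneg (t + j * P)
      linarith
    · push Not at hP0
      apply avgc_far b hs
      have h1 : (1 : ℝ) ≤ |(j : ℝ)| := by
        have : (1 : ℤ) ≤ |j| := Int.one_le_abs hj
        exact_mod_cast this
      have h2 : P ≤ |(j : ℝ) * P| := by
        rw [abs_mul, abs_of_pos hP0]
        exact le_mul_of_one_le_left hP0.le h1
      have h3 := abs_sub_abs_le_abs_sub ((j : ℝ) * P) (-t)
      rw [abs_neg, sub_neg_eq_add, add_comm ((j : ℝ) * P), abs_of_nonneg ht] at h3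
      linarith

end Pool.Agent.H60.SL
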