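import Pool.Agent.H60.SL.Alias
import Pool.Agent.H60.SL.PoiF

set_option autoImplicit false

open MeasureTheory Set Filter Topology

namespace Pool.Agent.H60.SL

open Pool.Agent.H64.Slab Pool.Agent.H60.Slab Pool.Agent.H60.Big

theorem F_sup_pos {α γ y : ℝ} (hγ : 0 < γ) (hαγ : γ < α) (hy : 0 ≤ y) :
    -(2 * γ ^ 3 / (α + γ)) ≤ LL 1 (α + γ) (α - γ) y ∧
      LL 1 (α + γ) (α - γ) y ≤ (α * γ) ^ 2 / (2 * (α + γ) ^ 2) := by
  have hd : 0 < α - γ := by linarith
  have hp : α - γ < α + γ := by linarith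
  have hp0 : 0 < α + γ := by linarith
  have hα : 0 < α := hγ.trans hαγ
  rcases le_total y (α - γ) with h | h
  · rw [F_in hd hp hy h, show α + γ - (α - γ) = 2 * γ by ring]
    constructor
    · rw [neg_div, neg_le_neg_iff, div_le_div_iff₀ (by positivity) hp0]
      have h1 : y * (α + γ) ≤ (α - γ) * (α + γ) := mul_le_mul_of_nonneg_right h hp0.le
      have h2 : 0 < γ ^ 3 := by positivity
      nlinarith
    · have h3 : -((2 * γ) ^ 3 * y) / (4 * (α + γ) * (α - γ)) ≤ 0 := by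
        rw [neg_div]
        have : 0 ≤ (2 * γ) ^ 3 * y / (4 * (α + γ) * (α - γ)) := by positivity
        linarith
      have h4 : 0 ≤ (α * γ) ^ 2 / (2 * (α + γ) ^ 2) := by positivity
      linarith
  rcases le_total y (α + γ) with h2 | h2
  · rw [F_out hd hp h h2]
    set s : ℝ := α + γ - y with hs
    have hs0 : 0 ≤ s := by linarith
    have hs2 : s ≤ 2 * γ := by linarith
    have e : ((α + γ) ^ 2 - (α - γ) ^ 2) / (α + γ) = 4 * (α * γ / (α + γ)) := by
      field_simp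
      ring
    rw [e]
    set c : ℝ := α * γ / (α + γ) with hc
    have hcγ : c = γ - γ ^ 2 / (α + γ) := by
      rw [hc]; field_simp; ring
    constructor
    · have e2 : s * (4 * c - 2 * s) / 4 + 2 * γ ^ 3 / (α + γ) =
          (2 * γ - s) * (s / 2 + γ ^ 2 / (α + γ)) := by
        rw [hcγ]
        field_simp
        ring
      have h5 : 0 ≤ (2 * γ - s) * (s / 2 + γ ^ 2 / (α + γ)) :=
        mul_nonneg (by linarith) (by positivity)
      linarith
    · have e3 : (α * γ) ^ 2 / (2 * (α + γ) ^ 2) = c ^ 2 / 2 := by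
        rw [hc]; field_simp
      rw [e3]
      nlinarith [sq_nonneg (s - c)]
  · rw [LL_far (by norm_num) hd hp h2]
    constructor
    · have : 0 ≤ 2 * γ ^ 3 / (α + γ) := by positivity
      linarith
    · positivity

theorem F_sup {α γ : ℝ} (hγ : 0 < γ) (hαγ : γ < α) (y : ℝ) :
    |LL 1 (α + γ) (α - γ) y| ≤ max (2 * γ ^ 3 / (α + γ)) ((α * γ) ^ 2 / (2 * (α + γ) ^ 2)) := by
  have hd : 0 < α - γ := by linarith
  have hp : α - γ < α + γ := by linarith
  have key : ∀ z : ℝ, 0 ≤ z → |LL 1 (α + γ) (α - γ) z| ≤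
      max (2 * γ ^ 3 / (α + γ)) ((α * γ) ^ 2 / (2 * (α + γ) ^ 2)) := by
    intro z hz
    obtain ⟨h1, h2⟩ := F_sup_pos hγ hαγ hz
    rw [abs_le]
    have h3 := le_max_left (2 * γ ^ 3 / (α + γ)) ((α * γ) ^ 2 / (2 * (α + γ) ^ 2))
    have h4 := le_max_right (2 * γ ^ 3 / (α + γ)) ((α * γ) ^ 2 / (2 * (α + γ) ^ 2))
    exact ⟨by linarith, by linarith⟩
  rcases le_total 0 y with h | h
  · exact key y h
  · have := key (-y) (by linarith)
    rw [F_odd hd hp, abs_neg] at this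
    exact this

theorem q_sup {α γ : ℝ} (hγ : 0 < γ) (hαγ : γ < α) (y : ℝ) :
    |LL 2 (α + γ) (α - γ) y| ≤ 2 / 3 * γ ^ 3 := by
  have hd : 0 < α - γ := by linarith
  have hp : α - γ < α + γ := by linarith
  have hp0 : 0 < α + γ := by linarith
  have hα : 0 < α := hγ.trans hαγ
  have hγ3 : 0 < γ ^ 3 := by positivity
  have key : ∀ y : ℝ, 0 ≤ y → |LL 2 (α + γ) (α - γ) y| ≤ 2 / 3 * γ ^ 3 := by
    intro y hy
    rw [abs_le]
    rcases le_total y (α - γ) with h | h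
    · rw [q_in hd hp hy h, show α + γ - (α - γ) = 2 * γ by ring]
      have hpd : 0 < (α + γ) * (α - γ) := mul_pos hp0 hd
      constructor
      · rw [le_div_iff₀ (by positivity)]
        have h3 : 0 ≤ γ ^ 3 * y ^ 2 := by positivity
        nlinarith [mul_pos hγ3 hpd]
      · rw [div_le_iff₀ (by positivity)]
        have h4 : y ^ 2 ≤ (α + γ) * (α - γ) := by nlinarith
        nlinarith [mul_le_mul_of_nonneg_left h4 hγ3.le]
    rcases le_total y (α + γ) with h2 | h2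
    · rw [q_out hd hp h h2]
      set s : ℝ := α + γ - y with hs
      have hs0 : 0 ≤ s := by linarith
      have hs2 : s ≤ 2 * γ := by linarith
      have e : ((α + γ) ^ 2 - (α - γ) ^ 2) / (α + γ) = 4 * (α * γ / (α + γ)) := by
        field_simp
        ring
      rw [e]
      set c : ℝ := α * γ / (α + γ) with hc
      have hc1 : c ≤ γ := by
        rw [hc, div_le_iff₀ hp0]
        nlinarith
      have hc2 : γ / 2 ≤ c := by
        rw [hc, div_le_div_iff₀ (by norm_num) hp0]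
        nlinarith
      have hc0 : 0 ≤ c := by positivity
      constructor
      · have e2 : 0 ≤ (2 * γ - s) * (s ^ 2 + γ / 2 * s + γ ^ 2) :=
          mul_nonneg (by linarith) (by positivity)
        have e3 : s ^ 2 * (3 * γ / 2 - s) + 2 * γ ^ 3 = (2 * γ - s) * (s ^ 2 + γ / 2 * s + γ ^ 2) := by
          ring
        have e4 : s ^ 2 * (γ / 2) ≤ s ^ 2 * c := mul_le_mul_of_nonneg_left hc2 (sq_nonneg s)
        nlinarith
      · have e2 : 0 ≤ (s - 2 * c) ^ 2 * (s + c) := by positivity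
        have e3 : (s - 2 * c) ^ 2 * (s + c) = s ^ 3 - 3 * c * s ^ 2 + 4 * c ^ 3 := by ring
        have e4 : c ^ 3 ≤ γ ^ 3 := pow_le_pow_left₀ hc0 hc1 3
        nlinarith
    · rw [LL_far (by norm_num) hd hp h2]
      constructor <;> nlinarith
  rcases le_total 0 y with h | h
  · exact key y h
  · have := key (-y) (by linarith)
    rw [q_evn hγ hαγ] at this
    exact this

/-- near-Fourier formula for `LL 1` with alias error -/
theorem F_fourier_near {m : ℕ} (b : Fin m → ℝ) {α γ P t σ : ℝ} (hγ : 0 < γ) (hαγ : γ < α)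
    (hP : 2 * (α + γ) < P) (ht : 0 ≤ t) (htP : t + (α + γ) ≤ P) (hσ : 0 < σ)
    (hb : ∑ j, b j ^ 2 ≤ σ) :
    |-(8 / (45 * P)) * (α * γ) ^ 3 * (∑' k : ℕ,
      ((2 * Real.pi * (k + 1) / P) ^ 3 * Real.sin (t * (2 * Real.pi * (k + 1) / P)) *
        KK (α * (2 * Real.pi * (k + 1) / P)) (γ * (2 * Real.pi * (k + 1) / P)) *
        ∏ j, Real.sinc (b j * (2 * Real.pi * (k + 1) / P)))) -
      avgc b (LL 1 (α + γ) (α - γ)) t| ≤
      2 * max (2 * γ ^ 3 / (α + γ)) ((α * γ) ^ 2 / (2 * (α + γ) ^ 2)) *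
        Real.exp (-(3 * (P - t - (α + γ)) ^ 2) / (2 * σ)) := by
  have hP0 : 0 < P := by linarith
  have h := alias_bound b (LL_continuous 1 (α + γ) (α - γ)).measurable (F_sup hγ hαγ) (L := α + γ)
    (fun x hx => F_supp hγ hαγ x hx.le) hP hP0 ht htP hσ hb
  rw [← (F_poisson b hγ hαγ hP0 t).tsum_eq, tsum_mul_left] at h
  exact h

theorem q_fourier_near {m : ℕ} (b : Fin m → ℝ) {α γ P t σ : ℝ} (hγ : 0 < γ) (hαγ : γ < α)
    (hP : 2 * (α + γ) < P) (ht : 0 ≤ t) (htP : t + (α + γ) ≤ P) (hσ : 0 < σ)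
    (hb : ∑ j, b j ^ 2 ≤ σ) :
    |-(8 / (45 * P)) * (α * γ) ^ 3 * (∑' k : ℕ,
      ((2 * Real.pi * (k + 1) / P) ^ 2 * Real.cos (t * (2 * Real.pi * (k + 1) / P)) *
        KK (α * (2 * Real.pi * (k + 1) / P)) (γ * (2 * Real.pi * (k + 1) / P)) *
        ∏ j, Real.sinc (b j * (2 * Real.pi * (k + 1) / P)))) -
      avgc b (LL 2 (α + γ) (α - γ)) t| ≤
      2 * (2 / 3 * γ ^ 3) * Real.exp (-(3 * (P - t - (α + γ)) ^ 2) / (2 * σ)) := by
  have hP0 : 0 < P := by linarith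
  have h := alias_bound b (LL_continuous 2 (α + γ) (α - γ)).measurable (q_sup hγ hαγ) (L := α + γ)
    (fun x hx => q_supp hγ hαγ x hx.le) hP hP0 ht htP hσ hb
  rw [← (q_poisson b hγ hαγ hP0 t).tsum_eq, tsum_mul_left] at h
  exact h

theorem F_fourier_eq {m : ℕ} (b : Fin m → ℝ) {α γ P t : ℝ} (hγ : 0 < γ) (hαγ : γ < α)
    (ht : 0 ≤ t) (hP : t + (α + γ) + ∑ j, |b j| ≤ P) :
    avgc b (LL 1 (α + γ) (α - γ)) t = -(8 / (45 * P)) * (α * γ) ^ 3 * ∑' k : ℕ,
      ((2 * Real.pi * (k + 1) / P) ^ 3 * Real.sin (t * (2 * Real.pi * (k + 1) / P)) *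
        KK (α * (2 * Real.pi * (k + 1) / P)) (γ * (2 * Real.pi * (k + 1) / P)) *
        ∏ j, Real.sinc (b j * (2 * Real.pi * (k + 1) / P))) := by
  have hP0 : 0 < P := by
    have : 0 ≤ ∑ j, |b j| := Finset.sum_nonneg fun j _ => abs_nonneg _
    linarith
  rw [← tsum_mul_left, (F_poisson b hγ hαγ hP0 t).tsum_eq]
  exact (tsum_no_alias b (F_supp hγ hαγ) ht hP).symm

theorem q_fourier_eq {m : ℕ} (b : Fin m → ℝ) {α γ P t : ℝ} (hγ : 0 < γ) (hαγ : γ < α)
    (ht : 0 ≤ t) (hP : t + (α + γ) + ∑ j, |b j| ≤ P) :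
    avgc b (LL 2 (α + γ) (α - γ)) t = -(8 / (45 * P)) * (α * γ) ^ 3 * ∑' k : ℕ,
      ((2 * Real.pi * (k + 1) / P) ^ 2 * Real.cos (t * (2 * Real.pi * (k + 1) / P)) *
        KK (α * (2 * Real.pi * (k + 1) / P)) (γ * (2 * Real.pi * (k + 1) / P)) *
        ∏ j, Real.sinc (b j * (2 * Real.pi * (k + 1) / P))) := by
  have hP0 : 0 < P := by
    have : 0 ≤ ∑ j, |b j| := Finset.sum_nonneg fun j _ => abs_nonneg _
    linarith
  rw [← tsum_mul_left, (q_poisson b hγ hαγ hP0 t).tsum_eq]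
  exact (tsum_no_alias b (q_supp hγ hαγ) ht hP).symm

end Pool.Agent.H60.SL
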