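import Pool.Agent.H60.SL.PoiT
import Pool.Agent.H60.SL.Sup

set_option autoImplicit false

open MeasureTheory Set Filter Topology

namespace Pool.Agent.H60.SL

open Pool.Agent.H64.Slab Pool.Agent.H60.Slab Pool.Agent.H60.Big

theorem w_delta {δ : ℝ} (hδ : 0 < δ) (k : ℕ) :
    2 * Real.pi * (k + 1) / (2 * Real.pi / δ) = (k + 1) * δ := by
  have := Real.pi_pos
  field_simp

/-- Poisson summation for the slab, lattice `w_k = (k+1) δ`, period `P = 2 π / δ`. -/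
theorem FV_delta {n : ℕ} (a : Fin n → ℝ) (hsum : ∑ j, a j ^ 2 = 1) {t δ : ℝ} (ht : 0 < t)
    (hδ : 0 < δ) :
    HasSum (fun k : ℕ => 2 * δ / Real.pi * (phi a ((k + 1) * δ) *
      (Real.sin (t * ((k + 1) * δ)) / ((k + 1) * δ))))
      (∑' j : ℤ, avgc a (ind t) (j * (2 * Real.pi / δ)) - δ * t / Real.pi) := by
  have hpi := Real.pi_pos
  have h := FV_poisson a hsum ht (P := 2 * Real.pi / δ) (by positivity)
  have e1 : 2 * t / (2 * Real.pi / δ) = δ * t / Real.pi := by field_simp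
  rw [e1] at h
  refine h.congr_fun ?_
  intro k
  rw [w_delta hδ]
  have hk : (0 : ℝ) < (k + 1) * δ := by positivity
  rw [Real.sinc_of_ne_zero (by positivity)]
  field_simp
  ring

/-- `|T-formula - T| ≤ 2 exp(-3 (P-t)^2/2)`, `P = 2 π/δ`. -/
theorem FV_delta_near {n : ℕ} (a : Fin n → ℝ) (hsum : ∑ j, a j ^ 2 = 1) {t δ : ℝ} (ht : 0 < t)
    (hδ : 0 < δ) (hP : δ * t < Real.pi) :
    |(δ * t / Real.pi + ∑' k : ℕ, 2 * δ / Real.pi * (phi a ((k + 1) * δ) *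
      (Real.sin (t * ((k + 1) * δ)) / ((k + 1) * δ)))) - FV a t 0 / 2 ^ n| ≤
      2 * Real.exp (-(3 * (2 * Real.pi / δ - t) ^ 2) / 2) := by
  have hpi := Real.pi_pos
  have h := FV_fourier_near a hsum ht (P := 2 * Real.pi / δ) (by
    rw [lt_div_iff₀ hδ]; linarith)
  rw [(FV_poisson a hsum ht (P := 2 * Real.pi / δ) (by positivity)).tsum_eq] at h
  rw [(FV_delta a hsum ht hδ).tsum_eq]
  have e1 : 2 * t / (2 * Real.pi / δ) = δ * t / Real.pi := by field_simp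
  rw [e1] at h
  exact h

/-- Poisson summation for `LL 2`, lattice `w_k = (k+1) δ`, period `P = 2 π / δ`. -/
theorem q_delta {m : ℕ} (b : Fin m → ℝ) {α γ δ : ℝ} (hγ : 0 < γ) (hαγ : γ < α) (hδ : 0 < δ)
    (t : ℝ) :
    HasSum (fun k : ℕ => -(4 / (45 * Real.pi)) * (α * γ) ^ 3 * δ *
      (((k + 1) * δ) ^ 2 * Real.cos (t * ((k + 1) * δ)) *
        KK (α * ((k + 1) * δ)) (γ * ((k + 1) * δ)) *
        ∏ j, Real.sinc (b j * ((k + 1) * δ))))
      (∑' j : ℤ, avgc b (LL 2 (α + γ) (α - γ)) (t + j * (2 * Real.pi / δ))) := by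
  have hpi := Real.pi_pos
  have h := q_poisson b hγ hαγ (P := 2 * Real.pi / δ) (by positivity) t
  refine h.congr_fun ?_
  intro k
  rw [w_delta hδ]
  field_simp
  ring

theorem q_delta_near {m : ℕ} (b : Fin m → ℝ) {α γ t δ σ : ℝ} (hγ : 0 < γ) (hαγ : γ < α)
    (hδ : 0 < δ) (hP : δ * (α + γ) < Real.pi) (ht : 0 ≤ t)
    (htP : t + (α + γ) ≤ 2 * Real.pi / δ) (hσ : 0 < σ) (hb : ∑ j, b j ^ 2 ≤ σ) :
    |(∑' k : ℕ, -(4 / (45 * Real.pi)) * (α * γ) ^ 3 * δ *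
      (((k + 1) * δ) ^ 2 * Real.cos (t * ((k + 1) * δ)) *
        KK (α * ((k + 1) * δ)) (γ * ((k + 1) * δ)) *
        ∏ j, Real.sinc (b j * ((k + 1) * δ)))) -
      avgc b (LL 2 (α + γ) (α - γ)) t| ≤
      2 * (2 / 3 * γ ^ 3) * Real.exp (-(3 * (2 * Real.pi / δ - t - (α + γ)) ^ 2) / (2 * σ)) := by
  have hpi := Real.pi_pos
  have hP0 : 0 < 2 * Real.pi / δ := by positivity
  have h := alias_bound b (LL_continuous 2 (α + γ) (α - γ)).measurable (q_sup hγ hαγ) (L := α + γ)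
    (fun x hx => q_supp hγ hαγ x hx.le) (P := 2 * Real.pi / δ)
    (by rw [lt_div_iff₀ hδ]; linarith) hP0 ht htP hσ hb
  rw [(q_delta b hγ hαγ hδ t).tsum_eq]
  exact h

theorem q_delta_eq {m : ℕ} (b : Fin m → ℝ) {α γ t δ : ℝ} (hγ : 0 < γ) (hαγ : γ < α)
    (hδ : 0 < δ) (ht : 0 ≤ t) (hP : t + (α + γ) + ∑ j, |b j| ≤ 2 * Real.pi / δ) :
    avgc b (LL 2 (α + γ) (α - γ)) t = ∑' k : ℕ, -(4 / (45 * Real.pi)) * (α * γ) ^ 3 * δ *
      (((k + 1) * δ) ^ 2 * Real.cos (t * ((k + 1) * δ)) *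
        KK (α * ((k + 1) * δ)) (γ * ((k + 1) * δ)) *
        ∏ j, Real.sinc (b j * ((k + 1) * δ))) := by
  rw [(q_delta b hγ hαγ hδ t).tsum_eq]
  exact (tsum_no_alias b (q_supp hγ hαγ) ht hP).symm

end Pool.Agent.H60.SL
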