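import Pool.Agent.H60.Slab.Cond

namespace Pool.Agent.H60.Big
end Pool.Agent.H60.Big

namespace Pool.Agent.H64.Slab
end Pool.Agent.H64.Slab

set_option autoImplicit false

open MeasureTheory Set Filter Topology

namespace Pool.Agent.H60.SL

open Pool.Agent.H64.Slab Pool.Agent.H60.Slab Pool.Agent.H60.Big

/-- `(s + c)_+² + (c - s)_+²` -/
noncomputable def psiK (c s : ℝ) : ℝ := max (s + c) 0 ^ 2 + max (c - s) 0 ^ 2

theorem psiK_continuous (c : ℝ) : Continuous (psiK c) := by unfold psiK; fun_prop

theorem psiK_even (c s : ℝ) : psiK c (-s) = psiK c s := by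
  unfold psiK
  rw [add_comm, show -s + c = c - s by ring, show c - -s = s + c by ring]

theorem clamp_ge (t z : ℝ) : z - max (z - t) 0 ≤ clamp t z := by
  unfold clamp
  refine le_trans ?_ (le_max_right _ _)
  rcases le_total z t with h | h
  · rw [min_eq_left h, max_eq_right (by linarith)]
    linarith
  · rw [min_eq_right h, max_eq_left (by linarith)]
    linarith

theorem clamp_le (t z : ℝ) : clamp t z ≤ z + max (-z - t) 0 := by
  unfold clamp
  apply max_le
  · rcases le_total (-z - t) 0 with h | h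
    · rw [max_eq_right h]; linarith
    · rw [max_eq_left h]; linarith
  · have h1 := min_le_left z t
    have h2 := le_max_right (-z - t) 0
    linarith

theorem int_pos_part (β e : ℝ) (hβ : 0 < β) :
    ∫ u in (-1 : ℝ)..1, max (u * β + e) 0 = (max (β + e) 0 ^ 2 - max (-β + e) 0 ^ 2) / (2 * β) := by
  have h := intervalIntegral.integral_eq_sub_of_hasDerivAt (a := (-1 : ℝ)) (b := 1)
    (f := fun u => max (u * β + e) 0 ^ 2 / (2 * β)) (f' := fun u => max (u * β + e) 0) ?_ ?_
  · rw [h]
    rw [show (1 : ℝ) * β + e = β + e by ring, show (-1 : ℝ) * β + e = -β + e by ring]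
    ring
  · intro u _
    have h0 : HasDerivAt (fun u : ℝ => u * β + e) β u := by
      have := ((hasDerivAt_id u).mul_const β).add_const e
      simpa using this
    have h1 : HasDerivAt (fun x : ℝ => max x 0 ^ 2) (2 * max (u * β + e) 0) (u * β + e) := by
      have hsq : ∀ x : ℝ, max x 0 ^ 2 = max x 0 * x := by
        intro x
        rcases le_total x 0 with h | h
        · rw [max_eq_right h]; ring
        · rw [max_eq_left h]; ring
      rcases lt_trichotomy (u * β + e) 0 with h | h | h
      · rw [max_eq_right h.le]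
        have : HasDerivAt (fun _ : ℝ => (0 : ℝ)) 0 (u * β + e) := hasDerivAt_const _ _
        have h2 := this.congr_of_eventuallyEq (f₁ := fun x : ℝ => max x 0 ^ 2) (by
          filter_upwards [gt_mem_nhds h] with x hx
          rw [max_eq_right hx.le]
          norm_num)
        simpa using h2
      · rw [h, max_self, mul_zero]
        rw [hasDerivAt_iff_isLittleO_nhds_zero]
        simp only [zero_add, max_self, smul_zero, sub_zero, ne_eq, OfNat.ofNat_ne_zero,
          not_false_eq_true, zero_pow]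
        rw [Asymptotics.isLittleO_iff]
        intro c hc
        filter_upwards [Metric.ball_mem_nhds (0 : ℝ) hc] with x hx
        rw [mem_ball_zero_iff, Real.norm_eq_abs] at hx
        rw [hsq, norm_mul]
        apply mul_le_mul_of_nonneg_right _ (norm_nonneg _)
        rw [Real.norm_eq_abs, abs_of_nonneg (le_max_right _ _)]
        exact max_le ((le_abs_self x).trans hx.le) hc.le
      · rw [max_eq_left h.le]
        have : HasDerivAt (fun x : ℝ => x ^ 2) (2 * (u * β + e)) (u * β + e) := by
          simpa using hasDerivAt_pow 2 (u * β + e)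
        exact this.congr_of_eventuallyEq (by
          filter_upwards [lt_mem_nhds h] with x hx
          rw [max_eq_left hx.le])
    have h2 := (h1.comp u h0).div_const (2 * β)
    refine h2.congr_deriv ?_
    field_simp
  · apply Continuous.intervalIntegrable
    fun_prop

/-- two coordinates integrated out -/
theorem FV_two {m : ℕ} (a : Fin (m + 2) → ℝ) (i : Fin (m + 2)) (j : Fin (m + 1)) {t : ℝ}
    (ht : 0 ≤ t) (hα : 0 < a i) (hβ : 0 < a (i.succAbove j)) :
    1 - FV a t 0 / 2 ^ (m + 2) ≤ (1 / (8 * a i * a (i.succAbove j))) * ((1 / 2 ^ m) *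
      ∫ x, psiK (a i + a (i.succAbove j) - t)
        (dot x (fun k => a (i.succAbove (j.succAbove k)))) ∂(cubeM m)) := by
  obtain ⟨α, hαe⟩ : ∃ α, a i = α := ⟨_, rfl⟩
  obtain ⟨β, hβe⟩ : ∃ β, a (i.succAbove j) = β := ⟨_, rfl⟩
  set b : Fin m → ℝ := fun k => a (i.succAbove (j.succAbove k)) with hbdef
  have hcl := clamp_continuous t
  have h1 := FV_split a i hα ht 0
  rw [hαe] at h1 hα ⊢
  rw [hβe] at hβ ⊢
  -- lower bound of the inner function
  set g : ℝ → ℝ := fun y => 2 * α - max (y + (α - t)) 0 - max (-y + (α - t)) 0 with hg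
  have hgc : Continuous g := by rw [hg]; fun_prop
  have hgle : ∀ y, g y ≤ clamp t (0 + y + α) - clamp t (0 + y - α) := by
    intro y
    have e1 := clamp_ge t (0 + y + α)
    have e2 := clamp_le t (0 + y - α)
    rw [show (0 : ℝ) + y + α - t = y + (α - t) by ring] at e1
    rw [show -((0 : ℝ) + y - α) - t = -y + (α - t) by ring] at e2
    rw [hg]
    simp only
    linarith
  have h2 : ∫ x', g (dot x' (fun k => a (i.succAbove k))) ∂(cubeM (m + 1)) ≤
      ∫ x', (clamp t (0 + dot x' (fun k => a (i.succAbove k)) + α) -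
        clamp t (0 + dot x' (fun k => a (i.succAbove k)) - α)) ∂(cubeM (m + 1)) := by
    have hd := continuous_dot (fun k => a (i.succAbove k))
    apply integral_mono
    · exact integrable_cube_of_continuous (hgc.comp hd)
    · apply integrable_cube_of_continuous
      fun_prop
    · intro x'
      exact hgle _
  have h3 := integral_dot_succ j hgc (fun k => a (i.succAbove k)) 0
  simp only [zero_add] at h3
  rw [hβe] at h3
  have h4 : ∀ y : ℝ, ∫ u in (-1 : ℝ)..1, g (y + u * β) =
      4 * α - ((max (y + β + (α - t)) 0 ^ 2 - max (y - β + (α - t)) 0 ^ 2) / (2 * β)) -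
        ((max (-y + β + (α - t)) 0 ^ 2 - max (-y - β + (α - t)) 0 ^ 2) / (2 * β)) := by
    intro y
    have e1 : ∀ u : ℝ, g (y + u * β) = 2 * α - max (u * β + (y + (α - t))) 0 -
        max (u * (-β) + (-y + (α - t))) 0 := by
      intro u
      rw [hg]
      simp only
      rw [show y + u * β + (α - t) = u * β + (y + (α - t)) by ring,
        show -(y + u * β) + (α - t) = u * (-β) + (-y + (α - t)) by ring]
    simp only [e1]
    have c1 : IntervalIntegrable (fun u : ℝ => max (u * β + (y + (α - t))) 0) volume (-1) 1 := by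
      apply Continuous.intervalIntegrable; fun_prop
    have c2 : IntervalIntegrable (fun u : ℝ => max (u * (-β) + (-y + (α - t))) 0) volume (-1) 1 := by
      apply Continuous.intervalIntegrable; fun_prop
    rw [intervalIntegral.integral_sub ((intervalIntegrable_const).sub c1) c2,
      intervalIntegral.integral_sub intervalIntegrable_const c1, int_pos_part β _ hβ]
    have e2 : ∫ u in (-1 : ℝ)..1, max (u * (-β) + (-y + (α - t))) 0 =
        ∫ u in (-1 : ℝ)..1, max (u * β + (-y + (α - t))) 0 := by
      have h := intervalIntegral.integral_comp_neg (a := (-1 : ℝ)) (b := 1)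
        (fun u : ℝ => max (u * β + (-y + (α - t))) 0)
      rw [neg_neg] at h
      rw [← h]
      congr 1
      ext u
      congr 2
      ring
    rw [e2, int_pos_part β _ hβ]
    rw [intervalIntegral.integral_const, smul_eq_mul]
    have r1 : β + (y + (α - t)) = y + β + (α - t) := by ring
    have r2 : -β + (y + (α - t)) = y - β + (α - t) := by ring
    have r3 : β + (-y + (α - t)) = -y + β + (α - t) := by ring
    have r4 : -β + (-y + (α - t)) = -y - β + (α - t) := by ring
    rw [r1, r2, r3, r4]
    ring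
  simp only [h4] at h3
  have h5 : ∀ y : ℝ, 4 * α - psiK (α + β - t) y / (2 * β) ≤
      4 * α - ((max (y + β + (α - t)) 0 ^ 2 - max (y - β + (α - t)) 0 ^ 2) / (2 * β)) -
        ((max (-y + β + (α - t)) 0 ^ 2 - max (-y - β + (α - t)) 0 ^ 2) / (2 * β)) := by
    intro y
    unfold psiK
    have r1 : y + (α + β - t) = y + β + (α - t) := by ring
    have r3 : α + β - t - y = -y + β + (α - t) := by ring
    rw [r1, r3]
    have e1 : 0 ≤ max (y - β + (α - t)) 0 ^ 2 / (2 * β) := by positivity
    have e2 : 0 ≤ max (-y - β + (α - t)) 0 ^ 2 / (2 * β) := by positivity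
    rw [sub_div, sub_div, add_div]
    linarith
  have hpc := psiK_continuous (α + β - t)
  have hdb := continuous_dot b
  have hm : (cubeM m).real univ = 2 ^ m := by
    simp only [cubeM, Measure.real, Measure.pi_univ, Measure.restrict_apply_univ,
      Real.volume_Icc, Finset.prod_const, Finset.card_univ, Fintype.card_fin,
      ENNReal.toReal_pow]
    norm_num
  have h6 : 4 * α * 2 ^ m - (∫ x, psiK (α + β - t) (dot x b) ∂(cubeM m)) / (2 * β) ≤
      ∫ x', g (dot x' (fun k => a (i.succAbove k))) ∂(cubeM (m + 1)) := by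
    rw [h3]
    have e1 : 4 * α * 2 ^ m - (∫ x, psiK (α + β - t) (dot x b) ∂(cubeM m)) / (2 * β) =
        ∫ x, (4 * α - psiK (α + β - t) (dot x b) / (2 * β)) ∂(cubeM m) := by
      rw [integral_sub (integrable_const _) (by
        apply integrable_cube_of_continuous; fun_prop), integral_const, hm, integral_div]
      simp only [smul_eq_mul]
      ring
    rw [e1]
    apply integral_mono
    · apply integrable_cube_of_continuous; fun_prop
    · apply integrable_cube_of_continuous
      fun_prop
    · intro x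
      exact h5 _
  have h7 : α⁻¹ * (4 * α * 2 ^ m - (∫ x, psiK (α + β - t) (dot x b) ∂(cubeM m)) / (2 * β)) ≤
      FV a t 0 := by
    rw [h1]
    exact mul_le_mul_of_nonneg_left (h6.trans h2) (by positivity)
  have h8 : α⁻¹ * (4 * α * 2 ^ m - (∫ x, psiK (α + β - t) (dot x b) ∂(cubeM m)) / (2 * β)) =
      2 ^ (m + 2) * (1 - (1 / (8 * α * β)) * ((1 / 2 ^ m) *
        ∫ x, psiK (α + β - t) (dot x b) ∂(cubeM m))) := by
    rw [pow_add]
    field_simp
    ring
  rw [h8] at h7
  have h9 : 1 - (1 / (8 * α * β)) * ((1 / 2 ^ m) *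
        ∫ x, psiK (α + β - t) (dot x b) ∂(cubeM m)) ≤ FV a t 0 / 2 ^ (m + 2) := by
    rw [le_div_iff₀ (by positivity)]
    linarith
  linarith

theorem quad_prim (c y : ℝ) : ∫ s in (0 : ℝ)..y, (2 * c ^ 2 + 2 * s ^ 2) =
    2 * c ^ 2 * y + 2 / 3 * y ^ 3 := by
  have h := intervalIntegral.integral_eq_sub_of_hasDerivAt (a := (0 : ℝ)) (b := y)
    (f := fun s => 2 * c ^ 2 * s + 2 / 3 * s ^ 3) (f' := fun s => 2 * c ^ 2 + 2 * s ^ 2) ?_ ?_
  · rw [h]
    ring
  · intro s _
    have := ((hasDerivAt_id s).const_mul (2 * c ^ 2)).add ((hasDerivAt_pow 3 s).const_mul (2 / 3))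
    refine this.congr_deriv ?_
    norm_num
    ring
  · apply Continuous.intervalIntegrable
    fun_prop

theorem psiK_le2 {m : ℕ} (b : Fin m → ℝ) (c : ℝ) :
    (1 / 2 ^ m) * ∫ x, psiK c (dot x b) ∂(cubeM m) ≤ 2 * c ^ 2 + 2 * (∑ j, b j ^ 2) / 3 := by
  have h := psi_le b (ψ := psiK c) (psiK_continuous c) (psiK_even c) (A := 2 * c ^ 2) (B := 2 / 3)
    (by
      unfold psiK
      have h1 : max (0 + c) 0 ^ 2 ≤ c ^ 2 := by
        rw [zero_add]
        rcases le_total c 0 with h | h
        · rw [max_eq_right h]; nlinarith [sq_nonneg c]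
        · rw [max_eq_left h]
      have h2 : max (c - 0) 0 ^ 2 ≤ c ^ 2 := by
        rw [sub_zero]
        rcases le_total c 0 with h | h
        · rw [max_eq_right h]; nlinarith [sq_nonneg c]
        · rw [max_eq_left h]
      linarith)
    (by
      intro x hx
      have h1 : ∫ s in (0 : ℝ)..x, psiK c s ≤ ∫ s in (0 : ℝ)..x, (2 * c ^ 2 + 2 * s ^ 2) := by
        apply intervalIntegral.integral_mono_on hx
        · exact (psiK_continuous c).intervalIntegrable _ _
        · apply Continuous.intervalIntegrable; fun_prop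
        · intro s _
          unfold psiK
          have h1 : max (s + c) 0 ^ 2 ≤ (s + c) ^ 2 := by
            rcases le_total (s + c) 0 with h | h
            · rw [max_eq_right h]; nlinarith [sq_nonneg (s + c)]
            · rw [max_eq_left h]
          have h2 : max (c - s) 0 ^ 2 ≤ (c - s) ^ 2 := by
            rcases le_total (c - s) 0 with h | h
            · rw [max_eq_right h]; nlinarith [sq_nonneg (c - s)]
            · rw [max_eq_left h]
          nlinarith
      exact h1.trans (le_of_eq (quad_prim c x)))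
  rw [div_mul_eq_mul_div, one_mul, div_le_iff₀ (by positivity)]
  linarith

theorem psiK_prim {c x : ℝ} (hc : 0 ≤ c) (hx : 0 ≤ x) :
    ∫ s in (0 : ℝ)..x, psiK c s = if x ≤ c then 2 * c ^ 2 * x + 2 / 3 * x ^ 3 else (x + c) ^ 3 / 3 := by
  have key1 : ∀ y, 0 ≤ y → y ≤ c → ∫ s in (0 : ℝ)..y, psiK c s = 2 * c ^ 2 * y + 2 / 3 * y ^ 3 := by
    intro y hy hyc
    have e : ∫ s in (0 : ℝ)..y, psiK c s = ∫ s in (0 : ℝ)..y, (2 * c ^ 2 + 2 * s ^ 2) := by
      apply intervalIntegral.integral_congr
      intro s hs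
      rw [uIcc_of_le hy] at hs
      simp only
      unfold psiK
      rw [max_eq_left (by linarith [hs.1]), max_eq_left (by linarith [hs.2])]
      ring
    rw [e, quad_prim]
  split_ifs with h
  · exact key1 x hx h
  · push Not at h
    rw [← intervalIntegral.integral_add_adjacent_intervals
      ((psiK_continuous c).intervalIntegrable 0 c) ((psiK_continuous c).intervalIntegrable c x),
      key1 c hc le_rfl]
    have e : ∫ s in c..x, psiK c s = ∫ s in c..x, (s + c) ^ 2 := by
      apply intervalIntegral.integral_congr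
      intro s hs
      rw [uIcc_of_le h.le] at hs
      simp only
      unfold psiK
      rw [max_eq_left (by linarith [hs.1]), max_eq_right (by linarith [hs.1])]
      ring
    have e2 : ∫ s in c..x, (s + c) ^ 2 = (x + c) ^ 3 / 3 - (c + c) ^ 3 / 3 := by
      rw [intervalIntegral.integral_comp_add_right (fun s => s ^ 2) c, integral_pow]
      norm_num
      ring
    rw [e, e2]
    ring

theorem psiK_le1 {m : ℕ} (b : Fin m → ℝ) {c r : ℝ} (hc : 0 ≤ c) (hr : 0 < r) (hcr : c ≤ r)
    (hb : ∑ j, b j ^ 2 = r ^ 2) :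
    (1 / 2 ^ m) * ∫ x, psiK c (dot x b) ∂(cubeM m) ≤ (r + c) ^ 3 / (3 * r) := by
  have h := psi_le b (ψ := psiK c) (psiK_continuous c) (psiK_even c) (A := c * (r + c) ^ 2 / (2 * r))
    (B := (r + c) ^ 2 * (2 * r - c) / (6 * r ^ 3))
    (by
      unfold psiK
      rw [zero_add, sub_zero, max_eq_left hc, le_div_iff₀ (by positivity)]
      nlinarith [mul_nonneg hc (sq_nonneg (r - c))])
    (by
      intro x hx
      rw [psiK_prim hc hx]
      split_ifs with h
      · have e : c * (r + c) ^ 2 / (2 * r) * x + (r + c) ^ 2 * (2 * r - c) / (6 * r ^ 3) * x ^ 3 -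
            (2 * c ^ 2 * x + 2 / 3 * x ^ 3) =
            x * (r - c) ^ 2 * (3 * r ^ 2 * c - (2 * r + c) * x ^ 2) / (6 * r ^ 3) := by
          field_simp
          ring
        have h2 : x ^ 2 ≤ c ^ 2 := pow_le_pow_left₀ hx h 2
        have h3 : 0 ≤ 3 * r ^ 2 * c - (2 * r + c) * x ^ 2 := by
          have h4 : (2 * r + c) * x ^ 2 ≤ (2 * r + c) * c ^ 2 :=
            mul_le_mul_of_nonneg_left h2 (by linarith)
          have h5 : 0 ≤ c * ((r - c) * (3 * r + c)) :=
            mul_nonneg hc (mul_nonneg (by linarith) (by linarith))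
          nlinarith
        have h6 : 0 ≤ x * (r - c) ^ 2 * (3 * r ^ 2 * c - (2 * r + c) * x ^ 2) / (6 * r ^ 3) := by
          positivity
        linarith
      · push Not at h
        have e : c * (r + c) ^ 2 / (2 * r) * x + (r + c) ^ 2 * (2 * r - c) / (6 * r ^ 3) * x ^ 3 -
            (x + c) ^ 3 / 3 =
            (x - r) ^ 2 * (c * (3 * r ^ 2 - c ^ 2) * x - 2 * r * c ^ 3) / (6 * r ^ 3) := by
          field_simp
          ring
        have h3 : 0 ≤ c * (3 * r ^ 2 - c ^ 2) * x - 2 * r * c ^ 3 := by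
          have h7 : 0 ≤ 3 * r ^ 2 - c ^ 2 := by nlinarith
          have h4 : c * (3 * r ^ 2 - c ^ 2) * c ≤ c * (3 * r ^ 2 - c ^ 2) * x :=
            mul_le_mul_of_nonneg_left h.le (mul_nonneg hc h7)
          have h5 : 0 ≤ c ^ 2 * ((r - c) * (3 * r + c)) :=
            mul_nonneg (sq_nonneg c) (mul_nonneg (by linarith) (by linarith))
          nlinarith
        have h6 : 0 ≤ (x - r) ^ 2 * (c * (3 * r ^ 2 - c ^ 2) * x - 2 * r * c ^ 3) / (6 * r ^ 3) := by
          positivity
        linarith)
  rw [div_mul_eq_mul_div, one_mul, div_le_iff₀ (by positivity)]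
  refine h.trans (le_of_eq ?_)
  rw [hb]
  field_simp
  ring

/-- first bound for `T` -/
theorem T_le_K2 {m : ℕ} (a : Fin (m + 2) → ℝ) (i : Fin (m + 2)) (j : Fin (m + 1)) {t : ℝ}
    (ht : 0 ≤ t) (hα : 0 < a i) (hβ : 0 < a (i.succAbove j)) :
    1 - FV a t 0 / 2 ^ (m + 2) ≤
      ((∑ k, a (i.succAbove (j.succAbove k)) ^ 2) + 3 * (a i + a (i.succAbove j) - t) ^ 2) /
        (12 * a i * a (i.succAbove j)) := by
  refine (FV_two a i j ht hα hβ).trans ?_
  have h := psiK_le2 (fun k => a (i.succAbove (j.succAbove k))) (a i + a (i.succAbove j) - t)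
  refine (mul_le_mul_of_nonneg_left h (by positivity)).trans (le_of_eq ?_)
  field_simp
  ring

/-- second bound for `T` -/
theorem T_le_K1 {m : ℕ} (a : Fin (m + 2) → ℝ) (i : Fin (m + 2)) (j : Fin (m + 1)) {t r : ℝ}
    (ht : 0 ≤ t) (hα : 0 < a i) (hβ : 0 < a (i.succAbove j)) (hr : 0 < r)
    (hsum : ∑ k, a (i.succAbove (j.succAbove k)) ^ 2 = r ^ 2)
    (hc : t ≤ a i + a (i.succAbove j)) (hcr : a i + a (i.succAbove j) - t ≤ r) :
    1 - FV a t 0 / 2 ^ (m + 2) ≤ (r + (a i + a (i.succAbove j) - t)) ^ 3 /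
      (24 * a i * a (i.succAbove j) * r) := by
  refine (FV_two a i j ht hα hβ).trans ?_
  have h := psiK_le1 (fun k => a (i.succAbove (j.succAbove k))) (by linarith) hr hcr hsum
  refine (mul_le_mul_of_nonneg_left h (by positivity)).trans (le_of_eq ?_)
  field_simp
  ring

end Pool.Agent.H60.SL
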