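import Pool.Agent.H60.SL.KLem6
import Pool.Agent.H60.SL.UReg
import Pool.Agent.H60.Slab.Values

set_option autoImplicit false

open MeasureTheory Set Filter Topology

namespace Pool.Agent.H60.SL

open Pool.Agent.H64.Slab Pool.Agent.H60.Slab Pool.Agent.H60.Big

theorem clamp_formula {t z : ℝ} (ht : 0 ≤ t) (hz : -t ≤ z) : clamp t z = z - max (z - t) 0 := by
  unfold clamp
  rcases le_total z t with h | h
  · rw [min_eq_left h, max_eq_right hz, max_eq_right (by linarith), sub_zero]
  · rw [min_eq_right h, max_eq_right (by linarith), max_eq_left (by linarith)]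
    ring

theorem sqpos_hasDerivAt (x : ℝ) : HasDerivAt (fun x : ℝ => max x 0 ^ 2) (2 * max x 0) x := by
  have hsq : ∀ x : ℝ, max x 0 ^ 2 = max x 0 * x := by
    intro x
    rcases le_total x 0 with h | h
    · rw [max_eq_right h]; ring
    · rw [max_eq_left h]; ring
  rcases lt_trichotomy x 0 with h | h | h
  · rw [max_eq_right h.le]
    have : HasDerivAt (fun _ : ℝ => (0 : ℝ)) 0 x := hasDerivAt_const _ _
    have h2 := this.congr_of_eventuallyEq (f₁ := fun x : ℝ => max x 0 ^ 2) (by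
      filter_upwards [gt_mem_nhds h] with x hx
      rw [max_eq_right hx.le]
      norm_num)
    simpa using h2
  · rw [h, max_self, mul_zero]
    rw [hasDerivAt_iff_isLittleO_nhds_zero]
    simp only [zero_add, max_self, smul_zero, sub_zero, ne_eq, OfNat.ofNat_ne_zero,
      not_false_eq_true, zero_pow]
    rw [Asymptotics.isLittleO_iff]
    intro c hc
    filter_upwards [Metric.ball_mem_nhds (0 : ℝ) hc] with x hx
    rw [mem_ball_zero_iff, Real.norm_eq_abs] at hx
    rw [hsq, norm_mul]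
    apply mul_le_mul_of_nonneg_right _ (norm_nonneg _)
    rw [Real.norm_eq_abs, abs_of_nonneg (le_max_right _ _)]
    exact max_le ((le_abs_self x).trans hx.le) hc.le
  · rw [max_eq_left h.le]
    have : HasDerivAt (fun x : ℝ => x ^ 2) (2 * x) x := by
      simpa using hasDerivAt_pow 2 x
    exact this.congr_of_eventuallyEq (by
      filter_upwards [lt_mem_nhds h] with x hx
      rw [max_eq_left hx.le])

theorem pos_part_prim (e x y : ℝ) :
    ∫ s in x..y, max (s - e) 0 = max (y - e) 0 ^ 2 / 2 - max (x - e) 0 ^ 2 / 2 := by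
  have hd : ∀ s : ℝ, HasDerivAt (fun s => max (s - e) 0 ^ 2 / 2) (max (s - e) 0) s := by
    intro s
    have h0 : HasDerivAt (fun u : ℝ => u - e) 1 s := (hasDerivAt_id s).sub_const e
    have h2 := ((sqpos_hasDerivAt (s - e)).comp s h0).div_const 2
    refine h2.congr_deriv ?_
    ring
  rw [intervalIntegral.integral_eq_sub_of_hasDerivAt (fun s _ => hd s)
    ((by fun_prop : Continuous fun s : ℝ => max (s - e) 0).intervalIntegrable _ _)]

theorem clamp_int {t x y : ℝ} (ht : 0 ≤ t) (hx : -t ≤ x) (hxy : x ≤ y) :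
    ∫ s in x..y, clamp t s = y ^ 2 / 2 - x ^ 2 / 2 - (max (y - t) 0 ^ 2 / 2 - max (x - t) 0 ^ 2 / 2) := by
  have e : ∫ s in x..y, clamp t s = ∫ s in x..y, (s - max (s - t) 0) := by
    apply intervalIntegral.integral_congr
    intro s hs
    rw [uIcc_of_le hxy] at hs
    exact clamp_formula ht (hx.trans hs.1)
  rw [e, intervalIntegral.integral_sub (continuous_id'.intervalIntegrable _ _)
    ((by fun_prop : Continuous fun s : ℝ => max (s - t) 0).intervalIntegrable _ _),
    pos_part_prim]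
  have : ∫ s in x..y, s = y ^ 2 / 2 - x ^ 2 / 2 := by rw [integral_id]; ring
  rw [this]

theorem FV_f3 (n : ℕ) {t : ℝ} (ht : 17 / 20 ≤ t) (ht3 : t ≤ Real.sqrt 3) :
    FV (stdVec (n + 3) 3) t 0 = 2 ^ (n + 3) * (1 - T3 t) := by
  have hs := s3_sq
  have hs0 : 0 < Real.sqrt 3 := Real.sqrt_pos.2 (by norm_num)
  have hsl := s3_lb
  have hsu := s3_ub
  have ht0 : 0 ≤ t := by linarith
  obtain ⟨b, hb⟩ : ∃ b, 1 / Real.sqrt 3 = b := ⟨_, rfl⟩
  have hb0 : 0 < b := by rw [← hb]; positivity
  have hb3 : Real.sqrt 3 = 3 * b := by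
    rw [← hb]; field_simp; linarith
  have h0 : stdVec (n + 3) 3 0 = b := by rw [← hb]; simp [stdVec]
  have h1 : stdVec (n + 3) 3 ((0 : Fin (n + 3)).succAbove 0) = b := by
    rw [← hb]; simp [stdVec]
  have h2 : stdVec (n + 3) 3 ((0 : Fin (n + 3)).succAbove ((0 : Fin (n + 2)).succAbove 0)) = b := by
    rw [← hb]
    have : (((0 : Fin (n + 3)).succAbove ((0 : Fin (n + 2)).succAbove 0) : Fin (n + 3)) : ℕ) = 2 := by
      simp [Fin.zero_succAbove]
    simp only [stdVec]
    rw [if_pos (by omega)]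
    norm_num
  have h3 : ∀ j : Fin n, stdVec (n + 3) 3
      ((0 : Fin (n + 3)).succAbove ((0 : Fin (n + 2)).succAbove ((0 : Fin (n + 1)).succAbove j))) = 0 := by
    intro j
    have : (((0 : Fin (n + 3)).succAbove ((0 : Fin (n + 2)).succAbove ((0 : Fin (n + 1)).succAbove j)) :
      Fin (n + 3)) : ℕ) = j + 3 := by
      simp [Fin.zero_succAbove]
    simp only [stdVec]
    rw [if_neg (by omega)]
  rw [FV_zero_eq _ 0 (by rw [h0]; exact hb0) ht0, integral_dot_succ 0 (clamp_continuous t), h0, h1]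
  have hc1 : Continuous (fun z => ∫ u in (-1 : ℝ)..1, clamp t (z + u * b)) :=
    avg_continuous (clamp_continuous t) b
  rw [integral_dot_succ (g := fun z => ∫ u in (-1 : ℝ)..1, clamp t (z + u * b)) 0 hc1, h2]
  have h4 : ∀ x : Fin n → ℝ, dot x (fun j => stdVec (n + 3) 3
      ((0 : Fin (n + 3)).succAbove ((0 : Fin (n + 2)).succAbove ((0 : Fin (n + 1)).succAbove j)))) = 0 := by
    intro x; unfold dot; apply Finset.sum_eq_zero; intro j _; show x j * stdVec (n + 3) 3 _ = 0; rw [h3 j, mul_zero]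
  simp only [h4]
  rw [integral_const, cubeM_univ]
  rw [avg_eq_interval (fun z => ∫ u in (-1 : ℝ)..1, clamp t (z + u * b)) hb0.ne']
  have hb57 : b ≤ 0.57736 := by rw [hb3] at hsu; linarith
  have hb56 : 0.57735 ≤ b := by rw [hb3] at hsl; linarith
  have e1 : ∫ s in (b + 0 - b)..(b + 0 + b), ∫ u in (-1 : ℝ)..1, clamp t (s + u * b) =
      ∫ s in (0 : ℝ)..(2 * b), b⁻¹ * (2 * b * s - max (s - (t - b)) 0 ^ 2 / 2) := by
    rw [show b + 0 - b = 0 by ring, show b + 0 + b = 2 * b by ring]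
    apply intervalIntegral.integral_congr
    intro s hs
    rw [uIcc_of_le (by linarith)] at hs
    simp only
    rw [avg_eq_interval (clamp t) hb0.ne', clamp_int ht0 (by linarith [hs.1]) (by linarith),
      max_eq_right (by linarith [hs.2] : s - b - t ≤ 0), show s + b - t = s - (t - b) by ring]
    ring
  rw [e1, intervalIntegral.integral_const_mul]
  have e2 : ∫ s in (0 : ℝ)..(2 * b), (2 * b * s - max (s - (t - b)) 0 ^ 2 / 2) =
      4 * b ^ 3 - (3 * b - t) ^ 3 / 6 := by
    have hI : ∫ s in (0 : ℝ)..(2 * b), max (s - (t - b)) 0 ^ 2 = (3 * b - t) ^ 3 / 3 := by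
      have i1 : ∫ s in (0 : ℝ)..(t - b), max (s - (t - b)) 0 ^ 2 = 0 := by
        have : ∫ s in (0 : ℝ)..(t - b), max (s - (t - b)) 0 ^ 2 = ∫ s in (0 : ℝ)..(t - b), (0 : ℝ) := by
          apply intervalIntegral.integral_congr
          intro s hs
          rw [uIcc_of_le (by linarith)] at hs
          simp only
          rw [max_eq_right (by linarith [hs.2])]
          norm_num
        rw [this]; simp
      have i2 : ∫ s in (t - b)..(2 * b), max (s - (t - b)) 0 ^ 2 = (3 * b - t) ^ 3 / 3 := by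
        have : ∫ s in (t - b)..(2 * b), max (s - (t - b)) 0 ^ 2 =
            ∫ s in (t - b)..(2 * b), (s - (t - b)) ^ 2 := by
          apply intervalIntegral.integral_congr
          intro s hs
          rw [uIcc_of_le (by linarith)] at hs
          simp only
          rw [max_eq_left (by linarith [hs.1])]
        rw [this, intervalIntegral.integral_comp_sub_right (fun s => s ^ 2) (t - b), integral_pow]
        norm_num
        ring
      have hc : Continuous fun s : ℝ => max (s - (t - b)) 0 ^ 2 := by fun_prop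
      rw [← intervalIntegral.integral_add_adjacent_intervals (hc.intervalIntegrable 0 (t - b))
        (hc.intervalIntegrable (t - b) (2 * b)), i1, i2, zero_add]
    rw [intervalIntegral.integral_sub
      ((by fun_prop : Continuous fun s : ℝ => 2 * b * s).intervalIntegrable _ _)
      ((by fun_prop : Continuous fun s : ℝ => max (s - (t - b)) 0 ^ 2 / 2).intervalIntegrable _ _),
      intervalIntegral.integral_const_mul, integral_id, intervalIntegral.integral_div, hI]
    ring
  rw [e2, smul_eq_mul, T3, hb3]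
  have hbb : b ^ 2 = 1 / 3 := by
    rw [hb3] at hs; linarith
  have hinv : b⁻¹ = 3 * b := by
    rw [inv_eq_one_div, div_eq_iff hb0.ne']
    linarith
  have h3b : b ^ 3 = b / 3 := by rw [pow_succ, hbb]; ring
  rw [hinv]
  generalize hX : (3 * b - t) ^ 3 = X
  have hfin : 2 * (3 * b) * (2 ^ n * (3 * b * (3 * b * (4 * b ^ 3 - X / 6)))) =
      2 ^ n * (54 * b ^ 3 * (4 * b ^ 3 - X / 6)) := by ring
  rw [hfin, h3b]
  have : 54 * (b / 3) * (4 * (b / 3) - X / 6) = 8 * (1 - 3 * b * X / 8) := by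
    have : 54 * (b / 3) * (4 * (b / 3) - X / 6) = 24 * b ^ 2 - 3 * b * X := by ring
    rw [this, hbb]
    ring
  rw [this]
  ring

/-- The K-region of the core statement: `t ≤ a_i + a_k` for the maximal `a_i` and some `a_k ≥ 3/10`. -/
theorem K_region {m : ℕ} {t : ℝ} (ht : 17 / 20 ≤ t) (a : Fin (m + 2) → ℝ) (i : Fin (m + 2))
    (j : Fin (m + 1)) (hpos : ∀ k, 0 < a k) (hsum : ∑ k, a k ^ 2 = 1)
    (hmax : a (i.succAbove j) ≤ a i) (hβ : 3 / 10 ≤ a (i.succAbove j))
    (htp : t ≤ a i + a (i.succAbove j)) :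
    ∃ q, 1 ≤ q ∧ q ≤ m + 2 ∧ FV (stdVec (m + 2) q) t 0 ≤ FV a t 0 := by
  have hα0 := hpos i
  have hβ0 := hpos (i.succAbove j)
  have hsum2 : a i ^ 2 + a (i.succAbove j) ^ 2 +
      ∑ k, a (i.succAbove (j.succAbove k)) ^ 2 = 1 := by
    rw [← hsum, Fin.sum_univ_succAbove _ i, Fin.sum_univ_succAbove _ j]
    ring
  have hK2 := T_le_K2 a i j (t := t) (by linarith) hα0 hβ0
  have hpow : (0 : ℝ) < 2 ^ (m + 2) := by positivity
  have ht2 : t ≤ Real.sqrt 2 := by
    apply Real.le_sqrt_of_sq_le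
    have : 0 ≤ ∑ k, a (i.succAbove (j.succAbove k)) ^ 2 := Finset.sum_nonneg fun _ _ => sq_nonneg _
    nlinarith [sq_nonneg (a i - a (i.succAbove j))]
  have hv2 : FV (stdVec (m + 2) 2) t 0 = 2 ^ (m + 2) * (1 - T2 t) := by
    rw [FV_f2 m (by linarith) ht2]
    congr 1
    rw [vv, T2]
    have := s2_sq
    nlinarith
  obtain ⟨α, hα⟩ : ∃ α, a i = α := ⟨_, rfl⟩
  obtain ⟨β, hβe⟩ : ∃ β, a (i.succAbove j) = β := ⟨_, rfl⟩
  rw [hα] at hα0
  rw [hβe] at hβ0 hβ
  rw [hα, hβe] at hsum2 hK2 hmax htp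
  have hαβ : 0 < α * β := mul_pos hα0 hβ0
  rcases Nat.eq_zero_or_pos m with hm | hm
  · -- two coordinates
    subst hm
    refine ⟨2, by norm_num, by norm_num, ?_⟩
    rw [hv2]
    simp only [Finset.univ_eq_empty, Finset.sum_empty, add_zero, zero_add] at hK2 hsum2
    have h2 := K_two hβ hmax hsum2 ht htp
    have e : (α + β) ^ 2 - 1 = 2 * (α * β) := by nlinarith
    rw [e] at h2
    have h3 : 3 * (α + β - t) ^ 2 / (12 * α * β) ≤ T2 t := by
      rw [div_le_iff₀ (by positivity)]
      nlinarith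
    have h4 : 1 - FV a t 0 / 2 ^ (0 + 2) ≤ T2 t := hK2.trans h3
    have h5 : 1 - T2 t ≤ FV a t 0 / 2 ^ (0 + 2) := by linarith
    rw [le_div_iff₀ hpow] at h5
    linarith
  · -- at least three coordinates
    obtain ⟨m', rfl⟩ : ∃ m', m = m' + 1 := ⟨m - 1, by omega⟩
    set r := Real.sqrt (∑ k, a (i.succAbove (j.succAbove k)) ^ 2) with hr
    have hr0 : 0 < ∑ k, a (i.succAbove (j.succAbove k)) ^ 2 :=
      Finset.sum_pos (fun k _ => pow_pos (hpos _) 2) Finset.univ_nonempty
    have hrr : r ^ 2 = ∑ k, a (i.succAbove (j.succAbove k)) ^ 2 := Real.sq_sqrt hr0.le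
    have hr1 : 0 < r := Real.sqrt_pos.2 hr0
    rw [← hrr] at hsum2
    have hK := K_main hβ hmax hr1.le hsum2 ht htp
    have e : (α + β) ^ 2 - 1 + r ^ 2 = 2 * (α * β) := by nlinarith
    have hT : 1 - FV a t 0 / 2 ^ (m' + 1 + 2) ≤ max (T2 t) (T3 t) := by
      rcases le_total (α + β - t) r with hc | hc
      · have h1 := T_le_K1 a i j (t := t) (r := r) (by linarith) (by rw [hα]; exact hα0)
          (by rw [hβe]; exact hβ0) hr1 hrr.symm
          (by rw [hα, hβe]; exact htp) (by rw [hα, hβe]; exact hc)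
        rw [hα, hβe] at h1
        refine h1.trans ?_
        rw [div_le_iff₀ (by positivity)]
        have := hK.1 hc
        rw [e] at this
        linarith
      · refine hK2.trans ?_
        rw [div_le_iff₀ (by positivity), ← hrr]
        have := hK.2 hc
        rw [e] at this
        linarith
    have ht3 : t ≤ Real.sqrt 3 := ht2.trans (Real.sqrt_le_sqrt (by norm_num))
    have hv3 := FV_f3 m' ht ht3
    rcases le_total (T2 t) (T3 t) with h23 | h23
    · rw [max_eq_right h23] at hT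
      refine ⟨3, by norm_num, by omega, ?_⟩
      have h5 : 1 - T3 t ≤ FV a t 0 / 2 ^ (m' + 1 + 2) := by linarith
      rw [le_div_iff₀ hpow] at h5
      calc FV (stdVec (m' + 1 + 2) 3) t 0 = 2 ^ (m' + 3) * (1 - T3 t) := hv3
        _ = (1 - T3 t) * 2 ^ (m' + 1 + 2) := by ring
        _ ≤ _ := h5
    · rw [max_eq_left h23] at hT
      refine ⟨2, by norm_num, by omega, ?_⟩
      rw [hv2]
      have h5 : 1 - T2 t ≤ FV a t 0 / 2 ^ (m' + 1 + 2) := by linarith
      rw [le_div_iff₀ hpow] at h5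
      linarith

end Pool.Agent.H60.SL
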