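import Pool.Agent.H60.SL.Tr

set_option autoImplicit false

open MeasureTheory Set Filter Topology

namespace Pool.Agent.H60.SL

open Pool.Agent.H64.Slab Pool.Agent.H60.Slab Pool.Agent.H60.Big

/-- `sin z - z cos z` -/
noncomputable def JJ (z : ℝ) : ℝ := Real.sin z - z * Real.cos z

/-- `3 (sin z - z cos z) / z³`, with value 1 at 0 -/
noncomputable def psi1 (z : ℝ) : ℝ := if z = 0 then 1 else 3 * JJ z / z ^ 3

theorem JJ_continuous : Continuous JJ := by unfold JJ; fun_prop

theorem JJ_hasDerivAt (z : ℝ) : HasDerivAt JJ (z * Real.sin z) z := by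
  have h := (Real.hasDerivAt_sin z).sub ((hasDerivAt_id z).mul (Real.hasDerivAt_cos z))
  refine h.congr_deriv ?_
  simp

theorem psi1_int (z : ℝ) : psi1 z = 3 / 2 * ∫ s in (0 : ℝ)..1, (1 - s ^ 2) * Real.cos (z * s) := by
  unfold psi1
  split_ifs with h
  · subst h
    have e : (fun s : ℝ => (1 - s ^ 2) * Real.cos (0 * s)) = fun s => 1 - s ^ 2 := by
      ext s; simp
    rw [e, intervalIntegral.integral_sub (by simp) (by
      apply Continuous.intervalIntegrable; fun_prop)]
    simp
    norm_num
  · have h1 : ∫ s in (0 : ℝ)..1, (1 - s ^ 2) * Real.cos (z * s) =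
        ((1 - 1 ^ 2) * Real.sin (z * 1) / z + (2 * Real.sin (z * 1) / z ^ 3 -
          2 * 1 * Real.cos (z * 1) / z ^ 2)) -
        ((1 - 0 ^ 2) * Real.sin (z * 0) / z + (2 * Real.sin (z * 0) / z ^ 3 -
          2 * 0 * Real.cos (z * 0) / z ^ 2)) := by
      apply intervalIntegral.integral_eq_sub_of_hasDerivAt
        (f := fun s => (1 - s ^ 2) * Real.sin (z * s) / z + (2 * Real.sin (z * s) / z ^ 3 -
          2 * s * Real.cos (z * s) / z ^ 2))
      · intro y _
        have h0 : HasDerivAt (fun y : ℝ => z * y) z y := by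
          simpa using (hasDerivAt_id y).const_mul z
        have hc : HasDerivAt (fun y : ℝ => Real.cos (z * y)) (-Real.sin (z * y) * z) y := h0.cos
        have hs : HasDerivAt (fun y : ℝ => Real.sin (z * y)) (Real.cos (z * y) * z) y := h0.sin
        have hP : HasDerivAt (fun y : ℝ => 1 - y ^ 2) (-(2 * y)) y := by
          have := (hasDerivAt_pow 2 y).const_sub 1
          simpa using this
        have hQ : HasDerivAt (fun y : ℝ => 2 * y) 2 y := by
          simpa using (hasDerivAt_id y).const_mul 2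
        have h := ((hP.mul hs).div_const z).add (((hs.const_mul 2).div_const (z ^ 3)).sub
          ((hQ.mul hc).div_const (z ^ 2)))
        refine h.congr_deriv ?_
        field_simp
        ring
      · apply Continuous.intervalIntegrable
        fun_prop
    rw [h1]
    unfold JJ
    simp only [mul_one, mul_zero, Real.sin_zero]
    field_simp
    ring

theorem psi1_continuous : Continuous psi1 := by
  have e : psi1 = fun z => 3 / 2 * ∫ s in (0 : ℝ)..1, (1 - s ^ 2) * Real.cos (z * s) :=
    funext psi1_int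
  rw [e]
  apply Continuous.mul continuous_const
  apply intervalIntegral.continuous_parametric_intervalIntegral_of_continuous'
  fun_prop

theorem psi1_abs_le (z : ℝ) : |psi1 z| ≤ 1 := by
  rw [psi1_int, abs_mul, abs_of_pos (by norm_num : (0 : ℝ) < 3 / 2)]
  have h1 : |∫ s in (0 : ℝ)..1, (1 - s ^ 2) * Real.cos (z * s)| ≤
      ∫ s in (0 : ℝ)..1, (1 - s ^ 2) := by
    rw [← Real.norm_eq_abs]
    refine (intervalIntegral.norm_integral_le_integral_norm zero_le_one).trans ?_
    apply intervalIntegral.integral_mono_on zero_le_one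
    · apply Continuous.intervalIntegrable; fun_prop
    · apply Continuous.intervalIntegrable; fun_prop
    · intro s hs
      have h2 : 0 ≤ 1 - s ^ 2 := by nlinarith [hs.1, hs.2]
      rw [norm_mul, Real.norm_of_nonneg h2]
      exact mul_le_of_le_one_right h2 (by rw [Real.norm_eq_abs]; exact Real.abs_cos_le_one _)
  have h3 : ∫ s in (0 : ℝ)..1, (1 - s ^ 2 : ℝ) = 2 / 3 := by
    rw [intervalIntegral.integral_sub (by simp) (by
      apply Continuous.intervalIntegrable; fun_prop)]
    simp
    norm_num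
  rw [h3] at h1
  linarith

/-- Lommel integral -/
noncomputable def KI (u v : ℝ) : ℝ := 5 * ∫ s in (0 : ℝ)..1, s ^ 4 * (psi1 (u * s) * psi1 (v * s))

theorem KK_eq_KI {u v : ℝ} (hu : u ≠ 0) (hv : v ≠ 0) (huv : u ^ 2 ≠ v ^ 2) : KK u v = KI u v := by
  have hd : u ^ 2 - v ^ 2 ≠ 0 := sub_ne_zero.2 huv
  have key : ∫ s in (0 : ℝ)..1, s ^ 4 * (psi1 (u * s) * psi1 (v * s)) =
      9 / (u ^ 3 * v ^ 3 * (u ^ 2 - v ^ 2)) * (v ^ 3 * JJ (u * 1) * Real.sinc (v * 1) -
        u ^ 3 * JJ (v * 1) * Real.sinc (u * 1)) -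
      9 / (u ^ 3 * v ^ 3 * (u ^ 2 - v ^ 2)) * (v ^ 3 * JJ (u * 0) * Real.sinc (v * 0) -
        u ^ 3 * JJ (v * 0) * Real.sinc (u * 0)) := by
    apply intervalIntegral.integral_eq_sub_of_hasDerivAt_of_le (a := (0 : ℝ)) (b := 1)
      (f := fun s => 9 / (u ^ 3 * v ^ 3 * (u ^ 2 - v ^ 2)) *
        (v ^ 3 * JJ (u * s) * Real.sinc (v * s) - u ^ 3 * JJ (v * s) * Real.sinc (u * s)))
      zero_le_one
    · apply Continuous.continuousOn
      have h1 := JJ_continuous
      have h2 := Real.continuous_sinc
      fun_prop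
    · intro s hs
      have hs0 : s ≠ 0 := hs.1.ne'
      have h0 : ∀ c : ℝ, HasDerivAt (fun y : ℝ => c * y) c s := fun c => by
        simpa using (hasDerivAt_id s).const_mul c
      have hJ : ∀ c : ℝ, HasDerivAt (fun y : ℝ => JJ (c * y)) (c * s * Real.sin (c * s) * c) s :=
        fun c => (JJ_hasDerivAt (c * s)).comp s (h0 c)
      have hS : ∀ c : ℝ, HasDerivAt (fun y : ℝ => Real.sin (c * y)) (Real.cos (c * s) * c) s :=
        fun c => (h0 c).sin
      have hsinc : ∀ c : ℝ, c ≠ 0 → HasDerivAt (fun y : ℝ => Real.sinc (c * y))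
          ((Real.cos (c * s) * c * (c * s) - Real.sin (c * s) * c) / (c * s) ^ 2) s := by
        intro c hc
        have h1 : HasDerivAt (fun y : ℝ => Real.sin (c * y) / (c * y))
            ((Real.cos (c * s) * c * (c * s) - Real.sin (c * s) * c) / (c * s) ^ 2) s :=
          (hS c).div (h0 c) (mul_ne_zero hc hs0)
        refine h1.congr_of_eventuallyEq ?_
        filter_upwards [eventually_ne_nhds hs0] with y hy
        rw [Real.sinc_of_ne_zero (mul_ne_zero hc hy)]
      have h := (((((hJ u).const_mul (v ^ 3)).mul (hsinc v hv)).sub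
        (((hJ v).const_mul (u ^ 3)).mul (hsinc u hu))).const_mul
          (9 / (u ^ 3 * v ^ 3 * (u ^ 2 - v ^ 2))))
      refine h.congr_deriv ?_
      unfold psi1
      rw [if_neg (mul_ne_zero hu hs0), if_neg (mul_ne_zero hv hs0),
        Real.sinc_of_ne_zero (mul_ne_zero hu hs0), Real.sinc_of_ne_zero (mul_ne_zero hv hs0)]
      unfold JJ
      field_simp
      ring
    · apply Continuous.intervalIntegrable
      have h1 := psi1_continuous
      fun_prop
  unfold KI
  rw [key]
  simp only [mul_one, mul_zero]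
  have hJ0 : JJ 0 = 0 := by simp [JJ]
  rw [hJ0]
  unfold KK phiB
  rw [Real.sinc_of_ne_zero hu, Real.sinc_of_ne_zero hv]
  unfold JJ
  field_simp
  ring

theorem KI_abs_le (u v : ℝ) : |KI u v| ≤ 1 := by
  unfold KI
  rw [abs_mul, abs_of_pos (by norm_num : (0 : ℝ) < 5)]
  have h1 : |∫ s in (0 : ℝ)..1, s ^ 4 * (psi1 (u * s) * psi1 (v * s))| ≤
      ∫ s in (0 : ℝ)..1, s ^ 4 := by
    rw [← Real.norm_eq_abs]
    refine (intervalIntegral.norm_integral_le_integral_norm zero_le_one).trans ?_
    have hp := psi1_continuous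
    apply intervalIntegral.integral_mono_on zero_le_one
    · apply Continuous.intervalIntegrable; fun_prop
    · apply Continuous.intervalIntegrable; fun_prop
    · intro s hs
      have h2 : 0 ≤ s ^ 4 := by positivity
      rw [norm_mul, Real.norm_of_nonneg h2, norm_mul]
      apply mul_le_of_le_one_right h2
      exact mul_le_one₀ (psi1_abs_le _) (norm_nonneg _) (psi1_abs_le _)
  have h3 : ∫ s in (0 : ℝ)..1, (s ^ 4 : ℝ) = 1 / 5 := by
    rw [integral_pow]
    norm_num
  rw [h3] at h1
  linarith

theorem KI_symm (u v : ℝ) : KI u v = KI v u := by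
  unfold KI
  congr 1
  congr 1
  ext s
  ring

/-- the diagonal -/
theorem KI_diag {u : ℝ} (hu : u ≠ 0) :
    KI u u = 45 * (u / 2 + Real.sin (2 * u) / 4 - Real.sin u ^ 2 / u) / u ^ 5 := by
  have key : ∫ s in (0 : ℝ)..1, s ^ 4 * (psi1 (u * s) * psi1 (u * s)) =
      9 / u ^ 6 * (u ^ 2 * 1 / 2 + u * Real.sin (2 * (u * 1)) / 4 - u * (Real.sin (u * 1) *
        Real.sinc (u * 1))) -
      9 / u ^ 6 * (u ^ 2 * 0 / 2 + u * Real.sin (2 * (u * 0)) / 4 - u * (Real.sin (u * 0) *
        Real.sinc (u * 0))) := by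
    apply intervalIntegral.integral_eq_sub_of_hasDerivAt_of_le (a := (0 : ℝ)) (b := 1)
      (f := fun s => 9 / u ^ 6 * (u ^ 2 * s / 2 + u * Real.sin (2 * (u * s)) / 4 -
        u * (Real.sin (u * s) * Real.sinc (u * s)))) zero_le_one
    · apply Continuous.continuousOn
      have h2 := Real.continuous_sinc
      fun_prop
    · intro s hs
      have hs0 : s ≠ 0 := hs.1.ne'
      have h0 : HasDerivAt (fun y : ℝ => u * y) u s := by
        simpa using (hasDerivAt_id s).const_mul u
      have h00 : HasDerivAt (fun y : ℝ => 2 * (u * y)) (2 * u) s := h0.const_mul 2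
      have hS := h0.sin
      have hS2 := h00.sin
      have hsinc : HasDerivAt (fun y : ℝ => Real.sinc (u * y))
          ((Real.cos (u * s) * u * (u * s) - Real.sin (u * s) * u) / (u * s) ^ 2) s := by
        have h1 : HasDerivAt (fun y : ℝ => Real.sin (u * y) / (u * y))
            ((Real.cos (u * s) * u * (u * s) - Real.sin (u * s) * u) / (u * s) ^ 2) s :=
          hS.div h0 (mul_ne_zero hu hs0)
        refine h1.congr_of_eventuallyEq ?_
        filter_upwards [eventually_ne_nhds hs0] with y hy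
        rw [Real.sinc_of_ne_zero (mul_ne_zero hu hy)]
      have hl : HasDerivAt (fun y : ℝ => u ^ 2 * y / 2) (u ^ 2 / 2) s := by
        have := ((hasDerivAt_id s).const_mul (u ^ 2)).div_const 2
        simpa using this
      have h := (((hl.add ((hS2.const_mul u).div_const 4)).sub ((hS.mul hsinc).const_mul u)).const_mul
        (9 / u ^ 6))
      refine h.congr_deriv ?_
      unfold psi1
      rw [if_neg (mul_ne_zero hu hs0), Real.sinc_of_ne_zero (mul_ne_zero hu hs0)]
      unfold JJ
      have hc2 : Real.cos (2 * (u * s)) = Real.cos (u * s) ^ 2 - Real.sin (u * s) ^ 2 := by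
        rw [Real.cos_two_mul, ← Real.cos_sq_add_sin_sq (u * s)]
        ring
      have h12 : u ^ 2 / 2 = u ^ 2 / 2 * (Real.cos (u * s) ^ 2 + Real.sin (u * s) ^ 2) := by
        rw [Real.cos_sq_add_sin_sq, mul_one]
      rw [hc2, h12]
      field_simp
      ring
    · apply Continuous.intervalIntegrable
      have h1 := psi1_continuous
      fun_prop
  unfold KI
  rw [key]
  simp only [mul_one, mul_zero, Real.sin_zero, zero_mul, zero_div, add_zero, sub_zero]
  rw [Real.sinc_of_ne_zero hu]
  field_simp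
  ring

/-- Cauchy-Schwarz -/
theorem KI_sq_le (u v : ℝ) : KI u v ^ 2 ≤ KI u u * KI v v := by
  have hp := psi1_continuous
  have hq : ∀ l : ℝ, 0 ≤ KI u u - 2 * l * KI u v + l ^ 2 * KI v v := by
    intro l
    have h1 : 0 ≤ 5 * ∫ s in (0 : ℝ)..1, s ^ 4 * (psi1 (u * s) - l * psi1 (v * s)) ^ 2 := by
      apply mul_nonneg (by norm_num)
      apply intervalIntegral.integral_nonneg zero_le_one
      intro s _
      positivity
    have h2 : ∫ s in (0 : ℝ)..1, s ^ 4 * (psi1 (u * s) - l * psi1 (v * s)) ^ 2 =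
        (∫ s in (0 : ℝ)..1, s ^ 4 * (psi1 (u * s) * psi1 (u * s))) -
        2 * l * (∫ s in (0 : ℝ)..1, s ^ 4 * (psi1 (u * s) * psi1 (v * s))) +
        l ^ 2 * (∫ s in (0 : ℝ)..1, s ^ 4 * (psi1 (v * s) * psi1 (v * s))) := by
      rw [← intervalIntegral.integral_const_mul, ← intervalIntegral.integral_const_mul,
        ← intervalIntegral.integral_sub, ← intervalIntegral.integral_add]
      · congr 1
        ext s
        ring
      all_goals apply Continuous.intervalIntegrable; fun_prop
    rw [h2] at h1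
    unfold KI
    linarith
  have hvv : 0 ≤ KI v v := by
    unfold KI
    apply mul_nonneg (by norm_num)
    apply intervalIntegral.integral_nonneg zero_le_one
    intro s _
    have := mul_self_nonneg (psi1 (v * s))
    positivity
  rcases hvv.eq_or_lt with h0 | h0
  · by_cases hB : KI u v = 0
    · rw [hB, ← h0]
      simp
    · have h3 := hq ((KI u u + 1) / (2 * KI u v))
      rw [← h0, mul_zero, add_zero] at h3
      have h4 : 2 * ((KI u u + 1) / (2 * KI u v)) * KI u v = KI u u + 1 := by
        field_simp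
      linarith
  · have h3 := hq (KI u v / KI v v)
    have h5 : KI u u - 2 * (KI u v / KI v v) * KI u v + (KI u v / KI v v) ^ 2 * KI v v =
        (KI u u * KI v v - KI u v ^ 2) / KI v v := by
      field_simp
      ring
    rw [h5] at h3
    have := (div_nonneg_iff.1 h3)
    rcases this with ⟨h6, _⟩ | ⟨_, h6⟩
    · linarith
    · linarith

end Pool.Agent.H60.SL
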