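import Pool.Agent.H60.SL.Tele
import Pool.Agent.H60.SL.Conc
import Pool.Agent.H60.SL.Crit
import Pool.Agent.H60.SL.Delta
import Pool.Agent.H60.SL.KReg
import Pool.Agent.H60.SL.Lom

set_option autoImplicit false

open MeasureTheory Set Filter Topology

namespace Pool.Agent.H60.SL

open Pool.Agent.H64.Slab Pool.Agent.H60.Slab Pool.Agent.H60.Big

/-! ## decay of products of `sinc` -/

theorem prod_one_add_ge3 {ι : Type*} (s : Finset ι) (d : ι → ℝ) (h0 : ∀ i ∈ s, 0 ≤ d i) :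
    0 ≤ ((∑ i ∈ s, d i) ^ 2 - ∑ i ∈ s, d i ^ 2) / 2 ∧
    0 ≤ ((∑ i ∈ s, d i) ^ 3 - 3 * (∑ i ∈ s, d i) * (∑ i ∈ s, d i ^ 2) + 2 * ∑ i ∈ s, d i ^ 3) / 6 ∧
    1 + (∑ i ∈ s, d i) + ((∑ i ∈ s, d i) ^ 2 - ∑ i ∈ s, d i ^ 2) / 2 +
      ((∑ i ∈ s, d i) ^ 3 - 3 * (∑ i ∈ s, d i) * (∑ i ∈ s, d i ^ 2) + 2 * ∑ i ∈ s, d i ^ 3) / 6 ≤
      ∏ i ∈ s, (1 + d i) := by
  classical
  induction s using Finset.induction_on with
  | empty => simp
  | insert a s ha ih =>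
    have hda := h0 a (Finset.mem_insert_self _ _)
    obtain ⟨h1, h2, h3⟩ := ih (fun i hi => h0 i (Finset.mem_insert_of_mem hi))
    have he : 0 ≤ ∑ i ∈ s, d i := Finset.sum_nonneg fun i hi => h0 i (Finset.mem_insert_of_mem hi)
    rw [Finset.sum_insert ha, Finset.sum_insert ha, Finset.sum_insert ha, Finset.prod_insert ha]
    set e := ∑ i ∈ s, d i
    set p := ∑ i ∈ s, d i ^ 2
    set r := ∑ i ∈ s, d i ^ 3
    set x := d a
    have i2 : ((x + e) ^ 2 - (x ^ 2 + p)) / 2 = (e ^ 2 - p) / 2 + x * e := by ring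
    have i3 : ((x + e) ^ 3 - 3 * (x + e) * (x ^ 2 + p) + 2 * (x ^ 3 + r)) / 6 =
        (e ^ 3 - 3 * e * p + 2 * r) / 6 + x * ((e ^ 2 - p) / 2) := by ring
    rw [i2, i3]
    have m1 : 0 ≤ x * e := mul_nonneg hda he
    have m2 : 0 ≤ x * ((e ^ 2 - p) / 2) := mul_nonneg hda h1
    have m3 : 0 ≤ x * ((e ^ 3 - 3 * e * p + 2 * r) / 6) := mul_nonneg hda h2
    refine ⟨by linarith, by linarith, ?_⟩
    have m4 := mul_le_mul_of_nonneg_left h3 (by linarith : (0 : ℝ) ≤ 1 + x)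
    nlinarith

/-- `(∏ sinc (b_j w))² (1 + x σ + ...) ≤ 1` with `x = w²/3` -/
theorem prod_sinc_sq {m : ℕ} (b : Fin m → ℝ) (w : ℝ) :
    (∏ j, Real.sinc (b j * w)) ^ 2 * (1 + w ^ 2 / 3 * (∑ j, b j ^ 2) +
      (w ^ 2 / 3) ^ 2 * (((∑ j, b j ^ 2) ^ 2 - ∑ j, b j ^ 4) / 2) +
      (w ^ 2 / 3) ^ 3 * (((∑ j, b j ^ 2) ^ 3 - 3 * (∑ j, b j ^ 2) * (∑ j, b j ^ 4) +
        2 * ∑ j, b j ^ 6) / 6)) ≤ 1 := by
  have h := (prod_one_add_ge3 Finset.univ (fun j => (b j * w) ^ 2 / 3) (fun j _ => by positivity)).2.2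
  have e1 : ∑ j, (b j * w) ^ 2 / 3 = w ^ 2 / 3 * ∑ j, b j ^ 2 := by
    rw [Finset.mul_sum]
    exact Finset.sum_congr rfl fun j _ => by ring
  have e2 : ∑ j, ((b j * w) ^ 2 / 3) ^ 2 = (w ^ 2 / 3) ^ 2 * ∑ j, b j ^ 4 := by
    rw [Finset.mul_sum]
    exact Finset.sum_congr rfl fun j _ => by ring
  have e3 : ∑ j, ((b j * w) ^ 2 / 3) ^ 3 = (w ^ 2 / 3) ^ 3 * ∑ j, b j ^ 6 := by
    rw [Finset.mul_sum]
    exact Finset.sum_congr rfl fun j _ => by ring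
  rw [e1, e2, e3] at h
  have h2 : (∏ j, Real.sinc (b j * w)) ^ 2 * ∏ j, (1 + (b j * w) ^ 2 / 3) ≤ 1 := by
    rw [← Finset.prod_pow, ← Finset.prod_mul_distrib]
    have : ∏ j, Real.sinc (b j * w) ^ 2 * (1 + (b j * w) ^ 2 / 3) ≤ ∏ j : Fin m, (1 : ℝ) :=
      Finset.prod_le_prod (fun j _ => by positivity) (fun j _ => sinc_sq_le _)
    simpa using this
  refine le_trans (mul_le_mul_of_nonneg_left ?_ (sq_nonneg _)) h2
  refine le_trans (le_of_eq ?_) h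
  ring

theorem tail_four {f : ℕ → ℝ} {S : ℝ} (h : HasSum f S) {K : ℕ} (hK : 1 ≤ K) {C : ℝ}
    (hb : ∀ k : ℕ, K ≤ k → |f k| ≤ C / ((k : ℝ) + 1) ^ 4) :
    |S - ∑ k ∈ Finset.range K, f k| ≤ C / (3 * K ^ 3) := by
  have hC : 0 ≤ C := by
    have h1 := (abs_nonneg _).trans (hb K le_rfl)
    by_contra hcon
    have : C / ((K : ℝ) + 1) ^ 4 < 0 := div_neg_of_neg_of_pos (not_le.1 hcon) (by positivity)
    linarith
  apply tail_telescope h K (g := fun k => C / (3 * (k : ℝ) ^ 3))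
  · have h1 := tendsto_const_div_atTop_nhds_zero_nat C
    have h2 := tendsto_const_div_atTop_nhds_zero_nat (1 / 3 : ℝ)
    have h4 := tendsto_const_div_atTop_nhds_zero_nat (1 : ℝ)
    have h3 := (h1.mul h2).mul h4
    rw [mul_zero] at h3
    refine h3.congr ?_
    intro n
    rw [div_mul_div_comm, div_mul_div_comm]
    rcases eq_or_ne (n : ℝ) 0 with h0 | h0
    · rw [h0]; simp
    · field_simp
  · intro k hk
    have hk0 : (0 : ℝ) < k := by exact_mod_cast (by omega : 0 < k)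
    refine (hb k hk).trans ?_
    push_cast
    rw [div_sub_div _ _ (by positivity) (by positivity), div_le_div_iff₀ (by positivity) (by positivity)]
    have e : (C * (3 * ((k : ℝ) + 1) ^ 3) - 3 * (k : ℝ) ^ 3 * C) * (k + 1) ^ 4 -
        C * (3 * (k : ℝ) ^ 3 * (3 * (k + 1) ^ 3)) =
        C * ((k + 1) ^ 3 * (18 * k ^ 2 + 12 * k + 3)) := by ring
    have : 0 ≤ C * (((k : ℝ) + 1) ^ 3 * (18 * k ^ 2 + 12 * k + 3)) := by positivity
    linarith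

/-! ## certificates for `T` -/

/-- terms of the `T` series -/
noncomputable def fT {n : ℕ} (a : Fin n → ℝ) (δ t : ℝ) (k : ℕ) : ℝ :=
  phi a ((k + 1) * δ) * (Real.sin (t * ((k + 1) * δ)) / ((k + 1) * δ))

theorem hasSum_fT {n : ℕ} (a : Fin n → ℝ) (hsum : ∑ j, a j ^ 2 = 1) {t δ : ℝ} (ht : 0 < t)
    (hδ : 0 < δ) : HasSum (fT a δ t) (∑' k, fT a δ t k) := by
  have hpi := Real.pi_pos
  have h := (FV_delta a hsum ht hδ).mul_left (Real.pi / (2 * δ))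
  have h2 : HasSum (fT a δ t) (Real.pi / (2 * δ) *
      (∑' j : ℤ, avgc a (ind t) (j * (2 * Real.pi / δ)) - δ * t / Real.pi)) := by
    refine h.congr_fun ?_
    intro k
    unfold fT
    field_simp
  exact h2.summable.hasSum

/-- upper bound for `T = 1 - FV / 2^n` -/
theorem T_cert {n : ℕ} (a : Fin n → ℝ) (hsum : ∑ j, a j ^ 2 = 1) {t δ : ℝ} (ht : 0 < t)
    (hδ : 0 < δ) (hP : δ * t < Real.pi) {G R : ℝ} (hR : G - R ≤ ∑' k, fT a δ t k) :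
    1 - FV a t 0 / 2 ^ n ≤ 1 - δ * t / Real.pi - 2 * δ / Real.pi * (G - R) +
      2 * Real.exp (-(3 * (2 * Real.pi / δ - t) ^ 2) / 2) := by
  have hpi := Real.pi_pos
  have h := FV_delta_near a hsum ht hδ hP
  have e : ∑' k : ℕ, 2 * δ / Real.pi * (phi a ((k + 1) * δ) *
      (Real.sin (t * ((k + 1) * δ)) / ((k + 1) * δ))) = 2 * δ / Real.pi * ∑' k, fT a δ t k := by
    rw [← tsum_mul_left]
    rfl
  rw [e] at h
  have h1 := (abs_le.1 h).2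
  have h2 : 2 * δ / Real.pi * (G - R) ≤ 2 * δ / Real.pi * ∑' k, fT a δ t k :=
    mul_le_mul_of_nonneg_left hR (by positivity)
  linarith

/-- the terms of the `T` series are bounded by the decay of `phi` -/
theorem fT_abs_le {n : ℕ} (a : Fin n → ℝ) {δ t : ℝ} (hδ : 0 < δ) (k : ℕ) {B : ℝ}
    (hB : |phi a ((k + 1) * δ)| ≤ B) : |fT a δ t k| ≤ B / ((k + 1) * δ) := by
  unfold fT
  have hk : (0 : ℝ) < (k + 1) * δ := by positivity
  rw [abs_mul, abs_div, abs_of_pos hk, mul_div_assoc']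
  apply div_le_div_of_nonneg_right _ hk.le
  calc |phi a ((k + 1) * δ)| * |Real.sin (t * ((k + 1) * δ))| ≤ B * 1 :=
        mul_le_mul hB (Real.abs_sin_le_one _) (abs_nonneg _) ((abs_nonneg _).trans hB)
    _ = B := mul_one B

/-- convexity in `t`: an affine bound at two points holds between them -/
theorem T_affine {n : ℕ} (a : Fin n → ℝ) (hsum : ∑ j, a j ^ 2 = 1) {t1 t t2 A B : ℝ} (h0 : 0 ≤ t1)
    (h1 : t1 ≤ t) (h2 : t ≤ t2) (hA : 1 - FV a t1 0 / 2 ^ n ≤ A + B * t1)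
    (hB : 1 - FV a t2 0 / 2 ^ n ≤ A + B * t2) : 1 - FV a t 0 / 2 ^ n ≤ A + B * t := by
  rcases (h1.trans h2).eq_or_lt with h | h
  · have : t = t1 := le_antisymm (by rw [h]; exact h2) h1
    rw [this]; exact hA
  · have h3 := T_chord a hsum h0 h1 h2
    have h4 : (t2 - t) * (1 - FV a t1 0 / 2 ^ n) ≤ (t2 - t) * (A + B * t1) :=
      mul_le_mul_of_nonneg_left hA (by linarith)
    have h5 : (t - t1) * (1 - FV a t2 0 / 2 ^ n) ≤ (t - t1) * (A + B * t2) :=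
      mul_le_mul_of_nonneg_left hB (by linarith)
    have h6 : (t2 - t1) * (1 - FV a t 0 / 2 ^ n) ≤ (t2 - t1) * (A + B * t) := by
      have e : (t2 - t1) * (A + B * t) = (t2 - t) * (A + B * t1) + (t - t1) * (A + B * t2) := by ring
      rw [e]
      linarith
    exact le_of_mul_le_mul_left h6 (by linarith)

theorem T2_tangent (c t : ℝ) : T2 c - (Real.sqrt 2 - c) * (t - c) ≤ T2 t := by
  unfold T2
  nlinarith [sq_nonneg (t - c)]

theorem T3_tangent {c t : ℝ} (hc : c ≤ Real.sqrt 3) (ht : t ≤ Real.sqrt 3) :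
    T3 c - 3 * Real.sqrt 3 * (Real.sqrt 3 - c) ^ 2 / 8 * (t - c) ≤ T3 t := by
  unfold T3
  have h3 : 0 ≤ Real.sqrt 3 := Real.sqrt_nonneg _
  have key : 0 ≤ (Real.sqrt 3 - t) ^ 3 - (Real.sqrt 3 - c) ^ 3 + 3 * (Real.sqrt 3 - c) ^ 2 * (t - c) := by
    have e : (Real.sqrt 3 - t) ^ 3 - (Real.sqrt 3 - c) ^ 3 + 3 * (Real.sqrt 3 - c) ^ 2 * (t - c) =
        (t - c) ^ 2 * ((Real.sqrt 3 - t) + 2 * (Real.sqrt 3 - c)) := by ring
    rw [e]
    apply mul_nonneg (sq_nonneg _)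
    linarith
  have := mul_nonneg h3 key
  nlinarith

/-- first alternative from `T ≤ T2` -/
theorem alt_T2 {n : ℕ} (hn : 2 ≤ n) (a : Fin n → ℝ) {t : ℝ} (h0 : 0 ≤ t) (h2 : t ≤ Real.sqrt 2)
    (h : 1 - FV a t 0 / 2 ^ n ≤ T2 t) :
    ∃ q, 1 ≤ q ∧ q ≤ n ∧ FV (stdVec n q) t 0 ≤ FV a t 0 := by
  obtain ⟨m, rfl⟩ : ∃ m, n = m + 2 := ⟨n - 2, by omega⟩
  refine ⟨2, by norm_num, by omega, ?_⟩
  have hpow : (0 : ℝ) < 2 ^ (m + 2) := by positivity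
  have hv2 : FV (stdVec (m + 2) 2) t 0 = 2 ^ (m + 2) * (1 - T2 t) := by
    rw [FV_f2 m h0 h2]
    congr 1
    rw [vv, T2]
    have := s2_sq
    nlinarith
  rw [hv2]
  have h5 : 1 - T2 t ≤ FV a t 0 / 2 ^ (m + 2) := by linarith
  rw [le_div_iff₀ hpow] at h5
  linarith

/-- first alternative from `T ≤ T3` -/
theorem alt_T3 {n : ℕ} (hn : 3 ≤ n) (a : Fin n → ℝ) {t : ℝ} (h0 : 17 / 20 ≤ t)
    (h2 : t ≤ Real.sqrt 3) (h : 1 - FV a t 0 / 2 ^ n ≤ T3 t) :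
    ∃ q, 1 ≤ q ∧ q ≤ n ∧ FV (stdVec n q) t 0 ≤ FV a t 0 := by
  obtain ⟨m, rfl⟩ : ∃ m, n = m + 3 := ⟨n - 3, by omega⟩
  refine ⟨3, by norm_num, by omega, ?_⟩
  have hpow : (0 : ℝ) < 2 ^ (m + 3) := by positivity
  rw [FV_f3 m h0 h2]
  have h5 : 1 - T3 t ≤ FV a t 0 / 2 ^ (m + 3) := by linarith
  rw [le_div_iff₀ hpow] at h5
  linarith

/-! ## certificates for `F > 0` -/

/-- terms of the `q` series -/
noncomputable def gQ {m : ℕ} (b : Fin m → ℝ) (α γ δ t : ℝ) (k : ℕ) : ℝ :=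
  ((k + 1) * δ) ^ 2 * Real.cos (t * ((k + 1) * δ)) * KI (α * ((k + 1) * δ)) (γ * ((k + 1) * δ)) *
    ∏ j, Real.sinc (b j * ((k + 1) * δ))

theorem KK_KI_w {α γ w : ℝ} (hγ : 0 < γ) (hαγ : γ < α) (hw : 0 < w) :
    KK (α * w) (γ * w) = KI (α * w) (γ * w) := by
  have h1 : 0 < γ * w := mul_pos hγ hw
  have h2 : γ * w < α * w := mul_lt_mul_of_pos_right hαγ hw
  apply KK_eq_KI (by linarith) h1.ne'
  intro h
  nlinarith

theorem q_series {m : ℕ} (b : Fin m → ℝ) {α γ δ : ℝ} (hγ : 0 < γ) (hαγ : γ < α) (hδ : 0 < δ)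
    (t : ℝ) :
    (fun k : ℕ => -(4 / (45 * Real.pi)) * (α * γ) ^ 3 * δ *
      (((k + 1) * δ) ^ 2 * Real.cos (t * ((k + 1) * δ)) *
        KK (α * ((k + 1) * δ)) (γ * ((k + 1) * δ)) *
        ∏ j, Real.sinc (b j * ((k + 1) * δ)))) =
    fun k => -(4 / (45 * Real.pi) * (α * γ) ^ 3 * δ) * gQ b α γ δ t k := by
  ext k
  unfold gQ
  rw [KK_KI_w hγ hαγ (by positivity)]
  ring

theorem hasSum_gQ {m : ℕ} (b : Fin m → ℝ) {α γ δ : ℝ} (hγ : 0 < γ) (hαγ : γ < α) (hδ : 0 < δ)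
    (t : ℝ) : HasSum (gQ b α γ δ t) (∑' k, gQ b α γ δ t k) := by
  have hpi := Real.pi_pos
  have hα : 0 < α := hγ.trans hαγ
  have h := q_delta b hγ hαγ hδ t
  rw [q_series b hγ hαγ hδ t] at h
  have hc : -(4 / (45 * Real.pi) * (α * γ) ^ 3 * δ) ≠ 0 := by
    apply neg_ne_zero.2
    positivity
  exact ((summable_mul_left_iff hc).1 h.summable).hasSum

/-- the size of the alias terms relative to the main constant -/
noncomputable def aliasQ (α γ σ δ t : ℝ) : ℝ :=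
  15 * Real.pi / (α ^ 3 * δ) * Real.exp (-(3 * (2 * Real.pi / δ - t - (α + γ)) ^ 2) / (2 * σ))

theorem q_near {m : ℕ} (b : Fin m → ℝ) {α γ t δ σ : ℝ} (hγ : 0 < γ) (hαγ : γ < α)
    (hδ : 0 < δ) (hP : δ * (α + γ) < Real.pi) (ht : 0 ≤ t)
    (htP : t + (α + γ) ≤ 2 * Real.pi / δ) (hσ : 0 < σ) (hb : ∑ j, b j ^ 2 ≤ σ) :
    |avgc b (LL 2 (α + γ) (α - γ)) t / (4 / (45 * Real.pi) * (α * γ) ^ 3 * δ) +
      ∑' k, gQ b α γ δ t k| ≤ aliasQ α γ σ δ t := by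
  have hpi := Real.pi_pos
  have hα : 0 < α := hγ.trans hαγ
  set c := 4 / (45 * Real.pi) * (α * γ) ^ 3 * δ with hc
  have hc0 : 0 < c := by positivity
  have h := q_delta_near b hγ hαγ hδ hP ht htP hσ hb
  rw [q_series b hγ hαγ hδ t, tsum_mul_left] at h
  rw [← hc] at h
  set S := ∑' k, gQ b α γ δ t k
  set q := avgc b (LL 2 (α + γ) (α - γ)) t
  have e1 : q / c + S = -((-c * S - q) / c) := by field_simp; ring
  rw [e1, abs_neg, abs_div, abs_of_pos hc0, div_le_iff₀ hc0]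
  refine h.trans (le_of_eq ?_)
  rw [aliasQ, hc]
  field_simp
  ring

/-- the P criterion with certificates -/
theorem P_cert {m : ℕ} (b : Fin m → ℝ) {α γ t1 t0 t δ σ : ℝ} (hγ : 0 < γ) (hαγ : γ < α)
    (hb : ∀ j, 0 < b j) (hbα : ∀ j, b j ≤ α + γ)
    (hδ : 0 < δ) (hP : δ * (α + γ) < Real.pi) (h1 : 0 < t1) (h10 : t1 < t0)
    (htP : t0 + (α + γ) ≤ 2 * Real.pi / δ) (hσ : 0 < σ) (hbσ : ∑ j, b j ^ 2 ≤ σ)
    (hA : ∑' k, gQ b α γ δ t1 k + aliasQ α γ σ δ t1 < 0)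
    (hB : ∑' k, gQ b α γ δ t1 k + aliasQ α γ σ δ t1 + aliasQ α γ σ δ t0 <
      ∑' k, gQ b α γ δ t0 k)
    (ht : t0 ≤ t) (htL : t < α + γ + ∑ j, b j) :
    0 < ∫ x, LL 1 (α + γ) (α - γ) (t + dot x b) ∂(cubeM m) := by
  have hpi := Real.pi_pos
  have hα : 0 < α := hγ.trans hαγ
  have hc0 : 0 < 4 / (45 * Real.pi) * (α * γ) ^ 3 * δ := by positivity
  have n1 := q_near b hγ hαγ hδ hP h1.le (by linarith) hσ hbσ
  have n0 := q_near b hγ hαγ hδ hP (h1.le.trans h10.le) htP hσ hbσ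
  have a1 := (abs_le.1 n1).1
  have a0 := (abs_le.1 n0).2
  have q1 : 0 < avgc b (LL 2 (α + γ) (α - γ)) t1 / (4 / (45 * Real.pi) * (α * γ) ^ 3 * δ) := by
    linarith
  have q2 : avgc b (LL 2 (α + γ) (α - γ)) t0 / (4 / (45 * Real.pi) * (α * γ) ^ 3 * δ) <
      avgc b (LL 2 (α + γ) (α - γ)) t1 / (4 / (45 * Real.pi) * (α * γ) ^ 3 * δ) := by
    linarith
  exact crit_monotone b (by linarith) (by linarith) hb hbα h1 h10
    ((div_pos_iff_of_pos_right hc0).1 q1) ((div_lt_div_iff_of_pos_right hc0).1 q2) ht htL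

end Pool.Agent.H60.SL
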