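import Pool.Agent.H60.SL.AliasT
import Pool.Agent.H60.SL.Cert

/-!
# Alias bound for the `q` series without the factor `α⁻³`
-/

set_option autoImplicit false

open MeasureTheory Set Filter Topology

namespace Pool.Agent.H60.SL

open Pool.Agent.H64.Slab Pool.Agent.H60.Slab Pool.Agent.H60.Big

/-- alias size for small `α` -/
noncomputable def aliasS (α γ σ δ t : ℝ) : ℝ :=
  101 / 100 * (1000 / 27) * Real.pi / δ *
    Real.exp (-(3 * (2 * Real.pi / δ - t - 9 / 10 - (α + γ)) ^ 2) / (2 * σ))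

theorem q_near_S {m : ℕ} (b : Fin m → ℝ) {α γ t δ σ : ℝ} (hγ : 0 < γ) (hαγ : γ < α)
    (hb : ∀ j, 0 < b j) (hbα : ∀ j, b j ≤ α + γ) (hs : α ^ 2 + γ ^ 2 + ∑ j, b j ^ 2 ≤ 1)
    (hσ : 0 < σ) (hσ1 : σ ≤ 1) (hbσ : ∑ j, b j ^ 2 ≤ σ)
    (hδ : 0 < δ) (hP : 5 ≤ 2 * Real.pi / δ) (ht : 4 / 5 ≤ t)
    (hx2 : 10 ≤ 3 * (2 * Real.pi / δ - t - 9 / 10) ^ 2)
    (hp : α + γ + 1 / 2 ≤ 2 * Real.pi / δ - t - 9 / 10) :
    |avgc b (LL 2 (α + γ) (α - γ)) t / (4 / (45 * Real.pi) * (α * γ) ^ 3 * δ) +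
      ∑' k, gQ b α γ δ t k| ≤ aliasS α γ σ δ t := by
  have hpi := Real.pi_pos
  have hα : 0 < α := hγ.trans hαγ
  set c := 4 / (45 * Real.pi) * (α * γ) ^ 3 * δ with hc
  have hc0 : 0 < c := by positivity
  have h := alias_small b hγ hαγ hb hbα hs hσ hσ1 hbσ hP ht hx2 hp
  rw [← (q_delta b hγ hαγ hδ t).tsum_eq, q_series b hγ hαγ hδ t, tsum_mul_left] at h
  rw [← hc] at h
  set S := ∑' k, gQ b α γ δ t k
  set q := avgc b (LL 2 (α + γ) (α - γ)) t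
  have e1 : q / c + S = -((-c * S - q) / c) := by field_simp; ring
  rw [e1, abs_neg, abs_div, abs_of_pos hc0, div_le_iff₀ hc0]
  refine h.trans (le_of_eq ?_)
  rw [aliasS, hc]
  field_simp

/-- the P criterion with certificates and general alias bounds -/
theorem P_cert2 {m : ℕ} (b : Fin m → ℝ) {α γ t1 t0 t δ A1 A0 : ℝ} (hγ : 0 < γ) (hαγ : γ < α)
    (hb : ∀ j, 0 < b j) (hbα : ∀ j, b j ≤ α + γ)
    (hδ : 0 < δ) (h1 : 0 < t1) (h10 : t1 < t0)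
    (n1 : |avgc b (LL 2 (α + γ) (α - γ)) t1 / (4 / (45 * Real.pi) * (α * γ) ^ 3 * δ) +
      ∑' k, gQ b α γ δ t1 k| ≤ A1)
    (n0 : |avgc b (LL 2 (α + γ) (α - γ)) t0 / (4 / (45 * Real.pi) * (α * γ) ^ 3 * δ) +
      ∑' k, gQ b α γ δ t0 k| ≤ A0)
    (hA : ∑' k, gQ b α γ δ t1 k + A1 < 0)
    (hB : ∑' k, gQ b α γ δ t1 k + A1 + A0 < ∑' k, gQ b α γ δ t0 k)
    (ht : t0 ≤ t) (htL : t < α + γ + ∑ j, b j) :
    0 < ∫ x, LL 1 (α + γ) (α - γ) (t + dot x b) ∂(cubeM m) := by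
  have hpi := Real.pi_pos
  have hα : 0 < α := hγ.trans hαγ
  have hc0 : 0 < 4 / (45 * Real.pi) * (α * γ) ^ 3 * δ := by positivity
  have a1 := (abs_le.1 n1).1
  have a0 := (abs_le.1 n0).2
  have q1 : 0 < avgc b (LL 2 (α + γ) (α - γ)) t1 / (4 / (45 * Real.pi) * (α * γ) ^ 3 * δ) := by
    linarith
  have q2 : avgc b (LL 2 (α + γ) (α - γ)) t0 / (4 / (45 * Real.pi) * (α * γ) ^ 3 * δ) <
      avgc b (LL 2 (α + γ) (α - γ)) t1 / (4 / (45 * Real.pi) * (α * γ) ^ 3 * δ) := by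
    linarith
  exact crit_monotone b (by linarith) (by linarith) hb hbα h1 h10
    ((div_pos_iff_of_pos_right hc0).1 q1) ((div_lt_div_iff_of_pos_right hc0).1 q2) ht htL

end Pool.Agent.H60.SL
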