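import Pool.Agent.H60.SL.CkDefs

/-!
# Integer enclosure of `KI` (kernel evaluation)
-/

set_option autoImplicit false

namespace Pool.Agent.H60.SL.Ck

/-- `2^384` -/
def p384 : Nat := 39402006196394479212279040100143613805079739270465446667948293404245721771497210611414266254884915640806627990306816

/-- `2^384 c_i x^i`, `x = E / 2^24`, rounded down -/
def serA (E : Nat) : Nat → Nat → Nat → List Nat
  | 0, _, _ => []
  | n + 1, i, a => a :: serA E n (i + 1) (a * E / (16777216 * ((2 * i + 2) * (2 * i + 5))))

def dot : List Nat → List Nat → Nat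
  | x :: xs, y :: ys => x * y + dot xs ys
  | _, _ => 0

/-- coefficients `2^384 E_m`, rounded down -/
def convL (a : List Nat) : List Nat → List Nat → Nat → List Nat
  | [], _, _ => []
  | y :: ys, rb, m => (5 * dot a (y :: rb)) / ((2 * m + 5) * p384) :: convL a ys (y :: rb) (m + 1)

/-- the 29 coefficients for the corner `(EA, EG)` -/
def kiCoef (EA EG : Nat) : List Nat :=
  convL (serA EA 29 0 p384) (serA EG 29 0 p384) [] 0

/-- `∑ even coefficients` (Horner in `q = k^4`) -/
def hornE (q : Nat) : List Nat → Nat
  | x :: _ :: l => x + q * hornE q l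
  | [x] => x
  | [] => 0

/-- odd coefficients -/
def hornO (q : Nat) : List Nat → Nat
  | _ :: x :: l => x + q * hornO q l
  | _ => 0

/-- lower bound of `2^60 KI`: the first 28 terms; `l` has 29 entries -/
def kiLo (l : List Nat) (k : Nat) : Int :=
  Int.ediv (Int.sub (Int.ofNat (hornE (k ^ 4) (l.take 28)))
    (Int.ofNat (k ^ 2 * hornO (k ^ 4) (l.take 28) + 512 * k ^ 56))) (Int.ofNat 34175792574734561318320347298712833833643272357706444319152665725155515612490248800367393390985216)

/-- upper bound of `2^60 KI`: 29 terms -/
def kiHi (l : List Nat) (k : Nat) : Int :=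
  Int.add (Int.ediv (Int.sub (Int.ofNat (hornE (k ^ 4) l + 512 * k ^ 58))
    (Int.ofNat (k ^ 2 * hornO (k ^ 4) l))) (Int.ofNat 34175792574734561318320347298712833833643272357706444319152665725155515612490248800367393390985216)) 1

end Pool.Agent.H60.SL.Ck
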