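import Pool.Agent.H60.SL.Nu

namespace Pool.Agent.H60.Big
end Pool.Agent.H60.Big

namespace Pool.Agent.H64.Slab
end Pool.Agent.H64.Slab

set_option autoImplicit false

open MeasureTheory Set Filter Topology

namespace Pool.Agent.H60.SL

open Pool.Agent.H64.Slab Pool.Agent.H60.Slab Pool.Agent.H60.Big

theorem log_22 : Real.log 2.2 ≤ 4.84 / 6 := by
  rw [Real.log_le_iff_le_exp (by norm_num)]
  have h := Real.sum_le_exp_of_nonneg (x := 4.84 / 6) (by norm_num) 5
  refine le_trans ?_ h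
  norm_num [Finset.sum_range_succ, Nat.factorial]

/-- `log Z / Z²` is nonincreasing for `Z ≥ 1.65` -/
theorem log_div_sq_anti {z Z : ℝ} (hz : 1.65 ≤ z) (h : z ≤ Z) : Real.log Z * z ^ 2 ≤ Real.log z * Z ^ 2 := by
  have hz0 : 0 < z := by norm_num at hz; linarith
  have hZ0 : 0 < Z := hz0.trans_le h
  -- log Z ≤ log z + (Z/z - 1) etc. via  log t ≤ t - 1
  have he : Real.exp (1 / 2) ≤ z := by
    have h1 : Real.exp (1 / 2) ≤ 1.65 := by
      have : Real.exp (1 / 2) ^ 2 ≤ 1.65 ^ 2 := by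
        rw [← Real.exp_nat_mul]
        norm_num
        have := Real.exp_one_lt_d9
        linarith
      exact (abs_le_of_sq_le_sq' this (by norm_num)).2
    exact h1.trans hz
  have h2 : 1 / 2 ≤ Real.log z := by
    rw [Real.le_log_iff_exp_le hz0]; exact he
  -- with t = Z²/z² ≥ 1 : log Z = log z + (log t)/2 ≤ log z + (t-1)/2 ≤ t log z
  have h3 : Real.log Z = Real.log z + Real.log (Z ^ 2 / z ^ 2) / 2 := by
    rw [Real.log_div (by positivity) (by positivity), Real.log_pow, Real.log_pow]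
    push_cast
    ring
  have h4 : Real.log (Z ^ 2 / z ^ 2) ≤ Z ^ 2 / z ^ 2 - 1 := Real.log_le_sub_one_of_pos (by positivity)
  have h5 : 1 ≤ Z ^ 2 / z ^ 2 := by
    rw [one_le_div (by positivity)]
    exact pow_le_pow_left₀ hz0.le h 2
  have h6 : Real.log Z ≤ Z ^ 2 / z ^ 2 * Real.log z := by
    rw [h3]
    nlinarith
  calc Real.log Z * z ^ 2 ≤ (Z ^ 2 / z ^ 2 * Real.log z) * z ^ 2 :=
        mul_le_mul_of_nonneg_right h6 (by positivity)
    _ = Real.log z * Z ^ 2 := by field_simp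

theorem sinc_abs_le_exp {z : ℝ} (hz : 0 ≤ z) (hz2 : z ≤ 1.65) : |Real.sinc z| ≤ Real.exp (-(z ^ 2 / 6)) := by
  rcases hz.eq_or_lt with e | h0
  · rw [← e]; simp
  · have hpi := Real.pi_gt_d6
    have hzp : z ^ 2 < Real.pi ^ 2 := by
      norm_num at hz2
      nlinarith
    have h := nu_tangent (h := 0) (y := z ^ 2) le_rfl (by positivity) (by positivity) hzp
    rw [nu_zero, dnu_zero, nu_sq h0.le] at h
    have hs : 0 < Real.sinc z := by
      rw [Real.sinc_of_ne_zero h0.ne']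
      exact div_pos (Real.sin_pos_of_pos_of_lt_pi h0 (by norm_num at hz2; linarith)) h0
    rw [abs_of_pos hs, ← Real.log_le_iff_le_exp hs]
    linarith

/-- remainder bound for one factor -/
theorem sinc_rem {z Z : ℝ} (hz : 0 ≤ z) (hzZ : z ≤ Z) (hZ : 2.2 ≤ Z) :
    |Real.sinc z| ≤ Real.exp (-(z ^ 2 / Z ^ 2 * Real.log Z)) := by
  have hZ0 : 0 < Z := by norm_num at hZ; linarith
  rcases le_total z 1.65 with h | h
  · refine (sinc_abs_le_exp hz h).trans ?_
    apply Real.exp_le_exp.2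
    have h1 : Real.log Z * 2.2 ^ 2 ≤ Real.log 2.2 * Z ^ 2 := log_div_sq_anti (by norm_num) hZ
    have h2 := log_22
    have h3 : Real.log Z ≤ Z ^ 2 / 6 := by
      have : Real.log 2.2 * Z ^ 2 ≤ 4.84 / 6 * Z ^ 2 := mul_le_mul_of_nonneg_right h2 (by positivity)
      norm_num at h1 this ⊢
      linarith
    have h4 : z ^ 2 / Z ^ 2 * Real.log Z ≤ z ^ 2 / Z ^ 2 * (Z ^ 2 / 6) :=
      mul_le_mul_of_nonneg_left h3 (by positivity)
    have h5 : z ^ 2 / Z ^ 2 * (Z ^ 2 / 6) = z ^ 2 / 6 := by field_simp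
    linarith
  · have hz0 : 0 < z := by norm_num at h; linarith
    have h1 : |Real.sinc z| ≤ 1 / z := by
      rw [Real.sinc_of_ne_zero hz0.ne', abs_div, abs_of_pos hz0]
      exact div_le_div_of_nonneg_right (Real.abs_sin_le_one z) hz0.le
    have h2 : 1 / z = Real.exp (-Real.log z) := by
      rw [Real.exp_neg, Real.exp_log hz0, one_div]
    rw [h2] at h1
    refine h1.trans (Real.exp_le_exp.2 ?_)
    have h3 := log_div_sq_anti h hzZ
    have h4 : z ^ 2 / Z ^ 2 * Real.log Z ≤ Real.log z := by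
      rw [div_mul_eq_mul_div, div_le_iff₀ (by positivity)]
      linarith
    linarith

/-- remainder bound for the product: `(√cap w)^(-N/cap)` -/
theorem prod_rem {ι : Type*} (S : Finset ι) (b : ι → ℝ) {w r : ℝ} (hb : ∀ j ∈ S, 0 ≤ b j)
    (hbr : ∀ j ∈ S, b j ≤ r) (hw : 0 < w) (hr : 0 < r) (h : 2.2 ≤ r * w) :
    ∏ j ∈ S, |Real.sinc (b j * w)| ≤
      Real.exp (-((∑ j ∈ S, b j ^ 2) / r ^ 2 * Real.log (r * w))) := by
  calc ∏ j ∈ S, |Real.sinc (b j * w)|
      ≤ ∏ j ∈ S, Real.exp (-((b j * w) ^ 2 / (r * w) ^ 2 * Real.log (r * w))) := by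
        apply Finset.prod_le_prod
        · intro j _; exact abs_nonneg _
        · intro j hj
          exact sinc_rem (mul_nonneg (hb j hj) hw.le) (mul_le_mul_of_nonneg_right (hbr j hj) hw.le) h
    _ = Real.exp (∑ j ∈ S, -((b j * w) ^ 2 / (r * w) ^ 2 * Real.log (r * w))) :=
        (Real.exp_sum _ _).symm
    _ = _ := by
        congr 1
        rw [Finset.sum_neg_distrib, ← Finset.sum_mul, Finset.sum_div]
        congr 2
        apply Finset.sum_congr rfl
        intro j _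
        rw [mul_pow, mul_pow]
        field_simp

end Pool.Agent.H60.SL
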