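import Mathlib

/-! Tails of series -/

set_option autoImplicit false

open MeasureTheory Set Filter Topology

namespace Pool.Agent.H60.SL


theorem tail_telescope {f : ℕ → ℝ} {S : ℝ} (h : HasSum f S) (K : ℕ) {g : ℕ → ℝ}
    (hg : Tendsto g atTop (𝓝 0)) (hb : ∀ k, K ≤ k → |f k| ≤ g k - g (k + 1)) :
    |S - ∑ k ∈ Finset.range K, f k| ≤ g K := by
  have h1 := (hasSum_nat_add_iff' (f := f) K).2 h
  have h2 : HasSum (fun k : ℕ => g (k + K) - g (k + K + 1)) (g K) := by
    have hnn : ∀ k, 0 ≤ g (k + K) - g (k + K + 1) := fun k =>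
      (abs_nonneg _).trans (hb (k + K) (by omega))
    rw [hasSum_iff_tendsto_nat_of_nonneg hnn]
    have e : ∀ n, ∑ k ∈ Finset.range n, (g (k + K) - g (k + K + 1)) = g K - g (n + K) := by
      intro n
      induction n with
      | zero => simp
      | succ n ih =>
        rw [Finset.sum_range_succ, ih]
        have : n + K + 1 = n + 1 + K := by ring
        rw [this]
        ring
    simp only [e]
    have h3 : Tendsto (fun n => g (n + K)) atTop (𝓝 0) := hg.comp (tendsto_add_atTop_nat K)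
    have := (tendsto_const_nhds (x := g K)).sub h3
    simpa using this
  have h4 : ‖∑' k, f (k + K)‖ ≤ g K := by
    have := tsum_of_norm_bounded h2 (fun k => by
      rw [Real.norm_eq_abs]
      exact hb (k + K) (by omega))
    exact this
  rw [h1.tsum_eq, Real.norm_eq_abs] at h4
  exact h4

theorem tail_sq {f : ℕ → ℝ} {S : ℝ} (h : HasSum f S) {K : ℕ} (hK : 1 ≤ K) {C : ℝ}
    (hb : ∀ k : ℕ, K ≤ k → |f k| ≤ C / ((k : ℝ) + 1) ^ 2) :
    |S - ∑ k ∈ Finset.range K, f k| ≤ C / K := by
  have hC : 0 ≤ C := by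
    have h1 := (abs_nonneg _).trans (hb K le_rfl)
    by_contra hcon
    have : C / ((K : ℝ) + 1) ^ 2 < 0 := div_neg_of_neg_of_pos (not_le.1 hcon) (by positivity)
    linarith
  apply tail_telescope h K (g := fun k => C / (k : ℝ))
  · exact tendsto_const_div_atTop_nhds_zero_nat C
  · intro k hk
    have hk0 : (0 : ℝ) < k := by exact_mod_cast (by omega : 0 < k)
    refine (hb k hk).trans ?_
    push_cast
    rw [div_sub_div _ _ hk0.ne' (by positivity), div_le_div_iff₀ (by positivity) (by positivity)]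
    have : C * (k + 1) - k * C = C := by ring
    rw [this]
    apply mul_le_mul_of_nonneg_left _ hC
    nlinarith

theorem tail_cube {f : ℕ → ℝ} {S : ℝ} (h : HasSum f S) {K : ℕ} (hK : 1 ≤ K) {C : ℝ}
    (hb : ∀ k : ℕ, K ≤ k → |f k| ≤ C / ((k : ℝ) + 1) ^ 3) :
    |S - ∑ k ∈ Finset.range K, f k| ≤ C / (2 * K ^ 2) := by
  have hC : 0 ≤ C := by
    have h1 := (abs_nonneg _).trans (hb K le_rfl)
    by_contra hcon
    have : C / ((K : ℝ) + 1) ^ 3 < 0 := div_neg_of_neg_of_pos (not_le.1 hcon) (by positivity)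
    linarith
  apply tail_telescope h K (g := fun k => C / (2 * (k : ℝ) ^ 2))
  · have h1 := tendsto_const_div_atTop_nhds_zero_nat C
    have h2 := tendsto_const_div_atTop_nhds_zero_nat (1 / 2 : ℝ)
    have h3 := h1.mul h2
    rw [mul_zero] at h3
    refine h3.congr ?_
    intro n
    rw [div_mul_div_comm]
    rcases eq_or_ne (n : ℝ) 0 with h0 | h0
    · rw [h0]; simp
    · field_simp
  · intro k hk
    have hk0 : (0 : ℝ) < k := by exact_mod_cast (by omega : 0 < k)
    refine (hb k hk).trans ?_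
    push_cast
    rw [div_sub_div _ _ (by positivity) (by positivity), div_le_div_iff₀ (by positivity) (by positivity)]
    have e : (C * (2 * ((k : ℝ) + 1) ^ 2) - 2 * (k : ℝ) ^ 2 * C) * (k + 1) ^ 3 -
        C * (2 * (k : ℝ) ^ 2 * (2 * (k + 1) ^ 2)) =
        C * ((k + 1) ^ 2 * (6 * k + 2)) := by ring
    have : 0 ≤ C * (((k : ℝ) + 1) ^ 2 * (6 * k + 2)) := by positivity
    linarith

end Pool.Agent.H60.SL
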