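import Pool.Agent.H60.SL.CkDefs

/-!
# Sine / cosine at multiples of `N / 800`, tail functions of the flat vectors (kernel evaluation)
-/

set_option autoImplicit false

namespace Pool.Agent.H60.SL.Ck

/-- partial sums of the Taylor series, scaled by `2^160`, rounded down -/
def tayS (c J2 Q : Nat) : Nat → Nat → Nat → Nat → Nat → Nat → Int
  | 0, _, X, Y, B, _ => Int.ediv (Int.sub (Int.ofNat (Y * 1461501637330902918203684832716283019655932542976)) (Int.ofNat (X * 1461501637330902918203684832716283019655932542976))) (Int.ofNat B)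
  | n + 1, i, X, Y, B, t =>
    tayS c J2 Q n (i + 1) (Y * ((2 * i + 1 + c) * (2 * i + 2 + c) * Q) + t * J2)
      (X * ((2 * i + 1 + c) * (2 * i + 2 + c) * Q))
      (B * ((2 * i + 1 + c) * (2 * i + 2 + c) * Q)) (t * J2)

/-- `2^160 sin (N / 800)` and cosine, rounded down (error `≤ 2`), `N ≤ 1826` -/
def sin8 (N : Nat) : Int := tayS 1 (N * N) 640000 25 0 N 0 800 N
def cos8 (N : Nat) : Int := tayS 0 (N * N) 640000 25 0 1 0 1 1

/-- check a predicate for the multiples `k, ..., k + n - 1` -/
def rotChk (p : Nat → Int → Int → Bool) (s1 c1 : Int) : Nat → Nat → Int → Int → Bool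
  | 0, _, _, _ => true
  | n + 1, k, s, c => p k s c && rotChk p s1 c1 n (k + 1)
      (Int.ediv (Int.add (Int.mul s c1) (Int.mul c s1)) (Int.ofNat 1461501637330902918203684832716283019655932542976))
      (Int.ediv (Int.sub (Int.mul c c1) (Int.mul s s1)) (Int.ofNat 1461501637330902918203684832716283019655932542976))

def rotChk2 (p : Nat → Int → Int → Bool) (K : Nat) (s1 c1 : Int) : Bool :=
  rotChk p s1 c1 K 1 s1 c1

/-- the predicate for the multiples `1, ..., K` of `N / 800` -/
def rotAll (p : Nat → Int → Int → Bool) (N K : Nat) : Bool :=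
  rotChk2 p K (sin8 N) (cos8 N)

/-- `g ≤ 2^32 |sin| / k ≤ g + 1`, sign `+` if `sg` -/
def pSin (sg : Nat → Bool) (g : Nat → Nat) (k : Nat) (s _c : Int) : Bool :=
  bif sg k then
    le (Int.ofNat (k * g k * 340282366920938463463374607431768211456 + 1237940039285380274899124224)) s &&
    le (Int.add s (Int.ofNat 1237940039285380274899124224)) (Int.ofNat (k * (g k + 1) * 340282366920938463463374607431768211456))
  else
    le (Int.ofNat (k * g k * 340282366920938463463374607431768211456 + 1237940039285380274899124224)) (Int.neg s) &&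
    le (Int.add (Int.neg s) (Int.ofNat 1237940039285380274899124224)) (Int.ofNat (k * (g k + 1) * 340282366920938463463374607431768211456))

/-- `g ≤ 2^40 cos ≤ g + 1` -/
def pCos (g : Nat → Int) (k : Nat) (_s c : Int) : Bool :=
  le (Int.add (Int.mul (g k) (Int.ofNat 1329227995784915872903807060280344576)) (Int.ofNat 1237940039285380274899124224)) c &&
  le (Int.add c (Int.ofNat 1237940039285380274899124224)) (Int.mul (Int.add (g k) 1) (Int.ofNat 1329227995784915872903807060280344576))

end Pool.Agent.H60.SL.Ck
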