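import Pool.Agent.H60.SL.CkDefs
import Mathlib.Data.Nat.Choose.Basic

/-!
# Tail functions of the flat vectors and thresholds (kernel evaluation)
-/

set_option autoImplicit false

namespace Pool.Agent.H60.SL.Ck

/-- alternating sum `C(q,j) f_j^e - C(q,j+1) g_{j+1}^e + ...`, `n` terms -/
def altS (f g : Nat → Nat) (q e : Nat) : Nat → Nat → Int
  | 0, _ => 0
  | n + 1, j => Int.sub (Int.ofNat (Nat.choose q j * f j ^ e)) (altS g f q e n (j + 1))

/-- `2^80 * 2000` times the positive part of `q - 2 j - √q N / 2000`, from below and above;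
`r = ⌊2^80 √q⌋` -/
def yL (q r N j : Nat) : Nat := q * 2417851639229258349412352000 - (2 * j * 2417851639229258349412352000 + (r + 1) * N)
def yU (q r N j : Nat) : Nat := q * 2417851639229258349412352000 - (2 * j * 2417851639229258349412352000 + r * N)

def tauOK (q r h tA tB P : Nat) (SL DL DU : Int) : Bool :=
  nn DL &&
  le (Int.ofNat (tA * P)) (Int.mul 2199023255552 (Int.add SL (Int.mul (Int.ofNat (r * q * h)) DL))) &&
  le (Int.ofNat (tB * P)) (Int.mul 2199023255552 (Int.sub SL (Int.mul (Int.ofNat ((r + 1) * q * h)) DU)))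

/-- tangent of the tail function of the flat vector at the midpoint of `[A/1000, B/1000]` -/
def chkTau (q r A B tA tB : Nat) : Bool :=
  Nat.ble (r * r) (q * 1461501637330902918203684832716283019655932542976) &&
  Nat.ble (q * 1461501637330902918203684832716283019655932542976) ((r + 1) * (r + 1)) &&
  tauOK q r (B - A) tA tB (2 ^ q * Nat.factorial q * 2417851639229258349412352000 ^ q)
    (altS (yL q r (A + B)) (yU q r (A + B)) q q (q + 1) 0)
    (altS (yL q r (A + B)) (yU q r (A + B)) q (q - 1) (q + 1) 0)
    (altS (yU q r (A + B)) (yL q r (A + B)) q (q - 1) (q + 1) 0)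

/-- lower bound of `2^72 * 3/2 * (8 π / 5 - N / 1000)^2` -/
def aliR (N : Nat) : Nat :=
  (3 * (1600 * 3797952473636338580784797 - N * 1208925819614629174706176) ^ 2) / (1000000 * 618970019642690137449562112)

/-- threshold for the node `N / 1000` -/
def chkThr (N tau thr : Nat) : Bool :=
  Nat.ble N 1830 && Nat.ble tau 1099511627776 &&
  Nat.ble (1600 * 3797952473636338580796888 * (1152921504606846976 + 2 * expU (aliR N) - tau * 1048576))
    (1600 * thr * 590295810358705651712 + N * 2787593149816327892691964784081045188247552)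

end Pool.Agent.H60.SL.Ck
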