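import Mathlib

/-! Taylor polynomials of `cos` and `sin` -/

set_option autoImplicit false

open MeasureTheory Set Filter Topology

namespace Pool.Agent.H60.SL

/-- Taylor polynomials of `cos` and `sin`, `n` terms -/
noncomputable def Cn (n : ℕ) (y : ℝ) : ℝ :=
  ∑ j ∈ Finset.range n, (-1) ^ j * y ^ (2 * j) / ((2 * j).factorial : ℝ)

noncomputable def Sn (n : ℕ) (y : ℝ) : ℝ :=
  ∑ j ∈ Finset.range n, (-1) ^ j * y ^ (2 * j + 1) / ((2 * j + 1).factorial : ℝ)

theorem Cn_continuous (n : ℕ) : Continuous (Cn n) := by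
  unfold Cn
  fun_prop

theorem Cn_zero (n : ℕ) : Cn (n + 1) 0 = 1 := by
  unfold Cn
  rw [Finset.sum_range_succ']
  simp

theorem Sn_zero (n : ℕ) : Sn n 0 = 0 := by
  unfold Sn
  simp

theorem Sn_hasDerivAt (n : ℕ) (y : ℝ) : HasDerivAt (Sn n) (Cn n y) y := by
  unfold Sn Cn
  apply HasDerivAt.fun_sum
  intro j _
  have h := (((hasDerivAt_pow (2 * j + 1) y).const_mul ((-1 : ℝ) ^ j)).div_const
    ((2 * j + 1).factorial : ℝ))
  refine h.congr_deriv ?_
  rw [Nat.add_sub_cancel, Nat.factorial_succ (2 * j)]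
  have : ((2 * j).factorial : ℝ) ≠ 0 := by positivity
  have h2 : ((2 * j + 1 : ℕ) : ℝ) ≠ 0 := by positivity
  push_cast at h2 ⊢
  field_simp

theorem Cn_hasDerivAt (n : ℕ) (y : ℝ) : HasDerivAt (Cn (n + 1)) (-Sn n y) y := by
  have e : Cn (n + 1) = fun y => (∑ j ∈ Finset.range n, (-1) ^ (j + 1) * y ^ (2 * j + 2) /
      ((2 * j + 2).factorial : ℝ)) + 1 := by
    ext y
    unfold Cn
    rw [Finset.sum_range_succ']
    simp only [mul_zero, pow_zero, Nat.factorial_zero, Nat.cast_one, mul_one, div_one]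
    congr 1
  rw [e]
  have e2 : -Sn n y = ∑ j ∈ Finset.range n, (-1) ^ (j + 1) * y ^ (2 * j + 1) /
      ((2 * j + 1).factorial : ℝ) := by
    unfold Sn
    rw [← Finset.sum_neg_distrib]
    apply Finset.sum_congr rfl
    intro j _
    rw [pow_succ]
    ring
  rw [e2]
  apply HasDerivAt.add_const
  apply HasDerivAt.fun_sum
  intro j _
  have h := (((hasDerivAt_pow (2 * j + 2) y).const_mul ((-1 : ℝ) ^ (j + 1))).div_const
    ((2 * j + 2).factorial : ℝ))
  refine h.congr_deriv ?_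
  rw [show 2 * j + 2 - 1 = 2 * j + 1 by omega, Nat.factorial_succ (2 * j + 1)]
  have : ((2 * j + 1).factorial : ℝ) ≠ 0 := by positivity
  have h2 : ((2 * j + 2 : ℕ) : ℝ) ≠ 0 := by positivity
  push_cast at h2 ⊢
  have h3 : (2 * (j : ℝ) + 1 + 1) ≠ 0 := by
    intro h; apply h2; linarith
  field_simp
  ring

/-- monotone from the derivative on `[0, ∞)` -/
theorem nonneg_of_deriv {f f' : ℝ → ℝ} (hf : ∀ x, HasDerivAt f (f' x) x) (h0 : 0 ≤ f 0)
    (h : ∀ x, 0 ≤ x → 0 ≤ f' x) {x : ℝ} (hx : 0 ≤ x) : 0 ≤ f x := by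
  have hmono : MonotoneOn f (Ici 0) := by
    apply monotoneOn_of_deriv_nonneg (convex_Ici 0)
    · exact fun y _ => (hf y).continuousAt.continuousWithinAt
    · exact fun y _ => (hf y).differentiableAt.differentiableWithinAt
    · intro y hy
      rw [interior_Ici] at hy
      rw [(hf y).deriv]
      exact h y (le_of_lt hy)
  exact h0.trans (hmono (Set.mem_Ici.2 le_rfl) (Set.mem_Ici.2 hx) hx)

theorem env_step (n : ℕ) (h : ∀ y : ℝ, 0 ≤ y → 0 ≤ (-1) ^ (n + 1) * (Real.cos y - Cn (n + 1) y)) :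
    ∀ y : ℝ, 0 ≤ y → 0 ≤ (-1) ^ (n + 1) * (Real.sin y - Sn (n + 1) y) := by
  intro y hy
  apply nonneg_of_deriv (f := fun y => (-1) ^ (n + 1) * (Real.sin y - Sn (n + 1) y))
    (f' := fun y => (-1) ^ (n + 1) * (Real.cos y - Cn (n + 1) y)) _ _ h hy
  · intro x
    exact ((Real.hasDerivAt_sin x).sub (Sn_hasDerivAt (n + 1) x)).const_mul _
  · simp [Sn_zero]

theorem cos_env' : ∀ n : ℕ, ∀ y : ℝ, 0 ≤ y → 0 ≤ (-1) ^ (n + 1) * (Real.cos y - Cn (n + 1) y) := by
  intro n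
  induction n with
  | zero =>
    intro y _
    simp only [zero_add, pow_one, Cn, Finset.sum_range_one, mul_zero, pow_zero, Nat.factorial_zero,
      Nat.cast_one, mul_one, div_one]
    linarith [Real.cos_le_one y]
  | succ n ih =>
    intro y hy
    have hs := env_step n ih
    apply nonneg_of_deriv (f := fun y => (-1) ^ (n + 1 + 1) * (Real.cos y - Cn (n + 1 + 1) y))
      (f' := fun y => (-1) ^ (n + 1) * (Real.sin y - Sn (n + 1) y)) _ _ hs hy
    · intro x
      have := ((Real.hasDerivAt_cos x).sub (Cn_hasDerivAt (n + 1) x)).const_mul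
        ((-1 : ℝ) ^ (n + 1 + 1))
      refine this.congr_deriv ?_
      rw [pow_succ (-1 : ℝ) (n + 1)]
      ring
    · simp [Cn_zero]

/-- enveloping property of the Taylor polynomials of `cos`, `n ≥ 1` terms, `y ≥ 0` -/
theorem cos_env {n : ℕ} (hn : 1 ≤ n) {y : ℝ} (hy : 0 ≤ y) : 0 ≤ (-1) ^ n * (Real.cos y - Cn n y) := by
  obtain ⟨k, rfl⟩ : ∃ k, n = k + 1 := ⟨n - 1, by omega⟩
  exact cos_env' k y hy

theorem sin_env {n : ℕ} (hn : 1 ≤ n) {y : ℝ} (hy : 0 ≤ y) : 0 ≤ (-1) ^ n * (Real.sin y - Sn n y) := by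
  obtain ⟨k, rfl⟩ : ∃ k, n = k + 1 := ⟨n - 1, by omega⟩
  exact env_step k (cos_env' k) y hy

theorem cos_lower (m : ℕ) (hm : 1 ≤ m) {y : ℝ} (hy : 0 ≤ y) : Cn (2 * m) y ≤ Real.cos y := by
  have := cos_env (n := 2 * m) (by omega) hy
  rw [pow_mul] at this
  norm_num at this
  linarith

theorem cos_upper (m : ℕ) {y : ℝ} (hy : 0 ≤ y) : Real.cos y ≤ Cn (2 * m + 1) y := by
  have := cos_env (n := 2 * m + 1) (by omega) hy
  rw [pow_succ, pow_mul] at this
  norm_num at this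
  linarith

theorem sin_lower (m : ℕ) (hm : 1 ≤ m) {y : ℝ} (hy : 0 ≤ y) : Sn (2 * m) y ≤ Real.sin y := by
  have := sin_env (n := 2 * m) (by omega) hy
  rw [pow_mul] at this
  norm_num at this
  linarith

theorem sin_upper (m : ℕ) {y : ℝ} (hy : 0 ≤ y) : Real.sin y ≤ Sn (2 * m + 1) y := by
  have := sin_env (n := 2 * m + 1) (by omega) hy
  rw [pow_succ, pow_mul] at this
  norm_num at this
  linarith

end Pool.Agent.H60.SL
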