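import Pool.Agent.H60.SL.CkDefs
import Pool.Agent.H60.SL.Env0

set_option autoImplicit false

namespace Pool.Agent.H60.SL.Ck

/-- real version of `tay` -/
noncomputable def gR (c : ℕ) (z : ℝ) : ℕ → ℕ → ℝ → ℝ → ℝ → ℝ
  | 0, _, x, y, _ => y - x
  | n + 1, i, x, y, t => gR c z n (i + 1)
      (y + t * (z ^ 2 / ((2 * i + 1 + c) * (2 * i + 2 + c)))) x
      (t * (z ^ 2 / ((2 * i + 1 + c) * (2 * i + 2 + c))))

theorem tay_real (c J2 Q : ℕ) (hQ : 0 < Q) {z : ℝ} (hz : z ^ 2 = (J2 : ℝ) / Q) :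
    ∀ (n i X Y B t : ℕ), 0 < B →
    (tay c J2 Q n i X Y B t : ℝ) ≤ 2 ^ 96 * gR c z n i ((X : ℝ) / B) ((Y : ℝ) / B) ((t : ℝ) / B) ∧
    2 ^ 96 * gR c z n i ((X : ℝ) / B) ((Y : ℝ) / B) ((t : ℝ) / B) ≤ (tay c J2 Q n i X Y B t : ℝ) + 1
  | 0, i, X, Y, B, t, hB => by
    have hB' : (0 : ℝ) < B := by exact_mod_cast hB
    have ht : tay c J2 Q 0 i X Y B t = (((Y * 79228162514264337593543950336 : ℕ) : ℤ) -
      ((X * 79228162514264337593543950336 : ℕ) : ℤ)) / (B : ℤ) := rfl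
    rw [ht, gR]
    set A : ℤ := ((Y * 79228162514264337593543950336 : ℕ) : ℤ) -
      ((X * 79228162514264337593543950336 : ℕ) : ℤ) with hA
    have e : (2 : ℝ) ^ 96 * ((Y : ℝ) / B - (X : ℝ) / B) = (A : ℝ) / (B : ℝ) := by
      rw [hA]
      push_cast
      field_simp
      ring
    rw [e]
    have h1 := Int.ediv_mul_le A (b := (B : ℤ)) (by exact_mod_cast hB.ne')
    have h2 := Int.lt_ediv_add_one_mul_self A (b := (B : ℤ)) (by exact_mod_cast hB)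
    constructor
    · rw [le_div_iff₀ hB']
      exact_mod_cast h1
    · rw [div_le_iff₀ hB']
      exact_mod_cast h2.le
  | n + 1, i, X, Y, B, t, hB => by
    rw [tay, gR]
    have hq : 0 < (2 * i + 1 + c) * (2 * i + 2 + c) * Q := by positivity
    have hB' : (0 : ℝ) < B := by exact_mod_cast hB
    have hQ' : (0 : ℝ) < Q := by exact_mod_cast hQ
    have h := tay_real c J2 Q hQ hz n (i + 1) (Y * ((2 * i + 1 + c) * (2 * i + 2 + c) * Q) + t * J2)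
      (X * ((2 * i + 1 + c) * (2 * i + 2 + c) * Q))
      (B * ((2 * i + 1 + c) * (2 * i + 2 + c) * Q)) (t * J2) (Nat.mul_pos hB hq)
    have h1 : (0 : ℝ) < (2 * (i : ℝ) + 1 + c) := by positivity
    have h2 : (0 : ℝ) < (2 * (i : ℝ) + 2 + c) := by positivity
    have e1 : ((Y * ((2 * i + 1 + c) * (2 * i + 2 + c) * Q) + t * J2 : ℕ) : ℝ) /
        ((B * ((2 * i + 1 + c) * (2 * i + 2 + c) * Q) : ℕ) : ℝ) =
        (Y : ℝ) / B + (t : ℝ) / B * (z ^ 2 / ((2 * i + 1 + c) * (2 * i + 2 + c))) := by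
      rw [hz]; push_cast; field_simp
    have e2 : ((X * ((2 * i + 1 + c) * (2 * i + 2 + c) * Q) : ℕ) : ℝ) /
        ((B * ((2 * i + 1 + c) * (2 * i + 2 + c) * Q) : ℕ) : ℝ) = (X : ℝ) / B := by
      push_cast; field_simp
    have e3 : ((t * J2 : ℕ) : ℝ) / ((B * ((2 * i + 1 + c) * (2 * i + 2 + c) * Q) : ℕ) : ℝ) =
        (t : ℝ) / B * (z ^ 2 / ((2 * i + 1 + c) * (2 * i + 2 + c))) := by
      rw [hz]; push_cast; field_simp
    rw [e1, e2, e3] at h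
    exact h

/-- terms -/
noncomputable def TT (c : ℕ) (z : ℝ) (j : ℕ) : ℝ := z ^ (2 * j + c) / ((2 * j + c).factorial : ℝ)

theorem TT_succ (c : ℕ) (z : ℝ) (i : ℕ) :
    TT c z i * (z ^ 2 / ((2 * i + 1 + c) * (2 * i + 2 + c))) = TT c z (i + 1) := by
  unfold TT
  have e : 2 * (i + 1) + c = (2 * i + c) + 1 + 1 := by ring
  rw [e, Nat.factorial_succ, Nat.factorial_succ]
  have h : (((2 * i + c).factorial : ℕ) : ℝ) ≠ 0 := by positivity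
  push_cast
  have h1 : (2 * (i : ℝ) + c + 1) ≠ 0 := by positivity
  have h2 : (2 * (i : ℝ) + c + 1 + 1) ≠ 0 := by positivity
  have h3 : (2 * (i : ℝ) + 1 + c) ≠ 0 := by positivity
  have h4 : (2 * (i : ℝ) + 2 + c) ≠ 0 := by positivity
  field_simp
  ring

theorem gR_eq (c : ℕ) (z : ℝ) : ∀ (n i : ℕ) (x y : ℝ), gR c z n i x y (TT c z i) =
    (-1) ^ n * (y - x) - ∑ l ∈ Finset.range n, (-1) ^ (n - 1 - l) * TT c z (i + 1 + l)
  | 0, i, x, y => by simp [gR]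
  | n + 1, i, x, y => by
    rw [gR, TT_succ, gR_eq c z n (i + 1), Finset.sum_range_succ']
    have e : ∀ l ∈ Finset.range n, (-1 : ℝ) ^ (n + 1 - 1 - (l + 1)) * TT c z (i + 1 + (l + 1)) =
        (-1) ^ (n - 1 - l) * TT c z (i + 1 + 1 + l) := by
      intro l _
      congr 2
      · omega
      · ring
    rw [Finset.sum_congr rfl e]
    have e2 : n + 1 - 1 - 0 = n := by omega
    rw [e2, add_zero]
    ring

/-- the alternating sum of an even number of terms -/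
theorem gR_init (c : ℕ) (z : ℝ) (m : ℕ) : gR c z (2 * m + 1) 0 (TT c z 0) 0 (TT c z 0) =
    ∑ j ∈ Finset.range (2 * m + 2), (-1) ^ j * TT c z j := by
  rw [gR_eq, Finset.sum_range_succ' _ (2 * m + 1)]
  have e : ∀ l ∈ Finset.range (2 * m + 1), (-1 : ℝ) ^ (2 * m + 1 - 1 - l) * TT c z (0 + 1 + l) =
      -((-1) ^ (l + 1) * TT c z (l + 1)) := by
    intro l hl
    rw [Finset.mem_range] at hl
    have h1 : (-1 : ℝ) ^ (2 * m + 1 - 1 - l) = (-1) ^ l := by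
      have : 2 * m + 1 - 1 - l + l = 2 * m := by omega
      have h2 : (-1 : ℝ) ^ (2 * m + 1 - 1 - l) * (-1) ^ l = 1 := by
        rw [← pow_add, this, pow_mul]; norm_num
      have h3 : (-1 : ℝ) ^ l * (-1) ^ l = 1 := by
        rw [← pow_add, ← two_mul, pow_mul]; norm_num
      have h4 : (-1 : ℝ) ^ l ≠ 0 := by positivity
      exact mul_right_cancel₀ h4 (h2.trans h3.symm)
    rw [h1, show 0 + 1 + l = l + 1 by ring]
    ring
  rw [Finset.sum_congr rfl e, Finset.sum_neg_distrib]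
  have : (-1 : ℝ) ^ (2 * m + 1) = -1 := by rw [pow_succ, pow_mul]; norm_num
  rw [this]
  ring

theorem pow_four (b : ℕ) : ((2 ^ b * 2 ^ b : ℕ) : ℝ) = (2 : ℝ) ^ b * 2 ^ b := by push_cast; ring

/-- `sinv` encloses the sine -/
theorem sinv_bounds {J b m : ℕ}
    (hT : ((J : ℝ) / 2 ^ b) ^ (4 * m + 5) / ((4 * m + 5).factorial : ℝ) * 2 ^ 96 ≤ 1) :
    (sinv J b (2 * m + 1) : ℝ) ≤ 2 ^ 96 * Real.sin ((J : ℝ) / 2 ^ b) ∧
    2 ^ 96 * Real.sin ((J : ℝ) / 2 ^ b) ≤ (sinv J b (2 * m + 1) : ℝ) + 2 := by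
  set z : ℝ := (J : ℝ) / 2 ^ b with hz
  have hz0 : 0 ≤ z := by positivity
  have hz2 : z ^ 2 = ((J * J : ℕ) : ℝ) / ((2 ^ b * 2 ^ b : ℕ) : ℝ) := by
    rw [hz, pow_four, div_pow]; push_cast; ring
  have h := tay_real 1 (J * J) (2 ^ b * 2 ^ b) (by positivity) hz2 (2 * m + 1) 0 J 0 (2 ^ b) J (by positivity)
  have e0 : ((J : ℕ) : ℝ) / ((2 ^ b : ℕ) : ℝ) = TT 1 z 0 := by
    unfold TT
    simp [hz]
  have e1 : ((0 : ℕ) : ℝ) / ((2 ^ b : ℕ) : ℝ) = 0 := by simp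
  rw [e0, e1, gR_init] at h
  have e2 : ∑ j ∈ Finset.range (2 * m + 2), (-1) ^ j * TT 1 z j = Sn (2 * (m + 1)) z := by
    unfold Sn
    refine Finset.sum_congr (by ring_nf) fun j _ => ?_
    unfold TT
    rw [mul_div_assoc]
  rw [e2] at h
  have hl := sin_lower (m + 1) (by omega) hz0
  have hu := sin_upper (m + 1) hz0
  have e3 : Sn (2 * (m + 1) + 1) z = Sn (2 * (m + 1)) z + z ^ (4 * m + 5) / ((4 * m + 5).factorial : ℝ) := by
    conv_lhs => unfold Sn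
    rw [Finset.sum_range_succ]
    congr 1
    have : (-1 : ℝ) ^ (2 * (m + 1)) = 1 := by rw [pow_mul]; norm_num
    rw [this, one_mul, show 2 * (2 * (m + 1)) + 1 = 4 * m + 5 by ring]
  rw [e3] at hu
  have hs : sinv J b (2 * m + 1) = tay 1 (J * J) (2 ^ b * 2 ^ b) (2 * m + 1) 0 J 0 (2 ^ b) J := rfl
  rw [hs]
  constructor
  · refine h.1.trans ?_
    exact mul_le_mul_of_nonneg_left hl (by positivity)
  · have h5 := mul_le_mul_of_nonneg_left hu (by positivity : (0 : ℝ) ≤ 2 ^ 96)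
    have h6 := h.2
    nlinarith

/-- `cosv` encloses the cosine -/
theorem cosv_bounds {J b m : ℕ}
    (hT : ((J : ℝ) / 2 ^ b) ^ (4 * m + 4) / ((4 * m + 4).factorial : ℝ) * 2 ^ 96 ≤ 1) :
    (cosv J b (2 * m + 1) : ℝ) ≤ 2 ^ 96 * Real.cos ((J : ℝ) / 2 ^ b) ∧
    2 ^ 96 * Real.cos ((J : ℝ) / 2 ^ b) ≤ (cosv J b (2 * m + 1) : ℝ) + 2 := by
  set z : ℝ := (J : ℝ) / 2 ^ b with hz
  have hz0 : 0 ≤ z := by positivity
  have hz2 : z ^ 2 = ((J * J : ℕ) : ℝ) / ((2 ^ b * 2 ^ b : ℕ) : ℝ) := by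
    rw [hz, pow_four, div_pow]; push_cast; ring
  have h := tay_real 0 (J * J) (2 ^ b * 2 ^ b) (by positivity) hz2 (2 * m + 1) 0 1 0 1 1 (by positivity)
  have e0 : ((1 : ℕ) : ℝ) / ((1 : ℕ) : ℝ) = TT 0 z 0 := by
    unfold TT
    simp
  have e1 : ((0 : ℕ) : ℝ) / ((1 : ℕ) : ℝ) = 0 := by simp
  rw [e0, e1, gR_init] at h
  have e2 : ∑ j ∈ Finset.range (2 * m + 2), (-1) ^ j * TT 0 z j = Cn (2 * (m + 1)) z := by
    unfold Cn
    refine Finset.sum_congr (by ring_nf) fun j _ => ?_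
    unfold TT
    rw [mul_div_assoc, add_zero]
  rw [e2] at h
  have hl := cos_lower (m + 1) (by omega) hz0
  have hu := cos_upper (m + 1) hz0
  have e3 : Cn (2 * (m + 1) + 1) z = Cn (2 * (m + 1)) z + z ^ (4 * m + 4) / ((4 * m + 4).factorial : ℝ) := by
    conv_lhs => unfold Cn
    rw [Finset.sum_range_succ]
    congr 1
    have : (-1 : ℝ) ^ (2 * (m + 1)) = 1 := by rw [pow_mul]; norm_num
    rw [this, one_mul, show 2 * (2 * (m + 1)) = 4 * m + 4 by ring]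
  rw [e3] at hu
  have hs : cosv J b (2 * m + 1) = tay 0 (J * J) (2 ^ b * 2 ^ b) (2 * m + 1) 0 1 0 1 1 := rfl
  rw [hs]
  constructor
  · refine h.1.trans ?_
    exact mul_le_mul_of_nonneg_left hl (by positivity)
  · have h5 := mul_le_mul_of_nonneg_left hu (by positivity : (0 : ℝ) ≤ 2 ^ 96)
    have h6 := h.2
    nlinarith

/-- tail condition, monotone in the argument -/
theorem tail_mono {J Jm b N : ℕ} (hJ : J ≤ Jm)
    (h : Jm ^ N * 2 ^ 96 ≤ N.factorial * 2 ^ (b * N)) :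
    ((J : ℝ) / 2 ^ b) ^ N / (N.factorial : ℝ) * 2 ^ 96 ≤ 1 := by
  have h1 : (J : ℝ) ^ N ≤ (Jm : ℝ) ^ N := pow_le_pow_left₀ (Nat.cast_nonneg J) (by exact_mod_cast hJ) N
  have h2 : (Jm : ℝ) ^ N * 2 ^ 96 ≤ (N.factorial : ℝ) * 2 ^ (b * N) := by exact_mod_cast h
  rw [div_pow, ← pow_mul, div_div, div_mul_eq_mul_div, div_le_one (by positivity)]
  nlinarith [h1, h2]

theorem sin1 {J : ℕ} (hJ : J ≤ 790) :
    (sinv J 8 21 : ℝ) ≤ 2 ^ 96 * Real.sin ((J : ℝ) / 2 ^ 8) ∧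
    2 ^ 96 * Real.sin ((J : ℝ) / 2 ^ 8) ≤ (sinv J 8 21 : ℝ) + 2 :=
  sinv_bounds (m := 10) (tail_mono hJ (by decide +kernel))

theorem cos1 {J : ℕ} (hJ : J ≤ 790) :
    (cosv J 8 21 : ℝ) ≤ 2 ^ 96 * Real.cos ((J : ℝ) / 2 ^ 8) ∧
    2 ^ 96 * Real.cos ((J : ℝ) / 2 ^ 8) ≤ (cosv J 8 21 : ℝ) + 2 :=
  cosv_bounds (m := 10) (tail_mono hJ (by decide +kernel))

theorem sin2 {J : ℕ} (hJ : J ≤ 702) :
    (sinv J 5 55 : ℝ) ≤ 2 ^ 96 * Real.sin ((J : ℝ) / 2 ^ 5) ∧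
    2 ^ 96 * Real.sin ((J : ℝ) / 2 ^ 5) ≤ (sinv J 5 55 : ℝ) + 2 :=
  sinv_bounds (m := 27) (tail_mono hJ (by decide +kernel))

theorem cos2 {J : ℕ} (hJ : J ≤ 702) :
    (cosv J 5 55 : ℝ) ≤ 2 ^ 96 * Real.cos ((J : ℝ) / 2 ^ 5) ∧
    2 ^ 96 * Real.cos ((J : ℝ) / 2 ^ 5) ≤ (cosv J 5 55 : ℝ) + 2 :=
  cosv_bounds (m := 27) (tail_mono hJ (by decide +kernel))

end Pool.Agent.H60.SL.Ck
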