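import Pool.Agent.H60.SL.CkBasic
import Pool.Agent.H60.SL.CkRotDefs
import Pool.Agent.H60.SL.CkTay

set_option autoImplicit false

namespace Pool.Agent.H60.SL.Ck

theorem tayS_real (c J2 Q : ℕ) (hQ : 0 < Q) {z : ℝ} (hz : z ^ 2 = (J2 : ℝ) / Q) :
    ∀ (n i X Y B t : ℕ), 0 < B →
    (tayS c J2 Q n i X Y B t : ℝ) ≤ 2 ^ 160 * gR c z n i ((X : ℝ) / B) ((Y : ℝ) / B) ((t : ℝ) / B) ∧
    2 ^ 160 * gR c z n i ((X : ℝ) / B) ((Y : ℝ) / B) ((t : ℝ) / B) ≤ (tayS c J2 Q n i X Y B t : ℝ) + 1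
  | 0, i, X, Y, B, t, hB => by
    have hB' : (0 : ℝ) < B := by exact_mod_cast hB
    have ht : tayS c J2 Q 0 i X Y B t = (((Y * 1461501637330902918203684832716283019655932542976 : ℕ) : ℤ) -
      ((X * 1461501637330902918203684832716283019655932542976 : ℕ) : ℤ)) / (B : ℤ) := rfl
    rw [ht, gR]
    set A : ℤ := ((Y * 1461501637330902918203684832716283019655932542976 : ℕ) : ℤ) -
      ((X * 1461501637330902918203684832716283019655932542976 : ℕ) : ℤ) with hA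
    have e : (2 : ℝ) ^ 160 * ((Y : ℝ) / B - (X : ℝ) / B) = (A : ℝ) / (B : ℝ) := by
      rw [hA]
      push_cast
      field_simp
      ring
    rw [e]
    have h1 := Int.ediv_mul_le A (b := (B : ℤ)) (by exact_mod_cast hB.ne')
    have h2 := Int.lt_ediv_add_one_mul_self A (b := (B : ℤ)) (by exact_mod_cast hB)
    constructor
    · rw [le_div_iff₀ hB']
      exact_mod_cast h1
    · rw [div_le_iff₀ hB']
      exact_mod_cast h2.le
  | n + 1, i, X, Y, B, t, hB => by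
    rw [tayS, gR]
    have hq : 0 < (2 * i + 1 + c) * (2 * i + 2 + c) * Q := by positivity
    have hB' : (0 : ℝ) < B := by exact_mod_cast hB
    have hQ' : (0 : ℝ) < Q := by exact_mod_cast hQ
    have h := tayS_real c J2 Q hQ hz n (i + 1) (Y * ((2 * i + 1 + c) * (2 * i + 2 + c) * Q) + t * J2)
      (X * ((2 * i + 1 + c) * (2 * i + 2 + c) * Q))
      (B * ((2 * i + 1 + c) * (2 * i + 2 + c) * Q)) (t * J2) (Nat.mul_pos hB hq)
    have h1 : (0 : ℝ) < (2 * (i : ℝ) + 1 + c) := by positivity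
    have h2 : (0 : ℝ) < (2 * (i : ℝ) + 2 + c) := by positivity
    have e1 : ((Y * ((2 * i + 1 + c) * (2 * i + 2 + c) * Q) + t * J2 : ℕ) : ℝ) /
        ((B * ((2 * i + 1 + c) * (2 * i + 2 + c) * Q) : ℕ) : ℝ) =
        (Y : ℝ) / B + (t : ℝ) / B * (z ^ 2 / ((2 * i + 1 + c) * (2 * i + 2 + c))) := by
      rw [hz]; push_cast; field_simp
    have e2 : ((X * ((2 * i + 1 + c) * (2 * i + 2 + c) * Q) : ℕ) : ℝ) /
        ((B * ((2 * i + 1 + c) * (2 * i + 2 + c) * Q) : ℕ) : ℝ) = (X : ℝ) / B := by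
      push_cast; field_simp
    have e3 : ((t * J2 : ℕ) : ℝ) / ((B * ((2 * i + 1 + c) * (2 * i + 2 + c) * Q) : ℕ) : ℝ) =
        (t : ℝ) / B * (z ^ 2 / ((2 * i + 1 + c) * (2 * i + 2 + c))) := by
      rw [hz]; push_cast; field_simp
    rw [e1, e2, e3] at h
    exact h

theorem tail8 {N M : ℕ} (hN : N ≤ 1826) (h : 1826 ^ M * 2 ^ 160 ≤ M.factorial * 800 ^ M) :
    ((N : ℝ) / 800) ^ M / (M.factorial : ℝ) * 2 ^ 160 ≤ 1 := by
  have h1 : (N : ℝ) ^ M ≤ (1826 : ℝ) ^ M :=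
    pow_le_pow_left₀ (Nat.cast_nonneg N) (by exact_mod_cast hN) M
  have h2 : (1826 : ℝ) ^ M * 2 ^ 160 ≤ (M.factorial : ℝ) * 800 ^ M := by exact_mod_cast h
  rw [div_pow, div_div, div_mul_eq_mul_div, div_le_one (by positivity)]
  nlinarith [h1, h2]

theorem sin8_bounds {N : ℕ} (hN : N ≤ 1826) :
    (sin8 N : ℝ) ≤ 2 ^ 160 * Real.sin ((N : ℝ) / 800) ∧
    2 ^ 160 * Real.sin ((N : ℝ) / 800) ≤ (sin8 N : ℝ) + 2 := by
  have hT : ((N : ℝ) / 800) ^ (4 * 12 + 5) / ((4 * 12 + 5).factorial : ℝ) * 2 ^ 160 ≤ 1 :=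
    tail8 hN (by decide +kernel)
  set z : ℝ := (N : ℝ) / 800 with hz
  have hz0 : 0 ≤ z := by positivity
  have hz2 : z ^ 2 = ((N * N : ℕ) : ℝ) / ((640000 : ℕ) : ℝ) := by
    rw [hz, div_pow]; push_cast; ring
  have h := tayS_real 1 (N * N) 640000 (by positivity) hz2 (2 * 12 + 1) 0 N 0 800 N (by positivity)
  have e0 : ((N : ℕ) : ℝ) / ((800 : ℕ) : ℝ) = TT 1 z 0 := by
    unfold TT
    simp [hz]
  have e1 : ((0 : ℕ) : ℝ) / ((800 : ℕ) : ℝ) = 0 := by simp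
  rw [e0, e1, gR_init] at h
  have e2 : ∑ j ∈ Finset.range (2 * 12 + 2), (-1) ^ j * TT 1 z j = Sn (2 * (12 + 1)) z := by
    unfold Sn
    refine Finset.sum_congr (by ring_nf) fun j _ => ?_
    unfold TT
    rw [mul_div_assoc]
  rw [e2] at h
  have hl := sin_lower (12 + 1) (by omega) hz0
  have hu := sin_upper (12 + 1) hz0
  have e3 : Sn (2 * (12 + 1) + 1) z = Sn (2 * (12 + 1)) z +
      z ^ (4 * 12 + 5) / ((4 * 12 + 5).factorial : ℝ) := by
    conv_lhs => unfold Sn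
    rw [Finset.sum_range_succ]
    congr 1
    have : (-1 : ℝ) ^ (2 * (12 + 1)) = 1 := by rw [pow_mul]; norm_num
    rw [this, one_mul]
  rw [e3] at hu
  have hs : sin8 N = tayS 1 (N * N) 640000 (2 * 12 + 1) 0 N 0 800 N := rfl
  rw [hs]
  constructor
  · refine h.1.trans ?_
    exact mul_le_mul_of_nonneg_left hl (by positivity)
  · have h5 := mul_le_mul_of_nonneg_left hu (by positivity : (0 : ℝ) ≤ 2 ^ 160)
    have h6 := h.2
    nlinarith

theorem cos8_bounds {N : ℕ} (hN : N ≤ 1826) :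
    (cos8 N : ℝ) ≤ 2 ^ 160 * Real.cos ((N : ℝ) / 800) ∧
    2 ^ 160 * Real.cos ((N : ℝ) / 800) ≤ (cos8 N : ℝ) + 2 := by
  have hT : ((N : ℝ) / 800) ^ (4 * 12 + 4) / ((4 * 12 + 4).factorial : ℝ) * 2 ^ 160 ≤ 1 :=
    tail8 hN (by decide +kernel)
  set z : ℝ := (N : ℝ) / 800 with hz
  have hz0 : 0 ≤ z := by positivity
  have hz2 : z ^ 2 = ((N * N : ℕ) : ℝ) / ((640000 : ℕ) : ℝ) := by
    rw [hz, div_pow]; push_cast; ring
  have h := tayS_real 0 (N * N) 640000 (by positivity) hz2 (2 * 12 + 1) 0 1 0 1 1 (by positivity)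
  have e0 : ((1 : ℕ) : ℝ) / ((1 : ℕ) : ℝ) = TT 0 z 0 := by
    unfold TT
    simp
  have e1 : ((0 : ℕ) : ℝ) / ((1 : ℕ) : ℝ) = 0 := by simp
  rw [e0, e1, gR_init] at h
  have e2 : ∑ j ∈ Finset.range (2 * 12 + 2), (-1) ^ j * TT 0 z j = Cn (2 * (12 + 1)) z := by
    unfold Cn
    refine Finset.sum_congr (by ring_nf) fun j _ => ?_
    unfold TT
    rw [mul_div_assoc, add_zero]
  rw [e2] at h
  have hl := cos_lower (12 + 1) (by omega) hz0
  have hu := cos_upper (12 + 1) hz0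
  have e3 : Cn (2 * (12 + 1) + 1) z = Cn (2 * (12 + 1)) z +
      z ^ (4 * 12 + 4) / ((4 * 12 + 4).factorial : ℝ) := by
    conv_lhs => unfold Cn
    rw [Finset.sum_range_succ]
    congr 1
    have : (-1 : ℝ) ^ (2 * (12 + 1)) = 1 := by rw [pow_mul]; norm_num
    rw [this, one_mul]
  rw [e3] at hu
  have hs : cos8 N = tayS 0 (N * N) 640000 (2 * 12 + 1) 0 1 0 1 1 := rfl
  rw [hs]
  constructor
  · refine h.1.trans ?_
    exact mul_le_mul_of_nonneg_left hl (by positivity)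
  · have h5 := mul_le_mul_of_nonneg_left hu (by positivity : (0 : ℝ) ≤ 2 ^ 160)
    have h6 := h.2
    nlinarith

/-- one rotation step, real version -/
theorem rot_err {S s c s1 c1 a b a1 b1 e : ℝ} (hS : 0 < S) (ha : |a| ≤ 1) (hb : |b| ≤ 1)
    (hs : |s - S * a| ≤ e) (hc : |c - S * b| ≤ e) (hs1 : |s1 - S * a1| ≤ 2)
    (hc1 : |c1 - S * b1| ≤ 2) (ha1 : |a1| ≤ 1) (hb1 : |b1| ≤ 1) :
    |s * c1 + c * s1 - S ^ 2 * (a * b1 + b * a1)| ≤ 2 * e * (S + 2) + 4 * S := by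
  have he : 0 ≤ e := (abs_nonneg _).trans hs
  have e1 : s * c1 + c * s1 - S ^ 2 * (a * b1 + b * a1) =
      (s - S * a) * c1 + S * a * (c1 - S * b1) + ((c - S * b) * s1 + S * b * (s1 - S * a1)) := by
    ring
  have k1 : |c1| ≤ S + 2 := by
    have : c1 = (c1 - S * b1) + S * b1 := by ring
    rw [this]
    refine (abs_add_le _ _).trans ?_
    rw [abs_mul, abs_of_pos hS]
    nlinarith
  have k2 : |s1| ≤ S + 2 := by
    have : s1 = (s1 - S * a1) + S * a1 := by ring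
    rw [this]
    refine (abs_add_le _ _).trans ?_
    rw [abs_mul, abs_of_pos hS]
    nlinarith
  have t1 : |(s - S * a) * c1| ≤ e * (S + 2) := by
    rw [abs_mul]
    exact mul_le_mul hs k1 (abs_nonneg _) he
  have t2 : |S * a * (c1 - S * b1)| ≤ S * 2 := by
    rw [abs_mul, abs_mul, abs_of_pos hS]
    exact mul_le_mul (by nlinarith) hc1 (abs_nonneg _) hS.le
  have t3 : |(c - S * b) * s1| ≤ e * (S + 2) := by
    rw [abs_mul]
    exact mul_le_mul hc k2 (abs_nonneg _) he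
  have t4 : |S * b * (s1 - S * a1)| ≤ S * 2 := by
    rw [abs_mul, abs_mul, abs_of_pos hS]
    exact mul_le_mul (by nlinarith) hs1 (abs_nonneg _) hS.le
  rw [e1]
  refine (abs_add_le _ _).trans ?_
  have u1 := abs_add_le ((s - S * a) * c1) (S * a * (c1 - S * b1))
  have u2 := abs_add_le ((c - S * b) * s1) (S * b * (s1 - S * a1))
  linarith

theorem ediv_err (A : ℤ) : |((A / (1461501637330902918203684832716283019655932542976 : ℤ) : ℤ) : ℝ) * 2 ^ 160 - A| ≤ 2 ^ 160 := by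
  have h1 := Int.ediv_mul_le A (b := (1461501637330902918203684832716283019655932542976 : ℤ)) (by norm_num)
  have h2 := Int.lt_ediv_add_one_mul_self A (b := (1461501637330902918203684832716283019655932542976 : ℤ)) (by norm_num)
  have e : (2 : ℝ) ^ 160 = ((1461501637330902918203684832716283019655932542976 : ℤ) : ℝ) := by norm_num
  rw [e]
  rw [abs_le]
  have h1' : ((A / (1461501637330902918203684832716283019655932542976 : ℤ) : ℤ) : ℝ) *
    ((1461501637330902918203684832716283019655932542976 : ℤ) : ℝ) ≤ (A : ℝ) := by exact_mod_cast h1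
  have h2' : (A : ℝ) < ((A / (1461501637330902918203684832716283019655932542976 : ℤ) : ℤ) + 1 : ℝ) *
    ((1461501637330902918203684832716283019655932542976 : ℤ) : ℝ) := by exact_mod_cast h2
  constructor <;> nlinarith

/-- enclosure of sine and cosine at `k θ` -/
def Encl (θ : ℝ) (k : ℕ) (s c : ℤ) : Prop :=
  |(s : ℝ) - 2 ^ 160 * Real.sin (k * θ)| ≤ 4 ^ (k + 1) ∧
    |(c : ℝ) - 2 ^ 160 * Real.cos (k * θ)| ≤ 4 ^ (k + 1)

theorem encl_step {θ : ℝ} {k : ℕ} {s c s1 c1 : ℤ} (h1 : |(s1 : ℝ) - 2 ^ 160 * Real.sin θ| ≤ 2)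
    (h2 : |(c1 : ℝ) - 2 ^ 160 * Real.cos θ| ≤ 2) (h : Encl θ k s c) (hk : 1 ≤ k) :
    Encl θ (k + 1) ((s * c1 + c * s1) / (1461501637330902918203684832716283019655932542976 : ℤ))
      ((c * c1 - s * s1) / (1461501637330902918203684832716283019655932542976 : ℤ)) := by
  have hS : (0 : ℝ) < 2 ^ 160 := by positivity
  obtain ⟨hs, hc⟩ := h
  have he : (16 : ℝ) ≤ 4 ^ (k + 1) := by
    calc (16 : ℝ) = 4 ^ 2 := by norm_num
      _ ≤ 4 ^ (k + 1) := pow_le_pow_right₀ (by norm_num) (by omega)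
  have hth : (((k + 1 : ℕ) : ℝ)) * θ = k * θ + θ := by push_cast; ring
  have r1 := rot_err hS (Real.abs_sin_le_one (k * θ)) (Real.abs_cos_le_one (k * θ)) hs hc h1 h2
    (Real.abs_sin_le_one θ) (Real.abs_cos_le_one θ)
  -- cosine: c c1 + (-s) s1
  have hs' : |(-(s : ℝ)) - 2 ^ 160 * (-Real.sin (k * θ))| ≤ 4 ^ (k + 1) := by
    have e : (-(s : ℝ)) - 2 ^ 160 * (-Real.sin (k * θ)) = -((s : ℝ) - 2 ^ 160 * Real.sin (k * θ)) := by
      ring
    rw [e, abs_neg]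
    exact hs
  have r2 := rot_err hS (a := Real.cos (k * θ)) (b := -Real.sin (k * θ)) (Real.abs_cos_le_one (k * θ))
    (by rw [abs_neg]; exact Real.abs_sin_le_one (k * θ)) hc hs' h1 h2
    (Real.abs_sin_le_one θ) (Real.abs_cos_le_one θ)
  have d1 := ediv_err (s * c1 + c * s1)
  have d2 := ediv_err (c * c1 - s * s1)
  push_cast at d1 d2
  constructor
  · rw [hth, Real.sin_add]
    set X : ℝ := (((s * c1 + c * s1) / (1461501637330902918203684832716283019655932542976 : ℤ) : ℤ) : ℝ)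
    set V := Real.sin (k * θ) * Real.cos θ + Real.cos (k * θ) * Real.sin θ
    have t : |X * 2 ^ 160 - (2 ^ 160) ^ 2 * V| ≤ 2 ^ 160 + (2 * 4 ^ (k + 1) * (2 ^ 160 + 2) + 4 * 2 ^ 160) := by
      have e : X * 2 ^ 160 - (2 ^ 160) ^ 2 * V = (X * 2 ^ 160 - ((s : ℝ) * c1 + c * s1)) +
        (((s : ℝ) * c1 + c * s1) - (2 ^ 160) ^ 2 * V) := by ring
      rw [e]
      exact (abs_add_le _ _).trans (add_le_add d1 r1)
    have e2 : X * 2 ^ 160 - (2 ^ 160) ^ 2 * V = 2 ^ 160 * (X - 2 ^ 160 * V) := by ring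
    rw [e2, abs_mul, abs_of_pos hS] at t
    have t3 : |X - 2 ^ 160 * V| ≤ 4 ^ (k + 1 + 1) := by
      refine le_of_mul_le_mul_left (t.trans ?_) hS
      rw [pow_succ (4 : ℝ) (k + 1)]
      nlinarith
    exact t3
  · rw [hth, Real.cos_add]
    set X : ℝ := (((c * c1 - s * s1) / (1461501637330902918203684832716283019655932542976 : ℤ) : ℤ) : ℝ)
    set V := Real.cos (k * θ) * Real.cos θ - Real.sin (k * θ) * Real.sin θ
    have t : |X * 2 ^ 160 - (2 ^ 160) ^ 2 * V| ≤ 2 ^ 160 + (2 * 4 ^ (k + 1) * (2 ^ 160 + 2) + 4 * 2 ^ 160) := by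
      have e : X * 2 ^ 160 - (2 ^ 160) ^ 2 * V = (X * 2 ^ 160 - ((c : ℝ) * c1 - s * s1)) +
        (((c : ℝ) * c1 + -(s : ℝ) * s1) -
          (2 ^ 160) ^ 2 * (Real.cos (k * θ) * Real.cos θ + -Real.sin (k * θ) * Real.sin θ)) := by ring
      rw [e]
      exact (abs_add_le _ _).trans (add_le_add d2 r2)
    have e2 : X * 2 ^ 160 - (2 ^ 160) ^ 2 * V = 2 ^ 160 * (X - 2 ^ 160 * V) := by ring
    rw [e2, abs_mul, abs_of_pos hS] at t
    have t3 : |X - 2 ^ 160 * V| ≤ 4 ^ (k + 1 + 1) := by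
      refine le_of_mul_le_mul_left (t.trans ?_) hS
      rw [pow_succ (4 : ℝ) (k + 1)]
      nlinarith
    exact t3

theorem rotChk_sound {p : ℕ → ℤ → ℤ → Bool} {θ : ℝ} {s1 c1 : ℤ}
    (h1 : |(s1 : ℝ) - 2 ^ 160 * Real.sin θ| ≤ 2) (h2 : |(c1 : ℝ) - 2 ^ 160 * Real.cos θ| ≤ 2) :
    ∀ (n k : ℕ) (s c : ℤ), 1 ≤ k → Encl θ k s c → rotChk p s1 c1 n k s c = true →
    ∀ j, k ≤ j → j < k + n → ∃ s c, Encl θ j s c ∧ p j s c = true
  | 0, k, s, c, _, _, _, j, hj, hj2 => by omega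
  | n + 1, k, s, c, hk, h, hr, j, hj, hj2 => by
    rw [rotChk, Bool.and_eq_true] at hr
    rcases hj.eq_or_lt with h0 | h0
    · subst h0
      exact ⟨s, c, h, hr.1⟩
    · exact rotChk_sound h1 h2 n (k + 1) _ _ (by omega) (encl_step h1 h2 h hk) hr.2 j (by omega)
        (by omega)

theorem rotAll_sound {p : ℕ → ℤ → ℤ → Bool} {N K : ℕ} (hN : N ≤ 1826) (h : rotAll p N K = true)
    {k : ℕ} (h1 : 1 ≤ k) (h2 : k ≤ K) :
    ∃ s c, Encl ((N : ℝ) / 800) k s c ∧ p k s c = true := by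
  obtain ⟨a1, a2⟩ := sin8_bounds hN
  obtain ⟨b1, b2⟩ := cos8_bounds hN
  have hs : |(sin8 N : ℝ) - 2 ^ 160 * Real.sin ((N : ℝ) / 800)| ≤ 2 := by
    rw [abs_le]; constructor <;> linarith
  have hc : |(cos8 N : ℝ) - 2 ^ 160 * Real.cos ((N : ℝ) / 800)| ≤ 2 := by
    rw [abs_le]; constructor <;> linarith
  refine rotChk_sound hs hc K 1 _ _ le_rfl ?_ h k h1 (by omega)
  constructor
  · rw [Nat.cast_one, one_mul]
    exact hs.trans (by norm_num)
  · rw [Nat.cast_one, one_mul]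
    exact hc.trans (by norm_num)

theorem four_pow_le {k : ℕ} (hk : k ≤ 44) : (4 : ℝ) ^ (k + 1) ≤ 2 ^ 90 := by
  calc (4 : ℝ) ^ (k + 1) ≤ 4 ^ 45 := pow_le_pow_right₀ (by norm_num) (by omega)
    _ = 2 ^ 90 := by norm_num

/-- sine table -/
theorem pSin_sound {sg : ℕ → Bool} {g : ℕ → ℕ} {N K : ℕ} (hN : N ≤ 1826) (hK : K ≤ 44)
    (h : rotAll (pSin sg g) N K = true) {k : ℕ} (h1 : 1 ≤ k) (h2 : k ≤ K) :
    (g k : ℝ) ≤ 2 ^ 32 * ((if sg k then 1 else -1) * Real.sin (k * ((N : ℝ) / 800))) / k ∧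
    2 ^ 32 * ((if sg k then 1 else -1) * Real.sin (k * ((N : ℝ) / 800))) / k ≤ (g k : ℝ) + 1 := by
  obtain ⟨s, c, he, hp⟩ := rotAll_sound hN h h1 h2
  have hk0 : (0 : ℝ) < k := by exact_mod_cast h1
  have h4 := four_pow_le (k := k) (by omega)
  have hs := abs_le.1 (he.1.trans h4)
  unfold pSin at hp
  cases hsg : sg k
  · rw [hsg, cond_false, Bool.and_eq_true] at hp
    have a1 := le_real hp.1
    have a2 := le_real hp.2
    change ((((k * g k * 340282366920938463463374607431768211456 + 1237940039285380274899124224 : ℕ) : ℤ)) : ℝ) ≤ ((-s : ℤ) : ℝ) at a1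
    change ((-s + ((1237940039285380274899124224 : ℕ) : ℤ) : ℤ) : ℝ) ≤ (((k * (g k + 1) * 340282366920938463463374607431768211456 : ℕ) : ℤ) : ℝ) at a2
    push_cast at a1 a2
    simp only [Bool.false_eq_true, if_false]
    rw [le_div_iff₀ hk0, div_le_iff₀ hk0]
    constructor <;> nlinarith [hs.1, hs.2]
  · rw [hsg, cond_true, Bool.and_eq_true] at hp
    have a1 := le_real hp.1
    have a2 := le_real hp.2
    change ((((k * g k * 340282366920938463463374607431768211456 + 1237940039285380274899124224 : ℕ) : ℤ)) : ℝ) ≤ ((s : ℤ) : ℝ) at a1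
    change ((s + ((1237940039285380274899124224 : ℕ) : ℤ) : ℤ) : ℝ) ≤ (((k * (g k + 1) * 340282366920938463463374607431768211456 : ℕ) : ℤ) : ℝ) at a2
    push_cast at a1 a2
    simp only [if_true]
    rw [le_div_iff₀ hk0, div_le_iff₀ hk0]
    constructor <;> nlinarith [hs.1, hs.2]

/-- cosine table -/
theorem pCos_sound {g : ℕ → ℤ} {N K : ℕ} (hN : N ≤ 1826) (hK : K ≤ 44)
    (h : rotAll (pCos g) N K = true) {k : ℕ} (h1 : 1 ≤ k) (h2 : k ≤ K) :
    (g k : ℝ) ≤ 2 ^ 40 * Real.cos (k * ((N : ℝ) / 800)) ∧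
    2 ^ 40 * Real.cos (k * ((N : ℝ) / 800)) ≤ (g k : ℝ) + 1 := by
  obtain ⟨s, c, he, hp⟩ := rotAll_sound hN h h1 h2
  have h4 := four_pow_le (k := k) (by omega)
  have hs := abs_le.1 (he.2.trans h4)
  unfold pCos at hp
  rw [Bool.and_eq_true] at hp
  have a1 := le_real hp.1
  have a2 := le_real hp.2
  change ((g k * ((1329227995784915872903807060280344576 : ℕ) : ℤ) + ((1237940039285380274899124224 : ℕ) : ℤ) : ℤ) : ℝ) ≤ (c : ℝ) at a1
  change ((c + ((1237940039285380274899124224 : ℕ) : ℤ) : ℤ) : ℝ) ≤ (((g k + 1) * ((1329227995784915872903807060280344576 : ℕ) : ℤ) : ℤ) : ℝ) at a2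
  push_cast at a1 a2
  constructor <;> nlinarith [hs.1, hs.2]

end Pool.Agent.H60.SL.Ck
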