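import Pool.Agent.H60.SL.FQ

set_option autoImplicit false

open MeasureTheory Set Filter Topology

namespace Pool.Agent.H60.SL

open Pool.Agent.H64.Slab Pool.Agent.H60.Slab Pool.Agent.H60.Big

theorem cdiff_const (b : ℝ) (f : ℝ → ℝ) : ∀ (q : ℕ) (y : ℝ),
    cdiff (fun _ : Fin q => b) f y =
      ∑ j ∈ Finset.range (q + 1), (-1 : ℝ) ^ j * (q.choose j : ℝ) * f (y + ((q : ℝ) - 2 * j) * b) := by
  intro q
  induction q with
  | zero => intro y; simp [cdiff_zero]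
  | succ q ih =>
    intro y
    rw [cdiff_succ, ih, ih]
    rw [Finset.sum_range_succ' (fun j => (-1 : ℝ) ^ j * ((q + 1).choose j : ℝ) *
      f (y + (((q + 1 : ℕ) : ℝ) - 2 * j) * b)) (q + 1)]
    rw [Finset.sum_range_succ' (fun j => (-1 : ℝ) ^ j * (q.choose j : ℝ) *
      f (y + b + ((q : ℝ) - 2 * j) * b)) q]
    have e1 : ∀ j : ℕ, (-1 : ℝ) ^ (j + 1) * ((q + 1).choose (j + 1) : ℝ) *
        f (y + (((q + 1 : ℕ) : ℝ) - 2 * ((j + 1 : ℕ) : ℝ)) * b) =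
        (-1 : ℝ) ^ (j + 1) * (q.choose (j + 1) : ℝ) * f (y + b + ((q : ℝ) - 2 * ((j + 1 : ℕ) : ℝ)) * b)
        - (-1 : ℝ) ^ j * (q.choose j : ℝ) * f (y - b + ((q : ℝ) - 2 * j) * b) := by
      intro j
      rw [Nat.choose_succ_succ]
      push_cast
      rw [show y + ((q : ℝ) + 1 - 2 * ((j : ℝ) + 1)) * b = y - b + ((q : ℝ) - 2 * j) * b by ring,
        show y + b + ((q : ℝ) - 2 * ((j : ℝ) + 1)) * b = y - b + ((q : ℝ) - 2 * j) * b by ring]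
      ring
    simp only [e1]
    rw [Finset.sum_sub_distrib]
    have e2 : ∑ j ∈ Finset.range (q + 1), (-1 : ℝ) ^ (j + 1) * (q.choose (j + 1) : ℝ) *
        f (y + b + ((q : ℝ) - 2 * ((j + 1 : ℕ) : ℝ)) * b) =
        ∑ j ∈ Finset.range q, (-1 : ℝ) ^ (j + 1) * (q.choose (j + 1) : ℝ) *
        f (y + b + ((q : ℝ) - 2 * ((j + 1 : ℕ) : ℝ)) * b) := by
      rw [Finset.sum_range_succ]
      simp
    rw [e2]
    have e3 : f (y + (((q + 1 : ℕ) : ℝ) - 2 * ((0 : ℕ) : ℝ)) * b) =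
        f (y + b + ((q : ℝ) - 2 * ((0 : ℕ) : ℝ)) * b) := by
      congr 1
      push_cast
      ring
    rw [e3]
    simp only [Nat.choose_zero_right]
    ring

/-- tail function of the flat vector `f_q` -/
noncomputable def TF (q : ℕ) (t : ℝ) : ℝ :=
  2 / (2 ^ q * (q.factorial : ℝ)) * ∑ j ∈ Finset.range (q + 1), (-1 : ℝ) ^ j * (q.choose j : ℝ) *
    max ((q : ℝ) - 2 * j - Real.sqrt q * t) 0 ^ q

/-- its derivative, `q = p + 2` -/
noncomputable def dTF (p : ℕ) (t : ℝ) : ℝ :=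
  -(Real.sqrt (p + 2 : ℕ) * (2 / (2 ^ (p + 2) * ((p + 1).factorial : ℝ))) *
    ∑ j ∈ Finset.range (p + 3), (-1 : ℝ) ^ j * ((p + 2).choose j : ℝ) *
    max (((p + 2 : ℕ) : ℝ) - 2 * j - Real.sqrt (p + 2 : ℕ) * t) 0 ^ (p + 1))

theorem FV_fq (q k : ℕ) {t : ℝ} (ht : 0 ≤ t) :
    FV (stdVec (q + 1 + k) (q + 1)) t 0 / 2 ^ (q + 1 + k) = 1 - TF (q + 1) t := by
  rw [FV_flat q k ht, cdiff_const, Finset.mul_sum, Finset.mul_sum]
  unfold TF
  rw [Finset.mul_sum, sub_right_inj, Finset.sum_div]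
  apply Finset.sum_congr rfl
  intro j _
  obtain ⟨r, hr⟩ : ∃ r, Real.sqrt ((q : ℝ) + 1) = r := ⟨_, rfl⟩
  have hr0 : 0 < r := by rw [← hr]; positivity
  have hr2 : r ^ 2 = (q : ℝ) + 1 := by rw [← hr]; exact Real.sq_sqrt (by positivity)
  have hr' : Real.sqrt ((q + 1 : ℕ) : ℝ) = r := by push_cast; exact hr
  rw [hr, hr']
  have key : r ^ (q + 1) * ptr (q + 1) (-t + (((q + 1 : ℕ) : ℝ) - 2 * j) * (1 / r)) =
      max (((q + 1 : ℕ) : ℝ) - 2 * j - r * t) 0 ^ (q + 1) / ((q + 1).factorial : ℝ) := by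
    unfold ptr
    have e1 : r * max (-t + (((q + 1 : ℕ) : ℝ) - 2 * j) * (1 / r)) 0 =
        max (((q + 1 : ℕ) : ℝ) - 2 * j - r * t) 0 := by
      rw [mul_max_of_nonneg _ _ hr0.le, mul_zero]
      congr 1
      field_simp
      ring
    rw [mul_div_assoc', ← mul_pow, e1]
  have h2 : (2 : ℝ) ^ (q + 1) ≠ 0 := by positivity
  have hf : ((q + 1).factorial : ℝ) ≠ 0 := by positivity
  calc 2 * (r ^ (q + 1) * ((-1) ^ j * ((q + 1).choose j : ℝ) *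
        ptr (q + 1) (-t + (((q + 1 : ℕ) : ℝ) - 2 * j) * (1 / r)))) / 2 ^ (q + 1)
      = 2 * ((-1) ^ j * ((q + 1).choose j : ℝ) * (r ^ (q + 1) *
        ptr (q + 1) (-t + (((q + 1 : ℕ) : ℝ) - 2 * j) * (1 / r)))) / 2 ^ (q + 1) := by ring
    _ = _ := by
      rw [key]
      field_simp

theorem TF_convexOn (q : ℕ) : ConvexOn ℝ (Ici 0) (TF (q + 1)) := by
  have h := T_convexOn _ (stdVec_norm q)
  refine h.congr ?_
  intro t ht
  have := FV_fq q 0 (t := t) ht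
  simp only [add_zero] at this
  show 1 - FV (stdVec (q + 1) (q + 1)) t 0 / 2 ^ (q + 1) = TF (q + 1) t
  rw [this]
  ring

theorem TF_hasDerivAt (p : ℕ) (t : ℝ) : HasDerivAt (TF (p + 2)) (dTF p t) t := by
  unfold TF dTF
  have h : ∀ j ∈ Finset.range (p + 2 + 1), HasDerivAt (fun t : ℝ => (-1 : ℝ) ^ j * ((p + 2).choose j : ℝ) *
      max (((p + 2 : ℕ) : ℝ) - 2 * j - Real.sqrt (p + 2 : ℕ) * t) 0 ^ (p + 2))
      ((-1 : ℝ) ^ j * ((p + 2).choose j : ℝ) * (-(Real.sqrt (p + 2 : ℕ) * (((p : ℝ) + 2) *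
        max (((p + 2 : ℕ) : ℝ) - 2 * j - Real.sqrt (p + 2 : ℕ) * t) 0 ^ (p + 1))))) t := by
    intro j _
    exact (lin_pow_hasDerivAt p _ _ t).const_mul _
  have h2 := (HasDerivAt.fun_sum h).const_mul (2 / (2 ^ (p + 2) * ((p + 2).factorial : ℝ)))
  refine h2.congr_deriv ?_
  rw [Nat.factorial_succ (p + 1), Finset.mul_sum, Finset.mul_sum, ← Finset.sum_neg_distrib]
  apply Finset.sum_congr rfl
  intro j _
  have hf : ((p + 1).factorial : ℝ) ≠ 0 := by positivity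
  have hp : ((p : ℝ) + 2) ≠ 0 := by positivity
  push_cast
  field_simp
  ring

theorem TF_tangent (p : ℕ) {c t : ℝ} (hc : 0 < c) (ht : 0 ≤ t) :
    TF (p + 2) c + dTF p c * (t - c) ≤ TF (p + 2) t :=
  tangent_of_convex (TF_convexOn (p + 1)) hc (TF_hasDerivAt p c) ht

/-- first alternative from `T ≤ T_q` -/
theorem alt_TF {n q : ℕ} (hq : 1 ≤ q) (hqn : q ≤ n) (a : Fin n → ℝ) {t : ℝ} (h0 : 0 ≤ t)
    (h : 1 - FV a t 0 / 2 ^ n ≤ TF q t) :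
    ∃ q, 1 ≤ q ∧ q ≤ n ∧ FV (stdVec n q) t 0 ≤ FV a t 0 := by
  obtain ⟨q, rfl⟩ : ∃ p, q = p + 1 := ⟨q - 1, by omega⟩
  obtain ⟨m, rfl⟩ : ∃ m, n = q + 1 + m := ⟨n - (q + 1), by omega⟩
  refine ⟨q + 1, by omega, by omega, ?_⟩
  have hpow : (0 : ℝ) < 2 ^ (q + 1 + m) := by positivity
  have h1 := FV_fq q m h0
  have h5 : FV (stdVec (q + 1 + m) (q + 1)) t 0 / 2 ^ (q + 1 + m) ≤ FV a t 0 / 2 ^ (q + 1 + m) := by
    linarith
  exact (div_le_div_iff_of_pos_right hpow).1 h5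

end Pool.Agent.H60.SL
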