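import Pool.Agent.H60.SL.CkExp
import Pool.Agent.H60.SL.CkTauDefs
import Pool.Agent.H60.SL.FQ2
import Pool.Agent.H60.SL.Cert

set_option autoImplicit false

namespace Pool.Agent.H60.SL.Ck

open Pool.Agent.H64.Slab Pool.Agent.H60.Slab Pool.Agent.H60.Big

/-- real alternating sum -/
noncomputable def altR (F : ℕ → ℝ) : ℕ → ℕ → ℝ
  | 0, _ => 0
  | n + 1, j => F j - altR F n (j + 1)

theorem altR_eq (F : ℕ → ℝ) : ∀ n j, ∑ i ∈ Finset.range n, (-1 : ℝ) ^ i * F (j + i) = altR F n j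
  | 0, j => by simp [altR]
  | n + 1, j => by
    rw [Finset.sum_range_succ', altR, ← altR_eq F n (j + 1)]
    have : ∀ i ∈ Finset.range n, (-1 : ℝ) ^ (i + 1) * F (j + (i + 1)) =
        -((-1) ^ i * F (j + 1 + i)) := by
      intro i _
      rw [pow_succ, show j + (i + 1) = j + 1 + i by ring]
      ring
    rw [Finset.sum_congr rfl this, Finset.sum_neg_distrib]
    simp
    ring

/-- bounds by induction -/
theorem altS_bounds {f g : ℕ → ℕ} {Y : ℕ → ℝ} {q e : ℕ} (hf : ∀ j, (f j : ℝ) ≤ Y j)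
    (hg : ∀ j, Y j ≤ (g j : ℝ)) : ∀ n j,
    (altS f g q e n j : ℝ) ≤ altR (fun j => (q.choose j : ℝ) * Y j ^ e) n j ∧
    altR (fun j => (q.choose j : ℝ) * Y j ^ e) n j ≤ (altS g f q e n j : ℝ)
  | 0, j => by simp [altS, altR]
  | n + 1, j => by
    obtain ⟨h1, h2⟩ := altS_bounds (q := q) (e := e) hf hg n (j + 1)
    have e1 : altS f g q e (n + 1) j = ((Nat.choose q j * f j ^ e : ℕ) : ℤ) - altS g f q e n (j + 1) := rfl
    have e2 : altS g f q e (n + 1) j = ((Nat.choose q j * g j ^ e : ℕ) : ℤ) - altS f g q e n (j + 1) := rfl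
    rw [e1, e2, altR]
    push_cast
    have hf0 : (0 : ℝ) ≤ f j := Nat.cast_nonneg _
    have k1 : (f j : ℝ) ^ e ≤ Y j ^ e := pow_le_pow_left₀ hf0 (hf j) e
    have k2 : Y j ^ e ≤ (g j : ℝ) ^ e := pow_le_pow_left₀ (hf0.trans (hf j)) (hg j) e
    have hc : (0 : ℝ) ≤ q.choose j := Nat.cast_nonneg _
    have k3 := mul_le_mul_of_nonneg_left k1 hc
    have k4 := mul_le_mul_of_nonneg_left k2 hc
    constructor <;> linarith

theorem nat_sub_max (a b : ℕ) : ((a - b : ℕ) : ℝ) = max ((a : ℝ) - b) 0 := by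
  rcases le_total b a with h | h
  · rw [Nat.cast_sub h, max_eq_left]
    have : (b : ℝ) ≤ a := by exact_mod_cast h
    linarith
  · rw [Nat.sub_eq_zero_of_le h, max_eq_right]
    · simp
    · have : (a : ℝ) ≤ b := by exact_mod_cast h
      linarith

section

variable {q r N : ℕ}

theorem sqrt_bounds {q r : ℕ} (h1 : r * r ≤ q * 1461501637330902918203684832716283019655932542976)
    (h2 : q * 1461501637330902918203684832716283019655932542976 ≤ (r + 1) * (r + 1)) :
    (r : ℝ) ≤ 2 ^ 80 * Real.sqrt q ∧ 2 ^ 80 * Real.sqrt q ≤ (r : ℝ) + 1 := by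
  have e : 2 ^ 80 * Real.sqrt q = Real.sqrt ((q : ℝ) * 2 ^ 160) := by
    rw [Real.sqrt_mul (Nat.cast_nonneg _), show (2 : ℝ) ^ 160 = (2 ^ 80) ^ 2 by norm_num,
      Real.sqrt_sq (by positivity)]
    ring
  rw [e]
  have h1' : (r : ℝ) * r ≤ q * 2 ^ 160 := by
    have : ((r * r : ℕ) : ℝ) ≤ ((q * 1461501637330902918203684832716283019655932542976 : ℕ) : ℝ) := by
      exact_mod_cast h1
    push_cast at this
    linarith
  have h2' : (q : ℝ) * 2 ^ 160 ≤ (r + 1) * (r + 1) := by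
    have : ((q * 1461501637330902918203684832716283019655932542976 : ℕ) : ℝ) ≤ (((r + 1) * (r + 1) : ℕ) : ℝ) := by
      exact_mod_cast h2
    push_cast at this
    linarith
  constructor
  · apply Real.le_sqrt_of_sq_le
    rw [sq]; exact h1'
  · rw [Real.sqrt_le_left (by positivity), sq]
    exact h2'

/-- the scaled positive parts -/
noncomputable def YY (q N j : ℕ) : ℝ :=
  2417851639229258349412352000 * max ((q : ℝ) - 2 * j - Real.sqrt q * ((N : ℝ) / 2000)) 0

theorem yL_le (h2 : 2 ^ 80 * Real.sqrt q ≤ (r : ℝ) + 1) (j : ℕ) : (yL q r N j : ℝ) ≤ YY q N j := by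
  unfold yL YY
  rw [nat_sub_max, mul_max_of_nonneg _ _ (by norm_num), mul_zero]
  refine max_le_max ?_ le_rfl
  push_cast
  have hN : (0 : ℝ) ≤ N := Nat.cast_nonneg _
  nlinarith [mul_le_mul_of_nonneg_right h2 hN]

theorem yU_ge (h1 : (r : ℝ) ≤ 2 ^ 80 * Real.sqrt q) (j : ℕ) : YY q N j ≤ (yU q r N j : ℝ) := by
  unfold yU YY
  rw [nat_sub_max, mul_max_of_nonneg _ _ (by norm_num), mul_zero]
  refine max_le_max ?_ le_rfl
  push_cast
  have hN : (0 : ℝ) ≤ N := Nat.cast_nonneg _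
  nlinarith [mul_le_mul_of_nonneg_right h1 hN]

end

/-- the tail function and its derivative through `YY` -/
theorem TF_YY (p N : ℕ) : TF (p + 2) ((N : ℝ) / 2000) =
    2 / (2 ^ (p + 2) * ((p + 2).factorial : ℝ)) *
      (altR (fun j => ((p + 2).choose j : ℝ) * YY (p + 2) N j ^ (p + 2)) (p + 2 + 1) 0 /
        2417851639229258349412352000 ^ (p + 2)) := by
  rw [← altR_eq, TF, Finset.sum_div]
  congr 1
  refine Finset.sum_congr rfl fun j _ => ?_
  rw [zero_add, YY, mul_pow]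
  field_simp

theorem dTF_YY (p N : ℕ) : dTF p ((N : ℝ) / 2000) =
    -(Real.sqrt (p + 2 : ℕ) * (2 / (2 ^ (p + 2) * ((p + 1).factorial : ℝ)) *
      (altR (fun j => ((p + 2).choose j : ℝ) * YY (p + 2) N j ^ (p + 1)) (p + 2 + 1) 0 /
        2417851639229258349412352000 ^ (p + 1)))) := by
  rw [← altR_eq, dTF, Finset.sum_div, mul_assoc]
  congr 3
  refine Finset.sum_congr rfl fun j _ => ?_
  rw [zero_add, YY, mul_pow]
  field_simp

/-- the two tangent values -/
theorem tau_values {p r A B tA tB : ℕ} (hAB : A ≤ B) (h : chkTau (p + 2) r A B tA tB = true) :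
    (tA : ℝ) / 2 ^ 40 ≤ TF (p + 2) (((A + B : ℕ) : ℝ) / 2000) +
      dTF p (((A + B : ℕ) : ℝ) / 2000) * ((A : ℝ) / 1000 - ((A + B : ℕ) : ℝ) / 2000) ∧
    (tB : ℝ) / 2 ^ 40 ≤ TF (p + 2) (((A + B : ℕ) : ℝ) / 2000) +
      dTF p (((A + B : ℕ) : ℝ) / 2000) * ((B : ℝ) / 1000 - ((A + B : ℕ) : ℝ) / 2000) := by
  unfold chkTau tauOK at h
  simp only [Bool.and_eq_true] at h
  obtain ⟨⟨h1, h2⟩, ⟨h3, h4⟩, h5⟩ := h
  have g1 := Nat.le_of_ble_eq_true h1
  have g2 := Nat.le_of_ble_eq_true h2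
  obtain ⟨r1, r2⟩ := sqrt_bounds g1 g2
  set N := A + B with hN
  set q := p + 2 with hq
  have hL := fun j => yL_le (N := N) r2 j
  have hU := fun j => yU_ge (N := N) r1 j
  have bS := (altS_bounds (q := q) (e := q) hL hU (q + 1) 0).1
  have bD := altS_bounds (q := q) (e := q - 1) hL hU (q + 1) 0
  have e1 : q - 1 = p + 1 := by omega
  rw [e1] at bD h3 h4 h5
  set S := altR (fun j => (q.choose j : ℝ) * YY q N j ^ q) (q + 1) 0
  set D := altR (fun j => (q.choose j : ℝ) * YY q N j ^ (p + 1)) (q + 1) 0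
  have n3 := nn_iff.1 h3
  have n3' : (0 : ℝ) ≤ (altS (yL q r N) (yU q r N) q (p + 1) (q + 1) 0 : ℝ) := by exact_mod_cast n3
  have n4 := le_real h4
  have n5 := le_real h5
  change (((tA * (2 ^ q * Nat.factorial q * 2417851639229258349412352000 ^ q) : ℕ) : ℤ) : ℝ) ≤
    (((2199023255552 : ℤ) * (altS (yL q r N) (yU q r N) q q (q + 1) 0 +
      ((r * q * (B - A) : ℕ) : ℤ) * altS (yL q r N) (yU q r N) q (p + 1) (q + 1) 0) : ℤ) : ℝ) at n4
  change (((tB * (2 ^ q * Nat.factorial q * 2417851639229258349412352000 ^ q) : ℕ) : ℤ) : ℝ) ≤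
    (((2199023255552 : ℤ) * (altS (yL q r N) (yU q r N) q q (q + 1) 0 -
      (((r + 1) * q * (B - A) : ℕ) : ℤ) * altS (yU q r N) (yL q r N) q (p + 1) (q + 1) 0) : ℤ) : ℝ) at n5
  have hBA : ((B - A : ℕ) : ℝ) = (B : ℝ) - A := Nat.cast_sub hAB
  push_cast [hBA] at n4 n5
  have hq0 : (0 : ℝ) < (q : ℝ) := by rw [hq]; positivity
  have hBA0 : (0 : ℝ) ≤ (B : ℝ) - A := by
    have : (A : ℝ) ≤ B := by exact_mod_cast hAB
    linarith
  have hD0 : 0 ≤ D := n3'.trans bD.1
  set W : ℝ := 2 ^ q * (q.factorial : ℝ) * 2417851639229258349412352000 ^ q with hW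
  have hW0 : 0 < W := by positivity
  -- lower bounds in terms of S, D, sqrt
  have m4 : (tA : ℝ) * W ≤ 2199023255552 * (S + 2 ^ 80 * Real.sqrt q * q * (B - A) * D) := by
    refine n4.trans (mul_le_mul_of_nonneg_left (add_le_add bS ?_) (by norm_num))
    have k1 : (r : ℝ) * q * (B - A) ≤ 2 ^ 80 * Real.sqrt q * q * (B - A) :=
      mul_le_mul_of_nonneg_right (mul_le_mul_of_nonneg_right r1 hq0.le) hBA0
    have k2 : 0 ≤ 2 ^ 80 * Real.sqrt q * q * ((B : ℝ) - A) :=
      mul_nonneg (mul_nonneg (mul_nonneg (by positivity) (Real.sqrt_nonneg _)) hq0.le) hBA0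
    exact mul_le_mul k1 bD.1 n3' k2
  have m5 : (tB : ℝ) * W ≤ 2199023255552 * (S - 2 ^ 80 * Real.sqrt q * q * (B - A) * D) := by
    refine n5.trans (mul_le_mul_of_nonneg_left (sub_le_sub bS ?_) (by norm_num))
    have k1 : 2 ^ 80 * Real.sqrt q * q * (B - A) ≤ ((r : ℝ) + 1) * q * (B - A) :=
      mul_le_mul_of_nonneg_right (mul_le_mul_of_nonneg_right r2 hq0.le) hBA0
    have k2 : 0 ≤ ((r : ℝ) + 1) * q * ((B : ℝ) - A) :=
      mul_nonneg (mul_nonneg (by positivity) hq0.le) hBA0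
    exact mul_le_mul k1 bD.2 hD0 k2
  have hTF : TF q ((N : ℝ) / 2000) = 2 / (2 ^ q * (q.factorial : ℝ)) *
      (S / 2417851639229258349412352000 ^ q) := TF_YY p N
  have hdTF : dTF p ((N : ℝ) / 2000) = -(Real.sqrt q * (2 / (2 ^ q * ((p + 1).factorial : ℝ)) *
      (D / 2417851639229258349412352000 ^ (p + 1)))) := dTF_YY p N
  have hfac : (q.factorial : ℝ) = (q : ℝ) * ((p + 1).factorial : ℝ) := by
    rw [hq, Nat.factorial_succ (p + 1)]; push_cast; ring
  have hpw : (2417851639229258349412352000 : ℝ) ^ q =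
      2417851639229258349412352000 ^ (p + 1) * 2417851639229258349412352000 := by
    rw [hq]; exact pow_succ _ _
  have eT : TF q ((N : ℝ) / 2000) = 2 * S / W := by
    rw [hTF, hW]; field_simp
  have ed : dTF p ((N : ℝ) / 2000) = -(2 * Real.sqrt q * q * 2417851639229258349412352000 * D / W) := by
    rw [hdTF, hW, hfac, hpw]
    field_simp
  have c1 : (A : ℝ) / 1000 - (N : ℝ) / 2000 = -((B - A) / 2000) := by
    rw [hN]; push_cast; ring
  have c2 : (B : ℝ) / 1000 - (N : ℝ) / 2000 = (B - A) / 2000 := by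
    rw [hN]; push_cast; ring
  rw [eT, ed, c1, c2]
  constructor
  · have : 2 * S / W + -(2 * Real.sqrt q * q * 2417851639229258349412352000 * D / W) * -((B - A) / 2000) =
        2 * (S + 2 ^ 80 * Real.sqrt q * q * (B - A) * D) / W := by
      field_simp
      ring
    rw [this, div_le_div_iff₀ (by positivity) hW0]
    nlinarith [m4]
  · have : 2 * S / W + -(2 * Real.sqrt q * q * 2417851639229258349412352000 * D / W) * ((B - A) / 2000) =
        2 * (S - 2 ^ 80 * Real.sqrt q * q * (B - A) * D) / W := by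
      field_simp
      ring
    rw [this, div_le_div_iff₀ (by positivity) hW0]
    nlinarith [m5]

/-- the first alternative on an interval between two nodes -/
theorem T_interval {n : ℕ} (a : Fin n → ℝ) (hsum : ∑ j, a j ^ 2 = 1) {q r A B tA tB : ℕ}
    (hq : 2 ≤ q) (hqn : q ≤ n) (h0 : 0 < A) (hAB : A < B) (h : chkTau q r A B tA tB = true)
    (hA : 1 - FV a ((A : ℝ) / 1000) 0 / 2 ^ n ≤ (tA : ℝ) / 2 ^ 40)
    (hB : 1 - FV a ((B : ℝ) / 1000) 0 / 2 ^ n ≤ (tB : ℝ) / 2 ^ 40) {t : ℝ}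
    (h1 : (A : ℝ) / 1000 ≤ t) (h2 : t ≤ (B : ℝ) / 1000) :
    ∃ q, 1 ≤ q ∧ q ≤ n ∧ FV (stdVec n q) t 0 ≤ FV a t 0 := by
  obtain ⟨p, rfl⟩ : ∃ p, q = p + 2 := ⟨q - 2, by omega⟩
  obtain ⟨v1, v2⟩ := tau_values hAB.le h
  have hA0 : (0 : ℝ) < A := by exact_mod_cast h0
  have ht0 : 0 ≤ t := le_trans (by positivity) h1
  set c := ((A + B : ℕ) : ℝ) / 2000 with hc
  have hc0 : 0 < c := by rw [hc]; push_cast; positivity
  refine alt_TF (by omega) hqn a ht0 ?_
  have ht := TF_tangent p hc0 ht0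
  have haff := T_affine a hsum (t1 := (A : ℝ) / 1000) (t := t) (t2 := (B : ℝ) / 1000)
    (A := TF (p + 2) c - dTF p c * c) (B := dTF p c) (by positivity) h1 h2
    (hA.trans (v1.trans (le_of_eq (by ring)))) (hB.trans (v2.trans (le_of_eq (by ring))))
  linarith

/-- threshold at a node -/
theorem T_node {n : ℕ} (a : Fin n → ℝ) (hsum : ∑ j, a j ^ 2 = 1) {N tau thr : ℕ} (hN0 : 0 < N)
    (h : chkThr N tau thr = true) {g : ℝ} (hg : (thr : ℝ) / 2 ^ 72 ≤ 5 / 4 * g)
    (hR : g ≤ ∑' k, fT a (5 / 4) ((N : ℝ) / 1000) k) :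
    1 - FV a ((N : ℝ) / 1000) 0 / 2 ^ n ≤ (tau : ℝ) / 2 ^ 40 := by
  unfold chkThr at h
  simp only [Bool.and_eq_true] at h
  obtain ⟨⟨h1, h2⟩, h3⟩ := h
  have g1 : (N : ℝ) ≤ 1830 := by exact_mod_cast Nat.le_of_ble_eq_true h1
  have g2 := Nat.le_of_ble_eq_true h2
  have g3 := Nat.le_of_ble_eq_true h3
  have hNp : (0 : ℝ) < N := by exact_mod_cast hN0
  have hpi1 := Real.pi_gt_d20
  have hpi2 := Real.pi_lt_d20
  have hpi0 := Real.pi_pos
  have hT := T_cert a hsum (t := (N : ℝ) / 1000) (δ := 5 / 4) (by positivity) (by norm_num)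
    (by linarith) (G := g) (R := 0) (by simpa using hR)
  rw [sub_zero] at hT
  set tt : ℝ := (N : ℝ) / 1000 with htt
  -- exponential
  have hal : 2 ^ 60 * Real.exp (-(3 * (2 * Real.pi / (5 / 4) - tt) ^ 2) / 2) ≤ (expU (aliR N) : ℝ) := by
    have hd : (aliR N : ℝ) / 2 ^ 72 ≤ 3 * (2 * Real.pi / (5 / 4) - tt) ^ 2 / 2 := by
      unfold aliR
      have hsub : N * 1208925819614629174706176 ≤ 1600 * 3797952473636338580784797 := by
        have := Nat.le_of_ble_eq_true h1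
        omega
      have k1 : (((3 * (1600 * 3797952473636338580784797 - N * 1208925819614629174706176) ^ 2) /
          (1000000 * 618970019642690137449562112) : ℕ) : ℝ) ≤
          ((3 * (1600 * 3797952473636338580784797 - N * 1208925819614629174706176) ^ 2 : ℕ) : ℝ) /
          ((1000000 * 618970019642690137449562112 : ℕ) : ℝ) := Nat.cast_div_le
      rw [Nat.cast_mul, Nat.cast_pow, Nat.cast_sub hsub] at k1
      push_cast at k1
      have k2 : (0 : ℝ) ≤ 1600 * 3797952473636338580784797 - N * 1208925819614629174706176 := by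
        nlinarith
      have k3 : (1600 * 3797952473636338580784797 - (N : ℝ) * 1208925819614629174706176) ≤
          1208925819614629174706176 * 1000 * (2 * Real.pi / (5 / 4) - tt) := by
        rw [htt]
        nlinarith
      have k4 := pow_le_pow_left₀ k2 k3 2
      rw [div_le_iff₀ (by positivity)]
      refine k1.trans ?_
      rw [div_le_iff₀ (by positivity)]
      nlinarith [k4]
    have k5 := expU_sound (R := aliR N)
    refine le_trans (mul_le_mul_of_nonneg_left (Real.exp_le_exp.2 ?_) (by positivity)) k5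
    have : -(3 * (2 * Real.pi / (5 / 4) - tt) ^ 2) / 2 = -(3 * (2 * Real.pi / (5 / 4) - tt) ^ 2 / 2) := by
      ring
    rw [this, neg_div]
    exact neg_le_neg hd
  set al := Real.exp (-(3 * (2 * Real.pi / (5 / 4) - tt) ^ 2) / 2) with hal0
  have hsub2 : tau * 1048576 ≤ 1152921504606846976 + 2 * expU (aliR N) := by
    have : tau * 1048576 ≤ 1099511627776 * 1048576 := Nat.mul_le_mul_right _ g2
    omega
  have g4 : (((1600 * 3797952473636338580796888 * (1152921504606846976 + 2 * expU (aliR N) - tau * 1048576) : ℕ)) : ℝ) ≤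
    (((1600 * thr * 590295810358705651712 + N * 2787593149816327892691964784081045188247552 : ℕ)) : ℝ) := by
    exact_mod_cast g3
  rw [Nat.cast_mul, Nat.cast_sub hsub2] at g4
  push_cast at g4
  have htau : (tau : ℝ) ≤ 2 ^ 40 := by
    have : (tau : ℝ) ≤ ((1099511627776 : ℕ) : ℝ) := by exact_mod_cast g2
    push_cast at this
    linarith
  -- conclusion
  have hal1 : 0 < al := Real.exp_pos _
  have hE : 2 ^ 60 * (1 - (tau : ℝ) / 2 ^ 40 + 2 * al) ≤
      1152921504606846976 + 2 * (expU (aliR N) : ℝ) - tau * 1048576 := by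
    nlinarith
  have hX0 : 0 ≤ 1 - (tau : ℝ) / 2 ^ 40 + 2 * al := by
    have : (tau : ℝ) / 2 ^ 40 ≤ 1 := by rw [div_le_one (by positivity)]; exact htau
    linarith
  set X := 1 - (tau : ℝ) / 2 ^ 40 + 2 * al with hX
  have hpiU : 2 ^ 80 * Real.pi ≤ 3797952473636338580796888 := by nlinarith
  have hmain : Real.pi * X / 2 - 5 / 8 * tt ≤ (thr : ℝ) / 2 ^ 72 := by
    have k1 : 2 ^ 80 * Real.pi * (2 ^ 60 * X) ≤ 3797952473636338580796888 *
        (1152921504606846976 + 2 * (expU (aliR N) : ℝ) - tau * 1048576) :=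
      mul_le_mul hpiU hE (by positivity) (by norm_num)
    rw [le_div_iff₀ (by positivity), htt]
    nlinarith [k1, g4]
  have hfin : Real.pi * X / 2 - 5 / 8 * tt ≤ 5 / 4 * g := hmain.trans hg
  -- T ≤ tau
  have hT2 : 1 - 5 / 4 * tt / Real.pi - 2 * (5 / 4) / Real.pi * g + 2 * al ≤ (tau : ℝ) / 2 ^ 40 := by
    have : 1 - 5 / 4 * tt / Real.pi - 2 * (5 / 4) / Real.pi * g + 2 * al =
        (tau : ℝ) / 2 ^ 40 + (X - (5 / 4 * tt + 2 * (5 / 4) * g) / Real.pi) := by
      rw [hX]; ring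
    rw [this]
    have k2 : X ≤ (5 / 4 * tt + 2 * (5 / 4) * g) / Real.pi := by
      rw [le_div_iff₀ hpi0]
      linarith
    linarith
  exact hT.trans hT2

end Pool.Agent.H60.SL.Ck
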