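import Pool.Agent.H60.SL.Env0
import Pool.Agent.H60.SL.Lom

set_option autoImplicit false

open MeasureTheory Set Filter Topology

namespace Pool.Agent.H60.SL

open Pool.Agent.H64.Slab Pool.Agent.H60.Slab Pool.Agent.H60.Big

/-- two variables -/
noncomputable def Qn (n : ℕ) (x y : ℝ) : ℝ :=
  ∑ i ∈ Finset.range n, (-1) ^ i * x ^ (2 * i) / ((2 * i).factorial : ℝ) * Cn (n - i) y

noncomputable def Rn (n : ℕ) (x y : ℝ) : ℝ :=
  ∑ i ∈ Finset.range n, (-1) ^ i * x ^ (2 * i + 1) / ((2 * i + 1).factorial : ℝ) * Cn (n - i) y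

theorem Rn_hasDerivAt (n : ℕ) (x y : ℝ) : HasDerivAt (fun x => Rn n x y) (Qn n x y) x := by
  unfold Rn Qn
  apply HasDerivAt.fun_sum
  intro j _
  have h := (((hasDerivAt_pow (2 * j + 1) x).const_mul ((-1 : ℝ) ^ j)).div_const
    ((2 * j + 1).factorial : ℝ)).mul_const (Cn (n - j) y)
  refine h.congr_deriv ?_
  rw [Nat.add_sub_cancel, Nat.factorial_succ (2 * j)]
  have : ((2 * j).factorial : ℝ) ≠ 0 := by positivity
  have h2 : ((2 * j + 1 : ℕ) : ℝ) ≠ 0 := by positivity
  push_cast at h2 ⊢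
  field_simp

theorem Qn_succ (n : ℕ) (x y : ℝ) : Qn (n + 1) x y =
    (∑ i ∈ Finset.range n, (-1) ^ (i + 1) * x ^ (2 * i + 2) / ((2 * i + 2).factorial : ℝ) *
      Cn (n - i) y) + Cn (n + 1) y := by
  unfold Qn
  rw [Finset.sum_range_succ']
  simp only [mul_zero, pow_zero, Nat.factorial_zero, Nat.cast_one, mul_one, div_one, one_mul,
    Nat.sub_zero, Nat.add_sub_add_right]
  congr 1

theorem Qn_hasDerivAt (n : ℕ) (x y : ℝ) : HasDerivAt (fun x => Qn (n + 1) x y) (-Rn n x y) x := by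
  simp only [Qn_succ]
  have e2 : -Rn n x y = ∑ j ∈ Finset.range n, (-1) ^ (j + 1) * x ^ (2 * j + 1) /
      ((2 * j + 1).factorial : ℝ) * Cn (n - j) y := by
    unfold Rn
    rw [← Finset.sum_neg_distrib]
    apply Finset.sum_congr rfl
    intro j _
    rw [pow_succ (-1 : ℝ) j]
    ring
  rw [e2]
  apply HasDerivAt.add_const
  apply HasDerivAt.fun_sum
  intro j _
  have h := (((hasDerivAt_pow (2 * j + 2) x).const_mul ((-1 : ℝ) ^ (j + 1))).div_const
    ((2 * j + 2).factorial : ℝ)).mul_const (Cn (n - j) y)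
  refine h.congr_deriv ?_
  rw [show 2 * j + 2 - 1 = 2 * j + 1 by omega, Nat.factorial_succ (2 * j + 1)]
  have : ((2 * j + 1).factorial : ℝ) ≠ 0 := by positivity
  have h2 : ((2 * j + 2 : ℕ) : ℝ) ≠ 0 := by positivity
  push_cast at h2 ⊢
  have h3 : (2 * (j : ℝ) + 1 + 1) ≠ 0 := by
    intro h; apply h2; linarith
  field_simp
  ring

theorem Qn_env : ∀ n : ℕ, ∀ x y : ℝ, 0 ≤ x → 0 ≤ y →
    0 ≤ (-1) ^ (n + 1) * (Real.cos x * Real.cos y - Qn (n + 1) x y) := by
  intro n
  induction n with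
  | zero =>
    intro x y _ _
    have e : Qn (0 + 1) x y = 1 := by
      simp [Qn, Cn]
    rw [e]
    have h1 := Real.abs_cos_le_one x
    have h2 := Real.abs_cos_le_one y
    have h3 : Real.cos x * Real.cos y ≤ 1 := by
      have : |Real.cos x * Real.cos y| ≤ 1 := by
        rw [abs_mul]
        exact mul_le_one₀ h1 (abs_nonneg _) h2
      exact (le_abs_self _).trans this
    norm_num
    linarith
  | succ n ih =>
    intro x y hx hy
    have h0 : Qn (n + 1 + 1) 0 y = Cn (n + 1 + 1) y := by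
      rw [Qn_succ]
      simp
    -- first derivative
    have hd1 : ∀ x, 0 ≤ x → 0 ≤ (-1) ^ (n + 1 + 1) * (-Real.sin x * Real.cos y + Rn (n + 1) x y) := by
      intro x hx
      apply nonneg_of_deriv
        (f := fun x => (-1) ^ (n + 1 + 1) * (-Real.sin x * Real.cos y + Rn (n + 1) x y))
        (f' := fun x => (-1) ^ (n + 1) * (Real.cos x * Real.cos y - Qn (n + 1) x y)) _ _
        (fun x hx => ih x y hx hy) hx
      · intro x
        have := ((((Real.hasDerivAt_sin x).neg).mul_const (Real.cos y)).add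
          (Rn_hasDerivAt (n + 1) x y)).const_mul ((-1 : ℝ) ^ (n + 1 + 1))
        refine this.congr_deriv ?_
        rw [pow_succ (-1 : ℝ) (n + 1)]
        ring
      · have : Rn (n + 1) 0 y = 0 := by
          unfold Rn
          apply Finset.sum_eq_zero
          intro i _
          simp
        simp [this]
    apply nonneg_of_deriv
      (f := fun x => (-1) ^ (n + 1 + 1) * (Real.cos x * Real.cos y - Qn (n + 1 + 1) x y))
      (f' := fun x => (-1) ^ (n + 1 + 1) * (-Real.sin x * Real.cos y + Rn (n + 1) x y)) _ _ hd1 hx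
    · intro x
      have := (((Real.hasDerivAt_cos x).mul_const (Real.cos y)).sub
        (Qn_hasDerivAt (n + 1) x y)).const_mul ((-1 : ℝ) ^ (n + 1 + 1))
      refine this.congr_deriv ?_
      ring
    · simp only [h0, Real.cos_zero, one_mul]
      exact cos_env (by omega) hy

/-- the positive functional `f ↦ 3/2 ∫ (1 - b²) f (v b)` -/
noncomputable def LF (v : ℝ) (f : ℝ → ℝ) : ℝ := 3 / 2 * ∫ b in (0 : ℝ)..1, (1 - b ^ 2) * f (v * b)

theorem LF_nonneg {v : ℝ} (hv : 0 ≤ v) {f : ℝ → ℝ} (hf : ∀ y, 0 ≤ y → 0 ≤ f y) : 0 ≤ LF v f := by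
  unfold LF
  apply mul_nonneg (by norm_num)
  apply intervalIntegral.integral_nonneg zero_le_one
  intro b hb
  apply mul_nonneg
  · nlinarith [hb.1, hb.2]
  · exact hf _ (mul_nonneg hv hb.1)

theorem LF_lin {v : ℝ} {f g : ℝ → ℝ} (hf : Continuous f) (hg : Continuous g) (a b : ℝ) :
    LF v (fun y => a * f y - b * g y) = a * LF v f - b * LF v g := by
  unfold LF
  have e : (fun s : ℝ => (1 - s ^ 2) * (a * f (v * s) - b * g (v * s))) = fun s =>
      a * ((1 - s ^ 2) * f (v * s)) - b * ((1 - s ^ 2) * g (v * s)) := by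
    ext s; ring
  rw [e, intervalIntegral.integral_sub (by apply Continuous.intervalIntegrable; fun_prop)
    (by apply Continuous.intervalIntegrable; fun_prop), intervalIntegral.integral_const_mul,
    intervalIntegral.integral_const_mul]
  ring

theorem LF_sum {v : ℝ} {n : ℕ} {f : ℕ → ℝ → ℝ} (hf : ∀ i, Continuous (f i)) (a : ℕ → ℝ) :
    LF v (fun y => ∑ i ∈ Finset.range n, a i * f i y) = ∑ i ∈ Finset.range n, a i * LF v (f i) := by
  unfold LF
  have e : (fun s : ℝ => (1 - s ^ 2) * ∑ i ∈ Finset.range n, a i * f i (v * s)) = fun s =>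
      ∑ i ∈ Finset.range n, a i * ((1 - s ^ 2) * f i (v * s)) := by
    ext s
    rw [Finset.mul_sum]
    apply Finset.sum_congr rfl
    intro i _
    ring
  rw [e, intervalIntegral.integral_finsetSum, Finset.mul_sum]
  · apply Finset.sum_congr rfl
    intro i _
    rw [intervalIntegral.integral_const_mul]
    ring
  · intro i _
    have := hf i
    apply Continuous.intervalIntegrable
    fun_prop

theorem LF_cos (v : ℝ) : LF v Real.cos = psi1 v := (psi1_int v).symm

/-- coefficients of `psi1` -/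
noncomputable def cE (i : ℕ) : ℝ := 3 * (2 * i + 2) / ((2 * i + 3).factorial : ℝ)

theorem LF_pow (v : ℝ) (i : ℕ) :
    LF v (fun y => y ^ (2 * i) / ((2 * i).factorial : ℝ)) = cE i * v ^ (2 * i) := by
  unfold LF
  have h := intervalIntegral.integral_eq_sub_of_hasDerivAt (a := (0 : ℝ)) (b := 1)
    (f := fun b => v ^ (2 * i) / ((2 * i).factorial : ℝ) * (b ^ (2 * i + 1) / (2 * i + 1) -
      b ^ (2 * i + 3) / (2 * i + 3)))
    (f' := fun b => (1 - b ^ 2) * ((v * b) ^ (2 * i) / ((2 * i).factorial : ℝ))) (fun b _ => by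
      have := (((hasDerivAt_pow (2 * i + 1) b).div_const (2 * (i : ℝ) + 1)).sub
        ((hasDerivAt_pow (2 * i + 3) b).div_const (2 * (i : ℝ) + 3))).const_mul
        (v ^ (2 * i) / ((2 * i).factorial : ℝ))
      refine this.congr_deriv ?_
      rw [Nat.add_sub_cancel, show 2 * i + 3 - 1 = 2 * i + 2 by omega]
      push_cast
      have h1 : (2 * (i : ℝ) + 1) ≠ 0 := by positivity
      have h2 : (2 * (i : ℝ) + 3) ≠ 0 := by positivity
      field_simp
      ring) (by apply Continuous.intervalIntegrable; fun_prop)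
  rw [h]
  unfold cE
  have e : ((2 * i + 3).factorial : ℝ) = (2 * i + 3) * ((2 * i + 2) * ((2 * i + 1) *
      ((2 * i).factorial : ℝ))) := by
    rw [Nat.factorial_succ (2 * i + 2), Nat.factorial_succ (2 * i + 1), Nat.factorial_succ (2 * i)]
    push_cast
    ring
  rw [e]
  have h0 : ((2 * i).factorial : ℝ) ≠ 0 := by positivity
  have h1 : (2 * (i : ℝ) + 1) ≠ 0 := by positivity
  have h2 : (2 * (i : ℝ) + 3) ≠ 0 := by positivity
  have h3 : (2 * (i : ℝ) + 2) ≠ 0 := by positivity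
  simp only [one_pow, ne_eq, Nat.add_eq_zero_iff, mul_eq_zero, OfNat.ofNat_ne_zero, false_or,
    one_ne_zero, and_false, not_false_eq_true, zero_pow, zero_div, sub_zero, mul_zero]
  field_simp
  ring

/-- Taylor polynomials of `psi1` -/
noncomputable def Pn (n : ℕ) (v : ℝ) : ℝ := ∑ j ∈ Finset.range n, (-1) ^ j * (cE j * v ^ (2 * j))

theorem LF_Cn (v : ℝ) (n : ℕ) : LF v (Cn n) = Pn n v := by
  have e : Cn n = fun y => ∑ j ∈ Finset.range n, (-1 : ℝ) ^ j *
      (y ^ (2 * j) / ((2 * j).factorial : ℝ)) := by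
    ext y
    unfold Cn
    apply Finset.sum_congr rfl
    intro j _
    ring
  rw [e, LF_sum (f := fun j y => y ^ (2 * j) / ((2 * j).factorial : ℝ)) (fun i => by fun_prop)]
  unfold Pn
  apply Finset.sum_congr rfl
  intro j _
  rw [LF_pow]

theorem psi1_env2 (n : ℕ) {u v : ℝ} (hu : 0 ≤ u) (hv : 0 ≤ v) :
    0 ≤ (-1) ^ (n + 1) * (psi1 u * psi1 v -
      ∑ i ∈ Finset.range (n + 1), (-1) ^ i * (cE i * u ^ (2 * i)) * Pn (n + 1 - i) v) := by
  -- lift in y
  have h1 : ∀ x : ℝ, 0 ≤ x → 0 ≤ (-1) ^ (n + 1) * (Real.cos x * psi1 v -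
      ∑ i ∈ Finset.range (n + 1), (-1) ^ i * x ^ (2 * i) / ((2 * i).factorial : ℝ) *
        Pn (n + 1 - i) v) := by
    intro x hx
    have h2 := LF_nonneg hv (f := fun y => ((-1) ^ (n + 1) * Real.cos x) * Real.cos y -
      (-1) ^ (n + 1) * ∑ i ∈ Finset.range (n + 1), ((-1) ^ i * x ^ (2 * i) /
        ((2 * i).factorial : ℝ)) * Cn (n + 1 - i) y) (by
      intro y hy
      have := Qn_env n x y hx hy
      unfold Qn at this
      linarith)
    have hc := fun k => Cn_continuous k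
    rw [LF_lin Real.continuous_cos (by fun_prop), LF_cos, LF_sum (fun i => hc _)] at h2
    simp only [LF_Cn] at h2
    linarith
  have h3 := LF_nonneg hu (f := fun x => ((-1) ^ (n + 1) * psi1 v) * Real.cos x -
      (-1) ^ (n + 1) * ∑ i ∈ Finset.range (n + 1), ((-1) ^ i * Pn (n + 1 - i) v) *
        (x ^ (2 * i) / ((2 * i).factorial : ℝ))) (by
      intro x hx
      have := h1 x hx
      have e : ∑ i ∈ Finset.range (n + 1), (-1) ^ i * x ^ (2 * i) / ((2 * i).factorial : ℝ) *
          Pn (n + 1 - i) v = ∑ i ∈ Finset.range (n + 1), ((-1) ^ i * Pn (n + 1 - i) v) *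
        (x ^ (2 * i) / ((2 * i).factorial : ℝ)) := by
        apply Finset.sum_congr rfl
        intro i _
        ring
      rw [e] at this
      linarith)
  rw [LF_lin Real.continuous_cos (by fun_prop), LF_cos,
    LF_sum (f := fun i x => x ^ (2 * i) / ((2 * i).factorial : ℝ)) (fun i => by fun_prop)] at h3
  simp only [LF_pow] at h3
  have e : ∑ i ∈ Finset.range (n + 1), (-1) ^ i * (cE i * u ^ (2 * i)) * Pn (n + 1 - i) v =
      ∑ i ∈ Finset.range (n + 1), ((-1) ^ i * Pn (n + 1 - i) v) * (cE i * u ^ (2 * i)) := by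
    apply Finset.sum_congr rfl
    intro i _
    ring
  rw [e]
  linarith

/-- coefficients of `KI` -/
noncomputable def EE (m : ℕ) (u v : ℝ) : ℝ := 5 / (2 * m + 5) *
  ∑ p ∈ Finset.HasAntidiagonal.antidiagonal m, cE p.1 * cE p.2 * u ^ (2 * p.1) * v ^ (2 * p.2)

theorem double_sum (n : ℕ) (u v s : ℝ) :
    ∑ i ∈ Finset.range n, (-1) ^ i * (cE i * (u * s) ^ (2 * i)) * Pn (n - i) (v * s) =
      ∑ m ∈ Finset.range n, (-1) ^ m * ((∑ p ∈ Finset.HasAntidiagonal.antidiagonal m,
        cE p.1 * cE p.2 * u ^ (2 * p.1) * v ^ (2 * p.2)) * s ^ (2 * m)) := by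
  have h1 : ∀ i, (-1 : ℝ) ^ i * (cE i * (u * s) ^ (2 * i)) * Pn (n - i) (v * s) =
      ∑ k ∈ Finset.range (n - i), (-1) ^ (i + k) * (cE i * cE k * u ^ (2 * i) * v ^ (2 * k) *
        s ^ (2 * (i + k))) := by
    intro i
    unfold Pn
    rw [Finset.mul_sum]
    apply Finset.sum_congr rfl
    intro k _
    rw [mul_pow, mul_pow, pow_add, mul_add, pow_add s]
    ring
  simp only [h1]
  rw [← Finset.sum_range_diag_flip n (fun i k => (-1 : ℝ) ^ (i + k) *
    (cE i * cE k * u ^ (2 * i) * v ^ (2 * k) * s ^ (2 * (i + k))))]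
  apply Finset.sum_congr rfl
  intro m _
  rw [Finset.Nat.sum_antidiagonal_eq_sum_range_succ (fun i k => cE i * cE k * u ^ (2 * i) *
    v ^ (2 * k)) m, Finset.sum_mul, Finset.mul_sum]
  apply Finset.sum_congr rfl
  intro k hk
  rw [Finset.mem_range] at hk
  have : k + (m - k) = m := by omega
  rw [this]

/-- enveloping property for `KI` -/
theorem KI_env {n : ℕ} (hn : 1 ≤ n) {u v : ℝ} (hu : 0 ≤ u) (hv : 0 ≤ v) :
    0 ≤ (-1) ^ n * (KI u v - ∑ m ∈ Finset.range n, (-1) ^ m * EE m u v) := by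
  obtain ⟨k, rfl⟩ : ∃ k, n = k + 1 := ⟨n - 1, by omega⟩
  set F : ℕ → ℝ := fun m => ∑ p ∈ Finset.HasAntidiagonal.antidiagonal m,
    cE p.1 * cE p.2 * u ^ (2 * p.1) * v ^ (2 * p.2) with hF
  have h1 : 0 ≤ 5 * ∫ s in (0 : ℝ)..1, s ^ 4 * ((-1) ^ (k + 1) * (psi1 (u * s) * psi1 (v * s) -
      ∑ m ∈ Finset.range (k + 1), (-1) ^ m * (F m * s ^ (2 * m)))) := by
    apply mul_nonneg (by norm_num)
    apply intervalIntegral.integral_nonneg zero_le_one
    intro s hs
    apply mul_nonneg (by positivity)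
    have := psi1_env2 k (mul_nonneg hu hs.1) (mul_nonneg hv hs.1)
    rwa [double_sum] at this
  have hp := psi1_continuous
  have e : (fun s : ℝ => s ^ 4 * ((-1) ^ (k + 1) * (psi1 (u * s) * psi1 (v * s) -
      ∑ m ∈ Finset.range (k + 1), (-1) ^ m * (F m * s ^ (2 * m))))) = fun s =>
      (-1) ^ (k + 1) * (s ^ 4 * (psi1 (u * s) * psi1 (v * s))) -
      ∑ m ∈ Finset.range (k + 1), ((-1) ^ (k + 1) * ((-1) ^ m * F m)) * s ^ (2 * m + 4) := by
    ext s
    have : ∑ m ∈ Finset.range (k + 1), ((-1) ^ (k + 1) * ((-1) ^ m * F m)) * s ^ (2 * m + 4) =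
        s ^ 4 * ((-1) ^ (k + 1) * ∑ m ∈ Finset.range (k + 1), (-1) ^ m * (F m * s ^ (2 * m))) := by
      rw [Finset.mul_sum, Finset.mul_sum]
      apply Finset.sum_congr rfl
      intro m _
      rw [pow_add]
      ring
    rw [this]
    ring
  rw [e, intervalIntegral.integral_sub (by apply Continuous.intervalIntegrable; fun_prop)
    (by apply Continuous.intervalIntegrable; fun_prop), intervalIntegral.integral_const_mul,
    intervalIntegral.integral_finsetSum (by
      intro i _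
      apply Continuous.intervalIntegrable; fun_prop)] at h1
  simp only [intervalIntegral.integral_const_mul, integral_pow] at h1
  have e3 : 5 * ∑ m ∈ Finset.range (k + 1), (-1) ^ (k + 1) * ((-1) ^ m * F m) *
      ((1 ^ (2 * m + 4 + 1) - 0 ^ (2 * m + 4 + 1)) / (((2 * m + 4 : ℕ) : ℝ) + 1)) =
      (-1) ^ (k + 1) * ∑ m ∈ Finset.range (k + 1), (-1) ^ m * EE m u v := by
    rw [Finset.mul_sum, Finset.mul_sum]
    apply Finset.sum_congr rfl
    intro m _
    unfold EE
    rw [zero_pow (by omega), one_pow]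
    push_cast
    have : (2 * (m : ℝ) + 4 + 1) = 2 * m + 5 := by ring
    rw [this]
    ring
  rw [mul_sub, e3] at h1
  unfold KI
  linarith

theorem KI_lower {m : ℕ} (hm : 1 ≤ m) {u v : ℝ} (hu : 0 ≤ u) (hv : 0 ≤ v) :
    ∑ i ∈ Finset.range (2 * m), (-1) ^ i * EE i u v ≤ KI u v := by
  have := KI_env (n := 2 * m) (by omega) hu hv
  rw [pow_mul] at this
  norm_num at this
  linarith

theorem KI_upper (m : ℕ) {u v : ℝ} (hu : 0 ≤ u) (hv : 0 ≤ v) :
    KI u v ≤ ∑ i ∈ Finset.range (2 * m + 1), (-1) ^ i * EE i u v := by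
  have := KI_env (n := 2 * m + 1) (by omega) hu hv
  rw [pow_succ, pow_mul] at this
  norm_num at this
  linarith

/-- diagonal bound -/
theorem KI_diag_le {u : ℝ} (hu : 0 < u) : KI u u ≤ 45 * (u / 2 + 1 / 4) / u ^ 5 := by
  rw [KI_diag hu.ne']
  apply div_le_div_of_nonneg_right _ (by positivity)
  have h1 : Real.sin (2 * u) ≤ 1 := Real.sin_le_one _
  have h2 : 0 ≤ Real.sin u ^ 2 / u := by positivity
  linarith

theorem KI_diag_nonneg (u : ℝ) : 0 ≤ KI u u := by
  unfold KI
  apply mul_nonneg (by norm_num)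
  apply intervalIntegral.integral_nonneg zero_le_one
  intro s _
  have := mul_self_nonneg (psi1 (u * s))
  positivity

end Pool.Agent.H60.SL
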