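import Pool.Agent.H60.SL.CkKDefs
import Pool.Agent.H60.SL.Env

set_option autoImplicit false

namespace Pool.Agent.H60.SL.Ck

theorem p384_eq : (p384 : ℝ) = 2 ^ 384 := by
  have : p384 = 2 ^ 384 := by decide +kernel
  rw [this]; push_cast; rfl

/-- `l` represents `g` at scale `P` up to `e` -/
def Rep (P e : ℝ) : List ℕ → (ℕ → ℝ) → Prop
  | [], _ => True
  | x :: l, g => ((x : ℝ) ≤ P * g 0 ∧ P * g 0 ≤ x + e) ∧ Rep P e l (fun j => g (j + 1))

theorem cE_zero : cE 0 = 1 := by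
  unfold cE
  norm_num [Nat.factorial]

theorem cE_succ (i : ℕ) : cE (i + 1) = cE i / ((2 * i + 2) * (2 * i + 5)) := by
  unfold cE
  rw [show 2 * (i + 1) + 3 = (2 * i + 3) + 1 + 1 by ring, Nat.factorial_succ, Nat.factorial_succ]
  have h : (((2 * i + 3).factorial : ℕ) : ℝ) ≠ 0 := by positivity
  have h1 : (2 * (i : ℝ) + 2) ≠ 0 := by positivity
  have h2 : (2 * (i : ℝ) + 5) ≠ 0 := by positivity
  push_cast
  have h3 : (2 * (i : ℝ) + 3 + 1) ≠ 0 := by positivity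
  have h4 : (2 * (i : ℝ) + 3 + 1 + 1) ≠ 0 := by positivity
  field_simp
  ring

/-- the terms -/
noncomputable def ta (E : ℕ) (i : ℕ) : ℝ := cE i * ((E : ℝ) / 2 ^ 24) ^ i

theorem ta_zero (E : ℕ) : ta E 0 = 1 := by simp [ta, cE_zero]

theorem ta_succ (E i : ℕ) : ta E (i + 1) = ta E i * (E : ℝ) / (16777216 * ((2 * i + 2) * (2 * i + 5))) := by
  unfold ta
  rw [cE_succ, pow_succ]
  have h1 : (2 * (i : ℝ) + 2) ≠ 0 := by positivity
  have h2 : (2 * (i : ℝ) + 5) ≠ 0 := by positivity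
  have h3 : (2 : ℝ) ^ 24 = 16777216 := by norm_num
  rw [h3]
  field_simp

theorem ta_nonneg (E i : ℕ) : 0 ≤ ta E i := by
  unfold ta cE
  positivity

theorem ta_le_one {E : ℕ} (hE : E ≤ 2 ^ 25) : ∀ i, ta E i ≤ 1
  | 0 => (ta_zero E).le
  | i + 1 => by
    have h := ta_le_one hE i
    have h0 := ta_nonneg E i
    have hE' : (E : ℝ) ≤ 2 ^ 25 := by exact_mod_cast hE
    have hE0 : (0 : ℝ) ≤ E := Nat.cast_nonneg E
    rw [ta_succ, div_le_one (by positivity)]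
    have hi : (0 : ℝ) ≤ i := Nat.cast_nonneg i
    have h3 : ta E i * (E : ℝ) ≤ 1 * 2 ^ 25 := mul_le_mul h hE' hE0 (by norm_num)
    have h4 : (10 : ℝ) ≤ (2 * i + 2) * (2 * i + 5) := by nlinarith
    norm_num at h3 ⊢
    linarith

theorem rep_serA {E : ℕ} (hE : E ≤ 2 ^ 25) : ∀ (n i a : ℕ), (a : ℝ) ≤ 2 ^ 384 * ta E i →
    2 ^ 384 * ta E i ≤ a + 2 → Rep (2 ^ 384) 2 (serA E n i a) (fun j => ta E (i + j))
  | 0, _, _, _, _ => trivial
  | n + 1, i, a, h1, h2 => by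
    rw [serA, Rep]
    refine ⟨⟨h1, h2⟩, ?_⟩
    have hE' : (E : ℝ) ≤ 33554432 := by
      have : E ≤ 33554432 := by simpa using hE
      exact_mod_cast this
    have hE0 : (0 : ℝ) ≤ E := Nat.cast_nonneg E
    have hq : 0 < 16777216 * ((2 * i + 2) * (2 * i + 5)) := by positivity
    have hq' : (0 : ℝ) < ((16777216 * ((2 * i + 2) * (2 * i + 5)) : ℕ) : ℝ) := by exact_mod_cast hq
    have hi : (0 : ℝ) ≤ i := Nat.cast_nonneg i
    have e : 2 ^ 384 * ta E (i + 1) = 2 ^ 384 * ta E i * (E : ℝ) /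
        ((16777216 * ((2 * i + 2) * (2 * i + 5)) : ℕ) : ℝ) := by
      rw [ta_succ]; push_cast; ring
    have h4 : (10 : ℝ) ≤ (2 * i + 2) * (2 * i + 5) := by nlinarith
    have h := rep_serA hE n (i + 1) (a * E / (16777216 * ((2 * i + 2) * (2 * i + 5)))) ?_ ?_
    · have e : (fun j => ta E (i + (j + 1))) = fun j => ta E (i + 1 + j) := by
        funext j; congr 1; ring
      rw [e]; exact h
    · rw [e]
      refine (Nat.cast_div_le).trans ?_
      rw [Nat.cast_mul]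
      exact div_le_div_of_nonneg_right (mul_le_mul_of_nonneg_right h1 hE0) hq'.le
    · rw [e]
      have hfl : ((a * E : ℕ) : ℝ) / ((16777216 * ((2 * i + 2) * (2 * i + 5)) : ℕ) : ℝ) ≤
          ((a * E / (16777216 * ((2 * i + 2) * (2 * i + 5))) : ℕ) : ℝ) + 1 := by
        rw [div_le_iff₀ hq']
        have := Nat.lt_div_mul_add (a := a * E) hq
        have h5 : ((a * E : ℕ) : ℝ) < ((a * E / (16777216 * ((2 * i + 2) * (2 * i + 5))) : ℕ) : ℝ) *
          ((16777216 * ((2 * i + 2) * (2 * i + 5)) : ℕ) : ℝ) +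
            ((16777216 * ((2 * i + 2) * (2 * i + 5)) : ℕ) : ℝ) := by exact_mod_cast this
        linarith
      have h6 : 2 ^ 384 * ta E i * (E : ℝ) ≤ ((a * E : ℕ) : ℝ) + 2 * E := by
        have := mul_le_mul_of_nonneg_right h2 hE0
        push_cast
        linarith
      have h7 : (2 * E : ℝ) / ((16777216 * ((2 * i + 2) * (2 * i + 5)) : ℕ) : ℝ) ≤ 1 := by
        rw [div_le_one hq']
        push_cast
        linarith
      calc _ ≤ (((a * E : ℕ) : ℝ) + 2 * E) / ((16777216 * ((2 * i + 2) * (2 * i + 5)) : ℕ) : ℝ) :=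
            div_le_div_of_nonneg_right h6 hq'.le
        _ = ((a * E : ℕ) : ℝ) / ((16777216 * ((2 * i + 2) * (2 * i + 5)) : ℕ) : ℝ) +
            (2 * E : ℝ) / ((16777216 * ((2 * i + 2) * (2 * i + 5)) : ℕ) : ℝ) := by rw [add_div]
        _ ≤ _ := by linarith

theorem serA_length (E : ℕ) : ∀ n i a, (serA E n i a).length = n
  | 0, _, _ => rfl
  | n + 1, i, a => by rw [serA, List.length_cons, serA_length E n]

/-- dot products -/
theorem dot_bound : ∀ (a b : List ℕ) (g h : ℕ → ℝ), b.length ≤ a.length →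
    Rep (2 ^ 384) 2 a g → Rep (2 ^ 384) 2 b h → (∀ j, 0 ≤ g j ∧ g j ≤ 1) → (∀ j, 0 ≤ h j ∧ h j ≤ 1) →
    (dot a b : ℝ) ≤ 2 ^ 384 * 2 ^ 384 * ∑ j ∈ Finset.range b.length, g j * h j ∧
    2 ^ 384 * 2 ^ 384 * ∑ j ∈ Finset.range b.length, g j * h j ≤
      (dot a b : ℝ) + (4 * 2 ^ 384 + 4) * b.length
  | a, [], g, h, _, _, _, _, _ => by
    cases a <;> simp [dot]
  | [], y :: ys, _, _, hl, _, _, _, _ => by simp at hl
  | x :: xs, y :: ys, g, h, hl, ha, hb, hg, hh => by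
    rw [Rep] at ha hb
    obtain ⟨⟨a1, a2⟩, ha'⟩ := ha
    obtain ⟨⟨b1, b2⟩, hb'⟩ := hb
    have ih := dot_bound xs ys (fun j => g (j + 1)) (fun j => h (j + 1)) (by simpa using hl) ha' hb'
      (fun j => hg _) (fun j => hh _)
    rw [dot, List.length_cons, Finset.sum_range_succ']
    push_cast
    have x0 : (0 : ℝ) ≤ x := Nat.cast_nonneg x
    have y0 : (0 : ℝ) ≤ y := Nat.cast_nonneg y
    have g1 := hg 0
    have h1 := hh 0
    have P : (0 : ℝ) < 2 ^ 384 := by positivity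
    generalize (2 : ℝ) ^ 384 = p at *
    have l1 : (x : ℝ) * y ≤ p * p * (g 0 * h 0) := by
      have := mul_le_mul a1 b1 y0 (mul_nonneg P.le g1.1)
      nlinarith
    have l2 : p * p * (g 0 * h 0) ≤ (x : ℝ) * y + (4 * p + 4) := by
      have h3 := mul_le_mul a2 b2 (mul_nonneg P.le h1.1) (by linarith)
      have h4 : (x : ℝ) ≤ p := by nlinarith
      have h5 : (y : ℝ) ≤ p := by nlinarith
      nlinarith
    constructor
    · nlinarith [ih.1]
    · nlinarith [ih.2]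

/-- coefficients of `KI` along a ray -/
noncomputable def tE (EA EG m : ℕ) : ℝ :=
  5 / (2 * m + 5) * ∑ j ∈ Finset.range (m + 1), ta EA j * ta EG (m - j)

theorem tE_nonneg (EA EG m : ℕ) : 0 ≤ tE EA EG m := by
  unfold tE
  have := Finset.sum_nonneg fun j (_ : j ∈ Finset.range (m + 1)) =>
    mul_nonneg (ta_nonneg EA j) (ta_nonneg EG (m - j))
  positivity

theorem EE_eq {EA EG k m : ℕ} {u v : ℝ} (hu : u ^ 2 = (k : ℝ) ^ 2 * ((EA : ℝ) / 2 ^ 24))
    (hv : v ^ 2 = (k : ℝ) ^ 2 * ((EG : ℝ) / 2 ^ 24)) : EE m u v = (k : ℝ) ^ (2 * m) * tE EA EG m := by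
  unfold EE tE
  rw [Finset.Nat.sum_antidiagonal_eq_sum_range_succ_mk]
  rw [mul_left_comm]
  congr 1
  rw [Finset.mul_sum]
  refine Finset.sum_congr rfl fun j hj => ?_
  rw [Finset.mem_range] at hj
  simp only [pow_mul, hu, hv]
  unfold ta
  have e : ((k : ℝ) ^ 2) ^ m = ((k : ℝ) ^ 2) ^ j * ((k : ℝ) ^ 2) ^ (m - j) := by
    rw [← pow_add, Nat.add_sub_cancel' (by omega)]
  rw [e, mul_pow, mul_pow]
  ring

theorem rep_convL {EA EG : ℕ} (hA : EA ≤ 2 ^ 25) (hG : EG ≤ 2 ^ 25) (a : List ℕ)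
    (ha : Rep (2 ^ 384) 2 a (ta EA)) : ∀ (ys rb : List ℕ) (m : ℕ), rb.length = m →
    m + ys.length ≤ a.length → a.length ≤ 29 →
    Rep (2 ^ 384) 2 ys (fun j => ta EG (m + j)) →
    (∀ y : ℕ, (y : ℝ) ≤ 2 ^ 384 * ta EG m → 2 ^ 384 * ta EG m ≤ y + 2 →
      Rep (2 ^ 384) 2 (y :: rb) (fun j => ta EG (m - j))) →
    Rep (2 ^ 384) 16 (convL a ys rb m) (fun j => tE EA EG (m + j))
  | [], _, _, _, _, _, _, _ => trivial
  | y :: ys, rb, m, hm, hl, hl29, hy, hrb => by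
    rw [convL, Rep]
    rw [Rep] at hy
    obtain ⟨⟨y1, y2⟩, hys⟩ := hy
    rw [add_zero] at y1 y2
    have hr := hrb y y1 y2
    rw [List.length_cons] at hl
    have hd := dot_bound a (y :: rb) (ta EA) (fun j => ta EG (m - j))
      (by rw [List.length_cons, hm]; omega) ha hr (fun j => ⟨ta_nonneg _ _, ta_le_one hA _⟩)
      (fun j => ⟨ta_nonneg _ _, ta_le_one hG _⟩)
    rw [List.length_cons, hm] at hd
    constructor
    · rw [add_zero, tE]
      have hP : 0 < p384 := by decide +kernel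
      have hq : 0 < (2 * m + 5) * p384 := by positivity
      have hq' : (0 : ℝ) < (((2 * m + 5) * p384 : ℕ) : ℝ) := by exact_mod_cast hq
      have P : (0 : ℝ) < 2 ^ 384 := by positivity
      have P1 : (256 : ℝ) ≤ 2 ^ 384 := by
        calc (256 : ℝ) = 2 ^ 8 := by norm_num
          _ ≤ 2 ^ 384 := pow_le_pow_right₀ (by norm_num) (by norm_num)
      have hqe : (((2 * m + 5) * p384 : ℕ) : ℝ) = (2 * m + 5) * 2 ^ 384 := by
        rw [Nat.cast_mul, p384_eq]; push_cast; ring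
      set d := dot a (y :: rb) with hdd
      set S := ∑ j ∈ Finset.range (m + 1), ta EA j * ta EG (m - j) with hS
      have e : 2 ^ 384 * (5 / (2 * (m : ℝ) + 5) * S) = 5 * (2 ^ 384 * 2 ^ 384 * S) / ((2 * m + 5) * 2 ^ 384) := by
        have : (2 * (m : ℝ) + 5) ≠ 0 := by positivity
        generalize (2 : ℝ) ^ 384 = p at *
        field_simp
      rw [e]
      have hq2 : (0 : ℝ) < (2 * m + 5) * 2 ^ 384 := by positivity
      constructor
      · refine (Nat.cast_div_le).trans ?_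
        rw [hqe]
        apply div_le_div_of_nonneg_right _ hq2.le
        push_cast
        linarith [hd.1]
      · have hfl : ((5 * d : ℕ) : ℝ) / ((2 * m + 5) * 2 ^ 384) ≤
            ((5 * d / ((2 * m + 5) * p384) : ℕ) : ℝ) + 1 := by
          rw [← hqe, div_le_iff₀ hq']
          have := Nat.lt_div_mul_add (a := 5 * d) hq
          have h5 : ((5 * d : ℕ) : ℝ) < ((5 * d / ((2 * m + 5) * p384) : ℕ) : ℝ) *
            (((2 * m + 5) * p384 : ℕ) : ℝ) + (((2 * m + 5) * p384 : ℕ) : ℝ) := by exact_mod_cast this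
          linarith
        have hm0 : (0 : ℝ) ≤ m := Nat.cast_nonneg m
        have hd2 := hd.2
        push_cast at hd2 hfl
        have h6 : 5 * (2 ^ 384 * 2 ^ 384 * S) / ((2 * m + 5) * 2 ^ 384) ≤
            (5 * (d : ℝ) + 5 * ((4 * 2 ^ 384 + 4) * (m + 1))) / ((2 * m + 5) * 2 ^ 384) := by
          apply div_le_div_of_nonneg_right _ hq2.le
          linarith
        have h7 : 5 * ((4 * 2 ^ 384 + 4) * ((m : ℝ) + 1)) / ((2 * m + 5) * 2 ^ 384) ≤ 15 := by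
          rw [div_le_iff₀ hq2]
          generalize (2 : ℝ) ^ 384 = p at *
          have w : (4 * p + 4) * ((m : ℝ) + 1) ≤ (5 * p) * ((m : ℝ) + 1) :=
            mul_le_mul_of_nonneg_right (by linarith) (by linarith)
          nlinarith
        rw [add_div] at h6
        linarith
    · have h := rep_convL hA hG a ha ys (y :: rb) (m + 1) (by rw [List.length_cons, hm])
        (by omega) hl29 ?_ ?_
      · have e : (fun j => tE EA EG (m + (j + 1))) = fun j => tE EA EG (m + 1 + j) := by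
          funext j; congr 1; ring
        rw [e]; exact h
      · have e : (fun j => ta EG (m + 1 + j)) = fun j => ta EG (m + (j + 1)) := by
          funext j; congr 1; ring
        rw [e]; exact hys
      · intro z z1 z2
        rw [Rep]
        refine ⟨⟨z1, z2⟩, ?_⟩
        have e : (fun j => ta EG (m + 1 - (j + 1))) = fun j => ta EG (m - j) := by
          funext j; congr 1; omega
        rw [e]; exact hr

theorem rep_init {EG : ℕ} (y : ℕ) (h1 : (y : ℝ) ≤ 2 ^ 384 * ta EG 0)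
    (h2 : 2 ^ 384 * ta EG 0 ≤ y + 2) : Rep (2 ^ 384) 2 [y] (fun j => ta EG (0 - j)) :=
  ⟨⟨h1, h2⟩, trivial⟩

theorem rep_kiCoef {EA EG : ℕ} (hA : EA ≤ 2 ^ 25) (hG : EG ≤ 2 ^ 25) :
    Rep (2 ^ 384) 16 (kiCoef EA EG) (tE EA EG) := by
  have p1 : ∀ E, (p384 : ℝ) ≤ 2 ^ 384 * ta E 0 := fun E => by rw [ta_zero, p384_eq, mul_one]
  have p2 : ∀ E, 2 ^ 384 * ta E 0 ≤ (p384 : ℝ) + 2 := fun E => by
    rw [ta_zero, p384_eq, mul_one]; linarith
  have hA' := rep_serA hA 29 0 p384 (p1 EA) (p2 EA)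
  have hG' := rep_serA hG 29 0 p384 (p1 EG) (p2 EG)
  have e : ∀ E, (fun j => ta E (0 + j)) = ta E := fun E => by funext j; rw [zero_add]
  rw [e] at hA'
  have h := rep_convL hA hG (serA EA 29 0 p384) hA' (serA EG 29 0 p384) [] 0 rfl
    (by rw [serA_length, serA_length]) (by rw [serA_length]) hG' (fun y h1 h2 => rep_init y h1 h2)
  have e2 : (fun j => tE EA EG (0 + j)) = tE EA EG := by funext j; rw [zero_add]
  rw [e2] at h
  exact h

/-! ## Horner sums -/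

theorem horn_bound {k : ℕ} (hk : 1 ≤ k) : ∀ (l : List ℕ) (g : ℕ → ℝ), Rep (2 ^ 384) 16 l g →
    |2 ^ 384 * ∑ j ∈ Finset.range l.length, (-1) ^ j * ((k : ℝ) ^ (2 * j) * g j) -
      ((hornE (k ^ 4) l : ℝ) - (k : ℝ) ^ 2 * hornO (k ^ 4) l)| ≤ 16 * l.length * (k : ℝ) ^ (2 * l.length)
  | [], _, _ => by simp [hornE, hornO]
  | [x], g, h => by
    rw [Rep] at h
    obtain ⟨⟨h1, h2⟩, _⟩ := h
    have hk1 : (1 : ℝ) ≤ (k : ℝ) ^ 2 := one_le_pow₀ (by exact_mod_cast hk)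
    simp only [List.length_cons, List.length_nil, hornE, hornO, zero_add, Finset.sum_range_one,
      pow_zero, mul_zero, one_mul, Nat.cast_zero, sub_zero, Nat.cast_one, mul_one]
    rw [abs_le]
    constructor <;> nlinarith
  | x :: y :: l, g, h => by
    rw [Rep, Rep] at h
    obtain ⟨⟨x1, x2⟩, ⟨y1, y2⟩, hl⟩ := h
    have ih := horn_bound hk l _ hl
    have hk1 : (1 : ℝ) ≤ (k : ℝ) := by exact_mod_cast hk
    have hk2 : (1 : ℝ) ≤ (k : ℝ) ^ 2 := one_le_pow₀ hk1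
    have hkl : (1 : ℝ) ≤ (k : ℝ) ^ (2 * l.length) := one_le_pow₀ hk1
    rw [List.length_cons, List.length_cons, Finset.sum_range_succ', Finset.sum_range_succ']
    have e1 : ∑ j ∈ Finset.range l.length, (-1 : ℝ) ^ (j + 1 + 1) * ((k : ℝ) ^ (2 * (j + 1 + 1)) * g (j + 1 + 1)) =
        (k : ℝ) ^ 4 * ∑ j ∈ Finset.range l.length, (-1) ^ j * ((k : ℝ) ^ (2 * j) * g (j + 1 + 1)) := by
      rw [Finset.mul_sum]
      refine Finset.sum_congr rfl fun j _ => ?_
      rw [show 2 * (j + 1 + 1) = 2 * j + 4 by ring, pow_add, pow_succ, pow_succ]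
      ring
    rw [e1]
    have e2 : (hornE (k ^ 4) (x :: y :: l) : ℝ) = x + (k : ℝ) ^ 4 * hornE (k ^ 4) l := by
      rw [hornE]; push_cast; ring
    have e3 : (hornO (k ^ 4) (x :: y :: l) : ℝ) = y + (k : ℝ) ^ 4 * hornO (k ^ 4) l := by
      rw [hornO]; push_cast; ring
    rw [e2, e3]
    rw [abs_le] at ih ⊢
    set S := ∑ j ∈ Finset.range l.length, (-1 : ℝ) ^ j * ((k : ℝ) ^ (2 * j) * g (j + 1 + 1))
    set A := (hornE (k ^ 4) l : ℝ)
    set B := (hornO (k ^ 4) l : ℝ)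
    set n := l.length
    have hn0 : (0 : ℝ) ≤ n := Nat.cast_nonneg _
    have hk4 : (0 : ℝ) < (k : ℝ) ^ 4 := by positivity
    have m1 := mul_le_mul_of_nonneg_left ih.1 hk4.le
    have m2 := mul_le_mul_of_nonneg_left ih.2 hk4.le
    have e4 : 16 * ((n + 1 + 1 : ℕ) : ℝ) * (k : ℝ) ^ (2 * (n + 1 + 1)) =
        (k : ℝ) ^ 4 * (16 * n * (k : ℝ) ^ (2 * n)) + 32 * ((k : ℝ) ^ 4 * (k : ℝ) ^ (2 * n)) := by
      rw [show 2 * (n + 1 + 1) = 4 + 2 * n by ring, pow_add]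
      push_cast
      ring
    rw [e4]
    have k24 : (k : ℝ) ^ 2 ≤ (k : ℝ) ^ 4 := pow_le_pow_right₀ hk1 (by norm_num)
    have b1 : (k : ℝ) ^ 4 ≤ (k : ℝ) ^ 4 * (k : ℝ) ^ (2 * n) := by nlinarith
    have y2' := mul_le_mul_of_nonneg_left y2 (by positivity : (0 : ℝ) ≤ (k : ℝ) ^ 2)
    have y1' := mul_le_mul_of_nonneg_left y1 (by positivity : (0 : ℝ) ≤ (k : ℝ) ^ 2)
    simp only [zero_add, pow_zero, pow_one, mul_zero, mul_one, one_mul, neg_mul] at x1 x2 y1' y2' ⊢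
    constructor
    · linarith
    · linarith

theorem rep_take {P e : ℝ} : ∀ (n : ℕ) (l : List ℕ) (g : ℕ → ℝ), Rep P e l g → Rep P e (l.take n) g
  | 0, _, _, _ => trivial
  | _ + 1, [], _, _ => trivial
  | n + 1, x :: l, g, h => by
    rw [List.take_succ_cons, Rep]
    rw [Rep] at h
    exact ⟨h.1, rep_take n l _ h.2⟩

theorem convL_length (a : List ℕ) : ∀ ys rb m, (convL a ys rb m).length = ys.length
  | [], _, _ => rfl
  | y :: ys, rb, m => by rw [convL, List.length_cons, convL_length a ys, List.length_cons]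

theorem kiCoef_length (EA EG : ℕ) : (kiCoef EA EG).length = 29 := by
  rw [kiCoef, convL_length, serA_length]

theorem aux_lo {PT A B k2 R R' X : ℝ} (h : |PT - (A - k2 * B)| ≤ R') (hR : R' ≤ R)
    (hX : X = A - (k2 * B + R)) : X ≤ PT := by
  rw [abs_le] at h
  rw [hX]
  linarith [h.1]

theorem aux_hi {PT A B k2 R R' X : ℝ} (h : |PT - (A - k2 * B)| ≤ R') (hR : R' ≤ R)
    (hX : X = A + R - k2 * B) : PT ≤ X := by
  rw [abs_le] at h
  rw [hX]
  linarith [h.2]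

theorem aux_div_lo {a p q T x X : ℝ} (hp : 0 < p) (ha : a = q * p) (h1 : x * p ≤ X) (h2 : X ≤ a * T) :
    x ≤ q * T := by
  rw [ha] at h2
  refine le_of_mul_le_mul_right ?_ hp
  linarith

theorem aux_div_hi {a p q T x X : ℝ} (hp : 0 < p) (ha : a = q * p) (h1 : X ≤ x * p) (h2 : a * T ≤ X) :
    q * T ≤ x := by
  rw [ha] at h2
  refine le_of_mul_le_mul_right ?_ hp
  linarith

theorem e384 : (2 : ℝ) ^ 384 = 2 ^ 60 * 2 ^ 324 := by rw [← pow_add]

theorem e324 : (2 : ℝ) ^ 324 = ((34175792574734561318320347298712833833643272357706444319152665725155515612490248800367393390985216 : ℤ) : ℝ) := by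
  have : (34175792574734561318320347298712833833643272357706444319152665725155515612490248800367393390985216 : ℤ) = 2 ^ 324 := by decide +kernel
  rw [this, Int.cast_pow]; rfl

theorem ediv_lo (X : ℤ) : ((X / (34175792574734561318320347298712833833643272357706444319152665725155515612490248800367393390985216 : ℤ) : ℤ) : ℝ) * 2 ^ 324 ≤ X := by
  rw [e324, ← Int.cast_mul, Int.cast_le]
  exact Int.ediv_mul_le X (by decide)

theorem ediv_hi (X : ℤ) : (X : ℝ) ≤ ((X / (34175792574734561318320347298712833833643272357706444319152665725155515612490248800367393390985216 : ℤ) + 1 : ℤ) : ℝ) * 2 ^ 324 := by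
  rw [e324, ← Int.cast_mul, Int.cast_le]
  exact (Int.lt_ediv_add_one_mul_self X (by decide)).le

/-- lower bound for `KI` -/
theorem kiLo_sound {EA EG k : ℕ} (hA : EA ≤ 2 ^ 25) (hG : EG ≤ 2 ^ 25) (hk : 1 ≤ k) {u v : ℝ}
    (hu0 : 0 ≤ u) (hv0 : 0 ≤ v) (hu : u ^ 2 = (k : ℝ) ^ 2 * ((EA : ℝ) / 2 ^ 24))
    (hv : v ^ 2 = (k : ℝ) ^ 2 * ((EG : ℝ) / 2 ^ 24)) :
    (kiLo (kiCoef EA EG) k : ℝ) ≤ 2 ^ 60 * KI u v := by
  have hr := rep_take 28 _ _ (rep_kiCoef hA hG)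
  have hb := horn_bound hk _ _ hr
  have hlen : ((kiCoef EA EG).take 28).length = 28 := by
    rw [List.length_take, kiCoef_length]; rfl
  rw [hlen] at hb
  have hK := KI_lower (m := 14) (by norm_num) hu0 hv0
  have e : ∑ i ∈ Finset.range (2 * 14), (-1) ^ i * EE i u v =
      ∑ j ∈ Finset.range 28, (-1) ^ j * ((k : ℝ) ^ (2 * j) * tE EA EG j) := by
    refine Finset.sum_congr rfl fun j _ => ?_
    rw [EE_eq hu hv]
  rw [e] at hK
  generalize ∑ j ∈ Finset.range 28, (-1 : ℝ) ^ j * ((k : ℝ) ^ (2 * j) * tE EA EG j) = T at hb hK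
  have hd : kiLo (kiCoef EA EG) k = (((hornE (k ^ 4) ((kiCoef EA EG).take 28) : ℕ) : ℤ) -
      ((k ^ 2 * hornO (k ^ 4) ((kiCoef EA EG).take 28) + 512 * k ^ 56 : ℕ) : ℤ)) / (34175792574734561318320347298712833833643272357706444319152665725155515612490248800367393390985216 : ℤ) := rfl
  rw [hd]
  generalize (kiCoef EA EG).take 28 = l at hb ⊢
  set X : ℤ := ((hornE (k ^ 4) l : ℕ) : ℤ) - ((k ^ 2 * hornO (k ^ 4) l + 512 * k ^ 56 : ℕ) : ℤ) with hX
  have hXr : (X : ℝ) = (hornE (k ^ 4) l : ℝ) - ((k : ℝ) ^ 2 * hornO (k ^ 4) l + 512 * (k : ℝ) ^ 56) := by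
    rw [hX, Int.cast_sub, Int.cast_natCast, Int.cast_natCast, Nat.cast_add, Nat.cast_mul, Nat.cast_mul,
      Nat.cast_pow, Nat.cast_pow, Nat.cast_ofNat]
  have hk56 : (0 : ℝ) ≤ (k : ℝ) ^ 56 := by positivity
  have hR : (16 : ℝ) * ((28 : ℕ) : ℝ) * (k : ℝ) ^ (2 * 28) ≤ 512 * (k : ℝ) ^ 56 := by
    have : (2 * 28 : ℕ) = 56 := rfl
    rw [this]
    generalize (k : ℝ) ^ 56 = w at hk56
    push_cast
    linarith
  have h2 := aux_lo hb hR hXr
  have h3 := aux_div_lo (by positivity) e384 (ediv_lo X) h2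
  exact h3.trans (mul_le_mul_of_nonneg_left hK (by positivity))

/-- upper bound for `KI` -/
theorem kiHi_sound {EA EG k : ℕ} (hA : EA ≤ 2 ^ 25) (hG : EG ≤ 2 ^ 25) (hk : 1 ≤ k) {u v : ℝ}
    (hu0 : 0 ≤ u) (hv0 : 0 ≤ v) (hu : u ^ 2 = (k : ℝ) ^ 2 * ((EA : ℝ) / 2 ^ 24))
    (hv : v ^ 2 = (k : ℝ) ^ 2 * ((EG : ℝ) / 2 ^ 24)) :
    2 ^ 60 * KI u v ≤ (kiHi (kiCoef EA EG) k : ℝ) := by
  have hb := horn_bound hk _ _ (rep_kiCoef hA hG)
  rw [kiCoef_length] at hb
  have hK := KI_upper 14 hu0 hv0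
  have e : ∑ i ∈ Finset.range (2 * 14 + 1), (-1) ^ i * EE i u v =
      ∑ j ∈ Finset.range 29, (-1) ^ j * ((k : ℝ) ^ (2 * j) * tE EA EG j) := by
    refine Finset.sum_congr rfl fun j _ => ?_
    rw [EE_eq hu hv]
  rw [e] at hK
  generalize ∑ j ∈ Finset.range 29, (-1 : ℝ) ^ j * ((k : ℝ) ^ (2 * j) * tE EA EG j) = T at hb hK
  have hd : kiHi (kiCoef EA EG) k = (((hornE (k ^ 4) (kiCoef EA EG) + 512 * k ^ 58 : ℕ) : ℤ) -
      ((k ^ 2 * hornO (k ^ 4) (kiCoef EA EG) : ℕ) : ℤ)) / (34175792574734561318320347298712833833643272357706444319152665725155515612490248800367393390985216 : ℤ) + 1 := rfl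
  rw [hd]
  generalize kiCoef EA EG = l at hb ⊢
  set X : ℤ := ((hornE (k ^ 4) l + 512 * k ^ 58 : ℕ) : ℤ) - ((k ^ 2 * hornO (k ^ 4) l : ℕ) : ℤ) with hX
  have hXr : (X : ℝ) = (hornE (k ^ 4) l : ℝ) + 512 * (k : ℝ) ^ 58 - (k : ℝ) ^ 2 * hornO (k ^ 4) l := by
    rw [hX, Int.cast_sub, Int.cast_natCast, Int.cast_natCast, Nat.cast_add, Nat.cast_mul, Nat.cast_mul,
      Nat.cast_pow, Nat.cast_pow, Nat.cast_ofNat]
  have hk58 : (0 : ℝ) ≤ (k : ℝ) ^ 58 := by positivity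
  have hR : (16 : ℝ) * ((29 : ℕ) : ℝ) * (k : ℝ) ^ (2 * 29) ≤ 512 * (k : ℝ) ^ 58 := by
    have : (2 * 29 : ℕ) = 58 := rfl
    rw [this]
    generalize (k : ℝ) ^ 58 = w at hk58
    push_cast
    linarith
  have h2 := aux_hi hb hR hXr
  have h3 := aux_div_hi (by positivity) e384 (ediv_hi X) h2
  exact (mul_le_mul_of_nonneg_left hK (by positivity)).trans h3

end Pool.Agent.H60.SL.Ck
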