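import Pool.Agent.H60.SL.LomMono
import Pool.Agent.H60.SL.Env

/-!
# Decay of the Lommel integral `KI`
-/

set_option autoImplicit false

open MeasureTheory Set

namespace Pool.Agent.H60.SL

/-- the diagonal decays like `25 / u⁴` -/
theorem KI_diag_le25 {u : ℝ} (hu : 3 ≤ u) : KI u u ≤ 25 / u ^ 4 := by
  have hu0 : 0 < u := by linarith
  rw [KI_diag hu0.ne', Real.sin_two_mul]
  have h1 := Real.sin_sq_add_cos_sq u
  set s := Real.sin u
  set c := Real.cos u
  have key : 45 * (u / 2 + 2 * s * c / 4 - s ^ 2 / u) ≤ 25 * u := by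
    have hd : 0 ≤ s ^ 2 / u := by positivity
    have hs2 : s ^ 2 / u * u = s ^ 2 := by field_simp
    rcases le_or_gt (c ^ 2) (8 / 9) with hc | hc
    · -- AM-GM
      have h2 : (s * c) ≤ 2 * (s ^ 2 / u) + u * c ^ 2 / 8 := by
        have h3 : (s - u * c / 4) ^ 2 / u = s ^ 2 / u - s * c / 2 + u * c ^ 2 / 16 := by
          field_simp
          ring
        have h4 : 0 ≤ (s - u * c / 4) ^ 2 / u := by positivity
        linarith
      nlinarith [mul_le_mul_of_nonneg_left hc hu0.le]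
    · have hs : s ^ 2 < 1 / 9 := by linarith
      have hsc : s * c ≤ 1 / 3 := by
        have h5 : (s * c) ^ 2 ≤ (1 / 3) ^ 2 := by nlinarith [sq_nonneg s, sq_nonneg c]
        exact abs_le_of_sq_le_sq' h5 (by norm_num) |>.2
      nlinarith
  rw [div_le_div_iff₀ (by positivity) (by positivity)]
  calc 45 * (u / 2 + 2 * s * c / 4 - s ^ 2 / u) * u ^ 4 ≤ 25 * u * u ^ 4 :=
        mul_le_mul_of_nonneg_right key (by positivity)
    _ = 25 * u ^ 5 := by ring

/-- off-diagonal decay -/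
theorem KI_abs_le25 {u v : ℝ} (hu : 3 ≤ u) (hv : 3 ≤ v) : |KI u v| ≤ 25 / (u ^ 2 * v ^ 2) := by
  have hu0 : 0 < u := by linarith
  have hv0 : 0 < v := by linarith
  have h1 : KI u v ^ 2 ≤ (25 / (u ^ 2 * v ^ 2)) ^ 2 := by
    calc KI u v ^ 2 ≤ KI u u * KI v v := KI_sq_le u v
      _ ≤ (25 / u ^ 4) * (25 / v ^ 4) :=
        mul_le_mul (KI_diag_le25 hu) (KI_diag_le25 hv) (KI_diag_nonneg v) (by positivity)
      _ = (25 / (u ^ 2 * v ^ 2)) ^ 2 := by
        field_simp
  exact abs_le_of_sq_le_sq h1 (by positivity)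

/-- one argument large -/
theorem KI_abs_le5 {u v w : ℝ} (hu : 3 ≤ u) (hw : 0 ≤ w) (hwv : KI v v ≤ w ^ 2) :
    |KI u v| ≤ 5 * w / u ^ 2 := by
  have hu0 : 0 < u := by linarith
  have h1 : KI u v ^ 2 ≤ (5 * w / u ^ 2) ^ 2 := by
    calc KI u v ^ 2 ≤ KI u u * KI v v := KI_sq_le u v
      _ ≤ (25 / u ^ 4) * w ^ 2 :=
        mul_le_mul (KI_diag_le25 hu) hwv (KI_diag_nonneg v) (by positivity)
      _ = (5 * w / u ^ 2) ^ 2 := by
        field_simp
        ring
  exact abs_le_of_sq_le_sq h1 (by positivity)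

/-- the diagonal as a function on `[3, ∞)` -/
noncomputable def DG (v : ℝ) : ℝ := (v / 2 + Real.sin (2 * v) / 4 - Real.sin v ^ 2 / v) / v ^ 5

theorem DG_hasDerivAt {v : ℝ} (hv : 0 < v) : HasDerivAt DG
    ((-(3 / 2) * v - v * Real.sin v ^ 2 - 9 / 2 * (Real.sin v * Real.cos v) +
      6 * Real.sin v ^ 2 / v) / v ^ 6) v := by
  have h2 : HasDerivAt (fun v : ℝ => Real.sin (2 * v)) (Real.cos (2 * v) * 2) v := by
    have h := (Real.hasDerivAt_sin (2 * v)).comp v ((hasDerivAt_id v).const_mul 2)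
    exact h.congr_deriv (by simp)
  have h3 : HasDerivAt (fun v : ℝ => Real.sin v ^ 2 / v)
      ((2 * Real.sin v * Real.cos v * v - Real.sin v ^ 2 * 1) / v ^ 2) v := by
    have h4 : HasDerivAt (fun v : ℝ => Real.sin v ^ 2) (2 * Real.sin v * Real.cos v) v := by
      have h := (Real.hasDerivAt_sin v).pow 2
      exact h.congr_deriv (by simp)
    exact h4.div (hasDerivAt_id v) hv.ne'
  have h5 : HasDerivAt (fun v : ℝ => v / 2 + Real.sin (2 * v) / 4 - Real.sin v ^ 2 / v)
      (1 / 2 + Real.cos (2 * v) * 2 / 4 -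
        (2 * Real.sin v * Real.cos v * v - Real.sin v ^ 2 * 1) / v ^ 2) v :=
    (((hasDerivAt_id v).div_const 2).add (h2.div_const 4)).sub h3
  have h6 : HasDerivAt (fun v : ℝ => v ^ 5) (5 * v ^ 4) v := by
    simpa using hasDerivAt_pow 5 v
  have h7 := h5.div h6 (by positivity)
  refine h7.congr_deriv ?_
  rw [Real.sin_two_mul, Real.cos_two_mul]
  have h1 := Real.sin_sq_add_cos_sq v
  set s := Real.sin v
  set c := Real.cos v
  have hc : c ^ 2 = 1 - s ^ 2 := by linarith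
  rw [hc]
  field_simp
  ring

theorem DG_antitone : AntitoneOn DG (Ici 3) := by
  have hpos : ∀ x ∈ Ici (3 : ℝ), 0 < x := fun x hx => by
    have : (3 : ℝ) ≤ x := hx
    linarith
  refine antitoneOn_of_deriv_nonpos (convex_Ici 3) ?_ ?_ ?_
  · exact fun x hx => (DG_hasDerivAt (hpos x hx)).continuousAt.continuousWithinAt
  · exact fun x hx => (DG_hasDerivAt (hpos x (interior_subset hx))).differentiableAt.differentiableWithinAt
  · intro x hx
    have hx3 : (3 : ℝ) ≤ x := interior_subset hx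
    have hx0 : 0 < x := by linarith
    rw [(DG_hasDerivAt hx0).deriv]
    refine div_nonpos_of_nonpos_of_nonneg ?_ (by positivity)
    have h1 := Real.sin_sq_add_cos_sq x
    set s := Real.sin x
    set c := Real.cos x
    have h2 : 6 * s ^ 2 / x ≤ x * s ^ 2 := by
      rw [div_le_iff₀ hx0]
      nlinarith [sq_nonneg s, mul_nonneg (sq_nonneg s) (by nlinarith : 0 ≤ x * x - 6)]
    have h3 : -(s * c) ≤ 1 / 2 := by nlinarith [sq_nonneg (s + c)]
    nlinarith

/-- `v ↦ KI v v` is antitone -/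
theorem KI_diag_antitone : AntitoneOn (fun v => KI v v) (Ici 0) := by
  have hlow : ∀ a b : ℝ, 0 ≤ a → a ≤ b → b ≤ 4.49 → KI b b ≤ KI a a := fun a b h1 h2 h3 =>
    KI_anti h1 h2 h3 h1 h2 h3
  have hhigh : ∀ a b : ℝ, 3 ≤ a → a ≤ b → KI b b ≤ KI a a := by
    intro a b h1 h2
    have ha : a ≠ 0 := by linarith
    have hb : b ≠ 0 := by linarith
    have h3 := DG_antitone (show a ∈ Ici 3 from h1) (show b ∈ Ici 3 from h1.trans h2) h2
    rw [KI_diag ha, KI_diag hb]
    unfold DG at h3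
    calc 45 * (b / 2 + Real.sin (2 * b) / 4 - Real.sin b ^ 2 / b) / b ^ 5
        = 45 * ((b / 2 + Real.sin (2 * b) / 4 - Real.sin b ^ 2 / b) / b ^ 5) := by ring
      _ ≤ 45 * ((a / 2 + Real.sin (2 * a) / 4 - Real.sin a ^ 2 / a) / a ^ 5) := by linarith
      _ = _ := by ring
  intro a ha b hb hab
  have ha' : (0 : ℝ) ≤ a := ha
  show KI b b ≤ KI a a
  rcases le_or_gt 3 a with h | h
  · exact hhigh a b h hab
  · rcases le_or_gt b 4.49 with h4 | h4
    · exact hlow a b ha' hab h4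
    · exact (hhigh 4 b (by norm_num) (by linarith)).trans
        (hlow a 4 ha' (by linarith) (by norm_num))

end Pool.Agent.H60.SL
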