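import Pool.Agent.H60.SL.KRat

set_option autoImplicit false

open MeasureTheory Set Filter Topology

namespace Pool.Agent.H60.SL

open Pool.Agent.H64.Slab Pool.Agent.H60.Slab Pool.Agent.H60.Big

/-- `15 ((3 - z²) sin z - 3 z cos z) / z⁵`, value 1 at 0 -/
noncomputable def psi2 (z : ℝ) : ℝ := KI z 0

theorem psi2_eq_int (z : ℝ) : psi2 z = 5 * ∫ s in (0 : ℝ)..1, s ^ 4 * psi1 (z * s) := by
  unfold psi2 KI
  simp [psi1_zero]

theorem psi2_zero : psi2 0 = 1 := by
  rw [psi2_eq_int]
  simp [psi1_zero]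
  norm_num

theorem psi2_continuous : Continuous psi2 := by
  have e : psi2 = fun z => 5 * ∫ s in (0 : ℝ)..1, s ^ 4 * psi1 (z * s) := by
    ext z; exact psi2_eq_int z
  rw [e]
  have hp := psi1_continuous
  apply Continuous.mul continuous_const
  apply intervalIntegral.continuous_parametric_intervalIntegral_of_continuous'
  fun_prop

theorem psi2_abs_le (z : ℝ) : |psi2 z| ≤ 1 := KI_abs_le z 0

theorem MM_scale_hasDerivAt {u : ℝ} (hu : u ≠ 0) (s : ℝ) :
    HasDerivAt (fun s => 15 * MM (u * s) / u ^ 5) (5 * (s ^ 4 * psi1 (u * s))) s := by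
  have h1 : HasDerivAt (fun s : ℝ => u * s) u s := by simpa using (hasDerivAt_id s).const_mul u
  have h2 := (((MM_hasDerivAt (u * s)).comp s h1).const_mul 15).div_const (u ^ 5)
  refine h2.congr_deriv ?_
  rcases eq_or_ne s 0 with e | hs
  · subst e; simp
  · unfold psi1
    rw [if_neg (mul_ne_zero hu hs)]
    field_simp
    ring

theorem psi2_eq {z : ℝ} (hz : z ≠ 0) : psi2 z = 15 * MM z / z ^ 5 := by
  rw [psi2_eq_int, ← intervalIntegral.integral_const_mul]
  have hp := psi1_continuous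
  rw [intervalIntegral.integral_eq_sub_of_hasDerivAt (f := fun s => 15 * MM (z * s) / z ^ 5)
    (fun s _ => MM_scale_hasDerivAt hz s) (by apply Continuous.intervalIntegrable; fun_prop)]
  simp [MM]

theorem psi2_even (z : ℝ) : psi2 (-z) = psi2 z := by
  rcases eq_or_ne z 0 with e | h
  · rw [e]; simp
  · rw [psi2_eq h, psi2_eq (neg_ne_zero.2 h)]
    unfold MM
    rw [Real.sin_neg, Real.cos_neg]
    field_simp
    ring

/-- the function `s ↦ s⁵ ψ₂(u s)` -/
theorem s5_hasDerivAt (u s : ℝ) : HasDerivAt (fun s => s ^ 5 * psi2 (u * s)) (5 * (s ^ 4 * psi1 (u * s))) s := by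
  rcases eq_or_ne u 0 with e | hu
  · subst e
    simp only [zero_mul, psi2_zero, psi1_zero, mul_one]
    have := hasDerivAt_pow 5 s
    refine this.congr_deriv ?_
    push_cast
    ring
  · have e : (fun s => s ^ 5 * psi2 (u * s)) = fun s => 15 * MM (u * s) / u ^ 5 := by
      ext t
      rcases eq_or_ne t 0 with h | h
      · subst h; simp [MM]
      · rw [psi2_eq (mul_ne_zero hu h)]
        field_simp
    rw [e]
    exact MM_scale_hasDerivAt hu s

theorem psi1_hasDerivAt' {x : ℝ} (hx : x ≠ 0) : HasDerivAt psi1 (-(x / 5 * psi2 x)) x := by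
  refine (psi1_hasDerivAt hx).congr_deriv ?_
  rw [psi2_eq hx]
  field_simp
  ring

theorem psi1_scale_hasDerivAt (v : ℝ) {s : ℝ} (hs : s ≠ 0) :
    HasDerivAt (fun s => psi1 (v * s)) (-(v ^ 2 * s / 5 * psi2 (v * s))) s := by
  rcases eq_or_ne v 0 with e | hv
  · subst e
    simp only [zero_mul]
    refine (hasDerivAt_const s (psi1 0)).congr_deriv ?_
    simp
  · have h1 : HasDerivAt (fun s : ℝ => v * s) v s := by simpa using (hasDerivAt_id s).const_mul v
    refine ((psi1_hasDerivAt' (mul_ne_zero hv hs)).comp s h1).congr_deriv ?_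
    ring

/-- integration by parts for `KI` -/
theorem KI_parts (u v : ℝ) : KI u v = psi2 u * psi1 v +
    v ^ 2 / 5 * ∫ s in (0 : ℝ)..1, s ^ 6 * (psi2 (u * s) * psi2 (v * s)) := by
  have hp1 := psi1_continuous
  have hp2 := psi2_continuous
  have hd : ∀ s ∈ Ioo (0 : ℝ) 1, HasDerivAt (fun s => s ^ 5 * psi2 (u * s) * psi1 (v * s))
      (5 * (s ^ 4 * (psi1 (u * s) * psi1 (v * s))) - v ^ 2 / 5 * (s ^ 6 * (psi2 (u * s) * psi2 (v * s)))) s := by
    intro s hs
    refine ((s5_hasDerivAt u s).mul (psi1_scale_hasDerivAt v hs.1.ne')).congr_deriv ?_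
    ring
  have h := intervalIntegral.integral_eq_sub_of_hasDerivAt_of_le zero_le_one
    (f := fun s => s ^ 5 * psi2 (u * s) * psi1 (v * s)) (by
      apply Continuous.continuousOn; fun_prop) hd
    (by apply Continuous.intervalIntegrable; fun_prop)
  rw [intervalIntegral.integral_sub (by apply Continuous.intervalIntegrable; fun_prop)
    (by apply Continuous.intervalIntegrable; fun_prop), intervalIntegral.integral_const_mul,
    intervalIntegral.integral_const_mul] at h
  simp only [mul_one, one_pow, one_mul, mul_zero] at h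
  unfold KI
  have h0 : ((0 : ℝ) ^ 5 * psi2 0 * psi1 0) = 0 := by simp
  rw [h0] at h
  linarith

/-- the auxiliary identity for `ψ₁` -/
theorem psi1_parts (v : ℝ) : v ^ 2 / 5 * ∫ s in (0 : ℝ)..1, s ^ 3 * psi2 (v * s) =
    2 * (∫ s in (0 : ℝ)..1, s * psi1 (v * s)) - psi1 v := by
  have hp1 := psi1_continuous
  have hp2 := psi2_continuous
  have hd : ∀ s ∈ Ioo (0 : ℝ) 1, HasDerivAt (fun s => s ^ 2 * psi1 (v * s))
      (2 * (s * psi1 (v * s)) - v ^ 2 / 5 * (s ^ 3 * psi2 (v * s))) s := by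
    intro s hs
    refine ((hasDerivAt_pow 2 s).mul (psi1_scale_hasDerivAt v hs.1.ne')).congr_deriv ?_
    push_cast
    ring
  have h := intervalIntegral.integral_eq_sub_of_hasDerivAt_of_le zero_le_one
    (f := fun s => s ^ 2 * psi1 (v * s)) (by
      apply Continuous.continuousOn; fun_prop) hd
    (by apply Continuous.intervalIntegrable; fun_prop)
  rw [intervalIntegral.integral_sub (by apply Continuous.intervalIntegrable; fun_prop)
    (by apply Continuous.intervalIntegrable; fun_prop), intervalIntegral.integral_const_mul,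
    intervalIntegral.integral_const_mul] at h
  simp only [mul_one, one_pow, one_mul, mul_zero] at h
  have h0 : ((0 : ℝ) ^ 2 * psi1 0) = 0 := by simp
  rw [h0] at h
  linarith

/-! ### positivity and monotonicity up to `5.76` -/

theorem MM_576 : 0 < MM 5.76 := by
  have hpi1 := Real.pi_gt_d6
  have hpi2 := Real.pi_lt_d6
  obtain ⟨δ, hδ⟩ : ∃ δ, 2 * Real.pi - 5.76 = δ := ⟨_, rfl⟩
  have hδ1 : 0.523184 < δ := by rw [← hδ]; linarith
  have hδ2 : δ < 0.523186 := by rw [← hδ]; linarith
  have hs : Real.sin 5.76 = -Real.sin δ := by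
    have : (5.76 : ℝ) = 2 * Real.pi - δ := by rw [← hδ]; ring
    rw [this, Real.sin_two_pi_sub]
  have hc : Real.cos 5.76 = Real.cos δ := by
    have : (5.76 : ℝ) = 2 * Real.pi - δ := by rw [← hδ]; ring
    rw [this, Real.cos_two_pi_sub]
  unfold MM
  rw [hs, hc]
  have h1 := sin_lb3 δ (by linarith)
  have h2 := cos_ub4 δ (by linarith)
  have h3 : δ ^ 3 ≤ 0.523186 ^ 3 := pow_le_pow_left₀ (by linarith) hδ2.le 3
  have h4 : δ ^ 4 ≤ 0.523186 ^ 4 := pow_le_pow_left₀ (by linarith) hδ2.le 4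
  have h5 : 0.523184 ^ 2 ≤ δ ^ 2 := pow_le_pow_left₀ (by norm_num) hδ1.le 2
  norm_num at h3 h4 h5 ⊢
  linarith

theorem sin_neg_of {x : ℝ} (h1 : Real.pi ≤ x) (h2 : x ≤ 2 * Real.pi) : Real.sin x ≤ 0 := by
  have := Real.sin_nonneg_of_nonneg_of_le_pi (x := x - Real.pi) (by linarith) (by linarith)
  rw [Real.sin_sub_pi] at this
  linarith

/-- `JJ` is antitone on `[π, 2π]` -/
theorem JJ_antitone : AntitoneOn JJ (Icc Real.pi (2 * Real.pi)) := by
  apply antitoneOn_of_deriv_nonpos (convex_Icc _ _) JJ_continuous.continuousOn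
  · intro x hx
    exact (JJ_hasDerivAt x).differentiableAt.differentiableWithinAt
  · intro x hx
    rw [interior_Icc] at hx
    rw [(JJ_hasDerivAt x).deriv]
    exact mul_nonpos_of_nonneg_of_nonpos (Real.pi_pos.le.trans hx.1.le) (sin_neg_of hx.1.le hx.2.le)

theorem MM_pos' {z : ℝ} (h0 : 0 < z) (h1 : z ≤ 5.76) : 0 < MM z := by
  have hpi1 := Real.pi_gt_d6
  have hpi2 := Real.pi_lt_d6
  rcases le_total z 4.49 with h | h
  · exact MM_pos h0 h
  · -- either `JJ z ≥ 0` (then increasing up to z) or decreasing from z on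
    have hJ : ∀ x ∈ Icc z 5.76, JJ x ≤ JJ z := fun x hx =>
      JJ_antitone ⟨by linarith, by linarith⟩ ⟨by linarith [hx.1], by linarith [hx.2]⟩ hx.1
    rcases le_total 0 (JJ z) with hJz | hJz
    · have hmono : MonotoneOn MM (Icc 4.49 z) := by
        apply monotoneOn_of_deriv_nonneg (convex_Icc _ _)
        · apply Continuous.continuousOn; unfold MM; fun_prop
        · intro x _
          exact (MM_hasDerivAt x).differentiableAt.differentiableWithinAt
        · intro x hx
          rw [interior_Icc] at hx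
          rw [(MM_hasDerivAt x).deriv]
          have : JJ z ≤ JJ x := JJ_antitone ⟨by linarith [hx.1], by linarith [hx.2]⟩
            ⟨by linarith, by linarith⟩ hx.2.le
          exact mul_nonneg (by linarith [hx.1]) (by linarith)
      have := hmono ⟨le_rfl, h⟩ ⟨h, le_rfl⟩ h
      exact (MM_pos (by norm_num) le_rfl).trans_le this
    · have hanti : AntitoneOn MM (Icc z 5.76) := by
        apply antitoneOn_of_deriv_nonpos (convex_Icc _ _)
        · apply Continuous.continuousOn; unfold MM; fun_prop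
        · intro x _
          exact (MM_hasDerivAt x).differentiableAt.differentiableWithinAt
        · intro x hx
          rw [interior_Icc] at hx
          rw [(MM_hasDerivAt x).deriv]
          have := hJ x ⟨hx.1.le, hx.2.le⟩
          exact mul_nonpos_of_nonneg_of_nonpos (by linarith [hx.1]) (by linarith)
      have := hanti ⟨le_rfl, h1⟩ ⟨h1, le_rfl⟩ h1
      exact MM_576.trans_le this

theorem psi2_pos {z : ℝ} (h0 : 0 ≤ z) (h1 : z ≤ 5.76) : 0 < psi2 z := by
  rcases h0.eq_or_lt with e | hz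
  · rw [← e, psi2_zero]; exact one_pos
  · rw [psi2_eq hz.ne']
    have := MM_pos' hz h1
    positivity

/-- `5 MM z - z² JJ z` -/
noncomputable def NN (z : ℝ) : ℝ := 5 * MM z - z ^ 2 * JJ z

theorem NN_hasDerivAt (z : ℝ) : HasDerivAt NN (z * MM z) z := by
  have h := ((MM_hasDerivAt z).const_mul 5).sub ((hasDerivAt_pow 2 z).mul (JJ_hasDerivAt z))
  refine h.congr_deriv ?_
  unfold MM JJ
  push_cast
  ring

theorem NN_nonneg {z : ℝ} (h0 : 0 ≤ z) (h1 : z ≤ 5.76) : 0 ≤ NN z := by
  refine nonneg_of_deriv_on (b := 5.76) NN_hasDerivAt (by simp [NN, MM, JJ]) ?_ h0 h1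
  intro x hx hx1
  rcases hx.eq_or_lt with e | h
  · rw [← e]; simp
  · exact mul_nonneg hx (MM_pos' h hx1).le

theorem psi2_antitone : AntitoneOn psi2 (Icc 0 5.76) := by
  have hd : ∀ x : ℝ, x ≠ 0 → HasDerivAt psi2 (-(15 * NN x / x ^ 6)) x := by
    intro x hx
    have h1 : HasDerivAt (fun z => 15 * MM z / z ^ 5) _ x :=
      ((MM_hasDerivAt x).const_mul 15).div (hasDerivAt_pow 5 x) (pow_ne_zero 5 hx)
    have h2 : HasDerivAt psi2 _ x := h1.congr_of_eventuallyEq (by
      filter_upwards [eventually_ne_nhds hx] with y hy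
      exact psi2_eq hy)
    refine h2.congr_deriv ?_
    unfold NN
    push_cast
    field_simp
    ring
  apply antitoneOn_of_deriv_nonpos (convex_Icc _ _) psi2_continuous.continuousOn
  · intro x hx
    rw [interior_Icc] at hx
    exact (hd x hx.1.ne').differentiableAt.differentiableWithinAt
  · intro x hx
    rw [interior_Icc] at hx
    rw [(hd x hx.1.ne').deriv]
    have := NN_nonneg hx.1.le hx.2.le
    have hx0 := hx.1
    have : 0 ≤ 15 * NN x / x ^ 6 := by positivity
    linarith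

theorem KI_pos' {u v : ℝ} (hu : 0 ≤ u) (hu1 : u ≤ 5.76) (hv : 0 ≤ v) (hv1 : v ≤ 4.49) :
    0 < KI u v := by
  rw [KI_parts]
  have h1 := psi2_pos hu hu1
  have h2 := psi1_pos hv hv1
  have h3 : 0 ≤ ∫ s in (0 : ℝ)..1, s ^ 6 * (psi2 (u * s) * psi2 (v * s)) := by
    apply intervalIntegral.integral_nonneg zero_le_one
    intro s hs
    have a1 := psi2_pos (z := u * s) (mul_nonneg hu hs.1) (by nlinarith [hs.1, hs.2])
    have a2 := psi2_pos (z := v * s) (mul_nonneg hv hs.1) (by nlinarith [hs.1, hs.2])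
    have := hs.1
    positivity
  positivity

/-- antitone in the first variable up to `5.76` -/
theorem KI_anti_left {u u' v : ℝ} (hu : 0 ≤ u) (huu : u ≤ u') (hu1 : u' ≤ 5.76) (hv : 0 ≤ v)
    (hv1 : v ≤ 4.49) : KI u' v ≤ KI u v := by
  rw [KI_parts, KI_parts]
  have hp2 := psi2_continuous
  have h1 := psi2_antitone ⟨hu, huu.trans hu1⟩ ⟨hu.trans huu, hu1⟩ huu
  have h2 := psi1_pos hv hv1
  have h3 : ∫ s in (0 : ℝ)..1, s ^ 6 * (psi2 (u' * s) * psi2 (v * s)) ≤
      ∫ s in (0 : ℝ)..1, s ^ 6 * (psi2 (u * s) * psi2 (v * s)) := by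
    apply intervalIntegral.integral_mono_on zero_le_one
    · apply Continuous.intervalIntegrable; fun_prop
    · apply Continuous.intervalIntegrable; fun_prop
    · intro s hs
      have hs0 := hs.1
      have e1 : u * s ≤ u' * s := mul_le_mul_of_nonneg_right huu hs0
      have e3 : u' * s ≤ 5.76 := by nlinarith [hs.2, hu.trans huu]
      have a1 := psi2_antitone ⟨mul_nonneg hu hs0, e1.trans e3⟩ ⟨(mul_nonneg hu hs0).trans e1, e3⟩ e1
      have a2 := psi2_pos (z := v * s) (mul_nonneg hv hs.1) (by nlinarith [hs.1, hs.2])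
      exact mul_le_mul_of_nonneg_left (mul_le_mul_of_nonneg_right a1 a2.le) (by positivity)
  have h4 := mul_le_mul_of_nonneg_right h1 h2.le
  have h5 := mul_le_mul_of_nonneg_left h3 (by positivity : 0 ≤ v ^ 2 / 5)
  linarith

/-! ### decay `17 / u³` -/

theorem MM_sq_le (z : ℝ) : MM z ^ 2 ≤ z ^ 4 + 3 * z ^ 2 + 9 := by
  have h := Real.sin_sq_add_cos_sq z
  have e : z ^ 4 + 3 * z ^ 2 + 9 - MM z ^ 2 =
      (z ^ 4 + 3 * z ^ 2 + 9) * (1 - (Real.sin z ^ 2 + Real.cos z ^ 2)) +
      ((3 - z ^ 2) * Real.cos z + 3 * z * Real.sin z) ^ 2 := by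
    unfold MM; ring
  rw [h] at e
  nlinarith [sq_nonneg ((3 - z ^ 2) * Real.cos z + 3 * z * Real.sin z)]

theorem numer_361 : 15 * MM 3.61 ≤ 17 * 3.61 ^ 2 ∧ 34 / 15 ≤ JJ 3.61 := by
  have hpi1 := Real.pi_gt_d6
  have hpi2 := Real.pi_lt_d6
  obtain ⟨δ, hδ⟩ : ∃ δ, 3.61 - Real.pi = δ := ⟨_, rfl⟩
  have hδ1 : 0.468406 < δ := by rw [← hδ]; norm_num at hpi2 ⊢; linarith
  have hδ2 : δ < 0.468408 := by rw [← hδ]; norm_num at hpi1 ⊢; linarith
  have hs : Real.sin 3.61 = -Real.sin δ := by
    have : (3.61 : ℝ) = δ + Real.pi := by rw [← hδ]; ring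
    rw [this, Real.sin_add_pi]
  have hc : Real.cos 3.61 = -Real.cos δ := by
    have : (3.61 : ℝ) = δ + Real.pi := by rw [← hδ]; ring
    rw [this, Real.cos_add_pi]
  have h1 := sin_lb3 δ (by linarith)
  have h1' : Real.sin δ ≤ δ := Real.sin_le (by linarith)
  have h2 := cos_ub4 δ (by linarith)
  have h2' := Real.one_sub_sq_div_two_le_cos (x := δ)
  have h3 : δ ^ 2 ≤ 0.468408 ^ 2 := pow_le_pow_left₀ (by linarith) hδ2.le 2
  have h4 : δ ^ 4 ≤ 0.468408 ^ 4 := pow_le_pow_left₀ (by linarith) hδ2.le 4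
  have h5 : 0.468406 ^ 2 ≤ δ ^ 2 := pow_le_pow_left₀ (by norm_num) hδ1.le 2
  unfold MM JJ
  rw [hs, hc]
  norm_num at h3 h4 h5 hδ1 hδ2 ⊢
  constructor <;> linarith

theorem MM_le {z : ℝ} (hz : 0 ≤ z) : 15 * |MM z| ≤ 17 * z ^ 2 := by
  have hpi1 := Real.pi_gt_d6
  have hpi2 := Real.pi_lt_d6
  rcases le_total z 3.61 with h | h
  · have hM : 0 ≤ MM z := by
      rcases hz.eq_or_lt with e | h0
      · rw [← e]; simp [MM]
      · exact (MM_pos h0 (by linarith)).le
    rw [abs_of_nonneg hM]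
    have hd : ∀ x : ℝ, HasDerivAt (fun x => 17 * x ^ 2 - 15 * MM x) (x * (34 - 15 * JJ x)) x := by
      intro x
      refine (((hasDerivAt_pow 2 x).const_mul 17).sub ((MM_hasDerivAt x).const_mul 15)).congr_deriv ?_
      push_cast
      ring
    have hJm : MonotoneOn JJ (Icc 0 Real.pi) := by
      apply monotoneOn_of_deriv_nonneg (convex_Icc _ _) JJ_continuous.continuousOn
      · intro x _
        exact (JJ_hasDerivAt x).differentiableAt.differentiableWithinAt
      · intro x hx
        rw [interior_Icc] at hx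
        rw [(JJ_hasDerivAt x).deriv]
        exact (mul_pos hx.1 (Real.sin_pos_of_pos_of_lt_pi hx.1 hx.2)).le
    by_cases hcase : JJ z ≤ 34 / 15 ∧ z ≤ Real.pi
    · have := nonneg_of_deriv_on (b := z) hd (by simp [MM]) (fun x hx hxz => by
        have := hJm ⟨hx, hxz.trans hcase.2⟩ ⟨hz, hcase.2⟩ hxz
        exact mul_nonneg hx (by linarith [hcase.1])) hz le_rfl
      linarith
    · have hJ : ∀ x ∈ Icc z 3.61, 34 / 15 ≤ JJ x := by
        intro x hx
        rcases le_total x Real.pi with hxp | hxp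
        · have hzp : z ≤ Real.pi := hx.1.trans hxp
          have h1 : 34 / 15 < JJ z := by
            by_contra hcon
            exact hcase ⟨not_lt.1 hcon, hzp⟩
          have := hJm ⟨hz, hzp⟩ ⟨hz.trans hx.1, hxp⟩ hx.1
          linarith
        · have := JJ_antitone ⟨hxp, by linarith [hx.2]⟩
            (⟨by linarith, by linarith⟩ : (3.61 : ℝ) ∈ Icc Real.pi (2 * Real.pi)) hx.2
          linarith [numer_361.2]
      have hanti : AntitoneOn (fun x => 17 * x ^ 2 - 15 * MM x) (Icc z 3.61) := by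
        apply antitoneOn_of_deriv_nonpos (convex_Icc _ _)
          (fun y _ => (hd y).continuousAt.continuousWithinAt)
        · intro x _
          exact (hd x).differentiableAt.differentiableWithinAt
        · intro x hx
          rw [interior_Icc] at hx
          rw [(hd x).deriv]
          have := hJ x ⟨hx.1.le, hx.2.le⟩
          exact mul_nonpos_of_nonneg_of_nonpos (hz.trans hx.1.le) (by linarith)
      have := hanti ⟨le_rfl, h⟩ ⟨h, le_rfl⟩ h
      simp only at this
      linarith [numer_361.1]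
  · have h1 := MM_sq_le z
    have h2 : z ^ 4 + 3 * z ^ 2 + 9 ≤ (17 / 15 * z ^ 2) ^ 2 := by
      have hz2 : 3.61 ^ 2 ≤ z ^ 2 := pow_le_pow_left₀ (by norm_num) h 2
      norm_num at hz2
      nlinarith
    have h3 : |MM z| ≤ 17 / 15 * z ^ 2 := abs_le_of_sq_le_sq (h1.trans h2) (by positivity)
    linarith

theorem psi2_decay {z : ℝ} (hz : 0 < z) : |psi2 z| ≤ 17 / z ^ 3 := by
  rw [psi2_eq hz.ne', abs_div, abs_mul, abs_of_pos (by norm_num : (0 : ℝ) < 15),
    abs_of_pos (by positivity : 0 < z ^ 5), div_le_div_iff₀ (by positivity) (by positivity)]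
  have := mul_le_mul_of_nonneg_right (MM_le hz.le) (by positivity : 0 ≤ z ^ 3)
  calc 15 * |MM z| * z ^ 3 ≤ 17 * z ^ 2 * z ^ 3 := this
    _ = 17 * z ^ 5 := by ring

/-- the factor `B(v)` of the decay bound -/
theorem B_le {v : ℝ} (hv : 0 ≤ v) :
    |psi1 v| + v ^ 2 / 5 * (∫ s in (0 : ℝ)..1, s ^ 3 * |psi2 (v * s)|) ≤ 1 := by
  have hp1 := psi1_continuous
  have hp2 := psi2_continuous
  rcases le_total v 4.49 with h | h
  · have e : ∫ s in (0 : ℝ)..1, s ^ 3 * |psi2 (v * s)| = ∫ s in (0 : ℝ)..1, s ^ 3 * psi2 (v * s) := by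
      apply intervalIntegral.integral_congr
      intro s hs
      rw [uIcc_of_le zero_le_one] at hs
      simp only
      rw [abs_of_pos (psi2_pos (mul_nonneg hv hs.1) (by nlinarith [hs.1, hs.2]))]
    rw [e, psi1_parts, abs_of_pos (psi1_pos hv h)]
    have h2 : ∫ s in (0 : ℝ)..1, s * psi1 (v * s) ≤ ∫ s in (0 : ℝ)..1, s := by
      apply intervalIntegral.integral_mono_on zero_le_one
      · apply Continuous.intervalIntegrable; fun_prop
      · apply Continuous.intervalIntegrable; fun_prop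
      · intro s hs
        exact mul_le_of_le_one_right hs.1 (abs_le.1 (psi1_abs_le _)).2
    rw [integral_id] at h2
    norm_num at h2
    linarith
  · have hv0 : 0 < v := by linarith
    have h2 : ∫ s in (0 : ℝ)..1, s ^ 3 * |psi2 (v * s)| ≤ ∫ _ in (0 : ℝ)..1, 17 / v ^ 3 := by
      apply intervalIntegral.integral_mono_on zero_le_one
      · apply Continuous.intervalIntegrable; fun_prop
      · apply Continuous.intervalIntegrable; fun_prop
      · intro s hs
        rcases hs.1.eq_or_lt with e | h0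
        · rw [← e]; simp; positivity
        · have := psi2_decay (z := v * s) (by positivity)
          calc s ^ 3 * |psi2 (v * s)| ≤ s ^ 3 * (17 / (v * s) ^ 3) :=
                mul_le_mul_of_nonneg_left this (by positivity)
            _ = 17 / v ^ 3 := by field_simp
    rw [intervalIntegral.integral_const] at h2
    simp only [sub_zero, one_smul] at h2
    have h3 : |psi1 v| ≤ 3 * (1 + v) / v ^ 3 := by
      unfold psi1
      rw [if_neg hv0.ne', abs_div, abs_mul, abs_of_pos (by norm_num : (0 : ℝ) < 3),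
        abs_of_pos (by positivity : 0 < v ^ 3)]
      have : |JJ v| ≤ 1 + v := by
        unfold JJ
        have a1 := Real.abs_sin_le_one v
        have a2 := Real.abs_cos_le_one v
        have a3 : |v * Real.cos v| ≤ v := by
          rw [abs_mul, abs_of_pos hv0]
          exact mul_le_of_le_one_right hv0.le a2
        calc |Real.sin v - v * Real.cos v| ≤ |Real.sin v| + |v * Real.cos v| := abs_sub _ _
          _ ≤ 1 + v := by linarith
      exact div_le_div_of_nonneg_right (by linarith) (by positivity)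
    have h4 := mul_le_mul_of_nonneg_left h2 (by positivity : 0 ≤ v ^ 2 / 5)
    have h5 : 3 * (1 + v) / v ^ 3 + v ^ 2 / 5 * (17 / v ^ 3) ≤ 1 := by
      have e : 3 * (1 + v) / v ^ 3 + v ^ 2 / 5 * (17 / v ^ 3) =
          (15 * (1 + v) + 17 * v ^ 2) / (5 * v ^ 3) := by
        field_simp
        ring
      rw [e, div_le_one (by positivity)]
      norm_num at h
      nlinarith [mul_nonneg (sub_nonneg.2 h) (sq_nonneg v), mul_nonneg (sub_nonneg.2 h) hv0.le]
    linarith

/-- decay of `KI` in the first variable -/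
theorem KI_decay {u v : ℝ} (hu : 0 < u) (hv : 0 ≤ v) : |KI u v| ≤ 17 / u ^ 3 := by
  have hp1 := psi1_continuous
  have hp2 := psi2_continuous
  rw [KI_parts]
  have h1 : |psi2 u * psi1 v| ≤ 17 / u ^ 3 * |psi1 v| := by
    rw [abs_mul]
    exact mul_le_mul_of_nonneg_right (psi2_decay hu) (abs_nonneg _)
  have h2 : |∫ s in (0 : ℝ)..1, s ^ 6 * (psi2 (u * s) * psi2 (v * s))| ≤
      ∫ s in (0 : ℝ)..1, 17 / u ^ 3 * (s ^ 3 * |psi2 (v * s)|) := by
    rw [← Real.norm_eq_abs]
    refine (intervalIntegral.norm_integral_le_integral_norm zero_le_one).trans ?_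
    apply intervalIntegral.integral_mono_on zero_le_one
    · apply Continuous.intervalIntegrable; fun_prop
    · apply Continuous.intervalIntegrable; fun_prop
    · intro s hs
      rw [norm_mul, norm_mul, Real.norm_of_nonneg (pow_nonneg hs.1 6), Real.norm_eq_abs,
        Real.norm_eq_abs]
      rcases hs.1.eq_or_lt with e | h0
      · rw [← e]; simp
      · have := psi2_decay (z := u * s) (by positivity)
        calc s ^ 6 * (|psi2 (u * s)| * |psi2 (v * s)|) ≤
              s ^ 6 * (17 / (u * s) ^ 3 * |psi2 (v * s)|) :=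
              mul_le_mul_of_nonneg_left (mul_le_mul_of_nonneg_right this (abs_nonneg _)) (by positivity)
          _ = 17 / u ^ 3 * (s ^ 3 * |psi2 (v * s)|) := by field_simp
  rw [intervalIntegral.integral_const_mul] at h2
  have h3 : |v ^ 2 / 5 * ∫ s in (0 : ℝ)..1, s ^ 6 * (psi2 (u * s) * psi2 (v * s))| ≤
      v ^ 2 / 5 * (17 / u ^ 3 * ∫ s in (0 : ℝ)..1, s ^ 3 * |psi2 (v * s)|) := by
    rw [abs_mul, abs_of_nonneg (by positivity : 0 ≤ v ^ 2 / 5)]
    exact mul_le_mul_of_nonneg_left h2 (by positivity)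
  have h4 := mul_le_mul_of_nonneg_left (B_le hv) (by positivity : 0 ≤ 17 / u ^ 3)
  calc |psi2 u * psi1 v + v ^ 2 / 5 * ∫ s in (0 : ℝ)..1, s ^ 6 * (psi2 (u * s) * psi2 (v * s))|
      ≤ _ := abs_add_le _ _
    _ ≤ 17 / u ^ 3 * |psi1 v| + v ^ 2 / 5 * (17 / u ^ 3 * ∫ s in (0 : ℝ)..1, s ^ 3 * |psi2 (v * s)|) :=
        add_le_add h1 h3
    _ = 17 / u ^ 3 * (|psi1 v| + v ^ 2 / 5 * (∫ s in (0 : ℝ)..1, s ^ 3 * |psi2 (v * s)|)) := by ring
    _ ≤ 17 / u ^ 3 := by linarith

end Pool.Agent.H60.SL
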