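import Pool.Agent.H60.SL.Psi1

set_option autoImplicit false

open MeasureTheory Set Filter Topology

namespace Pool.Agent.H60.SL

open Pool.Agent.H64.Slab Pool.Agent.H60.Slab Pool.Agent.H60.Big

/-- second moment -/
theorem cube_sq : ∀ (m : ℕ) (b : Fin m → ℝ),
    ∫ x, (dot x b) ^ 2 ∂(cubeM m) = 2 ^ m * ((∑ j, b j ^ 2) / 3) := by
  intro m
  induction m with
  | zero =>
    intro b
    simp [dot]
  | succ m ih =>
    intro b
    have h := integral_dot_succ (0 : Fin (m + 1)) (g := fun y => y ^ 2) (by fun_prop) b 0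
    simp only [zero_add] at h
    rw [h]
    have e : ∀ z : ℝ, ∫ u in (-1 : ℝ)..1, (z + u * b 0) ^ 2 = 2 * z ^ 2 + 2 / 3 * b 0 ^ 2 := by
      intro z
      have := intervalIntegral.integral_eq_sub_of_hasDerivAt (a := (-1 : ℝ)) (b := 1)
        (f := fun u => z ^ 2 * u + z * b 0 * u ^ 2 + b 0 ^ 2 * u ^ 3 / 3)
        (f' := fun u => (z + u * b 0) ^ 2) (fun u _ => by
          have := (((hasDerivAt_id u).const_mul (z ^ 2)).add
            ((hasDerivAt_pow 2 u).const_mul (z * b 0))).add
            (((hasDerivAt_pow 3 u).const_mul (b 0 ^ 2)).div_const 3)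
          refine this.congr_deriv ?_
          norm_num
          ring) (by apply Continuous.intervalIntegrable; fun_prop)
      rw [this]
      ring
    simp only [e]
    have hd := continuous_dot (fun j => b ((0 : Fin (m + 1)).succAbove j))
    rw [integral_add (by apply integrable_cube_of_continuous; fun_prop) (integrable_const _),
      integral_const_mul, ih, integral_const, cube_real_univ, Fin.sum_univ_succAbove _ 0]
    simp only [smul_eq_mul]
    ring

/-- fourth moment -/
theorem cube_four : ∀ (m : ℕ) (b : Fin m → ℝ),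
    ∫ x, (dot x b) ^ 4 ∂(cubeM m) ≤ 2 ^ m * ((∑ j, b j ^ 2) ^ 2 / 3) := by
  intro m
  induction m with
  | zero =>
    intro b
    simp [dot]
  | succ m ih =>
    intro b
    have h := integral_dot_succ (0 : Fin (m + 1)) (g := fun y => y ^ 4) (by fun_prop) b 0
    simp only [zero_add] at h
    rw [h]
    have e : ∀ z : ℝ, ∫ u in (-1 : ℝ)..1, (z + u * b 0) ^ 4 =
        2 * z ^ 4 + 4 * b 0 ^ 2 * z ^ 2 + 2 / 5 * b 0 ^ 4 := by
      intro z
      have := intervalIntegral.integral_eq_sub_of_hasDerivAt (a := (-1 : ℝ)) (b := 1)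
        (f := fun u => z ^ 4 * u + 2 * z ^ 3 * b 0 * u ^ 2 + 2 * z ^ 2 * b 0 ^ 2 * u ^ 3 +
          z * b 0 ^ 3 * u ^ 4 + b 0 ^ 4 * u ^ 5 / 5)
        (f' := fun u => (z + u * b 0) ^ 4) (fun u _ => by
          have := (((((hasDerivAt_id u).const_mul (z ^ 4)).add
            ((hasDerivAt_pow 2 u).const_mul (2 * z ^ 3 * b 0))).add
            ((hasDerivAt_pow 3 u).const_mul (2 * z ^ 2 * b 0 ^ 2))).add
            ((hasDerivAt_pow 4 u).const_mul (z * b 0 ^ 3))).add
            (((hasDerivAt_pow 5 u).const_mul (b 0 ^ 4)).div_const 5)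
          refine this.congr_deriv ?_
          norm_num
          ring) (by apply Continuous.intervalIntegrable; fun_prop)
      rw [this]
      ring
    simp only [e]
    have hd := continuous_dot (fun j => b ((0 : Fin (m + 1)).succAbove j))
    rw [integral_add (by apply integrable_cube_of_continuous; fun_prop) (integrable_const _),
      integral_add (by apply integrable_cube_of_continuous; fun_prop)
        (by apply integrable_cube_of_continuous; fun_prop),
      integral_const_mul, integral_const_mul, cube_sq, integral_const, cube_real_univ,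
      Fin.sum_univ_succAbove _ 0]
    simp only [smul_eq_mul]
    have h1 := ih (fun j => b ((0 : Fin (m + 1)).succAbove j))
    set N := ∑ j, b ((0 : Fin (m + 1)).succAbove j) ^ 2 with hN
    have h2 : (0 : ℝ) ≤ 2 ^ m * b 0 ^ 4 := by positivity
    have e2 : (2 : ℝ) ^ (m + 1) * ((b 0 ^ 2 + N) ^ 2 / 3) =
        2 * (2 ^ m * (N ^ 2 / 3)) + 4 * b 0 ^ 2 * (2 ^ m * (N / 3)) + 2 / 3 * (2 ^ m * b 0 ^ 4) := by
      rw [pow_succ]; ring
    rw [e2]
    nlinarith

/-- `U` bound of order 2 -/
theorem T_le_U2 {m : ℕ} (a : Fin (m + 2) → ℝ) (i : Fin (m + 2)) (j : Fin (m + 1)) {t : ℝ}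
    (ht : 0 ≤ t) (hα : 0 < a i) (hβ : 0 < a (i.succAbove j))
    (htp : a i + a (i.succAbove j) ≤ t) :
    1 - FV a t 0 / 2 ^ (m + 2) ≤
      (∑ k, a (i.succAbove (j.succAbove k)) ^ 2) / (24 * a i * a (i.succAbove j)) := by
  refine ((FV_two a i j ht hα hβ).trans (mul_le_mul_of_nonneg_left ((E_le_quad _ (psiK_continuous _)
    (psiK_even _) (A := 0) (B := 1 / 3) ?_)) (by positivity))).trans (le_of_eq ?_)
  · intro x hx
    unfold psiK
    have h1 : max (a i + a (i.succAbove j) - t - x) 0 = 0 := max_eq_right (by linarith)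
    rw [h1]
    have h2 : max (x + (a i + a (i.succAbove j) - t)) 0 ≤ x := max_le (by linarith) hx
    have h3 : max (x + (a i + a (i.succAbove j) - t)) 0 ^ 2 ≤ x ^ 2 :=
      pow_le_pow_left₀ (le_max_right _ _) h2 2
    linarith
  · field_simp
    ring

/-- `U` bound of order 4 -/
theorem T_le_U4 {m : ℕ} (a : Fin (m + 2) → ℝ) (i : Fin (m + 2)) (j : Fin (m + 1)) {t : ℝ}
    (ht : 0 ≤ t) (hα : 0 < a i) (hβ : 0 < a (i.succAbove j))
    (htp : a i + a (i.succAbove j) < t) :
    1 - FV a t 0 / 2 ^ (m + 2) ≤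
      (∑ k, a (i.succAbove (j.succAbove k)) ^ 2) ^ 2 /
        (384 * a i * a (i.succAbove j) * (t - a i - a (i.succAbove j)) ^ 2) := by
  obtain ⟨c, hc⟩ : ∃ c, t - a i - a (i.succAbove j) = c := ⟨_, rfl⟩
  have hc0 : 0 < c := by linarith
  have hc2 : a i + a (i.succAbove j) - t = -c := by linarith
  refine (FV_two a i j ht hα hβ).trans ?_
  rw [hc, hc2]
  set b : Fin m → ℝ := fun k => a (i.succAbove (j.succAbove k)) with hb
  have hd := continuous_dot b
  have hpc := psiK_continuous (-c)
  have h1 : ∫ x, psiK (-c) (dot x b) ∂(cubeM m) ≤ ∫ x, (dot x b) ^ 4 / (16 * c ^ 2) ∂(cubeM m) := by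
    apply integral_mono
    · apply integrable_cube_of_continuous; fun_prop
    · apply integrable_cube_of_continuous; fun_prop
    · intro x
      simp only
      have key : ∀ s : ℝ, 0 ≤ s → psiK (-c) s ≤ s ^ 4 / (16 * c ^ 2) := by
        intro s hs
        unfold psiK
        have h1 : max (-c - s) 0 = 0 := max_eq_right (by linarith)
        rw [h1]
        have h2 : max (s + -c) 0 ≤ s ^ 2 / (4 * c) := by
          apply max_le
          · rw [le_div_iff₀ (by positivity)]
            nlinarith [sq_nonneg (s - 2 * c)]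
          · positivity
        have h3 := pow_le_pow_left₀ (le_max_right _ _) h2 2
        have e : (s ^ 2 / (4 * c)) ^ 2 = s ^ 4 / (16 * c ^ 2) := by
          rw [div_pow]; ring
        rw [e] at h3
        linarith
      rcases le_total 0 (dot x b) with h | h
      · exact key _ h
      · have h2 := key (-(dot x b)) (by linarith)
        rw [psiK_even] at h2
        rwa [Even.neg_pow (by decide : Even 4)] at h2
  rw [integral_div] at h1
  have h2 := cube_four m b
  have h3 : (1 / 2 ^ m) * ∫ x, psiK (-c) (dot x b) ∂(cubeM m) ≤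
      (∑ j, b j ^ 2) ^ 2 / (48 * c ^ 2) := by
    have h4 : (∫ x, (dot x b) ^ 4 ∂(cubeM m)) / (16 * c ^ 2) ≤
        2 ^ m * ((∑ j, b j ^ 2) ^ 2 / 3) / (16 * c ^ 2) :=
      div_le_div_of_nonneg_right h2 (by positivity)
    have h5 := mul_le_mul_of_nonneg_left (h1.trans h4) (by positivity : (0 : ℝ) ≤ 1 / 2 ^ m)
    refine h5.trans (le_of_eq ?_)
    field_simp
    ring
  refine (mul_le_mul_of_nonneg_left h3 (by positivity)).trans (le_of_eq ?_)
  field_simp
  ring

end Pool.Agent.H60.SL
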