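import Pool.Agent.H60.Slab.Basic

namespace Pool.Agent.H60.Big
end Pool.Agent.H60.Big

namespace Pool.Agent.H64.Slab
end Pool.Agent.H64.Slab

set_option autoImplicit false

open MeasureTheory Set Filter Topology

namespace Pool.Agent.H60.SL

open Pool.Agent.H64.Slab Pool.Agent.H60.Slab Pool.Agent.H60.Big

theorem fact_bound (n : ℕ) : 6 ^ n * n.factorial ≤ (2 * n + 1).factorial := by
  induction n with
  | zero => simp
  | succ n ih =>
    have e : (2 * (n + 1) + 1).factorial = (2 * n + 3) * ((2 * n + 2) * (2 * n + 1).factorial) := by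
      rw [show 2 * (n + 1) + 1 = (2 * n + 2) + 1 by ring, Nat.factorial_succ,
        show 2 * n + 2 = (2 * n + 1) + 1 by ring, Nat.factorial_succ]
    rw [e, Nat.factorial_succ, pow_succ]
    calc 6 ^ n * 6 * ((n + 1) * n.factorial) = (6 * (n + 1)) * (6 ^ n * n.factorial) := by ring
      _ ≤ ((2 * n + 3) * (2 * n + 2)) * (2 * n + 1).factorial := by
        apply Nat.mul_le_mul _ ih
        nlinarith
      _ = _ := by ring

theorem sinh_le {c : ℝ} (hc : 0 ≤ c) : Real.sinh c ≤ c * Real.exp (c ^ 2 / 6) := by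
  have h1 := Real.hasSum_sinh c
  have h2 : HasSum (fun n : ℕ => c * ((c ^ 2 / 6) ^ n / n.factorial)) (c * Real.exp (c ^ 2 / 6)) := by
    rw [Real.exp_eq_exp_ℝ]
    exact (NormedSpace.expSeries_div_hasSum_exp (c ^ 2 / 6)).mul_left c
  refine hasSum_le (fun n => ?_) h1 h2
  rw [div_pow, ← pow_mul]
  have h3 : ((6 : ℝ) ^ n * n.factorial) ≤ (2 * n + 1).factorial := by
    exact_mod_cast fact_bound n
  have h4 : (0 : ℝ) < n.factorial := by exact_mod_cast n.factorial_pos
  calc c ^ (2 * n + 1) / (2 * n + 1).factorial ≤ c ^ (2 * n + 1) / (6 ^ n * n.factorial) := by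
        apply div_le_div_of_nonneg_left (by positivity) (by positivity) h3
    _ = c * (c ^ (2 * n) / 6 ^ n / n.factorial) := by
        rw [pow_succ]
        field_simp

theorem int_exp_le (c : ℝ) : ∫ u in (-1 : ℝ)..1, Real.exp (c * u) ≤ 2 * Real.exp (c ^ 2 / 6) := by
  by_cases hc : c = 0
  · subst hc
    simp
    norm_num
  · have h1 : ∫ u in (-1 : ℝ)..1, Real.exp (c * u) = 2 * Real.sinh c / c := by
      rw [intervalIntegral.integral_comp_mul_left (fun u => Real.exp u) hc, integral_exp,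
        Real.sinh_eq]
      rw [smul_eq_mul]
      field_simp
    rw [h1]
    have h2 : Real.sinh c / c = Real.sinh |c| / |c| := by
      rcases abs_cases c with ⟨h, _⟩ | ⟨h, _⟩ <;> rw [h]
      rw [Real.sinh_neg, neg_div_neg_eq]
    have h3 : 0 < |c| := abs_pos.2 hc
    have h4 := sinh_le h3.le
    rw [mul_div_assoc, h2]
    apply mul_le_mul_of_nonneg_left _ (by norm_num)
    rw [div_le_iff₀ h3, mul_comm, ← sq_abs c]
    exact h4

theorem mgf_le {m : ℕ} (b : Fin m → ℝ) (l : ℝ) :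
    ∫ x, Real.exp (l * dot x b) ∂(cubeM m) ≤ 2 ^ m * Real.exp (l ^ 2 * (∑ j, b j ^ 2) / 6) := by
  have h := integral_fintype_prod_eq_prod (𝕜 := ℝ) (ι := Fin m) (E := fun _ => ℝ)
    (μ := fun _ => (volume : Measure ℝ).restrict (Icc (-1 : ℝ) 1))
    (fun i u => Real.exp (l * b i * u))
  unfold cubeM
  have e : ∀ x : Fin m → ℝ, Real.exp (l * dot x b) = ∏ i, Real.exp (l * b i * x i) := by
    intro x
    rw [← Real.exp_sum]
    congr 1
    rw [dot, Finset.mul_sum]
    congr 1
    ext i; ring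
  simp only [e]
  rw [h]
  have h1 : ∀ i : Fin m, ∫ x, Real.exp (l * b i * x) ∂((volume : Measure ℝ).restrict (Icc (-1 : ℝ) 1)) ≤
      2 * Real.exp ((l * b i) ^ 2 / 6) := by
    intro i
    rw [integral_Icc_eq_integral_Ioc, ← intervalIntegral.integral_of_le (by norm_num)]
    exact int_exp_le _
  refine (Finset.prod_le_prod (fun i _ => integral_nonneg fun x => (Real.exp_pos _).le)
    (fun i _ => h1 i)).trans (le_of_eq ?_)
  rw [Finset.prod_mul_distrib, ← Real.exp_sum]
  simp only [Finset.prod_const, Finset.card_univ, Fintype.card_fin]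
  congr 2
  rw [Finset.mul_sum, Finset.sum_div]
  congr 1
  ext i; ring

theorem tail_one {m : ℕ} (b : Fin m → ℝ) {s σ : ℝ} (hs : 0 ≤ s) (hσ : 0 < σ)
    (hb : ∑ j, b j ^ 2 ≤ σ) :
    (cubeM m).real {x | s ≤ dot x b} ≤ 2 ^ m * Real.exp (-(3 * s ^ 2) / (2 * σ)) := by
  set l : ℝ := 3 * s / σ with hl
  have hl0 : 0 ≤ l := by positivity
  have hint : Integrable (fun x : Fin m → ℝ => Real.exp (l * dot x b)) (cubeM m) := by
    apply integrable_cube_of_continuous
    have := continuous_dot b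
    fun_prop
  have h1 := mul_meas_ge_le_integral_of_nonneg (μ := cubeM m)
    (Filter.Eventually.of_forall fun x => (Real.exp_pos (l * dot x b)).le) hint (Real.exp (l * s))
  have h2 : {x : Fin m → ℝ | s ≤ dot x b} ⊆ {x | Real.exp (l * s) ≤ Real.exp (l * dot x b)} := by
    intro x hx
    have hx' : s ≤ dot x b := hx
    show Real.exp (l * s) ≤ Real.exp (l * dot x b)
    exact Real.exp_le_exp.2 (mul_le_mul_of_nonneg_left hx' hl0)
  have h3 := measureReal_mono (μ := cubeM m) h2
  have h4 := mgf_le b l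
  have h5 : (cubeM m).real {x | Real.exp (l * s) ≤ Real.exp (l * dot x b)} ≤
      (2 ^ m * Real.exp (l ^ 2 * (∑ j, b j ^ 2) / 6)) / Real.exp (l * s) := by
    rw [le_div_iff₀ (Real.exp_pos _), mul_comm]
    exact h1.trans h4
  refine (h3.trans h5).trans ?_
  rw [mul_div_assoc, ← Real.exp_sub]
  apply mul_le_mul_of_nonneg_left _ (by positivity)
  apply Real.exp_le_exp.2
  have h6 : l ^ 2 * (∑ j, b j ^ 2) / 6 ≤ l ^ 2 * σ / 6 := by
    have := mul_le_mul_of_nonneg_left hb (sq_nonneg l)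
    linarith
  have h7 : l ^ 2 * σ / 6 - l * s = -(3 * s ^ 2) / (2 * σ) := by
    rw [hl]
    field_simp
    ring
  linarith

theorem dot_neg {m : ℕ} (x b : Fin m → ℝ) : dot x (fun j => -b j) = -dot x b := by
  simp [dot, Finset.sum_neg_distrib]

theorem tail_two {m : ℕ} (b : Fin m → ℝ) {s σ : ℝ} (hs : 0 ≤ s) (hσ : 0 < σ)
    (hb : ∑ j, b j ^ 2 ≤ σ) :
    (cubeM m).real {x | s ≤ |dot x b|} ≤ 2 ^ m * (2 * Real.exp (-(3 * s ^ 2) / (2 * σ))) := by
  have h1 := tail_one b hs hσ hb
  have h2 := tail_one (fun j => -b j) hs hσ (by simpa using hb)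
  simp only [dot_neg] at h2
  have h3 : {x : Fin m → ℝ | s ≤ |dot x b|} ⊆ {x | s ≤ dot x b} ∪ {x | s ≤ -dot x b} := by
    intro x hx
    have hx' : s ≤ |dot x b| := hx
    rcases le_abs.1 hx' with h | h
    · exact Or.inl h
    · exact Or.inr h
  have h4 := (measureReal_mono (μ := cubeM m) h3).trans (measureReal_union_le _ _)
  linarith

end Pool.Agent.H60.SL
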