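import Pool.Agent.H60.SL.AvgPoi
import Pool.Agent.H60.SL.Tail

set_option autoImplicit false

open MeasureTheory Set Filter Topology

namespace Pool.Agent.H60.SL

open Pool.Agent.H64.Slab Pool.Agent.H60.Slab Pool.Agent.H60.Big

theorem int_shift {m : ℕ} (b : Fin m → ℝ) {f : ℝ → ℝ} (hf : Measurable f) {M : ℝ}
    (hM : ∀ x, |f x| ≤ M) (y : ℝ) : Integrable (fun x => f (y + dot x b)) (cubeM m) := by
  apply Integrable.of_bound (C := M)
  · have h1 : Measurable (fun x : Fin m → ℝ => y + dot x b) :=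
      (continuous_const.add (continuous_dot b)).measurable
    exact (hf.comp h1).aestronglyMeasurable
  · exact Filter.Eventually.of_forall fun x => hM _

theorem tsum_avgc {m : ℕ} (b : Fin m → ℝ) {f : ℝ → ℝ} (hf : Measurable f) {M : ℝ}
    (hM : ∀ x, |f x| ≤ M) {L : ℝ} (hs : ∀ x, L < |x| → f x = 0) {P : ℝ} (hP : 0 < P) (t : ℝ) :
    Integrable (fun x => ∑' j : ℤ, f ((t + dot x b) + j * P)) (cubeM m) ∧
    ∑' j : ℤ, avgc b f (t + j * P) =
      (1 / 2 ^ m) * ∫ x, (∑' j : ℤ, f ((t + dot x b) + j * P)) ∂(cubeM m) := by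
  set s : Finset ℤ := (finite_shift (t := t) (M := L + ∑ j, |b j| + 1) hP).toFinset with hs0
  have hout : ∀ j : ℤ, j ∉ s → L + ∑ j, |b j| + 1 ≤ |t + j * P| := by
    intro j hj
    rw [hs0, Set.Finite.mem_toFinset] at hj
    exact not_lt.1 hj
  have hzero : ∀ j : ℤ, j ∉ s → ∀ x : Fin m → ℝ, |dot x b| ≤ ∑ j, |b j| →
      f ((t + dot x b) + j * P) = 0 := by
    intro j hj x hx
    apply hs
    have h1 := hout j hj
    have h2 := abs_sub_abs_le_abs_sub (t + j * P) (-(dot x b))
    rw [abs_neg, sub_neg_eq_add] at h2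
    have h3 : t + dot x b + j * P = t + j * P + dot x b := by ring
    rw [h3]
    linarith
  have hae : (fun x => ∑ j ∈ s, f ((t + dot x b) + j * P)) =ᵐ[cubeM m]
      (fun x => ∑' j : ℤ, f ((t + dot x b) + j * P)) := by
    filter_upwards [dot_bound_ae b] with x hx
    rw [tsum_eq_sum]
    intro j hj
    exact hzero j hj x hx
  have hint : ∀ j : ℤ, Integrable (fun x => f ((t + dot x b) + j * P)) (cubeM m) := by
    intro j
    have h := int_shift b hf hM (t + j * P)
    have e : (fun x : Fin m → ℝ => f ((t + dot x b) + j * P)) =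
        fun x => f ((t + j * P) + dot x b) := by
      ext x
      congr 1
      ring
    rw [e]
    exact h
  have hint2 : Integrable (fun x => ∑ j ∈ s, f ((t + dot x b) + j * P)) (cubeM m) :=
    integrable_finsetSum _ fun j _ => hint j
  refine ⟨hint2.congr hae, ?_⟩
  rw [← integral_congr_ae hae, integral_finsetSum _ fun j _ => hint j, tsum_eq_sum (s := s),
    Finset.mul_sum]
  · apply Finset.sum_congr rfl
    intro j _
    unfold avgc
    congr 2
    ext x
    congr 1
    ring
  · intro j hj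
    unfold avgc
    have : ∫ x, f ((t + j * P) + dot x b) ∂(cubeM m) = 0 := by
      apply integral_eq_zero_of_ae
      filter_upwards [dot_bound_ae b] with x hx
      have := hzero j hj x hx
      rw [show t + dot x b + j * P = t + j * P + dot x b by ring] at this
      exact this
    rw [this, mul_zero]

theorem shift_far {P y : ℝ} {j : ℤ} (hj : j ≠ 0) (hP : 0 < P) : P - |y| ≤ |y + j * P| := by
  have h1 : (1 : ℝ) ≤ |(j : ℝ)| := by
    have : (1 : ℤ) ≤ |j| := Int.one_le_abs hj
    exact_mod_cast this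
  have h2 : P ≤ |(j : ℝ) * P| := by
    rw [abs_mul, abs_of_pos hP]
    exact le_mul_of_one_le_left hP.le h1
  have h3 := abs_sub_abs_le_abs_sub ((j : ℝ) * P) (-y)
  rw [abs_neg, sub_neg_eq_add, add_comm ((j : ℝ) * P)] at h3
  linarith

theorem alias_pt {f : ℝ → ℝ} {M : ℝ} (hM : ∀ x, |f x| ≤ M) {L P : ℝ}
    (hs : ∀ x, L < |x| → f x = 0) (hP : 2 * L < P) (hP0 : 0 < P) (y : ℝ) :
    |∑' j : ℤ, f (y + j * P) - f y| ≤ {y : ℝ | P - L ≤ |y|}.indicator (fun _ => M) y := by
  have hM0 : 0 ≤ M := (abs_nonneg _).trans (hM 0)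
  by_cases h : P - L ≤ |y|
  · rw [indicator_of_mem (by exact h)]
    have hy : f y = 0 := hs y (by linarith)
    rw [hy, sub_zero]
    by_cases hex : ∃ j : ℤ, |y + j * P| ≤ L
    · obtain ⟨j, hj⟩ := hex
      rw [tsum_eq_single j]
      · exact hM _
      · intro i hi
        apply hs
        have h1 := shift_far (P := P) (y := y + j * P) (sub_ne_zero.2 hi) hP0
        have h2 : y + j * P + ((i - j : ℤ) : ℝ) * P = y + i * P := by
          push_cast
          ring
        rw [h2] at h1
        linarith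
    · push Not at hex
      have : ∀ j : ℤ, f (y + j * P) = 0 := fun j => hs _ (hex j)
      simp only [this, tsum_zero, abs_zero]
      exact hM0
  · rw [indicator_of_notMem (by exact h)]
    push Not at h
    rw [tsum_eq_single (0 : ℤ)]
    · simp
    · intro j hj
      apply hs
      have := shift_far (P := P) (y := y) hj hP0
      linarith

theorem alias_bound {m : ℕ} (b : Fin m → ℝ) {f : ℝ → ℝ} (hf : Measurable f) {M : ℝ}
    (hM : ∀ x, |f x| ≤ M) {L : ℝ} (hs : ∀ x, L < |x| → f x = 0) {P t σ : ℝ} (hP : 2 * L < P)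
    (hP0 : 0 < P) (ht : 0 ≤ t) (htP : t + L ≤ P) (hσ : 0 < σ) (hb : ∑ j, b j ^ 2 ≤ σ) :
    |∑' j : ℤ, avgc b f (t + j * P) - avgc b f t| ≤
      2 * M * Real.exp (-(3 * (P - t - L) ^ 2) / (2 * σ)) := by
  have hM0 : 0 ≤ M := (abs_nonneg _).trans (hM 0)
  obtain ⟨hint, heq⟩ := tsum_avgc b hf hM hs hP0 t
  have hint2 := int_shift b hf hM t
  rw [heq]
  have e : (1 / 2 ^ m) * ∫ x, (∑' j : ℤ, f ((t + dot x b) + j * P)) ∂(cubeM m) - avgc b f t =
      (1 / 2 ^ m) * ∫ x, ((∑' j : ℤ, f ((t + dot x b) + j * P)) - f (t + dot x b)) ∂(cubeM m) := by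
    rw [integral_sub hint hint2, mul_sub]
    rfl
  rw [e, abs_mul, abs_of_pos (by positivity : (0 : ℝ) < 1 / 2 ^ m)]
  have hms : MeasurableSet {x : Fin m → ℝ | P - L - t ≤ |dot x b|} := by
    have hc : Continuous (fun x : Fin m → ℝ => |dot x b|) := (continuous_dot b).abs
    exact measurableSet_le measurable_const hc.measurable
  have h1 : |∫ x, ((∑' j : ℤ, f ((t + dot x b) + j * P)) - f (t + dot x b)) ∂(cubeM m)| ≤
      ∫ x, {x : Fin m → ℝ | P - L - t ≤ |dot x b|}.indicator (fun _ => M) x ∂(cubeM m) := by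
    rw [← Real.norm_eq_abs]
    apply norm_integral_le_of_norm_le
    · exact (integrable_const M).indicator hms
    · refine Filter.Eventually.of_forall fun x => ?_
      rw [Real.norm_eq_abs]
      refine (alias_pt hM hs hP hP0 (t + dot x b)).trans ?_
      by_cases h : P - L ≤ |t + dot x b|
      · rw [indicator_of_mem (by exact h)]
        have h2 : P - L - t ≤ |dot x b| := by
          have := abs_add_le t (dot x b)
          rw [abs_of_nonneg ht] at this
          linarith
        rw [indicator_of_mem (by exact h2)]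
      · rw [indicator_of_notMem (by exact h)]
        exact indicator_nonneg (fun _ _ => hM0) x
  rw [integral_indicator_const M hms, smul_eq_mul] at h1
  have h2 := tail_two b (s := P - L - t) (by linarith) hσ hb
  have h3 : (1 : ℝ) / 2 ^ m * |∫ x, ((∑' j : ℤ, f ((t + dot x b) + j * P)) - f (t + dot x b))
      ∂(cubeM m)| ≤ 1 / 2 ^ m * (2 ^ m * (2 * Real.exp (-(3 * (P - L - t) ^ 2) / (2 * σ))) * M) := by
    apply mul_le_mul_of_nonneg_left _ (by positivity)
    exact h1.trans (mul_le_mul_of_nonneg_right h2 hM0)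
  refine h3.trans (le_of_eq ?_)
  rw [show P - L - t = P - t - L by ring]
  field_simp

end Pool.Agent.H60.SL
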