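import Pool.Agent.H60.SL.Alias
import Pool.Agent.H60.SL.Crit

/-!
# Alias sums for the `q` series, first part
-/

set_option autoImplicit false

open MeasureTheory Set Filter Topology

namespace Pool.Agent.H60.SL

open Pool.Agent.H64.Slab Pool.Agent.H60.Slab Pool.Agent.H60.Big

theorem ptr5_sub (z : ℝ) : ptr 5 z - ptr 5 (-z) = z ^ 5 / 120 := by
  rcases le_total z 0 with h | h
  · rw [ptr_of_nonpos (by norm_num) h, ptr_of_nonneg (by linarith)]
    norm_num [Nat.factorial]; ring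
  · rw [ptr_of_nonneg h, ptr_of_nonpos (by norm_num) (by linarith : -z ≤ 0)]
    norm_num [Nat.factorial]

section base

variable {p d : ℝ}

theorem LL4_even (hd : 0 < d) (hp : d < p) (y : ℝ) : LL 4 p d (-y) = LL 4 p d y := by
  have hp0 : 0 < p := hd.trans hp
  have a1 := ptr4_add (p - y)
  have a2 := ptr4_add (p + y)
  have a3 := ptr4_add (d - y)
  have a4 := ptr4_add (d + y)
  have b1 := ptr5_sub (p - y)
  have b2 := ptr5_sub (p + y)
  have b3 := ptr5_sub (d - y)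
  have b4 := ptr5_sub (d + y)
  have e1 : p - -y = p + y := by ring
  have e2 : -p - -y = -(p - y) := by ring
  have e3 : d - -y = d + y := by ring
  have e4 : -d - -y = -(d - y) := by ring
  have e5 : -p - y = -(p + y) := by ring
  have e6 : -d - y = -(d + y) := by ring
  unfold Big.LL
  rw [e1, e2, e3, e4, e5, e6]
  have x1 : ptr 4 (-(p - y)) = (p - y) ^ 4 / 24 - ptr 4 (p - y) := by linarith
  have x2 : ptr 4 (-(p + y)) = (p + y) ^ 4 / 24 - ptr 4 (p + y) := by linarith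
  have x3 : ptr 4 (-(d - y)) = (d - y) ^ 4 / 24 - ptr 4 (d - y) := by linarith
  have x4 : ptr 4 (-(d + y)) = (d + y) ^ 4 / 24 - ptr 4 (d + y) := by linarith
  have y1 : ptr 5 (-(p - y)) = ptr 5 (p - y) - (p - y) ^ 5 / 120 := by linarith
  have y2 : ptr 5 (-(p + y)) = ptr 5 (p + y) - (p + y) ^ 5 / 120 := by linarith
  have y3 : ptr 5 (-(d - y)) = ptr 5 (d - y) - (d - y) ^ 5 / 120 := by linarith
  have y4 : ptr 5 (-(d + y)) = ptr 5 (d + y) - (d + y) ^ 5 / 120 := by linarith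
  norm_num only
  rw [x1, x2, x3, x4, y1, y2, y3, y4]
  field_simp
  ring

theorem LL3_nonneg (hd : 0 < d) (hp : d < p) {y : ℝ} (hy : 0 ≤ y) : 0 ≤ LL 3 p d y := by
  rcases le_or_gt p y with h | h
  · rw [LL_far (by norm_num) hd hp h]
  · rcases hy.eq_or_lt with h0 | h0
    · rw [← h0]
      have := LL3_odd hd hp 0
      rw [neg_zero] at this
      linarith
    · exact (LL3_pos hd hp h0 h).le

/-- if `f' = -g` with `g ≥ 0` beyond `x1` and `f` vanishes beyond `L` -/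
theorem step_anti {f g : ℝ → ℝ} {x1 L : ℝ} (hf : ∀ x, HasDerivAt f (-g x) x)
    (hg0 : ∀ x, x1 ≤ x → 0 ≤ g x) (hL : ∀ x, L ≤ x → f x = 0) :
    AntitoneOn f (Ici x1) ∧ ∀ x, x1 ≤ x → 0 ≤ f x := by
  have h1 : AntitoneOn f (Ici x1) := by
    refine antitoneOn_of_deriv_nonpos (convex_Ici x1) ?_ ?_ ?_
    · exact fun x _ => (hf x).continuousAt.continuousWithinAt
    · exact fun x _ => (hf x).differentiableAt.differentiableWithinAt
    · intro x hx
      rw [(hf x).deriv]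
      have : x1 ≤ x := interior_subset hx
      linarith [hg0 x this]
  refine ⟨h1, fun x hx => ?_⟩
  have h2 := h1 (show x ∈ Ici x1 from hx) (show max x L ∈ Ici x1 from hx.trans (le_max_left _ _))
    (le_max_left _ _)
  rw [hL _ (le_max_right _ _)] at h2
  exact h2

/-- one integration step -/
theorem step_int {f g : ℝ → ℝ} {x1 : ℝ} (hf : ∀ x, HasDerivAt f (-g x) x)
    (hg : AntitoneOn g (Ici x1)) (hf0 : ∀ x, x1 ≤ x → 0 ≤ f x) {x η : ℝ} (hη : 0 < η)
    (hx : x1 ≤ x - η) : η * g x ≤ f (x - η) := by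
  obtain ⟨c, hc, hc2⟩ := exists_hasDerivAt_eq_slope f (fun x => -g x) (show x - η < x by linarith)
    (fun x _ => (hf x).continuousAt.continuousWithinAt) (fun x _ => hf x)
  have e : x - (x - η) = η := by ring
  rw [e, eq_div_iff hη.ne'] at hc2
  have h1 : g x ≤ g c := hg (show c ∈ Ici x1 from by
    have := hc.1
    show x1 ≤ c
    linarith) (show x ∈ Ici x1 from by
    show x1 ≤ x
    linarith) hc.2.le
  have h2 := hf0 x (by linarith)
  nlinarith

theorem LL4_nonneg (hd : 0 < d) (hp : d < p) (y : ℝ) : 0 ≤ LL 4 p d y := by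
  have key : ∀ y, 0 ≤ y → 0 ≤ LL 4 p d y := (step_anti (x1 := 0) (L := p)
    (fun x => LL_hasDerivAt (k := 3) (by norm_num) p d x) (fun x hx => LL3_nonneg hd hp hx)
    (fun x hx => LL_far (by norm_num) hd hp hx)).2
  rcases le_total 0 y with h | h
  · exact key y h
  · have := key (-y) (by linarith)
    rwa [LL4_even hd hp] at this

theorem LL5_antitone (hd : 0 < d) (hp : d < p) : Antitone (LL 5 p d) := by
  refine antitone_of_deriv_nonpos
    (fun x => (LL_hasDerivAt (k := 4) (by norm_num) p d x).differentiableAt) fun x => ?_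
  rw [(LL_hasDerivAt (k := 4) (by norm_num) p d x).deriv]
  linarith [LL4_nonneg hd hp x]

theorem LL5_nonneg (hd : 0 < d) (hp : d < p) (y : ℝ) : 0 ≤ LL 5 p d y := by
  have h := LL5_antitone hd hp (le_max_left y p)
  rwa [LL_far (by norm_num) hd hp (le_max_right y p)] at h

theorem LL5_left (hd : 0 < d) (hp : d < p) {y : ℝ} (hy : y ≤ -p) :
    LL 5 p d y = (p ^ 2 - d ^ 2) ^ 3 / 720 := by
  have hp0 : 0 < p := hd.trans hp
  unfold Big.LL
  rw [ptr_of_nonneg (by linarith : 0 ≤ p - y), ptr_of_nonneg (by linarith : 0 ≤ -p - y),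
    ptr_of_nonneg (by linarith : 0 ≤ d - y), ptr_of_nonneg (by linarith : 0 ≤ -d - y),
    ptr_of_nonneg (by linarith : 0 ≤ p - y), ptr_of_nonneg (by linarith : 0 ≤ -p - y),
    ptr_of_nonneg (by linarith : 0 ≤ d - y), ptr_of_nonneg (by linarith : 0 ≤ -d - y)]
  norm_num [Nat.factorial]
  field_simp
  ring

theorem LL5_le (hd : 0 < d) (hp : d < p) (y : ℝ) : LL 5 p d y ≤ (p ^ 2 - d ^ 2) ^ 3 / 720 := by
  have h := LL5_antitone hd hp (min_le_left y (-p))
  rwa [LL5_left hd hp (min_le_right y (-p))] at h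

end base

/-- derivative of an average -/
theorem avgc_hasDerivAt {m : ℕ} (b : Fin m → ℝ) {f f' : ℝ → ℝ} (hf : ∀ x, HasDerivAt f (f' x) x)
    (hf' : Continuous f') {M C : ℝ} (hM : ∀ x, |f x| ≤ M) (hC : ∀ x, |f' x| ≤ C) (t : ℝ) :
    HasDerivAt (avgc b f) (avgc b f' t) t := by
  have hfc : Continuous f := continuous_iff_continuousAt.2 fun x => (hf x).continuousAt
  have h := hasDerivAt_integral_of_dominated_loc_of_deriv_le (μ := cubeM m) (x₀ := t)
    (s := Set.univ) (F := fun t x => f (t + dot x b)) (F' := fun t x => f' (t + dot x b))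
    (bound := fun _ => C) Filter.univ_mem
    (Filter.Eventually.of_forall fun y => (int_shift b hfc.measurable hM y).aestronglyMeasurable)
    (int_shift b hfc.measurable hM t) (int_shift b hf'.measurable hC t).aestronglyMeasurable
    (Filter.Eventually.of_forall fun x y _ => by
      rw [Real.norm_eq_abs]
      exact hC _)
    (integrable_const C)
    (Filter.Eventually.of_forall fun x y _ => by
      have h1 := (hf (y + dot x b)).comp y ((hasDerivAt_id y).add_const (dot x b))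
      exact h1.congr_deriv (by simp))
  exact h.2.const_mul (1 / 2 ^ m)

theorem bdd_of_supp {f : ℝ → ℝ} (hf : Continuous f) {L : ℝ} (hs : ∀ x, L ≤ |x| → f x = 0) :
    ∃ M, ∀ x, |f x| ≤ M := by
  obtain ⟨M, hM⟩ := (isCompact_Icc (a := -L) (b := L)).exists_bound_of_continuousOn hf.continuousOn
  refine ⟨max M 0, fun x => ?_⟩
  rcases le_or_gt L |x| with h | h
  · rw [hs x h, abs_zero]
    exact le_max_right _ _
  · have h1 := abs_lt.1 h
    have h2 := hM x ⟨h1.1.le, h1.2.le⟩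
    rw [Real.norm_eq_abs] at h2
    exact h2.trans (le_max_left _ _)

theorem LL4_supp {p d : ℝ} (hd : 0 < d) (hp : d < p) (x : ℝ) (hx : p ≤ |x|) : LL 4 p d x = 0 := by
  rcases le_total 0 x with h | h
  · rw [abs_of_nonneg h] at hx
    exact LL_far (by norm_num) hd hp hx
  · rw [abs_of_nonpos h] at hx
    rw [← LL4_even hd hp]
    exact LL_far (by norm_num) hd hp hx

theorem LL3_supp {p d : ℝ} (hd : 0 < d) (hp : d < p) (x : ℝ) (hx : p ≤ |x|) : LL 3 p d x = 0 := by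
  rcases le_total 0 x with h | h
  · rw [abs_of_nonneg h] at hx
    exact LL_far (by norm_num) hd hp hx
  · rw [abs_of_nonpos h] at hx
    have h1 := LL3_odd hd hp x
    rw [LL_far (by norm_num) hd hp hx] at h1
    linarith

theorem LL5_abs {p d : ℝ} (hd : 0 < d) (hp : d < p) (x : ℝ) :
    |LL 5 p d x| ≤ (p ^ 2 - d ^ 2) ^ 3 / 720 := by
  rw [abs_of_nonneg (LL5_nonneg hd hp x)]
  exact LL5_le hd hp x

/-- tail of the last antiderivative -/
theorem avg5_le {m : ℕ} (b : Fin m → ℝ) {p d y σ : ℝ} (hd : 0 < d) (hp : d < p) (hy : p ≤ y)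
    (hσ : 0 < σ) (hb : ∑ j, b j ^ 2 ≤ σ) :
    avgc b (LL 5 p d) y ≤ (p ^ 2 - d ^ 2) ^ 3 / 720 * Real.exp (-(3 * (y - p) ^ 2) / (2 * σ)) := by
  set M := (p ^ 2 - d ^ 2) ^ 3 / 720 with hM
  have hM0 : 0 ≤ M := (LL5_nonneg hd hp 0).trans (LL5_le hd hp 0)
  have hms : MeasurableSet {x : Fin m → ℝ | y - p ≤ dot x (fun j => -b j)} :=
    measurableSet_le measurable_const (continuous_dot _).measurable
  have h1 : ∫ x, LL 5 p d (y + dot x b) ∂(cubeM m) ≤
      ∫ x, {x : Fin m → ℝ | y - p ≤ dot x (fun j => -b j)}.indicator (fun _ => M) x ∂(cubeM m) := by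
    apply integral_mono (int_shift b (LL_continuous 5 p d).measurable (LL5_abs hd hp) y)
      ((integrable_const M).indicator hms)
    intro x
    show LL 5 p d (y + dot x b) ≤ _
    by_cases h : y - p ≤ dot x (fun j => -b j)
    · rw [indicator_of_mem (by exact h)]
      exact LL5_le hd hp _
    · rw [indicator_of_notMem (by exact h)]
      rw [dot_neg] at h
      exact (LL_far (by norm_num) hd hp (by linarith)).le
  have h2 := tail_one (fun j => -b j) (s := y - p) (σ := σ) (by linarith) hσ (by simpa using hb)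
  rw [integral_indicator_const _ hms, smul_eq_mul] at h1
  unfold avgc
  calc 1 / 2 ^ m * ∫ x, LL 5 p d (y + dot x b) ∂(cubeM m)
      ≤ 1 / 2 ^ m * ((cubeM m).real {x | y - p ≤ dot x (fun j => -b j)} * M) :=
        mul_le_mul_of_nonneg_left h1 (by positivity)
    _ ≤ 1 / 2 ^ m * ((2 ^ m * Real.exp (-(3 * (y - p) ^ 2) / (2 * σ))) * M) :=
        mul_le_mul_of_nonneg_left (mul_le_mul_of_nonneg_right h2 hM0) (by positivity)
    _ = M * Real.exp (-(3 * (y - p) ^ 2) / (2 * σ)) := by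
        field_simp

/-- `|q(x)| ≤ (4/45) (αγ)³ η⁻³ exp(...)` for large `x` -/
theorem q_small_bound {m : ℕ} (b : Fin m → ℝ) {α γ x σ η : ℝ} (hγ : 0 < γ) (hαγ : γ < α)
    (hb : ∀ j, 0 < b j) (hbα : ∀ j, b j ≤ α + γ) (hs : α ^ 2 + γ ^ 2 + ∑ j, b j ^ 2 ≤ 1)
    (hσ : 0 < σ) (hbσ : ∑ j, b j ^ 2 ≤ σ) (hη : 0 < η) (hx2 : 10 ≤ 3 * (x - 3 * η) ^ 2)
    (hp : α + γ ≤ x - 3 * η) :
    |avgc b (LL 2 (α + γ) (α - γ)) x| ≤ 4 / 45 * (α * γ) ^ 3 / η ^ 3 *
      Real.exp (-(3 * (x - 3 * η - (α + γ)) ^ 2) / (2 * σ)) := by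
  have hd : 0 < α - γ := by linarith
  have hdp : α - γ < α + γ := by linarith
  have hα : 0 < α := hγ.trans hαγ
  obtain ⟨z, hG⟩ := base_good hd hdp
  obtain ⟨z', hG'⟩ := good_cube m b _ _ _ z _ hG hb hbα
  set x1 := x - 3 * η with hx1
  set L := α + γ + ∑ j, b j with hL
  -- F ≥ 0
  have hF : ∀ y, x1 ≤ y → 0 ≤ avgc b (LL 1 (α + γ) (α - γ)) y := by
    intro y hy
    rcases lt_or_ge y L with h | h
    · have h1 := F_pos_large b hd hdp hb hbα (t := y) (by linarith) (by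
        have h2 : x1 ^ 2 ≤ y ^ 2 := pow_le_pow_left₀ (by linarith) hy 2
        have h3 : 0 < α ^ 2 + γ ^ 2 := by positivity
        nlinarith) h
      unfold avgc
      positivity
    · rw [hG'.F_supp h]
  have q1 := step_anti (x1 := x1) (L := L) hG'.hq hF (fun y hy => hG'.q_supp hy)
  have v1 := step_anti (x1 := x1) (L := L) hG'.hv q1.2 (fun y hy => hG'.supp y hy)
  obtain ⟨M4, hM4⟩ := bdd_of_supp (LL_continuous 4 (α + γ) (α - γ)) (LL4_supp hd hdp)
  obtain ⟨M3, hM3⟩ := bdd_of_supp (LL_continuous 3 (α + γ) (α - γ)) (LL3_supp hd hdp)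
  have d4 : ∀ y, HasDerivAt (avgc b (LL 4 (α + γ) (α - γ)))
      (-avgc b (LL 3 (α + γ) (α - γ)) y) y := by
    intro y
    have h := avgc_hasDerivAt b (fun x => LL_hasDerivAt (k := 3) (by norm_num) (α + γ) (α - γ) x)
      (LL_continuous 3 _ _).neg hM4 (C := M3) (fun x => by rw [abs_neg]; exact hM3 x) y
    refine h.congr_deriv ?_
    unfold avgc
    rw [integral_neg, mul_neg]
  have d5 : ∀ y, HasDerivAt (avgc b (LL 5 (α + γ) (α - γ)))
      (-avgc b (LL 4 (α + γ) (α - γ)) y) y := by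
    intro y
    have h := avgc_hasDerivAt b (fun x => LL_hasDerivAt (k := 4) (by norm_num) (α + γ) (α - γ) x)
      (LL_continuous 4 _ _).neg (LL5_abs hd hdp) (C := M4) (fun x => by rw [abs_neg]; exact hM4 x) y
    refine h.congr_deriv ?_
    unfold avgc
    rw [integral_neg, mul_neg]
  have habs : ∑ j, |b j| = ∑ j, b j := Finset.sum_congr rfl fun j _ => abs_of_pos (hb j)
  have hL0 : 0 < L := hG'.L_pos
  have w1 := step_anti (x1 := x1) (L := L) d4 v1.2 (fun y hy => avgc_far b (LL4_supp hd hdp) (by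
    rw [habs, abs_of_nonneg (by linarith)]
    exact hy))
  have g0 : ∀ y, x1 ≤ y → 0 ≤ avgc b (LL 5 (α + γ) (α - γ)) y := by
    intro y _
    unfold avgc
    have : 0 ≤ ∫ x, LL 5 (α + γ) (α - γ) (y + dot x b) ∂(cubeM m) :=
      integral_nonneg fun x => LL5_nonneg hd hdp _
    positivity
  have s1 := step_int hG'.hv q1.1 v1.2 (x := x) hη (by linarith)
  have s2 := step_int d4 v1.1 w1.2 (x := x - η) hη (by linarith)
  have s3 := step_int d5 w1.1 g0 (x := x - η - η) hη (by linarith)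
  have e : x - η - η - η = x1 := by rw [hx1]; ring
  rw [e] at s3
  have g1 := avg5_le b hd hdp (y := x1) hp hσ hbσ
  have e2 : ((α + γ) ^ 2 - (α - γ) ^ 2) ^ 3 / 720 = 4 / 45 * (α * γ) ^ 3 := by ring
  rw [e2] at g1
  rw [abs_of_nonneg (q1.2 x (by linarith))]
  have h3 : η ^ 3 * avgc b (LL 2 (α + γ) (α - γ)) x ≤ avgc b (LL 5 (α + γ) (α - γ)) x1 := by
    calc η ^ 3 * avgc b (LL 2 (α + γ) (α - γ)) x
        = η ^ 2 * (η * avgc b (LL 2 (α + γ) (α - γ)) x) := by ring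
      _ ≤ η ^ 2 * avgc b (LL 3 (α + γ) (α - γ)) (x - η) :=
          mul_le_mul_of_nonneg_left s1 (by positivity)
      _ = η * (η * avgc b (LL 3 (α + γ) (α - γ)) (x - η)) := by ring
      _ ≤ η * avgc b (LL 4 (α + γ) (α - γ)) (x - η - η) := mul_le_mul_of_nonneg_left s2 hη.le
      _ ≤ _ := s3
  rw [div_mul_eq_mul_div, le_div_iff₀ (by positivity)]
  linarith

theorem exp_neg_45 : Real.exp (-(45 : ℝ)) ≤ 1 / 1000 := by
  have h1 : (2 : ℝ) ≤ Real.exp 1 := by linarith [Real.add_one_le_exp (1 : ℝ)]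
  have h2 : (2 : ℝ) ^ 45 ≤ Real.exp 45 := by
    calc (2 : ℝ) ^ 45 ≤ Real.exp 1 ^ 45 := pow_le_pow_left₀ (by norm_num) h1 45
      _ = Real.exp 45 := by rw [← Real.exp_nat_mul]; norm_num
  rw [Real.exp_neg, inv_eq_one_div]
  exact one_div_le_one_div_of_le (by norm_num) (le_trans (by norm_num) h2)

theorem exp_neg_624 : Real.exp (-(156 / 25 : ℝ)) ≤ 1 / 200 := by
  have h1 : (5 / 2 : ℝ) ≤ Real.exp 1 := by
    have := Real.exp_one_gt_d9
    linarith
  have h2 : (5 / 2 : ℝ) ^ 6 ≤ Real.exp (156 / 25) := by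
    calc (5 / 2 : ℝ) ^ 6 ≤ Real.exp 1 ^ 6 := pow_le_pow_left₀ (by norm_num) h1 6
      _ = Real.exp 6 := by rw [← Real.exp_nat_mul]; norm_num
      _ ≤ Real.exp (156 / 25) := Real.exp_le_exp.2 (by norm_num)
  rw [Real.exp_neg, inv_eq_one_div]
  exact one_div_le_one_div_of_le (by norm_num) (le_trans (by norm_num) h2)

/-- gain from a shift by `h` -/
theorem exp_shift {y h σ : ℝ} (hy : 1 / 2 ≤ y) (hh : 0 ≤ h) (hσ : 0 < σ) (hσ1 : σ ≤ 1) :
    Real.exp (-(3 * (y + h) ^ 2) / (2 * σ)) ≤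
      Real.exp (-(3 * y ^ 2) / (2 * σ)) * Real.exp (-(3 / 2 * (h + h ^ 2))) := by
  rw [← Real.exp_add]
  apply Real.exp_le_exp.2
  rw [div_add' _ _ _ (by positivity), div_le_div_iff_of_pos_right (by positivity)]
  have h1 : 0 ≤ h + h ^ 2 := by positivity
  nlinarith [mul_le_mul_of_nonneg_right hσ1 h1]

/-- the alias sum, small `α` -/
theorem alias_small {m : ℕ} (b : Fin m → ℝ) {α γ P t σ : ℝ} (hγ : 0 < γ) (hαγ : γ < α)
    (hb : ∀ j, 0 < b j) (hbα : ∀ j, b j ≤ α + γ) (hs : α ^ 2 + γ ^ 2 + ∑ j, b j ^ 2 ≤ 1)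
    (hσ : 0 < σ) (hσ1 : σ ≤ 1) (hbσ : ∑ j, b j ^ 2 ≤ σ) (hP : 5 ≤ P) (ht : 4 / 5 ≤ t)
    (hx2 : 10 ≤ 3 * (P - t - 9 / 10) ^ 2) (hp : α + γ + 1 / 2 ≤ P - t - 9 / 10) :
    |∑' j : ℤ, avgc b (LL 2 (α + γ) (α - γ)) (t + j * P) - avgc b (LL 2 (α + γ) (α - γ)) t| ≤
      4 / 45 * (α * γ) ^ 3 * (1000 / 27) * (101 / 100) *
        Real.exp (-(3 * (P - t - 9 / 10 - (α + γ)) ^ 2) / (2 * σ)) := by
  have hα : 0 < α := hγ.trans hαγ
  have hP0 : 0 < P := by linarith
  have hpos : 0 < P - t - 9 / 10 := by linarith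
  set q := avgc b (LL 2 (α + γ) (α - γ)) with hq
  set C := 4 / 45 * (α * γ) ^ 3 * (1000 / 27) with hC
  have hC0 : 0 < C := by positivity
  set y := P - t - 9 / 10 - (α + γ) with hy
  set E := Real.exp (-(3 * y ^ 2) / (2 * σ)) with hE
  have hE0 : 0 < E := Real.exp_pos _
  have hbd : ∀ h : ℝ, 0 ≤ h → ∀ x : ℝ, x = P - t + h →
      |q x| ≤ C * (E * Real.exp (-(3 / 2 * (h + h ^ 2)))) := by
    intro h hh x hx
    have h1 := q_small_bound b (x := x) (η := 3 / 10) hγ hαγ hb hbα hs hσ hbσ (by norm_num)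
      (by
        have h2 : (P - t - 9 / 10) ^ 2 ≤ (x - 3 * (3 / 10)) ^ 2 :=
          pow_le_pow_left₀ hpos.le (by rw [hx]; linarith) 2
        linarith) (by rw [hx]; linarith)
    have h3 := exp_shift (y := y) (h := h) (σ := σ) (by rw [hy]; linarith) hh hσ hσ1
    have e1 : x - 3 * (3 / 10) - (α + γ) = y + h := by rw [hx, hy]; ring
    have e2 : 4 / 45 * (α * γ) ^ 3 / (3 / 10) ^ 3 = C := by rw [hC]; ring
    rw [e1, e2] at h1
    exact h1.trans (mul_le_mul_of_nonneg_left h3 hC0.le)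
  have heven : ∀ x, q (-x) = q x := by
    have hd : 0 < α - γ := by linarith
    have hdp : α - γ < α + γ := by linarith
    obtain ⟨z, hG⟩ := base_good hd hdp
    obtain ⟨z', hG'⟩ := good_cube m b _ _ _ z _ hG hb hbα
    exact hG'.q_even
  -- positive side
  have hr : ∀ n : ℕ, ∀ h : ℝ, 5 * (n : ℝ) ≤ h →
      Real.exp (-(3 / 2 * (h + h ^ 2))) ≤ (1 / 1000) ^ n := by
    intro n h hh
    have hn : (0 : ℝ) ≤ n := Nat.cast_nonneg n
    have h1 : (45 : ℝ) * n ≤ 3 / 2 * (h + h ^ 2) := by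
      rcases Nat.eq_zero_or_pos n with h0 | h0
      · subst h0
        have : 0 ≤ h := by simpa using hh
        simp only [Nat.cast_zero, mul_zero]
        positivity
      · have h2 : (1 : ℝ) ≤ n := by exact_mod_cast h0
        have h3 : 5 ≤ h := by linarith
        nlinarith
    calc Real.exp (-(3 / 2 * (h + h ^ 2))) ≤ Real.exp ((n : ℝ) * (-45)) :=
          Real.exp_le_exp.2 (by linarith)
      _ = Real.exp (-45) ^ n := by rw [Real.exp_nat_mul]
      _ ≤ (1 / 1000) ^ n := pow_le_pow_left₀ (Real.exp_pos _).le exp_neg_45 n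
  have hpos1 : ∀ n : ℕ, ‖q (t + ((n + 1 : ℕ) : ℤ) * P)‖ ≤ C * E * (1 / 200) * (1 / 1000) ^ n := by
    intro n
    have hn : (0 : ℝ) ≤ n := Nat.cast_nonneg n
    rw [Real.norm_eq_abs]
    set h := 2 * t + n * P with hh
    have h1 : 8 / 5 + 5 * (n : ℝ) ≤ h := by rw [hh]; nlinarith
    have h2 := hbd h (by linarith) (t + ((n + 1 : ℕ) : ℤ) * P) (by rw [hh]; push_cast; ring)
    have h3 : Real.exp (-(3 / 2 * (h + h ^ 2))) ≤ 1 / 200 * (1 / 1000) ^ n := by
      have h4 := hr n (h - 8 / 5) (by linarith)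
      calc Real.exp (-(3 / 2 * (h + h ^ 2)))
          ≤ Real.exp (-(156 / 25)) * Real.exp (-(3 / 2 * ((h - 8 / 5) + (h - 8 / 5) ^ 2))) := by
            rw [← Real.exp_add]
            apply Real.exp_le_exp.2
            nlinarith
        _ ≤ 1 / 200 * (1 / 1000) ^ n := mul_le_mul exp_neg_624 h4 (Real.exp_pos _).le (by norm_num)
    calc |q (t + ((n + 1 : ℕ) : ℤ) * P)| ≤ C * (E * Real.exp (-(3 / 2 * (h + h ^ 2)))) := h2
      _ ≤ C * (E * (1 / 200 * (1 / 1000) ^ n)) :=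
          mul_le_mul_of_nonneg_left (mul_le_mul_of_nonneg_left h3 hE0.le) hC0.le
      _ = _ := by ring
  have hneg1 : ∀ n : ℕ, ‖q (t + (-((n : ℤ) + 1) : ℤ) * P)‖ ≤ C * E * (1 / 1000) ^ n := by
    intro n
    have hn : (0 : ℝ) ≤ n := Nat.cast_nonneg n
    rw [Real.norm_eq_abs, ← heven]
    set h := n * P with hh
    have h1 : 5 * (n : ℝ) ≤ h := by rw [hh]; nlinarith
    have h2 := hbd h (by linarith) (-(t + (-((n : ℤ) + 1) : ℤ) * P)) (by rw [hh]; push_cast; ring)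
    have h4 := hr n h h1
    calc |q (-(t + (-((n : ℤ) + 1) : ℤ) * P))| ≤ C * (E * Real.exp (-(3 / 2 * (h + h ^ 2)))) := h2
      _ ≤ C * (E * (1 / 1000) ^ n) :=
          mul_le_mul_of_nonneg_left (mul_le_mul_of_nonneg_left h4 hE0.le) hC0.le
      _ = _ := by ring
  have hg : HasSum (fun n : ℕ => (1 / 1000 : ℝ) ^ n) (1 - 1 / 1000)⁻¹ :=
    hasSum_geometric_of_lt_one (by norm_num) (by norm_num)
  have hgp := hg.mul_left (C * E * (1 / 200))
  have hgn := hg.mul_left (C * E)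
  have sp : Summable (fun n : ℕ => q (t + ((n + 1 : ℕ) : ℤ) * P)) :=
    Summable.of_norm_bounded hgp.summable hpos1
  have sn : Summable (fun n : ℕ => q (t + (-((n : ℤ) + 1) : ℤ) * P)) :=
    Summable.of_norm_bounded hgn.summable hneg1
  have sp0 : Summable (fun n : ℕ => q (t + (n : ℤ) * P)) :=
    (summable_nat_add_iff (f := fun n : ℕ => q (t + (n : ℤ) * P)) 1).1 sp
  have b1 := tsum_of_norm_bounded hgp hpos1
  have b2 := tsum_of_norm_bounded hgn hneg1
  rw [Real.norm_eq_abs] at b1 b2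
  have htot : ∑' j : ℤ, q (t + j * P) = ∑' n : ℕ, q (t + (n : ℤ) * P) +
      ∑' n : ℕ, q (t + (-((n : ℤ) + 1) : ℤ) * P) :=
    tsum_of_nat_of_neg_add_one (f := fun j : ℤ => q (t + j * P)) sp0 sn
  have h0 : ∑' n : ℕ, q (t + (n : ℤ) * P) = q t + ∑' n : ℕ, q (t + ((n + 1 : ℕ) : ℤ) * P) := by
    rw [sp0.tsum_eq_zero_add]
    simp
  rw [htot, h0]
  have e3 : q t + ∑' n : ℕ, q (t + ((n + 1 : ℕ) : ℤ) * P) +
      ∑' n : ℕ, q (t + (-((n : ℤ) + 1) : ℤ) * P) - q t =
      ∑' n : ℕ, q (t + ((n + 1 : ℕ) : ℤ) * P) + ∑' n : ℕ, q (t + (-((n : ℤ) + 1) : ℤ) * P) := by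
    ring
  rw [e3]
  refine (abs_add_le _ _).trans ((add_le_add b1 b2).trans ?_)
  have hCE : 0 < C * E := mul_pos hC0 hE0
  norm_num
  nlinarith

end Pool.Agent.H60.SL
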