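import Pool.Agent.H60.Big.Link

set_option autoImplicit false

open MeasureTheory Set Filter Topology

namespace Pool.Agent.H60.SL

open Pool.Agent.H64.Slab Pool.Agent.H60.Slab Pool.Agent.H60.Big

/-- the slope function of the pair formula has derivative `Λ / u ^ 2`. -/
theorem slope_hasDerivAt {m : ℕ} (b : Fin m → ℝ) (hb : ∀ j, 0 < b j) {t s w : ℝ} (hw0 : 0 < w)
    (hws : w < s) :
    HasDerivAt (fun w => (RR b t (Real.sqrt (s + w)) - RR b t (Real.sqrt (s - w))) / w)
      ((∫ x, LL 1 (Real.sqrt (s + w)) (Real.sqrt (s - w)) (t + dot x b) ∂(cubeM m)) / w ^ 2) w := by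
  have h1 : HasDerivAt (fun w => Real.sqrt (s + w)) (1 / (2 * Real.sqrt (s + w))) w := by
    have := ((hasDerivAt_id w).const_add s).sqrt (by simp only [id]; linarith)
    simpa using this
  have h2 : HasDerivAt (fun w => Real.sqrt (s - w)) (-1 / (2 * Real.sqrt (s - w))) w := by
    have := ((hasDerivAt_id w).const_sub s).sqrt (by simp only [id]; linarith)
    simpa using this
  have g1 := (RR_hasDerivAt b hb t (Real.sqrt (s + w))).comp w h1
  have g2 := (RR_hasDerivAt b hb t (Real.sqrt (s - w))).comp w h2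
  have g3 := (g1.sub g2).div (hasDerivAt_id w) hw0.ne'
  refine g3.congr_deriv ?_
  rw [← Lam_eq]
  have p2 : Real.sqrt (s + w) ^ 2 = s + w := Real.sq_sqrt (by linarith)
  have d2 : Real.sqrt (s - w) ^ 2 = s - w := Real.sq_sqrt (by linarith)
  have hd0 : 0 < Real.sqrt (s - w) := Real.sqrt_pos.2 (by linarith)
  have hp0 : 0 < Real.sqrt (s + w) := Real.sqrt_pos.2 (by linarith)
  rw [p2, d2]
  simp only [id, Pi.sub_apply, Function.comp]
  field_simp
  ring

/-- strict decrease along the pair move -/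
theorem pair_strict {m : ℕ} (a : Fin (m + 2) → ℝ) (i : Fin (m + 2)) (j : Fin (m + 1))
    (ha : ∀ k, 0 < a k) (hne : a (i.succAbove j) < a i) {t : ℝ} (ht : 0 < t)
    (hΛ : 0 < ∫ x, LL 1 (a i + a (i.succAbove j)) (a i - a (i.succAbove j))
      (t + dot x (fun k => a (i.succAbove (j.succAbove k)))) ∂(cubeM m)) :
    ∃ a' : Fin (m + 2) → ℝ, (∀ k, 0 < a' k) ∧ ∑ k, a' k ^ 2 = ∑ k, a k ^ 2 ∧
      FV a' t 0 < FV a t 0 := by
  set α := a i with hαd
  set β := a (i.succAbove j) with hβd
  set b : Fin m → ℝ := fun k => a (i.succAbove (j.succAbove k)) with hbd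
  have hα : 0 < α := ha _
  have hβ : 0 < β := ha _
  set s := α ^ 2 + β ^ 2 with hs
  set u := 2 * (α * β) with hu
  have hu0 : 0 < u := by positivity
  have hus : u < s := by
    have : 0 < (α - β) ^ 2 := by
      have : 0 < α - β := by linarith
      positivity
    rw [hs, hu]
    nlinarith
  have e1 : Real.sqrt (s + u) = α + β := by
    rw [hs, hu, show α ^ 2 + β ^ 2 + 2 * (α * β) = (α + β) ^ 2 by ring,
      Real.sqrt_sq (by positivity)]
  have e2 : Real.sqrt (s - u) = α - β := by
    rw [hs, hu, show α ^ 2 + β ^ 2 - 2 * (α * β) = (α - β) ^ 2 by ring,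
      Real.sqrt_sq (by linarith)]
  have hder := slope_hasDerivAt b (fun k => ha _) (t := t) (s := s) hu0 hus
  rw [e1, e2] at hder
  have hpos : 0 < (∫ x, LL 1 (α + β) (α - β) (t + dot x b) ∂(cubeM m)) / u ^ 2 := by positivity
  set g : ℝ → ℝ := fun w => (RR b t (Real.sqrt (s + w)) - RR b t (Real.sqrt (s - w))) / w with hg
  have hsl := (hasDerivAt_iff_tendsto_slope.1 hder).eventually (lt_mem_nhds hpos)
  have hsl' : ∀ᶠ w in 𝓝[>] u, 0 < slope g u w :=
    hsl.filter_mono (nhdsWithin_mono _ (fun x hx => ne_of_gt hx))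
  have hlt : ∀ᶠ w in 𝓝[>] u, w < s :=
    (gt_mem_nhds hus).filter_mono nhdsWithin_le_nhds
  obtain ⟨w, ⟨hw1, hw2⟩, hw3⟩ := ((hsl'.and hlt).and
    (self_mem_nhdsWithin : ∀ᶠ w in 𝓝[>] u, w ∈ Ioi u)).exists
  have hw3' : u < w := hw3
  have hgw : g u < g w := by
    rw [slope_def_field] at hw1
    have h3 : 0 < w - u := by linarith
    have h4 : 0 < (g w - g u) / (w - u) * (w - u) := mul_pos hw1 h3
    rw [div_mul_cancel₀ _ h3.ne'] at h4
    linarith
  have hw0 : 0 < w := hu0.trans hw3'
  have p2 : Real.sqrt (s + w) ^ 2 = s + w := Real.sq_sqrt (by linarith)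
  have d2 : Real.sqrt (s - w) ^ 2 = s - w := Real.sq_sqrt (by linarith)
  have hd0 : 0 < Real.sqrt (s - w) := Real.sqrt_pos.2 (by linarith)
  have hpd : Real.sqrt (s - w) < Real.sqrt (s + w) := Real.sqrt_lt_sqrt (by linarith) (by linarith)
  set P := Real.sqrt (s + w) with hP
  set Q := Real.sqrt (s - w) with hQ
  have hil : i ≠ i.succAbove j := (Fin.succAbove_ne i j).symm
  set a' : Fin (m + 2) → ℝ := Function.update (Function.update a i ((P + Q) / 2)) (i.succAbove j)
    ((P - Q) / 2) with ha'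
  have e3 : a' i = (P + Q) / 2 := by
    rw [ha', Function.update_of_ne hil, Function.update_self]
  have e4 : a' (i.succAbove j) = (P - Q) / 2 := by
    rw [ha', Function.update_self]
  have e5 : ∀ k, a' (i.succAbove (j.succAbove k)) = a (i.succAbove (j.succAbove k)) := by
    intro k
    rw [ha', Function.update_of_ne, Function.update_of_ne (Fin.succAbove_ne _ _)]
    intro h
    exact Fin.succAbove_ne j k (Fin.succAbove_right_injective h)
  have hpos' : ∀ k, 0 < a' k := by
    intro k
    rw [ha']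
    by_cases h1 : k = i.succAbove j
    · rw [h1, Function.update_self]; linarith
    · rw [Function.update_of_ne h1]
      by_cases h2 : k = i
      · rw [h2, Function.update_self]; linarith
      · rw [Function.update_of_ne h2]; exact ha k
  have hsq : a' i ^ 2 + a' (i.succAbove j) ^ 2 = s := by
    rw [e3, e4]
    nlinarith
  have hprod : 2 * (a' i * a' (i.succAbove j)) = w := by
    rw [e3, e4]
    nlinarith
  refine ⟨a', hpos', ?_, ?_⟩
  · rw [Fin.sum_univ_succAbove _ i, Fin.sum_univ_succAbove _ j,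
      Fin.sum_univ_succAbove (fun k => a k ^ 2) i, Fin.sum_univ_succAbove _ j]
    simp only [e5]
    rw [← add_assoc, ← add_assoc, hsq]
  · rw [FV_pair' a i j (ha _) (ha _) ht.le, FV_pair' a' i j (hpos' _) (hpos' _) ht.le, hsq, hprod]
    have hb : (fun k => a' (i.succAbove (j.succAbove k))) = b := funext e5
    rw [hb]
    have h6 : g u < g w := hgw
    simp only [hg] at h6
    rw [← hαd, ← hβd, ← hs, ← hu]
    linarith

end Pool.Agent.H60.SL
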