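import Pool.Agent.H60.Big.Schur
import Pool.Agent.H60.SL.Pair
import Pool.Agent.H60.Slab.Values

set_option autoImplicit false

open MeasureTheory Set Filter Topology

namespace Pool.Agent.H60.SL

open Pool.Agent.H64.Slab Pool.Agent.H60.Slab Pool.Agent.H60.Big

/-- a vanishing coordinate doubles the volume -/
theorem FV_zero_coord {n : ℕ} (a : Fin (n + 1) → ℝ) (i : Fin (n + 1)) (hi : a i = 0) (t y : ℝ) :
    FV a t y = 2 * FV (fun j => a (i.succAbove j)) t y := by
  rw [FV_eq_integral, FV_eq_integral, integral_split i _ (integrable_ind a t y),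
    ← integral_const_mul]
  congr 1
  ext x'
  have : ∀ u : ℝ, (Icc (-t) t).indicator (fun _ => (1 : ℝ)) (y + dot (i.insertNth u x') a) =
      (Icc (-t) t).indicator (fun _ => (1 : ℝ)) (y + dot x' (fun j => a (i.succAbove j))) := by
    intro u
    rw [dot_insertNth, hi, mul_zero, zero_add]
  simp only [this]
  rw [intervalIntegral.integral_const]
  norm_num

theorem FV_lip {n : ℕ} (a : Fin (n + 1) → ℝ) (i : Fin (n + 1)) (hi : a i ≠ 0) {s t : ℝ}
    (hs : 0 ≤ s) (ht : 0 ≤ t) :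
    |FV a t 0 - FV a s 0| ≤ 2 * |a i|⁻¹ * 2 ^ n * |t - s| := by
  rw [← FV_abs a t, ← FV_abs a s]
  have hi' : 0 < |a i| := abs_pos.2 hi
  rw [FV_zero_eq (fun k => |a k|) i hi' ht, FV_zero_eq (fun k => |a k|) i hi' hs, ← mul_sub]
  have h1 : ∀ t : ℝ, Integrable (fun x' : Fin n → ℝ =>
      clamp t (|a i| + dot x' (fun j => |a (i.succAbove j)|))) (cubeM n) := fun t =>
    integrable_cube_of_continuous ((clamp_continuous t).comp (continuous_const.add (continuous_dot _)))
  rw [← integral_sub (h1 t) (h1 s), abs_mul, abs_of_nonneg (by positivity : 0 ≤ 2 * |a i|⁻¹),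
    mul_assoc (2 * |a i|⁻¹)]
  apply mul_le_mul_of_nonneg_left _ (by positivity)
  refine le_trans (abs_integral_le_integral_abs) ?_
  have h2 : ∀ x : ℝ, |clamp t x - clamp s x| ≤ |t - s| := by
    intro x
    unfold clamp
    have e1 := abs_max_sub_max_le_max (-t) (min x t) (-s) (min x s)
    have e2 := abs_min_sub_min_le_max x t x s
    rw [sub_self, abs_zero] at e2
    have e3 : |(-t) - (-s)| = |t - s| := by rw [← abs_neg]; congr 1; ring
    rw [e3] at e1
    have e4 : max 0 |t - s| = |t - s| := max_eq_right (abs_nonneg _)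
    rw [e4] at e2
    exact e1.trans (max_le le_rfl e2)
  calc ∫ x' : Fin n → ℝ, |clamp t (|a i| + dot x' (fun j => |a (i.succAbove j)|)) -
        clamp s (|a i| + dot x' (fun j => |a (i.succAbove j)|))| ∂(cubeM n)
      ≤ ∫ _ : Fin n → ℝ, |t - s| ∂(cubeM n) := by
        apply integral_mono ((h1 t).sub (h1 s)).abs (integrable_const _)
        intro x
        exact h2 _
    _ = 2 ^ n * |t - s| := cube_const _

theorem FV_continuousAt {n : ℕ} (a : Fin (n + 1) → ℝ) (i : Fin (n + 1)) (hi : a i ≠ 0) {t : ℝ}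
    (ht : 0 < t) : ContinuousAt (fun b : Fin (n + 1) → ℝ => FV b t 0) a := by
  set C := 2 * |a i|⁻¹ * 2 ^ n with hC
  have hC0 : 0 < C := by
    have : 0 < |a i| := abs_pos.2 hi
    positivity
  rw [Metric.continuousAt_iff']
  intro ε hε
  set δ := min (t / 2) (ε / (2 * C)) with hδ
  have hδ0 : 0 < δ := lt_min (by positivity) (by positivity)
  have hδt : δ ≤ t / 2 := min_le_left _ _
  have hδε : C * δ ≤ ε / 2 := by
    have : δ ≤ ε / (2 * C) := min_le_right _ _
    calc C * δ ≤ C * (ε / (2 * C)) := mul_le_mul_of_nonneg_left this hC0.le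
      _ = ε / 2 := by field_simp
  have hcont : Continuous (fun b : Fin (n + 1) → ℝ => ∑ k, |a k - b k|) := by fun_prop
  have hz : ∑ k, |a k - a k| = 0 := by simp
  have hev : ∀ᶠ b in 𝓝 a, ∑ k, |a k - b k| < δ := by
    have := hcont.continuousAt (x := a)
    have h2 := this.tendsto
    simp only [hz] at h2
    exact h2.eventually (gt_mem_nhds hδ0)
  filter_upwards [hev] with b hb
  rw [Real.dist_eq]
  have h1 := FV_le_near a b (t := t) hb.le
  have h2 := FV_le_near b a (t := t - δ) (ε := δ) (by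
    have : ∀ k, |b k - a k| = |a k - b k| := fun k => abs_sub_comm _ _
    simp only [this]
    exact hb.le)
  rw [sub_add_cancel] at h2
  have h3 := FV_lip a i hi (s := t) (t := t + δ) ht.le (by linarith)
  have h4 := FV_lip a i hi (s := t) (t := t - δ) ht.le (by linarith)
  rw [add_sub_cancel_left, abs_of_pos hδ0] at h3
  rw [show t - δ - t = -δ by ring, abs_neg, abs_of_pos hδ0] at h4
  rw [← hC] at h3 h4
  have h5 := abs_le.1 h3
  have h6 := abs_le.1 h4
  rw [abs_lt]
  constructor <;> linarith [h5.1, h5.2, h6.1, h6.2]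

theorem sphere_compact (n : ℕ) : IsCompact {a : Fin n → ℝ | ∑ k, a k ^ 2 = 1} := by
  apply Metric.isCompact_of_isClosed_isBounded
  · exact isClosed_eq (by fun_prop) continuous_const
  · refine (Metric.isBounded_closedBall (x := (0 : Fin n → ℝ)) (r := 1)).subset ?_
    intro a ha
    have ha' : ∑ k, a k ^ 2 = 1 := ha
    rw [mem_closedBall_zero_iff, pi_norm_le_iff_of_nonneg zero_le_one]
    intro k
    rw [Real.norm_eq_abs]
    have h1 : a k ^ 2 ≤ 1 := by
      rw [← ha']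
      exact Finset.single_le_sum (f := fun k => a k ^ 2) (fun i _ => sq_nonneg _) (Finset.mem_univ k)
    exact abs_le_one_iff_mul_self_le_one.2 (by nlinarith)

theorem exists_minimiser {n : ℕ} {t : ℝ} (ht : 0 < t) :
    ∃ a : Fin (n + 1) → ℝ, (∀ k, 0 ≤ a k) ∧ ∑ k, a k ^ 2 = 1 ∧
      ∀ b : Fin (n + 1) → ℝ, ∑ k, b k ^ 2 = 1 → FV a t 0 ≤ FV b t 0 := by
  have hne : {a : Fin (n + 1) → ℝ | ∑ k, a k ^ 2 = 1}.Nonempty := by
    refine ⟨stdVec (n + 1) 1, ?_⟩
    exact std_unit le_rfl (by omega)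
  have hc : ContinuousOn (fun b : Fin (n + 1) → ℝ => FV b t 0) {a | ∑ k, a k ^ 2 = 1} := by
    intro a ha
    have ha' : ∑ k, a k ^ 2 = 1 := ha
    have : ∃ i, a i ≠ 0 := by
      by_contra h
      push Not at h
      simp [h] at ha'
    obtain ⟨i, hi⟩ := this
    exact (FV_continuousAt a i hi ht).continuousWithinAt
  obtain ⟨a, ha, hmin⟩ := (sphere_compact (n + 1)).exists_isMinOn hne hc
  have ha' : ∑ k, a k ^ 2 = 1 := ha
  refine ⟨fun k => |a k|, fun k => abs_nonneg _, ?_, ?_⟩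
  · simpa [sq_abs] using ha'
  · intro b hb
    rw [FV_abs]
    exact hmin hb

/-- The core statement: a positive nonflat critical configuration in the middle range is not better
than some `f_q` or can be improved. -/
def CoreProp : Prop :=
  ∀ (m : ℕ) (t : ℝ), 17 / 20 < t → 3 * t ^ 2 < 10 → ∀ (a : Fin (m + 2) → ℝ) (i : Fin (m + 2))
    (j : Fin (m + 1)), (∀ k, 0 < a k) → ∑ k, a k ^ 2 = 1 → (∀ k, a k ≤ a i) →
    (∀ k, a (i.succAbove j) ≤ a k) → a (i.succAbove j) < a i →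
    (∃ q, 1 ≤ q ∧ q ≤ m + 2 ∧ FV (stdVec (m + 2) q) t 0 ≤ FV a t 0) ∨
    0 < ∫ x, LL 1 (a i + a (i.succAbove j)) (a i - a (i.succAbove j))
      (t + dot x (fun k => a (i.succAbove (j.succAbove k)))) ∂(cubeM m)

theorem stdVec_all (n : ℕ) : stdVec n n = fun _ : Fin n => 1 / Real.sqrt n := by
  ext i
  simp [stdVec]

theorem stdVec_last {n q : ℕ} (hq : q ≤ n) (t y : ℝ) :
    FV (stdVec (n + 1) q) t y = 2 * FV (stdVec n q) t y := by
  have h0 : stdVec (n + 1) q (Fin.last n) = 0 := by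
    simp [stdVec, Fin.val_last, not_lt.2 hq]
  rw [FV_zero_coord _ (Fin.last n) h0]
  congr 2
  ext j
  simp [stdVec, Fin.succAbove_last]

theorem flat_of_all_eq {n : ℕ} (hn : 1 ≤ n) (a : Fin n → ℝ) (ha : ∀ k, 0 ≤ a k)
    (h1 : ∑ k, a k ^ 2 = 1) (c : ℝ) (hc : ∀ k, a k = c) : a = stdVec n n := by
  rw [stdVec_all]
  have hn0 : (0 : ℝ) < n := by exact_mod_cast hn
  have h2 : (n : ℝ) * c ^ 2 = 1 := by
    rw [← h1]
    simp [hc]
  have hc0 : 0 ≤ c := by
    have := ha ⟨0, by omega⟩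
    rwa [hc] at this
  have h3 : c = 1 / Real.sqrt n := by
    have hs : 0 < Real.sqrt n := Real.sqrt_pos.2 hn0
    have h4 : (c * Real.sqrt n) ^ 2 = 1 := by
      rw [mul_pow, Real.sq_sqrt hn0.le]
      linarith
    have h5 : c * Real.sqrt n = 1 := by
      have : 0 ≤ c * Real.sqrt n := by positivity
      nlinarith
    field_simp
    exact h5
  ext k
  rw [hc, h3]

theorem core_all (h : CoreProp) {t : ℝ} (ht : 17 / 20 < t) (ht2 : 3 * t ^ 2 < 10) :
    ∀ n : ℕ, ∀ a : Fin (n + 1) → ℝ, ∑ k, a k ^ 2 = 1 →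
      ∃ q, 1 ≤ q ∧ q ≤ n + 1 ∧ FV (stdVec (n + 1) q) t 0 ≤ FV a t 0 := by
  have ht0 : 0 < t := by linarith
  intro n
  induction n with
  | zero =>
    intro a ha
    refine ⟨1, le_rfl, le_rfl, ?_⟩
    rw [← FV_abs a t]
    have : (fun k => |a k|) = stdVec 1 1 := by
      refine flat_of_all_eq le_rfl _ (fun k => abs_nonneg _) (by simpa [sq_abs] using ha) (|a 0|) ?_
      intro k
      rw [Subsingleton.elim k 0]
    rw [this]
  | succ n ih =>
    intro b hb
    obtain ⟨a, ha0, ha1, hmin⟩ := exists_minimiser (n := n + 1) ht0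
    suffices hs : ∃ q, 1 ≤ q ∧ q ≤ n + 1 + 1 ∧ FV (stdVec (n + 1 + 1) q) t 0 ≤ FV a t 0 by
      obtain ⟨q, h1, h2, h3⟩ := hs
      exact ⟨q, h1, h2, h3.trans (hmin b hb)⟩
    by_cases hz : ∃ i, a i = 0
    · obtain ⟨i, hi⟩ := hz
      obtain ⟨q, h1, h2, h3⟩ := ih (fun j => a (i.succAbove j)) (by
        rw [Fin.sum_univ_succAbove _ i, hi] at ha1
        simpa using ha1)
      refine ⟨q, h1, by omega, ?_⟩
      rw [stdVec_last h2, FV_zero_coord a i hi]
      linarith
    · push Not at hz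
      have hapos : ∀ k, 0 < a k := fun k => lt_of_le_of_ne (ha0 k) (Ne.symm (hz k))
      obtain ⟨i, himax⟩ := Finite.exists_max a
      obtain ⟨l, hlmin⟩ := Finite.exists_min a
      rcases (hlmin i).lt_or_eq with hlt | heq
      · have hil : l ≠ i := by
          rintro rfl
          exact lt_irrefl _ hlt
        obtain ⟨j, rfl⟩ := Fin.exists_succAbove_eq hil
        rcases h n t ht ht2 a i j hapos ha1 himax hlmin hlt with hc | hc
        · exact hc
        · obtain ⟨a', _, hsq, hFV⟩ := pair_strict a i j hapos hlt ht0 hc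
          have := hmin a' (hsq.trans ha1)
          linarith
      · refine ⟨n + 1 + 1, by omega, le_rfl, ?_⟩
        have : a = stdVec (n + 1 + 1) (n + 1 + 1) := by
          refine flat_of_all_eq (by omega) a ha0 ha1 (a i) (fun k => ?_)
          exact le_antisymm (himax k) (heq ▸ hlmin k)
        rw [← this]

theorem all_t (h : CoreProp) {t : ℝ} (ht0 : 0 < t) (n : ℕ) (a : Fin (n + 1) → ℝ)
    (ha : ∑ k, a k ^ 2 = 1) :
    ∃ q, 1 ≤ q ∧ q ≤ n + 1 ∧ FV (stdVec (n + 1) q) t 0 ≤ FV a t 0 := by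
  have hs1 := sqrt2_lb
  have hs2 := sqrt2_ub
  by_cases hn : n = 0
  · subst hn
    refine ⟨1, le_rfl, le_rfl, ?_⟩
    rw [← FV_abs a t]
    have : (fun k => |a k|) = stdVec 1 1 := by
      refine flat_of_all_eq le_rfl _ (fun k => abs_nonneg _) (by simpa [sq_abs] using ha) (|a 0|) ?_
      intro k
      rw [Subsingleton.elim k 0]
    rw [this]
  rcases le_or_gt t (17 / 20) with h1 | h1
  · rcases le_or_gt t (2 * (Real.sqrt 2 - 1)) with h2 | h2
    · refine ⟨1, le_rfl, by omega, ?_⟩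
      rw [FV_f1 n ht0.le, min_eq_right (by linarith)]
      exact phase_one a ha ht0.le h2
    · obtain ⟨k, rfl⟩ : ∃ k, n = k + 1 := ⟨n - 1, by omega⟩
      refine ⟨2, by norm_num, by omega, ?_⟩
      rw [FV_f2 k ht0.le (by linarith)]
      exact phase_two a ha h2.le (by norm_num at *; linarith)
  · rcases lt_or_ge (3 * t ^ 2) 10 with h2 | h2
    · exact core_all h h1 h2 n a ha
    · refine ⟨n + 1, by omega, le_rfl, ?_⟩
      rw [stdVec_all]
      exact Pool.Agent.H60.Big.FV_min' (by omega) ht0 h2 a ha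

theorem assembly (h : CoreProp) :
    ∀ n : ℕ, 1 ≤ n → ∀ t : ℝ, 0 < t →
      ∃ m : ℕ, 1 ≤ m ∧ m ≤ n ∧
        ∀ a : Fin n → ℝ, ∑ i, a i ^ 2 = 1 →
          MeasureTheory.volume
              {x : Fin n → ℝ | (∀ i, |x i| ≤ 1) ∧
                |∑ i, x i * (if (i : ℕ) < m then 1 / Real.sqrt (m : ℝ) else 0)| ≤ t}
            ≤ MeasureTheory.volume
              {x : Fin n → ℝ | (∀ i, |x i| ≤ 1) ∧ |∑ i, x i * a i| ≤ t} := by
  intro n hn t ht
  obtain ⟨k, rfl⟩ : ∃ k, n = k + 1 := ⟨n - 1, by omega⟩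
  obtain ⟨m, hm, hmin⟩ := Finset.exists_min_image (Finset.Icc 1 (k + 1))
    (fun q => FV (stdVec (k + 1) q) t 0) ⟨1, Finset.mem_Icc.2 ⟨le_rfl, by omega⟩⟩
  rw [Finset.mem_Icc] at hm
  refine ⟨m, hm.1, hm.2, fun a ha => ?_⟩
  have h1 := (volume_slab_le_iff (stdVec (k + 1) m) a t).2 (by
    obtain ⟨q, hq1, hq2, hq3⟩ := all_t h ht k a ha
    exact (hmin q (Finset.mem_Icc.2 ⟨hq1, hq2⟩)).trans hq3)
  exact h1

end Pool.Agent.H60.SL
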