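import Pool.Agent.H60.SL.Poi

set_option autoImplicit false

open MeasureTheory Set Filter Topology

namespace Pool.Agent.H60.SL

open Pool.Agent.H64.Slab Pool.Agent.H60.Slab Pool.Agent.H60.Big

theorem dot_bound_ae {m : ℕ} (b : Fin m → ℝ) : ∀ᵐ x ∂(cubeM m), |dot x b| ≤ ∑ j, |b j| := by
  have hae : ∀ᵐ x ∂(cubeM m), x ∈ Icc (fun _ => (-1 : ℝ)) (fun _ : Fin m => (1 : ℝ)) := by
    rw [cubeM_eq]
    exact ae_restrict_mem measurableSet_Icc
  filter_upwards [hae] with x hx
  unfold dot
  refine (Finset.abs_sum_le_sum_abs _ _).trans (Finset.sum_le_sum fun j _ => ?_)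
  rw [abs_mul]
  have h1 : |x j| ≤ 1 := by
    rw [abs_le]
    exact ⟨hx.1 j, hx.2 j⟩
  exact mul_le_of_le_one_left (abs_nonneg _) h1

theorem avgc_far {m : ℕ} (b : Fin m → ℝ) {f : ℝ → ℝ} {L : ℝ} (hs : ∀ x, L ≤ |x| → f x = 0) {y : ℝ}
    (hy : L + ∑ j, |b j| ≤ |y|) : avgc b f y = 0 := by
  unfold avgc
  have : ∫ x, f (y + dot x b) ∂(cubeM m) = 0 := by
    apply integral_eq_zero_of_ae
    filter_upwards [dot_bound_ae b] with x hx
    apply hs
    have h1 := abs_sub_abs_le_abs_sub y (-(dot x b))
    rw [abs_neg, sub_neg_eq_add] at h1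
    linarith
  rw [this, mul_zero]

theorem finite_shift {P t M : ℝ} (hP : 0 < P) : {j : ℤ | |t + j * P| < M}.Finite := by
  apply (Set.finite_Icc (-⌈(M + |t|) / P⌉) ⌈(M + |t|) / P⌉).subset
  intro j hj
  rw [mem_ofPred_eq] at hj
  have h1 : |(j : ℝ) * P| < M + |t| := by
    have := abs_sub_abs_le_abs_sub ((j : ℝ) * P) (-t)
    rw [abs_neg, sub_neg_eq_add, add_comm ((j : ℝ) * P)] at this
    linarith
  rw [abs_mul, abs_of_pos hP, ← lt_div_iff₀ hP] at h1
  have h2 : |(j : ℝ)| ≤ (⌈(M + |t|) / P⌉ : ℝ) := h1.le.trans (Int.le_ceil _)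
  rw [abs_le] at h2
  rw [mem_Icc]
  constructor
  · exact_mod_cast h2.1
  · exact_mod_cast h2.2

/-- averaged Poisson summation -/
theorem avgc_poisson {m : ℕ} (b : Fin m → ℝ) {f : ℝ → ℝ} (hf : Continuous f) {L : ℝ}
    (hs : ∀ x, L ≤ |x| → f x = 0) {C S : ℝ → ℝ}
    (hC : ∀ ξ, C ξ = ∫ y, f y * Real.cos (ξ * y)) (hS : ∀ ξ, S ξ = ∫ y, f y * Real.sin (ξ * y))
    {P : ℝ} (hP : 0 < P) (hCs : Summable (fun k : ℤ => C (2 * Real.pi * k / P)))
    (hSs : Summable (fun k : ℤ => S (2 * Real.pi * k / P))) (t : ℝ) :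
    HasSum (fun k : ℤ => (C (2 * Real.pi * k / P) * Real.cos (t * (2 * Real.pi * k / P)) +
      S (2 * Real.pi * k / P) * Real.sin (t * (2 * Real.pi * k / P))) *
        ∏ j, Real.sinc (b j * (2 * Real.pi * k / P)))
      (P * ∑' j : ℤ, avgc b f (t + j * P)) := by
  have hcd := continuous_dot b
  -- left side
  have hL : HasSum (fun k : ℤ => ∫ x, (C (2 * Real.pi * k / P) *
      Real.cos ((t + dot x b) * (2 * Real.pi * k / P)) +
      S (2 * Real.pi * k / P) * Real.sin ((t + dot x b) * (2 * Real.pi * k / P))) ∂(cubeM m))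
      (∫ x, (∑' k : ℤ, (C (2 * Real.pi * k / P) *
      Real.cos ((t + dot x b) * (2 * Real.pi * k / P)) +
      S (2 * Real.pi * k / P) * Real.sin ((t + dot x b) * (2 * Real.pi * k / P)))) ∂(cubeM m)) := by
    apply hasSum_integral_of_summable_integral_norm
    · intro k
      apply integrable_cube_of_continuous
      fun_prop
    · have hsum : Summable (fun k : ℤ => (|C (2 * Real.pi * k / P)| + |S (2 * Real.pi * k / P)|) *
          (cubeM m).real univ) := (hCs.abs.add hSs.abs).mul_right _
      refine Summable.of_nonneg_of_le (fun k => integral_nonneg fun x => norm_nonneg _)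
        (fun k => ?_) hsum
      have h1 : ∀ x : Fin m → ℝ, ‖C (2 * Real.pi * k / P) *
          Real.cos ((t + dot x b) * (2 * Real.pi * k / P)) +
          S (2 * Real.pi * k / P) * Real.sin ((t + dot x b) * (2 * Real.pi * k / P))‖ ≤
          |C (2 * Real.pi * k / P)| + |S (2 * Real.pi * k / P)| := by
        intro x
        refine (norm_add_le _ _).trans ?_
        rw [norm_mul, norm_mul]
        simp only [Real.norm_eq_abs]
        apply add_le_add
        · exact mul_le_of_le_one_right (abs_nonneg _) (Real.abs_cos_le_one _)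
        · exact mul_le_of_le_one_right (abs_nonneg _) (Real.abs_sin_le_one _)
      have h2 := integral_mono_of_nonneg (μ := cubeM m)
        (Filter.Eventually.of_forall fun x => norm_nonneg _)
        (integrable_const (|C (2 * Real.pi * k / P)| + |S (2 * Real.pi * k / P)|))
        (Filter.Eventually.of_forall h1)
      rw [integral_const, smul_eq_mul] at h2
      exact h2.trans (le_of_eq (mul_comm _ _))
  have hLe : ∀ k : ℤ, ∫ x, (C (2 * Real.pi * k / P) *
      Real.cos ((t + dot x b) * (2 * Real.pi * k / P)) +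
      S (2 * Real.pi * k / P) * Real.sin ((t + dot x b) * (2 * Real.pi * k / P))) ∂(cubeM m) =
      2 ^ m * ((C (2 * Real.pi * k / P) * Real.cos (t * (2 * Real.pi * k / P)) +
      S (2 * Real.pi * k / P) * Real.sin (t * (2 * Real.pi * k / P))) *
        ∏ j, Real.sinc (b j * (2 * Real.pi * k / P))) := by
    intro k
    rw [integral_add, integral_const_mul, integral_const_mul, cube_sin, cube_cos]
    · ring
    · apply integrable_cube_of_continuous
      fun_prop
    · apply integrable_cube_of_continuous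
      fun_prop
  simp only [hLe] at hL
  -- pointwise Poisson
  have hP1 : ∀ x : Fin m → ℝ, (∑' k : ℤ, (C (2 * Real.pi * k / P) *
      Real.cos ((t + dot x b) * (2 * Real.pi * k / P)) +
      S (2 * Real.pi * k / P) * Real.sin ((t + dot x b) * (2 * Real.pi * k / P)))) =
      P * ∑' j : ℤ, f ((t + j * P) + dot x b) := by
    intro x
    rw [(poisson_real hf hs hC hS hP hCs hSs (t + dot x b)).tsum_eq]
    congr 2
    ext j
    congr 1
    ring
  simp only [hP1] at hL
  rw [integral_const_mul] at hL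
  -- right side
  have hR : ∫ x, (∑' j : ℤ, f ((t + j * P) + dot x b)) ∂(cubeM m) =
      2 ^ m * ∑' j : ℤ, avgc b f (t + j * P) := by
    rw [← tsum_mul_left, ← (hasSum_integral_of_summable_integral_norm (μ := cubeM m)
      (F := fun (j : ℤ) (x : Fin m → ℝ) => f ((t + j * P) + dot x b)) ?_ ?_).tsum_eq]
    · congr 1
      ext j
      unfold avgc
      field_simp
    · intro j
      apply integrable_cube_of_continuous
      fun_prop
    · apply summable_of_hasFiniteSupport
      apply (finite_shift (t := t) (M := L + ∑ j, |b j|) hP).subset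
      intro j hj
      rw [mem_ofPred_eq]
      by_contra hcon
      apply hj
      apply integral_eq_zero_of_ae
      filter_upwards [dot_bound_ae b] with x hx
      simp only [Pi.zero_apply, norm_eq_zero]
      apply hs
      have h1 := abs_sub_abs_le_abs_sub (t + j * P) (-(dot x b))
      rw [abs_neg, sub_neg_eq_add] at h1
      linarith [not_lt.1 hcon]
  rw [hR] at hL
  have h2 : (2 : ℝ) ^ m ≠ 0 := by positivity
  have h3 := hL.mul_left ((2 : ℝ) ^ m)⁻¹
  rw [mul_left_comm P, inv_mul_cancel_left₀ h2] at h3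
  simp only [inv_mul_cancel_left₀ h2] at h3
  exact h3

end Pool.Agent.H60.SL
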