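import Mathlib
import Pool.Agent.H60.SL.CkTabE

set_option autoImplicit false

namespace Pool.Agent.H60.SL.Ck

theorem nn_iff {a : ℤ} : nn a = true ↔ 0 ≤ a := by
  cases a with
  | ofNat n => simp [nn]
  | negSucc n => simp [nn]

theorem le_iff {a b : ℤ} : le a b = true ↔ a ≤ b := by
  rw [le, nn_iff]
  exact Int.sub_nonneg

theorem allB_iff {p : ℕ → Bool} : ∀ {n : ℕ}, allB n p = true ↔ ∀ i < n, p i = true
  | 0 => by simp [allB]
  | n + 1 => by
    rw [allB, Bool.and_eq_true, allB_iff]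
    constructor
    · rintro ⟨h1, h2⟩ i hi
      rcases Nat.lt_succ_iff_lt_or_eq.1 hi with h | h
      · exact h2 i h
      · rw [h]; exact h1
    · intro h
      exact ⟨h n (Nat.lt_succ_self n), fun i hi => h i (Nat.lt_succ_of_lt hi)⟩

theorem le_real {a b : ℤ} (h : le a b = true) : (a : ℝ) ≤ (b : ℝ) := by
  exact_mod_cast le_iff.1 h

/-! ## exponential table -/

theorem exp_inv64 : (exG : ℝ) ≤ 2 ^ 64 * Real.exp (-1 / 64) ∧ 2 ^ 64 * Real.exp (-1 / 64) ≤ (exG : ℝ) + 1 := by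
  have h := Real.exp_bound (x := -1 / 64) (by rw [abs_le]; constructor <;> norm_num) (n := 12) (by norm_num)
  rw [abs_le] at h
  obtain ⟨h1, h2⟩ := h
  have e : |(-1 / 64 : ℝ)| = 1 / 64 := by rw [abs_div]; norm_num
  rw [e] at h1 h2
  simp only [Finset.sum_range_succ, Finset.sum_range_zero, Nat.factorial, exG] at h1 h2 ⊢
  norm_num at h1 h2 ⊢
  constructor <;> linarith

theorem ex_zero : ex 0 = 2 ^ 60 := by
  have h := exTab_ok
  rw [exTab, Bool.and_eq_true] at h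
  exact Nat.eq_of_beq_eq_true h.1

theorem ex_succ {i : ℕ} (hi : i < 2303) : ex (i + 1) = (ex i * exG) >>> 64 := by
  have h := exTab_ok
  rw [exTab, Bool.and_eq_true, allB_iff] at h
  exact Nat.eq_of_beq_eq_true (h.2 i hi)

theorem shift_le (a k : ℕ) : ((a >>> k : ℕ) : ℝ) ≤ (a : ℝ) / 2 ^ k := by
  rw [Nat.shiftRight_eq_div_pow, le_div_iff₀ (by positivity)]
  exact_mod_cast Nat.div_mul_le_self a (2 ^ k)

theorem le_shift (a k : ℕ) : (a : ℝ) / 2 ^ k ≤ ((a >>> k : ℕ) : ℝ) + 1 := by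
  rw [Nat.shiftRight_eq_div_pow, div_le_iff₀ (by positivity)]
  have h := Nat.lt_div_mul_add (a := a) (b := 2 ^ k) (by positivity)
  have h2 : (a : ℝ) < ((a / 2 ^ k : ℕ) : ℝ) * 2 ^ k + 2 ^ k := by exact_mod_cast h
  linarith

theorem ex_bounds : ∀ {i : ℕ}, i ≤ 2303 → (ex i : ℝ) ≤ 2 ^ 60 * Real.exp (-(i : ℝ) / 64) ∧
    2 ^ 60 * Real.exp (-(i : ℝ) / 64) ≤ (ex i : ℝ) + 70
  | 0, _ => by
    rw [ex_zero]
    norm_num
  | i + 1, hi => by
    obtain ⟨h1, h2⟩ := ex_bounds (i := i) (by omega)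
    obtain ⟨g1, g2⟩ := exp_inv64
    have e : Real.exp (-((i + 1 : ℕ) : ℝ) / 64) = Real.exp (-(i : ℝ) / 64) * Real.exp (-1 / 64) := by
      rw [← Real.exp_add]; congr 1; push_cast; ring
    have hx : 0 ≤ Real.exp (-(i : ℝ) / 64) := (Real.exp_pos _).le
    have hx1 : Real.exp (-(i : ℝ) / 64) ≤ 1 := by
      rw [Real.exp_le_one_iff]
      have : (0 : ℝ) ≤ i := Nat.cast_nonneg i
      linarith
    have hg : (0 : ℝ) ≤ exG := Nat.cast_nonneg _
    have hgv : (exG : ℝ) = 18160753814917686419 := by norm_num [exG]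
    rw [e, ex_succ (by omega)]
    set X := Real.exp (-(i : ℝ) / 64)
    set Y := Real.exp (-1 / 64 : ℝ)
    have hY : 0 < Y := Real.exp_pos _
    constructor
    · refine (shift_le _ _).trans ?_
      rw [div_le_iff₀ (by positivity)]
      push_cast
      have := mul_le_mul h1 g1 hg (by positivity : (0 : ℝ) ≤ 2 ^ 60 * X)
      nlinarith
    · have h3 := le_shift (ex i * exG) 64
      rw [div_le_iff₀ (by positivity)] at h3
      push_cast at h3
      have he : (0 : ℝ) ≤ ex i := Nat.cast_nonneg _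
      have h4 := mul_le_mul h2 g2 (by positivity : (0 : ℝ) ≤ 2 ^ 64 * Y) (by positivity : (0 : ℝ) ≤ (ex i : ℝ) + 70)
      have h5 : (ex i : ℝ) ≤ 2 ^ 60 := by nlinarith
      rw [hgv] at h3 h4
      nlinarith

end Pool.Agent.H60.SL.Ck
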