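import Pool.Agent.H60.SL.CkBasic

set_option autoImplicit false

namespace Pool.Agent.H60.SL.Ck

/-! ## polynomial bounds for `exp (-x)` -/

theorem exp_neg_le2 {x : ℝ} (hx : 0 ≤ x) : Real.exp (-x) ≤ 1 - x + x ^ 2 / 2 := by
  have key : ∀ y : ℝ, 0 ≤ y → 0 ≤ 1 - y + y ^ 2 / 2 - Real.exp (-y) := by
    intro y hy
    have h1 : ∀ z : ℝ, 0 ≤ z → 1 - z ≤ Real.exp (-z) := fun z _ => by
      have := Real.add_one_le_exp (-z); linarith
    have hd : ∀ z : ℝ, HasDerivAt (fun z : ℝ => 1 - z + z ^ 2 / 2 - Real.exp (-z))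
        (-1 + z + Real.exp (-z)) z := by
      intro z
      have hA : HasDerivAt (fun z : ℝ => 1 - z + z ^ 2 / 2) (-1 + z) z := by
        have := (((hasDerivAt_id z).const_sub 1).add ((hasDerivAt_pow 2 z).div_const 2))
        refine this.congr_deriv ?_
        simp
      have hB : HasDerivAt (fun z : ℝ => Real.exp (-z)) (-Real.exp (-z)) z := by
        have := (hasDerivAt_neg z).exp
        refine this.congr_deriv ?_
        ring
      refine (hA.sub hB).congr_deriv ?_
      ring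
    have hm : MonotoneOn (fun z : ℝ => 1 - z + z ^ 2 / 2 - Real.exp (-z)) (Set.Ici 0) := by
      apply monotoneOn_of_deriv_nonneg (convex_Ici 0)
      · exact fun z _ => (hd z).continuousAt.continuousWithinAt
      · exact fun z _ => (hd z).differentiableAt.differentiableWithinAt
      · intro z hz
        rw [interior_Ici] at hz
        rw [(hd z).deriv]
        have := h1 z hz.le
        linarith
    have := hm (Set.mem_Ici.2 le_rfl) (Set.mem_Ici.2 hy) hy
    simp at this
    linarith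
  linarith [key x hx]

theorem le_exp_neg3 {x : ℝ} (hx : 0 ≤ x) : 1 - x + x ^ 2 / 2 - x ^ 3 / 6 ≤ Real.exp (-x) := by
  have hd : ∀ z : ℝ, HasDerivAt (fun z : ℝ => Real.exp (-z) - (1 - z + z ^ 2 / 2 - z ^ 3 / 6))
      (1 - z + z ^ 2 / 2 - Real.exp (-z)) z := by
    intro z
    have hA : HasDerivAt (fun z : ℝ => 1 - z + z ^ 2 / 2 - z ^ 3 / 6) (-1 + z - z ^ 2 / 2) z := by
      have := (((hasDerivAt_id z).const_sub 1).add ((hasDerivAt_pow 2 z).div_const 2)).sub
        ((hasDerivAt_pow 3 z).div_const 6)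
      refine this.congr_deriv ?_
      simp
      ring
    have hB : HasDerivAt (fun z : ℝ => Real.exp (-z)) (-Real.exp (-z)) z := by
      have := (hasDerivAt_neg z).exp
      refine this.congr_deriv ?_
      ring
    refine (hB.sub hA).congr_deriv ?_
    ring
  have hm : MonotoneOn (fun z : ℝ => Real.exp (-z) - (1 - z + z ^ 2 / 2 - z ^ 3 / 6)) (Set.Ici 0) := by
    apply monotoneOn_of_deriv_nonneg (convex_Ici 0)
    · exact fun z _ => (hd z).continuousAt.continuousWithinAt
    · exact fun z _ => (hd z).differentiableAt.differentiableWithinAt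
    · intro z hz
      rw [interior_Ici] at hz
      rw [(hd z).deriv]
      have := exp_neg_le2 hz.le
      linarith
  have := hm (Set.mem_Ici.2 le_rfl) (Set.mem_Ici.2 hx) hx
  simp at this
  linarith

/-! ## soundness of `expU` and `expL` -/

theorem split_R (R : ℕ) : (R : ℝ) = ((R >>> 66 : ℕ) : ℝ) * 2 ^ 66 + ((R % 73786976294838206464 : ℕ) : ℝ) := by
  rw [Nat.shiftRight_eq_div_pow]
  have h := Nat.div_add_mod R (2 ^ 66)
  have h2 : (2 : ℕ) ^ 66 = 73786976294838206464 := by norm_num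
  rw [h2] at h ⊢
  have h3 : (R : ℝ) = ((73786976294838206464 * (R / 73786976294838206464) +
    R % 73786976294838206464 : ℕ) : ℝ) := by rw [h]
  rw [h3]
  push_cast
  norm_num
  ring

theorem exp_split (R : ℕ) : Real.exp (-(R : ℝ) / 2 ^ 72) =
    Real.exp (-((R >>> 66 : ℕ) : ℝ) / 64) *
      Real.exp (-(((R % 73786976294838206464 : ℕ) : ℝ) / 2 ^ 72)) := by
  rw [← Real.exp_add]
  congr 1
  rw [split_R R]
  have : (2 : ℝ) ^ 72 = 2 ^ 66 * 64 := by norm_num
  rw [this]
  field_simp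
  ring

theorem expU_sound (R : ℕ) : 2 ^ 60 * Real.exp (-(R : ℝ) / 2 ^ 72) ≤ (expU R : ℝ) := by
  unfold expU
  rcases Nat.lt_or_ge (R >>> 66) 2303 with hlt | hge
  · have hb : Nat.ble 2303 (R >>> 66) = false := by
      rw [← Bool.not_eq_true, Nat.ble_eq]; omega
    rw [hb, cond_false]
    set i := R >>> 66 with hi
    set u := R % 73786976294838206464 with hu
    have hu66 : u < 73786976294838206464 := Nat.mod_lt _ (by norm_num)
    set v := u >>> 12 with hv
    have hv1 : (v : ℝ) ≤ (u : ℝ) / 2 ^ 12 := shift_le u 12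
    have hv54 : v < 2 ^ 54 := by
      rw [hv, Nat.shiftRight_eq_div_pow]
      apply Nat.div_lt_of_lt_mul
      calc u < 73786976294838206464 := hu66
        _ = 2 ^ 12 * 2 ^ 54 := by norm_num
    obtain ⟨_, h2⟩ := ex_bounds (i := i) (by omega)
    rw [exp_split, ← hi, ← hu]
    have hx0 : (0 : ℝ) ≤ (v : ℝ) / 2 ^ 60 := by positivity
    have e1 : Real.exp (-((u : ℝ) / 2 ^ 72)) ≤ Real.exp (-((v : ℝ) / 2 ^ 60)) := by
      apply Real.exp_le_exp.2
      apply neg_le_neg
      have : (u : ℝ) / 2 ^ 72 = (u : ℝ) / 2 ^ 12 / 2 ^ 60 := by rw [div_div]; norm_num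
      rw [this]
      exact div_le_div_of_nonneg_right hv1 (by positivity)
    have e2 := e1.trans (exp_neg_le2 hx0)
    have h3 := le_shift (v * v) 61
    have hle : v ≤ 1152921504606846977 + (v * v) >>> 61 := by
      have : (2 : ℕ) ^ 54 ≤ 1152921504606846977 := by norm_num
      omega
    set P := 1152921504606846977 + (v * v) >>> 61 - v with hP
    have hPc : (P : ℝ) = 1152921504606846977 + (((v * v) >>> 61 : ℕ) : ℝ) - (v : ℝ) := by
      rw [hP, Nat.cast_sub hle]; push_cast; ring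
    have h4 : 2 ^ 60 * Real.exp (-((u : ℝ) / 2 ^ 72)) ≤ (P : ℝ) := by
      rw [hPc]
      push_cast at h3
      have : (2 : ℝ) ^ 60 * (1 - (v : ℝ) / 2 ^ 60 + ((v : ℝ) / 2 ^ 60) ^ 2 / 2) =
        2 ^ 60 - v + (v : ℝ) * v / 2 ^ 61 := by ring
      have h5 := mul_le_mul_of_nonneg_left e2 (by positivity : (0 : ℝ) ≤ 2 ^ 60)
      rw [this] at h5
      refine h5.trans ?_
      linarith
    have h6 := le_shift ((ex i + 70) * P) 60
    rw [Nat.cast_add, Nat.cast_one]
    refine le_trans ?_ h6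
    rw [le_div_iff₀ (by positivity)]
    push_cast
    have hE : (0 : ℝ) ≤ Real.exp (-(i : ℝ) / 64) := (Real.exp_pos _).le
    have hE2 : (0 : ℝ) ≤ Real.exp (-((u : ℝ) / 2 ^ 72)) := (Real.exp_pos _).le
    have := mul_le_mul h2 h4 (by positivity) (by positivity)
    linarith
  · have hb : Nat.ble 2303 (R >>> 66) = true := by rw [Nat.ble_eq]; exact hge
    rw [hb, cond_true]
    obtain ⟨_, h2⟩ := ex_bounds (i := 2303) le_rfl
    have h3 : Real.exp (-(R : ℝ) / 2 ^ 72) ≤ Real.exp (-((2303 : ℕ) : ℝ) / 64) := by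
      apply Real.exp_le_exp.2
      have h4 := split_R R
      have h5 : ((2303 : ℕ) : ℝ) ≤ ((R >>> 66 : ℕ) : ℝ) := by exact_mod_cast hge
      have h6 : (0 : ℝ) ≤ ((R % 73786976294838206464 : ℕ) : ℝ) := Nat.cast_nonneg _
      rw [div_le_div_iff₀ (by positivity) (by norm_num)]
      have : (2 : ℝ) ^ 72 = 2 ^ 66 * 64 := by norm_num
      rw [this]
      nlinarith
    push_cast at h2 h3 ⊢
    nlinarith

theorem expL_sound (R : ℕ) : (expL R : ℝ) ≤ 2 ^ 60 * Real.exp (-(R : ℝ) / 2 ^ 72) := by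
  unfold expL
  rcases Nat.lt_or_ge (R >>> 66) 2303 with hlt | hge
  · have hb : Nat.ble 2303 (R >>> 66) = false := by
      rw [← Bool.not_eq_true, Nat.ble_eq]; omega
    rw [hb, cond_false]
    set i := R >>> 66 with hi
    set u := R % 73786976294838206464 with hu
    have hu66 : u < 73786976294838206464 := Nat.mod_lt _ (by norm_num)
    set v := u >>> 12 + 1 with hv
    have hv1 : (u : ℝ) / 2 ^ 12 ≤ (v : ℝ) := by
      have := le_shift u 12
      rw [hv]; push_cast; exact this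
    have hv54 : v ≤ 2 ^ 54 := by
      have : u >>> 12 < 2 ^ 54 := by
        rw [Nat.shiftRight_eq_div_pow]
        apply Nat.div_lt_of_lt_mul
        calc u < 73786976294838206464 := hu66
          _ = 2 ^ 12 * 2 ^ 54 := by norm_num
      omega
    obtain ⟨h1, _⟩ := ex_bounds (i := i) (by omega)
    rw [exp_split, ← hi, ← hu]
    have hx0 : (0 : ℝ) ≤ (v : ℝ) / 2 ^ 60 := by positivity
    have e1 : Real.exp (-((v : ℝ) / 2 ^ 60)) ≤ Real.exp (-((u : ℝ) / 2 ^ 72)) := by
      apply Real.exp_le_exp.2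
      apply neg_le_neg
      have : (u : ℝ) / 2 ^ 72 = (u : ℝ) / 2 ^ 12 / 2 ^ 60 := by rw [div_div]; norm_num
      rw [this]
      exact div_le_div_of_nonneg_right hv1 (by positivity)
    have e2 := (le_exp_neg3 hx0).trans e1
    have h3 := shift_le (v * v) 61
    have hle : v + 1099511627776 ≤ 1152921504606846976 + (v * v) >>> 61 := by
      have : (2 : ℕ) ^ 54 + 1099511627776 ≤ 1152921504606846976 := by norm_num
      omega
    set P := 1152921504606846976 + (v * v) >>> 61 - (v + 1099511627776) with hP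
    have hPc : (P : ℝ) = 1152921504606846976 + (((v * v) >>> 61 : ℕ) : ℝ) - ((v : ℝ) + 1099511627776) := by
      rw [hP, Nat.cast_sub hle]; push_cast; ring
    have hvr : (v : ℝ) ≤ 2 ^ 54 := by exact_mod_cast hv54
    have h4 : (P : ℝ) ≤ 2 ^ 60 * Real.exp (-((u : ℝ) / 2 ^ 72)) := by
      rw [hPc]
      push_cast at h3
      have : (2 : ℝ) ^ 60 * (1 - (v : ℝ) / 2 ^ 60 + ((v : ℝ) / 2 ^ 60) ^ 2 / 2 - ((v : ℝ) / 2 ^ 60) ^ 3 / 6) =
        2 ^ 60 - v + (v : ℝ) * v / 2 ^ 61 - (v : ℝ) ^ 3 / (6 * 2 ^ 120) := by ring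
      have h5 := mul_le_mul_of_nonneg_left e2 (by positivity : (0 : ℝ) ≤ 2 ^ 60)
      rw [this] at h5
      refine le_trans ?_ h5
      have h6 : (v : ℝ) ^ 3 / (6 * 2 ^ 120) ≤ 1099511627776 := by
        rw [div_le_iff₀ (by positivity)]
        have := pow_le_pow_left₀ (Nat.cast_nonneg v) hvr 3
        refine this.trans ?_
        norm_num
      linarith
    have h6 := shift_le (ex i * P) 60
    refine h6.trans ?_
    rw [div_le_iff₀ (by positivity)]
    push_cast
    have hE : (0 : ℝ) ≤ Real.exp (-(i : ℝ) / 64) := (Real.exp_pos _).le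
    have := mul_le_mul h1 h4 (Nat.cast_nonneg _) (by positivity)
    linarith
  · have hb : Nat.ble 2303 (R >>> 66) = true := by rw [Nat.ble_eq]; exact hge
    rw [hb, cond_true]
    push_cast
    positivity

end Pool.Agent.H60.SL.Ck
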