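import Pool.Agent.H60.SL.Nu

set_option autoImplicit false

open Set Filter Topology

namespace Pool.Agent.H60.SL

/-- `f` is a power series without constant term and with nonnegative coefficients on `[0, R)`,
`f'` its derivative. -/
structure PS (c : ℕ → ℝ) (R : ℝ) (f f' : ℝ → ℝ) : Prop where
  nonneg : ∀ m, 0 ≤ c m
  hf : ∀ y, 0 ≤ y → y < R → HasSum (fun m : ℕ => c m * y ^ (m + 1)) (f y)
  hf' : ∀ y, 0 ≤ y → y < R → HasSum (fun m : ℕ => ((m : ℝ) + 1) * c m * y ^ m) (f' y)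

namespace PS

variable {c : ℕ → ℝ} {R : ℝ} {f f' : ℝ → ℝ}

theorem hasSum_tan (h : PS c R f f') {x y : ℝ} (hx : 0 ≤ x) (hxR : x < R) (hy : 0 ≤ y) (hyR : y < R) :
    HasSum (fun m : ℕ => (y - x) ^ 2 * (c m * Gk x m y)) (f y - f x - f' x * (y - x)) := by
  have h1 := ((h.hf y hy hyR).sub (h.hf x hx hxR)).sub ((h.hf' x hx hxR).mul_right (y - x))
  refine h1.congr_fun ?_
  intro m
  have := Gk_eq x y m
  have e : (y - x) ^ 2 * (c m * Gk x m y) = c m * ((y - x) ^ 2 * Gk x m y) := by ring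
  rw [e, ← this]
  ring

theorem tangent (h : PS c R f f') {x y : ℝ} (hx : 0 ≤ x) (hxR : x < R) (hy : 0 ≤ y) (hyR : y < R) :
    f x + f' x * (y - x) ≤ f y := by
  have := (h.hasSum_tan hx hxR hy hyR).nonneg (fun m => by
    have := Gk_nonneg hx hy m
    have := h.nonneg m
    positivity)
  linarith

/-- the second quotient is monotone -/
theorem R_mono (h : PS c R f f') {x y y' : ℝ} (hx : 0 ≤ x) (hxR : x < R) (hy : 0 ≤ y) (hyy : y ≤ y')
    (hyR : y' < R) :
    (f y - f x - f' x * (y - x)) * (y' - x) ^ 2 ≤ (f y' - f x - f' x * (y' - x)) * (y - x) ^ 2 := by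
  have h1 := (h.hasSum_tan hx hxR hy (hyy.trans_lt hyR)).mul_right ((y' - x) ^ 2)
  have h2 := (h.hasSum_tan hx hxR (hy.trans hyy) hyR).mul_right ((y - x) ^ 2)
  refine hasSum_le ?_ h1 h2
  intro m
  have e1 : (y - x) ^ 2 * (c m * Gk x m y) * (y' - x) ^ 2 =
      ((y - x) ^ 2 * (y' - x) ^ 2 * c m) * Gk x m y := by ring
  have e2 : (y' - x) ^ 2 * (c m * Gk x m y') * (y - x) ^ 2 =
      ((y - x) ^ 2 * (y' - x) ^ 2 * c m) * Gk x m y' := by ring
  rw [e1, e2]
  have := h.nonneg m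
  exact mul_le_mul_of_nonneg_left (Gk_mono hx hy hyy m) (by positivity)

theorem pow_convex (n : ℕ) {x y α β : ℝ} (hx : 0 ≤ x) (hy : 0 ≤ y) (hα : 0 ≤ α) (hβ : 0 ≤ β)
    (hαβ : α + β = 1) : (α * x + β * y) ^ n ≤ α * x ^ n + β * y ^ n := by
  have := (convexOn_pow (𝕜 := ℝ) n).2 (mem_Ici.2 hx) (mem_Ici.2 hy) hα hβ hαβ
  simpa [smul_eq_mul] using this

theorem sum_convexOn {d : ℕ → ℝ} (hd : ∀ m, 0 ≤ d m) {e : ℕ → ℕ} {g : ℝ → ℝ}
    (hg : ∀ y, 0 ≤ y → y < R → HasSum (fun m : ℕ => d m * y ^ e m) (g y)) :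
    ConvexOn ℝ (Ico 0 R) g := by
  refine ⟨convex_Ico 0 R, ?_⟩
  intro x hx y hy α β hα hβ hαβ
  simp only [smul_eq_mul]
  have hz : α * x + β * y ∈ Ico 0 R := by
    have := (convex_Ico 0 R) hx hy hα hβ hαβ
    simpa [smul_eq_mul] using this
  refine hasSum_le ?_ (hg _ hz.1 hz.2) (((hg x hx.1 hx.2).mul_left α).add ((hg y hy.1 hy.2).mul_left β))
  intro m
  have := mul_le_mul_of_nonneg_left (pow_convex (e m) hx.1 hy.1 hα hβ hαβ) (hd m)
  linarith

theorem sum_monotoneOn {d : ℕ → ℝ} (hd : ∀ m, 0 ≤ d m) {e : ℕ → ℕ} {g : ℝ → ℝ}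
    (hg : ∀ y, 0 ≤ y → y < R → HasSum (fun m : ℕ => d m * y ^ e m) (g y)) :
    MonotoneOn g (Ico 0 R) := by
  intro x hx y hy hxy
  refine hasSum_le ?_ (hg x hx.1 hx.2) (hg y hy.1 hy.2)
  intro m
  exact mul_le_mul_of_nonneg_left (pow_le_pow_left₀ hx.1 hxy _) (hd m)

theorem convexOn (h : PS c R f f') : ConvexOn ℝ (Ico 0 R) f := sum_convexOn h.nonneg h.hf

theorem monotoneOn (h : PS c R f f') : MonotoneOn f (Ico 0 R) := sum_monotoneOn h.nonneg h.hf

theorem d_nonneg (h : PS c R f f') (m : ℕ) : 0 ≤ ((m : ℝ) + 1) * c m :=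
  mul_nonneg (by positivity) (h.nonneg m)

theorem deriv_convexOn (h : PS c R f f') : ConvexOn ℝ (Ico 0 R) f' :=
  sum_convexOn h.d_nonneg h.hf'

theorem deriv_monotoneOn (h : PS c R f f') : MonotoneOn f' (Ico 0 R) :=
  sum_monotoneOn h.d_nonneg h.hf'

theorem nonneg' (h : PS c R f f') {y : ℝ} (hy : 0 ≤ y) (hyR : y < R) : 0 ≤ f y :=
  (h.hf y hy hyR).nonneg (fun m => mul_nonneg (h.nonneg m) (by positivity))

theorem f_zero (h : PS c R f f') (hR : 0 < R) : f 0 = 0 := by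
  have := h.hf 0 le_rfl hR
  have h2 : HasSum (fun m : ℕ => c m * (0 : ℝ) ^ (m + 1)) 0 := by
    simpa using hasSum_zero
  exact this.unique h2

theorem f'_zero (h : PS c R f f') (hR : 0 < R) : f' 0 = c 0 := by
  have := h.hf' 0 le_rfl hR
  have h2 := hasSum_single (f := fun m : ℕ => ((m : ℝ) + 1) * c m * (0 : ℝ) ^ m) 0
    (fun m hm => by rw [zero_pow hm, mul_zero])
  rw [this.unique h2]
  simp

end PS

/-- the quotient `f y / y`, extended by `f' 0` -/
noncomputable def quo (f f' : ℝ → ℝ) (y : ℝ) : ℝ := if y = 0 then f' 0 else f y / y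

namespace PS

variable {c : ℕ → ℝ} {R : ℝ} {f f' : ℝ → ℝ}

theorem hasSum_quo (h : PS c R f f') {y : ℝ} (hy : 0 ≤ y) (hyR : y < R) :
    HasSum (fun m : ℕ => c m * y ^ m) (quo f f' y) := by
  unfold quo
  rcases hy.eq_or_lt with e | hy0
  · rw [if_pos e.symm, h.f'_zero (hy.trans_lt hyR), ← e]
    have := hasSum_single (f := fun m : ℕ => c m * (0 : ℝ) ^ m) 0
      (fun m hm => by rw [zero_pow hm, mul_zero])
    simpa using this
  · rw [if_neg hy0.ne']
    have := (h.hf y hy hyR).mul_right (y⁻¹)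
    rw [← div_eq_mul_inv] at this
    refine this.congr_fun ?_
    intro m
    have := hy0.ne'
    rw [pow_succ]
    field_simp

theorem quo_convexOn (h : PS c R f f') : ConvexOn ℝ (Ico 0 R) (quo f f') :=
  sum_convexOn h.nonneg (fun y hy hyR => h.hasSum_quo hy hyR)

theorem quo_monotoneOn (h : PS c R f f') : MonotoneOn (quo f f') (Ico 0 R) :=
  sum_monotoneOn h.nonneg (fun y hy hyR => h.hasSum_quo hy hyR)

theorem mul_quo (h : PS c R f f') (hR : 0 < R) (y : ℝ) : y * quo f f' y = f y := by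
  unfold quo
  split_ifs with e
  · rw [e, zero_mul, h.f_zero hR]
  · field_simp

theorem scale (h : PS c R f f') {l R' : ℝ} (hl : 0 ≤ l) (hR : ∀ y, 0 ≤ y → y < R' → l * y < R) :
    PS (fun m => c m * l ^ (m + 1)) R' (fun y => f (l * y)) (fun y => l * f' (l * y)) where
  nonneg := fun m => mul_nonneg (h.nonneg m) (by positivity)
  hf := by
    intro y hy hyR
    have := h.hf (l * y) (mul_nonneg hl hy) (hR y hy hyR)
    refine this.congr_fun ?_
    intro m
    rw [mul_pow]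
    ring
  hf' := by
    intro y hy hyR
    have := (h.hf' (l * y) (mul_nonneg hl hy) (hR y hy hyR)).mul_left l
    refine this.congr_fun ?_
    intro m
    rw [mul_pow]
    ring

theorem sub {c1 c2 : ℕ → ℝ} {f1 f1' f2 f2' : ℝ → ℝ} (h1 : PS c1 R f1 f1') (h2 : PS c2 R f2 f2')
    (hc : ∀ m, c2 m ≤ c1 m) : PS (fun m => c1 m - c2 m) R (fun y => f1 y - f2 y)
      (fun y => f1' y - f2' y) where
  nonneg := fun m => by linarith [hc m]
  hf := by
    intro y hy hyR
    refine ((h1.hf y hy hyR).sub (h2.hf y hy hyR)).congr_fun ?_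
    intro m
    ring
  hf' := by
    intro y hy hyR
    refine ((h1.hf' y hy hyR).sub (h2.hf' y hy hyR)).congr_fun ?_
    intro m
    ring

end PS

/-! ## the function `nu` -/

theorem PP_inv_le (n : ℕ) : 1 / PP n ≤ 1 := by
  rw [div_le_one (PP_pos n)]
  have := PP_ge n
  nlinarith [Real.pi_gt_three]

theorem summable_PP : Summable (fun n : ℕ => 1 / PP n) := by
  have := (hasSum_dnu (y := 0) le_rfl (by positivity)).summable
  simpa using this

theorem summable_PP_pow (m : ℕ) : Summable (fun n : ℕ => (1 / PP n) ^ (m + 1)) := by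
  refine Summable.of_nonneg_of_le (fun n => ?_) (fun n => ?_) summable_PP
  · have := PP_pos n
    positivity
  · have h0 : 0 ≤ 1 / PP n := by have := PP_pos n; positivity
    calc (1 / PP n) ^ (m + 1) = (1 / PP n) ^ m * (1 / PP n) := pow_succ _ _
      _ ≤ 1 * (1 / PP n) := mul_le_mul_of_nonneg_right (pow_le_one₀ h0 (PP_inv_le n)) h0
      _ = 1 / PP n := one_mul _

/-- coefficients of `nu` -/
noncomputable def zc (m : ℕ) : ℝ := (∑' n, (1 / PP n) ^ (m + 1)) / ((m : ℝ) + 1)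

theorem zc_nonneg (m : ℕ) : 0 ≤ zc m := by
  unfold zc
  apply div_nonneg _ (by positivity)
  apply tsum_nonneg
  intro n
  have := PP_pos n
  positivity

theorem hasSum_swap {g : ℕ → ℕ → ℝ} (h0 : ∀ n m, 0 ≤ g n m) {a b : ℕ → ℝ} {s : ℝ}
    (ha : ∀ n, HasSum (g n) (a n)) (hs : HasSum a s) (hb : ∀ m, HasSum (fun n => g n m) (b m)) :
    HasSum b s := by
  have hsum : Summable (fun p : ℕ × ℕ => g p.1 p.2) := by
    rw [summable_prod_of_nonneg (fun p => h0 p.1 p.2)]
    refine ⟨fun n => (ha n).summable, ?_⟩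
    have : (fun x : ℕ => ∑' y : ℕ, g (x, y).1 (x, y).2) = a := by
      ext n
      exact (ha n).tsum_eq
    rw [this]
    exact hs.summable
  have h1 : HasSum (fun p : ℕ × ℕ => g p.1 p.2) (∑' p : ℕ × ℕ, g p.1 p.2) := hsum.hasSum
  have h2 := h1.prod_fiberwise (fun n => ha n)
  have h3 : (∑' p : ℕ × ℕ, g p.1 p.2) = s := h2.unique hs
  rw [h3] at h1
  have h4 : HasSum (fun p : ℕ × ℕ => g p.2 p.1) s := by
    have := (Equiv.prodComm ℕ ℕ).hasSum_iff.2 h1
    exact this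
  exact h4.prod_fiberwise (fun m => hb m)

theorem PS_nu : PS zc (Real.pi ^ 2) nu dnu where
  nonneg := zc_nonneg
  hf := by
    intro y hy hyR
    have hx0 : ∀ n, 0 ≤ y / PP n := fun n => by have := PP_pos n; positivity
    have hx1 : ∀ n, y / PP n < 1 := fun n => by
      rw [div_lt_one (PP_pos n)]; exact hyR.trans_le (PP_ge n)
    refine hasSum_swap (g := fun n m => (y / PP n) ^ (m + 1) / ((m : ℝ) + 1)) ?_
      (fun n => Real.hasSum_pow_div_log_of_abs_lt_one (by rw [abs_of_nonneg (hx0 n)]; exact hx1 n))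
      (hasSum_nu hy hyR) ?_
    · intro n m
      have := hx0 n
      positivity
    · intro m
      have := ((summable_PP_pow m).hasSum.mul_left (y ^ (m + 1))).div_const ((m : ℝ) + 1)
      have e : zc m * y ^ (m + 1) = y ^ (m + 1) * (∑' n, (1 / PP n) ^ (m + 1)) / ((m : ℝ) + 1) := by
        unfold zc; ring
      rw [e]
      refine this.congr_fun ?_
      intro n
      rw [← mul_pow, mul_one_div]
  hf' := by
    intro y hy hyR
    have hx0 : ∀ n, 0 ≤ y / PP n := fun n => by have := PP_pos n; positivity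
    have hx1 : ∀ n, y / PP n < 1 := fun n => by
      rw [div_lt_one (PP_pos n)]; exact hyR.trans_le (PP_ge n)
    refine hasSum_swap (g := fun n m => (1 / PP n) * (y / PP n) ^ m) ?_ (a := fun n => 1 / (PP n - y))
      ?_ (hasSum_dnu hy hyR) ?_
    · intro n m
      have := hx0 n
      have := PP_pos n
      positivity
    · intro n
      have := (hasSum_geometric_of_lt_one (hx0 n) (hx1 n)).mul_left (1 / PP n)
      have e : 1 / PP n * (1 - y / PP n)⁻¹ = 1 / (PP n - y) := by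
        have h1 := (PP_pos n).ne'
        have h2 : PP n - y ≠ 0 := by
          have := PP_ge n
          intro h
          linarith
        rw [← one_div, div_mul_div_comm, one_mul, mul_sub, mul_one, mul_div_cancel₀ _ h1]
      rw [e] at this
      exact this
    · intro m
      have := (summable_PP_pow m).hasSum.mul_left (y ^ m)
      have hm : ((m : ℝ) + 1) ≠ 0 := by positivity
      have e : ((m : ℝ) + 1) * zc m * y ^ m = y ^ m * ∑' n, (1 / PP n) ^ (m + 1) := by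
        unfold zc; field_simp
      rw [e]
      refine this.congr_fun ?_
      intro n
      have := (PP_pos n).ne'
      rw [pow_succ, div_pow, div_pow, one_pow]
      field_simp

/-! ## differences `nu (k² η) - nu (r² η)` -/

/-- `nu (k² η) - nu (r² η)` -/
noncomputable def FF (k r : ℕ) (y : ℝ) : ℝ := nu ((k : ℝ) ^ 2 * y) - nu ((r : ℝ) ^ 2 * y)

noncomputable def dFF (k r : ℕ) (y : ℝ) : ℝ :=
  (k : ℝ) ^ 2 * dnu ((k : ℝ) ^ 2 * y) - (r : ℝ) ^ 2 * dnu ((r : ℝ) ^ 2 * y)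

theorem k_bound {k r : ℕ} (hk : 1 ≤ k) (hrk : r ≤ k) {y : ℝ} (hy : 0 ≤ y)
    (hyR : y < Real.pi ^ 2 / (k : ℝ) ^ 2) : (r : ℝ) ^ 2 * y < Real.pi ^ 2 := by
  have hk0 : (0 : ℝ) < (k : ℝ) ^ 2 := by
    have : (0 : ℝ) < k := by exact_mod_cast hk
    positivity
  rw [lt_div_iff₀ hk0] at hyR
  have : (r : ℝ) ^ 2 ≤ (k : ℝ) ^ 2 := by
    have : (r : ℝ) ≤ k := by exact_mod_cast hrk
    exact pow_le_pow_left₀ (Nat.cast_nonneg r) this 2
  have := mul_le_mul_of_nonneg_right this hy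
  linarith

theorem PS_FF {k r : ℕ} (hk : 1 ≤ k) (hrk : r ≤ k) :
    PS (fun m => zc m * ((k : ℝ) ^ 2) ^ (m + 1) - zc m * ((r : ℝ) ^ 2) ^ (m + 1))
      (Real.pi ^ 2 / (k : ℝ) ^ 2) (FF k r) (dFF k r) := by
  refine PS.sub (PS_nu.scale (by positivity) (fun y hy hyR => k_bound hk le_rfl hy hyR))
    (PS_nu.scale (by positivity) (fun y hy hyR => k_bound hk hrk hy hyR)) ?_
  intro m
  apply mul_le_mul_of_nonneg_left _ (zc_nonneg m)
  have : (r : ℝ) ≤ k := by exact_mod_cast hrk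
  exact pow_le_pow_left₀ (by positivity) (pow_le_pow_left₀ (Nat.cast_nonneg r) this 2) _

theorem FF_zero (k r : ℕ) : FF k r 0 = 0 := by simp [FF]

theorem dFF_zero (k r : ℕ) : dFF k r 0 = ((k : ℝ) ^ 2 - (r : ℝ) ^ 2) / 6 := by
  simp [dFF, dnu_zero]; ring

theorem quo_FF_zero (k r : ℕ) : quo (FF k r) (dFF k r) 0 = ((k : ℝ) ^ 2 - (r : ℝ) ^ 2) / 6 := by
  rw [quo, if_pos rfl, dFF_zero]

theorem nu_scale_hasDerivAt {l y : ℝ} (hl : 0 ≤ l) (hy : 0 < y) (hly : l * y < Real.pi ^ 2) :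
    HasDerivAt (fun y => nu (l * y)) (l * dnu (l * y)) y := by
  rcases hl.eq_or_lt with e | hl0
  · subst e
    simp only [zero_mul]
    exact hasDerivAt_const _ _
  · have h1 : HasDerivAt (fun y : ℝ => l * y) l y := by
      simpa using (hasDerivAt_id y).const_mul l
    have h2 := (nu_hasDerivAt_lobe0 (mul_pos hl0 hy) hly).comp y h1
    refine h2.congr_deriv ?_
    ring

theorem FF_hasDerivAt {k r : ℕ} (hk : 1 ≤ k) (hrk : r ≤ k) {y : ℝ} (hy : 0 < y)
    (hyR : y < Real.pi ^ 2 / (k : ℝ) ^ 2) : HasDerivAt (FF k r) (dFF k r y) y :=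
  (nu_scale_hasDerivAt (by positivity) hy (k_bound hk le_rfl hy.le hyR)).sub
    (nu_scale_hasDerivAt (by positivity) hy (k_bound hk hrk hy.le hyR))

theorem nu_continuousOn : ContinuousOn nu (Ico 0 (Real.pi ^ 2)) := by
  intro y hy
  rcases hy.1.eq_or_lt with e | h
  · rw [← e]
    exact nu_hasDerivWithinAt_zero.continuousWithinAt.mono Ico_subset_Ici_self
  · exact (nu_hasDerivAt_lobe0 h hy.2).continuousAt.continuousWithinAt

theorem FF_continuousOn {k r : ℕ} (hk : 1 ≤ k) (hrk : r ≤ k) :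
    ContinuousOn (FF k r) (Ico 0 (Real.pi ^ 2 / (k : ℝ) ^ 2)) := by
  apply ContinuousOn.sub
  · refine nu_continuousOn.comp (by fun_prop) ?_
    intro y hy
    exact ⟨by have := hy.1; positivity, k_bound hk le_rfl hy.1 hy.2⟩
  · refine nu_continuousOn.comp (by fun_prop) ?_
    intro y hy
    exact ⟨by have := hy.1; positivity, k_bound hk hrk hy.1 hy.2⟩

end Pool.Agent.H60.SL
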