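import Pool.Agent.H60.SL.CkSpec
import Pool.Agent.H60.SL.PS

/-!
# Touching parabolas for `FF k r`
-/

set_option autoImplicit false

open Set Filter Topology

namespace Pool.Agent.H60.SL

open Ck

namespace PS

variable {c : ℕ → ℝ} {R : ℝ} {f f' : ℝ → ℝ}

/-- touching parabola from below -/
theorem low_touch (h : PS c R f f') {x y0 y1 A B cc : ℝ} (hx : 0 ≤ x) (hxR : x < R)
    (hy0 : 0 ≤ y0) (hy1 : y1 < R)
    (hc2 : ∀ y, x ≤ y → y < R → f x + f' x * (y - x) + cc * (y - x) ^ 2 ≤ f y)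
    (hlx : A + B * x ≤ f x) (hl : ∀ y ∈ Icc y0 y1, A + B * y ≤ f x + f' x * (y - x))
    (h0 : A + B * y0 + cc * (y0 - x) ^ 2 ≤ f y0) :
    ∀ y ∈ Icc y0 y1, A + B * y + cc * (y - x) ^ 2 ≤ f y := by
  intro y hy
  rcases le_or_gt x y with hxy | hxy
  · have h1 := hc2 y hxy (hy.2.trans_lt hy1)
    have h2 := hl y hy
    linarith
  · have hy0x : y0 < x := hy.1.trans_lt hxy
    have hr := h.R_mono hx hxR hy0 hy.1 (hy.2.trans_lt hy1)
    have e0 := hl y0 ⟨le_rfl, hy.1.trans hy.2⟩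
    set P := x - y0 with hP
    set p := x - y with hp
    have hP0 : 0 < P := by linarith
    have hp0 : 0 < p := by linarith
    have hpP : p ≤ P := by linarith [hy.1]
    have e1 : (y - x) ^ 2 = p ^ 2 := by rw [hp]; ring
    have e2 : (y0 - x) ^ 2 = P ^ 2 := by rw [hP]; ring
    rw [e1, e2] at hr
    rw [e2] at h0
    rw [e1]
    -- errors
    set E0 := f x + f' x * (y0 - x) - (A + B * y0) with hE0
    set Ex := f x - (A + B * x) with hEx
    have hE00 : 0 ≤ E0 := by linarith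
    have hEx0 : 0 ≤ Ex := by linarith
    have hEy : (f x + f' x * (y - x) - (A + B * y)) * P = E0 * p + Ex * (P - p) := by
      rw [hE0, hEx, hP, hp]; ring
    set Ey := f x + f' x * (y - x) - (A + B * y) with hEyd
    have hEy2 : E0 * p ^ 2 ≤ Ey * P ^ 2 := by
      have : Ey * P ^ 2 = (Ey * P) * P := by ring
      rw [this, hEy]
      nlinarith [mul_nonneg hEx0 (sub_nonneg.2 hpP), mul_nonneg (mul_nonneg hE00 hp0.le) (sub_nonneg.2 hpP),
        mul_nonneg (mul_nonneg hEx0 (sub_nonneg.2 hpP)) hP0.le]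
    have hg0 : cc * P ^ 2 - E0 ≤ f y0 - f x - f' x * (y0 - x) := by
      rw [hE0]; linarith
    have hk : cc * p ^ 2 * P ^ 2 ≤ (f y - f x - f' x * (y - x) + Ey) * P ^ 2 := by
      have h3 := mul_le_mul_of_nonneg_right hg0 (sq_nonneg p)
      nlinarith
    have hk2 := le_of_mul_le_mul_right hk (by positivity)
    rw [hEyd] at hk2
    linarith

/-- touching parabola from above -/
theorem up_touch (h : PS c R f f') {x y0 y1 A B cc : ℝ} (hx : 0 ≤ x) (hxR : x < R)
    (hy0 : 0 ≤ y0) (hy1 : y1 < R)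
    (hc2 : ∀ y, 0 ≤ y → y ≤ x → f y ≤ f x + f' x * (y - x) + cc * (y - x) ^ 2)
    (hlx : f x ≤ A + B * x) (hl : ∀ y ∈ Icc y0 y1, f x + f' x * (y - x) ≤ A + B * y)
    (h1 : f y1 ≤ A + B * y1 + cc * (y1 - x) ^ 2) :
    ∀ y ∈ Icc y0 y1, f y ≤ A + B * y + cc * (y - x) ^ 2 := by
  intro y hy
  rcases le_or_gt y x with hxy | hxy
  · have h1 := hc2 y (hy0.trans hy.1) hxy
    have h2 := hl y hy
    linarith
  · have hy1x : x < y1 := hxy.trans_le hy.2
    have hr := h.R_mono hx hxR (hy0.trans hy.1) hy.2 hy1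
    have e0 := hl y1 ⟨hy.1.trans hy.2, le_rfl⟩
    set P := y1 - x with hP
    set p := y - x with hp
    have hP0 : 0 < P := by linarith
    have hp0 : 0 < p := by linarith
    have hpP : p ≤ P := by linarith [hy.2]
    -- errors
    set E1 := (A + B * y1) - (f x + f' x * P) with hE1
    set Ex := (A + B * x) - f x with hEx
    have hE10 : 0 ≤ E1 := by linarith
    have hEx0 : 0 ≤ Ex := by linarith
    have hEy : ((A + B * y) - (f x + f' x * p)) * P = E1 * p + Ex * (P - p) := by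
      rw [hE1, hEx, hP, hp]; ring
    set Ey := (A + B * y) - (f x + f' x * p) with hEyd
    have hEy2 : E1 * p ^ 2 ≤ Ey * P ^ 2 := by
      have : Ey * P ^ 2 = (Ey * P) * P := by ring
      rw [this, hEy]
      nlinarith [mul_nonneg hEx0 (sub_nonneg.2 hpP), mul_nonneg (mul_nonneg hE10 hp0.le) (sub_nonneg.2 hpP),
        mul_nonneg (mul_nonneg hEx0 (sub_nonneg.2 hpP)) hP0.le]
    have hg0 : f y1 - f x - f' x * P ≤ cc * P ^ 2 + E1 := by
      rw [hE1]; linarith
    have hk : (f y - f x - f' x * p) * P ^ 2 ≤ (cc * p ^ 2 + Ey) * P ^ 2 := by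
      have h3 := mul_le_mul_of_nonneg_right hg0 (sq_nonneg p)
      nlinarith
    have hk2 := le_of_mul_le_mul_right hk (by positivity)
    rw [hEyd] at hk2
    linarith

/-- first two terms -/
theorem two_terms (h : PS c R f f') {y cc : ℝ} (hy : 0 ≤ y) (hyR : y < R) (hcc : cc ≤ c 1) :
    c 0 * y + cc * y ^ 2 ≤ f y := by
  have h1 := sum_le_hasSum (Finset.range 2) (fun m _ => by
    have := h.nonneg m
    positivity) (h.hf y hy hyR)
  rw [Finset.sum_range_succ, Finset.sum_range_one] at h1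
  have h2 := mul_le_mul_of_nonneg_right hcc (sq_nonneg y)
  simp only [zero_add, pow_one] at h1
  norm_num at h1
  linarith

end PS

theorem zc_zero : zc 0 = 1 / 6 := by
  have h := PS_nu.f'_zero (by positivity)
  rw [dnu_zero] at h
  exact h.symm

theorem zc_one : zc 1 = 1 / 180 := by
  have h := hasSum_zeta_four
  have h2 : HasSum (fun n : ℕ => 1 / (((n + 1 : ℕ) : ℝ)) ^ 4) (Real.pi ^ 4 / 90) := by
    have h3 := (hasSum_nat_add_iff' (f := fun n : ℕ => 1 / ((n : ℝ)) ^ 4) 1).2 h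
    simpa using h3
  have h4 : ∑' n : ℕ, (1 / PP n) ^ (1 + 1) = 1 / 90 := by
    have h5 := h2.mul_left (1 / Real.pi ^ 4)
    have e : (fun n : ℕ => 1 / Real.pi ^ 4 * (1 / (((n + 1 : ℕ) : ℝ)) ^ 4)) =
        fun n : ℕ => (1 / PP n) ^ (1 + 1) := by
      ext n
      unfold PP
      push_cast
      field_simp
    rw [e] at h5
    rw [h5.tsum_eq]
    field_simp
  unfold zc
  rw [h4]
  norm_num

section

variable {k r : ℕ}

theorem R_pos (k : ℕ) (hk : 1 ≤ k) : 0 < Real.pi ^ 2 / (k : ℝ) ^ 2 := by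
  have : (0 : ℝ) < k := by exact_mod_cast hk
  positivity

/-- second derivative of `FF` -/
noncomputable def ddFF (k r : ℕ) (y : ℝ) : ℝ :=
  (k : ℝ) ^ 4 * ddnu ((k : ℝ) ^ 2 * y) - (r : ℝ) ^ 4 * ddnu ((r : ℝ) ^ 2 * y)

theorem dnu_scale_hasDerivAt {l y : ℝ} (hl : 0 ≤ l) (hy : 0 < y) (hly : l * y < Real.pi ^ 2) :
    HasDerivAt (fun y => l * dnu (l * y)) (l ^ 2 * ddnu (l * y)) y := by
  rcases hl.eq_or_lt with e | hl0
  · subst e
    simp only [zero_mul]
    exact (hasDerivAt_const _ _).congr_deriv (by ring)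
  · have h1 : HasDerivAt (fun y : ℝ => l * y) l y := by
      simpa using (hasDerivAt_id y).const_mul l
    have h2 := (dnu_hasDerivAt' (mul_pos hl0 hy) (sin_sqrt_pos (mul_pos hl0 hy) hly).ne').comp y h1
    refine (h2.const_mul l).congr_deriv ?_
    ring

theorem dFF_hasDerivAt (hk : 1 ≤ k) (hrk : r ≤ k) {y : ℝ} (hy : 0 < y)
    (hyR : y < Real.pi ^ 2 / (k : ℝ) ^ 2) : HasDerivAt (dFF k r) (ddFF k r y) y := by
  have h := (dnu_scale_hasDerivAt (l := (k : ℝ) ^ 2) (by positivity) hy (k_bound hk le_rfl hy.le hyR)).sub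
    (dnu_scale_hasDerivAt (l := (r : ℝ) ^ 2) (by positivity) hy (k_bound hk hrk hy.le hyR))
  refine h.congr_deriv ?_
  unfold ddFF
  ring

theorem dFF_convexOn (hk : 1 ≤ k) (hrk : r ≤ k) :
    ConvexOn ℝ (Ico 0 (Real.pi ^ 2 / (k : ℝ) ^ 2)) (dFF k r) := (PS_FF hk hrk).deriv_convexOn

theorem dFF_tangent (hk : 1 ≤ k) (hrk : r ≤ k) {x y : ℝ} (hx : 0 < x)
    (hxR : x < Real.pi ^ 2 / (k : ℝ) ^ 2) (hy : 0 ≤ y) (hyR : y < Real.pi ^ 2 / (k : ℝ) ^ 2) :
    dFF k r x + ddFF k r x * (y - x) ≤ dFF k r y := by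
  have hf := dFF_convexOn hk hrk
  have hD := dFF_hasDerivAt hk hrk hx hxR
  rcases lt_trichotomy x y with h | h | h
  · have := hf.le_slope_of_hasDerivAt ⟨hx.le, hxR⟩ ⟨hy, hyR⟩ h hD
    rw [slope_def_field, le_div_iff₀ (by linarith)] at this
    linarith
  · subst h; simp
  · have := hf.slope_le_of_hasDerivAt ⟨hy, hyR⟩ ⟨hx.le, hxR⟩ h hD
    rw [slope_def_field, div_le_iff₀ (by linarith)] at this
    linarith

/-- second order lower bound to the right -/
theorem FF_low2 (hk : 1 ≤ k) (hrk : r ≤ k) {x cc : ℝ} (hx : 0 < x)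
    (hcc : cc ≤ ddFF k r x / 2) :
    ∀ y, x ≤ y → y < Real.pi ^ 2 / (k : ℝ) ^ 2 →
      FF k r x + dFF k r x * (y - x) + cc * (y - x) ^ 2 ≤ FF k r y := by
  intro y hxy hyR
  have hxR := hxy.trans_lt hyR
  have hsub : Icc x y ⊆ Ico 0 (Real.pi ^ 2 / (k : ℝ) ^ 2) :=
    fun t ht => ⟨hx.le.trans ht.1, ht.2.trans_lt hyR⟩
  have hmono : MonotoneOn (fun t => FF k r t - (FF k r x + dFF k r x * (t - x) + cc * (t - x) ^ 2))
      (Icc x y) := by
    have hd : ∀ t ∈ Ioo x y, HasDerivAt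
        (fun t => FF k r t - (FF k r x + dFF k r x * (t - x) + cc * (t - x) ^ 2))
        (dFF k r t - (dFF k r x + 2 * cc * (t - x))) t := by
      intro t ht
      have h1 := FF_hasDerivAt hk hrk (hx.trans ht.1) (ht.2.trans hyR)
      have h2 : HasDerivAt (fun t : ℝ => t - x) 1 t := (hasDerivAt_id t).sub_const x
      have h3 := ((h2.const_mul (dFF k r x)).const_add (FF k r x)).add ((h2.pow 2).const_mul cc)
      refine (h1.sub h3).congr_deriv ?_
      ring
    refine monotoneOn_of_deriv_nonneg (convex_Icc x y) ?_ ?_ ?_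
    · exact ((FF_continuousOn hk hrk).mono hsub).sub (by fun_prop)
    · rw [interior_Icc]
      exact fun t ht => (hd t ht).differentiableAt.differentiableWithinAt
    · rw [interior_Icc]
      intro t ht
      rw [(hd t ht).deriv]
      have := dFF_tangent hk hrk hx hxR (hx.le.trans ht.1.le) (ht.2.trans hyR)
      nlinarith [ht.1]
  have := hmono (left_mem_Icc.2 hxy) (right_mem_Icc.2 hxy) hxy
  simp only [sub_self, mul_zero, add_zero, ne_eq, OfNat.ofNat_ne_zero, not_false_eq_true,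
    zero_pow] at this
  linarith

/-- second order upper bound to the left -/
theorem FF_up2 (hk : 1 ≤ k) (hrk : r ≤ k) {x cc : ℝ} (hx : 0 < x)
    (hxR : x < Real.pi ^ 2 / (k : ℝ) ^ 2) (hcc : ddFF k r x / 2 ≤ cc) :
    ∀ y, 0 ≤ y → y ≤ x →
      FF k r y ≤ FF k r x + dFF k r x * (y - x) + cc * (y - x) ^ 2 := by
  intro y hy hyx
  have hsub : Icc y x ⊆ Ico 0 (Real.pi ^ 2 / (k : ℝ) ^ 2) :=
    fun t ht => ⟨hy.trans ht.1, ht.2.trans_lt hxR⟩
  have hmono : MonotoneOn (fun t => FF k r t - (FF k r x + dFF k r x * (t - x) + cc * (t - x) ^ 2))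
      (Icc y x) := by
    have hd : ∀ t ∈ Ioo y x, HasDerivAt
        (fun t => FF k r t - (FF k r x + dFF k r x * (t - x) + cc * (t - x) ^ 2))
        (dFF k r t - (dFF k r x + 2 * cc * (t - x))) t := by
      intro t ht
      have h1 := FF_hasDerivAt hk hrk (hy.trans_lt ht.1) (ht.2.trans hxR)
      have h2 : HasDerivAt (fun t : ℝ => t - x) 1 t := (hasDerivAt_id t).sub_const x
      have h3 := ((h2.const_mul (dFF k r x)).const_add (FF k r x)).add ((h2.pow 2).const_mul cc)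
      refine (h1.sub h3).congr_deriv ?_
      ring
    refine monotoneOn_of_deriv_nonneg (convex_Icc y x) ?_ ?_ ?_
    · exact ((FF_continuousOn hk hrk).mono hsub).sub (by fun_prop)
    · rw [interior_Icc]
      exact fun t ht => (hd t ht).differentiableAt.differentiableWithinAt
    · rw [interior_Icc]
      intro t ht
      rw [(hd t ht).deriv]
      have := dFF_tangent hk hrk hx hxR (hy.trans ht.1.le) (ht.2.trans hxR)
      nlinarith [ht.2]
  have := hmono (left_mem_Icc.2 hyx) (right_mem_Icc.2 hyx) hyx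
  simp only [sub_self, mul_zero, add_zero, ne_eq, OfNat.ofNat_ne_zero, not_false_eq_true,
    zero_pow] at this
  linarith

/-- at `0` -/
theorem FF_low2_zero (hk : 1 ≤ k) (hrk : r ≤ k) {cc : ℝ} (hcc : cc ≤ ddFF k r 0 / 2) :
    ∀ y, 0 ≤ y → y < Real.pi ^ 2 / (k : ℝ) ^ 2 →
      FF k r 0 + dFF k r 0 * (y - 0) + cc * (y - 0) ^ 2 ≤ FF k r y := by
  intro y hy hyR
  have h := (PS_FF hk hrk).two_terms hy hyR (cc := cc) (by
    have e : ddFF k r 0 / 2 = zc 1 * ((k : ℝ) ^ 2) ^ (1 + 1) - zc 1 * ((r : ℝ) ^ 2) ^ (1 + 1) := by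
      unfold ddFF
      rw [mul_zero, mul_zero, ddnu_zero, zc_one]
      ring
    rw [← e]
    exact hcc)
  rw [zc_zero] at h
  rw [FF_zero, dFF_zero]
  simp only [zero_add, pow_one, sub_zero] at h ⊢
  linarith

theorem FF_low2' (hk : 1 ≤ k) (hrk : r ≤ k) {x cc : ℝ} (hx : 0 ≤ x)
    (hcc : cc ≤ ddFF k r x / 2) :
    ∀ y, x ≤ y → y < Real.pi ^ 2 / (k : ℝ) ^ 2 →
      FF k r x + dFF k r x * (y - x) + cc * (y - x) ^ 2 ≤ FF k r y := by
  rcases hx.eq_or_lt with e | h
  · subst e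
    exact FF_low2_zero hk hrk hcc
  · exact FF_low2 hk hrk h hcc

end

end Pool.Agent.H60.SL
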