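import Mathlib

set_option autoImplicit false

open Set Filter Topology

namespace Pool.Agent.H60.SL

/-- beyond an increase a convex function keeps increasing -/
theorem convex_up {φ : ℝ → ℝ} {S : Set ℝ} (h : ConvexOn ℝ S φ) {x y z : ℝ} (hx : x ∈ S) (hz : z ∈ S)
    (hxy : x < y) (hyz : y ≤ z) (hle : φ x ≤ φ y) : φ y ≤ φ z := by
  rcases eq_or_lt_of_le hyz with e | hyz'
  · rw [e]
  · have := h.slope_mono_adjacent hx hz hxy hyz'
    have h1 : 0 ≤ (φ y - φ x) / (y - x) := div_nonneg (by linarith) (by linarith)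
    have h2 : 0 ≤ (φ z - φ y) / (z - y) := h1.trans this
    have h3 : 0 < z - y := by linarith
    rw [le_div_iff₀ h3] at h2
    linarith

theorem convex_down {φ : ℝ → ℝ} {S : Set ℝ} (h : ConvexOn ℝ S φ) {x y z : ℝ} (hx : x ∈ S)
    (hz : z ∈ S) (hxy : x ≤ y) (hyz : y < z) (hle : φ z ≤ φ y) : φ y ≤ φ x := by
  rcases eq_or_lt_of_le hxy with e | hxy'
  · rw [e]
  · have := h.slope_mono_adjacent hx hz hxy' hyz
    have h1 : (φ z - φ y) / (z - y) ≤ 0 := div_nonpos_of_nonpos_of_nonneg (by linarith) (by linarith)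
    have h2 : (φ y - φ x) / (y - x) ≤ 0 := this.trans h1
    have h3 : 0 < y - x := by linarith
    rw [div_le_iff₀ h3] at h2
    linarith

/-- core of criterion E -/
theorem conv_E {g g' : ℝ → ℝ} {y0 y1 : ℝ} (hc : ContinuousOn g (Icc y0 y1))
    (hd : ∀ y ∈ Ioo y0 y1, HasDerivAt g (g' y) y) (hconv : ConvexOn ℝ (Icc y0 y1) g')
    (h0 : 0 ≤ g y0) (h1 : 0 ≤ g y1) (hd1 : g' y1 ≤ 0) : ∀ y ∈ Icc y0 y1, 0 ≤ g y := by
  intro y hy
  by_contra hneg
  push Not at hneg
  have hy0 : y0 < y := lt_of_le_of_ne hy.1 (by rintro rfl; linarith)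
  have hy1 : y < y1 := lt_of_le_of_ne hy.2 (by rintro rfl; linarith)
  obtain ⟨ξ1, hξ1, e1⟩ := exists_hasDerivAt_eq_slope g g' hy0
    (hc.mono (Icc_subset_Icc le_rfl hy.2)) (fun x hx => hd x ⟨hx.1, hx.2.trans hy1⟩)
  obtain ⟨ξ2, hξ2, e2⟩ := exists_hasDerivAt_eq_slope g g' hy1
    (hc.mono (Icc_subset_Icc hy.1 le_rfl)) (fun x hx => hd x ⟨hy0.trans hx.1, hx.2⟩)
  have s1 : g' ξ1 < 0 := by
    rw [e1]; exact div_neg_of_neg_of_pos (by linarith) (by linarith)
  have s2 : 0 < g' ξ2 := by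
    rw [e2]; exact div_pos (by linarith) (by linarith)
  have := convex_up hconv (x := ξ1) (y := ξ2) (z := y1) ⟨hξ1.1.le, (hξ1.2.trans hy1).le⟩
    ⟨(hy0.trans hy1).le, le_rfl⟩ (hξ1.2.trans hξ2.1) hξ2.2.le (by linarith)
  linarith

/-- core of criterion E' (mirror image) -/
theorem conv_E' {g g' : ℝ → ℝ} {y0 y1 : ℝ} (hc : ContinuousOn g (Icc y0 y1))
    (hd : ∀ y ∈ Ioo y0 y1, HasDerivAt g (g' y) y) (hconv : ConvexOn ℝ (Icc y0 y1) (fun y => -g' y))
    (h0 : 0 ≤ g y0) (h1 : 0 ≤ g y1) (hd0 : 0 ≤ g' y0) : ∀ y ∈ Icc y0 y1, 0 ≤ g y := by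
  intro y hy
  by_contra hneg
  push Not at hneg
  have hy0 : y0 < y := lt_of_le_of_ne hy.1 (by rintro rfl; linarith)
  have hy1 : y < y1 := lt_of_le_of_ne hy.2 (by rintro rfl; linarith)
  obtain ⟨ξ1, hξ1, e1⟩ := exists_hasDerivAt_eq_slope g g' hy0
    (hc.mono (Icc_subset_Icc le_rfl hy.2)) (fun x hx => hd x ⟨hx.1, hx.2.trans hy1⟩)
  obtain ⟨ξ2, hξ2, e2⟩ := exists_hasDerivAt_eq_slope g g' hy1
    (hc.mono (Icc_subset_Icc hy.1 le_rfl)) (fun x hx => hd x ⟨hy0.trans hx.1, hx.2⟩)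
  have s1 : g' ξ1 < 0 := by
    rw [e1]; exact div_neg_of_neg_of_pos (by linarith) (by linarith)
  have s2 : 0 < g' ξ2 := by
    rw [e2]; exact div_pos (by linarith) (by linarith)
  have := convex_down hconv (x := y0) (y := ξ1) (z := ξ2) ⟨le_rfl, (hy0.trans hy1).le⟩
    ⟨(hy0.trans hξ2.1).le, hξ2.2.le⟩ hξ1.1.le (hξ1.2.trans hξ2.1) (by linarith)
  linarith

variable {f f' : ℝ → ℝ} {y0 y1 κ a c : ℝ}

theorem quad_hasDerivAt (κ a c y : ℝ) :
    HasDerivAt (fun y : ℝ => κ + a * y + c * y ^ 2) (a + 2 * c * y) y := by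
  have h1 : HasDerivAt (fun y : ℝ => κ + a * y) a y := by
    simpa using ((hasDerivAt_id y).const_mul a).const_add κ
  have h2 : HasDerivAt (fun y : ℝ => c * y ^ 2) (2 * c * y) y := by
    have := (hasDerivAt_pow 2 y).const_mul c
    refine this.congr_deriv ?_
    ring
  exact h1.add h2

theorem quad_continuous (κ a c : ℝ) : Continuous (fun y : ℝ => κ + a * y + c * y ^ 2) := by
  fun_prop

theorem sub_affine_convex {S : Set ℝ} (h : ConvexOn ℝ S f') (a c : ℝ) :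
    ConvexOn ℝ S (fun y => f' y - (a + 2 * c * y)) := by
  refine ⟨h.1, ?_⟩
  intro x hx y hy α β hα hβ hαβ
  have := h.2 hx hy hα hβ hαβ
  simp only [smul_eq_mul] at this ⊢
  have e : α * (f' x - (a + 2 * c * x)) + β * (f' y - (a + 2 * c * y)) =
      α * f' x + β * f' y - ((α + β) * a + 2 * c * (α * x + β * y)) := by ring
  rw [e, hαβ]
  linarith

/-- criterion E -/
theorem line_E (hc : ContinuousOn f (Icc y0 y1)) (hd : ∀ y ∈ Ioo y0 y1, HasDerivAt f (f' y) y)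
    (hconv : ConvexOn ℝ (Icc y0 y1) f') (h0 : κ + a * y0 + c * y0 ^ 2 ≤ f y0)
    (h1 : κ + a * y1 + c * y1 ^ 2 ≤ f y1) (hd1 : f' y1 ≤ a + 2 * c * y1) :
    ∀ y ∈ Icc y0 y1, κ + a * y + c * y ^ 2 ≤ f y := by
  intro y hy
  have := conv_E (g := fun y => f y - (κ + a * y + c * y ^ 2)) (g' := fun y => f' y - (a + 2 * c * y))
    (hc.sub (quad_continuous κ a c).continuousOn) (fun y hy => (hd y hy).sub (quad_hasDerivAt κ a c y))
    (sub_affine_convex hconv a c) (by linarith) (by linarith) (by linarith) y hy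
  linarith

/-- criterion E' -/
theorem line_E' (hc : ContinuousOn f (Icc y0 y1)) (hd : ∀ y ∈ Ioo y0 y1, HasDerivAt f (f' y) y)
    (hconv : ConvexOn ℝ (Icc y0 y1) f') (h0 : f y0 ≤ κ + a * y0 + c * y0 ^ 2)
    (h1 : f y1 ≤ κ + a * y1 + c * y1 ^ 2) (hd0 : f' y0 ≤ a + 2 * c * y0) :
    ∀ y ∈ Icc y0 y1, f y ≤ κ + a * y + c * y ^ 2 := by
  intro y hy
  have := conv_E' (g := fun y => (κ + a * y + c * y ^ 2) - f y) (g' := fun y => (a + 2 * c * y) - f' y)
    ((quad_continuous κ a c).continuousOn.sub hc) (fun y hy => (quad_hasDerivAt κ a c y).sub (hd y hy))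
    (by
      have := sub_affine_convex hconv a c
      refine this.congr ?_
      intro y _
      simp)
    (by linarith) (by linarith) (by linarith) y hy
  linarith

/-- criterion S: start at the left end -/
theorem line_S (hc : ContinuousOn f (Icc y0 y1)) (hd : ∀ y ∈ Ioo y0 y1, HasDerivAt f (f' y) y)
    (h0 : κ + a * y0 + c * y0 ^ 2 ≤ f y0)
    (h1 : ∀ y ∈ Icc y0 y1, a + 2 * c * y ≤ f' y) :
    ∀ y ∈ Icc y0 y1, κ + a * y + c * y ^ 2 ≤ f y := by
  intro y hy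
  have hm : MonotoneOn (fun y => f y - (κ + a * y + c * y ^ 2)) (Icc y0 y1) := by
    apply monotoneOn_of_deriv_nonneg (convex_Icc _ _)
      (hc.sub (quad_continuous κ a c).continuousOn)
    · intro x hx
      rw [interior_Icc] at hx
      exact ((hd x hx).sub (quad_hasDerivAt κ a c x)).differentiableAt.differentiableWithinAt
    · intro x hx
      rw [interior_Icc] at hx
      rw [((hd x hx).sub (quad_hasDerivAt κ a c x)).deriv]
      have := h1 x ⟨hx.1.le, hx.2.le⟩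
      linarith
  have := hm (left_mem_Icc.2 (hy.1.trans hy.2)) hy hy.1
  simp only at this
  linarith

/-- slope condition from the value of the second derivative at the left end -/
theorem slope_of_second (hconv : ConvexOn ℝ (Icc y0 y1) f') {D : ℝ}
    (hD : HasDerivWithinAt f' D (Ici y0) y0) (h1 : a + 2 * c * y0 ≤ f' y0) (h2 : 2 * c ≤ D) :
    ∀ y ∈ Icc y0 y1, a + 2 * c * y ≤ f' y := by
  intro y hy
  rcases eq_or_lt_of_le hy.1 with e | hlt
  · rw [← e]; exact h1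
  · have hs : D ≤ slope f' y0 y := by
      have hD' : HasDerivWithinAt f' D (Ioi y0) y0 := hD.mono Ioi_subset_Ici_self
      have hI : Icc y0 y1 ∈ 𝓝[>] y0 := Icc_mem_nhdsGT (hlt.trans_le hy.2)
      rw [hasDerivWithinAt_iff_tendsto_slope' (by simp)] at hD'
      refine le_of_tendsto hD' ?_
      filter_upwards [Ioo_mem_nhdsGT hlt] with x hx
      have := hconv.secant_mono (a := y0) (x := x) (y := y) ⟨le_rfl, hy.1.trans hy.2⟩
        ⟨hx.1.le, hx.2.le.trans hy.2⟩ hy hx.1.ne' hlt.ne' hx.2.le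
      rw [slope_def_field, slope_def_field]
      exact this
    rw [slope_def_field, le_div_iff₀ (by linarith)] at hs
    nlinarith

/-- criterion U: touching parabola at `h`, below at the left end -/
theorem line_U {h : ℝ} (hh : h ∈ Ioo y0 y1) (hc : ContinuousOn f (Icc y0 y1))
    (hd : ∀ y ∈ Ioo y0 y1, HasDerivAt f (f' y) y)
    (hconv : ConvexOn ℝ (Icc y0 y1) f') (h0 : f h + f' h * (y0 - h) + c * (y0 - h) ^ 2 ≤ f y0) :
    ∀ y ∈ Icc y0 y1, f h + f' h * (y - h) + c * (y - h) ^ 2 ≤ f y := by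
  have hder : ∀ y, HasDerivAt (fun y => f h + f' h * (y - h) + c * (y - h) ^ 2)
      (f' h - 2 * c * h + 2 * c * y) y := by
    intro y
    have := quad_hasDerivAt (f h - f' h * h + c * h ^ 2) (f' h - 2 * c * h) c y
    refine (this.congr_of_eventuallyEq ?_)
    exact Filter.Eventually.of_forall (fun z => by simp only; ring)
  have hcont : Continuous (fun y => f h + f' h * (y - h) + c * (y - h) ^ 2) := by fun_prop
  obtain ⟨G, hG⟩ : ∃ G : ℝ → ℝ, G = fun y => f y - (f h + f' h * (y - h) + c * (y - h) ^ 2) := ⟨_, rfl⟩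
  obtain ⟨G', hG'⟩ : ∃ G' : ℝ → ℝ, G' = fun y => f' y - (f' h - 2 * c * h + 2 * c * y) := ⟨_, rfl⟩
  have hGd : ∀ y ∈ Ioo y0 y1, HasDerivAt G (G' y) y := by
    intro y hy; rw [hG, hG']; exact (hd y hy).sub (hder y)
  have hGc : ContinuousOn G (Icc y0 y1) := by rw [hG]; exact hc.sub hcont.continuousOn
  have hGv : ConvexOn ℝ (Icc y0 y1) G' := by
    rw [hG']; exact sub_affine_convex hconv (f' h - 2 * c * h) c
  have hGh : G h = 0 := by rw [hG]; simp
  have hG'h : G' h = 0 := by rw [hG']; simp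
  have hG0 : 0 ≤ G y0 := by rw [hG]; simp only; linarith
  have hleft : ∀ y ∈ Icc y0 h, 0 ≤ G y :=
    conv_E (hGc.mono (Icc_subset_Icc le_rfl hh.2.le)) (fun y hy => hGd y ⟨hy.1, hy.2.trans hh.2⟩)
      (hGv.subset (Icc_subset_Icc le_rfl hh.2.le) (convex_Icc _ _)) hG0 hGh.ge hG'h.le
  obtain ⟨ξ, hξ, e⟩ := exists_hasDerivAt_eq_slope G G' hh.1 (hGc.mono (Icc_subset_Icc le_rfl hh.2.le))
    (fun x hx => hGd x ⟨hx.1, hx.2.trans hh.2⟩)
  have hξ0 : G' ξ ≤ 0 := by
    rw [e, hGh]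
    exact div_nonpos_of_nonpos_of_nonneg (by linarith) (by linarith [hh.1])
  have hup : ∀ y ∈ Icc h y1, 0 ≤ G' y := by
    intro y hy
    have := convex_up hGv (x := ξ) (y := h) (z := y) ⟨hξ.1.le, (hξ.2.trans hh.2).le⟩
      ⟨hh.1.le.trans hy.1, hy.2⟩ hξ.2 hy.1 (by rw [hG'h]; exact hξ0)
    linarith
  have hmono : MonotoneOn G (Icc h y1) := by
    apply monotoneOn_of_deriv_nonneg (convex_Icc _ _) (hGc.mono (Icc_subset_Icc hh.1.le le_rfl))
    · intro x hx
      rw [interior_Icc] at hx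
      exact (hGd x ⟨hh.1.trans hx.1, hx.2⟩).differentiableAt.differentiableWithinAt
    · intro x hx
      rw [interior_Icc] at hx
      rw [(hGd x ⟨hh.1.trans hx.1, hx.2⟩).deriv]
      exact hup x ⟨hx.1.le, hx.2.le⟩
  intro y hy
  have : 0 ≤ G y := by
    rcases le_total y h with h1 | h1
    · exact hleft y ⟨hy.1, h1⟩
    · have := hmono (left_mem_Icc.2 hh.2.le) ⟨h1, hy.2⟩ h1
      rw [hGh] at this
      exact this
  rw [hG] at this
  simp only at this
  linarith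

/-- criterion D: touching parabola at `h`, above at the right end -/
theorem line_D {h : ℝ} (hh : h ∈ Ioo y0 y1) (hc : ContinuousOn f (Icc y0 y1))
    (hd : ∀ y ∈ Ioo y0 y1, HasDerivAt f (f' y) y)
    (hconv : ConvexOn ℝ (Icc y0 y1) f') (h0 : f y1 ≤ f h + f' h * (y1 - h) + c * (y1 - h) ^ 2) :
    ∀ y ∈ Icc y0 y1, f y ≤ f h + f' h * (y - h) + c * (y - h) ^ 2 := by
  have hder : ∀ y, HasDerivAt (fun y => f h + f' h * (y - h) + c * (y - h) ^ 2)
      (f' h - 2 * c * h + 2 * c * y) y := by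
    intro y
    have := quad_hasDerivAt (f h - f' h * h + c * h ^ 2) (f' h - 2 * c * h) c y
    refine (this.congr_of_eventuallyEq ?_)
    exact Filter.Eventually.of_forall (fun z => by simp only; ring)
  have hcont : Continuous (fun y => f h + f' h * (y - h) + c * (y - h) ^ 2) := by fun_prop
  obtain ⟨G, hG⟩ : ∃ G : ℝ → ℝ, G = fun y => (f h + f' h * (y - h) + c * (y - h) ^ 2) - f y := ⟨_, rfl⟩
  obtain ⟨G', hG'⟩ : ∃ G' : ℝ → ℝ, G' = fun y => (f' h - 2 * c * h + 2 * c * y) - f' y := ⟨_, rfl⟩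
  have hGd : ∀ y ∈ Ioo y0 y1, HasDerivAt G (G' y) y := by
    intro y hy; rw [hG, hG']; exact (hder y).sub (hd y hy)
  have hGc : ContinuousOn G (Icc y0 y1) := by rw [hG]; exact hcont.continuousOn.sub hc
  have hGv : ConvexOn ℝ (Icc y0 y1) (fun y => -G' y) := by
    have := sub_affine_convex hconv (f' h - 2 * c * h) c
    refine this.congr ?_
    intro y _
    rw [hG']
    simp
  have hGh : G h = 0 := by rw [hG]; simp
  have hG'h : G' h = 0 := by rw [hG']; simp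
  have hG1 : 0 ≤ G y1 := by rw [hG]; simp only; linarith
  have hright : ∀ y ∈ Icc h y1, 0 ≤ G y :=
    conv_E' (hGc.mono (Icc_subset_Icc hh.1.le le_rfl)) (fun y hy => hGd y ⟨hh.1.trans hy.1, hy.2⟩)
      (hGv.subset (Icc_subset_Icc hh.1.le le_rfl) (convex_Icc _ _)) hGh.ge hG1 hG'h.ge
  obtain ⟨ξ, hξ, e⟩ := exists_hasDerivAt_eq_slope G G' hh.2 (hGc.mono (Icc_subset_Icc hh.1.le le_rfl))
    (fun x hx => hGd x ⟨hh.1.trans hx.1, hx.2⟩)
  have hξ0 : 0 ≤ G' ξ := by
    rw [e, hGh]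
    exact div_nonneg (by linarith) (by linarith [hh.2])
  have hdn : ∀ y ∈ Icc y0 h, G' y ≤ 0 := by
    intro y hy
    have := convex_down hGv (x := y) (y := h) (z := ξ) ⟨hy.1, hy.2.trans hh.2.le⟩
      ⟨(hh.1.trans hξ.1).le, hξ.2.le⟩ hy.2 hξ.1 (by rw [hG'h]; linarith)
    rw [hG'h] at this
    linarith
  have hmono : AntitoneOn G (Icc y0 h) := by
    apply antitoneOn_of_deriv_nonpos (convex_Icc _ _) (hGc.mono (Icc_subset_Icc le_rfl hh.2.le))
    · intro x hx
      rw [interior_Icc] at hx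
      exact (hGd x ⟨hx.1, hx.2.trans hh.2⟩).differentiableAt.differentiableWithinAt
    · intro x hx
      rw [interior_Icc] at hx
      rw [(hGd x ⟨hx.1, hx.2.trans hh.2⟩).deriv]
      exact hdn x ⟨hx.1.le, hx.2.le⟩
  intro y hy
  have : 0 ≤ G y := by
    rcases le_total h y with h1 | h1
    · exact hright y ⟨h1, hy.2⟩
    · have := hmono ⟨hy.1, h1⟩ (right_mem_Icc.2 hh.1.le) h1
      rw [hGh] at this
      exact this
  rw [hG] at this
  simp only at this
  linarith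

end Pool.Agent.H60.SL
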