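import Pool.Agent.H60.SL.CkLineDefs
import Pool.Agent.H60.SL.CkLineR
import Pool.Agent.H60.SL.Line

/-!
# Soundness of the line checks
-/

set_option autoImplicit false

open Set

namespace Pool.Agent.H60.SL.Ck

theorem nmax_eq (a b : ℕ) : nmax a b = max a b := by
  unfold nmax
  cases h : Nat.ble a b
  · have : ¬ a ≤ b := fun h2 => by rw [Nat.ble_eq_true_of_le h2] at h; cases h
    simp only [cond_false]
    omega
  · have := Nat.le_of_ble_eq_true h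
    simp only [cond_true]
    omega

theorem nmin_eq (a b : ℕ) : nmin a b = min a b := by
  unfold nmin
  cases h : Nat.ble a b
  · have : ¬ a ≤ b := fun h2 => by rw [Nat.ble_eq_true_of_le h2] at h; cases h
    simp only [cond_false]
    omega
  · have := Nat.le_of_ble_eq_true h
    simp only [cond_true]
    omega

theorem beq_zero_pos {E : ℕ} (h : 0 < E) : Nat.beq E 0 = false := by
  cases E with
  | zero => omega
  | succ n => rfl

theorem nn_real {a : ℤ} (h : nn a = true) : (0 : ℝ) ≤ (a : ℝ) := by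
  exact_mod_cast nn_iff.1 h

theorem eqI_eq {a b : ℤ} (h : eqI a b = true) : a = b := by
  unfold eqI at h
  rw [Bool.and_eq_true] at h
  exact le_antisymm (le_iff.1 h.1) (le_iff.1 h.2)

theorem lv_real (kap a c : ℤ) (E : ℕ) :
    ((lv kap a c E : ℤ) : ℝ) = (kap : ℝ) + a * E + c * E ^ 2 := by
  have : lv kap a c E = kap + (E : ℤ) * (a + c * (E : ℤ)) := rfl
  rw [this]
  push_cast
  ring

theorem nd_real (j : ℕ) : ((nd j : ℕ) : ℝ) = 2 ^ 24 * ((j : ℝ) / 256) ^ 2 := by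
  unfold nd
  push_cast
  ring

section

variable {k r : ℕ}

theorem sD_real (k r j : ℕ) : ((sD k r j : ℤ) : ℝ) =
    (k : ℝ) ^ 2 * t1D (k * j) - (r : ℝ) ^ 2 * t1D (r * j) := by
  have : sD k r j = ((k * k * t1D (k * j) : ℕ) : ℤ) - ((r * r * t1D (r * j) : ℕ) : ℤ) := rfl
  rw [this]
  push_cast
  ring

theorem sF_real (k r : ℕ) {j : ℕ} (hj : 0 < j) : ((sF k r j : ℤ) : ℝ) =
    (t1F (k * j) : ℝ) + 2 ^ 40 - t1F (r * j) := by
  have : sF k r j = ((t1F (k * j) + 1099511627776 : ℕ) : ℤ) - ((t1F (r * j) : ℕ) : ℤ) := by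
    unfold sF
    rw [beq_zero_pos hj]
    rfl
  rw [this]
  push_cast
  ring

theorem sF_zero (k r : ℕ) : sF k r 0 = 0 := rfl

theorem sM_real (k r j : ℕ) : ((sM k r j : ℤ) : ℝ) =
    (k : ℝ) ^ 4 * t1M (k * j) - (r : ℝ) ^ 4 * (t1M (r * j) + 2) := by
  have : sM k r j = ((k ^ 4 * t1M (k * j) : ℕ) : ℤ) - ((r ^ 4 * (t1M (r * j) + 2) : ℕ) : ℤ) := rfl
  rw [this]
  push_cast
  ring

theorem sMu_real (k r j : ℕ) : ((sMu k r j : ℤ) : ℝ) =
    (k : ℝ) ^ 4 * (t1M (k * j) + 2) - (r : ℝ) ^ 4 * t1M (r * j) := by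
  have : sMu k r j = ((k ^ 4 * (t1M (k * j) + 2) : ℕ) : ℤ) - ((r ^ 4 * t1M (r * j) : ℕ) : ℤ) := rfl
  rw [this]
  push_cast
  ring

theorem rj_le {j : ℕ} (hrk : r ≤ k) (hj : k * j ≤ 790) : r * j ≤ 790 :=
  (Nat.mul_le_mul_right j hrk).trans hj

theorem scale_sq (k j : ℕ) : (((k * j : ℕ) : ℝ) / 256) ^ 2 = (k : ℝ) ^ 2 * ((j : ℝ) / 256) ^ 2 := by
  push_cast
  ring

/-- the tangent of `FF` at a node -/
theorem tan_bounds {j : ℕ} (hrk : r ≤ k) (hj : k * j ≤ 790) {E : ℝ} (hE : 0 ≤ E)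
    (hkE : (k : ℝ) ^ 2 * E ≤ 2 ^ 28) :
    ((sD k r j : ℤ) : ℝ) * E - ((sF k r j : ℤ) : ℝ) ≤
      2 ^ 72 * (FF k r (((j : ℝ) / 256) ^ 2) + dFF k r (((j : ℝ) / 256) ^ 2) *
        (E / 2 ^ 24 - ((j : ℝ) / 256) ^ 2)) ∧
    2 ^ 72 * (FF k r (((j : ℝ) / 256) ^ 2) + dFF k r (((j : ℝ) / 256) ^ 2) *
        (E / 2 ^ 24 - ((j : ℝ) / 256) ^ 2)) ≤
      ((sD k r j : ℤ) : ℝ) * E - ((sF k r j : ℤ) : ℝ) + 2 * 2 ^ 40 := by
  have hkr : (r : ℝ) ^ 2 ≤ (k : ℝ) ^ 2 := by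
    have : (r : ℝ) ≤ k := by exact_mod_cast hrk
    exact pow_le_pow_left₀ (Nat.cast_nonneg r) this 2
  have hr2 : (r : ℝ) ^ 2 * E ≤ (k : ℝ) ^ 2 * E := mul_le_mul_of_nonneg_right hkr hE
  rcases Nat.eq_zero_or_pos j with hj0 | hj0
  · subst hj0
    rw [sF_zero, sD_real]
    obtain ⟨g1, g2, -, -, -⟩ := spec0
    rw [dnu_zero] at g1 g2
    have e0 : (((0 : ℕ) : ℝ) / 256) ^ 2 = 0 := by simp
    rw [e0, FF_zero, dFF_zero, mul_zero, mul_zero]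
    have hd : (0 : ℝ) ≤ ((k : ℝ) ^ 2 - (r : ℝ) ^ 2) * E := by
      have := sub_nonneg.2 hkr
      positivity
    have hd2 : ((k : ℝ) ^ 2 - (r : ℝ) ^ 2) * E ≤ 2 ^ 28 := by
      have : 0 ≤ (r : ℝ) ^ 2 * E := by positivity
      nlinarith
    have a1 := mul_le_mul_of_nonneg_left g1 hd
    have a2 := mul_le_mul_of_nonneg_left g2 hd
    constructor
    · simp only [Int.cast_zero, sub_zero, zero_add]
      nlinarith
    · simp only [Int.cast_zero, sub_zero, zero_add]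
      nlinarith
  have h1 := T1_line hj (Y := (k : ℝ) ^ 2 * E) (by positivity) hkE
  have h2 := T1_line (rj_le hrk hj) (Y := (r : ℝ) ^ 2 * E) (by positivity) (hr2.trans hkE)
  rw [scale_sq] at h1 h2
  rw [sD_real, sF_real k r hj0]
  set x := ((j : ℝ) / 256) ^ 2
  have e : FF k r x + dFF k r x * (E / 2 ^ 24 - x) =
      (nu ((k : ℝ) ^ 2 * x) + dnu ((k : ℝ) ^ 2 * x) * ((k : ℝ) ^ 2 * E / 2 ^ 24 - (k : ℝ) ^ 2 * x)) -
      (nu ((r : ℝ) ^ 2 * x) + dnu ((r : ℝ) ^ 2 * x) * ((r : ℝ) ^ 2 * E / 2 ^ 24 - (r : ℝ) ^ 2 * x)) := by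
    unfold FF dFF
    ring
  rw [e, mul_sub]
  constructor <;> nlinarith [h1.1, h1.2, h2.1, h2.2]

theorem pi_sq_gt : (9.8696 : ℝ) < Real.pi ^ 2 := by
  have := Real.pi_gt_d6
  nlinarith

theorem lt_R (hk : 1 ≤ k) {y : ℝ} (h : (k : ℝ) ^ 2 * y ≤ 9.6) : y < Real.pi ^ 2 / (k : ℝ) ^ 2 := by
  have hk0 : (0 : ℝ) < k := by exact_mod_cast hk
  rw [lt_div_iff₀ (by positivity)]
  have := pi_sq_gt
  linarith

theorem node_lt {j : ℕ} (hj : k * j ≤ 790) : (k : ℝ) ^ 2 * ((j : ℝ) / 256) ^ 2 ≤ 9.6 := by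
  rw [← scale_sq]
  have h : (((k * j : ℕ) : ℝ)) ≤ 790 := by exact_mod_cast hj
  have h0 : (0 : ℝ) ≤ ((k * j : ℕ) : ℝ) := Nat.cast_nonneg _
  nlinarith

theorem E_lt {E : ℝ} (h : (k : ℝ) ^ 2 * E ≤ 159769600) : (k : ℝ) ^ 2 * (E / 2 ^ 24) ≤ 9.6 := by
  have : (k : ℝ) ^ 2 * (E / 2 ^ 24) = (k : ℝ) ^ 2 * E / 2 ^ 24 := by ring
  rw [this, div_le_iff₀ (by positivity)]
  linarith

theorem kkE {E1 : ℕ} (h : Nat.ble (k * k * E1) 159769600 = true) {E : ℝ} (hE : E ≤ E1) :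
    (k : ℝ) ^ 2 * E ≤ 159769600 := by
  have h1 := Nat.le_of_ble_eq_true h
  have h2 : ((k * k * E1 : ℕ) : ℝ) ≤ 159769600 := by exact_mod_cast h1
  push_cast at h2
  have := mul_le_mul_of_nonneg_left hE (sq_nonneg (k : ℝ))
  nlinarith

theorem kE1_real {E1 : ℕ} (h : Nat.ble (k * k * E1) 159769600 = true) :
    (k : ℝ) ^ 2 * (E1 : ℝ) ≤ 159769600 := kkE h le_rfl

/-- value of the node -/
theorem tan_at_node {j : ℕ} (hrk : r ≤ k) (hj : k * j ≤ 790) :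
    ((sD k r j : ℤ) : ℝ) * (nd j : ℕ) - ((sF k r j : ℤ) : ℝ) ≤ 2 ^ 72 * FF k r (((j : ℝ) / 256) ^ 2) ∧
    2 ^ 72 * FF k r (((j : ℝ) / 256) ^ 2) ≤
      ((sD k r j : ℤ) : ℝ) * (nd j : ℕ) - ((sF k r j : ℤ) : ℝ) + 2 * 2 ^ 40 := by
  have hn : (k : ℝ) ^ 2 * ((nd j : ℕ) : ℝ) ≤ 2 ^ 28 := by
    rw [nd_real]
    have := node_lt (k := k) hj
    nlinarith
  have h := tan_bounds (r := r) hrk hj (Nat.cast_nonneg (nd j)) hn
  rw [nd_real] at h ⊢
  have e : 2 ^ 24 * ((j : ℝ) / 256) ^ 2 / 2 ^ 24 - ((j : ℝ) / 256) ^ 2 = 0 := by ring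
  rw [e, mul_zero, add_zero] at h
  exact h

/-- lower bound at one point -/
theorem fLo_sound {j E : ℕ} (hk : 1 ≤ k) (hrk : r ≤ k) (hj : k * j ≤ 790)
    (hE : (k : ℝ) ^ 2 * (E : ℝ) ≤ 159769600) :
    ((fLo k r j E : ℤ) : ℝ) ≤ 2 ^ 72 * FF k r ((E : ℝ) / 2 ^ 24) := by
  rcases Nat.eq_zero_or_pos E with h0 | h0
  · subst h0
    have : fLo k r j 0 = 0 := rfl
    rw [this]
    simp [FF_zero]
  · have e : fLo k r j E = sD k r j * (E : ℤ) - sF k r j := by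
      unfold fLo
      rw [beq_zero_pos h0]
      rfl
    rw [e]
    push_cast
    refine (tan_bounds hrk hj (Nat.cast_nonneg E) (by linarith)).1.trans ?_
    refine mul_le_mul_of_nonneg_left ?_ (by positivity)
    exact (PS_FF hk hrk).tangent (by positivity) (lt_R hk (node_lt hj)) (by positivity)
      (lt_R hk (E_lt hE))

/-- second derivative at a node -/
theorem second_bounds {j : ℕ} (hrk : r ≤ k) (hj : k * j ≤ 790) :
    ((sM k r j : ℤ) : ℝ) ≤ 2 ^ 24 * (ddFF k r (((j : ℝ) / 256) ^ 2) / 2) ∧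
    2 ^ 24 * (ddFF k r (((j : ℝ) / 256) ^ 2) / 2) ≤ ((sMu k r j : ℤ) : ℝ) := by
  have h1 := T1_second hj
  have h2 := T1_second (rj_le hrk hj)
  rw [scale_sq] at h1 h2
  rw [sM_real, sMu_real]
  unfold ddFF
  have k4 : (0 : ℝ) ≤ (k : ℝ) ^ 4 := by positivity
  have r4 : (0 : ℝ) ≤ (r : ℝ) ^ 4 := by positivity
  have a1 := mul_le_mul_of_nonneg_left h1.1 k4
  have a2 := mul_le_mul_of_nonneg_left h1.2 k4
  have b1 := mul_le_mul_of_nonneg_left h2.1 r4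
  have b2 := mul_le_mul_of_nonneg_left h2.2 r4
  constructor <;> nlinarith

/-- upper bound at one point -/
theorem fUp_sound {j E : ℕ} (hk : 1 ≤ k) (hrk : r ≤ k) (hj : k * j ≤ 790) (hEj : E ≤ nd j) :
    2 ^ 72 * FF k r ((E : ℝ) / 2 ^ 24) ≤ ((fUp k r j E : ℤ) : ℝ) := by
  rcases Nat.eq_zero_or_pos E with h0 | h0
  · subst h0
    have : fUp k r j 0 = 0 := rfl
    rw [this]
    simp [FF_zero]
  · have hbeq : Nat.beq E 0 = false := beq_zero_pos h0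
    have e : fUp k r j E = sD k r j * (E : ℤ) - sF k r j + 2199023255552 +
        sMu k r j * (((nd j - E) ^ 2 : ℕ) : ℤ) := by
      unfold fUp
      rw [hbeq]
      rfl
    rw [e]
    push_cast [Nat.cast_sub hEj]
    have hEj' : (E : ℝ) ≤ ((nd j : ℕ) : ℝ) := by exact_mod_cast hEj
    have hnr := nd_real j
    have hkE : (k : ℝ) ^ 2 * (E : ℝ) ≤ 2 ^ 28 := by
      have h1 := mul_le_mul_of_nonneg_left hEj' (sq_nonneg (k : ℝ))
      rw [hnr] at h1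
      have := node_lt (k := k) hj
      nlinarith
    have ht := (tan_bounds (r := r) hrk hj (Nat.cast_nonneg E) hkE).2
    have hj0 : 0 < ((j : ℝ) / 256) ^ 2 := by
      have : 0 < ((nd j : ℕ) : ℝ) := lt_of_lt_of_le (by exact_mod_cast h0) hEj'
      rw [hnr] at this
      linarith [pos_of_mul_pos_right this (by positivity : (0 : ℝ) ≤ 2 ^ 24)]
    have h2 := FF_up2 hk hrk hj0 (lt_R hk (node_lt hj)) (cc := ddFF k r (((j : ℝ) / 256) ^ 2) / 2)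
      le_rfl ((E : ℝ) / 2 ^ 24) (by positivity) (by
        rw [div_le_iff₀ (by positivity)]
        linarith)
    have h3 := (second_bounds (r := r) hrk hj).2
    set x := ((j : ℝ) / 256) ^ 2
    have e2 : ((nd j : ℕ) : ℝ) - E = -(2 ^ 24 * ((E : ℝ) / 2 ^ 24 - x)) := by
      rw [hnr]; ring
    rw [e2]
    set d := (E : ℝ) / 2 ^ 24 - x
    have h4 : 2 ^ 72 * (ddFF k r x / 2 * d ^ 2) ≤ ((sMu k r j : ℤ) : ℝ) * (-(2 ^ 24 * d)) ^ 2 := by
      have : 2 ^ 72 * (ddFF k r x / 2 * d ^ 2) = (2 ^ 24 * (ddFF k r x / 2)) * (-(2 ^ 24 * d)) ^ 2 := by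
        ring
      rw [this]
      exact mul_le_mul_of_nonneg_right h3 (sq_nonneg _)
    nlinarith

/-- the line in real units -/
theorem line_conv (kap a c : ℝ) (E : ℝ) :
    kap + a * E + c * E ^ 2 = 2 ^ 72 * (kap / 2 ^ 72 + (a / 2 ^ 48) * (E / 2 ^ 24) +
      (c / 2 ^ 24) * (E / 2 ^ 24) ^ 2) := by
  ring

theorem lowT1_sound {j E0 E1 i0 : ℕ} {kap a c : ℤ} (hk : 1 ≤ k) (hrk : r ≤ k)
    (h : lowT1 k r j E0 E1 i0 kap a c = true) {E : ℝ} (hE : E ∈ Icc (E0 : ℝ) E1) :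
    (kap : ℝ) + a * E + c * E ^ 2 ≤ 2 ^ 72 * FF k r (E / 2 ^ 24) := by
  unfold lowT1 at h
  simp only [Bool.and_eq_true] at h
  obtain ⟨⟨⟨⟨⟨⟨h1, h2⟩, h3⟩, h4⟩, h5⟩, h6⟩, h7⟩ := h
  have hj := Nat.le_of_ble_eq_true h2
  have hi := Nat.le_of_ble_eq_true h3
  have hE1 := kE1_real h1
  have hE01 : (E0 : ℝ) ≤ E1 := hE.1.trans hE.2
  have hE0 : (k : ℝ) ^ 2 * (E0 : ℝ) ≤ 159769600 := kkE h1 hE01
  have ha := eqI_eq h4
  have e4 : a = sD k r j - c * ((2 * nd j : ℕ) : ℤ) := ha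
  have e5 : (kap : ℝ) ≤ c * ((nd j : ℕ) : ℝ) ^ 2 - ((sF k r j : ℤ) : ℝ) := by
    have := le_real h5
    change (kap : ℝ) ≤ ((c * ((nd j * nd j : ℕ) : ℤ) - sF k r j : ℤ) : ℝ) at this
    push_cast at this
    linarith
  have e6 := le_real h6
  have e7 := (le_real h7).trans (fLo_sound hk hrk hi hE0)
  rw [lv_real] at e7
  have ea : (a : ℝ) = ((sD k r j : ℤ) : ℝ) - 2 * c * ((nd j : ℕ) : ℝ) := by
    rw [e4]; push_cast; ring
  have hsec := (second_bounds (r := r) hrk hj).1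
  set x := ((j : ℝ) / 256) ^ 2 with hx
  have hx0 : 0 ≤ x := by positivity
  have hn : ((nd j : ℕ) : ℝ) = 2 ^ 24 * x := nd_real j
  set cc : ℝ := (c : ℝ) / 2 ^ 24 with hcc
  set A : ℝ := kap / 2 ^ 72 - cc * x ^ 2 with hA
  set B : ℝ := ((sD k r j : ℤ) : ℝ) / 2 ^ 48 with hB
  have hAn : A * 2 ^ 72 ≤ -((sF k r j : ℤ) : ℝ) := by
    rw [hA, hcc]
    rw [hn] at e5
    have : (kap / 2 ^ 72 - (c : ℝ) / 2 ^ 24 * x ^ 2) * 2 ^ 72 = kap - c * (2 ^ 24 * x) ^ 2 := by ring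
    rw [this]
    linarith
  have hform : ∀ y : ℝ, 2 ^ 72 * (A + B * y + cc * (y - x) ^ 2) =
      kap + a * (2 ^ 24 * y) + c * (2 ^ 24 * y) ^ 2 := by
    intro y
    rw [ea, hn, hA, hB, hcc]
    ring
  have hl : ∀ y : ℝ, 0 ≤ y → (k : ℝ) ^ 2 * (2 ^ 24 * y) ≤ 2 ^ 28 →
      A + B * y ≤ FF k r x + dFF k r x * (y - x) := by
    intro y hy0 hy
    have h8 := (tan_bounds (r := r) hrk hj (E := 2 ^ 24 * y) (by positivity) hy).1
    have e8 : 2 ^ 24 * y / 2 ^ 24 = y := by ring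
    rw [e8, ← hx] at h8
    have e9 : 2 ^ 72 * (A + B * y) = A * 2 ^ 72 + ((sD k r j : ℤ) : ℝ) * (2 ^ 24 * y) := by
      rw [hB]; ring
    have h10 : 2 ^ 72 * (A + B * y) ≤ 2 ^ 72 * (FF k r x + dFF k r x * (y - x)) := by
      rw [e9]; linarith
    exact le_of_mul_le_mul_left h10 (by positivity)
  have hkx := node_lt (k := k) hj
  have hmain := (PS_FF hk hrk).low_touch (x := x) (y0 := (E0 : ℝ) / 2 ^ 24) (y1 := (E1 : ℝ) / 2 ^ 24)
    (A := A) (B := B) (cc := cc) hx0 (lt_R hk hkx) (by positivity) (lt_R hk (E_lt hE1))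
    (FF_low2' hk hrk hx0 (by
      rw [hcc, div_le_iff₀ (by positivity)]
      linarith))
    (by
      have := hl x hx0 (by nlinarith)
      simpa using this)
    (fun y hy => hl y (le_trans (by positivity) hy.1) (by
      have h11 : 2 ^ 24 * y ≤ E1 := by
        have := hy.2
        rw [le_div_iff₀ (by positivity)] at this
        linarith
      have h12 := mul_le_mul_of_nonneg_left h11 (sq_nonneg (k : ℝ))
      linarith))
    (by
      have h13 : 2 ^ 72 * (A + B * ((E0 : ℝ) / 2 ^ 24) + cc * ((E0 : ℝ) / 2 ^ 24 - x) ^ 2) ≤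
          2 ^ 72 * FF k r ((E0 : ℝ) / 2 ^ 24) := by
        rw [hform]
        have : 2 ^ 24 * ((E0 : ℝ) / 2 ^ 24) = E0 := by ring
        rw [this]
        exact e7
      exact le_of_mul_le_mul_left h13 (by positivity))
    (E / 2 ^ 24) ⟨by
      exact div_le_div_of_nonneg_right hE.1 (by positivity), div_le_div_of_nonneg_right hE.2 (by positivity)⟩
  have h14 := mul_le_mul_of_nonneg_left hmain (by positivity : (0 : ℝ) ≤ 2 ^ 72)
  rw [hform] at h14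
  have e15 : 2 ^ 24 * (E / 2 ^ 24) = E := by ring
  rw [e15] at h14
  exact h14

/-- slope at a node from above -/
theorem dFF_node_le {j : ℕ} (hrk : r ≤ k) (hj : k * j ≤ 790) :
    2 ^ 48 * dFF k r (((j : ℝ) / 256) ^ 2) ≤ ((sD k r j : ℤ) : ℝ) + 2 * (k : ℝ) ^ 2 := by
  have h1 := T1_slope hj
  have h2 := T1_slope (rj_le hrk hj)
  rw [scale_sq] at h1 h2
  rw [sD_real]
  unfold dFF
  have a2 := mul_le_mul_of_nonneg_left h1.2 (sq_nonneg (k : ℝ))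
  have b1 := mul_le_mul_of_nonneg_left h2.1 (sq_nonneg (r : ℝ))
  nlinarith

theorem lowT2_sound {E0 E1 i0 i1 : ℕ} {kap a c : ℤ} (hk : 1 ≤ k) (hrk : r ≤ k)
    (h : lowT2 k r E0 E1 i0 i1 kap a c = true) {E : ℝ} (hE : E ∈ Icc (E0 : ℝ) E1) :
    (kap : ℝ) + a * E + c * E ^ 2 ≤ 2 ^ 72 * FF k r (E / 2 ^ 24) := by
  unfold lowT2 at h
  simp only [Bool.and_eq_true] at h
  obtain ⟨⟨⟨⟨⟨⟨h1, h2⟩, h3⟩, h4⟩, h5⟩, h6⟩, h7⟩ := h
  have hi1 := Nat.le_of_ble_eq_true h2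
  have hi0 := Nat.le_of_ble_eq_true h3
  have hE1n := Nat.le_of_ble_eq_true h4
  have hE1 := kE1_real h1
  have hE01 : (E0 : ℝ) ≤ E1 := hE.1.trans hE.2
  have hE0 : (k : ℝ) ^ 2 * (E0 : ℝ) ≤ 159769600 := kkE h1 hE01
  have e5 := (le_real h5).trans (fLo_sound hk hrk hi0 hE0)
  have e6 := (le_real h6).trans (fLo_sound hk hrk hi1 hE1)
  have e7 := le_real h7
  change ((sD k r i1 + ((2 * (k * k) : ℕ) : ℤ) : ℤ) : ℝ) ≤ ((a + c * ((2 * E1 : ℕ) : ℤ) : ℤ) : ℝ) at e7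
  push_cast at e7
  rw [lv_real, line_conv] at e5 e6
  have e5' := le_of_mul_le_mul_left e5 (by positivity)
  have e6' := le_of_mul_le_mul_left e6 (by positivity)
  rw [line_conv]
  refine mul_le_mul_of_nonneg_left ?_ (by positivity)
  set R := Real.pi ^ 2 / (k : ℝ) ^ 2
  have hE1R := lt_R hk (E_lt hE1)
  have hsub : Icc ((E0 : ℝ) / 2 ^ 24) ((E1 : ℝ) / 2 ^ 24) ⊆ Ico 0 R :=
    fun t ht => ⟨le_trans (by positivity) ht.1, ht.2.trans_lt hE1R⟩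
  refine line_E (f := FF k r) (f' := dFF k r) (y0 := (E0 : ℝ) / 2 ^ 24) (y1 := (E1 : ℝ) / 2 ^ 24)
    ((FF_continuousOn hk hrk).mono hsub) (fun y hy => FF_hasDerivAt hk hrk
      (lt_of_le_of_lt (by positivity) hy.1) (hy.2.trans hE1R))
    ((dFF_convexOn hk hrk).subset hsub (convex_Icc _ _)) e5' e6' ?_ (E / 2 ^ 24)
    ⟨div_le_div_of_nonneg_right hE.1 (by positivity), div_le_div_of_nonneg_right hE.2 (by positivity)⟩
  have hE1n' : (E1 : ℝ) / 2 ^ 24 ≤ ((i1 : ℝ) / 256) ^ 2 := by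
    have : (E1 : ℝ) ≤ ((nd i1 : ℕ) : ℝ) := by exact_mod_cast hE1n
    rw [nd_real] at this
    rw [div_le_iff₀ (by positivity)]
    linarith
  have hm := (PS_FF hk hrk).deriv_monotoneOn ⟨by positivity, hE1R⟩
    ⟨by positivity, lt_R hk (node_lt hi1)⟩ hE1n'
  have hd := dFF_node_le (r := r) hrk hi1
  have : 2 ^ 48 * dFF k r ((E1 : ℝ) / 2 ^ 24) ≤ 2 ^ 48 * ((a : ℝ) / 2 ^ 48 + 2 * ((c : ℝ) / 2 ^ 24) * ((E1 : ℝ) / 2 ^ 24)) := by
    have e8 : 2 ^ 48 * ((a : ℝ) / 2 ^ 48 + 2 * ((c : ℝ) / 2 ^ 24) * ((E1 : ℝ) / 2 ^ 24)) = a + c * (2 * E1) := by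
      ring
    rw [e8]
    nlinarith
  exact le_of_mul_le_mul_left this (by positivity)

/-- the separation test -/
theorem sepQ_sound {u v : ℕ} {A B c : ℤ} (h : sepQ u v A B c = true) {E : ℝ}
    (hE : E ∈ Icc (u : ℝ) v) : (A : ℝ) + B * E + c * E ^ 2 ≤ 0 := by
  unfold sepQ at h
  simp only [Bool.and_eq_true, Bool.or_eq_true] at h
  obtain ⟨⟨⟨h1, h2⟩, h3⟩, h4⟩ := h
  have hc : (c : ℝ) ≤ 0 := by
    have := nn_real h1
    change (0 : ℝ) ≤ ((-c : ℤ) : ℝ) at this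
    push_cast at this
    linarith
  have hu : (A : ℝ) + B * u + c * (u : ℝ) ^ 2 ≤ 0 := by
    have := nn_real h2
    change (0 : ℝ) ≤ ((-(lv A B c u) : ℤ) : ℝ) at this
    rw [Int.cast_neg, lv_real] at this
    linarith
  have hv : (A : ℝ) + B * v + c * (v : ℝ) ^ 2 ≤ 0 := by
    have := nn_real h3
    change (0 : ℝ) ≤ ((-(lv A B c v) : ℤ) : ℝ) at this
    rw [Int.cast_neg, lv_real] at this
    linarith
  rcases h4 with (h4 | h4) | h4
  · have := nn_real h4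
    change (0 : ℝ) ≤ ((-(B + c * ((2 * u : ℕ) : ℤ)) : ℤ) : ℝ) at this
    push_cast at this
    have h5 : (B : ℝ) + c * (E + u) ≤ 0 := by nlinarith [hE.1]
    nlinarith [mul_nonneg (sub_nonneg.2 hE.1) (neg_nonneg.2 h5)]
  · have := nn_real h4
    change (0 : ℝ) ≤ ((B + c * ((2 * v : ℕ) : ℤ) : ℤ) : ℝ) at this
    push_cast at this
    have h5 : 0 ≤ (B : ℝ) + c * (E + v) := by nlinarith [hE.2]
    nlinarith [mul_nonneg (sub_nonneg.2 hE.2) h5]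
  · obtain ⟨h5, h6⟩ := h4
    have hA : (A : ℝ) ≤ 0 := by
      have := nn_real h5
      change (0 : ℝ) ≤ ((-A : ℤ) : ℝ) at this
      push_cast at this
      linarith
    have h7 := le_real h6
    change ((B * B : ℤ) : ℝ) ≤ ((4 * (A * c) : ℤ) : ℝ) at h7
    push_cast at h7
    rcases hc.eq_or_lt with h0 | h0
    · rw [h0] at h7 ⊢
      have : (B : ℝ) = 0 := by nlinarith
      rw [this]
      linarith
    · by_contra hcon
      push Not at hcon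
      have h8 : 4 * (c : ℝ) * (A + B * E + c * E ^ 2) < 0 := by
        have := mul_pos_of_neg_of_neg (show 4 * (c : ℝ) < 0 by linarith)
          (show -((A : ℝ) + B * E + c * E ^ 2) < 0 by linarith)
        linarith
      nlinarith [sq_nonneg (2 * (c : ℝ) * E + B)]

theorem sepOn_sound {u v : ℕ} {d f kap a c : ℤ} (h : sepOn u v d f kap a c = true) {E : ℝ}
    (hE : E ∈ Icc (u : ℝ) v) : (kap : ℝ) + a * E + c * E ^ 2 ≤ d * E - f := by
  unfold sepOn at h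
  rw [Bool.or_eq_true] at h
  rcases h with h | h
  · have h1 : v < u := Nat.le_of_ble_eq_true h
    have h2 : (v : ℝ) < u := by exact_mod_cast h1
    linarith [hE.1, hE.2]
  · have := sepQ_sound h hE
    change ((kap + f : ℤ) : ℝ) + ((a - d : ℤ) : ℝ) * E + c * E ^ 2 ≤ 0 at this
    push_cast at this
    linarith

theorem lowT3_sound {E0 E1 j : ℕ} {kap a c : ℤ} (hk : 1 ≤ k) (hrk : r ≤ k)
    (h : lowT3 k r E0 E1 j kap a c = true) {E : ℝ} (hE : E ∈ Icc (E0 : ℝ) E1) :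
    (kap : ℝ) + a * E + c * E ^ 2 ≤ 2 ^ 72 * FF k r (E / 2 ^ 24) := by
  unfold lowT3 at h
  simp only [Bool.and_eq_true] at h
  obtain ⟨⟨h1, h2⟩, h3⟩ := h
  have hj := Nat.le_of_ble_eq_true h2
  have hE0 : 0 ≤ E := le_trans (Nat.cast_nonneg _) hE.1
  have hkE := kkE h1 hE.2
  refine (sepOn_sound h3 hE).trans ?_
  refine (tan_bounds hrk hj hE0 (by linarith)).1.trans ?_
  refine mul_le_mul_of_nonneg_left ?_ (by positivity)
  exact (PS_FF hk hrk).tangent (by positivity) (lt_R hk (node_lt hj)) (by positivity)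
    (lt_R hk (E_lt hkE))

end

end Pool.Agent.H60.SL.Ck
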