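import Pool.Agent.H60.SL.CkDefs

/-!
# Quadratic lines for `FF k r` (kernel evaluation)

Units: `E = 2^24 η`, values `2^72`, slopes `2^48`, quadratic coefficients `2^24`.
-/

set_option autoImplicit false

namespace Pool.Agent.H60.SL.Ck

/-- node `j`: `2^24 (j/256)^2` -/
def nd (j : Nat) : Nat := 256 * (j * j)

def sD (k r j : Nat) : Int :=
  Int.sub (Int.ofNat (k * k * t1D (k * j))) (Int.ofNat (r * r * t1D (r * j)))
def sF (k r j : Nat) : Int :=
  bif Nat.beq j 0 then 0
  else Int.sub (Int.ofNat (t1F (k * j) + 1099511627776)) (Int.ofNat (t1F (r * j)))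
def sM (k r j : Nat) : Int :=
  Int.sub (Int.ofNat (k ^ 4 * t1M (k * j))) (Int.ofNat (r ^ 4 * (t1M (r * j) + 2)))
def sMu (k r j : Nat) : Int :=
  Int.sub (Int.ofNat (k ^ 4 * (t1M (k * j) + 2))) (Int.ofNat (r ^ 4 * t1M (r * j)))

/-- lower bound of `2^72 FF k r` at `E` from the node `j` -/
def fLo (k r j E : Nat) : Int :=
  bif Nat.beq E 0 then 0 else Int.sub (Int.mul (sD k r j) (Int.ofNat E)) (sF k r j)

/-- upper bound of `2^72 FF k r` at `E ≤ nd j` -/
def fUp (k r j E : Nat) : Int :=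
  bif Nat.beq E 0 then 0 else
    Int.add (Int.add (Int.sub (Int.mul (sD k r j) (Int.ofNat E)) (sF k r j)) 2199023255552)
      (Int.mul (sMu k r j) (Int.ofNat ((nd j - E) ^ 2)))

/-- value of the line at `E` -/
def lv (kap a c : Int) (E : Nat) : Int :=
  Int.add kap (Int.mul (Int.ofNat E) (Int.add a (Int.mul c (Int.ofNat E))))

def nmax (a b : Nat) : Nat := bif Nat.ble a b then b else a
def nmin (a b : Nat) : Nat := bif Nat.ble a b then a else b

def eqI (a b : Int) : Bool := le a b && le b a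

/-- lower line, type 1: touching at the node `j` -/
def lowT1 (k r j E0 E1 i0 : Nat) (kap a c : Int) : Bool :=
  Nat.ble (k * k * E1) 159769600 && Nat.ble (k * j) 790 && Nat.ble (k * i0) 790 &&
  eqI a (Int.sub (sD k r j) (Int.mul c (Int.ofNat (2 * nd j)))) &&
  le kap (Int.sub (Int.mul c (Int.ofNat (nd j * nd j))) (sF k r j)) &&
  le c (sM k r j) && le (lv kap a c E0) (fLo k r i0 E0)

/-- lower line, type 2: secant -/
def lowT2 (k r E0 E1 i0 i1 : Nat) (kap a c : Int) : Bool :=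
  Nat.ble (k * k * E1) 159769600 && Nat.ble (k * i1) 790 && Nat.ble (k * i0) 790 &&
  Nat.ble E1 (nd i1) &&
  le (lv kap a c E0) (fLo k r i0 E0) && le (lv kap a c E1) (fLo k r i1 E1) &&
  le (Int.add (sD k r i1) (Int.ofNat (2 * (k * k)))) (Int.add a (Int.mul c (Int.ofNat (2 * E1))))

/-- `A + B E + c E² ≤ 0` on `[u, v]`, `c ≤ 0` -/
def sepQ (u v : Nat) (A B c : Int) : Bool :=
  nn (Int.neg c) && nn (Int.neg (lv A B c u)) && nn (Int.neg (lv A B c v)) &&
  (nn (Int.neg (Int.add B (Int.mul c (Int.ofNat (2 * u))))) ||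
    nn (Int.add B (Int.mul c (Int.ofNat (2 * v)))) ||
    (nn (Int.neg A) && le (Int.mul B B) (Int.mul 4 (Int.mul A c))))

/-- the line is below `d E - f` on `[u, v]` -/
def sepOn (u v : Nat) (d f kap a c : Int) : Bool :=
  Nat.blt v u || sepQ u v (Int.add kap f) (Int.sub a d) c

/-- lower line, type 3, ratio -/
def lowT3 (k r E0 E1 j : Nat) (kap a c : Int) : Bool :=
  Nat.ble (k * k * E1) 159769600 && Nat.ble (k * j) 790 &&
  sepOn E0 E1 (sD k r j) (sF k r j) kap a c

/-- `π² L² 2^24` from above and below -/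
def PLt : Nat → Nat
  | 0 => 1 | 1 => 165584486 | 2 => 662337941 | 3 => 1490260365 | 4 => 2649351759
  | 5 => 4139612123 | 6 => 5961041457 | _ => 8113639760
def PHt : Nat → Nat
  | 0 => 0 | 1 => 165584483 | 2 => 662337938 | 3 => 1490260362 | 4 => 2649351756
  | 5 => 4139612120 | 6 => 5961041454 | _ => 8113639757

/-- node ranges of the lobes -/
def rl : Nat → Nat
  | 0 => 0 | 1 => 103 | 2 => 203 | 3 => 304 | 4 => 404 | 5 => 505 | _ => 605
def rh : Nat → Nat
  | 0 => 790 | 1 => 199 | 2 => 300 | 3 => 400 | 4 => 501 | 5 => 601 | _ => 702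

/-- tangent data at the node `J` of lobe `L`, scaled by `k` -/
def tD (k L J : Nat) : Int :=
  bif Nat.beq L 0 then Int.ofNat (k * k * t1D J) else Int.mul (Int.ofNat (k * k)) (t2D J)
def tF (L J : Nat) : Int :=
  bif Nat.beq L 0 then Int.ofNat (t1F J) else t2F J

/-- lower line, type 3, `r = 0`, over the lobes `L, L + 1, ...`; `ns` nodes -/
def lowT3L (k E0 E1 : Nat) (kap a c : Int) : Nat → List Nat → Bool
  | _, [] => false
  | L, J :: ns =>
    (Nat.ble (PLt (L + 1)) (k * k * E0) ||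
      (Nat.ble (rl L) J && Nat.ble J (rh L) &&
        sepOn (nmax E0 (PHt L / (k * k))) (nmin E1 (PLt (L + 1) / (k * k) + 1))
          (tD k L J) (tF L J) kap a c)) &&
    Nat.ble L 6 &&
    (Nat.ble (k * k * E1) (PHt (L + 1)) || lowT3L k E0 E1 kap a c (L + 1) ns)

/-- upper line, type 1 -/
def upT1 (k r j E1 i1 : Nat) (kap a c : Int) : Bool :=
  Nat.ble (k * k * E1) 159769600 && Nat.ble (k * j) 790 && Nat.ble (k * i1) 790 &&
  Nat.ble E1 (nd i1) &&
  eqI a (Int.sub (sD k r j) (Int.mul c (Int.ofNat (2 * nd j)))) &&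
  le (Int.add (Int.sub (Int.mul c (Int.ofNat (nd j * nd j))) (sF k r j)) 2199023255552) kap &&
  le (sMu k r j) c && le (fUp k r i1 E1) (lv kap a c E1)

/-- upper line, type 2 -/
def upT2 (k r E0 E1 i0 i1 : Nat) (kap a c : Int) : Bool :=
  Nat.ble (k * k * E1) 159769600 && Nat.ble (k * i0) 790 && Nat.ble (k * i1) 790 &&
  Nat.ble E1 (nd i1) && Nat.ble E0 (nd i0) &&
  le (fUp k r i0 E0) (lv kap a c E0) && le (fUp k r i1 E1) (lv kap a c E1) &&
  (nn (Int.neg c) ||
    le (Int.add (sD k r i0) (Int.ofNat (2 * (k * k)))) (Int.add a (Int.mul c (Int.ofNat (2 * E0)))))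

/-- upper line through the origin, type 3 -/
def upT3 (k r E0 E1 i0 i1 : Nat) (a c : Int) : Bool :=
  Nat.ble (k * k * E1) 159769600 && Nat.ble (k * i0) 790 && Nat.ble (k * i1) 790 &&
  Nat.ble E1 (nd i1) && Nat.ble E0 (nd i0) && Nat.ble 1 E1 &&
  le (fUp k r i1 E1) (lv 0 a c E1) &&
  (bif Nat.beq E0 0 then le (Int.add (sD k r 0) (Int.ofNat (2 * (k * k)))) a
    else le (fUp k r i0 E0) (lv 0 a c E0))

end Pool.Agent.H60.SL.Ck
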