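import Pool.Agent.H60.SL.CkDefs

set_option autoImplicit false

namespace Pool.Agent.H60.SL.Ck

theorem chk0_ok : chk0 = true := by decide +kernel
theorem chk1_ok : allB 790 (fun i => chk1 (i + 1)) = true := by decide +kernel
theorem chk2_ok1 : allB 97 (fun i => chk2o (i + 103)) = true := by decide +kernel
theorem chk2_ok2 : allB 98 (fun i => chk2e (i + 203)) = true := by decide +kernel
theorem chk2_ok3 : allB 97 (fun i => chk2o (i + 304)) = true := by decide +kernel
theorem chk2_ok4 : allB 98 (fun i => chk2e (i + 404)) = true := by decide +kernel
theorem chk2_ok5 : allB 97 (fun i => chk2o (i + 505)) = true := by decide +kernel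
theorem chk2_ok6 : allB 98 (fun i => chk2e (i + 605)) = true := by decide +kernel

end Pool.Agent.H60.SL.Ck
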