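import Pool.Agent.H60.SL.LogSinc

set_option autoImplicit false

open Set Filter Topology

namespace Pool.Agent.H60.SL

/-- `-log |sinc √y|` -/
noncomputable def nu (y : ℝ) : ℝ := -Real.log (Real.sinc (Real.sqrt y))

/-- its derivative `(1 - z cot z) / (2 z²)`, `z = √y` -/
noncomputable def dnu (y : ℝ) : ℝ :=
  if y = 0 then 1 / 6 else (1 - Real.sqrt y * Real.cos (Real.sqrt y) / Real.sin (Real.sqrt y)) / (2 * y)

theorem dnu_zero : dnu 0 = 1 / 6 := by simp [dnu]

theorem nu_zero : nu 0 = 0 := by simp [nu]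

theorem nu_sq {z : ℝ} (hz : 0 ≤ z) : nu (z ^ 2) = -Real.log (Real.sinc z) := by
  rw [nu, Real.sqrt_sq hz]

theorem nu_eq {y : ℝ} (hy : 0 < y) (hs : Real.sin (Real.sqrt y) ≠ 0) :
    nu y = Real.log (Real.sqrt y) - Real.log (Real.sin (Real.sqrt y)) := by
  have hz : Real.sqrt y ≠ 0 := (Real.sqrt_pos.2 hy).ne'
  rw [nu, Real.sinc_of_ne_zero hz, Real.log_div hs hz]
  ring

theorem nu_hasDerivAt {y : ℝ} (hy : 0 < y) (hs : Real.sin (Real.sqrt y) ≠ 0) :
    HasDerivAt nu (dnu y) y := by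
  have hz0 := Real.sqrt_pos.2 hy
  have hz : Real.sqrt y ≠ 0 := hz0.ne'
  have h1 : HasDerivAt Real.sqrt (1 / (2 * Real.sqrt y)) y := Real.hasDerivAt_sqrt hy.ne'
  have h2 : HasDerivAt (fun y => Real.log (Real.sqrt y) - Real.log (Real.sin (Real.sqrt y))) _ y :=
    (h1.log hz).sub ((h1.sin).log hs)
  have h3 : HasDerivAt nu _ y := h2.congr_of_eventuallyEq (by
    have hc : ContinuousAt (fun y => Real.sin (Real.sqrt y)) y := by fun_prop
    filter_upwards [lt_mem_nhds hy, hc.eventually_ne hs] with x hx hx2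
    exact nu_eq hx hx2)
  refine h3.congr_deriv ?_
  rw [dnu, if_neg hy.ne']
  have hyy : y = Real.sqrt y ^ 2 := (Real.sq_sqrt hy.le).symm
  obtain ⟨z, hze⟩ : ∃ z, Real.sqrt y = z := ⟨_, rfl⟩
  rw [hze] at hz hs hyy ⊢
  rw [hyy]
  field_simp

/-- the squares of the zeros -/
noncomputable def PP (n : ℕ) : ℝ := (((n : ℝ) + 1) * Real.pi) ^ 2

theorem PP_ge (n : ℕ) : Real.pi ^ 2 ≤ PP n := by
  unfold PP
  apply pow_le_pow_left₀ Real.pi_pos.le
  have : (0 : ℝ) ≤ n := Nat.cast_nonneg n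
  nlinarith [Real.pi_pos]

theorem PP_pos (n : ℕ) : 0 < PP n := lt_of_lt_of_le (by positivity) (PP_ge n)

theorem hasSum_nu {y : ℝ} (h0 : 0 ≤ y) (h1 : y < Real.pi ^ 2) :
    HasSum (fun n : ℕ => -Real.log (1 - y / PP n)) (nu y) := by
  have hz : Real.sqrt y < Real.pi := by
    rw [Real.sqrt_lt' Real.pi_pos]; exact h1
  have h := hasSum_logsinc (Real.sqrt_nonneg y) hz
  refine h.congr_fun ?_
  intro n
  unfold yn PP
  rw [Real.sq_sqrt h0]
  have : (((n : ℝ) + 1) * Real.pi) ^ 2 ≠ 0 := by positivity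
  congr 3
  rw [mul_pow]
  have := Real.pi_pos
  field_simp

theorem hasSum_dnu {y : ℝ} (h0 : 0 ≤ y) (h1 : y < Real.pi ^ 2) :
    HasSum (fun n : ℕ => 1 / (PP n - y)) (dnu y) := by
  have hpi := Real.pi_pos
  rcases h0.eq_or_lt with h | hy
  · rw [← h, dnu_zero]
    have h2 := (zeta_shift (by norm_num) hasSum_zeta_two).mul_left (1 / Real.pi ^ 2)
    have e : 1 / Real.pi ^ 2 * (Real.pi ^ 2 / 6) = 1 / 6 := by field_simp
    rw [e] at h2
    refine h2.congr_fun ?_
    intro n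
    unfold PP
    rw [sub_zero, mul_pow]
    have : ((n : ℝ) + 1) ≠ 0 := by positivity
    field_simp
  · set z := Real.sqrt y with hz
    have hzz : z ^ 2 = y := Real.sq_sqrt h0
    have hz0 : 0 < z := Real.sqrt_pos.2 hy
    have hzpi : z < Real.pi := by
      rw [hz, Real.sqrt_lt' Real.pi_pos]; exact h1
    have hsin : Real.sin z ≠ 0 := (Real.sin_pos_of_pos_of_lt_pi hz0 hzpi).ne'
    set x : ℝ := z / Real.pi with hx
    have hx0 : 0 < x := by positivity
    have hx1 : x < 1 := by rw [hx, div_lt_one hpi]; exact hzpi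
    have hxZ : (x : ℂ) ∈ Complex.integerComplement := by
      rw [Complex.mem_integerComplement_iff]
      rintro ⟨k, hk⟩
      have hk2 : (k : ℝ) = x := by exact_mod_cast hk
      rw [← hk2] at hx0 hx1
      have a1 : (0 : ℤ) < k := by exact_mod_cast hx0
      have a2 : k < (1 : ℤ) := by exact_mod_cast hx1
      omega
    have hsum := (cot_series_rep' hxZ)
    have hsm := summable_cotTerm hxZ
    have hH : HasSum (fun n : ℕ => 1 / ((x : ℂ) - (n + 1)) + 1 / ((x : ℂ) + (n + 1)))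
        (Real.pi * Complex.cot (Real.pi * x) - 1 / x) := by
      rw [hsum]
      exact hsm.hasSum
    have e1 : (Real.pi * Complex.cot (Real.pi * x) - 1 / x : ℂ) =
        ((Real.pi * (Real.cos z / Real.sin z) - Real.pi / z : ℝ) : ℂ) := by
      have a1 : ((Real.pi : ℂ) * (x : ℂ)) = ((z : ℝ) : ℂ) := by
        rw [hx]
        push_cast
        have : (Real.pi : ℂ) ≠ 0 := by exact_mod_cast hpi.ne'
        field_simp
      rw [a1, Complex.cot, hx]
      push_cast
      have : (z : ℂ) ≠ 0 := by exact_mod_cast hz0.ne'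
      have : (Real.pi : ℂ) ≠ 0 := by exact_mod_cast hpi.ne'
      field_simp
    rw [e1] at hH
    have hH2 : HasSum (fun n : ℕ => 1 / (x - (n + 1)) + 1 / (x + (n + 1)))
        (Real.pi * (Real.cos z / Real.sin z) - Real.pi / z) := by
      rw [← Complex.hasSum_ofReal]
      refine hH.congr_fun ?_
      intro n
      push_cast
      rfl
    have hH3 := hH2.mul_left (-(1 / (2 * z * Real.pi)))
    have e2 : -(1 / (2 * z * Real.pi)) * (Real.pi * (Real.cos z / Real.sin z) - Real.pi / z) =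
        dnu y := by
      rw [dnu, if_neg hy.ne', ← hz, ← hzz]
      field_simp
      ring
    rw [e2] at hH3
    refine hH3.congr_fun ?_
    intro n
    unfold PP
    rw [← hzz]
    have hn : (0 : ℝ) ≤ n := Nat.cast_nonneg n
    have hzx : z = x * Real.pi := by rw [hx]; field_simp
    rw [hzx]
    have b1 : x - ((n : ℝ) + 1) ≠ 0 := by
      intro h; linarith
    have b2 : x + ((n : ℝ) + 1) ≠ 0 := by positivity
    have b3 : (((n : ℝ) + 1) * Real.pi) ^ 2 - (x * Real.pi) ^ 2 =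
        -((x - ((n : ℝ) + 1)) * (x + ((n : ℝ) + 1)) * Real.pi ^ 2) := by ring
    rw [b3]
    field_simp
    ring

/-- the second quotient of `x^(k+1)` -/
noncomputable def Gk (h : ℝ) : ℕ → ℝ → ℝ
  | 0, _ => 0
  | k + 1, x => x * Gk h k x + (k + 1) * h ^ k

theorem Gk_eq (h x : ℝ) (k : ℕ) :
    x ^ (k + 1) - h ^ (k + 1) - (k + 1) * h ^ k * (x - h) = (x - h) ^ 2 * Gk h k x := by
  induction k with
  | zero => simp [Gk]
  | succ k ih =>
    simp only [Gk]
    have : (x - h) ^ 2 * (x * Gk h k x + (k + 1) * h ^ k) =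
        x * ((x - h) ^ 2 * Gk h k x) + (x - h) ^ 2 * ((k + 1) * h ^ k) := by ring
    rw [this, ← ih]
    push_cast
    ring

theorem Gk_nonneg {h x : ℝ} (hh : 0 ≤ h) (hx : 0 ≤ x) (k : ℕ) : 0 ≤ Gk h k x := by
  induction k with
  | zero => simp [Gk]
  | succ k ih => simp only [Gk]; positivity

theorem Gk_mono {h x x' : ℝ} (hh : 0 ≤ h) (hx : 0 ≤ x) (hxx : x ≤ x') (k : ℕ) :
    Gk h k x ≤ Gk h k x' := by
  induction k with
  | zero => simp [Gk]
  | succ k ih =>
    simp only [Gk]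
    have := mul_le_mul hxx ih (Gk_nonneg hh hx k) (hx.trans hxx)
    linarith

theorem hasSum_M {h x : ℝ} (hh : 0 ≤ h) (hh1 : h < 1) (hx : 0 ≤ x) (hx1 : x < 1) :
    HasSum (fun k : ℕ => (x - h) ^ 2 * (Gk h k x / (k + 1)))
      (-Real.log (1 - x) - -Real.log (1 - h) - (x - h) / (1 - h)) := by
  have ha := Real.hasSum_pow_div_log_of_abs_lt_one (x := x) (by rw [abs_of_nonneg hx]; exact hx1)
  have hb := Real.hasSum_pow_div_log_of_abs_lt_one (x := h) (by rw [abs_of_nonneg hh]; exact hh1)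
  have hc := (hasSum_geometric_of_lt_one hh hh1).mul_left (x - h)
  have h2 := (ha.sub hb).sub hc
  have e : (x - h) * (1 - h)⁻¹ = (x - h) / (1 - h) := by rw [div_eq_mul_inv]
  rw [e] at h2
  refine h2.congr_fun ?_
  intro k
  have h3 := Gk_eq h x k
  have hk : ((k : ℝ) + 1) ≠ 0 := by positivity
  rw [← mul_div_assoc, ← h3]
  field_simp

theorem M_nonneg {h x : ℝ} (hh : 0 ≤ h) (hh1 : h < 1) (hx : 0 ≤ x) (hx1 : x < 1) :
    0 ≤ -Real.log (1 - x) - -Real.log (1 - h) - (x - h) / (1 - h) :=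
  (hasSum_M hh hh1 hx hx1).nonneg (fun k => by
    have := Gk_nonneg hh hx k
    positivity)

theorem M_mono {h x x' : ℝ} (hh : 0 ≤ h) (hh1 : h < 1) (hx : 0 ≤ x) (hxx : x ≤ x') (hx1 : x' < 1) :
    (-Real.log (1 - x) - -Real.log (1 - h) - (x - h) / (1 - h)) * (x' - h) ^ 2 ≤
      (-Real.log (1 - x') - -Real.log (1 - h) - (x' - h) / (1 - h)) * (x - h) ^ 2 := by
  apply hasSum_le _ ((hasSum_M hh hh1 hx (lt_of_le_of_lt hxx hx1)).mul_right ((x' - h) ^ 2))
    ((hasSum_M hh hh1 (hx.trans hxx) hx1).mul_right ((x - h) ^ 2))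
  intro k
  have h1 := Gk_mono hh hx hxx k
  have h2 : Gk h k x / (k + 1) ≤ Gk h k x' / (k + 1) :=
    div_le_div_of_nonneg_right h1 (by positivity)
  have h3 : 0 ≤ (x - h) ^ 2 * (x' - h) ^ 2 := by positivity
  have h4 := mul_le_mul_of_nonneg_left h2 h3
  calc (x - h) ^ 2 * (Gk h k x / (k + 1)) * (x' - h) ^ 2 =
      (x - h) ^ 2 * (x' - h) ^ 2 * (Gk h k x / (k + 1)) := by ring
    _ ≤ (x - h) ^ 2 * (x' - h) ^ 2 * (Gk h k x' / (k + 1)) := h4
    _ = _ := by ring

theorem hasSum_tan {h y : ℝ} (hh : 0 ≤ h) (hh1 : h < Real.pi ^ 2) (hy : 0 ≤ y)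
    (hy1 : y < Real.pi ^ 2) :
    HasSum (fun n : ℕ => -Real.log (1 - y / PP n) - -Real.log (1 - h / PP n) -
      (y / PP n - h / PP n) / (1 - h / PP n)) (nu y - nu h - dnu h * (y - h)) := by
  have h1 := ((hasSum_nu hy hy1).sub (hasSum_nu hh hh1)).sub ((hasSum_dnu hh hh1).mul_right (y - h))
  refine h1.congr_fun ?_
  intro n
  have hp := PP_pos n
  have hp2 : 0 < PP n - h := by linarith [PP_ge n]
  have e : (y / PP n - h / PP n) / (1 - h / PP n) = 1 / (PP n - h) * (y - h) := by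
    have : 1 - h / PP n = (PP n - h) / PP n := by field_simp
    rw [this]
    field_simp
  rw [e]

/-- tangent inequality on the first lobe -/
theorem nu_tangent {h y : ℝ} (hh : 0 ≤ h) (hh1 : h < Real.pi ^ 2) (hy : 0 ≤ y)
    (hy1 : y < Real.pi ^ 2) : nu h + dnu h * (y - h) ≤ nu y := by
  have h1 := (hasSum_tan hh hh1 hy hy1).nonneg (fun n => by
    have hp := PP_pos n
    have hp2 := PP_ge n
    apply M_nonneg (by positivity) _ (by positivity) _
    · rw [div_lt_one hp]; linarith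
    · rw [div_lt_one hp]; linarith)
  linarith

/-- monotonicity of the second difference quotient -/
theorem nu_R_mono {h y y' : ℝ} (hh : 0 ≤ h) (hh1 : h < Real.pi ^ 2) (hy : 0 ≤ y) (hyy : y ≤ y')
    (hy1 : y' < Real.pi ^ 2) :
    (nu y - nu h - dnu h * (y - h)) * (y' - h) ^ 2 ≤
      (nu y' - nu h - dnu h * (y' - h)) * (y - h) ^ 2 := by
  apply hasSum_le _ ((hasSum_tan hh hh1 hy (lt_of_le_of_lt hyy hy1)).mul_right ((y' - h) ^ 2))
    ((hasSum_tan hh hh1 (hy.trans hyy) hy1).mul_right ((y - h) ^ 2))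
  intro n
  have hp := PP_pos n
  have hp2 := PP_ge n
  have h1 := M_mono (h := h / PP n) (x := y / PP n) (x' := y' / PP n) (by positivity)
    (by rw [div_lt_one hp]; linarith) (by positivity) (div_le_div_of_nonneg_right hyy hp.le)
    (by rw [div_lt_one hp]; linarith)
  have e1 : (y' / PP n - h / PP n) ^ 2 = (y' - h) ^ 2 / PP n ^ 2 := by
    rw [← sub_div, div_pow]
  have e2 : (y / PP n - h / PP n) ^ 2 = (y - h) ^ 2 / PP n ^ 2 := by
    rw [← sub_div, div_pow]
  rw [e1, e2, ← mul_div_assoc, ← mul_div_assoc, div_le_div_iff_of_pos_right (by positivity)] at h1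
  exact h1

theorem dnu_mono : MonotoneOn dnu (Ico 0 (Real.pi ^ 2)) := by
  intro x hx y hy hxy
  apply hasSum_le _ (hasSum_dnu hx.1 hx.2) (hasSum_dnu hy.1 hy.2)
  intro n
  have := PP_ge n
  apply one_div_le_one_div_of_le
  · linarith [hy.2]
  · linarith

theorem dnu_convex : ConvexOn ℝ (Ico 0 (Real.pi ^ 2)) dnu := by
  refine ⟨convex_Ico _ _, ?_⟩
  intro x hx y hy a b ha hb hab
  have hmem := (convex_Ico (0 : ℝ) (Real.pi ^ 2)) hx hy ha hb hab
  simp only [smul_eq_mul] at hmem ⊢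
  apply hasSum_le _ (hasSum_dnu hmem.1 hmem.2)
    (((hasSum_dnu hx.1 hx.2).mul_left a).add ((hasSum_dnu hy.1 hy.2).mul_left b))
  intro n
  have hp := PP_ge n
  have hu : 0 < PP n - x := by linarith [hx.2]
  have hv : 0 < PP n - y := by linarith [hy.2]
  have e : PP n - (a * x + b * y) = a * (PP n - x) + b * (PP n - y) := by
    have : PP n = (a + b) * PP n := by rw [hab, one_mul]
    nlinarith
  rw [e]
  obtain ⟨u, hue⟩ : ∃ u, PP n - x = u := ⟨_, rfl⟩
  obtain ⟨v, hve⟩ : ∃ v, PP n - y = v := ⟨_, rfl⟩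
  rw [hue] at hu ⊢
  rw [hve] at hv ⊢
  have hw : 0 < a * u + b * v := by
    rcases ha.eq_or_lt with h | h
    · rw [← h] at hab ⊢
      have : b = 1 := by linarith
      rw [this]; linarith
    · have := mul_pos h hu
      have := mul_nonneg hb hv.le
      linarith
  rw [mul_one_div, mul_one_div, div_add_div _ _ hu.ne' hv.ne', div_le_div_iff₀ hw (mul_pos hu hv)]
  have h1 : a * v + u * b = a * v + b * u := by ring
  rw [h1, one_mul]
  have h2 : (a * v + b * u) * (a * u + b * v) = u * v * (a + b) ^ 2 + a * b * (u - v) ^ 2 := by ring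
  rw [h2, hab]
  have : 0 ≤ a * b * (u - v) ^ 2 := by positivity
  linarith

theorem dnu_nonneg {y : ℝ} (h0 : 0 ≤ y) (h1 : y < Real.pi ^ 2) : 1 / 6 ≤ dnu y := by
  have := dnu_mono (Set.mem_Ico.2 ⟨le_rfl, by positivity⟩) (Set.mem_Ico.2 ⟨h0, h1⟩) h0
  rwa [dnu_zero] at this

theorem sin_sqrt_pos {y : ℝ} (h0 : 0 < y) (h1 : y < Real.pi ^ 2) : 0 < Real.sin (Real.sqrt y) := by
  apply Real.sin_pos_of_pos_of_lt_pi (Real.sqrt_pos.2 h0)
  rw [Real.sqrt_lt' Real.pi_pos]; exact h1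

theorem nu_hasDerivAt_lobe0 {y : ℝ} (h0 : 0 < y) (h1 : y < Real.pi ^ 2) :
    HasDerivAt nu (dnu y) y := nu_hasDerivAt h0 (sin_sqrt_pos h0 h1).ne'

/-- right derivative at `0` -/
theorem nu_hasDerivWithinAt_zero : HasDerivWithinAt nu (1 / 6) (Ici 0) 0 := by
  rw [hasDerivWithinAt_iff_isLittleO]
  simp only [nu_zero, sub_zero, smul_eq_mul]
  have hpi := Real.pi_gt_three
  have h1lt : (1 : ℝ) < Real.pi ^ 2 := by nlinarith
  -- 0 ≤ nu y - y/6 ≤ C y² for y ≤ 1
  set C := nu 1 - nu 0 - dnu 0 * (1 - 0) with hC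
  have hb : ∀ y : ℝ, 0 ≤ y → y ≤ 1 → 0 ≤ nu y - y * (1 / 6) ∧ nu y - y * (1 / 6) ≤ C * y ^ 2 := by
    intro y hy hy1
    have h1 := nu_tangent (h := 0) (y := y) le_rfl (by positivity) hy (by linarith)
    have h2 := nu_R_mono (h := 0) (y := y) (y' := 1) le_rfl (by positivity) hy hy1 h1lt
    rw [← hC] at h2
    rw [nu_zero, dnu_zero] at h1 h2
    constructor
    · linarith
    · simp only [sub_zero, one_pow, mul_one] at h2
      linarith
  rw [Asymptotics.isLittleO_iff]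
  intro c hc
  have hC0 : 0 ≤ C := by
    have := hb 1 zero_le_one le_rfl
    rw [one_pow, mul_one] at this
    linarith [this.1, this.2]
  have hev : ∀ᶠ y in 𝓝[≥] (0 : ℝ), y < min 1 (c / (C + 1)) := by
    apply Filter.Eventually.filter_mono nhdsWithin_le_nhds
    exact gt_mem_nhds (lt_min one_pos (by positivity))
  filter_upwards [hev, self_mem_nhdsWithin] with y hy hy0
  have hy0' : (0 : ℝ) ≤ y := hy0
  have hy1 : y ≤ 1 := (hy.trans_le (min_le_left _ _)).le
  have hy2 : y ≤ c / (C + 1) := (hy.trans_le (min_le_right _ _)).le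
  obtain ⟨h1, h2⟩ := hb y hy0' hy1
  rw [Real.norm_eq_abs, Real.norm_eq_abs, abs_of_nonneg h1, abs_of_nonneg hy0']
  refine h2.trans ?_
  have h3 : C * y ≤ c := by
    have : (C + 1) * y ≤ c := by
      rw [le_div_iff₀ (by positivity)] at hy2
      linarith
    linarith
  nlinarith

/-! ## higher lobes -/

/-- the derivative of `dnu` -/
theorem dnu_hasDerivAt {y : ℝ} (hy : 0 < y) (hs : Real.sin (Real.sqrt y) ≠ 0) :
    HasDerivAt dnu ((Real.sqrt y * Real.cos (Real.sqrt y) / Real.sin (Real.sqrt y) +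
      y / Real.sin (Real.sqrt y) ^ 2 - 2) / (4 * y ^ 2)) y := by
  have hz0 := Real.sqrt_pos.2 hy
  have hz : Real.sqrt y ≠ 0 := hz0.ne'
  have h1 : HasDerivAt Real.sqrt (1 / (2 * Real.sqrt y)) y := Real.hasDerivAt_sqrt hy.ne'
  have h2 := (((h1.fun_mul h1.cos).fun_div h1.sin hs).const_sub 1).fun_div
    ((hasDerivAt_id y).const_mul 2) (by simpa using hy.ne')
  have h3 : HasDerivAt dnu _ y := h2.congr_of_eventuallyEq (by
    filter_upwards [eventually_ne_nhds hy.ne'] with x hx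
    simp only [dnu, if_neg hx, id])
  refine h3.congr_deriv ?_
  simp only [id]
  have hyy : y = Real.sqrt y ^ 2 := (Real.sq_sqrt hy.le).symm
  obtain ⟨z, hze⟩ : ∃ z, Real.sqrt y = z := ⟨_, rfl⟩
  rw [hze] at hz hs hyy ⊢
  rw [hyy]
  have hc : Real.cos z ^ 2 = 1 - Real.sin z ^ 2 := by
    have := Real.sin_sq_add_cos_sq z
    linarith
  field_simp
  rw [hc]
  ring

theorem sin_sqrt_lobe {k : ℕ} {y : ℝ} (h0 : (k * Real.pi) ^ 2 < y)
    (h1 : y < ((k + 1) * Real.pi) ^ 2) : Real.sin (Real.sqrt y) ≠ 0 := by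
  have hpi := Real.pi_pos
  have hk : (0 : ℝ) ≤ k := Nat.cast_nonneg k
  have hz1 : k * Real.pi < Real.sqrt y := Real.lt_sqrt_of_sq_lt h0
  have hz2 : Real.sqrt y < (k + 1) * Real.pi := by
    rw [Real.sqrt_lt' (by positivity)]; exact h1
  intro hs
  rw [Real.sin_eq_zero_iff] at hs
  obtain ⟨n, hn⟩ := hs
  rw [← hn] at hz1 hz2
  have a1 : (k : ℝ) < n := lt_of_mul_lt_mul_right hz1 hpi.le
  have a2 : (n : ℝ) < k + 1 := lt_of_mul_lt_mul_right hz2 hpi.le
  have b1 : (k : ℤ) < n := by exact_mod_cast a1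
  have b2 : n < (k : ℤ) + 1 := by exact_mod_cast a2
  omega

theorem dnu_mono_lobe {k : ℕ} (hk : 1 ≤ k) :
    MonotoneOn dnu (Ioo ((k * Real.pi) ^ 2) (((k + 1) * Real.pi) ^ 2)) := by
  have hpi := Real.pi_gt_three
  have hk1 : (1 : ℝ) ≤ k := by exact_mod_cast hk
  have hlow : (9 : ℝ) ≤ (k * Real.pi) ^ 2 := by
    have : 3 ≤ k * Real.pi := by nlinarith
    nlinarith
  have hd : ∀ y ∈ Ioo ((k * Real.pi) ^ 2) (((k + 1) * Real.pi) ^ 2),
      HasDerivAt dnu ((Real.sqrt y * Real.cos (Real.sqrt y) / Real.sin (Real.sqrt y) +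
      y / Real.sin (Real.sqrt y) ^ 2 - 2) / (4 * y ^ 2)) y := by
    intro y hy
    exact dnu_hasDerivAt (by linarith [hy.1]) (sin_sqrt_lobe hy.1 hy.2)
  apply monotoneOn_of_deriv_nonneg (convex_Ioo _ _)
  · exact fun y hy => (hd y hy).continuousAt.continuousWithinAt
  · intro y hy
    rw [interior_Ioo] at hy
    exact (hd y hy).differentiableAt.differentiableWithinAt
  · intro y hy
    rw [interior_Ioo] at hy
    rw [(hd y hy).deriv]
    have hy9 : 9 < y := by linarith [hy.1]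
    have hs := sin_sqrt_lobe hy.1 hy.2
    apply div_nonneg _ (by positivity)
    have hyy : y = Real.sqrt y ^ 2 := (Real.sq_sqrt (by linarith)).symm
    obtain ⟨z, hze⟩ : ∃ z, Real.sqrt y = z := ⟨_, rfl⟩
    rw [hze] at hs hyy ⊢
    obtain ⟨w, hw⟩ : ∃ w, z * Real.cos z / Real.sin z = w := ⟨_, rfl⟩
    have e : y / Real.sin z ^ 2 = y + w ^ 2 := by
      rw [← hw, hyy]
      have hc : Real.cos z ^ 2 = 1 - Real.sin z ^ 2 := by
        have := Real.sin_sq_add_cos_sq z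
        linarith
      rw [div_pow, mul_pow, hc]
      field_simp
      ring
    rw [hw, e]
    nlinarith [sq_nonneg (w + 1 / 2)]

theorem nu_convex_lobe {k : ℕ} (hk : 1 ≤ k) :
    ConvexOn ℝ (Ioo ((k * Real.pi) ^ 2) (((k + 1) * Real.pi) ^ 2)) nu := by
  have hpos : ∀ y ∈ Ioo (((k : ℝ) * Real.pi) ^ 2) (((k + 1) * Real.pi) ^ 2), 0 < y := by
    intro y hy
    exact lt_of_le_of_lt (sq_nonneg _) hy.1
  have hd : ∀ y ∈ Ioo (((k : ℝ) * Real.pi) ^ 2) (((k + 1) * Real.pi) ^ 2),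
      HasDerivAt nu (dnu y) y := fun y hy => nu_hasDerivAt (hpos y hy) (sin_sqrt_lobe hy.1 hy.2)
  apply MonotoneOn.convexOn_of_deriv (convex_Ioo _ _)
  · exact fun y hy => (hd y hy).continuousAt.continuousWithinAt
  · intro y hy
    rw [interior_Ioo] at hy
    exact (hd y hy).differentiableAt.differentiableWithinAt
  · rw [interior_Ioo]
    intro x hx y hy hxy
    rw [(hd x hx).deriv, (hd y hy).deriv]
    exact dnu_mono_lobe hk hx hy hxy

/-- tangent inequality on a higher lobe -/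
theorem nu_tangent_lobe {k : ℕ} (hk : 1 ≤ k) {h y : ℝ}
    (hh : h ∈ Ioo (((k : ℝ) * Real.pi) ^ 2) (((k + 1) * Real.pi) ^ 2))
    (hy : y ∈ Ioo (((k : ℝ) * Real.pi) ^ 2) (((k + 1) * Real.pi) ^ 2)) :
    nu h + dnu h * (y - h) ≤ nu y := by
  have hpos : 0 < h := lt_of_le_of_lt (sq_nonneg _) hh.1
  have hd := nu_hasDerivAt hpos (sin_sqrt_lobe hh.1 hh.2)
  have hc := nu_convex_lobe hk
  rcases lt_trichotomy y h with h1 | h1 | h1
  · have := hc.slope_le_of_hasDerivAt hy hh h1 hd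
    rw [slope_def_field, div_le_iff₀ (by linarith)] at this
    linarith
  · rw [h1]; simp
  · have := hc.le_slope_of_hasDerivAt hh hy h1 hd
    rw [slope_def_field, le_div_iff₀ (by linarith)] at this
    linarith

end Pool.Agent.H60.SL
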