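import Pool.Agent.H60.SL.CkT
import Pool.Agent.H60.SL.CkTab
import Pool.Agent.H60.SL.CkTay
import Pool.Agent.H60.SL.Nu

set_option autoImplicit false

open Set

namespace Pool.Agent.H60.SL.Ck

/-- second derivative of `nu` -/
noncomputable def ddnu (y : ℝ) : ℝ :=
  if y = 0 then 1 / 90 else (Real.sqrt y * Real.cos (Real.sqrt y) / Real.sin (Real.sqrt y) +
      y / Real.sin (Real.sqrt y) ^ 2 - 2) / (4 * y ^ 2)

theorem ddnu_zero : ddnu 0 = 1 / 90 := by simp [ddnu]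

theorem dnu_hasDerivAt' {y : ℝ} (hy : 0 < y) (hs : Real.sin (Real.sqrt y) ≠ 0) :
    HasDerivAt dnu (ddnu y) y := by
  rw [ddnu, if_neg hy.ne']
  exact dnu_hasDerivAt hy hs

theorem nu_of_abs {z a σ : ℝ} (hz : 0 < z) (hσ : σ = 1 ∨ σ = -1) (ha : a = σ * Real.sin z) :
    nu (z ^ 2) = -Real.log (a / z) := by
  rw [nu_sq hz.le, Real.sinc_of_ne_zero hz.ne', ha]
  rcases hσ with h | h
  · rw [h, one_mul]
  · rw [h, neg_one_mul, neg_div, Real.log_neg_eq_log]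

theorem dnu_of_abs {z a κ σ : ℝ} (hz : 0 < z) (hσ : σ = 1 ∨ σ = -1) (ha : a = σ * Real.sin z)
    (hκ : κ = σ * Real.cos z) (ha0 : 0 < a) :
    dnu (z ^ 2) = (a - z * κ) / (2 * z ^ 2 * a) := by
  have hs : Real.sin z ≠ 0 := by
    intro h; rw [h, mul_zero] at ha; exact ha0.ne' ha
  have hσ0 : σ ≠ 0 := by rcases hσ with h | h <;> rw [h] <;> norm_num
  rw [dnu, if_neg (by positivity), Real.sqrt_sq hz.le, ha, hκ]
  field_simp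

theorem ddnu_of {z : ℝ} (hz : 0 < z) :
    ddnu (z ^ 2) / 2 = (z * Real.cos z / Real.sin z + z ^ 2 / Real.sin z ^ 2 - 2) / (8 * z ^ 4) := by
  rw [ddnu, if_neg (by positivity), Real.sqrt_sq hz.le, div_div]
  congr 1
  ring

/-- soundness of the conditions at one node -/
theorem node_sound {b J : ℕ} (hJ : 1 ≤ J) {σ : ℝ} (hσ : σ = 1 ∨ σ = -1) {D W s c : ℤ}
    (ha1 : (s : ℝ) ≤ 2 ^ 96 * (σ * Real.sin ((J : ℝ) / 2 ^ b)))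
    (ha2 : 2 ^ 96 * (σ * Real.sin ((J : ℝ) / 2 ^ b)) ≤ s + 2)
    (hc1 : (c : ℝ) ≤ 2 ^ 96 * (σ * Real.cos ((J : ℝ) / 2 ^ b)))
    (hc2 : 2 ^ 96 * (σ * Real.cos ((J : ℝ) / 2 ^ b)) ≤ c + 2)
    (h1 : chkD b J D s c = true) (h2 : chkV b J W s = true) :
    (D : ℝ) ≤ 2 ^ 48 * dnu (((J : ℝ) / 2 ^ b) ^ 2) ∧ 2 ^ 48 * dnu (((J : ℝ) / 2 ^ b) ^ 2) ≤ D + 2 ∧
    (W : ℝ) + 2 ^ 36 ≤ 2 ^ 72 * nu (((J : ℝ) / 2 ^ b) ^ 2) ∧
    2 ^ 72 * nu (((J : ℝ) / 2 ^ b) ^ 2) ≤ W + 2 ^ 39 := by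
  have hJ' : (0 : ℝ) < J := by exact_mod_cast hJ
  have hz : 0 < (J : ℝ) / 2 ^ b := by positivity
  obtain ⟨ha, d1, d2⟩ := chkD_sound hJ ha1 ha2 hc1 hc2 h1
  obtain ⟨v1, v2⟩ := chkV_sound hJ ha ha1 ha2 h2
  rw [nu_of_abs hz hσ rfl, dnu_of_abs hz hσ rfl rfl ha]
  exact ⟨d1, d2, v1, v2⟩

/-! ## first table -/

theorem chk1_all {J : ℕ} (h0 : 1 ≤ J) (h1 : J ≤ 790) : chk1 J = true := by
  have h := allB_iff.1 chk1_ok (J - 1) (by omega)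
  rwa [Nat.sub_add_cancel h0] at h

theorem p8 (J : ℕ) : (J : ℝ) / 2 ^ 8 = (J : ℝ) / 256 := by norm_num
theorem p5 (J : ℕ) : (J : ℝ) / 2 ^ 5 = (J : ℝ) / 32 := by norm_num

theorem spec1 {J : ℕ} (h0 : 1 ≤ J) (h1 : J ≤ 790) :
    (t1D J : ℝ) ≤ 2 ^ 48 * dnu (((J : ℝ) / 256) ^ 2) ∧ 2 ^ 48 * dnu (((J : ℝ) / 256) ^ 2) ≤ t1D J + 2 ∧
    (t1D J : ℝ) * (256 * J ^ 2) - t1F J + 2 ^ 36 ≤ 2 ^ 72 * nu (((J : ℝ) / 256) ^ 2) ∧
    2 ^ 72 * nu (((J : ℝ) / 256) ^ 2) ≤ (t1D J : ℝ) * (256 * J ^ 2) - t1F J + 2 ^ 39 ∧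
    (t1M J : ℝ) ≤ 2 ^ 24 * (ddnu (((J : ℝ) / 256) ^ 2) / 2) ∧
    2 ^ 24 * (ddnu (((J : ℝ) / 256) ^ 2) / 2) ≤ t1M J + 2 := by
  have h := chk1_all h0 h1
  rw [chk1, chk1', Bool.and_eq_true, Bool.and_eq_true] at h
  obtain ⟨⟨hD, hV⟩, hM⟩ := h
  obtain ⟨s1, s2⟩ := sin1 h1
  obtain ⟨c1, c2⟩ := cos1 h1
  have hJ' : (0 : ℝ) < J := by exact_mod_cast h0
  have hz : 0 < (J : ℝ) / 2 ^ 8 := by positivity
  have hs1 : (1 : ℝ) ≤ sinv J 8 21 := by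
    rw [chkD, Bool.and_eq_true, Bool.and_eq_true, Bool.and_eq_true, Bool.and_eq_true] at hD
    have := le_real hD.1.1.1.1
    simpa using this
  have hn := node_sound (b := 8) h0 (Or.inl rfl : (1 : ℝ) = 1 ∨ (1 : ℝ) = -1)
    (by rw [one_mul]; exact s1) (by rw [one_mul]; exact s2) (by rw [one_mul]; exact c1)
    (by rw [one_mul]; exact c2) hD hV
  obtain ⟨m1, m2⟩ := chkM_sound (M := t1M J) h0 hs1 s1 s2 c1 c2 (Real.sin_le_one _)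
    (Real.abs_cos_le_one _) hM
  have e := ddnu_of hz
  rw [← e] at m1 m2
  simp only [p8] at hn m1 m2
  obtain ⟨a1, a2, a3, a4⟩ := hn
  have eW : ((Int.ofNat (t1D J) * Int.ofNat (256 * J ^ 2) - Int.ofNat (t1F J) : ℤ) : ℝ) =
      (t1D J : ℝ) * (256 * J ^ 2) - t1F J := by
    simp only [Int.ofNat_eq_natCast]
    push_cast
    ring
  have eD : ((Int.ofNat (t1D J) : ℤ) : ℝ) = t1D J := by simp
  rw [eW] at a3 a4
  rw [eD] at a1 a2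
  exact ⟨a1, a2, a3, a4, m1, m2⟩

theorem spec0 : (t1D 0 : ℝ) ≤ 2 ^ 48 * dnu 0 ∧ 2 ^ 48 * dnu 0 ≤ t1D 0 + 2 ∧ t1F 0 = 0 ∧
    (t1M 0 : ℝ) ≤ 2 ^ 24 * (ddnu 0 / 2) ∧ 2 ^ 24 * (ddnu 0 / 2) ≤ t1M 0 + 2 := by
  have h := chk0_ok
  rw [chk0, Bool.and_eq_true, Bool.and_eq_true, Bool.and_eq_true, Bool.and_eq_true, Nat.ble_eq,
    Nat.ble_eq, Nat.ble_eq, Nat.ble_eq] at h
  obtain ⟨⟨⟨⟨h1, h2⟩, h3⟩, h4⟩, h5⟩ := h
  have h1' : (6 : ℝ) * t1D 0 ≤ 2 ^ 48 := by exact_mod_cast h1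
  have h2' : (2 : ℝ) ^ 48 ≤ 6 * (t1D 0 + 2) := by exact_mod_cast h2
  have h4' : (180 : ℝ) * t1M 0 ≤ 2 ^ 24 := by exact_mod_cast h4
  have h5' : (2 : ℝ) ^ 24 ≤ 180 * (t1M 0 + 2) := by exact_mod_cast h5
  rw [dnu_zero, ddnu_zero]
  refine ⟨by linarith, by linarith, Nat.eq_of_beq_eq_true h3, by linarith, by linarith⟩

/-- all slopes -/
theorem T1_slope {J : ℕ} (h : J ≤ 790) :
    (t1D J : ℝ) ≤ 2 ^ 48 * dnu (((J : ℝ) / 256) ^ 2) ∧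
    2 ^ 48 * dnu (((J : ℝ) / 256) ^ 2) ≤ t1D J + 2 := by
  rcases Nat.eq_zero_or_pos J with h0 | h0
  · subst h0
    have := spec0
    simp only [Nat.cast_zero, zero_div, ne_eq, OfNat.ofNat_ne_zero, not_false_eq_true, zero_pow]
    exact ⟨this.1, this.2.1⟩
  · have := spec1 h0 h
    exact ⟨this.1, this.2.1⟩

theorem T1_second {J : ℕ} (h : J ≤ 790) :
    (t1M J : ℝ) ≤ 2 ^ 24 * (ddnu (((J : ℝ) / 256) ^ 2) / 2) ∧
    2 ^ 24 * (ddnu (((J : ℝ) / 256) ^ 2) / 2) ≤ t1M J + 2 := by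
  rcases Nat.eq_zero_or_pos J with h0 | h0
  · subst h0
    have := spec0
    simp only [Nat.cast_zero, zero_div, ne_eq, OfNat.ofNat_ne_zero, not_false_eq_true, zero_pow]
    exact ⟨this.2.2.2.1, this.2.2.2.2⟩
  · have := spec1 h0 h
    exact ⟨this.2.2.2.2.1, this.2.2.2.2.2⟩

/-- value at a node -/
theorem T1_value {J : ℕ} (h : J ≤ 790) :
    (t1D J : ℝ) * (256 * J ^ 2) - t1F J ≤ 2 ^ 72 * nu (((J : ℝ) / 256) ^ 2) ∧
    2 ^ 72 * nu (((J : ℝ) / 256) ^ 2) ≤ (t1D J : ℝ) * (256 * J ^ 2) - t1F J + 2 ^ 39 := by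
  rcases Nat.eq_zero_or_pos J with h0 | h0
  · subst h0
    have := spec0.2.2.1
    rw [this]
    simp only [Nat.cast_zero, zero_div, ne_eq, OfNat.ofNat_ne_zero, not_false_eq_true, zero_pow, nu_zero]
    norm_num
  · have := spec1 h0 h
    constructor
    · have h3 : (0 : ℝ) ≤ 2 ^ 36 := by positivity
      linarith [this.2.2.1]
    · exact this.2.2.2.1

/-- the tangent line in integer form -/
theorem T1_line {J : ℕ} (h : J ≤ 790) {Y : ℝ} (hY0 : 0 ≤ Y) (hY : Y ≤ 2 ^ 28) :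
    (t1D J : ℝ) * Y - t1F J ≤ 2 ^ 72 * (nu (((J : ℝ) / 256) ^ 2) +
      dnu (((J : ℝ) / 256) ^ 2) * (Y / 2 ^ 24 - ((J : ℝ) / 256) ^ 2)) ∧
    2 ^ 72 * (nu (((J : ℝ) / 256) ^ 2) +
      dnu (((J : ℝ) / 256) ^ 2) * (Y / 2 ^ 24 - ((J : ℝ) / 256) ^ 2)) ≤
      (t1D J : ℝ) * Y - t1F J + 2 ^ 40 := by
  obtain ⟨s1, s2⟩ := T1_slope h
  have e : 2 ^ 72 * (nu (((J : ℝ) / 256) ^ 2) +
      dnu (((J : ℝ) / 256) ^ 2) * (Y / 2 ^ 24 - ((J : ℝ) / 256) ^ 2)) =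
      2 ^ 72 * nu (((J : ℝ) / 256) ^ 2) + (2 ^ 48 * dnu (((J : ℝ) / 256) ^ 2)) * (Y - 256 * J ^ 2) := by
    ring
  rw [e]
  have hJ : (J : ℝ) ≤ 790 := by exact_mod_cast h
  have hJ0 : (0 : ℝ) ≤ J := Nat.cast_nonneg J
  have hYh : 256 * (J : ℝ) ^ 2 ≤ 2 ^ 28 := by nlinarith
  have hYh0 : 0 ≤ 256 * (J : ℝ) ^ 2 := by positivity
  set S := 2 ^ 48 * dnu (((J : ℝ) / 256) ^ 2) with hS
  set Yh := 256 * (J : ℝ) ^ 2 with hYh'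
  set D := (t1D J : ℝ) with hD
  rcases Nat.eq_zero_or_pos J with h0 | h0
  · have hf := spec0.2.2.1
    have hYz : Yh = 0 := by rw [hYh', h0]; norm_num
    have hn : nu (((J : ℝ) / 256) ^ 2) = 0 := by rw [h0]; simp [nu_zero]
    have hF : (t1F J : ℝ) = 0 := by rw [h0, hf]; simp
    rw [hYz, hn, hF]
    constructor
    · nlinarith
    · nlinarith
  · obtain ⟨_, _, v1, v2, _, _⟩ := spec1 h0 h
    rw [← hYh', ← hD] at v1 v2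
    rcases le_total Yh Y with hle | hle
    · have a1 : D * (Y - Yh) ≤ S * (Y - Yh) := mul_le_mul_of_nonneg_right s1 (by linarith)
      have a2 : S * (Y - Yh) ≤ (D + 2) * (Y - Yh) := mul_le_mul_of_nonneg_right s2 (by linarith)
      norm_num at v1 v2 hY ⊢
      constructor
      · linarith
      · linarith
    · have a1 : S * (Yh - Y) ≤ (D + 2) * (Yh - Y) := mul_le_mul_of_nonneg_right s2 (by linarith)
      have a2 : D * (Yh - Y) ≤ S * (Yh - Y) := mul_le_mul_of_nonneg_right s1 (by linarith)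
      norm_num at v1 v2 hYh ⊢
      constructor
      · linarith
      · linarith

/-! ## second table -/

/-- the ranges of nodes in the lobes -/
def RL : ℕ → ℕ
  | 1 => 103 | 2 => 203 | 3 => 304 | 4 => 404 | 5 => 505 | _ => 605
def RH : ℕ → ℕ
  | 1 => 199 | 2 => 300 | 3 => 400 | 4 => 501 | 5 => 601 | _ => 702

theorem node_odd {J : ℕ} (h0 : 1 ≤ J) (h1 : J ≤ 702) (h : chk2o J = true) :
    (t2D J : ℝ) ≤ 2 ^ 48 * dnu (((J : ℝ) / 32) ^ 2) ∧ 2 ^ 48 * dnu (((J : ℝ) / 32) ^ 2) ≤ t2D J + 2 ∧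
    (t2D J : ℝ) * (16384 * J ^ 2) - t2F J + 2 ^ 36 ≤ 2 ^ 72 * nu (((J : ℝ) / 32) ^ 2) ∧
    2 ^ 72 * nu (((J : ℝ) / 32) ^ 2) ≤ (t2D J : ℝ) * (16384 * J ^ 2) - t2F J + 2 ^ 39 := by
  rw [chk2o, chk2', Bool.and_eq_true] at h
  obtain ⟨hD, hV⟩ := h
  obtain ⟨s1, s2⟩ := sin2 h1
  obtain ⟨c1, c2⟩ := cos2 h1
  have hn := node_sound (b := 5) h0 (Or.inr rfl : (-1 : ℝ) = 1 ∨ (-1 : ℝ) = -1)
    (by push_cast; linarith) (by push_cast; linarith) (by push_cast; linarith)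
    (by push_cast; linarith) hD hV
  simp only [p5] at hn
  obtain ⟨a1, a2, a3, a4⟩ := hn
  have eW : ((t2D J * Int.ofNat (16384 * J ^ 2) - t2F J : ℤ) : ℝ) =
      (t2D J : ℝ) * (16384 * J ^ 2) - t2F J := by
    simp only [Int.ofNat_eq_natCast]
    push_cast
    ring
  rw [eW] at a3 a4
  exact ⟨a1, a2, a3, a4⟩

theorem node_even {J : ℕ} (h0 : 1 ≤ J) (h1 : J ≤ 702) (h : chk2e J = true) :
    (t2D J : ℝ) ≤ 2 ^ 48 * dnu (((J : ℝ) / 32) ^ 2) ∧ 2 ^ 48 * dnu (((J : ℝ) / 32) ^ 2) ≤ t2D J + 2 ∧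
    (t2D J : ℝ) * (16384 * J ^ 2) - t2F J + 2 ^ 36 ≤ 2 ^ 72 * nu (((J : ℝ) / 32) ^ 2) ∧
    2 ^ 72 * nu (((J : ℝ) / 32) ^ 2) ≤ (t2D J : ℝ) * (16384 * J ^ 2) - t2F J + 2 ^ 39 := by
  rw [chk2e, chk2', Bool.and_eq_true] at h
  obtain ⟨hD, hV⟩ := h
  obtain ⟨s1, s2⟩ := sin2 h1
  obtain ⟨c1, c2⟩ := cos2 h1
  have hn := node_sound (b := 5) h0 (Or.inl rfl : (1 : ℝ) = 1 ∨ (1 : ℝ) = -1)
    (by rw [one_mul]; exact s1) (by rw [one_mul]; exact s2) (by rw [one_mul]; exact c1)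
    (by rw [one_mul]; exact c2) hD hV
  simp only [p5] at hn
  obtain ⟨a1, a2, a3, a4⟩ := hn
  have eW : ((t2D J * Int.ofNat (16384 * J ^ 2) - t2F J : ℤ) : ℝ) =
      (t2D J : ℝ) * (16384 * J ^ 2) - t2F J := by
    simp only [Int.ofNat_eq_natCast]
    push_cast
    ring
  rw [eW] at a3 a4
  exact ⟨a1, a2, a3, a4⟩

theorem chk2_all {L J : ℕ} (hL : 1 ≤ L) (hL6 : L ≤ 6) (h0 : RL L ≤ J) (h1 : J ≤ RH L) :
    chk2o J = true ∨ chk2e J = true := by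
  interval_cases L <;> simp only [RL, RH] at h0 h1
  · left; have h := allB_iff.1 chk2_ok1 (J - 103) (by omega); rwa [Nat.sub_add_cancel h0] at h
  · right; have h := allB_iff.1 chk2_ok2 (J - 203) (by omega); rwa [Nat.sub_add_cancel h0] at h
  · left; have h := allB_iff.1 chk2_ok3 (J - 304) (by omega); rwa [Nat.sub_add_cancel h0] at h
  · right; have h := allB_iff.1 chk2_ok4 (J - 404) (by omega); rwa [Nat.sub_add_cancel h0] at h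
  · left; have h := allB_iff.1 chk2_ok5 (J - 505) (by omega); rwa [Nat.sub_add_cancel h0] at h
  · right; have h := allB_iff.1 chk2_ok6 (J - 605) (by omega); rwa [Nat.sub_add_cancel h0] at h

theorem RLRH {L J : ℕ} (hL : 1 ≤ L) (hL6 : L ≤ 6) (h0 : RL L ≤ J) (h1 : J ≤ RH L) :
    1 ≤ J ∧ J ≤ 702 := by
  interval_cases L <;> simp only [RL, RH] at h0 h1 <;> omega

theorem spec2 {L J : ℕ} (hL : 1 ≤ L) (hL6 : L ≤ 6) (h0 : RL L ≤ J) (h1 : J ≤ RH L) :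
    (t2D J : ℝ) ≤ 2 ^ 48 * dnu (((J : ℝ) / 32) ^ 2) ∧ 2 ^ 48 * dnu (((J : ℝ) / 32) ^ 2) ≤ t2D J + 2 ∧
    (t2D J : ℝ) * (16384 * J ^ 2) - t2F J + 2 ^ 36 ≤ 2 ^ 72 * nu (((J : ℝ) / 32) ^ 2) ∧
    2 ^ 72 * nu (((J : ℝ) / 32) ^ 2) ≤ (t2D J : ℝ) * (16384 * J ^ 2) - t2F J + 2 ^ 39 := by
  obtain ⟨a, b⟩ := RLRH hL hL6 h0 h1
  rcases chk2_all hL hL6 h0 h1 with h | h
  · exact node_odd a b h
  · exact node_even a b h

/-- the nodes lie in their lobes -/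
theorem node_lobe {L J : ℕ} (hL : 1 ≤ L) (hL6 : L ≤ 6) (h0 : RL L ≤ J) (h1 : J ≤ RH L) :
    ((J : ℝ) / 32) ^ 2 ∈ Ioo (((L : ℝ) * Real.pi) ^ 2) (((L + 1) * Real.pi) ^ 2) := by
  have p1 := Real.pi_gt_d6
  have p2 := Real.pi_lt_d6
  have h0' : ((RL L : ℕ) : ℝ) ≤ J := by exact_mod_cast h0
  have h1' : (J : ℝ) ≤ ((RH L : ℕ) : ℝ) := by exact_mod_cast h1
  have hJ : (0 : ℝ) ≤ J := Nat.cast_nonneg J
  have hL0 : (0 : ℝ) ≤ L := Nat.cast_nonneg L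
  constructor
  · apply pow_lt_pow_left₀ _ (by positivity) (by norm_num)
    interval_cases L <;> simp only [RL] at h0' <;> push_cast at h0' ⊢ <;> linarith
  · apply pow_lt_pow_left₀ _ (by positivity) (by norm_num)
    interval_cases L <;> simp only [RH] at h1' <;> push_cast at h1' ⊢ <;> linarith

/-- lower line on a lobe -/
theorem T2_line {L J : ℕ} (hL : 1 ≤ L) (hL6 : L ≤ 6) (h0 : RL L ≤ J) (h1 : J ≤ RH L) {Y : ℝ}
    (hY : Y / 2 ^ 24 ∈ Ioo (((L : ℝ) * Real.pi) ^ 2) (((L + 1) * Real.pi) ^ 2)) :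
    (t2D J : ℝ) * Y - t2F J ≤ 2 ^ 72 * nu (Y / 2 ^ 24) := by
  obtain ⟨s1, s2, v1, _⟩ := spec2 hL hL6 h0 h1
  have hn := node_lobe hL hL6 h0 h1
  have ht := nu_tangent_lobe hL hn hY
  have h72 := mul_le_mul_of_nonneg_left ht (by positivity : (0 : ℝ) ≤ 2 ^ 72)
  have e : 2 ^ 72 * (nu (((J : ℝ) / 32) ^ 2) + dnu (((J : ℝ) / 32) ^ 2) * (Y / 2 ^ 24 - ((J : ℝ) / 32) ^ 2)) =
      2 ^ 72 * nu (((J : ℝ) / 32) ^ 2) + (2 ^ 48 * dnu (((J : ℝ) / 32) ^ 2)) * (Y - 16384 * J ^ 2) := by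
    ring
  rw [e] at h72
  refine le_trans ?_ h72
  have p2 := Real.pi_lt_d6
  have hp := Real.pi_pos
  have hL6' : (L : ℝ) ≤ 6 := by exact_mod_cast hL6
  have hL0 : (0 : ℝ) ≤ L := Nat.cast_nonneg L
  have hmax : ((L + 1 : ℝ) * Real.pi) ^ 2 ≤ 2 ^ 9 := by
    have : (L + 1 : ℝ) * Real.pi ≤ 22 := by nlinarith
    have h3 := pow_le_pow_left₀ (by positivity) this 2
    refine h3.trans ?_
    norm_num
  have hY1 : Y ≤ 2 ^ 33 := by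
    have h3 := (hY.2.trans_le hmax).le
    rw [div_le_iff₀ (by positivity)] at h3
    refine h3.trans ?_
    norm_num
  have hY0 : 0 ≤ Y := by
    have h3 : 0 ≤ Y / 2 ^ 24 := (sq_nonneg _).trans hY.1.le
    have h4 : (0 : ℝ) < 2 ^ 24 := by positivity
    by_contra hc
    have := div_neg_of_neg_of_pos (not_le.1 hc) h4
    linarith
  have hJ702 : (J : ℝ) ≤ 702 := by exact_mod_cast (RLRH hL hL6 h0 h1).2
  have hJ0 : (0 : ℝ) ≤ J := Nat.cast_nonneg J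
  have hYh : 16384 * (J : ℝ) ^ 2 ≤ 2 ^ 33 := by nlinarith
  have hYh0 : 0 ≤ 16384 * (J : ℝ) ^ 2 := by positivity
  set S := 2 ^ 48 * dnu (((J : ℝ) / 32) ^ 2) with hS
  set Yh := 16384 * (J : ℝ) ^ 2 with hYh'
  set D := (t2D J : ℝ) with hD
  norm_num at v1 hY1 hYh ⊢
  rcases le_total Yh Y with hle | hle
  · have a1 : D * (Y - Yh) ≤ S * (Y - Yh) := mul_le_mul_of_nonneg_right s1 (by linarith)
    linarith
  · have a1 : S * (Yh - Y) ≤ (D + 2) * (Yh - Y) := mul_le_mul_of_nonneg_right s2 (by linarith)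
    linarith

end Pool.Agent.H60.SL.Ck
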