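import Pool.Agent.H60.SL.CkExp
import Pool.Agent.H60.SL.Env0

set_option autoImplicit false

open Set

namespace Pool.Agent.H60.SL.Ck

/-! ## alternating Taylor polynomials of `exp (-x)` -/

noncomputable def Gn (n : ℕ) (x : ℝ) : ℝ := ∑ k ∈ Finset.range n, (-1) ^ k * x ^ k / (k.factorial : ℝ)

theorem Gn_zero (n : ℕ) : Gn (n + 1) 0 = 1 := by
  unfold Gn
  rw [Finset.sum_range_succ']
  simp

theorem Gn_hasDerivAt (n : ℕ) (x : ℝ) : HasDerivAt (Gn (n + 1)) (-Gn n x) x := by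
  have e : Gn (n + 1) = fun x => (∑ k ∈ Finset.range n, (-1) ^ (k + 1) * x ^ (k + 1) /
      ((k + 1).factorial : ℝ)) + 1 := by
    ext x
    unfold Gn
    rw [Finset.sum_range_succ']
    simp
  rw [e]
  unfold Gn
  rw [← Finset.sum_neg_distrib]
  apply HasDerivAt.add_const
  apply HasDerivAt.fun_sum
  intro k _
  have h := ((hasDerivAt_pow (k + 1) x).const_mul ((-1 : ℝ) ^ (k + 1))).div_const ((k + 1).factorial : ℝ)
  refine h.congr_deriv ?_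
  rw [Nat.add_sub_cancel, Nat.factorial_succ]
  have h1 : (k.factorial : ℝ) ≠ 0 := by positivity
  have h2 : ((k : ℝ) + 1) ≠ 0 := by positivity
  push_cast
  field_simp
  ring

theorem Gn_env : ∀ n : ℕ, ∀ x : ℝ, 0 ≤ x → 0 ≤ (-1) ^ n * (Real.exp (-x) - Gn n x)
  | 0, x, _ => by
    simp only [pow_zero, one_mul, Gn, Finset.sum_range_zero, sub_zero]
    exact (Real.exp_pos _).le
  | n + 1, x, hx => by
    have hd : ∀ y : ℝ, HasDerivAt (fun y : ℝ => (-1 : ℝ) ^ (n + 1) * (Real.exp (-y) - Gn (n + 1) y))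
        ((-1 : ℝ) ^ n * (Real.exp (-y) - Gn n y)) y := by
      intro y
      have h1 : HasDerivAt (fun z : ℝ => Real.exp (-z)) (-Real.exp (-y)) y := by
        have := (hasDerivAt_neg y).exp
        refine this.congr_deriv ?_
        ring
      refine ((h1.sub (Gn_hasDerivAt n y)).const_mul ((-1 : ℝ) ^ (n + 1))).congr_deriv ?_
      ring
    refine nonneg_of_deriv hd ?_ (fun y hy => Gn_env n y hy) hx
    rw [Gn_zero]
    simp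

theorem taylL_le (u : ℕ) : (taylL u : ℝ) ≤ 120 * 2 ^ 360 * Real.exp (-((u : ℝ) / 2 ^ 72)) := by
  have h := Gn_env 6 ((u : ℝ) / 2 ^ 72) (by positivity)
  have e : (taylL u : ℝ) = 120 * 2 ^ 360 * Gn 6 ((u : ℝ) / 2 ^ 72) := by
    have e1 : taylL u = ((120 * 2 ^ 360 + 60 * u ^ 2 * 2 ^ 216 + 5 * u ^ 4 * 2 ^ 72 : ℕ) : ℤ) -
      ((120 * u * 2 ^ 288 + 20 * u ^ 3 * 2 ^ 144 + u ^ 5 : ℕ) : ℤ) := rfl
    rw [e1]
    unfold Gn
    simp only [Finset.sum_range_succ, Finset.sum_range_zero, Nat.factorial]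
    rw [Int.cast_sub, Int.cast_natCast, Int.cast_natCast]
    simp only [Nat.cast_add, Nat.cast_mul, Nat.cast_pow, Nat.cast_ofNat]
    have p1 : (2 : ℝ) ^ 144 = (2 ^ 72) ^ 2 := by rw [← pow_mul]
    have p2 : (2 : ℝ) ^ 216 = (2 ^ 72) ^ 3 := by rw [← pow_mul]
    have p3 : (2 : ℝ) ^ 288 = (2 ^ 72) ^ 4 := by rw [← pow_mul]
    have p4 : (2 : ℝ) ^ 360 = (2 ^ 72) ^ 5 := by rw [← pow_mul]
    rw [p1, p2, p3, p4]
    have hP : (2 : ℝ) ^ 72 ≠ 0 := by positivity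
    generalize (2 : ℝ) ^ 72 = P at hP ⊢
    push_cast
    field_simp
    ring
  rw [e]
  have : (-1 : ℝ) ^ 6 = 1 := by norm_num
  rw [this] at h
  apply mul_le_mul_of_nonneg_left _ (by positivity)
  linarith

theorem le_taylU (u : ℕ) : 720 * 2 ^ 432 * Real.exp (-((u : ℝ) / 2 ^ 72)) ≤ (taylU u : ℝ) := by
  have h := Gn_env 7 ((u : ℝ) / 2 ^ 72) (by positivity)
  have e : (taylU u : ℝ) = 720 * 2 ^ 432 * Gn 7 ((u : ℝ) / 2 ^ 72) := by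
    have e1 : taylU u = ((720 * 2 ^ 432 + 360 * u ^ 2 * 2 ^ 288 + 30 * u ^ 4 * 2 ^ 144 + u ^ 6 : ℕ) : ℤ) -
      ((720 * u * 2 ^ 360 + 120 * u ^ 3 * 2 ^ 216 + 6 * u ^ 5 * 2 ^ 72 : ℕ) : ℤ) := rfl
    rw [e1]
    unfold Gn
    simp only [Finset.sum_range_succ, Finset.sum_range_zero, Nat.factorial]
    rw [Int.cast_sub, Int.cast_natCast, Int.cast_natCast]
    simp only [Nat.cast_add, Nat.cast_mul, Nat.cast_pow, Nat.cast_ofNat]
    have p1 : (2 : ℝ) ^ 144 = (2 ^ 72) ^ 2 := by rw [← pow_mul]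
    have p2 : (2 : ℝ) ^ 216 = (2 ^ 72) ^ 3 := by rw [← pow_mul]
    have p3 : (2 : ℝ) ^ 288 = (2 ^ 72) ^ 4 := by rw [← pow_mul]
    have p4 : (2 : ℝ) ^ 360 = (2 ^ 72) ^ 5 := by rw [← pow_mul]
    have p5 : (2 : ℝ) ^ 432 = (2 ^ 72) ^ 6 := by rw [← pow_mul]
    rw [p1, p2, p3, p4, p5]
    have hP : (2 : ℝ) ^ 72 ≠ 0 := by positivity
    generalize (2 : ℝ) ^ 72 = P at hP ⊢
    push_cast
    field_simp
    ring
  rw [e]
  have : (-1 : ℝ) ^ 7 = -1 := by norm_num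
  rw [this] at h
  apply mul_le_mul_of_nonneg_left _ (by positivity)
  linarith

/-! ## value conditions -/

theorem chkVL_sound {b J V : ℕ} {s : ℤ} {a : ℝ} (hJ : 1 ≤ J) (ha2 : 2 ^ 96 * a ≤ s + 2)
    (h : chkVL b J V s = true) : a / ((J : ℝ) / 2 ^ b) ≤ Real.exp (-(V : ℝ) / 2 ^ 72) := by
  rw [chkVL, Bool.and_eq_true, Nat.ble_eq] at h
  obtain ⟨h1, h2⟩ := h
  have h3 := le_real h2
  have hJ' : (0 : ℝ) < J := by exact_mod_cast hJ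
  rw [exp_split]
  set i := V >>> 66
  set u := V % 73786976294838206464
  obtain ⟨e1, _⟩ := ex_bounds h1
  have e2 := taylL_le u
  have hE2 : 0 < Real.exp (-((u : ℝ) / 2 ^ 72)) := Real.exp_pos _
  have hE1 : 0 < Real.exp (-(i : ℝ) / 64) := Real.exp_pos _
  have e3 : (ex i : ℝ) * (taylL u : ℝ) ≤
      (2 ^ 60 * Real.exp (-(i : ℝ) / 64)) * (120 * 2 ^ 360 * Real.exp (-((u : ℝ) / 2 ^ 72))) := by
    calc (ex i : ℝ) * (taylL u : ℝ) ≤ (ex i : ℝ) * (120 * 2 ^ 360 * Real.exp (-((u : ℝ) / 2 ^ 72))) :=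
          mul_le_mul_of_nonneg_left e2 (Nat.cast_nonneg _)
      _ ≤ _ := mul_le_mul_of_nonneg_right e1 (by positivity)
  have e4 : (((s + 2) * Int.ofNat (2 ^ b * 2 ^ 60 * (120 * 2 ^ 360)) : ℤ) : ℝ) =
      ((s : ℝ) + 2) * (2 ^ b * 2 ^ 60 * (120 * 2 ^ 360)) := by
    rw [Int.cast_mul, Int.ofNat_eq_natCast, Int.cast_natCast]
    simp only [Nat.cast_mul, Nat.cast_pow, Nat.cast_ofNat, Int.cast_add, Int.cast_ofNat]
  have e5 : ((Int.ofNat (J * 2 ^ 96 * ex i) * taylL u : ℤ) : ℝ) =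
      (J : ℝ) * 2 ^ 96 * ((ex i : ℝ) * (taylL u : ℝ)) := by
    rw [Int.cast_mul, Int.ofNat_eq_natCast, Int.cast_natCast]
    simp only [Nat.cast_mul, Nat.cast_pow, Nat.cast_ofNat]
    rw [mul_assoc]
  rw [e4, e5] at h3
  have h4 : 2 ^ 96 * a * (2 ^ b * 2 ^ 60 * (120 * 2 ^ 360)) ≤
      (J : ℝ) * 2 ^ 96 * ((2 ^ 60 * Real.exp (-(i : ℝ) / 64)) *
        (120 * 2 ^ 360 * Real.exp (-((u : ℝ) / 2 ^ 72)))) := by
    calc 2 ^ 96 * a * (2 ^ b * 2 ^ 60 * (120 * 2 ^ 360)) ≤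
          ((s : ℝ) + 2) * (2 ^ b * 2 ^ 60 * (120 * 2 ^ 360)) :=
          mul_le_mul_of_nonneg_right ha2 (by positivity)
      _ ≤ _ := h3
      _ ≤ _ := mul_le_mul_of_nonneg_left e3 (by positivity)
  rw [div_div_eq_mul_div, div_le_iff₀ hJ']
  have h5 : (2 ^ 96 * 2 ^ 60 * (120 * 2 ^ 360)) * (a * 2 ^ b) ≤
      (2 ^ 96 * 2 ^ 60 * (120 * 2 ^ 360)) * (Real.exp (-(i : ℝ) / 64) *
        Real.exp (-((u : ℝ) / 2 ^ 72)) * J) := by
    calc _ = 2 ^ 96 * a * (2 ^ b * 2 ^ 60 * (120 * 2 ^ 360)) := by ring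
      _ ≤ _ := h4
      _ = _ := by ring
  exact le_of_mul_le_mul_left h5 (by positivity)

theorem chkVU_sound {b J V : ℕ} {s : ℤ} {a : ℝ} (hJ : 1 ≤ J) (ha1 : (s : ℝ) ≤ 2 ^ 96 * a)
    (h : chkVU b J V s = true) : Real.exp (-(V : ℝ) / 2 ^ 72) ≤ a / ((J : ℝ) / 2 ^ b) := by
  rw [chkVU, Bool.and_eq_true, Nat.ble_eq] at h
  obtain ⟨h1, h2⟩ := h
  have h3 := le_real h2
  have hJ' : (0 : ℝ) < J := by exact_mod_cast hJ
  rw [exp_split]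
  set i := V >>> 66
  set u := V % 73786976294838206464
  obtain ⟨_, e1⟩ := ex_bounds h1
  have e2 := le_taylU u
  have hE2 : 0 < Real.exp (-((u : ℝ) / 2 ^ 72)) := Real.exp_pos _
  have hE1 : 0 < Real.exp (-(i : ℝ) / 64) := Real.exp_pos _
  have e3 : (2 ^ 60 * Real.exp (-(i : ℝ) / 64)) * (720 * 2 ^ 432 * Real.exp (-((u : ℝ) / 2 ^ 72))) ≤
      ((ex i : ℝ) + 70) * (taylU u : ℝ) :=
    mul_le_mul e1 e2 (by positivity) (by positivity)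
  have e4 : ((s * Int.ofNat (2 ^ b * 2 ^ 60 * (720 * 2 ^ 432)) : ℤ) : ℝ) =
      (s : ℝ) * (2 ^ b * 2 ^ 60 * (720 * 2 ^ 432)) := by
    rw [Int.cast_mul, Int.ofNat_eq_natCast, Int.cast_natCast]
    simp only [Nat.cast_mul, Nat.cast_pow, Nat.cast_ofNat]
  have e5 : ((Int.ofNat (J * 2 ^ 96 * (ex i + 70)) * taylU u : ℤ) : ℝ) =
      (J : ℝ) * 2 ^ 96 * (((ex i : ℝ) + 70) * (taylU u : ℝ)) := by
    rw [Int.cast_mul, Int.ofNat_eq_natCast, Int.cast_natCast]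
    simp only [Nat.cast_mul, Nat.cast_pow, Nat.cast_ofNat, Nat.cast_add]
    rw [mul_assoc]
  rw [e4, e5] at h3
  have h4 : (J : ℝ) * 2 ^ 96 * ((2 ^ 60 * Real.exp (-(i : ℝ) / 64)) *
        (720 * 2 ^ 432 * Real.exp (-((u : ℝ) / 2 ^ 72)))) ≤
        2 ^ 96 * a * (2 ^ b * 2 ^ 60 * (720 * 2 ^ 432)) := by
    calc _ ≤ (J : ℝ) * 2 ^ 96 * (((ex i : ℝ) + 70) * (taylU u : ℝ)) :=
          mul_le_mul_of_nonneg_left e3 (by positivity)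
      _ ≤ _ := h3
      _ ≤ _ := mul_le_mul_of_nonneg_right ha1 (by positivity)
  rw [div_div_eq_mul_div, le_div_iff₀ hJ']
  have h5 : (2 ^ 96 * 2 ^ 60 * (720 * 2 ^ 432)) * (Real.exp (-(i : ℝ) / 64) *
        Real.exp (-((u : ℝ) / 2 ^ 72)) * J) ≤ (2 ^ 96 * 2 ^ 60 * (720 * 2 ^ 432)) * (a * 2 ^ b) := by
    calc _ = (J : ℝ) * 2 ^ 96 * ((2 ^ 60 * Real.exp (-(i : ℝ) / 64)) *
        (720 * 2 ^ 432 * Real.exp (-((u : ℝ) / 2 ^ 72)))) := by ring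
      _ ≤ _ := h4
      _ = _ := by ring
  exact le_of_mul_le_mul_left h5 (by positivity)

/-- the two value conditions -/
theorem chkV_sound {b J : ℕ} {W s : ℤ} {a : ℝ} (hJ : 1 ≤ J) (ha : 0 < a) (ha1 : (s : ℝ) ≤ 2 ^ 96 * a)
    (ha2 : 2 ^ 96 * a ≤ s + 2) (h : chkV b J W s = true) :
    (W : ℝ) + 2 ^ 36 ≤ 2 ^ 72 * (-Real.log (a / ((J : ℝ) / 2 ^ b))) ∧
    2 ^ 72 * (-Real.log (a / ((J : ℝ) / 2 ^ b))) ≤ (W : ℝ) + 2 ^ 39 := by
  rw [chkV, Bool.and_eq_true, Bool.and_eq_true, nn_iff] at h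
  obtain ⟨⟨h0, h1⟩, h2⟩ := h
  have hJ' : (0 : ℝ) < J := by exact_mod_cast hJ
  have hq : 0 < a / ((J : ℝ) / 2 ^ b) := by positivity
  have l1 := Real.log_le_log hq (chkVL_sound hJ ha2 h1)
  have l2 := Real.log_le_log (Real.exp_pos _) (chkVU_sound hJ ha1 h2)
  rw [Real.log_exp] at l1 l2
  have t1 : (W : ℝ) + 2 ^ 36 ≤ ((W + Int.ofNat (2 ^ 36)).toNat : ℝ) := by
    have := Int.self_le_toNat (W + Int.ofNat (2 ^ 36))
    have h3 : ((W + Int.ofNat (2 ^ 36) : ℤ) : ℝ) ≤ (((W + Int.ofNat (2 ^ 36)).toNat : ℤ) : ℝ) :=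
      Int.cast_le.2 this
    rw [Int.cast_natCast, Int.cast_add, Int.ofNat_eq_natCast, Int.cast_natCast, Nat.cast_pow,
      Nat.cast_ofNat] at h3
    exact h3
  have t2 : ((W + Int.ofNat (2 ^ 39)).toNat : ℝ) = (W : ℝ) + 2 ^ 39 := by
    have := Int.toNat_of_nonneg h0
    have h3 : (((W + Int.ofNat (2 ^ 39)).toNat : ℤ) : ℝ) = ((W + Int.ofNat (2 ^ 39) : ℤ) : ℝ) := by
      rw [this]
    rw [Int.cast_natCast] at h3
    rw [h3, Int.cast_add, Int.ofNat_eq_natCast, Int.cast_natCast, Nat.cast_pow, Nat.cast_ofNat]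
  have p72 : (0 : ℝ) < 2 ^ 72 := by positivity
  constructor
  · refine t1.trans ?_
    have := mul_le_mul_of_nonneg_left l1 p72.le
    rw [mul_div_cancel₀ _ p72.ne'] at this
    linarith
  · rw [← t2]
    have := mul_le_mul_of_nonneg_left l2 p72.le
    rw [mul_div_cancel₀ _ p72.ne'] at this
    linarith

/-! ## slope conditions -/

theorem chkD_sound {b J : ℕ} {D s c : ℤ} {a κ : ℝ} (hJ : 1 ≤ J) (ha1 : (s : ℝ) ≤ 2 ^ 96 * a)
    (ha2 : 2 ^ 96 * a ≤ s + 2) (hc1 : (c : ℝ) ≤ 2 ^ 96 * κ) (hc2 : 2 ^ 96 * κ ≤ c + 2)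
    (h : chkD b J D s c = true) :
    0 < a ∧
    (D : ℝ) ≤ 2 ^ 48 * ((a - (J : ℝ) / 2 ^ b * κ) / (2 * ((J : ℝ) / 2 ^ b) ^ 2 * a)) ∧
    2 ^ 48 * ((a - (J : ℝ) / 2 ^ b * κ) / (2 * ((J : ℝ) / 2 ^ b) ^ 2 * a)) ≤ (D : ℝ) + 2 := by
  rw [chkD, Bool.and_eq_true, Bool.and_eq_true, Bool.and_eq_true, Bool.and_eq_true] at h
  obtain ⟨⟨⟨⟨h0, hD1⟩, hD2⟩, h1⟩, h2⟩ := h
  have h0 := le_real h0
  have hD1 := le_real hD1
  have hD2 := le_real hD2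
  have h1 := le_real h1
  have h2 := le_real h2
  have hJ' : (0 : ℝ) < J := by exact_mod_cast hJ
  have q0 : (Int.neg (Int.ofNat (2 ^ 54)) : ℤ) = -(2 ^ 54 : ℤ) := rfl
  rw [q0] at hD2
  simp only [Int.ofNat_eq_natCast, Int.cast_mul, Int.cast_add, Int.cast_sub, Int.cast_neg, Int.cast_pow,
    Int.cast_natCast, Nat.cast_mul, Nat.cast_pow, Nat.cast_ofNat, Int.cast_one, Int.cast_ofNat]
    at h0 hD1 hD2 h1 h2
  have ha : 0 < a := by nlinarith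
  have pb : (0 : ℝ) < 2 ^ b := by positivity
  have e : 2 ^ 48 * ((a - (J : ℝ) / 2 ^ b * κ) / (2 * ((J : ℝ) / 2 ^ b) ^ 2 * a)) =
      2 ^ 48 * (2 ^ b * 2 ^ b * (2 ^ 96 * a) - 2 ^ b * J * (2 ^ 96 * κ)) / (2 * J ^ 2 * (2 ^ 96 * a)) := by
    field_simp
  rw [e]
  have hJ2 : (0 : ℝ) < 2 * (J : ℝ) ^ 2 := by positivity
  set A : ℝ := 2 ^ 96 * a with hA
  have hA0 : 0 < A := by positivity
  set K : ℝ := 2 ^ 96 * κ with hK
  refine ⟨ha, ?_, ?_⟩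
  · rw [le_div_iff₀ (by positivity)]
    have s1 : (D : ℝ) * (2 * J ^ 2 * A) ≤ D * (2 * J ^ 2) * s + 2 ^ 56 * J ^ 2 := by
      have : (D : ℝ) * (A - s) ≤ 2 ^ 54 * 2 := by
        rcases le_total 0 (D : ℝ) with hd | hd
        · calc (D : ℝ) * (A - s) ≤ 2 ^ 54 * (A - s) := mul_le_mul_of_nonneg_right hD1 (by linarith)
            _ ≤ 2 ^ 54 * 2 := by nlinarith
        · nlinarith
      have h5 := mul_le_mul_of_nonneg_left this hJ2.le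
      nlinarith
    have s2 : (2 : ℝ) ^ 48 * (2 ^ b * 2 ^ b * s - 2 ^ b * J * (c + 2)) ≤
        2 ^ 48 * (2 ^ b * 2 ^ b * A - 2 ^ b * J * K) := by
      have w1 : (2 : ℝ) ^ b * 2 ^ b * s ≤ 2 ^ b * 2 ^ b * A := mul_le_mul_of_nonneg_left ha1 (by positivity)
      have w2 : (2 : ℝ) ^ b * J * K ≤ 2 ^ b * J * (c + 2) := mul_le_mul_of_nonneg_left hc2 (by positivity)
      linarith
    linarith
  · rw [div_le_iff₀ (by positivity)]
    have s1 : (D + 2 : ℝ) * (2 * J ^ 2) * s - 2 ^ 57 * J ^ 2 ≤ (D + 2) * (2 * J ^ 2 * A) := by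
      have : -(2 ^ 54 * 2 : ℝ) ≤ (D + 2 : ℝ) * (A - s) := by
        rcases le_total 0 (D + 2 : ℝ) with hd | hd
        · have : 0 ≤ (D + 2 : ℝ) * (A - s) := mul_nonneg hd (by linarith)
          nlinarith
        · have h6 : -(2 ^ 54 : ℝ) ≤ D + 2 := by linarith
          calc -(2 ^ 54 * 2 : ℝ) ≤ -(2 ^ 54) * (A - s) := by nlinarith
            _ ≤ (D + 2 : ℝ) * (A - s) := mul_le_mul_of_nonneg_right h6 (by linarith)
      have h5 := mul_le_mul_of_nonneg_left this hJ2.le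
      nlinarith
    have s2 : 2 ^ 48 * (2 ^ b * 2 ^ b * A - 2 ^ b * J * K) ≤
        (2 : ℝ) ^ 48 * (2 ^ b * 2 ^ b * (s + 2) - 2 ^ b * J * c) := by
      have w1 : (2 : ℝ) ^ b * 2 ^ b * A ≤ 2 ^ b * 2 ^ b * (s + 2) := mul_le_mul_of_nonneg_left ha2 (by positivity)
      have w2 : (2 : ℝ) ^ b * J * c ≤ 2 ^ b * J * K := mul_le_mul_of_nonneg_left hc1 (by positivity)
      linarith
    linarith

/-! ## second derivative -/

theorem chkM_sound {J : ℕ} {s c : ℤ} {M : ℕ} {a κ : ℝ} (hJ : 1 ≤ J) (hs : (1 : ℝ) ≤ s)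
    (ha1 : (s : ℝ) ≤ 2 ^ 96 * a) (ha2 : 2 ^ 96 * a ≤ s + 2) (hc1 : (c : ℝ) ≤ 2 ^ 96 * κ)
    (hc2 : 2 ^ 96 * κ ≤ c + 2) (hal : a ≤ 1) (hκ : |κ| ≤ 1)
    (h : chkM J (Int.ofNat M) s c = true) :
    (M : ℝ) ≤ 2 ^ 24 * (((J : ℝ) / 2 ^ 8 * κ / a + ((J : ℝ) / 2 ^ 8) ^ 2 / a ^ 2 - 2) /
      (8 * ((J : ℝ) / 2 ^ 8) ^ 4)) ∧
    2 ^ 24 * (((J : ℝ) / 2 ^ 8 * κ / a + ((J : ℝ) / 2 ^ 8) ^ 2 / a ^ 2 - 2) /
      (8 * ((J : ℝ) / 2 ^ 8) ^ 4)) ≤ (M : ℝ) + 2 := by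
  rw [chkM, Bool.and_eq_true] at h
  obtain ⟨h1, h2⟩ := h
  have h1 := le_real h1
  have h2 := le_real h2
  have hJ' : (0 : ℝ) < J := by exact_mod_cast hJ
  simp only [Int.ofNat_eq_natCast, Int.cast_mul, Int.cast_add, Int.cast_sub, Int.cast_neg, Int.cast_pow,
    Int.cast_natCast, Nat.cast_mul, Nat.cast_pow, Nat.cast_ofNat, Int.cast_one, Int.cast_ofNat]
    at h1 h2
  have ha : 0 < a := by nlinarith
  set A : ℝ := 2 ^ 96 * a with hA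
  set K : ℝ := 2 ^ 96 * κ with hK
  have hA0 : 0 < A := by positivity
  have hA1 : A ≤ 2 ^ 96 := by rw [hA]; nlinarith
  obtain ⟨k1, k2⟩ := abs_le.1 hκ
  have hK1 : K ≤ 2 ^ 96 := by rw [hK]; nlinarith
  have hK2 : -2 ^ 96 ≤ K := by rw [hK]; nlinarith
  have e : 2 ^ 24 * (((J : ℝ) / 2 ^ 8 * κ / a + ((J : ℝ) / 2 ^ 8) ^ 2 / a ^ 2 - 2) /
      (8 * ((J : ℝ) / 2 ^ 8) ^ 4)) =
      2 ^ 24 * (2 ^ 24 * J * (A * K) + 2 ^ 208 * J ^ 2 - 2 ^ 33 * (A * A)) / (8 * J ^ 4 * (A * A)) := by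
    rw [hA, hK]
    field_simp
  rw [e]
  have hp1 : A * K - s * c ≤ 2 ^ 98 := by
    have w1 : (A - s) * K ≤ 2 * 2 ^ 96 := by
      calc (A - s) * K ≤ (A - s) * 2 ^ 96 := mul_le_mul_of_nonneg_left hK1 (by linarith)
        _ ≤ 2 * 2 ^ 96 := mul_le_mul_of_nonneg_right (by linarith) (by positivity)
    have w2 : s * (K - c) ≤ 2 ^ 96 * 2 :=
      mul_le_mul (by linarith) (by linarith) (by linarith) (by positivity)
    have : A * K - s * c = (A - s) * K + s * (K - c) := by ring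
    rw [this]
    norm_num at w1 w2 ⊢
    linarith
  have hp2 : -(2 ^ 98) ≤ A * K - s * c := by
    have w1 : -(2 * 2 ^ 96) ≤ (A - s) * K := by
      calc -(2 * 2 ^ 96) ≤ (A - s) * (-2 ^ 96) := by nlinarith
        _ ≤ (A - s) * K := mul_le_mul_of_nonneg_left hK2 (by linarith)
    have w2 : 0 ≤ s * (K - c) := mul_nonneg (by linarith) (by linarith)
    have : A * K - s * c = (A - s) * K + s * (K - c) := by ring
    rw [this]
    norm_num at w1 w2 ⊢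
    linarith
  have hsA : (s : ℝ) * s ≤ A * A := mul_le_mul ha1 ha1 (by linarith) hA0.le
  have hAs : A * A ≤ (s + 2) * (s + 2) := mul_le_mul ha2 ha2 hA0.le (by linarith)
  have hM0 : (0 : ℝ) ≤ M := Nat.cast_nonneg M
  have hJ4 : (0 : ℝ) < 8 * (J : ℝ) ^ 4 := by positivity
  have hq : (0 : ℝ) < 2 ^ 24 * (J : ℝ) := by positivity
  constructor
  · rw [le_div_iff₀ (by positivity)]
    have s1 : (M : ℝ) * (8 * J ^ 4 * (A * A)) ≤ M * (8 * J ^ 4) * ((s + 2) * (s + 2)) := by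
      rw [mul_assoc (M : ℝ) (8 * (J : ℝ) ^ 4)]
      exact mul_le_mul_of_nonneg_left (mul_le_mul_of_nonneg_left hAs hJ4.le) hM0
    have s2 : (2 : ℝ) ^ 24 * J * (s * c - 2 ^ 99) ≤ 2 ^ 24 * J * (A * K) :=
      mul_le_mul_of_nonneg_left (by norm_num at hp2 ⊢; linarith) hq.le
    refine s1.trans (h1.trans ?_)
    have : (0 : ℝ) < 2 ^ 24 := by positivity
    refine mul_le_mul_of_nonneg_left ?_ this.le
    have s3 : (2 : ℝ) ^ 33 * (A * A) ≤ 2 ^ 33 * ((s + 2) * (s + 2)) :=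
      mul_le_mul_of_nonneg_left hAs (by positivity)
    linarith
  · rw [div_le_iff₀ (by positivity)]
    have s1 : (M + 2 : ℝ) * (8 * J ^ 4) * (s * s) ≤ (M + 2) * (8 * J ^ 4 * (A * A)) := by
      rw [mul_assoc (M + 2 : ℝ) (8 * (J : ℝ) ^ 4)]
      exact mul_le_mul_of_nonneg_left (mul_le_mul_of_nonneg_left hsA hJ4.le) (by linarith)
    have s2 : (2 : ℝ) ^ 24 * J * (A * K) ≤ 2 ^ 24 * J * (s * c + 2 ^ 99) :=
      mul_le_mul_of_nonneg_left (by norm_num at hp1 ⊢; linarith) hq.le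
    refine le_trans ?_ (h2.trans s1)
    have : (0 : ℝ) < 2 ^ 24 := by positivity
    refine mul_le_mul_of_nonneg_left ?_ this.le
    have s3 : (2 : ℝ) ^ 33 * (s * s) ≤ 2 ^ 33 * (A * A) :=
      mul_le_mul_of_nonneg_left hsA (by positivity)
    linarith

end Pool.Agent.H60.SL.Ck
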