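import Pool.Agent.H60.SL.Assembly
import Pool.Agent.H60.SL.Conc

set_option autoImplicit false

open MeasureTheory Set Filter Topology

namespace Pool.Agent.H60.SL

open Pool.Agent.H64.Slab Pool.Agent.H60.Slab Pool.Agent.H60.Big

theorem clamp_ptr {t : ℝ} (ht : 0 ≤ t) (z : ℝ) :
    clamp t z = z - ptr 1 (z - t) + ptr 1 (-z - t) := by
  unfold clamp ptr
  simp only [pow_one, Nat.factorial_one, Nat.cast_one, div_one]
  rcases le_total z t with h5 | h5 <;> rcases le_total (-t) z with h6 | h6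
  · rw [max_eq_right (by linarith : z - t ≤ 0), max_eq_right (by linarith : -z - t ≤ 0),
      min_eq_left h5, max_eq_right h6]; ring
  · rw [max_eq_right (by linarith : z - t ≤ 0), max_eq_left (by linarith : 0 ≤ -z - t),
      min_eq_left h5, max_eq_left h6]; ring
  · rw [max_eq_left (by linarith : 0 ≤ z - t), max_eq_right (by linarith : -z - t ≤ 0),
      min_eq_right h5, max_eq_right (by linarith)]; ring
  · rw [max_eq_left (by linarith : 0 ≤ z - t), max_eq_left (by linarith : 0 ≤ -z - t),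
      min_eq_right h5]
    have : z = t := by linarith
    have ht0 : t = 0 := by linarith
    rw [this, ht0]; simp

/-- closed formula for the slab volume -/
theorem FV_formula {m : ℕ} (a : Fin (m + 1) → ℝ) (ha : ∀ j, 0 < a j) {t : ℝ} (ht : 0 ≤ t) :
    FV a t 0 = 2 ^ (m + 1) - 2 * ((∏ j, a j)⁻¹ * cdiff a (ptr (m + 1)) (-t)) := by
  rw [FV_zero_eq a 0 (ha 0) ht]
  simp only [clamp_ptr ht]
  have hc := ptr_continuous 1
  have i1 : Integrable (fun x' : Fin m → ℝ => a 0 + dot x' (fun j => a ((0 : Fin (m + 1)).succAbove j)))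
      (cubeM m) := integrable_cube_of_continuous (continuous_const.add (continuous_dot _))
  have i2 : Integrable (fun x' : Fin m → ℝ =>
      ptr 1 (a 0 + dot x' (fun j => a ((0 : Fin (m + 1)).succAbove j)) - t)) (cubeM m) :=
    integrable_cube_of_continuous
      (hc.comp ((continuous_const.add (continuous_dot _)).sub continuous_const))
  have i3 : Integrable (fun x' : Fin m → ℝ =>
      ptr 1 (-(a 0 + dot x' (fun j => a ((0 : Fin (m + 1)).succAbove j))) - t)) (cubeM m) :=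
    integrable_cube_of_continuous
      (hc.comp ((continuous_const.add (continuous_dot _)).neg.sub continuous_const))
  have i12 : Integrable (fun x' : Fin m → ℝ => a 0 + dot x' (fun j => a ((0 : Fin (m + 1)).succAbove j)) -
      ptr 1 (a 0 + dot x' (fun j => a ((0 : Fin (m + 1)).succAbove j)) - t)) (cubeM m) := i1.sub i2
  rw [integral_add i12 i3, integral_sub i1 i2]
  have e1 : ∫ x' : Fin m → ℝ, (a 0 + dot x' (fun j => a ((0 : Fin (m + 1)).succAbove j)))
      ∂(cubeM m) = 2 ^ m * a 0 := by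
    have := moment_cube m (fun j => a ((0 : Fin (m + 1)).succAbove j)) 1 0 (a 0)
    simp only [one_mul, zero_mul, add_zero] at this
    exact this
  have e2 : ∫ x' : Fin m → ℝ, ptr 1 (a 0 + dot x' (fun j => a ((0 : Fin (m + 1)).succAbove j)) - t)
      ∂(cubeM m) = WW (fun j => a j.succ) 1 (-t + a 0) := by
    unfold WW
    congr 1
    ext x'
    simp only [Fin.zero_succAbove]
    congr 1
    ring
  have e3 : ∫ x' : Fin m → ℝ, ptr 1 (-(a 0 + dot x' (fun j => a ((0 : Fin (m + 1)).succAbove j))) - t)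
      ∂(cubeM m) = WW (fun j => a j.succ) 1 (-t - a 0) := by
    rw [← WW_neg]
    congr 1
    ext x'
    simp only [Fin.zero_succAbove]
    congr 1
    ring
  rw [e1, e2, e3, WW_eq _ (fun j => ha _) le_rfl, WW_eq _ (fun j => ha _) le_rfl, cdiff_succ,
    Fin.prod_univ_succ, mul_inv, show 1 + m = m + 1 by ring]
  have h0 : a 0 ≠ 0 := (ha 0).ne'
  field_simp
  ring

theorem FV_flat_succ (q k : ℕ) (t : ℝ) :
    FV (stdVec (q + k) q) t 0 = 2 ^ k * FV (stdVec q q) t 0 := by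
  induction k with
  | zero => simp
  | succ k ih =>
    rw [show q + (k + 1) = q + k + 1 by ring, stdVec_last (by omega), ih]
    ring

/-- value at the flat vector with `q + 1` coordinates -/
theorem FV_flat (q k : ℕ) {t : ℝ} (ht : 0 ≤ t) :
    FV (stdVec (q + 1 + k) (q + 1)) t 0 / 2 ^ (q + 1 + k) = 1 - 2 * ((Real.sqrt (q + 1)) ^ (q + 1) *
      cdiff (fun _ : Fin (q + 1) => 1 / Real.sqrt (q + 1)) (ptr (q + 1)) (-t)) / 2 ^ (q + 1) := by
  rw [FV_flat_succ, stdVec_all]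
  have hb : (0 : ℝ) < 1 / Real.sqrt (q + 1) := by positivity
  push_cast
  rw [FV_formula _ (fun _ => hb) ht]
  rw [Finset.prod_const, Finset.card_univ, Fintype.card_fin, one_div, inv_pow, inv_inv]
  rw [show (2 : ℝ) ^ (q + 1 + k) = 2 ^ k * 2 ^ (q + 1) by ring]
  have h1 : (2 : ℝ) ^ k ≠ 0 := by positivity
  have h2 : (2 : ℝ) ^ (q + 1) ≠ 0 := by positivity
  field_simp

/-- the tail function of `f_4` -/
noncomputable def T4 (t : ℝ) : ℝ := (max (2 - t) 0 ^ 4 - 4 * max (1 - t) 0 ^ 4) / 12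

/-- the tail function of `f_5`, `b = 1 / sqrt 5` -/
noncomputable def T5 (t : ℝ) : ℝ :=
  (max (5 - Real.sqrt 5 * t) 0 ^ 5 - 5 * max (3 - Real.sqrt 5 * t) 0 ^ 5 +
    10 * max (1 - Real.sqrt 5 * t) 0 ^ 5) / 1920

theorem FV_f4 (k : ℕ) {t : ℝ} (ht : 0 ≤ t) :
    FV (stdVec (k + 4) 4) t 0 / 2 ^ (k + 4) = 1 - T4 t := by
  have h := FV_flat 3 k ht
  rw [show k + 4 = 3 + 1 + k by ring]
  rw [show (3 : ℕ) + 1 = 4 by norm_num] at h ⊢
  rw [h]
  have hs : Real.sqrt (((3 : ℕ) : ℝ) + 1) = 2 := by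
    rw [show (((3 : ℕ) : ℝ) + 1) = 2 ^ 2 by norm_num]
    exact Real.sqrt_sq (by norm_num)
  rw [hs]
  simp only [cdiff_succ, cdiff_zero]
  have z : ∀ y : ℝ, y ≤ 0 → ptr 4 y = 0 := fun y hy => ptr_of_nonpos (by norm_num) hy
  have p2 : ptr 4 (2 - t) = max (2 - t) 0 ^ 4 / 24 := by
    unfold ptr; norm_num [Nat.factorial]
  have p1 : ptr 4 (1 - t) = max (1 - t) 0 ^ 4 / 24 := by
    unfold ptr; norm_num [Nat.factorial]
  unfold T4
  have n0 : ptr 4 (-t) = 0 := z _ (by linarith)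
  have n1 : ptr 4 (-t - 1) = 0 := z _ (by linarith)
  have n2 : ptr 4 (-t - 2) = 0 := z _ (by linarith)
  ring_nf
  ring_nf at p1 p2 n0 n1 n2
  rw [n0, n1, n2, p1, p2]
  ring

theorem FV_f5 (k : ℕ) {t : ℝ} (ht : 0 ≤ t) :
    FV (stdVec (k + 5) 5) t 0 / 2 ^ (k + 5) = 1 - T5 t := by
  have h := FV_flat 4 k ht
  rw [show k + 5 = 4 + 1 + k by ring]
  rw [show (4 : ℕ) + 1 = 5 by norm_num] at h ⊢
  rw [h]
  have hs : Real.sqrt (((4 : ℕ) : ℝ) + 1) = Real.sqrt 5 := by norm_num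
  rw [hs]
  obtain ⟨r, hr⟩ : ∃ r, Real.sqrt 5 = r := ⟨_, rfl⟩
  have hr0 : 0 < r := by rw [← hr]; positivity
  have hr2 : r ^ 2 = 5 := by rw [← hr]; exact Real.sq_sqrt (by norm_num)
  have hb : 1 / r = r / 5 := by
    rw [div_eq_div_iff hr0.ne' (by norm_num)]; linarith
  unfold T5
  rw [hr, hb]
  simp only [cdiff_succ, cdiff_zero]
  have z : ∀ y : ℝ, y ≤ 0 → ptr 5 y = 0 := fun y hy => ptr_of_nonpos (by norm_num) hy
  have key : ∀ c : ℝ, r ^ 5 * ptr 5 (-t + c * (r / 5)) = max (c - r * t) 0 ^ 5 / 120 := by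
    intro c
    unfold ptr
    have e1 : r * max (-t + c * (r / 5)) 0 = max (c - r * t) 0 := by
      rw [mul_max_of_nonneg _ _ hr0.le, mul_zero]
      congr 1
      rw [mul_add, show r * (c * (r / 5)) = c * (r ^ 2 / 5) by ring, hr2]
      ring
    rw [show r ^ 5 * (max (-t + c * (r / 5)) 0 ^ 5 / ((Nat.factorial 5 : ℕ) : ℝ)) =
      (r * max (-t + c * (r / 5)) 0) ^ 5 / ((Nat.factorial 5 : ℕ) : ℝ) by ring, e1]
    norm_num [Nat.factorial]
  have k5 := key 5
  have k3 := key 3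
  have k1 := key 1
  have n1 : ptr 5 (-t - r / 5) = 0 := z _ (by linarith)
  have n3 : ptr 5 (-t - 3 * r / 5) = 0 := z _ (by linarith)
  have n5 : ptr 5 (-t - r) = 0 := z _ (by linarith)
  ring_nf
  ring_nf at k5 k3 k1 n1 n3 n5
  rw [n1, n3, n5]
  linear_combination (-1/16) * k5 + (5/16) * k3 - (10/16) * k1

theorem T_convexOn {n : ℕ} (a : Fin n → ℝ) (hsum : ∑ j, a j ^ 2 = 1) :
    ConvexOn ℝ (Ici 0) (fun t => 1 - FV a t 0 / 2 ^ n) := by
  refine ⟨convex_Ici 0, ?_⟩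
  intro x hx y hy α β hα hβ hαβ
  simp only [smul_eq_mul]
  have hx0 : (0 : ℝ) ≤ x := hx
  have hy0 : (0 : ℝ) ≤ y := hy
  rcases lt_trichotomy x y with h | h | h
  · have h1 : x ≤ α * x + β * y := by nlinarith
    have h2 : α * x + β * y ≤ y := by nlinarith
    have := T_chord a hsum hx0 h1 h2
    have hp : 0 < y - x := by linarith
    have e1 : y - (α * x + β * y) = α * (y - x) := by
      rw [← eq_sub_iff_add_eq] at hαβ
      rw [hαβ]; ring
    have e2 : α * x + β * y - x = β * (y - x) := by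
      rw [← eq_sub_iff_add_eq] at hαβ
      rw [hαβ]; ring
    rw [e1, e2] at this
    have h3 : (y - x) * (1 - FV a (α * x + β * y) 0 / 2 ^ n) ≤
        (y - x) * (α * (1 - FV a x 0 / 2 ^ n) + β * (1 - FV a y 0 / 2 ^ n)) := by linarith
    exact le_of_mul_le_mul_left h3 hp
  · subst h
    have e1 : α * x + β * x = x := by rw [← add_mul, hαβ, one_mul]
    rw [e1, ← add_mul, hαβ, one_mul]
  · have h1 : y ≤ α * x + β * y := by nlinarith
    have h2 : α * x + β * y ≤ x := by nlinarith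
    have := T_chord a hsum hy0 h1 h2
    have hp : 0 < x - y := by linarith
    have e1 : x - (α * x + β * y) = β * (x - y) := by
      rw [← eq_sub_iff_add_eq] at hαβ
      rw [hαβ]; ring
    have e2 : α * x + β * y - y = α * (x - y) := by
      rw [← eq_sub_iff_add_eq] at hαβ
      rw [hαβ]; ring
    rw [e1, e2] at this
    have h3 : (x - y) * (1 - FV a (α * x + β * y) 0 / 2 ^ n) ≤
        (x - y) * (α * (1 - FV a x 0 / 2 ^ n) + β * (1 - FV a y 0 / 2 ^ n)) := by linarith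
    exact le_of_mul_le_mul_left h3 hp

theorem stdVec_norm (q : ℕ) : ∑ j, stdVec (q + 1) (q + 1) j ^ 2 = 1 := by
  rw [stdVec_all]
  simp only [one_div, inv_pow, Finset.sum_const, Finset.card_univ, Fintype.card_fin, nsmul_eq_mul]
  rw [Real.sq_sqrt (by positivity)]
  have : ((q + 1 : ℕ) : ℝ) ≠ 0 := by positivity
  field_simp

theorem tangent_of_convex {f : ℝ → ℝ} (hf : ConvexOn ℝ (Ici 0) f) {c D t : ℝ} (hc : 0 < c)
    (hD : HasDerivAt f D c) (ht : 0 ≤ t) : f c + D * (t - c) ≤ f t := by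
  rcases lt_trichotomy c t with h | h | h
  · have := hf.le_slope_of_hasDerivAt (mem_Ici.2 hc.le) (mem_Ici.2 ht) h hD
    rw [slope_def_field, le_div_iff₀ (by linarith)] at this
    linarith
  · subst h; simp
  · have := hf.slope_le_of_hasDerivAt (mem_Ici.2 ht) (mem_Ici.2 hc.le) h hD
    rw [slope_def_field, div_le_iff₀ (by linarith)] at this
    linarith

theorem pos_pow_hasDerivAt (k : ℕ) (x : ℝ) :
    HasDerivAt (fun x : ℝ => max x 0 ^ (k + 2)) ((k + 2) * max x 0 ^ (k + 1)) x := by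
  have h := ptr_hasDerivAt (k := k + 1) (by omega) x
  have h2 := h.const_mul ((k + 2).factorial : ℝ)
  have e1 : (fun y => ((k + 2).factorial : ℝ) * ptr (k + 1 + 1) y) = fun x : ℝ => max x 0 ^ (k + 2) := by
    ext y
    unfold ptr
    have : ((k + 2).factorial : ℝ) ≠ 0 := by positivity
    rw [show k + 1 + 1 = k + 2 by ring]
    field_simp
  have e2 : ((k + 2).factorial : ℝ) * ptr (k + 1) x = (k + 2) * max x 0 ^ (k + 1) := by
    unfold ptr
    have : ((k + 1).factorial : ℝ) ≠ 0 := by positivity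
    rw [Nat.factorial_succ (k + 1)]
    push_cast
    field_simp
    ring
  rw [e1, e2] at h2
  exact h2

theorem lin_pow_hasDerivAt (k : ℕ) (A r t : ℝ) :
    HasDerivAt (fun t : ℝ => max (A - r * t) 0 ^ (k + 2))
      (-(r * ((k + 2) * max (A - r * t) 0 ^ (k + 1)))) t := by
  have h1 : HasDerivAt (fun t : ℝ => A - r * t) (-r) t := by
    simpa using ((hasDerivAt_id t).const_mul r).const_sub A
  have := (pos_pow_hasDerivAt k (A - r * t)).comp t h1
  refine this.congr_deriv ?_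
  ring

theorem T4_hasDerivAt (t : ℝ) :
    HasDerivAt T4 (-(max (2 - t) 0 ^ 3 - 4 * max (1 - t) 0 ^ 3) / 3) t := by
  have h2 := lin_pow_hasDerivAt 2 2 1 t
  have h1 := lin_pow_hasDerivAt 2 1 1 t
  simp only [one_mul] at h1 h2
  have := (h2.sub (h1.const_mul 4)).div_const 12
  refine this.congr_deriv ?_
  norm_num
  ring

theorem T5_hasDerivAt (t : ℝ) :
    HasDerivAt T5 (-(Real.sqrt 5 * (max (5 - Real.sqrt 5 * t) 0 ^ 4 -
      5 * max (3 - Real.sqrt 5 * t) 0 ^ 4 + 10 * max (1 - Real.sqrt 5 * t) 0 ^ 4)) / 384) t := by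
  have h5 := lin_pow_hasDerivAt 3 5 (Real.sqrt 5) t
  have h3 := lin_pow_hasDerivAt 3 3 (Real.sqrt 5) t
  have h1 := lin_pow_hasDerivAt 3 1 (Real.sqrt 5) t
  have := ((h5.sub (h3.const_mul 5)).add (h1.const_mul 10)).div_const 1920
  refine this.congr_deriv ?_
  norm_num
  ring

theorem T4_convexOn : ConvexOn ℝ (Ici 0) T4 := by
  have h := T_convexOn _ (stdVec_norm 3)
  refine h.congr ?_
  intro t ht
  have := FV_f4 0 (t := t) ht
  simp only [zero_add] at this
  show 1 - FV (stdVec 4 4) t 0 / 2 ^ 4 = T4 t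
  rw [this]
  ring

theorem T5_convexOn : ConvexOn ℝ (Ici 0) T5 := by
  have h := T_convexOn _ (stdVec_norm 4)
  refine h.congr ?_
  intro t ht
  have := FV_f5 0 (t := t) ht
  simp only [zero_add] at this
  show 1 - FV (stdVec 5 5) t 0 / 2 ^ 5 = T5 t
  rw [this]
  ring

theorem T4_tangent {c t : ℝ} (hc : 0 < c) (ht : 0 ≤ t) :
    T4 c - (max (2 - c) 0 ^ 3 - 4 * max (1 - c) 0 ^ 3) / 3 * (t - c) ≤ T4 t := by
  have := tangent_of_convex T4_convexOn hc (T4_hasDerivAt c) ht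
  linarith

theorem T5_tangent {c t : ℝ} (hc : 0 < c) (ht : 0 ≤ t) :
    T5 c - (Real.sqrt 5 * (max (5 - Real.sqrt 5 * c) 0 ^ 4 -
      5 * max (3 - Real.sqrt 5 * c) 0 ^ 4 + 10 * max (1 - Real.sqrt 5 * c) 0 ^ 4)) / 384 * (t - c) ≤
      T5 t := by
  have := tangent_of_convex T5_convexOn hc (T5_hasDerivAt c) ht
  linarith

/-- first alternative from `T ≤ T4` -/
theorem alt_T4 {n : ℕ} (hn : 4 ≤ n) (a : Fin n → ℝ) {t : ℝ} (h0 : 0 ≤ t)
    (h : 1 - FV a t 0 / 2 ^ n ≤ T4 t) :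
    ∃ q, 1 ≤ q ∧ q ≤ n ∧ FV (stdVec n q) t 0 ≤ FV a t 0 := by
  obtain ⟨m, rfl⟩ : ∃ m, n = m + 4 := ⟨n - 4, by omega⟩
  refine ⟨4, by norm_num, by omega, ?_⟩
  have hpow : (0 : ℝ) < 2 ^ (m + 4) := by positivity
  have h1 := FV_f4 m h0
  have h5 : FV (stdVec (m + 4) 4) t 0 / 2 ^ (m + 4) ≤ FV a t 0 / 2 ^ (m + 4) := by linarith
  exact (div_le_div_iff_of_pos_right hpow).1 h5

/-- first alternative from `T ≤ T5` -/
theorem alt_T5 {n : ℕ} (hn : 5 ≤ n) (a : Fin n → ℝ) {t : ℝ} (h0 : 0 ≤ t)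
    (h : 1 - FV a t 0 / 2 ^ n ≤ T5 t) :
    ∃ q, 1 ≤ q ∧ q ≤ n ∧ FV (stdVec n q) t 0 ≤ FV a t 0 := by
  obtain ⟨m, rfl⟩ : ∃ m, n = m + 5 := ⟨n - 5, by omega⟩
  refine ⟨5, by norm_num, by omega, ?_⟩
  have hpow : (0 : ℝ) < 2 ^ (m + 5) := by positivity
  have h1 := FV_f5 m h0
  have h5 : FV (stdVec (m + 5) 5) t 0 / 2 ^ (m + 5) ≤ FV a t 0 / 2 ^ (m + 5) := by linarith
  exact (div_le_div_iff_of_pos_right hpow).1 h5

end Pool.Agent.H60.SL
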