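import Pool.Agent.H60.SL.Mono
import Pool.Agent.H60.Slab.Fourier

set_option autoImplicit false

open MeasureTheory Set Complex FourierTransform

namespace Pool.Agent.H60.SL

open Pool.Agent.H60.Slab

/-- real form of the Fourier inversion formula -/
theorem inv_gen {f : ℝ → ℝ} (hf : Continuous f) (hfi : Integrable f) {C S : ℝ → ℝ}
    (hC : ∀ ξ, C ξ = ∫ y, f y * Real.cos (ξ * y)) (hS : ∀ ξ, S ξ = ∫ y, f y * Real.sin (ξ * y))
    (hCi : Integrable C) (hSi : Integrable S) (t : ℝ) :
    f t = 1 / (2 * Real.pi) * ∫ ξ, (C ξ * Real.cos (t * ξ) + S ξ * Real.sin (t * ξ)) := by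
  have hpi := Real.pi_pos
  have h2pi : (2 * Real.pi) ≠ 0 := by positivity
  have hfC : Integrable (fun y : ℝ => (f y : ℂ)) := hfi.ofReal
  have hmul : ∀ ξ : ℝ, Integrable (fun y => f y * Real.cos (ξ * y)) := by
    intro ξ
    refine hfi.mono (by fun_prop) (Filter.Eventually.of_forall fun y => ?_)
    rw [norm_mul]
    exact mul_le_of_le_one_right (norm_nonneg _) (by
      rw [Real.norm_eq_abs]; exact Real.abs_cos_le_one _)
  have hmul2 : ∀ ξ : ℝ, Integrable (fun y => f y * Real.sin (ξ * y)) := by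
    intro ξ
    refine hfi.mono (by fun_prop) (Filter.Eventually.of_forall fun y => ?_)
    rw [norm_mul]
    exact mul_le_of_le_one_right (norm_nonneg _) (by
      rw [Real.norm_eq_abs]; exact Real.abs_sin_le_one _)
  have hFT : 𝓕 (fun y : ℝ => (f y : ℂ)) = fun w : ℝ =>
      ((C (2 * Real.pi * w) : ℝ) : ℂ) - ((S (2 * Real.pi * w) : ℝ) : ℂ) * I := by
    ext w
    rw [Real.fourier_real_eq_integral_exp_smul, hC, hS, ← integral_complex_ofReal,
      ← integral_complex_ofReal, ← integral_mul_const, ← integral_sub]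
    · congr 1
      ext v
      have e : cexp (((-2 * Real.pi * v * w : ℝ) : ℂ) * I) =
          (Real.cos (2 * Real.pi * w * v) : ℂ) - (Real.sin (2 * Real.pi * w * v) : ℂ) * I := by
        rw [Complex.exp_mul_I, ← Complex.ofReal_cos, ← Complex.ofReal_sin,
          show -2 * Real.pi * v * w = -(2 * Real.pi * w * v) by ring, Real.cos_neg, Real.sin_neg]
        push_cast
        ring
      rw [e, smul_eq_mul]
      push_cast
      ring
    · exact (hmul _).ofReal
    · exact (hmul2 _).ofReal.mul_const I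
  have hC2 : Integrable (fun w : ℝ => C (2 * Real.pi * w)) := hCi.comp_mul_left' h2pi
  have hS2 : Integrable (fun w : ℝ => S (2 * Real.pi * w)) := hSi.comp_mul_left' h2pi
  have hFTi : Integrable (𝓕 (fun y : ℝ => (f y : ℂ))) := by
    rw [hFT]
    exact hC2.ofReal.sub (hS2.ofReal.mul_const I)
  have h3 : ContinuousAt (fun y : ℝ => (f y : ℂ)) t :=
    (continuous_ofReal.comp hf).continuousAt
  have h4 := hfC.fourierInv_fourier_eq hFTi h3
  rw [Real.fourierInv_eq', hFT] at h4
  have h5 := congrArg Complex.re h4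
  rw [Complex.ofReal_re] at h5
  have hint : Integrable (fun v : ℝ => cexp (↑(2 * Real.pi * inner ℝ v t) * I) •
      (((C (2 * Real.pi * v) : ℝ) : ℂ) - ((S (2 * Real.pi * v) : ℝ) : ℂ) * I)) := by
    have := hC2.ofReal (𝕜 := ℂ) |>.sub (hS2.ofReal (𝕜 := ℂ) |>.mul_const I)
    refine this.mono ?_ (Filter.Eventually.of_forall fun v => ?_)
    · have hm := this.aestronglyMeasurable
      exact (by fun_prop : Continuous (fun v : ℝ => cexp (↑(2 * Real.pi * inner ℝ v t) * I))
        ).aestronglyMeasurable.smul hm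
    · rw [norm_smul, Complex.norm_exp_ofReal_mul_I, one_mul]
      exact le_rfl
  have h6 : (∫ v : ℝ, cexp (↑(2 * Real.pi * inner ℝ v t) * I) •
      (((C (2 * Real.pi * v) : ℝ) : ℂ) - ((S (2 * Real.pi * v) : ℝ) : ℂ) * I)).re =
      ∫ v : ℝ, (C (2 * Real.pi * v) * Real.cos (t * (2 * Real.pi * v)) +
        S (2 * Real.pi * v) * Real.sin (t * (2 * Real.pi * v))) := by
    have h7 := Complex.reCLM.integral_comp_comm hint
    simp only [Complex.reCLM_apply] at h7
    rw [← h7]
    congr 1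
    ext v
    have e : cexp (↑(2 * Real.pi * inner ℝ v t) * I) =
        (Real.cos (t * (2 * Real.pi * v)) : ℂ) + (Real.sin (t * (2 * Real.pi * v)) : ℂ) * I := by
      rw [Complex.exp_mul_I, ← Complex.ofReal_cos, ← Complex.ofReal_sin]
      have : (2 * Real.pi * inner ℝ v t : ℝ) = t * (2 * Real.pi * v) := by
        simp [inner]
        ring
      rw [this]
    rw [e, smul_eq_mul]
    simp only [Complex.mul_re, Complex.mul_im, Complex.add_re, Complex.add_im, Complex.sub_re,
      Complex.sub_im, Complex.ofReal_re, Complex.ofReal_im, Complex.I_re, Complex.I_im]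
    ring
  rw [h6] at h5
  rw [← h5]
  have h8 := Measure.integral_comp_mul_left
    (fun ξ => C ξ * Real.cos (t * ξ) + S ξ * Real.sin (t * ξ)) (2 * Real.pi)
  rw [h8, abs_of_pos (by positivity), smul_eq_mul, one_div]

theorem half_even {g : ℝ → ℝ} (hg : ∀ x, g (-x) = g x) :
    ∫ ξ, g ξ = 2 * ∫ ξ in Ioi (0 : ℝ), g ξ := by
  rw [← integral_comp_abs (f := g)]
  congr 1
  ext ξ
  rcases abs_cases ξ with ⟨h, _⟩ | ⟨h, _⟩ <;> rw [h]
  rw [hg]

/-- average of a sine over the cube -/
theorem cube_sin {m : ℕ} (b : Fin m → ℝ) (t w : ℝ) :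
    ∫ x, Real.sin ((t + dot x b) * w) ∂(cubeM m) =
      2 ^ m * (Real.sin (t * w) * ∏ j, Real.sinc (b j * w)) := by
  have h := cube_exp m b w
  have hint : Integrable (fun x : Fin m → ℝ => cexp ((t * w : ℝ) * I) * cexp ((w * dot x b : ℝ) * I))
      (cubeM m) := by
    apply integrable_cube_of_continuous
    have := continuous_dot b
    fun_prop
  have h1 : ∫ x, cexp ((t * w : ℝ) * I) * cexp ((w * dot x b : ℝ) * I) ∂(cubeM m) =
      cexp ((t * w : ℝ) * I) * ((2 ^ m * ∏ j, Real.sinc (b j * w) : ℝ) : ℂ) := by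
    rw [integral_const_mul, h]
    congr 1
    push_cast
    rw [Finset.prod_mul_distrib]
    simp only [Finset.prod_const, Finset.card_univ, Fintype.card_fin]
    congr 1
    apply Finset.prod_congr rfl
    intro j _
    rw [mul_comm w]
  have h2 := congrArg Complex.im h1
  have h7 := Complex.imCLM.integral_comp_comm hint
  simp only [Complex.imCLM_apply] at h7
  rw [← h7] at h2
  have e1 : ∀ x : Fin m → ℝ, (cexp ((t * w : ℝ) * I) * cexp ((w * dot x b : ℝ) * I)).im =
      Real.sin ((t + dot x b) * w) := by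
    intro x
    rw [← Complex.exp_add, ← add_mul, ← ofReal_add, Complex.exp_ofReal_mul_I_im]
    congr 1
    ring
  simp only [e1] at h2
  rw [h2, Complex.mul_im, ofReal_re, ofReal_im, Complex.exp_ofReal_mul_I_im]
  ring

theorem cube_cos {m : ℕ} (b : Fin m → ℝ) (t w : ℝ) :
    ∫ x, Real.cos ((t + dot x b) * w) ∂(cubeM m) =
      2 ^ m * (Real.cos (t * w) * ∏ j, Real.sinc (b j * w)) := by
  have h := cube_exp m b w
  have hint : Integrable (fun x : Fin m → ℝ => cexp ((t * w : ℝ) * I) * cexp ((w * dot x b : ℝ) * I))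
      (cubeM m) := by
    apply integrable_cube_of_continuous
    have := continuous_dot b
    fun_prop
  have h1 : ∫ x, cexp ((t * w : ℝ) * I) * cexp ((w * dot x b : ℝ) * I) ∂(cubeM m) =
      cexp ((t * w : ℝ) * I) * ((2 ^ m * ∏ j, Real.sinc (b j * w) : ℝ) : ℂ) := by
    rw [integral_const_mul, h]
    congr 1
    push_cast
    rw [Finset.prod_mul_distrib]
    simp only [Finset.prod_const, Finset.card_univ, Fintype.card_fin]
    congr 1
    apply Finset.prod_congr rfl
    intro j _
    rw [mul_comm w]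
  have h2 := congrArg Complex.re h1
  have h7 := Complex.reCLM.integral_comp_comm hint
  simp only [Complex.reCLM_apply] at h7
  rw [← h7] at h2
  have e1 : ∀ x : Fin m → ℝ, (cexp ((t * w : ℝ) * I) * cexp ((w * dot x b : ℝ) * I)).re =
      Real.cos ((t + dot x b) * w) := by
    intro x
    rw [← Complex.exp_add, ← add_mul, ← ofReal_add, Complex.exp_ofReal_mul_I_re]
    congr 1
    ring
  simp only [e1] at h2
  rw [h2, Complex.mul_re, ofReal_re, ofReal_im, Complex.exp_ofReal_mul_I_re]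
  ring

/-- averaging a sine integral over the cube -/
theorem avgc_sin {m : ℕ} (b : Fin m → ℝ) {f S : ℝ → ℝ} (hS : IntegrableOn S (Ioi 0))
    {c : ℝ} (hf : ∀ t, f t = c * ∫ ξ in Ioi (0 : ℝ), S ξ * Real.sin (t * ξ)) (t : ℝ) :
    avgc b f t = c * ∫ ξ in Ioi (0 : ℝ), S ξ * (Real.sin (t * ξ) * ∏ j, Real.sinc (b j * ξ)) := by
  unfold avgc
  simp only [hf]
  rw [integral_const_mul]
  have hswap : ∫ x, (∫ ξ in Ioi (0 : ℝ), S ξ * Real.sin ((t + dot x b) * ξ)) ∂(cubeM m) =
      ∫ ξ in Ioi (0 : ℝ), (∫ x, S ξ * Real.sin ((t + dot x b) * ξ) ∂(cubeM m)) := by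
    apply integral_integral_swap
    have h1 : Integrable (fun p : (Fin m → ℝ) × ℝ => S p.2)
        ((cubeM m).prod (volume.restrict (Ioi (0 : ℝ)))) := hS.comp_snd (cubeM m)
    refine h1.mono ?_ (Filter.Eventually.of_forall fun p => ?_)
    · refine h1.aestronglyMeasurable.mul ?_
      have h2 : Continuous (fun p : (Fin m → ℝ) × ℝ => Real.sin ((t + dot p.1 b) * p.2)) := by
        have h3 : Continuous (fun p : (Fin m → ℝ) × ℝ => dot p.1 b) :=
          (continuous_dot b).comp continuous_fst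
        fun_prop
      exact h2.aestronglyMeasurable
    · show ‖S p.2 * Real.sin ((t + dot p.1 b) * p.2)‖ ≤ ‖S p.2‖
      rw [norm_mul]
      exact mul_le_of_le_one_right (norm_nonneg _) (by
        rw [Real.norm_eq_abs]; exact Real.abs_sin_le_one _)
  rw [hswap]
  simp only [integral_const_mul, cube_sin]
  have e : ∀ ξ : ℝ, S ξ * (2 ^ m * (Real.sin (t * ξ) * ∏ j, Real.sinc (b j * ξ))) =
      2 ^ m * (S ξ * (Real.sin (t * ξ) * ∏ j, Real.sinc (b j * ξ))) := fun ξ => by ring
  simp only [e]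
  rw [integral_const_mul]
  field_simp

theorem avgc_cos {m : ℕ} (b : Fin m → ℝ) {f S : ℝ → ℝ} (hS : IntegrableOn S (Ioi 0))
    {c : ℝ} (hf : ∀ t, f t = c * ∫ ξ in Ioi (0 : ℝ), S ξ * Real.cos (t * ξ)) (t : ℝ) :
    avgc b f t = c * ∫ ξ in Ioi (0 : ℝ), S ξ * (Real.cos (t * ξ) * ∏ j, Real.sinc (b j * ξ)) := by
  unfold avgc
  simp only [hf]
  rw [integral_const_mul]
  have hswap : ∫ x, (∫ ξ in Ioi (0 : ℝ), S ξ * Real.cos ((t + dot x b) * ξ)) ∂(cubeM m) =
      ∫ ξ in Ioi (0 : ℝ), (∫ x, S ξ * Real.cos ((t + dot x b) * ξ) ∂(cubeM m)) := by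
    apply integral_integral_swap
    have h1 : Integrable (fun p : (Fin m → ℝ) × ℝ => S p.2)
        ((cubeM m).prod (volume.restrict (Ioi (0 : ℝ)))) := hS.comp_snd (cubeM m)
    refine h1.mono ?_ (Filter.Eventually.of_forall fun p => ?_)
    · refine h1.aestronglyMeasurable.mul ?_
      have h2 : Continuous (fun p : (Fin m → ℝ) × ℝ => Real.cos ((t + dot p.1 b) * p.2)) := by
        have h3 : Continuous (fun p : (Fin m → ℝ) × ℝ => dot p.1 b) :=
          (continuous_dot b).comp continuous_fst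
        fun_prop
      exact h2.aestronglyMeasurable
    · show ‖S p.2 * Real.cos ((t + dot p.1 b) * p.2)‖ ≤ ‖S p.2‖
      rw [norm_mul]
      exact mul_le_of_le_one_right (norm_nonneg _) (by
        rw [Real.norm_eq_abs]; exact Real.abs_cos_le_one _)
  rw [hswap]
  simp only [integral_const_mul, cube_cos]
  have e : ∀ ξ : ℝ, S ξ * (2 ^ m * (Real.cos (t * ξ) * ∏ j, Real.sinc (b j * ξ))) =
      2 ^ m * (S ξ * (Real.cos (t * ξ) * ∏ j, Real.sinc (b j * ξ))) := fun ξ => by ring
  simp only [e]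
  rw [integral_const_mul]
  field_simp

end Pool.Agent.H60.SL
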