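import Mathlib

set_option autoImplicit false

namespace Pool.Agent.H60.SL

/-- value of `T` for `f_2` and `f_3` -/
noncomputable def T2 (t : ℝ) : ℝ := (Real.sqrt 2 - t) ^ 2 / 2
noncomputable def T3 (t : ℝ) : ℝ := Real.sqrt 3 * (Real.sqrt 3 - t) ^ 3 / 8

theorem s2_sq : Real.sqrt 2 ^ 2 = 2 := Real.sq_sqrt (by norm_num)
theorem s3_sq : Real.sqrt 3 ^ 2 = 3 := Real.sq_sqrt (by norm_num)
theorem s2_lb : 1.41421 < Real.sqrt 2 := Real.lt_sqrt_of_sq_lt (by norm_num)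
theorem s2_ub : Real.sqrt 2 < 1.41422 := by
  rw [Real.sqrt_lt' (by norm_num)]; norm_num
theorem s3_lb : 1.73205 < Real.sqrt 3 := Real.lt_sqrt_of_sq_lt (by norm_num)
theorem s3_ub : Real.sqrt 3 < 1.73206 := by
  rw [Real.sqrt_lt' (by norm_num)]; norm_num

/-- the polynomial form of the two upper bounds, as a function of `p = al + be` -/
def KG (r t lam p : ℝ) : Prop :=
  (p - t ≤ r → (r + (p - t)) ^ 3 ≤ 12 * r * lam * (p ^ 2 - 1 + r ^ 2)) ∧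
  (r ≤ p - t → r ^ 2 + 3 * (p - t) ^ 2 ≤ 6 * lam * (p ^ 2 - 1 + r ^ 2))

theorem KG_mono {r t lam lam' p : ℝ} (hr : 0 ≤ r) (hp : 0 ≤ p ^ 2 - 1 + r ^ 2) (h : lam ≤ lam')
    (hk : KG r t lam p) : KG r t lam' p := by
  refine ⟨fun h1 => (hk.1 h1).trans ?_, fun h1 => (hk.2 h1).trans ?_⟩
  · have : 0 ≤ r * (p ^ 2 - 1 + r ^ 2) := mul_nonneg hr hp
    nlinarith
  · nlinarith

theorem J1_chord {r t lam p1 p p2 : ℝ} (hr : 0 ≤ r) (hl : lam ≤ 1 / 4) (h0 : t ≤ p1) (h1 : p1 ≤ p)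
    (h2 : p ≤ p2)
    (g1 : (r + (p1 - t)) ^ 3 ≤ 12 * r * lam * (p1 ^ 2 - 1 + r ^ 2))
    (g2 : (r + (p2 - t)) ^ 3 ≤ 12 * r * lam * (p2 ^ 2 - 1 + r ^ 2)) :
    (r + (p - t)) ^ 3 ≤ 12 * r * lam * (p ^ 2 - 1 + r ^ 2) := by
  rcases eq_or_lt_of_le (h1.trans h2) with h3 | h3
  · have : p = p1 := le_antisymm (by linarith) h1
    rw [this]; exact g1
  · have key : (p2 - p1) * (12 * r * lam * (p ^ 2 - 1 + r ^ 2) - (r + (p - t)) ^ 3) =
        (p2 - p) * (12 * r * lam * (p1 ^ 2 - 1 + r ^ 2) - (r + (p1 - t)) ^ 3) +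
        (p - p1) * (12 * r * lam * (p2 ^ 2 - 1 + r ^ 2) - (r + (p2 - t)) ^ 3) +
        (p2 - p1) * ((p2 - p) * (p - p1)) *
          (((r + (p1 - t)) + (r + (p - t)) + (r + (p2 - t))) - 12 * r * lam) := by ring
    have e1 : 0 ≤ ((r + (p1 - t)) + (r + (p - t)) + (r + (p2 - t))) - 12 * r * lam := by nlinarith
    have e2 : 0 ≤ (p2 - p1) * ((p2 - p) * (p - p1)) * (((r + (p1 - t)) + (r + (p - t)) +
      (r + (p2 - t))) - 12 * r * lam) := by
      have a1 : 0 ≤ p2 - p1 := by linarith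
      have a2 : 0 ≤ p2 - p := by linarith
      have a3 : 0 ≤ p - p1 := by linarith
      positivity
    have e3 : 0 ≤ (p2 - p) * (12 * r * lam * (p1 ^ 2 - 1 + r ^ 2) - (r + (p1 - t)) ^ 3) :=
      mul_nonneg (by linarith) (by linarith)
    have e4 : 0 ≤ (p - p1) * (12 * r * lam * (p2 ^ 2 - 1 + r ^ 2) - (r + (p2 - t)) ^ 3) :=
      mul_nonneg (by linarith) (by linarith)
    have e5 : 0 ≤ (p2 - p1) * (12 * r * lam * (p ^ 2 - 1 + r ^ 2) - (r + (p - t)) ^ 3) := by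
      rw [key]; positivity
    have e6 : 0 ≤ 12 * r * lam * (p ^ 2 - 1 + r ^ 2) - (r + (p - t)) ^ 3 := by
      by_contra hcon
      push Not at hcon
      have : (p2 - p1) * (12 * r * lam * (p ^ 2 - 1 + r ^ 2) - (r + (p - t)) ^ 3) < 0 :=
        mul_neg_of_pos_of_neg (by linarith) hcon
      linarith
    linarith

theorem J2_chord {r t lam p1 p p2 : ℝ} (hl : lam ≤ 1 / 4) (h1 : p1 ≤ p)
    (h2 : p ≤ p2)
    (g1 : r ^ 2 + 3 * (p1 - t) ^ 2 ≤ 6 * lam * (p1 ^ 2 - 1 + r ^ 2))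
    (g2 : r ^ 2 + 3 * (p2 - t) ^ 2 ≤ 6 * lam * (p2 ^ 2 - 1 + r ^ 2)) :
    r ^ 2 + 3 * (p - t) ^ 2 ≤ 6 * lam * (p ^ 2 - 1 + r ^ 2) := by
  rcases eq_or_lt_of_le (h1.trans h2) with h3 | h3
  · have : p = p1 := le_antisymm (by linarith) h1
    rw [this]; exact g1
  · have key : (p2 - p1) * (6 * lam * (p ^ 2 - 1 + r ^ 2) - (r ^ 2 + 3 * (p - t) ^ 2)) =
        (p2 - p) * (6 * lam * (p1 ^ 2 - 1 + r ^ 2) - (r ^ 2 + 3 * (p1 - t) ^ 2)) +
        (p - p1) * (6 * lam * (p2 ^ 2 - 1 + r ^ 2) - (r ^ 2 + 3 * (p2 - t) ^ 2)) +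
        (p2 - p1) * ((p2 - p) * (p - p1)) * (3 - 6 * lam) := by ring
    have e2 : 0 ≤ (p2 - p1) * ((p2 - p) * (p - p1)) * (3 - 6 * lam) := by
      have a1 : 0 ≤ p2 - p1 := by linarith
      have a2 : 0 ≤ p2 - p := by linarith
      have a3 : 0 ≤ p - p1 := by linarith
      have a4 : 0 ≤ 3 - 6 * lam := by linarith
      positivity
    have e3 : 0 ≤ (p2 - p) * (6 * lam * (p1 ^ 2 - 1 + r ^ 2) - (r ^ 2 + 3 * (p1 - t) ^ 2)) :=
      mul_nonneg (by linarith) (by linarith)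
    have e4 : 0 ≤ (p - p1) * (6 * lam * (p2 ^ 2 - 1 + r ^ 2) - (r ^ 2 + 3 * (p2 - t) ^ 2)) :=
      mul_nonneg (by linarith) (by linarith)
    have e5 : 0 ≤ (p2 - p1) * (6 * lam * (p ^ 2 - 1 + r ^ 2) - (r ^ 2 + 3 * (p - t) ^ 2)) := by
      rw [key]; positivity
    have e6 : 0 ≤ 6 * lam * (p ^ 2 - 1 + r ^ 2) - (r ^ 2 + 3 * (p - t) ^ 2) := by
      by_contra hcon
      push Not at hcon
      have : (p2 - p1) * (6 * lam * (p ^ 2 - 1 + r ^ 2) - (r ^ 2 + 3 * (p - t) ^ 2)) < 0 :=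
        mul_neg_of_pos_of_neg (by linarith) hcon
      linarith
    linarith

/-- gluing: the set of good `p` is an interval -/
theorem KG_glue {r t lam p1 p p2 : ℝ} (hr : 0 < r) (hl : lam ≤ 1 / 4) (h0 : t ≤ p1) (h1 : p1 ≤ p)
    (h2 : p ≤ p2) (g1 : KG r t lam p1) (g2 : KG r t lam p2) : KG r t lam p := by
  -- the middle point
  set m := t + r with hm
  -- claim: J2(m) <= 0 if p1 <= m <= p2
  have mid : p1 ≤ m → m ≤ p2 → r ^ 2 + 3 * (m - t) ^ 2 ≤ 6 * lam * (m ^ 2 - 1 + r ^ 2) := by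
    intro hm1 hm2
    by_contra hcon
    push Not at hcon
    have k1 := g1.1 (by rw [hm] at hm1; linarith)
    have k2 := g2.2 (by rw [hm] at hm2; linarith)
    rw [hm] at hcon hm1 hm2
    -- slope
    rcases le_total 0 (6 * r - 12 * lam * (t + r)) with hs | hs
    · -- J2(p2) >= J2(m) + slope (p2-m) > 0
      have id : (r ^ 2 + 3 * (p2 - t) ^ 2) - 6 * lam * (p2 ^ 2 - 1 + r ^ 2) =
          ((r ^ 2 + 3 * (t + r - t) ^ 2) - 6 * lam * ((t + r) ^ 2 - 1 + r ^ 2)) +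
          (6 * r - 12 * lam * (t + r)) * (p2 - (t + r)) + (3 - 6 * lam) * (p2 - (t + r)) ^ 2 := by
        ring
      have e1 : 0 ≤ (6 * r - 12 * lam * (t + r)) * (p2 - (t + r)) :=
        mul_nonneg hs (by linarith)
      have e2 : 0 ≤ (3 - 6 * lam) * (p2 - (t + r)) ^ 2 :=
        mul_nonneg (by linarith) (sq_nonneg _)
      linarith
    · have id : (r + (p1 - t)) ^ 3 - 12 * r * lam * (p1 ^ 2 - 1 + r ^ 2) =
          2 * r * ((r ^ 2 + 3 * (t + r - t) ^ 2) - 6 * lam * ((t + r) ^ 2 - 1 + r ^ 2)) +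
          2 * r * ((6 * r - 12 * lam * (t + r)) * (p1 - (t + r))) +
          (p1 - (t + r)) ^ 2 * ((r + (p1 - t)) + 4 * r - 12 * r * lam) := by
        ring
      have e1 : 0 ≤ (6 * r - 12 * lam * (t + r)) * (p1 - (t + r)) :=
        mul_nonneg_of_nonpos_of_nonpos hs (by linarith)
      have e2 : 0 ≤ (p1 - (t + r)) ^ 2 * ((r + (p1 - t)) + 4 * r - 12 * r * lam) :=
        mul_nonneg (sq_nonneg _) (by nlinarith)
      have e3 : 0 < 2 * r * ((r ^ 2 + 3 * (t + r - t) ^ 2) - 6 * lam * ((t + r) ^ 2 - 1 + r ^ 2)) :=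
        mul_pos (by linarith) (by linarith)
      have e4 : 0 ≤ 2 * r * ((6 * r - 12 * lam * (t + r)) * (p1 - (t + r))) :=
        mul_nonneg (by linarith) e1
      linarith
  have mid1 : p1 ≤ m → m ≤ p2 → (r + (m - t)) ^ 3 ≤ 12 * r * lam * (m ^ 2 - 1 + r ^ 2) := by
    intro hm1 hm2
    have := mid hm1 hm2
    have e : (r + (m - t)) ^ 3 = 2 * r * (r ^ 2 + 3 * (m - t) ^ 2) := by rw [hm]; ring
    rw [e]
    have := mul_le_mul_of_nonneg_left this (by linarith : (0 : ℝ) ≤ 2 * r)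
    linarith
  constructor
  · intro hp
    have k1 := g1.1 (by linarith)
    rcases le_total (p2 - t) r with hp2 | hp2
    · exact J1_chord hr.le hl h0 h1 h2 k1 (g2.1 hp2)
    · exact J1_chord hr.le hl h0 h1 (by rw [hm]; linarith : p ≤ m) k1
        (mid1 (by rw [hm]; linarith) (by rw [hm]; linarith))
  · intro hp
    have k2 := g2.2 (by linarith)
    rcases le_total r (p1 - t) with hp1 | hp1
    · exact J2_chord hl h1 h2 (g1.2 hp1) k2
    · exact J2_chord hl (by rw [hm]; linarith : m ≤ p) h2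
        (mid (by rw [hm]; linarith) (by rw [hm]; linarith)) k2

end Pool.Agent.H60.SL
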