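import Pool.Agent.H60.SL.KLem

set_option autoImplicit false

namespace Pool.Agent.H60.SL

theorem exists_cbrt {x : ℝ} (hx : 0 < x) : ∃ u : ℝ, 0 < u ∧ u ^ 3 = x := by
  refine ⟨x ^ ((1 : ℝ) / 3), Real.rpow_pos_of_pos hx _, ?_⟩
  rw [← Real.rpow_natCast, ← Real.rpow_mul hx.le]
  norm_num

/-- quasi-convexity of `(r+c)^3/(e+c)^2` in `c` -/
theorem rho_qc {u v d1 d2 A : ℝ} (hu : 0 < u) (hv : 0 < v) (hd1 : 0 ≤ d1) (hd2 : 0 ≤ d2)
    (hA : 0 ≤ A) (g1 : u ^ 3 ≤ A * v ^ 2)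
    (g2 : (u + d1 + d2) ^ 3 ≤ A * (v + d1 + d2) ^ 2) :
    (u + d1) ^ 3 ≤ A * (v + d1) ^ 2 := by
  rcases le_total (2 * (u + d1)) (3 * (v + d1)) with h | h
  · -- increasing from c to c2
    have hv2 : 0 < v + d1 + d2 := by linarith
    have hU : 0 < u + d1 := by linarith
    have hV : 0 < v + d1 := by linarith
    have key : (u + d1) ^ 3 * (v + d1 + d2) ^ 2 ≤ (u + d1 + d2) ^ 3 * (v + d1) ^ 2 := by
      generalize u + d1 = U at *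
      generalize v + d1 = V at *
      have e : (U + d2) ^ 3 * V ^ 2 - U ^ 3 * (V + d2) ^ 2 =
          d2 * (U ^ 2 * V * (3 * V - 2 * U) + d2 * (U * (3 * V ^ 2 - U ^ 2)) + d2 ^ 2 * V ^ 2) := by
        ring
      have h1 : 0 ≤ U ^ 2 * V * (3 * V - 2 * U) := mul_nonneg (by positivity) (by linarith)
      have h2 : 0 ≤ d2 * (U * (3 * V ^ 2 - U ^ 2)) := by
        apply mul_nonneg hd2
        apply mul_nonneg hU.le
        nlinarith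
      have h3 : 0 ≤ d2 ^ 2 * V ^ 2 := by positivity
      have : 0 ≤ d2 * (U ^ 2 * V * (3 * V - 2 * U) + d2 * (U * (3 * V ^ 2 - U ^ 2)) + d2 ^ 2 * V ^ 2) :=
        mul_nonneg hd2 (by linarith)
      linarith
    have h1 : (u + d1) ^ 3 * (v + d1 + d2) ^ 2 ≤ A * (v + d1) ^ 2 * (v + d1 + d2) ^ 2 := by
      calc _ ≤ (u + d1 + d2) ^ 3 * (v + d1) ^ 2 := key
        _ ≤ A * (v + d1 + d2) ^ 2 * (v + d1) ^ 2 := mul_le_mul_of_nonneg_right g2 (sq_nonneg _)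
        _ = _ := by ring
    exact le_of_mul_le_mul_right h1 (by positivity)
  · -- decreasing from c1 to c
    have key : (u + d1) ^ 3 * v ^ 2 ≤ u ^ 3 * (v + d1) ^ 2 := by
      have hd : 0 ≤ (2 * u - 3 * v) - d1 := by linarith
      have e : u ^ 3 * (v + d1) ^ 2 - (u + d1) ^ 3 * v ^ 2 =
          d1 * (u ^ 2 * v * ((2 * u - 3 * v) - d1) + d1 * ((u - v) ^ 2 * (u + 3 * v)) +
            d1 * (v ^ 2 * ((2 * u - 3 * v) - d1))) := by ring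
      have h1 : 0 ≤ u ^ 2 * v * ((2 * u - 3 * v) - d1) := mul_nonneg (by positivity) hd
      have h2 : 0 ≤ d1 * ((u - v) ^ 2 * (u + 3 * v)) := by positivity
      have h3 : 0 ≤ d1 * (v ^ 2 * ((2 * u - 3 * v) - d1)) :=
        mul_nonneg hd1 (mul_nonneg (sq_nonneg _) hd)
      have : 0 ≤ d1 * (u ^ 2 * v * ((2 * u - 3 * v) - d1) + d1 * ((u - v) ^ 2 * (u + 3 * v)) +
            d1 * (v ^ 2 * ((2 * u - 3 * v) - d1))) := mul_nonneg hd1 (by linarith)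
      linarith
    have h1 : (u + d1) ^ 3 * v ^ 2 ≤ A * (v + d1) ^ 2 * v ^ 2 := by
      calc _ ≤ u ^ 3 * (v + d1) ^ 2 := key
        _ ≤ A * v ^ 2 * (v + d1) ^ 2 := mul_le_mul_of_nonneg_right g1 (sq_nonneg _)
        _ = _ := by ring
    exact le_of_mul_le_mul_right h1 (by positivity)

/-- cube both sides -/
theorem cube_form {x r t u v : ℝ} (hu : 0 < u) (hv : 0 < v) (hx : u ^ 3 = x) (hr : v ^ 3 = r)
    (h0 : 0 ≤ r + (2 * x - t))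
    (h : r + (2 * x - t) ≤ Real.sqrt 3 * (u ^ 2 * v) * (Real.sqrt 3 - t)) :
    (r + (2 * x - t)) ^ 3 ≤ 24 * x ^ 2 * r * T3 t := by
  have h1 := pow_le_pow_left₀ h0 h 3
  have e : (Real.sqrt 3 * (u ^ 2 * v) * (Real.sqrt 3 - t)) ^ 3 = 24 * x ^ 2 * r * T3 t := by
    rw [T3, ← hx, ← hr]
    have := s3_sq
    calc (Real.sqrt 3 * (u ^ 2 * v) * (Real.sqrt 3 - t)) ^ 3 =
        Real.sqrt 3 ^ 2 * Real.sqrt 3 * ((u ^ 2 * v) ^ 3) * (Real.sqrt 3 - t) ^ 3 := by ring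
      _ = 3 * Real.sqrt 3 * ((u ^ 2 * v) ^ 3) * (Real.sqrt 3 - t) ^ 3 := by rw [this]
      _ = _ := by ring
  linarith

theorem gm_le {u v : ℝ} (hu : 0 < u) (hv : 0 < v) (h : 2 * u ^ 6 + v ^ 6 = 1) :
    Real.sqrt 3 * (u ^ 2 * v) ≤ 1 := by
  have h1 : (Real.sqrt 3 * (u ^ 2 * v)) ^ 2 ≤ 1 := by
    rw [mul_pow, s3_sq]
    have : 0 ≤ (u ^ 2 - v ^ 2) ^ 2 * (2 * u ^ 2 + v ^ 2) := by positivity
    nlinarith
  have h2 : 0 ≤ Real.sqrt 3 * (u ^ 2 * v) := by positivity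
  nlinarith

/-- (A1) -/
theorem LA1 {x r t : ℝ} (hx : 0 < x) (hxr : x ≤ r) (hrx : r ≤ 8 * x) (h : 2 * x ^ 2 + r ^ 2 = 1)
    (ht : Real.sqrt 3 / 2 ≤ t) (h0 : 0 ≤ r + (2 * x - t)) :
    (r + (2 * x - t)) ^ 3 ≤ 24 * x ^ 2 * r * T3 t := by
  obtain ⟨u, hu, hux⟩ := exists_cbrt hx
  obtain ⟨v, hv, hvr⟩ := exists_cbrt (hx.trans_le hxr)
  have huv : u ≤ v := by
    by_contra hc
    push Not at hc
    have : v ^ 3 < u ^ 3 := pow_lt_pow_left₀ hc hv.le (by norm_num)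
    linarith
  have hv2 : v ≤ 2 * u := by
    by_contra hc
    push Not at hc
    have : (2 * u) ^ 3 < v ^ 3 := pow_lt_pow_left₀ hc (by positivity) (by norm_num)
    nlinarith
  have h' : 2 * u ^ 6 + v ^ 6 = 1 := by rw [← hux, ← hvr] at h; linarith [h]
  apply cube_form hu hv hux hvr h0
  have hg := gm_le hu hv h'
  have hs := s3_sq
  have hs0 : 0 < Real.sqrt 3 := Real.sqrt_pos.2 (by norm_num)
  -- main inequality at t = sqrt3/2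
  have key : (4 * u ^ 3 + 2 * v ^ 3 - 3 * (u ^ 2 * v)) ^ 2 ≤ 3 * (2 * u ^ 6 + v ^ 6) := by
    have e : 3 * (2 * u ^ 6 + v ^ 6) - (4 * u ^ 3 + 2 * v ^ 3 - 3 * (u ^ 2 * v)) ^ 2 =
        (v - u) ^ 3 * (10 * u ^ 3 + 6 * u ^ 2 * v - 3 * u * v ^ 2 - v ^ 3) := by ring
    have h1 : 0 ≤ v - u := by linarith
    have h2 : 0 ≤ 10 * u ^ 3 + 6 * u ^ 2 * v - 3 * u * v ^ 2 - v ^ 3 := by
      have h3 : 0 ≤ 2 * u - v := by linarith
      have e2 : 10 * u ^ 3 + 6 * u ^ 2 * v - 3 * u * v ^ 2 - v ^ 3 =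
        2 * u ^ 3 + (2 * u - v) * (v ^ 2 + 5 * u * v + 4 * u ^ 2) := by ring
      rw [e2]
      positivity
    have : 0 ≤ (v - u) ^ 3 * (10 * u ^ 3 + 6 * u ^ 2 * v - 3 * u * v ^ 2 - v ^ 3) := by positivity
    linarith
  have key2 : 4 * u ^ 3 + 2 * v ^ 3 - 3 * (u ^ 2 * v) ≤ Real.sqrt 3 := by
    rw [h'] at key
    apply Real.le_sqrt_of_sq_le
    linarith
  rw [hux, hvr] at key2
  have h5 : 0 ≤ (1 - Real.sqrt 3 * (u ^ 2 * v)) * (t - Real.sqrt 3 / 2) :=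
    mul_nonneg (by linarith) (by linarith)
  nlinarith

/-- (A2) -/
theorem LA2 {x r t : ℝ} (hr : 0 < r) (hxr : r ≤ x) (h : 2 * x ^ 2 + r ^ 2 = 1)
    (ht : 1 ≤ t * (x + r)) (h0 : 0 ≤ r + (2 * x - t)) :
    (r + (2 * x - t)) ^ 3 ≤ 24 * x ^ 2 * r * T3 t := by
  have hx : 0 < x := hr.trans_le hxr
  obtain ⟨u, hu, hux⟩ := exists_cbrt hx
  obtain ⟨v, hv, hvr⟩ := exists_cbrt hr
  have huv : v ≤ u := by
    by_contra hc
    push Not at hc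
    have : u ^ 3 < v ^ 3 := pow_lt_pow_left₀ hc hu.le (by norm_num)
    linarith
  have h' : 2 * u ^ 6 + v ^ 6 = 1 := by rw [← hux, ← hvr] at h; linarith [h]
  apply cube_form hu hv hux hvr h0
  have hg := gm_le hu hv h'
  have hs := s3_sq
  have hs0 : 0 < Real.sqrt 3 := Real.sqrt_pos.2 (by norm_num)
  have key : 2 * u ^ 6 + v ^ 6 ≤ 3 * (u ^ 3 + v ^ 3 - u * v ^ 2) ^ 2 := by
    have e : 3 * (u ^ 3 + v ^ 3 - u * v ^ 2) ^ 2 - (2 * u ^ 6 + v ^ 6) =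
        (u - v) ^ 3 * (u ^ 3 + 3 * u ^ 2 * v - 2 * v ^ 3) := by ring
    have h1 : 0 ≤ u - v := by linarith
    have h2 : 0 ≤ u ^ 3 + 3 * u ^ 2 * v - 2 * v ^ 3 := by
      have e2 : u ^ 3 + 3 * u ^ 2 * v - 2 * v ^ 3 = 2 * v ^ 3 +
        (u - v) * (u ^ 2 + 4 * u * v + 4 * v ^ 2) := by ring
      rw [e2]
      positivity
    have : 0 ≤ (u - v) ^ 3 * (u ^ 3 + 3 * u ^ 2 * v - 2 * v ^ 3) := by positivity
    linarith
  have hpos : 0 ≤ u ^ 3 + v ^ 3 - u * v ^ 2 := by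
    have e2 : u ^ 3 + v ^ 3 - u * v ^ 2 = v ^ 3 + u * (u - v) * (u + v) := by ring
    rw [e2]
    have h1 : 0 ≤ u - v := by linarith
    positivity
  have key2 : 1 ≤ Real.sqrt 3 * (u ^ 3 + v ^ 3 - u * v ^ 2) := by
    rw [h'] at key
    have h3 : 1 ≤ (Real.sqrt 3 * (u ^ 3 + v ^ 3 - u * v ^ 2)) ^ 2 := by
      rw [mul_pow, hs]; exact key
    have h4 : 0 ≤ Real.sqrt 3 * (u ^ 3 + v ^ 3 - u * v ^ 2) := by positivity
    nlinarith
  rw [hux, hvr] at key2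
  -- multiply the claim by (x + r)
  have hxr0 : 0 < x + r := by linarith
  have hclaim : (r + (2 * x - t)) * (x + r) ≤
      Real.sqrt 3 * (u ^ 2 * v) * (Real.sqrt 3 - t) * (x + r) := by
    -- at t0 = 1/(x+r)
    have e1 : (2 * x + r) * (x + r) - 1 = 3 * x * r := by nlinarith
    have e2 : 3 * x * r ≤ Real.sqrt 3 * (u ^ 2 * v) * (Real.sqrt 3 * (x + r) - 1) := by
      have : Real.sqrt 3 * (u * v ^ 2) ≤ Real.sqrt 3 * (x + r) - 1 := by nlinarith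
      calc 3 * x * r = Real.sqrt 3 * (u ^ 2 * v) * (Real.sqrt 3 * (u * v ^ 2)) := by
            rw [← hux, ← hvr]
            calc 3 * u ^ 3 * v ^ 3 = Real.sqrt 3 ^ 2 * (u ^ 3 * v ^ 3) := by rw [hs]; ring
              _ = _ := by ring
        _ ≤ _ := mul_le_mul_of_nonneg_left this (by positivity)
    have e3 : 0 ≤ (1 - Real.sqrt 3 * (u ^ 2 * v)) * (t * (x + r) - 1) :=
      mul_nonneg (by linarith) (by linarith)
    nlinarith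
  exact le_of_mul_le_mul_right hclaim hxr0

end Pool.Agent.H60.SL
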