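import Pool.Agent.H60.SL.KLem1

set_option autoImplicit false

namespace Pool.Agent.H60.SL

theorem P3a {x r : ℝ} (hr : 0 < r) (hxr : r ≤ x) (hx2 : x ≤ 2 * r) (h : 2 * x ^ 2 + r ^ 2 = 1) :
    9 * x * r ^ 2 ≤ 4 * (x + r) * (Real.sqrt 2 * (x + r) - 1) ^ 2 := by
  have hx : 0 < x := hr.trans_le hxr
  have hs := s2_sq
  have hs0 : 0 < Real.sqrt 2 := Real.sqrt_pos.2 (by norm_num)
  -- 8 sqrt2 (x+r)^2 <= 16x^3+32x^2r+19xr^2+12r^3
  have hR : 0 ≤ 16 * x ^ 3 + 32 * x ^ 2 * r + 19 * x * r ^ 2 + 12 * r ^ 3 := by positivity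
  have key : (8 * Real.sqrt 2 * (x + r) ^ 2) ^ 2 ≤
      (16 * x ^ 3 + 32 * x ^ 2 * r + 19 * x * r ^ 2 + 12 * r ^ 3) ^ 2 := by
    have e : (16 * x ^ 3 + 32 * x ^ 2 * r + 19 * x * r ^ 2 + 12 * r ^ 3) ^ 2 -
        128 * (x + r) ^ 4 * (2 * x ^ 2 + r ^ 2) =
        r ^ 2 * (-32 * x ^ 4 + 64 * x ^ 3 * r + 105 * x ^ 2 * r ^ 2 - 56 * x * r ^ 3 + 16 * r ^ 4) := by
      ring
    have e1 : (8 * Real.sqrt 2 * (x + r) ^ 2) ^ 2 = 128 * (x + r) ^ 4 * (2 * x ^ 2 + r ^ 2) := by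
      rw [h]
      calc (8 * Real.sqrt 2 * (x + r) ^ 2) ^ 2 = 64 * Real.sqrt 2 ^ 2 * (x + r) ^ 4 := by ring
        _ = _ := by rw [hs]; ring
    have e2 : 0 ≤ -32 * x ^ 4 + 64 * x ^ 3 * r + 105 * x ^ 2 * r ^ 2 - 56 * x * r ^ 3 + 16 * r ^ 4 := by
      have e3 : -32 * x ^ 4 + 64 * x ^ 3 * r + 105 * x ^ 2 * r ^ 2 - 56 * x * r ^ 3 + 16 * r ^ 4 =
        32 * x ^ 3 * (2 * r - x) + 56 * x * r ^ 2 * (x - r) + 49 * x ^ 2 * r ^ 2 + 16 * r ^ 4 := by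
        ring
      rw [e3]
      have a1 : 0 ≤ 2 * r - x := by linarith
      have a2 : 0 ≤ x - r := by linarith
      positivity
    have e4 : 0 ≤ r ^ 2 * (-32 * x ^ 4 + 64 * x ^ 3 * r + 105 * x ^ 2 * r ^ 2 - 56 * x * r ^ 3 +
      16 * r ^ 4) := mul_nonneg (sq_nonneg _) e2
    linarith
  have key2 : 8 * Real.sqrt 2 * (x + r) ^ 2 ≤ 16 * x ^ 3 + 32 * x ^ 2 * r + 19 * x * r ^ 2 +
      12 * r ^ 3 := by
    have := abs_le_of_sq_le_sq' key hR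
    exact this.2
  have e5 : 4 * (x + r) * (Real.sqrt 2 * (x + r) - 1) ^ 2 =
      4 * (x + r) * (Real.sqrt 2 ^ 2 * (x + r) ^ 2 + 1) - 8 * Real.sqrt 2 * (x + r) ^ 2 := by ring
  rw [e5, hs]
  have e6 : 4 * (x + r) * (2 * (x + r) ^ 2 + 1) = 8 * (x + r) ^ 3 + 4 * (x + r) * (2 * x ^ 2 + r ^ 2) := by
    rw [h]; ring
  rw [e6]
  nlinarith

theorem P3b {x r : ℝ} (hr : 0 < r) (hxr : r ≤ x) (hx2 : x ≤ 2 * r) (h : 2 * x ^ 2 + r ^ 2 = 1) :
    2 * r ^ 2 ≤ 3 * x ^ 2 * (Real.sqrt 2 - (2 * x - r)) ^ 2 := by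
  have hx : 0 < x := hr.trans_le hxr
  have hs := s2_sq
  have hs0 : 0 < Real.sqrt 2 := Real.sqrt_pos.2 (by norm_num)
  have ht := s3_sq
  have ht0 : 0 < Real.sqrt 3 := Real.sqrt_pos.2 (by norm_num)
  -- sqrt2 (sqrt3 x - r) >= sqrt3 x (2x - r)
  have a0 : 0 ≤ Real.sqrt 3 * x - r := by nlinarith [s3_lb]
  have key : (Real.sqrt 3 * x * (2 * x - r)) ^ 2 ≤ (Real.sqrt 2 * (Real.sqrt 3 * x - r)) ^ 2 := by
    have e1 : (Real.sqrt 3 * x * (2 * x - r)) ^ 2 = 3 * x ^ 2 * (2 * x - r) ^ 2 := by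
      calc _ = Real.sqrt 3 ^ 2 * x ^ 2 * (2 * x - r) ^ 2 := by ring
        _ = _ := by rw [ht]
    have e2 : (Real.sqrt 2 * (Real.sqrt 3 * x - r)) ^ 2 =
        2 * (3 * x ^ 2 - 2 * Real.sqrt 3 * x * r + r ^ 2) * (2 * x ^ 2 + r ^ 2) := by
      rw [h]
      calc _ = Real.sqrt 2 ^ 2 * (Real.sqrt 3 ^ 2 * x ^ 2 - 2 * Real.sqrt 3 * x * r + r ^ 2) := by ring
        _ = _ := by rw [ht, hs]; ring
    rw [e1, e2]
    have e3 : 2 * (3 * x ^ 2 - 2 * Real.sqrt 3 * x * r + r ^ 2) * (2 * x ^ 2 + r ^ 2) -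
        3 * x ^ 2 * (2 * x - r) ^ 2 =
        r * ((12 - 8 * Real.sqrt 3) * x ^ 3 + 7 * x ^ 2 * r - 4 * Real.sqrt 3 * x * r ^ 2 + 2 * r ^ 3) := by
      ring
    have e4 : 0 ≤ (12 - 8 * Real.sqrt 3) * x ^ 3 + 7 * x ^ 2 * r - 4 * Real.sqrt 3 * x * r ^ 2 +
        2 * r ^ 3 := by
      have b1 := s3_ub
      have b2 : (12 - 8 * Real.sqrt 3) * x ^ 3 ≥ -1.85648 * x ^ 3 := by
        have : 0 < x ^ 3 := by positivity
        nlinarith
      have b3 : 4 * Real.sqrt 3 * x * r ^ 2 ≤ 6.92824 * x * r ^ 2 := by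
        have : 0 < x * r ^ 2 := by positivity
        nlinarith
      have b4 : 0 ≤ -1.85648 * x ^ 3 + 7 * x ^ 2 * r - 6.92824 * x * r ^ 2 + 2 * r ^ 3 := by
        have c1 : 0 ≤ x - r := by linarith
        have c2 : 0 ≤ 2 * r - x := by linarith
        nlinarith [mul_nonneg (mul_nonneg c1 c2) hr.le, mul_nonneg (mul_nonneg c1 c2) hx.le,
          mul_nonneg (mul_nonneg c1 c2) c1, mul_nonneg (mul_nonneg c1 c2) c2, pow_pos hr 3,
          mul_nonneg c1 (sq_nonneg r), mul_nonneg c2 (sq_nonneg r)]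
      linarith
    have e5 : 0 ≤ r * ((12 - 8 * Real.sqrt 3) * x ^ 3 + 7 * x ^ 2 * r - 4 * Real.sqrt 3 * x * r ^ 2 +
      2 * r ^ 3) := mul_nonneg hr.le e4
    linarith
  have key2 : Real.sqrt 3 * x * (2 * x - r) ≤ Real.sqrt 2 * (Real.sqrt 3 * x - r) :=
    (abs_le_of_sq_le_sq' key (by positivity)).2
  have key3 : Real.sqrt 2 * r ≤ Real.sqrt 3 * x * (Real.sqrt 2 - (2 * x - r)) := by nlinarith
  have key4 := pow_le_pow_left₀ (by positivity) key3 2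
  have e6 : (Real.sqrt 2 * r) ^ 2 = 2 * r ^ 2 := by rw [mul_pow, hs]
  have e7 : (Real.sqrt 3 * x * (Real.sqrt 2 - (2 * x - r))) ^ 2 =
      3 * x ^ 2 * (Real.sqrt 2 - (2 * x - r)) ^ 2 := by
    rw [mul_pow, mul_pow, ht]
  rw [e6, e7] at key4
  exact key4

theorem LA3 {x r t : ℝ} (hr : 0 < r) (hxr : r ≤ x) (h : 2 * x ^ 2 + r ^ 2 = 1)
    (ht : t * (x + r) ≤ 1) (hc : 2 * x - t ≤ r) :
    (r + (2 * x - t)) ^ 3 ≤ 24 * x ^ 2 * r * T2 t := by
  have hx : 0 < x := hr.trans_le hxr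
  have hx2 : x ≤ 2 * r := by
    have h1 : (2 * x - r) * (x + r) ≤ t * (x + r) :=
      mul_le_mul_of_nonneg_right (by linarith) (by linarith)
    have h2 : r * x ≤ r * (2 * r) := by nlinarith
    exact le_of_mul_le_mul_left h2 hr
  have h3a := P3a hr hxr hx2 h
  have h3b := P3b hr hxr hx2 h
  have hs := s2_sq
  have hsl := s2_lb
  have hsu := s2_ub
  set S := x + r with hS
  have hS0 : 0 < S := by rw [hS]; linarith
  have hS1 : 1 ≤ S := by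
    have : 1 ≤ S ^ 2 := by rw [hS]; nlinarith
    nlinarith
  -- quasi-convexity
  have q := rho_qc (u := 3 * x * r / S) (v := Real.sqrt 2 - 1 / S) (d1 := 1 / S - t)
    (d2 := t - (2 * x - r)) (A := 12 * x ^ 2 * r) (by positivity)
    (by
      have : 1 / S ≤ 1 := by rw [div_le_one hS0]; exact hS1
      linarith)
    (by
      have : t ≤ 1 / S := by rw [le_div_iff₀ hS0]; exact ht
      linarith)
    (by linarith) (by positivity)
    (by
      have e1 : (3 * x * r / S) ^ 3 = (27 * x ^ 3 * r ^ 3) / S ^ 3 := by field_simp; ring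
      have e2 : 12 * x ^ 2 * r * (Real.sqrt 2 - 1 / S) ^ 2 =
          (12 * x ^ 2 * r * (S * (Real.sqrt 2 * S - 1) ^ 2)) / S ^ 3 := by field_simp
      rw [e1, e2]
      apply div_le_div_of_nonneg_right _ (by positivity)
      have e3 : 27 * x ^ 3 * r ^ 3 = 3 * x ^ 2 * r * (9 * x * r ^ 2) := by ring
      have e4 : 12 * x ^ 2 * r * (S * (Real.sqrt 2 * S - 1) ^ 2) =
        3 * x ^ 2 * r * (4 * S * (Real.sqrt 2 * S - 1) ^ 2) := by ring
      rw [e3, e4]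
      exact mul_le_mul_of_nonneg_left h3a (by positivity))
    (by
      have e0 : 3 * x * r / S = r + (2 * x - 1 / S) := by
        field_simp
        rw [hS]
        nlinarith
      have e1 : 3 * x * r / S + (1 / S - t) + (t - (2 * x - r)) = 2 * r := by rw [e0]; ring
      have e2 : Real.sqrt 2 - 1 / S + (1 / S - t) + (t - (2 * x - r)) = Real.sqrt 2 - (2 * x - r) := by
        ring
      rw [e1, e2]
      have : 4 * r * (2 * r ^ 2) ≤ 4 * r * (3 * x ^ 2 * (Real.sqrt 2 - (2 * x - r)) ^ 2) :=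
        mul_le_mul_of_nonneg_left h3b (by positivity)
      nlinarith)
  have e0 : 3 * x * r / S = r + (2 * x - 1 / S) := by
    field_simp
    rw [hS]
    nlinarith
  have e1 : 3 * x * r / S + (1 / S - t) = r + (2 * x - t) := by rw [e0]; ring
  have e2 : Real.sqrt 2 - 1 / S + (1 / S - t) = Real.sqrt 2 - t := by ring
  rw [e1, e2] at q
  rw [T2]
  linarith

theorem P4 {x r : ℝ} (hx : 0 < x) (hxl : 53 * r ≤ 100 * x) (hxr : x ≤ r)
    (h : 2 * x ^ 2 + r ^ 2 = 1) :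
    (r + (2 * x - 17 / 20)) ^ 3 ≤ 12 * x ^ 2 * r * (Real.sqrt 2 - 17 / 20) ^ 2 := by
  have hr : 0 < r := hx.trans_le hxr
  have hs := s2_lb
  have h1 : 12 * x ^ 2 * r * 0.31833 ≤ 12 * x ^ 2 * r * (Real.sqrt 2 - 17 / 20) ^ 2 := by
    apply mul_le_mul_of_nonneg_left _ (by positivity)
    nlinarith
  refine le_trans ?_ h1
  have hpos : 0 ≤ r + (2 * x - 17 / 20) := by
    have : (2 * x + r) ^ 2 ≥ 1 := by nlinarith
    nlinarith
  have hk : 53 / 100 * r ≤ x := by linarith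
  rcases le_total x (3 / 4 * r) with hc | hc
  · -- tangent at 3/5
    have t1 : (6 / 5 * x + r) / 1.3115 ≤ 1 := by
      rw [div_le_one (by norm_num)]
      have : (6 / 5 * x + r) ^ 2 ≤ 1.3115 ^ 2 := by
        nlinarith [sq_nonneg (x - 3 / 5 * r)]
      exact (abs_le_of_sq_le_sq' this (by norm_num)).2
    have t2 : r + (2 * x - 17 / 20) ≤ 1.2223 * x + 0.35191 * r := by
      have e : (6 / 5 * x + r) ≤ 1.3115 := by
        rw [div_le_one (by norm_num)] at t1; exact t1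
      nlinarith
    refine (pow_le_pow_left₀ hpos t2 3).trans ?_
    have c1 : 0 ≤ x - 53 / 100 * r := by linarith
    have c2 : 0 ≤ 3 / 4 * r - x := by linarith
    nlinarith [mul_nonneg (mul_nonneg c1 c2) hr.le, mul_nonneg (mul_nonneg c1 c2) hx.le,
      mul_nonneg (mul_nonneg c1 c2) c1, mul_nonneg (mul_nonneg c1 c2) c2, pow_pos hr 3,
      mul_nonneg c1 (sq_nonneg r), mul_nonneg c2 (sq_nonneg r)]
  · have t2 : r + (2 * x - 17 / 20) ≤ 1.0549 * x + 0.4749 * r := by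
      have e : (9 / 5 * x + r) ≤ 1.61865 := by
        have : (9 / 5 * x + r) ^ 2 ≤ 1.61865 ^ 2 := by
          nlinarith [sq_nonneg (x - 9 / 10 * r)]
        exact (abs_le_of_sq_le_sq' this (by norm_num)).2
      nlinarith
    refine (pow_le_pow_left₀ hpos t2 3).trans ?_
    have c1 : 0 ≤ x - 3 / 4 * r := by linarith
    have c2 : 0 ≤ r - x := by linarith
    nlinarith [mul_nonneg (mul_nonneg c1 c2) hr.le, mul_nonneg (mul_nonneg c1 c2) hx.le,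
      mul_nonneg (mul_nonneg c1 c2) c1, mul_nonneg (mul_nonneg c1 c2) c2, pow_pos hr 3,
      mul_nonneg c1 (sq_nonneg r), mul_nonneg c2 (sq_nonneg r)]

end Pool.Agent.H60.SL
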