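import Pool.Agent.H60.SL.KLem2

set_option autoImplicit false

namespace Pool.Agent.H60.SL

theorem T3_half : T3 (Real.sqrt 3 / 2) = 9 / 64 := by
  rw [T3]
  have := s3_sq
  calc Real.sqrt 3 * (Real.sqrt 3 - Real.sqrt 3 / 2) ^ 3 / 8 = (Real.sqrt 3 ^ 2) ^ 2 / 64 := by ring
    _ = _ := by rw [this]; norm_num

theorem T3_half_le : T3 (Real.sqrt 3 / 2) ≤ T2 (Real.sqrt 3 / 2) := by
  rw [T3_half, T2]
  nlinarith [s2_lb, s3_ub]

theorem LA4 {x r t : ℝ} (hx : 17 / 40 ≤ x) (hxr : x ≤ r) (h : 2 * x ^ 2 + r ^ 2 = 1)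
    (ht : 17 / 20 ≤ t) (ht2 : t ≤ Real.sqrt 3 / 2) :
    (r + (2 * x - t)) ^ 3 ≤ 24 * x ^ 2 * r * T2 t := by
  have hx0 : 0 < x := by linarith
  have hr0 : 0 < r := by linarith
  have hs3 := s3_ub
  have hs3l := s3_lb
  have hs2 := s2_lb
  have hrx : 53 * r ≤ 100 * x := by
    have : (53 * r) ^ 2 ≤ (100 * x) ^ 2 := by nlinarith
    exact (abs_le_of_sq_le_sq' this (by positivity)).2
  have h4 := P4 hx0 hrx hxr h
  have h21 : 1 ≤ 2 * x + r := by nlinarith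
  have h1 := LA1 (t := Real.sqrt 3 / 2) hx0 hxr (by linarith) h le_rfl (by linarith)
  have h1' : (r + (2 * x - Real.sqrt 3 / 2)) ^ 3 ≤ 24 * x ^ 2 * r * T2 (Real.sqrt 3 / 2) :=
    h1.trans (mul_le_mul_of_nonneg_left T3_half_le (by positivity))
  have q := rho_qc (u := r + (2 * x - Real.sqrt 3 / 2)) (v := Real.sqrt 2 - Real.sqrt 3 / 2)
    (d1 := Real.sqrt 3 / 2 - t) (d2 := t - 17 / 20) (A := 12 * x ^ 2 * r)
    (by linarith) (by linarith) (by linarith) (by linarith) (by positivity)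
    (by rw [T2] at h1'; linarith)
    (by
      have e1 : r + (2 * x - Real.sqrt 3 / 2) + (Real.sqrt 3 / 2 - t) + (t - 17 / 20) =
        r + (2 * x - 17 / 20) := by ring
      have e2 : Real.sqrt 2 - Real.sqrt 3 / 2 + (Real.sqrt 3 / 2 - t) + (t - 17 / 20) =
        Real.sqrt 2 - 17 / 20 := by ring
      rw [e1, e2]; exact h4)
  have e1 : r + (2 * x - Real.sqrt 3 / 2) + (Real.sqrt 3 / 2 - t) = r + (2 * x - t) := by ring
  have e2 : Real.sqrt 2 - Real.sqrt 3 / 2 + (Real.sqrt 3 / 2 - t) = Real.sqrt 2 - t := by ring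
  rw [e1, e2] at q
  rw [T2]
  linarith

theorem E1A {x r t lam : ℝ} (hx : 0 < x) (hr : 0 < r) (h : 2 * x ^ 2 + r ^ 2 = 1)
    (ht : 17 / 20 ≤ t) (htx : t ≤ 2 * x) (hc : 2 * x - t ≤ r) (l2 : T2 t ≤ lam)
    (l3 : T3 t ≤ lam) : (r + (2 * x - t)) ^ 3 ≤ 24 * x ^ 2 * r * lam := by
  have w2 : 24 * x ^ 2 * r * T2 t ≤ 24 * x ^ 2 * r * lam :=
    mul_le_mul_of_nonneg_left l2 (by positivity)
  have w3 : 24 * x ^ 2 * r * T3 t ≤ 24 * x ^ 2 * r * lam :=
    mul_le_mul_of_nonneg_left l3 (by positivity)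
  rcases le_total x r with hxr | hxr
  · rcases le_total t (Real.sqrt 3 / 2) with h1 | h1
    · exact (LA4 (by linarith) hxr h ht h1).trans w2
    · refine (LA1 hx hxr ?_ h h1 (by linarith)).trans w3
      have : r ^ 2 ≤ (8 * x) ^ 2 := by nlinarith
      exact (abs_le_of_sq_le_sq' this (by positivity)).2
  · rcases le_total (t * (x + r)) 1 with h1 | h1
    · exact (LA3 hr hxr h h1 hc).trans w2
    · exact (LA2 hr hxr h h1 (by linarith)).trans w3

theorem E1B {x r t lam : ℝ} (hx : 0 < x) (hr : 0 ≤ r) (h : 2 * x ^ 2 + r ^ 2 = 1)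
    (ht : 17 / 20 ≤ t) (hc : r ≤ 2 * x - t) (l2 : T2 t ≤ lam)
    (l3 : T3 t ≤ lam) : r ^ 2 + 3 * (2 * x - t) ^ 2 ≤ 12 * x ^ 2 * lam := by
  have hs := s2_sq
  have hs0 : 0 < Real.sqrt 2 := Real.sqrt_pos.2 (by norm_num)
  have hl : 0 ≤ lam := le_trans (by rw [T2]; positivity) l2
  -- bounds: x <= 1/sqrt2
  have hx2 : 2 * x ^ 2 ≤ 1 := by nlinarith
  have hxs : Real.sqrt 2 * x ≤ 1 := by
    have : (Real.sqrt 2 * x) ^ 2 ≤ 1 ^ 2 := by rw [mul_pow, hs]; linarith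
    exact (abs_le_of_sq_le_sq' this (by norm_num)).2
  have ht2 : t ^ 2 ≤ 2 := by nlinarith
  -- the glue point
  have h6 : 0 ≤ 6 - 2 * t ^ 2 := by linarith
  set w := Real.sqrt (6 - 2 * t ^ 2) with hw
  have hw2 : w ^ 2 = 6 - 2 * t ^ 2 := Real.sq_sqrt h6
  have hw0 : 0 ≤ w := Real.sqrt_nonneg _
  have hwt : t ≤ w := by
    have : t ^ 2 ≤ w ^ 2 := by rw [hw2]; nlinarith
    exact (abs_le_of_sq_le_sq' this hw0).2
  set x' := (2 * t + w) / 6 with hx'
  set r' := (w - t) / 3 with hr'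
  have hx'0 : 0 < x' := by rw [hx']; linarith
  have hr'0 : 0 ≤ r' := by rw [hr']; linarith
  have h' : 2 * x' ^ 2 + r' ^ 2 = 1 := by
    rw [hx', hr']
    nlinarith
  have hc' : 2 * x' - t = r' := by rw [hx', hr']; ring
  -- value at x'
  have g' : r' ^ 2 ≤ 3 * x' ^ 2 * lam := by
    rcases eq_or_lt_of_le hr'0 with h0 | h0
    · rw [← h0]
      have : 0 ≤ 3 * x' ^ 2 * lam := by positivity
      linarith
    · have := E1A hx'0 h0 h' ht (by linarith) (by rw [hc']) l2 l3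
      rw [hc'] at this
      have e : (r' + r') ^ 3 = 8 * r' * r' ^ 2 := by ring
      rw [e] at this
      have e2 : 24 * x' ^ 2 * r' * lam = 8 * r' * (3 * x' ^ 2 * lam) := by ring
      rw [e2] at this
      exact le_of_mul_le_mul_left this (by positivity)
  -- x' <= x
  have hxx : x' ≤ x := by
    by_contra hcon
    push Not at hcon
    have h1 : r' < r := by
      have : r' ^ 2 < r ^ 2 := by nlinarith
      exact lt_of_pow_lt_pow_left₀ 2 hr this
    linarith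
  -- the function in y = 1/x: work with products
  -- N(x) = 1 + 10 x^2 - 12 x t + 3 t^2 - 12 lam x^2
  have n1 : 1 + 10 * x' ^ 2 - 12 * x' * t + 3 * t ^ 2 - 12 * lam * x' ^ 2 ≤ 0 := by
    have e : 1 + 10 * x' ^ 2 - 12 * x' * t + 3 * t ^ 2 - 12 * lam * x' ^ 2 =
      (1 - 2 * x' ^ 2) + 3 * (2 * x' - t) ^ 2 - 12 * lam * x' ^ 2 := by ring
    rw [e, hc']
    nlinarith
  have n2 : 6 - 6 * Real.sqrt 2 * t + 3 * t ^ 2 - 6 * lam ≤ 0 := by
    rw [T2] at l2
    nlinarith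
  -- with z = sqrt2 x in (0,1], z' = sqrt2 x'
  have goal2 : 1 + 10 * x ^ 2 - 12 * x * t + 3 * t ^ 2 - 12 * lam * x ^ 2 ≤ 0 := by
    -- y = 1/x, y2 = sqrt 2, y' = 1/x'
    have key : ∀ y y2 y' : ℝ, y2 ≤ y → y ≤ y' →
        (1 + 3 * t ^ 2) * y2 ^ 2 - 12 * t * y2 + 10 - 12 * lam ≤ 0 →
        (1 + 3 * t ^ 2) * y' ^ 2 - 12 * t * y' + 10 - 12 * lam ≤ 0 →
        (1 + 3 * t ^ 2) * y ^ 2 - 12 * t * y + 10 - 12 * lam ≤ 0 := by
      intro y y2 y' a1 a2 b1 b2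
      rcases eq_or_lt_of_le (a1.trans a2) with h3 | h3
      · have : y = y2 := le_antisymm (by linarith) a1
        rw [this]; exact b1
      · have e : (y' - y2) * ((1 + 3 * t ^ 2) * y ^ 2 - 12 * t * y + 10 - 12 * lam) =
          (y' - y) * ((1 + 3 * t ^ 2) * y2 ^ 2 - 12 * t * y2 + 10 - 12 * lam) +
          (y - y2) * ((1 + 3 * t ^ 2) * y' ^ 2 - 12 * t * y' + 10 - 12 * lam) -
          (1 + 3 * t ^ 2) * ((y' - y2) * ((y' - y) * (y - y2))) := by ring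
        have c1 : (y' - y) * ((1 + 3 * t ^ 2) * y2 ^ 2 - 12 * t * y2 + 10 - 12 * lam) ≤ 0 :=
          mul_nonpos_of_nonneg_of_nonpos (by linarith) b1
        have c2 : (y - y2) * ((1 + 3 * t ^ 2) * y' ^ 2 - 12 * t * y' + 10 - 12 * lam) ≤ 0 :=
          mul_nonpos_of_nonneg_of_nonpos (by linarith) b2
        have c3 : 0 ≤ (1 + 3 * t ^ 2) * ((y' - y2) * ((y' - y) * (y - y2))) := by
          have d1 : 0 ≤ y' - y2 := by linarith
          have d2 : 0 ≤ y' - y := by linarith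
          have d3 : 0 ≤ y - y2 := by linarith
          positivity
        by_contra hcon
        push Not at hcon
        have : 0 < (y' - y2) * ((1 + 3 * t ^ 2) * y ^ 2 - 12 * t * y + 10 - 12 * lam) :=
          mul_pos (by linarith) hcon
        linarith
    have k := key (1 / x) (Real.sqrt 2) (1 / x')
      (by rw [le_div_iff₀ hx]; exact hxs)
      (one_div_le_one_div_of_le hx'0 hxx)
      (by rw [hs]; linarith)
      (by
        have e : (1 + 3 * t ^ 2) * (1 / x') ^ 2 - 12 * t * (1 / x') + 10 - 12 * lam =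
          (1 + 10 * x' ^ 2 - 12 * x' * t + 3 * t ^ 2 - 12 * lam * x' ^ 2) / x' ^ 2 := by
          field_simp
          ring
        rw [e]
        exact div_nonpos_of_nonpos_of_nonneg n1 (by positivity))
    have e : (1 + 3 * t ^ 2) * (1 / x) ^ 2 - 12 * t * (1 / x) + 10 - 12 * lam =
      (1 + 10 * x ^ 2 - 12 * x * t + 3 * t ^ 2 - 12 * lam * x ^ 2) / x ^ 2 := by
      field_simp
      ring
    rw [e] at k
    by_contra hcon
    push Not at hcon
    have : 0 < (1 + 10 * x ^ 2 - 12 * x * t + 3 * t ^ 2 - 12 * lam * x ^ 2) / x ^ 2 :=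
      div_pos hcon (by positivity)
    linarith
  nlinarith

theorem E1 {x r t lam : ℝ} (hx : 0 < x) (hr : 0 ≤ r) (h : 2 * x ^ 2 + r ^ 2 = 1)
    (ht : 17 / 20 ≤ t) (htx : t ≤ 2 * x) (l2 : T2 t ≤ lam) (l3 : T3 t ≤ lam) :
    KG r t lam (2 * x) := by
  have e : (2 * x) ^ 2 - 1 + r ^ 2 = 2 * x ^ 2 := by rw [← h]; ring
  constructor
  · intro hc
    rw [e]
    rcases eq_or_lt_of_le hr with h0 | h0
    · rw [← h0]
      have : 2 * x - t = 0 := by linarith
      rw [this]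
      simp
    · have := E1A hx h0 h ht htx hc l2 l3
      linarith
  · intro hc
    rw [e]
    have := E1B hx hr h ht hc l2 l3
    linarith

end Pool.Agent.H60.SL
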