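import Pool.Agent.H60.SL.KLem2

set_option autoImplicit false

namespace Pool.Agent.H60.SL

/-- (E2b): `c = 0`, `t >= 1` -/
theorem PE2 {t : ℝ} (h1 : 1 ≤ t) (h2 : t ^ 2 ≤ 2) : 2 ≤ t ^ 2 * (1 + 12 * T3 t) := by
  have hs := s3_sq
  have hs0 : 0 < Real.sqrt 3 := Real.sqrt_pos.2 (by norm_num)
  obtain ⟨τ, hτ⟩ : ∃ τ, t = Real.sqrt 3 * τ := ⟨t / Real.sqrt 3, by field_simp⟩
  have e1 : T3 t = 9 * (1 - τ) ^ 3 / 8 := by
    rw [T3, hτ]
    calc Real.sqrt 3 * (Real.sqrt 3 - Real.sqrt 3 * τ) ^ 3 / 8 =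
        (Real.sqrt 3 ^ 2) ^ 2 * (1 - τ) ^ 3 / 8 := by ring
      _ = _ := by rw [hs]; ring
  have e2 : t ^ 2 = 3 * τ ^ 2 := by rw [hτ, mul_pow, hs]
  have t1 : 1 / 3 ≤ τ ^ 2 := by nlinarith
  have t2 : τ ^ 2 ≤ 2 / 3 := by nlinarith
  have hτ0 : 0 < τ := by
    by_contra hc
    push Not at hc
    nlinarith
  have t3 : 0.57 ≤ τ := by nlinarith
  have t4 : τ ≤ 0.82 := by nlinarith
  rw [e1, e2]
  have e3 : 3 * τ ^ 2 * (1 + 12 * (9 * (1 - τ) ^ 3 / 8)) - 2 =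
      1 / 2 * ((3 * τ - 2) ^ 2 * (-9 * τ ^ 3 + 15 * τ ^ 2 - 3 * τ - 1)) := by ring
  have e4 : 0 ≤ -9 * τ ^ 3 + 15 * τ ^ 2 - 3 * τ - 1 := by
    have c1 : 0 ≤ τ - 0.57 := by linarith
    have c2 : 0 ≤ 0.82 - τ := by linarith
    nlinarith [mul_nonneg c1 c2, mul_nonneg (mul_nonneg c1 c2) c1, mul_nonneg (mul_nonneg c1 c2) c2]
  have e5 : 0 ≤ 1 / 2 * ((3 * τ - 2) ^ 2 * (-9 * τ ^ 3 + 15 * τ ^ 2 - 3 * τ - 1)) := by positivity
  linarith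

theorem T2_nonneg (t : ℝ) : 0 ≤ T2 t := by rw [T2]; positivity

/-- (E2): the left end `p = t` -/
theorem E2 {r t lam : ℝ} (hr : 0 ≤ r) (hrt : t ^ 2 ≤ 2 * (1 - r ^ 2)) (ht : 17 / 20 ≤ t)
    (hq : t < 1 → 1 - t ^ 2 + 3 / 5 * (t - 3 / 10) ≤ r ^ 2)
    (l2 : T2 t ≤ lam) (l3 : 1 ≤ t → T3 t ≤ lam) : KG r t lam t := by
  have hl : 0 ≤ lam := (T2_nonneg t).trans l2
  have key : r ^ 2 ≤ 12 * lam * (t ^ 2 - 1 + r ^ 2) := by
    rcases le_or_gt 1 t with h1 | h1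
    · have hP := PE2 h1 (by nlinarith [sq_nonneg r])
      have hP2 : 2 ≤ t ^ 2 * (1 + 12 * lam) := by
        refine hP.trans (mul_le_mul_of_nonneg_left ?_ (sq_nonneg _))
        have := l3 h1
        linarith
      rcases le_total 1 (12 * lam) with h2 | h2
      · have : 0 ≤ (12 * lam - 1) * r ^ 2 := mul_nonneg (by linarith) (sq_nonneg _)
        have : 0 ≤ 12 * lam * (t ^ 2 - 1) := mul_nonneg (by linarith) (by nlinarith)
        nlinarith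
      · have h3 : (1 - 12 * lam) * r ^ 2 ≤ (1 - 12 * lam) * (1 - t ^ 2 / 2) :=
          mul_le_mul_of_nonneg_left (by linarith) (by linarith)
        nlinarith
    · have hq' := hq h1
      have hs := s2_lb
      rw [T2] at l2
      have h2 : 6 * (1.41421 - t) ^ 2 ≤ 12 * lam := by
        have : (1.41421 - t) ^ 2 ≤ (Real.sqrt 2 - t) ^ 2 :=
          pow_le_pow_left₀ (by linarith) (by linarith) 2
        linarith
      have h3 : 1 - t ^ 2 ≤ (3 / 5 * (t - 3 / 10)) * (6 * (1.41421 - t) ^ 2 - 1) := by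
        have c1 : 0 ≤ t - 17 / 20 := by linarith
        have c2 : 0 ≤ 1 - t := by linarith
        nlinarith [mul_nonneg c1 c2, mul_nonneg (mul_nonneg c1 c2) c1,
          mul_nonneg (mul_nonneg c1 c2) c2]
      have h4 : 0 < 6 * (1.41421 - t) ^ 2 - 1 := by nlinarith
      have h5 : (3 / 5 * (t - 3 / 10)) * (6 * (1.41421 - t) ^ 2 - 1) ≤
          (r ^ 2 - (1 - t ^ 2)) * (12 * lam - 1) := by
        apply mul_le_mul (by linarith) (by linarith) h4.le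
        nlinarith
      nlinarith
  constructor
  · intro _
    have : r * r ^ 2 ≤ r * (12 * lam * (t ^ 2 - 1 + r ^ 2)) := mul_le_mul_of_nonneg_left key hr
    have e : (r + (t - t)) ^ 3 = r * r ^ 2 := by ring
    rw [e]
    linarith
  · intro h
    have h0 : r = 0 := by linarith
    have h1 : 1 ≤ t := by
      by_contra hc
      push Not at hc
      have := hq hc
      rw [h0] at this
      nlinarith
    rw [h0]
    have : 0 ≤ lam * (t ^ 2 - 1) := mul_nonneg hl (by nlinarith)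
    nlinarith

/-- `K1/T3` is nonincreasing in `t` -/
theorem K1_T3_mono {h t1 t A : ℝ} (h3 : h ≤ Real.sqrt 3) (hA : 0 ≤ A) (h1 : t1 ≤ t) (hth : t ≤ h)
    (g : (h - t1) ^ 3 ≤ A * (Real.sqrt 3 - t1) ^ 3) : (h - t) ^ 3 ≤ A * (Real.sqrt 3 - t) ^ 3 := by
  rcases eq_or_lt_of_le (hth.trans h3) with h0 | h0
  · have : h - t = 0 := by linarith
    rw [this, h0]; simp
  · have e : (h - t) * (Real.sqrt 3 - t1) ≤ (h - t1) * (Real.sqrt 3 - t) := by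
      have : 0 ≤ (Real.sqrt 3 - h) * (t - t1) := mul_nonneg (by linarith) (by linarith)
      nlinarith
    have e2 := pow_le_pow_left₀ (mul_nonneg (by linarith) (by linarith)) e 3
    rw [mul_pow, mul_pow] at e2
    have hp : 0 < (Real.sqrt 3 - t1) ^ 3 := pow_pos (by linarith) 3
    have hp2 : 0 ≤ (Real.sqrt 3 - t) ^ 3 := pow_nonneg (by linarith) 3
    have e3 : (h - t) ^ 3 * (Real.sqrt 3 - t1) ^ 3 ≤ A * (Real.sqrt 3 - t) ^ 3 * (Real.sqrt 3 - t1) ^ 3 := by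
      calc _ ≤ (h - t1) ^ 3 * (Real.sqrt 3 - t) ^ 3 := e2
        _ ≤ A * (Real.sqrt 3 - t1) ^ 3 * (Real.sqrt 3 - t) ^ 3 := mul_le_mul_of_nonneg_right g hp2
        _ = _ := by ring
    exact le_of_mul_le_mul_right e3 hp

/-- `K2/T3` is nondecreasing in `c` for `r ≤ c ≤ s` -/
theorem K2_T3_mono {r c c1 s A : ℝ} (hr : 0 ≤ r) (hrc : r ≤ c) (hc : c ≤ c1) (hs : c1 ≤ s)
    (hs0 : 0 < s) (g : r ^ 2 + 3 * c1 ^ 2 ≤ A * (s + c1) ^ 3) :
    r ^ 2 + 3 * c ^ 2 ≤ A * (s + c) ^ 3 := by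
  have hc0 : 0 ≤ c := hr.trans hrc
  have key : (r ^ 2 + 3 * c ^ 2) * (s + c1) ^ 3 ≤ (r ^ 2 + 3 * c1 ^ 2) * (s + c) ^ 3 := by
    obtain ⟨δ, hδ⟩ : ∃ δ, c1 = c + δ := ⟨c1 - c, by ring⟩
    have hδ0 : 0 ≤ δ := by linarith
    obtain ⟨S, hS⟩ : ∃ S, s = S - c := ⟨s + c, by ring⟩
    have hS2 : 2 * c + δ ≤ S := by rw [hS] at hs; linarith
    have hS0 : 0 ≤ S := by linarith
    rw [hδ, hS]
    have e : (r ^ 2 + 3 * (c + δ) ^ 2) * (S - c + c) ^ 3 - (r ^ 2 + 3 * c ^ 2) * (S - c + (c + δ)) ^ 3 =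
        δ * ((6 * c + 3 * δ) * S ^ 3 - (r ^ 2 + 3 * c ^ 2) * (3 * S ^ 2 + 3 * S * δ + δ ^ 2)) := by
      ring
    have h1 : (r ^ 2 + 3 * c ^ 2) * (3 * S ^ 2 + 3 * S * δ + δ ^ 2) ≤
        (4 * c ^ 2) * (3 * S ^ 2 + 3 * S * δ + δ ^ 2) := by
      apply mul_le_mul_of_nonneg_right _ (by positivity)
      nlinarith
    have h2 : 0 ≤ (6 * c + 3 * δ) * S ^ 3 - (4 * c ^ 2) * (3 * S ^ 2 + 3 * S * δ + δ ^ 2) := by
      have e2 : (6 * c + 3 * δ) * S ^ 3 - (4 * c ^ 2) * (3 * S ^ 2 + 3 * S * δ + δ ^ 2) =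
          6 * c * S ^ 2 * (S - 2 * c) + 3 * δ * S * ((S - 2 * c - δ) * (S + 2 * c + δ)) +
          3 * δ * S * (δ ^ 2) + 12 * c * δ ^ 2 * (S - c) + 8 * c ^ 2 * δ ^ 2 := by ring
      rw [e2]
      have a1 : 0 ≤ S - 2 * c := by linarith
      have a2 : 0 ≤ S - 2 * c - δ := by linarith
      have a3 : 0 ≤ S - c := by linarith
      positivity
    have h3 : 0 ≤ δ * ((6 * c + 3 * δ) * S ^ 3 - (r ^ 2 + 3 * c ^ 2) * (3 * S ^ 2 + 3 * S * δ + δ ^ 2)) :=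
      mul_nonneg hδ0 (by linarith)
    linarith
  have hp : 0 < (s + c1) ^ 3 := pow_pos (by linarith) 3
  have hp2 : 0 ≤ (s + c) ^ 3 := pow_nonneg (by linarith) 3
  have e3 : (r ^ 2 + 3 * c ^ 2) * (s + c1) ^ 3 ≤ A * (s + c) ^ 3 * (s + c1) ^ 3 := by
    calc _ ≤ (r ^ 2 + 3 * c1 ^ 2) * (s + c) ^ 3 := key
      _ ≤ A * (s + c1) ^ 3 * (s + c) ^ 3 := mul_le_mul_of_nonneg_right g hp2
      _ = _ := by ring
  exact le_of_mul_le_mul_right e3 hp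

end Pool.Agent.H60.SL
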