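import Pool.Agent.H60.SL.KLem4

set_option autoImplicit false

namespace Pool.Agent.H60.SL

theorem T3_ge : 0.0801 ≤ T3 1.0139 := by
  rw [T3]
  have h := s3_lb
  have h0 : (0.71815 : ℝ) ^ 3 ≤ (Real.sqrt 3 - 1.0139) ^ 3 :=
    pow_le_pow_left₀ (by norm_num) (by linarith) 3
  nlinarith

theorem T2_ge : 0.0801 ≤ T2 1.0139 := by
  rw [T2]
  nlinarith [s2_lb]

/-- (E3), `al <= .87` : the form `K1` -/
theorem E3a {α r t lam : ℝ} (hα : 0 ≤ α) (hα1 : α ≤ 0.87) (hr : 0 ≤ r) (h : α ^ 2 + r ^ 2 = 0.91)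
    (ht : 17 / 20 ≤ t) (htp : t ≤ α + 0.3) (l2 : T2 t ≤ lam) (l3 : 1 ≤ t → T3 t ≤ lam)
    (he2 : KG r (α + 0.3) (T2 (α + 0.3)) (α + 0.3) ∨ 1.0139 ≤ α + 0.3) :
    (r + (α + 0.3 - t)) ^ 3 ≤ 7.2 * r * α * lam := by
  have hα0 : 0.55 ≤ α := by linarith
  have hr0 : 0.39 ≤ r := by nlinarith
  have hl : 0 ≤ lam := (T2_nonneg t).trans l2
  have hσ : (α + r) ^ 2 = 0.91 + 2 * (α * r) := by nlinarith
  have hσ1 : 1.26 ≤ α + r := by
    have : 1.2 ^ 2 ≤ (α + r) ^ 2 := by nlinarith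
    have h2 : 1.2 ≤ α + r := (abs_le_of_sq_le_sq' this (by linarith)).2
    nlinarith
  have hσ2 : α + r ≤ 1.3492 := by
    have : (α + r) ^ 2 ≤ 1.3492 ^ 2 := by nlinarith [sq_nonneg (α - r)]
    exact (abs_le_of_sq_le_sq' this (by norm_num)).2
  have hsl := s2_lb
  have hsu := s2_ub
  obtain ⟨σ, hσe⟩ : ∃ σ, α + r = σ := ⟨_, rfl⟩
  rw [hσe] at hσ hσ1 hσ2
  -- t = 17/20
  have q1 : (r + (α + 0.3 - 17 / 20)) ^ 3 ≤ 3.6 * (α * r) * (Real.sqrt 2 - 17 / 20) ^ 2 := by
    have e : r + (α + 0.3 - 17 / 20) = σ - 0.55 := by rw [← hσe]; ring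
    rw [e]
    have h1 : 0.31833 ≤ (Real.sqrt 2 - 17 / 20) ^ 2 := by nlinarith
    have h2 : 3.6 * (α * r) * 0.31833 ≤ 3.6 * (α * r) * (Real.sqrt 2 - 17 / 20) ^ 2 :=
      mul_le_mul_of_nonneg_left h1 (by positivity)
    refine le_trans ?_ h2
    have h3 : α * r = (σ ^ 2 - 0.91) / 2 := by linarith
    rw [h3]
    have c1 : 0 ≤ σ - 1.26 := by linarith
    have c2 : 0 ≤ 1.3492 - σ := by linarith
    nlinarith [mul_nonneg c1 c2, mul_nonneg (mul_nonneg c1 c2) c1, mul_nonneg (mul_nonneg c1 c2) c2]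
  -- t = 1.0139, if available
  have q2 : 1.0139 ≤ α + 0.3 → (r + (α + 0.3 - 1.0139)) ^ 3 ≤ 7.2 * (α * r) * 0.0801 := by
    intro _
    have e : r + (α + 0.3 - 1.0139) = σ - 0.7139 := by rw [← hσe]; ring
    rw [e]
    have h3 : α * r = (σ ^ 2 - 0.91) / 2 := by linarith
    rw [h3]
    have c1 : 0 ≤ σ - 1.26 := by linarith
    have c2 : 0 ≤ 1.3492 - σ := by linarith
    nlinarith [mul_nonneg c1 c2, mul_nonneg (mul_nonneg c1 c2) c1, mul_nonneg (mul_nonneg c1 c2) c2]
  -- general quasi-convexity step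
  have step : ∀ T, T < Real.sqrt 2 → t ≤ T → T ≤ α + 0.3 + r →
      0 < r + (α + 0.3 - T) →
      (r + (α + 0.3 - T)) ^ 3 ≤ 3.6 * (α * r) * (Real.sqrt 2 - T) ^ 2 →
      (r + (α + 0.3 - t)) ^ 3 ≤ 7.2 * r * α * lam := by
    intro T hT1 hT2 hT3 hT4 hT5
    have q := rho_qc (u := r + (α + 0.3 - T)) (v := Real.sqrt 2 - T) (d1 := T - t)
      (d2 := t - 17 / 20) (A := 3.6 * (α * r)) hT4 (by linarith) (by linarith) (by linarith)
      (by positivity) hT5
      (by
        have e1 : r + (α + 0.3 - T) + (T - t) + (t - 17 / 20) = r + (α + 0.3 - 17 / 20) := by ring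
        have e2 : Real.sqrt 2 - T + (T - t) + (t - 17 / 20) = Real.sqrt 2 - 17 / 20 := by ring
        rw [e1, e2]; exact q1)
    have e1 : r + (α + 0.3 - T) + (T - t) = r + (α + 0.3 - t) := by ring
    have e2 : Real.sqrt 2 - T + (T - t) = Real.sqrt 2 - t := by ring
    rw [e1, e2] at q
    refine q.trans ?_
    rw [T2] at l2
    have : 7.2 * (α * r) * ((Real.sqrt 2 - t) ^ 2 / 2) ≤ 7.2 * (α * r) * lam :=
      mul_le_mul_of_nonneg_left l2 (by positivity)
    linarith
  rcases le_total t 1.0139 with ht1 | ht1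
  · rcases he2 with he | he
    · rcases le_total 1.0139 (α + 0.3) with hp | hp
      · refine step 1.0139 (by linarith) ht1 (by linarith) (by linarith) ?_
        have h1 := T2_ge
        rw [T2] at h1
        have : 7.2 * (α * r) * 0.0801 ≤ 7.2 * (α * r) * ((Real.sqrt 2 - 1.0139) ^ 2 / 2) :=
          mul_le_mul_of_nonneg_left h1 (by positivity)
        have := q2 hp
        linarith
      · refine step (α + 0.3) (by linarith) htp (by linarith) (by linarith) ?_
        have := he.1 (by linarith)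
        rw [T2] at this
        refine this.trans (le_of_eq ?_)
        have : (α + 0.3) ^ 2 - 1 + r ^ 2 = 0.6 * α := by nlinarith
        rw [this]
        ring
    · refine step 1.0139 (by linarith) ht1 (by linarith) (by linarith) ?_
      have h1 := T2_ge
      rw [T2] at h1
      have : 7.2 * (α * r) * 0.0801 ≤ 7.2 * (α * r) * ((Real.sqrt 2 - 1.0139) ^ 2 / 2) :=
        mul_le_mul_of_nonneg_left h1 (by positivity)
      have := q2 he
      linarith
  · have hp : 1.0139 ≤ α + 0.3 := ht1.trans htp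
    have h2 := q2 hp
    have h3 := T3_ge
    have h4 : 7.2 * (α * r) * 0.0801 ≤ 7.2 * (α * r) * T3 1.0139 :=
      mul_le_mul_of_nonneg_left h3 (by positivity)
    have hs3 := s3_lb
    have hs0 : 0 < Real.sqrt 3 := by linarith
    have m := K1_T3_mono (h := α + 0.3 + r) (t1 := 1.0139) (t := t)
      (A := 0.9 * (α * r) * Real.sqrt 3) (by linarith) (by positivity) ht1 (by linarith)
      (by
        rw [T3] at h4
        have e : α + 0.3 + r - 1.0139 = r + (α + 0.3 - 1.0139) := by ring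
        rw [e]
        linarith)
    have e : α + 0.3 + r - t = r + (α + 0.3 - t) := by ring
    rw [e] at m
    refine m.trans ?_
    have h5 := l3 (by linarith)
    rw [T3] at h5
    have : 7.2 * (α * r) * (Real.sqrt 3 * (Real.sqrt 3 - t) ^ 3 / 8) ≤ 7.2 * (α * r) * lam :=
      mul_le_mul_of_nonneg_left h5 (by positivity)
    linarith

/-- (E3), `al >= .87` : the form `K2` for `t ≤ 1.0139` -/
theorem E3b {α r t : ℝ} (hα : 0.87 ≤ α) (h : α ^ 2 + r ^ 2 = 0.91)
    (ht : 17 / 20 ≤ t) (ht1 : t ≤ 1.0139) :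
    r ^ 2 + 3 * (α + 0.3 - t) ^ 2 ≤ 3.6 * α * T2 t := by
  have hα2 : α ≤ 0.954 := by nlinarith [sq_nonneg r]
  have hsl := s2_lb
  have hsu := s2_ub
  have h2 := T2_ge
  -- endpoints
  have g1 : r ^ 2 + 3 * (α + 0.3 - 17 / 20) ^ 2 ≤ 1.8 * α * (Real.sqrt 2 - 17 / 20) ^ 2 := by
    have h1 : 0.31833 ≤ (Real.sqrt 2 - 17 / 20) ^ 2 := by nlinarith
    have h2 : 1.8 * α * 0.31833 ≤ 1.8 * α * (Real.sqrt 2 - 17 / 20) ^ 2 :=
      mul_le_mul_of_nonneg_left h1 (by linarith)
    refine le_trans ?_ h2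
    have c1 : 0 ≤ α - 0.87 := by linarith
    have c2 : 0 ≤ 0.954 - α := by linarith
    nlinarith [mul_nonneg c1 c2]
  have g2 : r ^ 2 + 3 * (α + 0.3 - 1.0139) ^ 2 ≤ 1.8 * α * (Real.sqrt 2 - 1.0139) ^ 2 := by
    rw [T2] at h2
    have h3 : 1.8 * α * (2 * 0.0801) ≤ 1.8 * α * (Real.sqrt 2 - 1.0139) ^ 2 :=
      mul_le_mul_of_nonneg_left (by linarith) (by linarith)
    refine le_trans ?_ h3
    have c1 : 0 ≤ α - 0.87 := by linarith
    have c2 : 0 ≤ 0.954 - α := by linarith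
    nlinarith [mul_nonneg c1 c2]
  -- convexity in t
  have key : (1.0139 - 17 / 20) * (1.8 * α * (Real.sqrt 2 - t) ^ 2 - (r ^ 2 + 3 * (α + 0.3 - t) ^ 2)) =
      (1.0139 - t) * (1.8 * α * (Real.sqrt 2 - 17 / 20) ^ 2 - (r ^ 2 + 3 * (α + 0.3 - 17 / 20) ^ 2)) +
      (t - 17 / 20) * (1.8 * α * (Real.sqrt 2 - 1.0139) ^ 2 - (r ^ 2 + 3 * (α + 0.3 - 1.0139) ^ 2)) +
      (1.0139 - 17 / 20) * ((1.0139 - t) * (t - 17 / 20)) * (3 - 1.8 * α) := by ring
  have e1 : 0 ≤ (1.0139 - t) * (1.8 * α * (Real.sqrt 2 - 17 / 20) ^ 2 -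
    (r ^ 2 + 3 * (α + 0.3 - 17 / 20) ^ 2)) := mul_nonneg (by linarith) (by linarith)
  have e2 : 0 ≤ (t - 17 / 20) * (1.8 * α * (Real.sqrt 2 - 1.0139) ^ 2 -
    (r ^ 2 + 3 * (α + 0.3 - 1.0139) ^ 2)) := mul_nonneg (by linarith) (by linarith)
  have e3 : 0 ≤ (1.0139 - 17 / 20) * ((1.0139 - t) * (t - 17 / 20)) * (3 - 1.8 * α) :=
    mul_nonneg (mul_nonneg (by norm_num) (mul_nonneg (by linarith) (by linarith))) (by linarith)
  rw [T2]
  norm_num at key e1 e2 e3 ⊢
  linarith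

theorem K1_of_K2 {r c B : ℝ} (hr : 0 ≤ r) (hc : c ≤ r) (h : r ^ 2 + 3 * c ^ 2 ≤ B) :
    (r + c) ^ 3 ≤ 2 * r * B := by
  have h1 : (r + c) ^ 3 = 2 * r * (r ^ 2 + 3 * c ^ 2) - (r - c) ^ 3 := by ring
  have h2 : 0 ≤ (r - c) ^ 3 := pow_nonneg (by linarith) 3
  have h3 : 2 * r * (r ^ 2 + 3 * c ^ 2) ≤ 2 * r * B := mul_le_mul_of_nonneg_left h (by linarith)
  linarith

theorem E3 {α r t lam : ℝ} (hα : 0 ≤ α) (hr : 0 ≤ r) (h : α ^ 2 + r ^ 2 = 0.91)
    (ht : 17 / 20 ≤ t) (htp : t ≤ α + 0.3) (l2 : T2 t ≤ lam) (l3 : 1 ≤ t → T3 t ≤ lam) :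
    KG r t lam (α + 0.3) := by
  have hl : 0 ≤ lam := (T2_nonneg t).trans l2
  have e0 : (α + 0.3) ^ 2 - 1 + r ^ 2 = 0.6 * α := by nlinarith
  rcases le_total α 0.87 with hα1 | hα1
  · have hα0 : 0.55 ≤ α := by linarith
    have hr0 : 0.39 ≤ r := by nlinarith
    have he2 : KG r (α + 0.3) (T2 (α + 0.3)) (α + 0.3) ∨ 1.0139 ≤ α + 0.3 := by
      rcases le_or_gt 1.0139 (α + 0.3) with hp | hp
      · exact Or.inr hp
      · left
        -- direct: r^2 <= 12 T2(p) (0.6 α)
        have k : r ^ 2 ≤ 6 * (Real.sqrt 2 - (α + 0.3)) ^ 2 * (0.6 * α) := by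
          have hsl := s2_lb
          have h1 : (1.41421 - (α + 0.3)) ^ 2 ≤ (Real.sqrt 2 - (α + 0.3)) ^ 2 :=
            pow_le_pow_left₀ (by linarith) (by linarith) 2
          have h2 : 6 * (1.41421 - (α + 0.3)) ^ 2 * (0.6 * α) ≤
              6 * (Real.sqrt 2 - (α + 0.3)) ^ 2 * (0.6 * α) :=
            mul_le_mul_of_nonneg_right (by linarith) (by linarith)
          refine le_trans ?_ h2
          have c1 : 0 ≤ α - 0.55 := by linarith
          have c2 : 0 ≤ 0.7139 - α := by linarith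
          nlinarith [mul_nonneg c1 c2, mul_nonneg (mul_nonneg c1 c2) c1,
            mul_nonneg (mul_nonneg c1 c2) c2]
        constructor
        · intro _
          rw [e0, T2]
          have e : (r + (α + 0.3 - (α + 0.3))) ^ 3 = r * r ^ 2 := by ring
          rw [e]
          have := mul_le_mul_of_nonneg_left k hr
          linarith
        · intro h1
          linarith
    have hK := E3a hα hα1 hr h ht htp l2 l3 he2
    constructor
    · intro _
      rw [e0]
      linarith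
    · intro hc
      rw [e0]
      -- K2 <= K1 form for c >= r
      have h1 : 2 * r * (r ^ 2 + 3 * (α + 0.3 - t) ^ 2) ≤ (r + (α + 0.3 - t)) ^ 3 := by
        have : 0 ≤ ((α + 0.3 - t) - r) ^ 3 := pow_nonneg (by linarith) 3
        nlinarith
      have h2 : 2 * r * (r ^ 2 + 3 * (α + 0.3 - t) ^ 2) ≤ 2 * r * (6 * lam * (0.6 * α)) := by
        linarith
      exact le_of_mul_le_mul_left h2 (by linarith)
  · have hα2 : α ≤ 0.954 := by nlinarith [sq_nonneg r]
    rcases le_total t 1.0139 with ht1 | ht1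
    · have hK := E3b hα1 h ht ht1
      have hK2 : r ^ 2 + 3 * (α + 0.3 - t) ^ 2 ≤ 3.6 * α * lam :=
        hK.trans (mul_le_mul_of_nonneg_left l2 (by linarith))
      constructor
      · intro hc
        rw [e0]
        have := K1_of_K2 hr hc hK2
        linarith
      · intro _
        rw [e0]
        linarith
    · -- t >= 1.0139
      have l3' := l3 (by linarith)
      have hsl := s3_lb
      have hsu := s3_ub
      have hs := s3_sq
      have hs0 : 0 < Real.sqrt 3 := by linarith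
      have hT := T3_ge
      have g : r ^ 2 + 3 * (α + 0.3 - 1.0139) ^ 2 ≤ 3.6 * α * T3 1.0139 := by
        have h3 : 3.6 * α * 0.0801 ≤ 3.6 * α * T3 1.0139 :=
          mul_le_mul_of_nonneg_left hT (by linarith)
        refine le_trans ?_ h3
        have c1 : 0 ≤ α - 0.87 := by linarith
        have c2 : 0 ≤ 0.954 - α := by linarith
        nlinarith [mul_nonneg c1 c2]
      -- clause 2 for all c in [r, c1]
      have cl2 : ∀ c, r ≤ c → c ≤ α + 0.3 - 1.0139 →
          r ^ 2 + 3 * c ^ 2 ≤ 3.6 * α * (Real.sqrt 3 * ((Real.sqrt 3 - (α + 0.3)) + c) ^ 3 / 8) := by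
        intro c hrc hcc
        have m := K2_T3_mono (r := r) (c := c) (c1 := α + 0.3 - 1.0139) (s := Real.sqrt 3 - (α + 0.3))
          (A := 0.45 * α * Real.sqrt 3) hr hrc hcc (by linarith) (by linarith)
          (by
            rw [T3] at g
            have e : Real.sqrt 3 - (α + 0.3) + (α + 0.3 - 1.0139) = Real.sqrt 3 - 1.0139 := by ring
            rw [e]
            linarith)
        linarith
      constructor
      · intro hc
        rw [e0]
        -- K1 at some earlier t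
        have base : ∃ t1, t1 ≤ t ∧ (α + 0.3 + r - t1) ^ 3 ≤
            (0.9 * (α * r) * Real.sqrt 3) * (Real.sqrt 3 - t1) ^ 3 := by
          rcases le_total (α + 0.3 - 1.0139) r with hc1 | hc1
          · refine ⟨1.0139, ht1, ?_⟩
            have := K1_of_K2 hr hc1 g
            rw [T3] at this
            have e : α + 0.3 + r - 1.0139 = r + (α + 0.3 - 1.0139) := by ring
            rw [e]
            linarith
          · refine ⟨α + 0.3 - r, by linarith, ?_⟩
            have := K1_of_K2 hr le_rfl (cl2 r le_rfl hc1)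
            have e : α + 0.3 + r - (α + 0.3 - r) = r + r := by ring
            have e2 : Real.sqrt 3 - (α + 0.3 - r) = Real.sqrt 3 - (α + 0.3) + r := by ring
            rw [e, e2]
            linarith
        obtain ⟨t1, htt, hb⟩ := base
        have hh : α + 0.3 + r ≤ Real.sqrt 3 := by
          apply Real.le_sqrt_of_sq_le
          nlinarith [sq_nonneg (α - r), sq_nonneg (α - 0.3), sq_nonneg (r - 0.3)]
        have m := K1_T3_mono hh (by positivity) htt (by linarith) hb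
        have e : α + 0.3 + r - t = r + (α + 0.3 - t) := by ring
        rw [e] at m
        refine m.trans ?_
        rw [T3] at l3'
        have : 7.2 * (α * r) * (Real.sqrt 3 * (Real.sqrt 3 - t) ^ 3 / 8) ≤ 7.2 * (α * r) * lam :=
          mul_le_mul_of_nonneg_left l3' (by positivity)
        linarith
      · intro hc
        rw [e0]
        have := cl2 (α + 0.3 - t) hc (by linarith)
        have e2 : Real.sqrt 3 - (α + 0.3) + (α + 0.3 - t) = Real.sqrt 3 - t := by ring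
        rw [e2] at this
        rw [T3] at l3'
        have h3 : 3.6 * α * (Real.sqrt 3 * (Real.sqrt 3 - t) ^ 3 / 8) ≤ 3.6 * α * lam :=
          mul_le_mul_of_nonneg_left l3' (by linarith)
        linarith

end Pool.Agent.H60.SL
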