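import Pool.Agent.H60.SL.KLem3
import Pool.Agent.H60.SL.KLem5

set_option autoImplicit false

namespace Pool.Agent.H60.SL

theorem T2_le_quarter {t : ℝ} (h1 : 17 / 20 ≤ t) (h2 : t ≤ Real.sqrt 2) : T2 t ≤ 1 / 4 := by
  rw [T2]
  have := s2_ub
  nlinarith

theorem T3_le_quarter {t : ℝ} (h1 : 17 / 20 ≤ t) (h2 : t ≤ Real.sqrt 3) : T3 t ≤ 1 / 4 := by
  rw [T3]
  have h3 := s3_ub
  have h4 := s3_lb
  have h5 : (Real.sqrt 3 - t) ^ 3 ≤ 0.88206 ^ 3 :=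
    pow_le_pow_left₀ (by linarith) (by linarith) 3
  have h6 : 0 ≤ (Real.sqrt 3 - t) ^ 3 := pow_nonneg (by linarith) 3
  nlinarith

/-- The K-lemma in the variable `p`: for `q = 3/10 + sqrt(.91 - r²) ≤ p`, `p² ≤ 2(1-r²)`. -/
theorem KG_main {r t p α lam : ℝ} (hr : 0 ≤ r) (hα : 0.3 ≤ α) (h : α ^ 2 + r ^ 2 = 0.91)
    (ht : 17 / 20 ≤ t) (htp : t ≤ p) (hqp : α + 0.3 ≤ p) (hp2 : p ^ 2 ≤ 2 * (1 - r ^ 2))
    (hl : lam ≤ 1 / 4) (l2 : T2 t ≤ lam) (l3 : T3 t ≤ lam) : KG r t lam p := by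
  -- right end
  set x := Real.sqrt ((1 - r ^ 2) / 2) with hx
  have hr1 : r ^ 2 ≤ 0.82 := by nlinarith
  have hxx : x ^ 2 = (1 - r ^ 2) / 2 := Real.sq_sqrt (by linarith)
  have hx0 : 0 < x := Real.sqrt_pos.2 (by linarith)
  have hpx : p ≤ 2 * x := by
    have : p ^ 2 ≤ (2 * x) ^ 2 := by rw [mul_pow, hxx]; linarith
    exact (abs_le_of_sq_le_sq' this (by positivity)).2
  have hE1 : KG r t lam (2 * x) := E1 hx0 hr (by rw [hxx]; ring) ht (htp.trans hpx) l2 l3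
  -- left end
  have hleft : ∃ p1, t ≤ p1 ∧ p1 ≤ p ∧ KG r t lam p1 := by
    rcases le_total t (α + 0.3) with hq | hq
    · exact ⟨α + 0.3, hq, hqp, E3 (by linarith) hr h ht hq l2 (fun _ => l3)⟩
    · refine ⟨t, le_rfl, htp, E2 hr (by nlinarith) ht ?_ l2 (fun _ => l3)⟩
      intro _
      nlinarith
  obtain ⟨p1, h1, h2, hK1⟩ := hleft
  rcases eq_or_lt_of_le hr with h0 | h0
  · -- r = 0
    subst h0
    constructor
    · intro hc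
      have : p - t = 0 := by linarith
      rw [this]; simp
    · intro _
      have k1 : (0 : ℝ) ^ 2 + 3 * (p1 - t) ^ 2 ≤ 6 * lam * (p1 ^ 2 - 1 + 0 ^ 2) :=
        hK1.2 (by linarith)
      have k2 := hE1.2 (by linarith)
      exact J2_chord hl h2 hpx k1 k2
  · exact KG_glue h0 hl h1 h2 hpx hK1 hE1

theorem q_le_p {α β r : ℝ} (hβ : 3 / 10 ≤ β) (hαβ : β ≤ α) (h1 : α ^ 2 + β ^ 2 + r ^ 2 = 1) :
    ∃ α', 0.3 ≤ α' ∧ α' ^ 2 + r ^ 2 = 0.91 ∧ α' + 0.3 ≤ α + β := by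
  refine ⟨Real.sqrt (α ^ 2 + β ^ 2 - 0.09), ?_, ?_, ?_⟩
  · apply Real.le_sqrt_of_sq_le
    nlinarith
  · rw [Real.sq_sqrt (by nlinarith)]
    linarith
  · set w := Real.sqrt (α ^ 2 + β ^ 2 - 0.09) with hw
    have hw2 : w ^ 2 = α ^ 2 + β ^ 2 - 0.09 := Real.sq_sqrt (by nlinarith)
    have hw0 : 0 ≤ w := Real.sqrt_nonneg _
    -- (0.3 w)^2 <= (αβ)^2
    have h2 : (0.3 * w) ^ 2 ≤ (α * β) ^ 2 := by
      rw [mul_pow, hw2]
      have : 0 ≤ (β ^ 2 - 0.09) * (α ^ 2 - 0.09) := mul_nonneg (by nlinarith) (by nlinarith)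
      nlinarith
    have h3 : 0.3 * w ≤ α * β :=
      (abs_le_of_sq_le_sq' h2 (mul_nonneg (by linarith) (by linarith))).2
    have h4 : (w + 0.3) ^ 2 ≤ (α + β) ^ 2 := by nlinarith
    exact (abs_le_of_sq_le_sq' h4 (by linarith)).2

/-- **The K-lemma.** -/
theorem K_main {α β r t : ℝ} (hβ : 3 / 10 ≤ β) (hαβ : β ≤ α) (hr : 0 ≤ r)
    (h1 : α ^ 2 + β ^ 2 + r ^ 2 = 1) (ht : 17 / 20 ≤ t) (htp : t ≤ α + β) :
    KG r t (max (T2 t) (T3 t)) (α + β) := by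
  obtain ⟨α', ha1, ha2, ha3⟩ := q_le_p hβ hαβ h1
  have hp2 : (α + β) ^ 2 ≤ 2 * (1 - r ^ 2) := by nlinarith [sq_nonneg (α - β)]
  have ht2 : t ≤ Real.sqrt 2 := by
    apply Real.le_sqrt_of_sq_le
    nlinarith [sq_nonneg r]
  have ht3 : t ≤ Real.sqrt 3 := ht2.trans (Real.sqrt_le_sqrt (by norm_num))
  exact KG_main hr ha1 ha2 ht htp ha3 hp2
    (max_le (T2_le_quarter ht ht2) (T3_le_quarter ht ht3)) (le_max_left _ _) (le_max_right _ _)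

/-- the case `r = 0` (two coordinates): only `T2` is needed -/
theorem K_two {α β t : ℝ} (hβ : 3 / 10 ≤ β) (hαβ : β ≤ α)
    (h1 : α ^ 2 + β ^ 2 = 1) (ht : 17 / 20 ≤ t) (htp : t ≤ α + β) :
    3 * (α + β - t) ^ 2 ≤ 6 * T2 t * ((α + β) ^ 2 - 1) := by
  obtain ⟨α', ha1, ha2, ha3⟩ := q_le_p (r := 0) hβ hαβ (by simpa using h1)
  have ht2 : t ≤ Real.sqrt 2 := by
    apply Real.le_sqrt_of_sq_le
    nlinarith [sq_nonneg (α - β)]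
  have hsl := s2_lb
  have hsu := s2_ub
  have hs := s2_sq
  have hT2 := T2_nonneg t
  have hp2 : α + β ≤ Real.sqrt 2 := by
    apply Real.le_sqrt_of_sq_le
    nlinarith [sq_nonneg (α - β)]
  have k2 : (0 : ℝ) ^ 2 + 3 * (Real.sqrt 2 - t) ^ 2 ≤ 6 * T2 t * (Real.sqrt 2 ^ 2 - 1 + 0 ^ 2) := by
    rw [hs, T2]
    linarith
  have hα' : 0.9539 ≤ α' := by nlinarith
  have hα'' : α' ≤ 0.954 := by nlinarith
  have k1 : ∃ p1, t ≤ p1 ∧ p1 ≤ α + β ∧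
      (0 : ℝ) ^ 2 + 3 * (p1 - t) ^ 2 ≤ 6 * T2 t * (p1 ^ 2 - 1 + 0 ^ 2) := by
    rcases le_total t (α' + 0.3) with hq | hq
    · refine ⟨α' + 0.3, hq, ha3, ?_⟩
      have e : (α' + 0.3) ^ 2 - 1 + 0 ^ 2 = 0.6 * α' := by nlinarith
      rw [e, T2]
      -- (α' + .3 - t)^2 <= .6 α' (√2 - t)^2
      have h3 : (α' + 0.3 - t) ≤ 0.7565 * (Real.sqrt 2 - t) := by linarith
      have h4 : (α' + 0.3 - t) ^ 2 ≤ (0.7565 * (Real.sqrt 2 - t)) ^ 2 :=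
        pow_le_pow_left₀ (by linarith) h3 2
      have h5 : 0.7565 ^ 2 * (Real.sqrt 2 - t) ^ 2 ≤ 0.6 * α' * (Real.sqrt 2 - t) ^ 2 :=
        mul_le_mul_of_nonneg_right (by nlinarith) (sq_nonneg _)
      nlinarith
    · refine ⟨t, le_rfl, htp, ?_⟩
      have : 0 ≤ T2 t * (t ^ 2 - 1) := mul_nonneg hT2 (by nlinarith)
      nlinarith
  obtain ⟨p1, _, h3, hk⟩ := k1
  have := J2_chord (T2_le_quarter ht ht2) h3 hp2 hk k2
  nlinarith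

end Pool.Agent.H60.SL
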