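import Pool.Agent.H60.SL.LomMono

set_option autoImplicit false

open MeasureTheory Set Filter Topology

namespace Pool.Agent.H60.SL

open Pool.Agent.H64.Slab Pool.Agent.H60.Slab Pool.Agent.H60.Big

/-- monotone from the derivative on `[0, b]` -/
theorem nonneg_of_deriv_on {f f' : ℝ → ℝ} {b : ℝ} (hf : ∀ x, HasDerivAt f (f' x) x) (h0 : 0 ≤ f 0)
    (h : ∀ x, 0 ≤ x → x ≤ b → 0 ≤ f' x) {x : ℝ} (hx : 0 ≤ x) (hxb : x ≤ b) : 0 ≤ f x := by
  have hm : MonotoneOn f (Icc 0 b) := by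
    apply monotoneOn_of_deriv_nonneg (convex_Icc _ _)
      (fun y _ => (hf y).continuousAt.continuousWithinAt)
    · intro y _
      exact (hf y).differentiableAt.differentiableWithinAt
    · intro y hy
      rw [interior_Icc] at hy
      rw [(hf y).deriv]
      exact h y hy.1.le hy.2.le
  exact h0.trans (hm ⟨le_rfl, hx.trans hxb⟩ ⟨hx, hxb⟩ hx)

/-- `3 sin x ≤ x (2 + cos x)` -/
theorem cusa {x : ℝ} (hx : 0 ≤ x) : 3 * Real.sin x ≤ x * (2 + Real.cos x) := by
  rcases le_total 3 x with h | h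
  · have h1 := Real.neg_one_le_cos x
    have h2 := Real.sin_le_one x
    nlinarith
  · have d2 : ∀ y : ℝ, HasDerivAt (fun y => 2 - 2 * Real.cos y - y * Real.sin y) (JJ y) y := by
      intro y
      have := (((Real.hasDerivAt_cos y).const_mul 2).const_sub 2).sub
        ((hasDerivAt_id y).mul (Real.hasDerivAt_sin y))
      refine this.congr_deriv ?_
      unfold JJ
      simp only [id]
      ring
    have d1 : ∀ y : ℝ, HasDerivAt (fun y => y * (2 + Real.cos y) - 3 * Real.sin y)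
        (2 - 2 * Real.cos y - y * Real.sin y) y := by
      intro y
      have := ((hasDerivAt_id y).mul ((Real.hasDerivAt_cos y).const_add 2)).sub
        ((Real.hasDerivAt_sin y).const_mul 3)
      refine this.congr_deriv ?_
      simp only [id]
      ring
    have s2 : ∀ y, 0 ≤ y → y ≤ 3 → 0 ≤ 2 - 2 * Real.cos y - y * Real.sin y := by
      intro y hy hy3
      refine nonneg_of_deriv_on (b := 3) d2 (by simp) ?_ hy hy3
      intro z hz hz3
      rcases hz.eq_or_lt with e | hz0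
      · rw [← e]; simp [JJ]
      · exact (JJ_pos hz0 (by linarith)).le
    have := nonneg_of_deriv_on (b := 3) d1 (by simp) s2 hx h
    linarith

/-- `2 sin² z ≤ z² + z sin z cos z` -/
theorem sin_key {z : ℝ} (hz : 0 ≤ z) :
    2 * Real.sin z ^ 2 ≤ z ^ 2 + z * Real.sin z * Real.cos z := by
  have d1 : ∀ x : ℝ, HasDerivAt (fun x => x ^ 2 + x * Real.sin x - 4 + 4 * Real.cos x)
      (x * (2 + Real.cos x) - 3 * Real.sin x) x := by
    intro x
    have := (((hasDerivAt_pow 2 x).add ((hasDerivAt_id x).mul (Real.hasDerivAt_sin x))).sub_const 4).add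
      ((Real.hasDerivAt_cos x).const_mul 4)
    refine this.congr_deriv ?_
    simp only [id]
    push_cast
    ring
  have h := nonneg_of_deriv_on (b := 2 * z) d1 (by simp)
    (fun x hx _ => by linarith [cusa hx]) (by linarith : (0 : ℝ) ≤ 2 * z) le_rfl
  rw [Real.sin_two_mul, Real.cos_two_mul] at h
  have := Real.sin_sq_add_cos_sq z
  nlinarith

/-- `MM / JJ = -z ψ'/ψ` is nondecreasing -/
theorem h_mono {x y : ℝ} (hx : 0 < x) (hxy : x ≤ y) (hy : y ≤ 4.49) : MM x * JJ y ≤ MM y * JJ x := by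
  have hd : ∀ z ∈ Ioc (0 : ℝ) 4.49, HasDerivAt (fun z => MM z / JJ z)
      (z * (z ^ 2 + z * Real.sin z * Real.cos z - 2 * Real.sin z ^ 2) / JJ z ^ 2) z := by
    intro z hz
    have hJ := (JJ_pos hz.1 hz.2).ne'
    have := (MM_hasDerivAt z).div (JJ_hasDerivAt z) hJ
    refine this.congr_deriv ?_
    congr 1
    have e := Real.sin_sq_add_cos_sq z
    have e2 : Real.cos z ^ 2 = 1 - Real.sin z ^ 2 := by linarith
    unfold MM JJ
    ring_nf
    rw [e2]
    ring
  have hm : MonotoneOn (fun z => MM z / JJ z) (Icc x 4.49) := by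
    apply monotoneOn_of_deriv_nonneg (convex_Icc _ _)
    · intro z hz
      exact (hd z ⟨hx.trans_le hz.1, hz.2⟩).continuousAt.continuousWithinAt
    · intro z hz
      rw [interior_Icc] at hz
      exact (hd z ⟨hx.trans hz.1, hz.2.le⟩).differentiableAt.differentiableWithinAt
    · intro z hz
      rw [interior_Icc] at hz
      rw [(hd z ⟨hx.trans hz.1, hz.2.le⟩).deriv]
      have hz0 : 0 < z := hx.trans hz.1
      have := sin_key hz0.le
      apply div_nonneg _ (sq_nonneg _)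
      exact mul_nonneg hz0.le (by linarith)
  have := hm ⟨le_rfl, hxy.trans hy⟩ ⟨hxy, hy⟩ hxy
  simp only at this
  rw [div_le_div_iff₀ (JJ_pos hx (hxy.trans hy)) (JJ_pos (hx.trans_le hxy) hy)] at this
  exact this

theorem psi1_hasDerivAt {x : ℝ} (hx : x ≠ 0) : HasDerivAt psi1 (-(3 * MM x / x ^ 4)) x := by
  have h1 : HasDerivAt (fun z => 3 * JJ z / z ^ 3) _ x :=
    ((JJ_hasDerivAt x).const_mul 3).div (hasDerivAt_pow 3 x) (pow_ne_zero 3 hx)
  have h2 : HasDerivAt psi1 _ x := h1.congr_of_eventuallyEq (by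
    filter_upwards [eventually_ne_nhds hx] with y hy
    unfold psi1
    rw [if_neg hy])
  refine h2.congr_deriv ?_
  unfold MM JJ
  push_cast
  field_simp
  ring

theorem psi1_zero : psi1 0 = 1 := by simp [psi1]

/-- the ratio `ψ (α' s) / ψ (α s)` is nonincreasing in `s` -/
theorem psi1_cross {α α' s s' : ℝ} (hα : 0 ≤ α) (hαα : α ≤ α') (hs : 0 ≤ s) (hss : s ≤ s')
    (h : α' * s' ≤ 4.49) :
    psi1 (α' * s') * psi1 (α * s) ≤ psi1 (α' * s) * psi1 (α * s') := by
  have hs' : 0 ≤ s' := hs.trans hss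
  have hα' : 0 ≤ α' := hα.trans hαα
  have b1 : α' * s ≤ α' * s' := mul_le_mul_of_nonneg_left hss hα'
  have b2 : α * s' ≤ α' * s' := mul_le_mul_of_nonneg_right hαα hs'
  have b3 : α * s ≤ α * s' := mul_le_mul_of_nonneg_left hss hα
  rcases hα.eq_or_lt with e | hα0
  · rw [← e, zero_mul, zero_mul, psi1_zero, mul_one, mul_one]
    exact psi1_antitone ⟨by positivity, b1.trans h⟩ ⟨by positivity, h⟩ b1
  rcases hs.eq_or_lt with e | hs0
  · rw [← e, mul_zero, mul_zero, psi1_zero, mul_one, one_mul]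
    exact psi1_antitone ⟨by positivity, b2.trans h⟩ ⟨by positivity, h⟩ b2
  have hα'0 : 0 < α' := hα0.trans_le hαα
  have hd : ∀ t ∈ Icc s s', HasDerivAt (fun t => psi1 (α' * t) / psi1 (α * t))
      ((-(3 * MM (α' * t) / (α' * t) ^ 4) * α' * psi1 (α * t) -
        psi1 (α' * t) * (-(3 * MM (α * t) / (α * t) ^ 4) * α)) / psi1 (α * t) ^ 2) t := by
    intro t ht
    have ht0 : 0 < t := hs0.trans_le ht.1
    have c1 : HasDerivAt (fun t : ℝ => α' * t) α' t := by simpa using (hasDerivAt_id t).const_mul α'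
    have c2 : HasDerivAt (fun t : ℝ => α * t) α t := by simpa using (hasDerivAt_id t).const_mul α
    have hp : psi1 (α * t) ≠ 0 := (psi1_pos (by positivity)
      ((mul_le_mul hαα ht.2 ht0.le hα').trans h)).ne'
    exact ((psi1_hasDerivAt (by positivity)).comp t c1).div
      ((psi1_hasDerivAt (by positivity)).comp t c2) hp
  have hanti : AntitoneOn (fun t => psi1 (α' * t) / psi1 (α * t)) (Icc s s') := by
    apply antitoneOn_of_deriv_nonpos (convex_Icc _ _)
    · intro t ht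
      exact (hd t ht).continuousAt.continuousWithinAt
    · intro t ht
      rw [interior_Icc] at ht
      exact (hd t ⟨ht.1.le, ht.2.le⟩).differentiableAt.differentiableWithinAt
    · intro t ht
      rw [interior_Icc] at ht
      rw [(hd t ⟨ht.1.le, ht.2.le⟩).deriv]
      have ht0 : 0 < t := hs0.trans ht.1
      apply div_nonpos_of_nonpos_of_nonneg _ (sq_nonneg _)
      have hm := h_mono (x := α * t) (y := α' * t) (by positivity)
        (mul_le_mul_of_nonneg_right hαα ht0.le)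
        ((mul_le_mul_of_nonneg_left ht.2.le hα').trans h)
      have e1 : psi1 (α * t) = 3 * JJ (α * t) / (α * t) ^ 3 := by
        unfold psi1; rw [if_neg (by positivity)]
      have e2 : psi1 (α' * t) = 3 * JJ (α' * t) / (α' * t) ^ 3 := by
        unfold psi1; rw [if_neg (by positivity)]
      rw [e1, e2]
      have e3 : -(3 * MM (α' * t) / (α' * t) ^ 4) * α' * (3 * JJ (α * t) / (α * t) ^ 3) -
          3 * JJ (α' * t) / (α' * t) ^ 3 * (-(3 * MM (α * t) / (α * t) ^ 4) * α) =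
          -(9 / (t * (α' * t) ^ 3 * (α * t) ^ 3) * (MM (α' * t) * JJ (α * t) -
            MM (α * t) * JJ (α' * t))) := by
        field_simp
        ring
      rw [e3]
      have : 0 ≤ 9 / (t * (α' * t) ^ 3 * (α * t) ^ 3) * (MM (α' * t) * JJ (α * t) -
            MM (α * t) * JJ (α' * t)) := by
        apply mul_nonneg (by positivity)
        linarith
      linarith
  have := hanti ⟨le_rfl, hss⟩ ⟨hss, le_rfl⟩ hss
  simp only at this
  have p1 : 0 < psi1 (α * s) := psi1_pos (by positivity) (b3.trans (b2.trans h))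
  have p2 : 0 < psi1 (α * s') := psi1_pos (by positivity) (b2.trans h)
  rw [div_le_div_iff₀ p2 p1] at this
  linarith

/-- comparison of ratios of integrals -/
theorem int_ratio {u v : ℝ → ℝ} (hu : Continuous u) (hv : Continuous v) {w w' : ℝ} (hw : 0 ≤ w)
    (hww : w ≤ w')
    (hc : ∀ s s', 0 ≤ s → s ≤ w → w ≤ s' → s' ≤ w' → u s' * v s ≤ u s * v s') :
    (∫ s in (0 : ℝ)..w, v s) * (∫ s in (0 : ℝ)..w', u s) ≤
      (∫ s in (0 : ℝ)..w, u s) * ∫ s in (0 : ℝ)..w', v s := by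
  have iu : ∀ a b, IntervalIntegrable u volume a b := fun a b => hu.intervalIntegrable a b
  have iv : ∀ a b, IntervalIntegrable v volume a b := fun a b => hv.intervalIntegrable a b
  have e1 : ∫ s in (0 : ℝ)..w', u s = (∫ s in (0 : ℝ)..w, u s) + ∫ s in w..w', u s :=
    (intervalIntegral.integral_add_adjacent_intervals (iu _ _) (iu _ _)).symm
  have e2 : ∫ s in (0 : ℝ)..w', v s = (∫ s in (0 : ℝ)..w, v s) + ∫ s in w..w', v s :=
    (intervalIntegral.integral_add_adjacent_intervals (iv _ _) (iv _ _)).symm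
  rw [e1, e2]
  have key : (∫ s in (0 : ℝ)..w, v s) * (∫ s in w..w', u s) ≤
      (∫ s in (0 : ℝ)..w, u s) * ∫ s in w..w', v s := by
    rw [← intervalIntegral.integral_mul_const, ← intervalIntegral.integral_mul_const]
    apply intervalIntegral.integral_mono_on hw
    · exact (hv.mul continuous_const).intervalIntegrable _ _
    · exact (hu.mul continuous_const).intervalIntegrable _ _
    · intro s hs
      rw [← intervalIntegral.integral_const_mul, ← intervalIntegral.integral_const_mul]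
      apply intervalIntegral.integral_mono_on hww
      · exact (continuous_const.mul hu).intervalIntegrable _ _
      · exact (continuous_const.mul hv).intervalIntegrable _ _
      · intro s' hs'
        have := hc s s' hs.1 hs.2 hs'.1 hs'.2
        linarith
  nlinarith

theorem KI_scale (α γ : ℝ) {w : ℝ} (hw : 0 < w) :
    KI (α * w) (γ * w) = 5 / w ^ 5 * ∫ s in (0 : ℝ)..w, s ^ 4 * (psi1 (α * s) * psi1 (γ * s)) := by
  unfold KI
  have h := intervalIntegral.integral_comp_mul_left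
    (f := fun s => s ^ 4 * (psi1 (α * s) * psi1 (γ * s))) (a := 0) (b := 1) hw.ne'
  simp only [mul_zero, mul_one, smul_eq_mul] at h
  have e : ∀ s : ℝ, (w * s) ^ 4 * (psi1 (α * (w * s)) * psi1 (γ * (w * s))) =
      w ^ 4 * (s ^ 4 * (psi1 (α * w * s) * psi1 (γ * w * s))) := by
    intro s
    rw [mul_pow, ← mul_assoc α, ← mul_assoc γ]
    ring
  simp only [e] at h
  rw [intervalIntegral.integral_const_mul] at h
  have hw4 : w ^ 4 ≠ 0 := by positivity
  have h2 : ∫ s in (0 : ℝ)..1, s ^ 4 * (psi1 (α * w * s) * psi1 (γ * w * s)) =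
      (w ^ 5)⁻¹ * ∫ s in (0 : ℝ)..w, s ^ 4 * (psi1 (α * s) * psi1 (γ * s)) := by
    have h3 : w ^ 4 * (∫ s in (0 : ℝ)..1, s ^ 4 * (psi1 (α * w * s) * psi1 (γ * w * s))) =
        w ^ 4 * ((w ^ 5)⁻¹ * ∫ s in (0 : ℝ)..w, s ^ 4 * (psi1 (α * s) * psi1 (γ * s))) := by
      rw [h]
      generalize (∫ s in (0 : ℝ)..w, s ^ 4 * (psi1 (α * s) * psi1 (γ * s))) = I
      field_simp
    exact mul_left_cancel₀ hw4 h3
  rw [h2, ← mul_assoc, ← div_eq_mul_inv]

/-- `KI (α w) (γ w) / KI (α w') (γ w')` is nondecreasing in `α` -/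
theorem KI_ratio_mono {α α' γ w w' : ℝ} (hα : 0 ≤ α) (hαα : α ≤ α') (hγ : 0 ≤ γ) (hw : 0 < w)
    (hww : w ≤ w') (h1 : α' * w' ≤ 4.49) (h2 : γ * w' ≤ 4.49) :
    KI (α * w) (γ * w) * KI (α' * w') (γ * w') ≤ KI (α' * w) (γ * w) * KI (α * w') (γ * w') := by
  have hw' : 0 < w' := hw.trans_le hww
  rw [KI_scale α γ hw, KI_scale α' γ hw', KI_scale α' γ hw, KI_scale α γ hw']
  have hp := psi1_continuous
  have hu : Continuous (fun s => s ^ 4 * (psi1 (α' * s) * psi1 (γ * s))) := by fun_prop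
  have hv : Continuous (fun s => s ^ 4 * (psi1 (α * s) * psi1 (γ * s))) := by fun_prop
  have := int_ratio hu hv hw.le hww (by
    intro s s' hs hsw hws hsw'
    have hs' : 0 ≤ s' := hw.le.trans hws
    have hc := psi1_cross hα hαα hs (hsw.trans hws)
      ((mul_le_mul_of_nonneg_left hsw' (hα.trans hαα)).trans h1)
    have g1 : 0 < psi1 (γ * s) := psi1_pos (by positivity)
      ((mul_le_mul_of_nonneg_left (hsw.trans (hws.trans hsw')) hγ).trans h2)
    have g2 : 0 < psi1 (γ * s') := psi1_pos (by positivity)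
      ((mul_le_mul_of_nonneg_left hsw' hγ).trans h2)
    have e1 : s' ^ 4 * (psi1 (α' * s') * psi1 (γ * s')) * (s ^ 4 * (psi1 (α * s) * psi1 (γ * s))) =
        (s' ^ 4 * s ^ 4 * (psi1 (γ * s') * psi1 (γ * s))) * (psi1 (α' * s') * psi1 (α * s)) := by ring
    have e2 : s ^ 4 * (psi1 (α' * s) * psi1 (γ * s)) * (s' ^ 4 * (psi1 (α * s') * psi1 (γ * s'))) =
        (s' ^ 4 * s ^ 4 * (psi1 (γ * s') * psi1 (γ * s))) * (psi1 (α' * s) * psi1 (α * s')) := by ring
    rw [e1, e2]
    exact mul_le_mul_of_nonneg_left hc (by positivity))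
  obtain ⟨A, hA⟩ : ∃ A, ∫ s in (0 : ℝ)..w, s ^ 4 * (psi1 (α * s) * psi1 (γ * s)) = A := ⟨_, rfl⟩
  obtain ⟨B, hB⟩ : ∃ B, ∫ s in (0 : ℝ)..w', s ^ 4 * (psi1 (α' * s) * psi1 (γ * s)) = B := ⟨_, rfl⟩
  obtain ⟨C, hC⟩ : ∃ C, ∫ s in (0 : ℝ)..w, s ^ 4 * (psi1 (α' * s) * psi1 (γ * s)) = C := ⟨_, rfl⟩
  obtain ⟨D, hD⟩ : ∃ D, ∫ s in (0 : ℝ)..w', s ^ 4 * (psi1 (α * s) * psi1 (γ * s)) = D := ⟨_, rfl⟩
  rw [hA, hB, hC, hD] at this
  rw [hA, hB, hC, hD]
  have e1 : 5 / w ^ 5 * A * (5 / w' ^ 5 * B) = (5 / w ^ 5 * (5 / w' ^ 5)) * (A * B) := by ring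
  have e2 : 5 / w ^ 5 * C * (5 / w' ^ 5 * D) = (5 / w ^ 5 * (5 / w' ^ 5)) * (C * D) := by ring
  rw [e1, e2]
  exact mul_le_mul_of_nonneg_left this (by positivity)

/-- the same in the second variable -/
theorem KI_ratio_mono' {α γ γ' w w' : ℝ} (hγ : 0 ≤ γ) (hγγ : γ ≤ γ') (hα : 0 ≤ α) (hw : 0 < w)
    (hww : w ≤ w') (h1 : γ' * w' ≤ 4.49) (h2 : α * w' ≤ 4.49) :
    KI (α * w) (γ * w) * KI (α * w') (γ' * w') ≤ KI (α * w) (γ' * w) * KI (α * w') (γ * w') := by
  have := KI_ratio_mono hγ hγγ hα hw hww h1 h2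
  rw [KI_symm (α * w), KI_symm (α * w'), KI_symm (α * w) (γ' * w), KI_symm (α * w') (γ * w')]
  exact this

end Pool.Agent.H60.SL
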