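import Pool.Agent.H60.Slab.Sinc

set_option autoImplicit false

open Filter Topology Finset

namespace Pool.Agent.H60.SL

/-- the Euler factor -/
noncomputable def yn (z : ℝ) (n : ℕ) : ℝ := z ^ 2 / (Real.pi ^ 2 * ((n : ℝ) + 1) ^ 2)

theorem yn_nonneg (z : ℝ) (n : ℕ) : 0 ≤ yn z n := by
  unfold yn
  positivity

theorem yn_lt_one {z : ℝ} (h0 : 0 ≤ z) (h1 : z < Real.pi) (n : ℕ) : yn z n < 1 := by
  unfold yn
  have hpi := Real.pi_pos
  rw [div_lt_one (by positivity)]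
  have h2 : z ^ 2 < Real.pi ^ 2 := by
    apply pow_lt_pow_left₀ h1 h0 (by norm_num)
  have h3 : (1 : ℝ) ≤ ((n : ℝ) + 1) ^ 2 := by
    have : (0 : ℝ) ≤ n := Nat.cast_nonneg n
    nlinarith
  calc z ^ 2 < Real.pi ^ 2 * 1 := by linarith
    _ ≤ _ := mul_le_mul_of_nonneg_left h3 (by positivity)

theorem sinc_pos' {z : ℝ} (h0 : 0 ≤ z) (h1 : z < Real.pi) : 0 < Real.sinc z := by
  rcases h0.eq_or_lt with h | h
  · rw [← h]; simp
  · rw [Real.sinc_of_ne_zero h.ne']
    exact div_pos (Real.sin_pos_of_pos_of_lt_pi h h1) h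

theorem neglog_nonneg {y : ℝ} (h0 : 0 ≤ y) (h1 : y < 1) : 0 ≤ -Real.log (1 - y) := by
  have := Real.log_nonpos (by linarith : (0 : ℝ) ≤ 1 - y) (by linarith)
  linarith

theorem hasSum_logsinc {z : ℝ} (h0 : 0 ≤ z) (h1 : z < Real.pi) :
    HasSum (fun n : ℕ => -Real.log (1 - yn z n)) (-Real.log (Real.sinc z)) := by
  rw [hasSum_iff_tendsto_nat_of_nonneg (fun n => neglog_nonneg (yn_nonneg z n) (yn_lt_one h0 h1 n))]
  have hpi := Real.pi_pos
  have hprod : Tendsto (fun N : ℕ => ∏ n ∈ range N, (1 - yn z n)) atTop (𝓝 (Real.sinc z)) := by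
    rcases h0.eq_or_lt with h | h
    · rw [← h]
      simp [yn]
    · have hE := Real.tendsto_euler_sin_prod (z / Real.pi)
      have e1 : Real.pi * (z / Real.pi) = z := by field_simp
      rw [e1] at hE
      have hE2 := hE.div_const z
      rw [Real.sinc_of_ne_zero h.ne']
      refine hE2.congr (fun N => ?_)
      rw [mul_div_cancel_left₀ _ h.ne']
      apply prod_congr rfl
      intro n _
      unfold yn
      congr 1
      field_simp
  have hlog := (Real.continuousAt_log (sinc_pos' h0 h1).ne').tendsto.comp hprod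
  refine hlog.neg.congr (fun N => ?_)
  simp only [Function.comp]
  rw [Real.log_prod (fun n _ => by
    have := yn_lt_one h0 h1 n
    linarith)]
  rw [sum_neg_distrib]

theorem neglog_ge {y : ℝ} (h0 : 0 ≤ y) (h1 : y < 1) :
    y + y ^ 2 / 2 + y ^ 3 / 3 + y ^ 4 / 4 ≤ -Real.log (1 - y) := by
  have h := Real.hasSum_pow_div_log_of_abs_lt_one (x := y) (by rw [abs_of_nonneg h0]; exact h1)
  have h2 := sum_le_hasSum (range 4) (fun n _ => by positivity) h
  simp only [sum_range_succ, range_zero, sum_empty, Nat.cast_zero, Nat.cast_one, Nat.cast_ofNat] at h2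
  norm_num at h2
  linarith

theorem hasSum_zeta_six : HasSum (fun n : ℕ => (1 : ℝ) / (n : ℝ) ^ 6) (Real.pi ^ 6 / 945) := by
  convert! hasSum_zeta_nat (by norm_num : (3 : ℕ) ≠ 0) using 1
  have h5 : bernoulli' 5 = 0 := by
    rw [bernoulli'_def]
    norm_num [sum_range_succ, Nat.choose, bernoulli'_four, bernoulli'_three, bernoulli'_two, bernoulli'_one,
      bernoulli'_zero]
  have h6 : bernoulli' 6 = 1 / 42 := by
    rw [bernoulli'_def]
    norm_num [sum_range_succ, Nat.choose, h5, bernoulli'_four, bernoulli'_three, bernoulli'_two,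
      bernoulli'_one, bernoulli'_zero]
  have h7 : bernoulli (2 * 3) = 1 / 42 := by
    rw [bernoulli_eq_bernoulli'_of_ne_one (by norm_num)]
    exact h6
  rw [h7]
  norm_num [Nat.factorial]
  ring

theorem hasSum_zeta_eight : HasSum (fun n : ℕ => (1 : ℝ) / (n : ℝ) ^ 8) (Real.pi ^ 8 / 9450) := by
  convert! hasSum_zeta_nat (by norm_num : (4 : ℕ) ≠ 0) using 1
  have h5 : bernoulli' 5 = 0 := by
    rw [bernoulli'_def]
    norm_num [sum_range_succ, Nat.choose, bernoulli'_four, bernoulli'_three, bernoulli'_two, bernoulli'_one,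
      bernoulli'_zero]
  have h6 : bernoulli' 6 = 1 / 42 := by
    rw [bernoulli'_def]
    norm_num [sum_range_succ, Nat.choose, h5, bernoulli'_four, bernoulli'_three, bernoulli'_two,
      bernoulli'_one, bernoulli'_zero]
  have h7 : bernoulli' 7 = 0 := by
    rw [bernoulli'_def]
    norm_num [sum_range_succ, Nat.choose, h6, h5, bernoulli'_four, bernoulli'_three, bernoulli'_two,
      bernoulli'_one, bernoulli'_zero]
  have h8 : bernoulli' 8 = -1 / 30 := by
    rw [bernoulli'_def]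
    norm_num [sum_range_succ, Nat.choose, h7, h6, h5, bernoulli'_four, bernoulli'_three, bernoulli'_two,
      bernoulli'_one, bernoulli'_zero]
  have h9 : bernoulli (2 * 4) = -1 / 30 := by
    rw [bernoulli_eq_bernoulli'_of_ne_one (by norm_num)]
    exact h8
  rw [h9]
  norm_num [Nat.factorial]
  ring

theorem zeta_shift {k : ℕ} (hk : k ≠ 0) {s : ℝ} (h : HasSum (fun n : ℕ => (1 : ℝ) / (n : ℝ) ^ k) s) :
    HasSum (fun n : ℕ => (1 : ℝ) / ((n : ℝ) + 1) ^ k) s := by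
  have h2 := (hasSum_nat_add_iff' (f := fun n : ℕ => (1 : ℝ) / (n : ℝ) ^ k) 1).2 h
  simp only [sum_range_one, Nat.cast_zero, ne_eq, hk, not_false_eq_true, zero_pow, div_zero,
    sub_zero, Nat.cast_add, Nat.cast_one] at h2
  exact h2

theorem hasSum_yn_pow {k : ℕ} (hk : k ≠ 0) {s : ℝ}
    (h : HasSum (fun n : ℕ => (1 : ℝ) / (n : ℝ) ^ (2 * k)) s) (z : ℝ) :
    HasSum (fun n : ℕ => yn z n ^ k) ((z / Real.pi) ^ (2 * k) * s) := by
  have h2 := (zeta_shift (by omega) h).mul_left ((z / Real.pi) ^ (2 * k))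
  refine h2.congr_fun ?_
  intro n
  unfold yn
  have hpi := Real.pi_pos
  rw [div_pow, div_pow, mul_pow, ← pow_mul, ← pow_mul, ← pow_mul]
  field_simp

theorem hasSum_y1 (z : ℝ) : HasSum (fun n : ℕ => yn z n) (z ^ 2 / 6) := by
  have h := hasSum_yn_pow (k := 1) one_ne_zero hasSum_zeta_two z
  simp only [pow_one] at h
  have e : (z / Real.pi) ^ (2 * 1) * (Real.pi ^ 2 / 6) = z ^ 2 / 6 := by
    have hpi := Real.pi_pos
    simp only [Nat.reduceMul]
    field_simp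
  rw [e] at h
  exact h

theorem hasSum_y2 (z : ℝ) : HasSum (fun n : ℕ => yn z n ^ 2) (z ^ 4 / 90) := by
  have h := hasSum_yn_pow (k := 2) two_ne_zero hasSum_zeta_four z
  have e : (z / Real.pi) ^ (2 * 2) * (Real.pi ^ 4 / 90) = z ^ 4 / 90 := by
    have hpi := Real.pi_pos
    simp only [Nat.reduceMul]
    field_simp
  rw [e] at h
  exact h

theorem hasSum_y3 (z : ℝ) : HasSum (fun n : ℕ => yn z n ^ 3) (z ^ 6 / 945) := by
  have h := hasSum_yn_pow (k := 3) three_ne_zero hasSum_zeta_six z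
  have e : (z / Real.pi) ^ (2 * 3) * (Real.pi ^ 6 / 945) = z ^ 6 / 945 := by
    have hpi := Real.pi_pos
    simp only [Nat.reduceMul]
    field_simp
  rw [e] at h
  exact h

theorem hasSum_y4 (z : ℝ) : HasSum (fun n : ℕ => yn z n ^ 4) (z ^ 8 / 9450) := by
  have h := hasSum_yn_pow (k := 4) four_ne_zero hasSum_zeta_eight z
  have e : (z / Real.pi) ^ (2 * 4) * (Real.pi ^ 8 / 9450) = z ^ 8 / 9450 := by
    have hpi := Real.pi_pos
    simp only [Nat.reduceMul]
    field_simp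
  rw [e] at h
  exact h

/-- lower bound for `-log sinc` -/
theorem neglogsinc_ge {z : ℝ} (h0 : 0 ≤ z) (h1 : z < Real.pi) :
    z ^ 2 / 6 + z ^ 4 / 180 + z ^ 6 / 2835 + z ^ 8 / 37800 ≤ -Real.log (Real.sinc z) := by
  have h := (((hasSum_y1 z).add ((hasSum_y2 z).div_const 2)).add ((hasSum_y3 z).div_const 3)).add
    ((hasSum_y4 z).div_const 4)
  have h2 := hasSum_le (fun n => neglog_ge (yn_nonneg z n) (yn_lt_one h0 h1 n)) h
    (hasSum_logsinc h0 h1)
  linarith

/-- `-log (1 - y) - y` scales at least quadratically -/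
theorem neglog_scale2 {y y0 r : ℝ} (hr0 : 0 ≤ r) (hr1 : r ≤ 1) (hy : y = r * y0) (h0 : 0 ≤ y0)
    (h1 : y0 < 1) : -Real.log (1 - y) - y ≤ r ^ 2 * (-Real.log (1 - y0) - y0) := by
  have hy0 : 0 ≤ y := by rw [hy]; positivity
  have hy1 : y < 1 := by rw [hy]; nlinarith
  have ha := Real.hasSum_pow_div_log_of_abs_lt_one (x := y) (by rw [abs_of_nonneg hy0]; exact hy1)
  have hb := Real.hasSum_pow_div_log_of_abs_lt_one (x := y0) (by rw [abs_of_nonneg h0]; exact h1)
  have ha2 := (hasSum_nat_add_iff' (f := fun n : ℕ => y ^ (n + 1) / ((n : ℝ) + 1)) 1).2 ha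
  have hb2 := (hasSum_nat_add_iff' (f := fun n : ℕ => y0 ^ (n + 1) / ((n : ℝ) + 1)) 1).2 hb
  have h3 := hasSum_le (fun n => ?_) ha2 (hb2.mul_left (r ^ 2))
  · simpa using h3
  · rw [hy, mul_pow, ← mul_div_assoc]
    apply div_le_div_of_nonneg_right _ (by positivity)
    apply mul_le_mul_of_nonneg_right _ (by positivity)
    exact pow_le_pow_of_le_one hr0 hr1 (by omega)

theorem neglog_scale3 {y y0 r : ℝ} (hr0 : 0 ≤ r) (hr1 : r ≤ 1) (hy : y = r * y0) (h0 : 0 ≤ y0)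
    (h1 : y0 < 1) : -Real.log (1 - y) - y - y ^ 2 / 2 ≤
      r ^ 3 * (-Real.log (1 - y0) - y0 - y0 ^ 2 / 2) := by
  have hy0 : 0 ≤ y := by rw [hy]; positivity
  have hy1 : y < 1 := by rw [hy]; nlinarith
  have ha := Real.hasSum_pow_div_log_of_abs_lt_one (x := y) (by rw [abs_of_nonneg hy0]; exact hy1)
  have hb := Real.hasSum_pow_div_log_of_abs_lt_one (x := y0) (by rw [abs_of_nonneg h0]; exact h1)
  have ha2 := (hasSum_nat_add_iff' (f := fun n : ℕ => y ^ (n + 1) / ((n : ℝ) + 1)) 2).2 ha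
  have hb2 := (hasSum_nat_add_iff' (f := fun n : ℕ => y0 ^ (n + 1) / ((n : ℝ) + 1)) 2).2 hb
  have h3 := hasSum_le (fun n => ?_) ha2 (hb2.mul_left (r ^ 3))
  · simp only [sum_range_succ, range_zero, sum_empty, Nat.cast_zero, Nat.cast_one] at h3
    norm_num at h3
    linarith
  · rw [hy, mul_pow, ← mul_div_assoc]
    apply div_le_div_of_nonneg_right _ (by positivity)
    apply mul_le_mul_of_nonneg_right _ (by positivity)
    exact pow_le_pow_of_le_one hr0 hr1 (by omega)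

/-- `-log sinc z - z²/6` -/
noncomputable def L4 (z : ℝ) : ℝ := -Real.log (Real.sinc z) - z ^ 2 / 6

/-- `-log sinc z - z²/6 - z⁴/180` -/
noncomputable def L6 (z : ℝ) : ℝ := -Real.log (Real.sinc z) - z ^ 2 / 6 - z ^ 4 / 180

theorem yn_scale {z z0 : ℝ} (hz0 : 0 < z0) (n : ℕ) : yn z n = (z / z0) ^ 2 * yn z0 n := by
  unfold yn
  have hpi := Real.pi_pos
  field_simp

theorem L4_scale {z z0 : ℝ} (h0 : 0 ≤ z) (hz : z ≤ z0) (hz0 : 0 < z0) (h1 : z0 < Real.pi) :
    L4 z ≤ (z / z0) ^ 4 * L4 z0 := by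
  have ha := (hasSum_logsinc h0 (lt_of_le_of_lt hz h1)).sub (hasSum_y1 z)
  have hb := ((hasSum_logsinc hz0.le h1).sub (hasSum_y1 z0)).mul_left ((z / z0) ^ 4)
  have hr0 : 0 ≤ (z / z0) ^ 2 := by positivity
  have hr1 : (z / z0) ^ 2 ≤ 1 := by
    apply pow_le_one₀ (by positivity)
    rw [div_le_one hz0]
    exact hz
  refine hasSum_le (fun n => ?_) ha hb
  have h := neglog_scale2 hr0 hr1 (yn_scale (z := z) hz0 n) (yn_nonneg z0 n)
    (yn_lt_one hz0.le h1 n)
  rw [← pow_mul] at h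
  exact h

theorem L6_scale {z z0 : ℝ} (h0 : 0 ≤ z) (hz : z ≤ z0) (hz0 : 0 < z0) (h1 : z0 < Real.pi) :
    L6 z ≤ (z / z0) ^ 6 * L6 z0 := by
  have ha := ((hasSum_logsinc h0 (lt_of_le_of_lt hz h1)).sub (hasSum_y1 z)).sub
    ((hasSum_y2 z).div_const 2)
  have hb := (((hasSum_logsinc hz0.le h1).sub (hasSum_y1 z0)).sub
    ((hasSum_y2 z0).div_const 2)).mul_left ((z / z0) ^ 6)
  have hr0 : 0 ≤ (z / z0) ^ 2 := by positivity
  have hr1 : (z / z0) ^ 2 ≤ 1 := by
    apply pow_le_one₀ (by positivity)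
    rw [div_le_one hz0]
    exact hz
  have h2 := hasSum_le (fun n => ?_) ha hb
  · unfold L6
    have e1 : z ^ 4 / 90 / 2 = z ^ 4 / 180 := by ring
    have e2 : z0 ^ 4 / 90 / 2 = z0 ^ 4 / 180 := by ring
    rw [e1, e2] at h2
    exact h2
  · have h := neglog_scale3 hr0 hr1 (yn_scale (z := z) hz0 n) (yn_nonneg z0 n)
      (yn_lt_one hz0.le h1 n)
    rw [← pow_mul] at h
    exact h

/-- product over the coordinates, upper bound -/
theorem prod_sinc_le {m : ℕ} (b : Fin m → ℝ) {w : ℝ} (hw : 0 ≤ w) (hb : ∀ j, w * |b j| < Real.pi) :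
    ∏ j, Real.sinc (b j * w) ≤ Real.exp (-(w ^ 2 * (∑ j, b j ^ 2) / 6 + w ^ 4 * (∑ j, b j ^ 4) / 180 +
      w ^ 6 * (∑ j, b j ^ 6) / 2835 + w ^ 8 * (∑ j, b j ^ 8) / 37800)) := by
  have e : -(w ^ 2 * (∑ j, b j ^ 2) / 6 + w ^ 4 * (∑ j, b j ^ 4) / 180 +
      w ^ 6 * (∑ j, b j ^ 6) / 2835 + w ^ 8 * (∑ j, b j ^ 8) / 37800) =
      ∑ j, -((w * |b j|) ^ 2 / 6 + (w * |b j|) ^ 4 / 180 + (w * |b j|) ^ 6 / 2835 +
        (w * |b j|) ^ 8 / 37800) := by
    rw [mul_sum, mul_sum, mul_sum, mul_sum, sum_div, sum_div, sum_div, sum_div, ← sum_add_distrib,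
      ← sum_add_distrib, ← sum_add_distrib, ← sum_neg_distrib]
    apply sum_congr rfl
    intro j _
    have h2 : |b j| ^ 2 = b j ^ 2 := sq_abs _
    have h4 : |b j| ^ 4 = b j ^ 4 := by
      rw [show |b j| ^ 4 = (|b j| ^ 2) ^ 2 by ring, h2]; ring
    have h6 : |b j| ^ 6 = b j ^ 6 := by
      rw [show |b j| ^ 6 = (|b j| ^ 2) ^ 3 by ring, h2]; ring
    have h8 : |b j| ^ 8 = b j ^ 8 := by
      rw [show |b j| ^ 8 = (|b j| ^ 2) ^ 4 by ring, h2]; ring
    rw [mul_pow, mul_pow, mul_pow, mul_pow, h2, h4, h6, h8]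
  rw [e, Real.exp_sum]
  apply Finset.prod_le_prod
  · intro j _
    rw [Pool.Agent.H60.Slab.sinc_abs, abs_mul, abs_of_nonneg hw, mul_comm]
    exact (sinc_pos' (by positivity) (hb j)).le
  · intro j _
    rw [Pool.Agent.H60.Slab.sinc_abs, abs_mul, abs_of_nonneg hw, mul_comm]
    have h1 := neglogsinc_ge (by positivity : 0 ≤ w * |b j|) (hb j)
    have h2 := sinc_pos' (by positivity : 0 ≤ w * |b j|) (hb j)
    rw [← Real.log_le_iff_le_exp h2]
    linarith

/-- product over the coordinates, lower bound of order 4 -/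
theorem prod_sinc_ge4 {m : ℕ} (b : Fin m → ℝ) {w β : ℝ} (hw : 0 < w) (hβ : 0 < β)
    (hb : ∀ j, |b j| ≤ β) (hwβ : w * β < Real.pi) :
    Real.exp (-(w ^ 2 * (∑ j, b j ^ 2) / 6 + (∑ j, b j ^ 4) / β ^ 4 * L4 (w * β))) ≤
      ∏ j, Real.sinc (b j * w) := by
  have e : -(w ^ 2 * (∑ j, b j ^ 2) / 6 + (∑ j, b j ^ 4) / β ^ 4 * L4 (w * β)) =
      ∑ j, -((w * |b j|) ^ 2 / 6 + (w * |b j| / (w * β)) ^ 4 * L4 (w * β)) := by
    rw [mul_sum, sum_div, sum_div, sum_mul, ← sum_add_distrib, ← sum_neg_distrib]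
    apply sum_congr rfl
    intro j _
    have h2 : |b j| ^ 2 = b j ^ 2 := sq_abs _
    have h4 : |b j| ^ 4 = b j ^ 4 := by
      rw [show |b j| ^ 4 = (|b j| ^ 2) ^ 2 by ring, h2]; ring
    rw [mul_div_mul_left _ _ hw.ne', mul_pow, div_pow, h2, h4]
  rw [e, Real.exp_sum]
  apply Finset.prod_le_prod
  · intro j _
    exact (Real.exp_pos _).le
  · intro j _
    rw [Pool.Agent.H60.Slab.sinc_abs (b j * w), abs_mul, abs_of_pos hw, mul_comm |b j| w]
    have hz : w * |b j| ≤ w * β := mul_le_mul_of_nonneg_left (hb j) hw.le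
    have h1 := L4_scale (by positivity : 0 ≤ w * |b j|) hz (by positivity) hwβ
    have h2 := sinc_pos' (by positivity : 0 ≤ w * |b j|) (lt_of_le_of_lt hz hwβ)
    rw [← Real.le_log_iff_exp_le h2]
    have h3 : L4 (w * |b j|) = -Real.log (Real.sinc (w * |b j|)) - (w * |b j|) ^ 2 / 6 := rfl
    linarith

/-- product over the coordinates, lower bound of order 6 -/
theorem prod_sinc_ge6 {m : ℕ} (b : Fin m → ℝ) {w β : ℝ} (hw : 0 < w) (hβ : 0 < β)
    (hb : ∀ j, |b j| ≤ β) (hwβ : w * β < Real.pi) :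
    Real.exp (-(w ^ 2 * (∑ j, b j ^ 2) / 6 + w ^ 4 * (∑ j, b j ^ 4) / 180 +
      (∑ j, b j ^ 6) / β ^ 6 * L6 (w * β))) ≤ ∏ j, Real.sinc (b j * w) := by
  have e : -(w ^ 2 * (∑ j, b j ^ 2) / 6 + w ^ 4 * (∑ j, b j ^ 4) / 180 +
      (∑ j, b j ^ 6) / β ^ 6 * L6 (w * β)) =
      ∑ j, -((w * |b j|) ^ 2 / 6 + (w * |b j|) ^ 4 / 180 +
        (w * |b j| / (w * β)) ^ 6 * L6 (w * β)) := by
    rw [mul_sum, mul_sum, sum_div, sum_div, sum_div, sum_mul, ← sum_add_distrib, ← sum_add_distrib,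
      ← sum_neg_distrib]
    apply sum_congr rfl
    intro j _
    have h2 : |b j| ^ 2 = b j ^ 2 := sq_abs _
    have h4 : |b j| ^ 4 = b j ^ 4 := by
      rw [show |b j| ^ 4 = (|b j| ^ 2) ^ 2 by ring, h2]; ring
    have h6 : |b j| ^ 6 = b j ^ 6 := by
      rw [show |b j| ^ 6 = (|b j| ^ 2) ^ 3 by ring, h2]; ring
    rw [mul_div_mul_left _ _ hw.ne', mul_pow, mul_pow, div_pow, h2, h4, h6]
  rw [e, Real.exp_sum]
  apply Finset.prod_le_prod
  · intro j _
    exact (Real.exp_pos _).le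
  · intro j _
    rw [Pool.Agent.H60.Slab.sinc_abs (b j * w), abs_mul, abs_of_pos hw, mul_comm |b j| w]
    have hz : w * |b j| ≤ w * β := mul_le_mul_of_nonneg_left (hb j) hw.le
    have h1 := L6_scale (by positivity : 0 ≤ w * |b j|) hz (by positivity) hwβ
    have h2 := sinc_pos' (by positivity : 0 ≤ w * |b j|) (lt_of_le_of_lt hz hwβ)
    rw [← Real.le_log_iff_exp_le h2]
    have h3 : L6 (w * |b j|) = -Real.log (Real.sinc (w * |b j|)) - (w * |b j|) ^ 2 / 6 -
      (w * |b j|) ^ 4 / 180 := rfl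
    linarith

/-- Jensen form of the upper bound -/
theorem prod_sinc_jensen {m : ℕ} (b : Fin m → ℝ) {w : ℝ} (hw : 0 < w)
    (hb : ∀ j, w * |b j| < Real.pi) {σ s : ℝ} (hσ : ∑ j, b j ^ 2 = σ) (hs : ∑ j, b j ^ 4 = s)
    (hσ0 : 0 < σ) :
    ∏ j, Real.sinc (b j * w) ≤
      Real.exp (σ ^ 2 / s * Real.log (Real.sinc (w * Real.sqrt (s / σ)))) ∧
      w * Real.sqrt (s / σ) < Real.pi := by
  -- the mean
  have hs0 : 0 < s := by
    rw [← hs]
    have hne : ∃ j, b j ≠ 0 := by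
      by_contra hcon
      push Not at hcon
      rw [← hσ] at hσ0
      simp [hcon] at hσ0
    obtain ⟨j, hj⟩ := hne
    exact sum_pos' (fun i _ => by positivity) ⟨j, mem_univ _, by positivity⟩
  set μ : ℝ := s / σ with hμ
  have hμ0 : 0 < μ := div_pos hs0 hσ0
  have hpow : ∀ k : ℕ, σ * μ ^ k ≤ ∑ j, (b j ^ 2) ^ (k + 1) := by
    intro k
    have h := Real.pow_arith_mean_le_arith_mean_pow univ (fun j => b j ^ 2 / σ) (fun j => b j ^ 2)
      (fun j _ => by positivity) (by rw [← sum_div, hσ, div_self hσ0.ne'])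
      (fun j _ => by positivity) k
    have e1 : ∑ j, b j ^ 2 / σ * b j ^ 2 = μ := by
      rw [hμ, ← hs, sum_div]
      apply sum_congr rfl
      intro j _
      ring
    have e2 : ∑ j, b j ^ 2 / σ * (b j ^ 2) ^ k = (∑ j, (b j ^ 2) ^ (k + 1)) / σ := by
      rw [sum_div]
      apply sum_congr rfl
      intro j _
      ring
    rw [e1, e2, le_div_iff₀ hσ0] at h
    linarith
  -- the largest coordinate
  have hm : ∃ j0, ∀ j, |b j| ≤ |b j0| := by
    have hne : (univ : Finset (Fin m)).Nonempty := by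
      by_contra hcon
      rw [not_nonempty_iff_eq_empty] at hcon
      rw [hcon] at hσ
      simp at hσ
      linarith
    obtain ⟨j0, _, h⟩ := exists_max_image univ (fun j => |b j|) hne
    exact ⟨j0, fun j => h j (mem_univ _)⟩
  obtain ⟨j0, hj0⟩ := hm
  have hμle : μ ≤ b j0 ^ 2 := by
    rw [hμ, div_le_iff₀ hσ0, ← hs, ← hσ, mul_sum]
    apply sum_le_sum
    intro j _
    have h1 : b j ^ 2 ≤ b j0 ^ 2 := sq_le_sq.2 (hj0 j)
    have h2 : b j ^ 4 = b j ^ 2 * b j ^ 2 := by ring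
    rw [h2]
    exact mul_le_mul_of_nonneg_right h1 (by positivity)
  have hwμ : w * Real.sqrt μ < Real.pi := by
    have h1 : Real.sqrt μ ≤ |b j0| := by
      rw [← Real.sqrt_sq_eq_abs]
      exact Real.sqrt_le_sqrt hμle
    exact lt_of_le_of_lt (mul_le_mul_of_nonneg_left h1 hw.le) (hb j0)
  refine ⟨?_, hwμ⟩
  have hwμ0 : 0 ≤ w * Real.sqrt μ := by positivity
  -- logs
  have hlog : σ ^ 2 / s * (-Real.log (Real.sinc (w * Real.sqrt μ))) ≤
      ∑ j, -Real.log (Real.sinc (w * |b j|)) := by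
    have hA := (hasSum_logsinc hwμ0 hwμ).mul_left (σ ^ 2 / s)
    have hB : HasSum (fun n : ℕ => ∑ j, -Real.log (1 - yn (w * |b j|) n))
        (∑ j, -Real.log (Real.sinc (w * |b j|))) :=
      hasSum_sum fun j _ => hasSum_logsinc (by positivity) (hb j)
    refine hasSum_le (fun n => ?_) hA hB
    -- one Euler factor
    set c : ℝ := w ^ 2 / (Real.pi ^ 2 * ((n : ℝ) + 1) ^ 2) with hc
    have hc0 : 0 < c := by
      have := Real.pi_pos
      positivity
    have e1 : yn (w * Real.sqrt μ) n = c * μ := by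
      unfold yn
      rw [hc, mul_pow, Real.sq_sqrt hμ0.le]
      ring
    have e2 : ∀ j, yn (w * |b j|) n = c * b j ^ 2 := by
      intro j
      unfold yn
      rw [hc, mul_pow, sq_abs]
      ring
    have h1 : HasSum (fun k : ℕ => yn (w * Real.sqrt μ) n ^ (k + 1) / ((k : ℝ) + 1))
        (-Real.log (1 - yn (w * Real.sqrt μ) n)) :=
      Real.hasSum_pow_div_log_of_abs_lt_one (by
        rw [abs_of_nonneg (yn_nonneg _ _)]
        exact yn_lt_one hwμ0 hwμ n)
    have h2 : HasSum (fun k : ℕ => ∑ j, yn (w * |b j|) n ^ (k + 1) / ((k : ℝ) + 1))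
        (∑ j, -Real.log (1 - yn (w * |b j|) n)) :=
      hasSum_sum fun j _ => Real.hasSum_pow_div_log_of_abs_lt_one (by
        rw [abs_of_nonneg (yn_nonneg _ _)]
        exact yn_lt_one (by positivity) (hb j) n)
    refine hasSum_le (fun k => ?_) (h1.mul_left (σ ^ 2 / s)) h2
    rw [e1]
    simp only [e2]
    have h3 := hpow k
    have e3 : σ ^ 2 / s * ((c * μ) ^ (k + 1) / ((k : ℝ) + 1)) =
        c ^ (k + 1) / ((k : ℝ) + 1) * (σ * μ ^ k) := by
      rw [mul_pow, pow_succ μ k, hμ]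
      field_simp
    have e4 : ∑ j, (c * b j ^ 2) ^ (k + 1) / ((k : ℝ) + 1) =
        c ^ (k + 1) / ((k : ℝ) + 1) * ∑ j, (b j ^ 2) ^ (k + 1) := by
      rw [mul_sum]
      apply sum_congr rfl
      intro j _
      rw [mul_pow]
      ring
    rw [e3, e4]
    exact mul_le_mul_of_nonneg_left h3 (by positivity)
  have e5 : ∏ j, Real.sinc (b j * w) = Real.exp (-∑ j, -Real.log (Real.sinc (w * |b j|))) := by
    rw [sum_neg_distrib, neg_neg, Real.exp_sum]
    apply prod_congr rfl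
    intro j _
    rw [Real.exp_log (sinc_pos' (by positivity) (hb j)), Pool.Agent.H60.Slab.sinc_abs (b j * w),
      abs_mul, abs_of_pos hw, mul_comm]
  rw [e5]
  apply Real.exp_le_exp.2
  linarith

end Pool.Agent.H60.SL
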