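import Pool.Agent.H60.SL.Lom

set_option autoImplicit false

open MeasureTheory Set Filter Topology

namespace Pool.Agent.H60.SL

open Pool.Agent.H64.Slab Pool.Agent.H60.Slab Pool.Agent.H60.Big

theorem JJ_449 : 0 < JJ 4.49 := by
  have hpi1 := Real.pi_gt_d6
  have hpi2 := Real.pi_lt_d6
  obtain ⟨δ, hδ⟩ : ∃ δ, 3 * Real.pi / 2 - 4.49 = δ := ⟨_, rfl⟩
  have hδ1 : 0.22238 < δ := by rw [← hδ]; linarith
  have hδ2 : δ < 0.2224 := by rw [← hδ]; linarith
  have hs : Real.sin 4.49 = -Real.cos δ := by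
    have : (4.49 : ℝ) = (Real.pi / 2 - δ) + Real.pi := by rw [← hδ]; ring
    rw [this, Real.sin_add_pi, Real.sin_pi_div_two_sub]
  have hc : Real.cos 4.49 = -Real.sin δ := by
    have : (4.49 : ℝ) = (Real.pi / 2 - δ) + Real.pi := by rw [← hδ]; ring
    rw [this, Real.cos_add_pi, Real.cos_pi_div_two_sub]
  unfold JJ
  rw [hs, hc]
  have h1 := sin_lb3 δ (by linarith)
  have h2 := cos_ub4 δ (by linarith)
  have h3 : δ ^ 3 ≤ 0.2224 ^ 3 := pow_le_pow_left₀ (by linarith) hδ2.le 3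
  have h4 : δ ^ 4 ≤ 0.2224 ^ 4 := pow_le_pow_left₀ (by linarith) hδ2.le 4
  have h5 : 0.22238 ^ 2 ≤ δ ^ 2 := pow_le_pow_left₀ (by norm_num) hδ1.le 2
  norm_num at h3 h4 h5 ⊢
  linarith

theorem JJ_pos {z : ℝ} (h0 : 0 < z) (h1 : z ≤ 4.49) : 0 < JJ z := by
  have hpi1 := Real.pi_gt_d6
  have hpi2 := Real.pi_lt_d6
  rcases le_total z Real.pi with h | h
  · have hmono : StrictMonoOn JJ (Icc 0 Real.pi) := by
      apply strictMonoOn_of_deriv_pos (convex_Icc _ _) JJ_continuous.continuousOn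
      intro x hx
      rw [interior_Icc] at hx
      rw [(JJ_hasDerivAt x).deriv]
      exact mul_pos hx.1 (Real.sin_pos_of_pos_of_lt_pi hx.1 hx.2)
    have := hmono ⟨le_rfl, Real.pi_pos.le⟩ ⟨h0.le, h⟩ h0
    simpa [JJ] using this
  · have hanti : AntitoneOn JJ (Icc Real.pi 4.49) := by
      apply antitoneOn_of_deriv_nonpos (convex_Icc _ _) JJ_continuous.continuousOn
      · intro x hx
        exact (JJ_hasDerivAt x).differentiableAt.differentiableWithinAt
      · intro x hx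
        rw [interior_Icc] at hx
        rw [(JJ_hasDerivAt x).deriv]
        have hsin : Real.sin x ≤ 0 := by
          have h2 : 0 ≤ Real.sin (x - Real.pi) :=
            Real.sin_nonneg_of_nonneg_of_le_pi (by linarith [hx.1]) (by norm_num at hx ⊢; linarith [hx.2])
          rw [Real.sin_sub_pi] at h2
          linarith
        have hx0 : 0 < x := by linarith [hx.1]
        exact mul_nonpos_of_nonneg_of_nonpos hx0.le hsin
    have h3 := hanti ⟨h, h1⟩ ⟨h.trans h1, le_rfl⟩ h1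
    exact lt_of_lt_of_le JJ_449 h3

theorem psi1_pos {z : ℝ} (h0 : 0 ≤ z) (h1 : z ≤ 4.49) : 0 < psi1 z := by
  unfold psi1
  split_ifs with h
  · exact one_pos
  · have hz : 0 < z := lt_of_le_of_ne h0 (Ne.symm h)
    have := JJ_pos hz h1
    positivity

/-- `(3 - z²) sin z - 3 z cos z` -/
noncomputable def MM (z : ℝ) : ℝ := (3 - z ^ 2) * Real.sin z - 3 * z * Real.cos z

theorem MM_hasDerivAt (z : ℝ) : HasDerivAt MM (z * JJ z) z := by
  have hP : HasDerivAt (fun y : ℝ => 3 - y ^ 2) (-(2 * z)) z := by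
    have := (hasDerivAt_pow 2 z).const_sub 3
    simpa using this
  have hQ : HasDerivAt (fun y : ℝ => 3 * y) 3 z := by
    simpa using (hasDerivAt_id z).const_mul 3
  have h := (hP.mul (Real.hasDerivAt_sin z)).sub (hQ.mul (Real.hasDerivAt_cos z))
  refine h.congr_deriv ?_
  unfold JJ
  ring

theorem MM_pos {z : ℝ} (h0 : 0 < z) (h1 : z ≤ 4.49) : 0 < MM z := by
  have hmono : StrictMonoOn MM (Icc 0 4.49) := by
    apply strictMonoOn_of_deriv_pos (convex_Icc _ _)
    · apply Continuous.continuousOn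
      unfold MM
      fun_prop
    · intro x hx
      rw [interior_Icc] at hx
      rw [(MM_hasDerivAt x).deriv]
      exact mul_pos hx.1 (JJ_pos hx.1 hx.2.le)
  have := hmono ⟨le_rfl, by norm_num⟩ ⟨h0.le, h1⟩ h0
  simpa [MM] using this

theorem psi1_antitone : AntitoneOn psi1 (Icc 0 4.49) := by
  apply antitoneOn_of_deriv_nonpos (convex_Icc _ _) psi1_continuous.continuousOn
  · intro x hx
    rw [interior_Icc] at hx
    have hx0 : x ≠ 0 := hx.1.ne'
    have h1 : HasDerivAt (fun z => 3 * JJ z / z ^ 3) _ x :=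
      ((JJ_hasDerivAt x).const_mul 3).div (hasDerivAt_pow 3 x) (pow_ne_zero 3 hx0)
    have h2 : HasDerivAt psi1 _ x := h1.congr_of_eventuallyEq (by
      filter_upwards [eventually_ne_nhds hx0] with y hy
      unfold psi1
      rw [if_neg hy])
    exact h2.differentiableAt.differentiableWithinAt
  · intro x hx
    rw [interior_Icc] at hx
    have hx0 : x ≠ 0 := hx.1.ne'
    have h1 : HasDerivAt (fun z => 3 * JJ z / z ^ 3) _ x :=
      ((JJ_hasDerivAt x).const_mul 3).div (hasDerivAt_pow 3 x) (pow_ne_zero 3 hx0)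
    have h2 : HasDerivAt psi1 _ x := h1.congr_of_eventuallyEq (by
      filter_upwards [eventually_ne_nhds hx0] with y hy
      unfold psi1
      rw [if_neg hy])
    rw [h2.deriv]
    have h3 := MM_pos hx.1 hx.2.le
    have h4 : (3 * (x * Real.sin x) * x ^ 3 - 3 * JJ x * (↑3 * x ^ (3 - 1))) / (x ^ 3) ^ 2 =
        -(3 * MM x / x ^ 4) := by
      unfold MM JJ
      field_simp
      ring
    have h5 : 0 ≤ 3 * MM x / x ^ 4 := by positivity
    have h6 : (3 * (x * Real.sin x) * x ^ 3 - 3 * JJ x * (↑3 * x ^ (3 - 1))) / (x ^ 3) ^ 2 ≤ 0 := by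
      rw [h4]; linarith
    refine le_trans (le_of_eq ?_) h6
    push_cast
    rfl

theorem KI_pos {u v : ℝ} (hu : 0 ≤ u) (hu1 : u ≤ 4.49) (hv : 0 ≤ v) (hv1 : v ≤ 4.49) :
    0 < KI u v := by
  unfold KI
  have hp := psi1_continuous
  apply mul_pos (by norm_num)
  apply intervalIntegral.intervalIntegral_pos_of_pos_on
  · apply Continuous.intervalIntegrable; fun_prop
  · intro s hs
    have h1 : 0 < psi1 (u * s) := psi1_pos (mul_nonneg hu hs.1.le) (by nlinarith [hs.1, hs.2])
    have h2 : 0 < psi1 (v * s) := psi1_pos (mul_nonneg hv hs.1.le) (by nlinarith [hs.1, hs.2])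
    have h3 : 0 < s := hs.1
    positivity
  · exact zero_lt_one

theorem KI_anti {u u' v v' : ℝ} (hu : 0 ≤ u) (huu : u ≤ u') (hu1 : u' ≤ 4.49) (hv : 0 ≤ v)
    (hvv : v ≤ v') (hv1 : v' ≤ 4.49) : KI u' v' ≤ KI u v := by
  unfold KI
  have hp := psi1_continuous
  apply mul_le_mul_of_nonneg_left _ (by norm_num)
  apply intervalIntegral.integral_mono_on zero_le_one
  · apply Continuous.intervalIntegrable; fun_prop
  · apply Continuous.intervalIntegrable; fun_prop
  · intro s hs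
    have hs0 := hs.1
    have hs1 := hs.2
    have e1 : u * s ≤ u' * s := mul_le_mul_of_nonneg_right huu hs0
    have e2 : v * s ≤ v' * s := mul_le_mul_of_nonneg_right hvv hs0
    have e3 : u' * s ≤ 4.49 := by nlinarith [hu.trans huu]
    have e4 : v' * s ≤ 4.49 := by nlinarith [hv.trans hvv]
    have e5 : 0 ≤ u * s := mul_nonneg hu hs0
    have e6 : 0 ≤ v * s := mul_nonneg hv hs0
    have h1 := psi1_antitone ⟨e5, e1.trans e3⟩ ⟨e5.trans e1, e3⟩ e1
    have h2 := psi1_antitone ⟨e6, e2.trans e4⟩ ⟨e6.trans e2, e4⟩ e2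
    have h3 := psi1_pos (e5.trans e1) e3
    have h4 := psi1_pos (e6.trans e2) e4
    have h5 : psi1 (u' * s) * psi1 (v' * s) ≤ psi1 (u * s) * psi1 (v * s) :=
      mul_le_mul h1 h2 h4.le (h3.le.trans h1)
    exact mul_le_mul_of_nonneg_left h5 (by positivity)

end Pool.Agent.H60.SL
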