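import Pool.Agent.H60.SL.Tr

set_option autoImplicit false

open MeasureTheory Set Filter Topology FourierTransform Complex

namespace Pool.Agent.H60.SL

open Pool.Agent.H64.Slab Pool.Agent.H60.Slab Pool.Agent.H60.Big

/-- scaled Poisson summation for a continuous compactly supported function -/
theorem poisson_scaled {f : ℝ → ℂ} (hf : Continuous f) {L : ℝ} (hs : ∀ x, L ≤ |x| → f x = 0)
    {P : ℝ} (hP : 0 < P) (hsum : Summable (fun k : ℤ => 𝓕 f (k / P))) (x : ℝ) :
    ∑' j : ℤ, f (x + j * P) = (1 / P : ℝ) * ∑' k : ℤ, 𝓕 f (k / P) * cexp ((x * (2 * Real.pi * k / P) : ℝ) * I) := by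
  have hFg : ∀ w : ℝ, 𝓕 (fun y : ℝ => f (P * y)) w = (1 / P : ℝ) * 𝓕 f (w / P) := by
    intro w
    rw [Real.fourier_real_eq_integral_exp_smul, Real.fourier_real_eq_integral_exp_smul]
    have h := Measure.integral_comp_mul_left
      (fun v : ℝ => cexp (((-2 * Real.pi * v * (w / P) : ℝ) : ℂ) * I) • f v) P
    rw [abs_of_pos (inv_pos.2 hP)] at h
    have e : ∀ v : ℝ, cexp (((-2 * Real.pi * v * w : ℝ) : ℂ) * I) • f (P * v) =
        cexp (((-2 * Real.pi * (P * v) * (w / P) : ℝ) : ℂ) * I) • f (P * v) := by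
      intro v
      have : -2 * Real.pi * v * w = -2 * Real.pi * (P * v) * (w / P) := by
        field_simp
      rw [this]
    simp only [e]
    rw [h, one_div, Complex.real_smul]
  have hc : Continuous (fun y : ℝ => f (P * y)) := by fun_prop
  have hO : (fun y : ℝ => f (P * y)) =O[cocompact ℝ] (fun x : ℝ => |x| ^ (-(2 : ℝ))) := by
    have h0 : (fun y : ℝ => f (P * y)) =ᶠ[cocompact ℝ] (fun _ => (0 : ℂ)) := by
      have hK : IsCompact (Icc (-(L / P)) (L / P)) := isCompact_Icc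
      filter_upwards [hK.compl_mem_cocompact] with y hy
      apply hs
      rw [abs_mul, abs_of_pos hP]
      by_contra hcon
      apply hy
      rw [mem_Icc, ← abs_le, le_div_iff₀ hP]
      linarith
    exact h0.trans_isBigO (Asymptotics.isBigO_zero _ _)
  have hsum2 : Summable (fun k : ℤ => 𝓕 (fun y : ℝ => f (P * y)) (k : ℝ)) := by
    simp only [hFg]
    exact hsum.mul_left _
  have h := Real.tsum_eq_tsum_fourier_of_rpow_decay_of_summable hc one_lt_two hO hsum2 (x / P)
  have e1 : ∀ n : ℤ, f (P * (x / P + n)) = f (x + n * P) := by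
    intro n
    congr 1
    field_simp
  simp only [e1, hFg] at h
  rw [h, ← tsum_mul_left]
  congr 1
  ext n
  rw [mul_assoc]
  congr 2
  rw [fourier_coe_apply]
  congr 1
  push_cast
  field_simp

theorem fourier_cs {f : ℝ → ℝ} (hfi : Integrable f) {C S : ℝ → ℝ}
    (hC : ∀ ξ, C ξ = ∫ y, f y * Real.cos (ξ * y)) (hS : ∀ ξ, S ξ = ∫ y, f y * Real.sin (ξ * y))
    (w : ℝ) : 𝓕 (fun y : ℝ => (f y : ℂ)) w =
      ((C (2 * Real.pi * w) : ℝ) : ℂ) - ((S (2 * Real.pi * w) : ℝ) : ℂ) * I := by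
  have hmul : ∀ ξ : ℝ, Integrable (fun y => f y * Real.cos (ξ * y)) := by
    intro ξ
    refine hfi.mono (by fun_prop) (Filter.Eventually.of_forall fun y => ?_)
    rw [norm_mul]
    exact mul_le_of_le_one_right (norm_nonneg _) (by
      rw [Real.norm_eq_abs]; exact Real.abs_cos_le_one _)
  have hmul2 : ∀ ξ : ℝ, Integrable (fun y => f y * Real.sin (ξ * y)) := by
    intro ξ
    refine hfi.mono (by fun_prop) (Filter.Eventually.of_forall fun y => ?_)
    rw [norm_mul]
    exact mul_le_of_le_one_right (norm_nonneg _) (by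
      rw [Real.norm_eq_abs]; exact Real.abs_sin_le_one _)
  rw [Real.fourier_real_eq_integral_exp_smul, hC, hS, ← integral_complex_ofReal,
    ← integral_complex_ofReal, ← integral_mul_const, ← integral_sub]
  · congr 1
    ext v
    have e : cexp (((-2 * Real.pi * v * w : ℝ) : ℂ) * I) =
        (Real.cos (2 * Real.pi * w * v) : ℂ) - (Real.sin (2 * Real.pi * w * v) : ℂ) * I := by
      rw [Complex.exp_mul_I, ← Complex.ofReal_cos, ← Complex.ofReal_sin,
        show -2 * Real.pi * v * w = -(2 * Real.pi * w * v) by ring, Real.cos_neg, Real.sin_neg]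
      push_cast
      ring
    rw [e, smul_eq_mul]
    push_cast
    ring
  · exact (hmul _).ofReal
  · exact (hmul2 _).ofReal.mul_const I

/-- real form -/
theorem poisson_real {f : ℝ → ℝ} (hf : Continuous f) {L : ℝ} (hs : ∀ x, L ≤ |x| → f x = 0)
    {C S : ℝ → ℝ}
    (hC : ∀ ξ, C ξ = ∫ y, f y * Real.cos (ξ * y)) (hS : ∀ ξ, S ξ = ∫ y, f y * Real.sin (ξ * y))
    {P : ℝ} (hP : 0 < P) (hCs : Summable (fun k : ℤ => C (2 * Real.pi * k / P)))
    (hSs : Summable (fun k : ℤ => S (2 * Real.pi * k / P))) (x : ℝ) :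
    HasSum (fun k : ℤ => C (2 * Real.pi * k / P) * Real.cos (x * (2 * Real.pi * k / P)) +
      S (2 * Real.pi * k / P) * Real.sin (x * (2 * Real.pi * k / P)))
      (P * ∑' j : ℤ, f (x + j * P)) := by
  have hfi : Integrable f := supp_integrable hf hs
  have hFT : ∀ k : ℤ, 𝓕 (fun y : ℝ => (f y : ℂ)) ((k : ℝ) / P) =
      ((C (2 * Real.pi * k / P) : ℝ) : ℂ) - ((S (2 * Real.pi * k / P) : ℝ) : ℂ) * I := by
    intro k
    rw [fourier_cs hfi hC hS, mul_div_assoc]
  have hsumF : Summable (fun k : ℤ => 𝓕 (fun y : ℝ => (f y : ℂ)) ((k : ℝ) / P)) := by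
    simp only [hFT]
    have h1 : Summable (fun k : ℤ => ((C (2 * Real.pi * k / P) : ℝ) : ℂ)) := by
      exact_mod_cast hCs
    have h2 : Summable (fun k : ℤ => ((S (2 * Real.pi * k / P) : ℝ) : ℂ)) := by
      exact_mod_cast hSs
    exact h1.sub (h2.mul_right I)
  have h := poisson_scaled (L := L) (f := fun y : ℝ => (f y : ℂ)) (continuous_ofReal.comp hf)
    (fun x hx => by simp [hs x hx]) hP hsumF x
  have hs2 : Summable (fun k : ℤ => 𝓕 (fun y : ℝ => (f y : ℂ)) ((k : ℝ) / P) *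
      cexp ((x * (2 * Real.pi * k / P) : ℝ) * I)) := by
    apply Summable.of_norm
    have e : ∀ k : ℤ, ‖𝓕 (fun y : ℝ => (f y : ℂ)) ((k : ℝ) / P) *
      cexp ((x * (2 * Real.pi * k / P) : ℝ) * I)‖ = ‖𝓕 (fun y : ℝ => (f y : ℂ)) ((k : ℝ) / P)‖ := by
      intro k
      rw [norm_mul, Complex.norm_exp_ofReal_mul_I, mul_one]
    simp only [e]
    exact hsumF.norm
  have hre := Complex.hasSum_re hs2.hasSum
  have e2 : ∀ k : ℤ, (𝓕 (fun y : ℝ => (f y : ℂ)) ((k : ℝ) / P) *
      cexp ((x * (2 * Real.pi * k / P) : ℝ) * I)).re =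
      C (2 * Real.pi * k / P) * Real.cos (x * (2 * Real.pi * k / P)) +
      S (2 * Real.pi * k / P) * Real.sin (x * (2 * Real.pi * k / P)) := by
    intro k
    rw [hFT, Complex.mul_re, Complex.exp_ofReal_mul_I_re, Complex.exp_ofReal_mul_I_im]
    simp only [Complex.sub_re, Complex.sub_im, Complex.mul_re, Complex.mul_im, Complex.ofReal_re,
      Complex.ofReal_im, Complex.I_re, Complex.I_im]
    ring
  simp only [e2] at hre
  convert hre using 1
  have h3 : ∑' k : ℤ, 𝓕 (fun y : ℝ => (f y : ℂ)) ((k : ℝ) / P) *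
      cexp ((x * (2 * Real.pi * k / P) : ℝ) * I) = (P : ℂ) * ∑' j : ℤ, (f (x + j * P) : ℂ) := by
    rw [h]
    push_cast
    rw [← mul_assoc, mul_one_div_cancel (by exact_mod_cast hP.ne'), one_mul]
  rw [h3, ← Complex.ofReal_tsum, ← Complex.ofReal_mul, Complex.ofReal_re]

end Pool.Agent.H60.SL
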