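import Pool.Agent.H60.SL.Alias
import Pool.Agent.H60.SL.PoiF
import Pool.Agent.H60.Slab.Inv

set_option autoImplicit false

open MeasureTheory Set Filter Topology FourierTransform

namespace Pool.Agent.H60.SL

open Pool.Agent.H64.Slab Pool.Agent.H60.Slab Pool.Agent.H60.Big

/-- indicator of `[-t,t]` -/
noncomputable def ind (t : ℝ) : ℝ → ℝ := (Icc (-t) t).indicator (fun _ => (1 : ℝ))

theorem ind_measurable (t : ℝ) : Measurable (ind t) :=
  measurable_const.indicator measurableSet_Icc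

theorem ind_nonneg (t x : ℝ) : 0 ≤ ind t x := indicator_nonneg (fun _ _ => zero_le_one) x

theorem ind_abs_le (t x : ℝ) : |ind t x| ≤ 1 := by
  rw [abs_of_nonneg (ind_nonneg t x)]
  unfold ind
  by_cases h : x ∈ Icc (-t) t
  · rw [indicator_of_mem h]
  · rw [indicator_of_notMem h]; exact zero_le_one

theorem ind_far {t x : ℝ} (h : t < |x|) : ind t x = 0 := by
  unfold ind
  rw [indicator_of_notMem]
  intro hx
  rw [mem_Icc, ← abs_le] at hx
  linarith

theorem FV_eq_avgc {n : ℕ} (a : Fin n → ℝ) (t y : ℝ) : FV a t y = 2 ^ n * avgc a (ind t) y := by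
  unfold avgc
  have h1 : ∫ x, ind t (y + dot x a) ∂(cubeM n) = FV a t y := by
    have e : (fun x : Fin n → ℝ => ind t (y + dot x a)) =
        {x : Fin n → ℝ | |y + dot x a| ≤ t}.indicator (fun _ => (1 : ℝ)) := by
      ext x
      unfold ind
      by_cases h : |y + dot x a| ≤ t
      · rw [indicator_of_mem (by rw [mem_Icc, ← abs_le]; exact h), indicator_of_mem (by exact h)]
      · rw [indicator_of_notMem (by rw [mem_Icc, ← abs_le]; exact h),
          indicator_of_notMem (by exact h)]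
    rw [e, integral_indicator_const _ (measurableSet_slab a t y), smul_eq_mul, mul_one]
    rfl
  rw [h1]
  field_simp

/-- decay bound for every `t > 0` -/
theorem phi_sinc_bound' {n : ℕ} (a : Fin n → ℝ) (hsum : ∑ j, a j ^ 2 = 1) {t : ℝ} (ht : 0 < t)
    (ξ : ℝ) : |phi a ξ * Real.sinc (t * ξ)| ≤ (3 / min t 1) * (1 + ξ ^ 2)⁻¹ := by
  rcases le_total t 1 with h | h
  · rw [min_eq_left h]
    exact phi_sinc_bound a hsum ht h ξ
  · rw [min_eq_right h]
    have h1 := phi_sq_le a hsum ξ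
    have h2 := sinc_sq_le (t * ξ)
    have hA : 0 < 1 + ξ ^ 2 / 3 := by positivity
    have h3 : phi a ξ ^ 2 ≤ (1 + ξ ^ 2 / 3)⁻¹ := by
      rw [← one_div, le_div_iff₀ hA]; exact h1
    have h4 : Real.sinc (t * ξ) ^ 2 ≤ (1 + ξ ^ 2 / 3)⁻¹ := by
      rw [← one_div, le_div_iff₀ (by positivity)]
      refine le_trans ?_ h2
      apply mul_le_mul_of_nonneg_left _ (sq_nonneg _)
      have : 1 * ξ ^ 2 ≤ t ^ 2 * ξ ^ 2 := mul_le_mul_of_nonneg_right (by nlinarith) (sq_nonneg _)
      nlinarith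
    have h5 : (phi a ξ * Real.sinc (t * ξ)) ^ 2 ≤ ((1 + ξ ^ 2 / 3)⁻¹) ^ 2 := by
      rw [mul_pow, sq (1 + ξ ^ 2 / 3)⁻¹]
      exact mul_le_mul h3 h4 (sq_nonneg _) (by positivity)
    have h6 := abs_le_of_sq_le_sq h5 (by positivity)
    refine le_trans h6 ?_
    rw [div_one, ← one_div, div_le_iff₀ hA]
    have h8 : 0 < 1 + ξ ^ 2 := by positivity
    have h9 : 3 * (1 + ξ ^ 2)⁻¹ * (1 + ξ ^ 2 / 3) = (3 + ξ ^ 2) / (1 + ξ ^ 2) := by
      field_simp
    rw [h9, le_div_iff₀ h8]
    linarith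

/-- Poisson summation for the slab -/
theorem FV_poisson {n : ℕ} (a : Fin n → ℝ) (hsum : ∑ j, a j ^ 2 = 1) {t P : ℝ} (ht : 0 < t)
    (hP : 0 < P) :
    HasSum (fun k : ℕ => 4 * t / P * (phi a (2 * Real.pi * (k + 1) / P) *
      Real.sinc (t * (2 * Real.pi * (k + 1) / P))))
      (∑' j : ℤ, avgc a (ind t) (j * P) - 2 * t / P) := by
  have hpi := Real.pi_pos
  set G : ℤ → ℝ := fun k => phi a (2 * Real.pi * k / P) * Real.sinc (t * (2 * Real.pi * k / P))
    with hG
  have hFT : ∀ w : ℝ, 𝓕 (fun y : ℝ => (FV a t y : ℂ)) w =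
      ((2 ^ n * (2 * t) * (phi a (2 * Real.pi * w) * Real.sinc (t * (2 * Real.pi * w))) : ℝ) : ℂ) := by
    intro w
    rw [fourier_FV a ht w]
    unfold phi
    push_cast
    rw [Finset.prod_mul_distrib]
    simp only [Finset.prod_const, Finset.card_univ, Fintype.card_fin]
    rw [show t * (2 * Real.pi * w) = 2 * Real.pi * w * t by ring]
    ring
  have hFk : ∀ k : ℤ, 𝓕 (fun y : ℝ => (FV a t y : ℂ)) ((k : ℝ) / P) =
      ((2 ^ n * (2 * t) * G k : ℝ) : ℂ) := by
    intro k
    rw [hFT, hG]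
    simp only [mul_div_assoc]
  have hGs : Summable G := by
    have hm0 : 0 < min t 1 := lt_min ht one_pos
    have hs : Summable (fun k : ℤ => (3 / min t 1 * (P / (2 * Real.pi)) ^ 2) * (1 / (k : ℝ) ^ 2) +
        (if k = 0 then (1 : ℝ) else 0)) := by
      apply ((Real.summable_one_div_int_pow.2 (by norm_num)).mul_left _).add
      exact summable_of_hasFiniteSupport ((Set.finite_singleton (0 : ℤ)).subset (by
        intro k hk
        by_contra hcon
        apply hk
        have : k ≠ 0 := hcon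
        simp [this]))
    apply Summable.of_norm_bounded hs
    intro k
    rw [Real.norm_eq_abs]
    by_cases hk : k = 0
    · subst hk
      simp [hG, phi]
    · simp only [if_neg hk, add_zero]
      refine (phi_sinc_bound' a hsum ht _).trans ?_
      have hk0 : (k : ℝ) ≠ 0 := by exact_mod_cast hk
      have hk2 : 0 < (k : ℝ) ^ 2 := by positivity
      have h1 : (1 + (2 * Real.pi * k / P) ^ 2)⁻¹ ≤ ((2 * Real.pi * k / P) ^ 2)⁻¹ := by
        apply inv_anti₀ (by positivity)
        linarith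
      calc 3 / min t 1 * (1 + (2 * Real.pi * k / P) ^ 2)⁻¹ ≤
            3 / min t 1 * ((2 * Real.pi * k / P) ^ 2)⁻¹ :=
            mul_le_mul_of_nonneg_left h1 (by positivity)
        _ = _ := by
            field_simp
  have hs0 : ∀ y : ℝ, t + 1 + ∑ j, |a j| ≤ |y| → (FV a t y : ℂ) = 0 := by
    intro y hy
    rw [FV_eq_avgc, avgc_far (L := t + 1) a (fun x hx => ind_far (by linarith)) hy]
    simp
  have hcont : Continuous (fun y : ℝ => (FV a t y : ℂ)) :=
    Complex.continuous_ofReal.comp (FV_continuous a hsum ht.le)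
  have h := poisson_scaled hcont hs0 hP (by
    simp only [hFk]
    have := hGs.mul_left (2 ^ n * (2 * t))
    exact_mod_cast this) 0
  simp only [hFk, zero_mul, Complex.ofReal_zero, Complex.exp_zero, mul_one, zero_add] at h
  rw [← Complex.ofReal_tsum, ← Complex.ofReal_tsum, ← Complex.ofReal_mul] at h
  have h2 := Complex.ofReal_injective h
  rw [tsum_mul_left] at h2
  have h3 : ∑' j : ℤ, avgc a (ind t) (j * P) = 2 * t / P * ∑' k, G k := by
    have e : ∀ j : ℤ, FV a t (j * P) = 2 ^ n * avgc a (ind t) (j * P) := fun j => FV_eq_avgc a t _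
    simp only [e] at h2
    rw [tsum_mul_left] at h2
    have hn : (2 : ℝ) ^ n ≠ 0 := by positivity
    have h4 : (2 : ℝ) ^ n * ∑' j : ℤ, avgc a (ind t) (j * P) = 2 ^ n * (2 * t / P * ∑' k, G k) := by
      rw [h2]
      field_simp
    exact mul_left_cancel₀ hn h4
  have hG0 : G 0 = 1 := by simp [hG, phi]
  have hGe : ∀ k, G (-k) = G k := by
    intro k
    simp only [hG]
    have e : (2 * Real.pi * ((-k : ℤ) : ℝ) / P) = -(2 * Real.pi * k / P) := by
      push_cast
      ring
    rw [e, phi_neg, mul_neg, Real.sinc_neg]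
  have h5 := hGs.hasSum.nat_add_neg
  rw [hG0] at h5
  have h6 : HasSum (fun k : ℕ => 2 * G (k : ℤ)) (∑' k, G k + 1) := by
    refine h5.congr_fun ?_
    intro k
    rw [hGe]
    ring
  have h7 := (hasSum_nat_add_iff' (f := fun k : ℕ => 2 * G (k : ℤ)) 1).2 h6
  simp only [Finset.range_one, Finset.sum_singleton, Nat.cast_zero, hG0, mul_one] at h7
  have h8 := h7.mul_left (2 * t / P)
  rw [h3]
  have h9 : HasSum (fun k : ℕ => 4 * t / P * (phi a (2 * Real.pi * (k + 1) / P) *
      Real.sinc (t * (2 * Real.pi * (k + 1) / P)))) (2 * t / P * (∑' k, G k + 1 - 2)) := by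
    refine h8.congr_fun ?_
    intro k
    simp only [hG]
    push_cast
    ring
  have e9 : 2 * t / P * (∑' k, G k + 1 - 2) = 2 * t / P * ∑' k, G k - 2 * t / P := by ring
  rw [e9] at h9
  exact h9

theorem FV_fourier_near {n : ℕ} (a : Fin n → ℝ) (hsum : ∑ j, a j ^ 2 = 1) {t P : ℝ} (ht : 0 < t)
    (hP : 2 * t < P) :
    |(2 * t / P + ∑' k : ℕ, 4 * t / P * (phi a (2 * Real.pi * (k + 1) / P) *
      Real.sinc (t * (2 * Real.pi * (k + 1) / P)))) - FV a t 0 / 2 ^ n| ≤
      2 * Real.exp (-(3 * (P - t) ^ 2) / 2) := by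
  have hP0 : 0 < P := by linarith
  rw [(FV_poisson a hsum ht hP0).tsum_eq, FV_eq_avgc, mul_div_cancel_left₀ _ (by positivity)]
  have h := alias_bound a (ind_measurable t) (ind_abs_le t) (L := t) (fun x hx => ind_far hx) hP hP0
    (t := 0) le_rfl (by linarith) one_pos hsum.le
  simp only [zero_add, sub_zero, mul_one] at h
  rw [show 2 * t / P + (∑' j : ℤ, avgc a (ind t) (j * P) - 2 * t / P) - avgc a (ind t) 0 =
    ∑' j : ℤ, avgc a (ind t) (j * P) - avgc a (ind t) 0 by ring]
  exact h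

theorem FV_fourier_le {n : ℕ} (a : Fin n → ℝ) (hsum : ∑ j, a j ^ 2 = 1) {t P : ℝ} (ht : 0 < t)
    (hP : 0 < P) :
    FV a t 0 / 2 ^ n ≤ 2 * t / P + ∑' k : ℕ, 4 * t / P * (phi a (2 * Real.pi * (k + 1) / P) *
      Real.sinc (t * (2 * Real.pi * (k + 1) / P))) := by
  rw [(FV_poisson a hsum ht hP).tsum_eq, FV_eq_avgc, mul_div_cancel_left₀ _ (by positivity)]
  have hnn : ∀ j : ℤ, 0 ≤ avgc a (ind t) (j * P) := by
    intro j
    unfold avgc
    apply mul_nonneg (by positivity)
    exact integral_nonneg fun x => ind_nonneg _ _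
  have hsm : Summable (fun j : ℤ => avgc a (ind t) (j * P)) := by
    apply summable_of_hasFiniteSupport
    apply (finite_shift (t := 0) (M := t + 1 + ∑ j, |a j|) hP).subset
    intro j hj
    rw [mem_ofPred_eq]
    by_contra hcon
    apply hj
    rw [zero_add] at hcon
    exact avgc_far (L := t + 1) a (fun x hx => ind_far (by linarith)) (not_lt.1 hcon)
  have := hsm.le_tsum (0 : ℤ) (fun j _ => hnn j)
  simp only [Int.cast_zero, zero_mul] at this
  linarith

theorem FV_fourier_eq {n : ℕ} (a : Fin n → ℝ) (hsum : ∑ j, a j ^ 2 = 1) {t P : ℝ} (ht : 0 < t)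
    (hP : t + ∑ j, |a j| < P) :
    FV a t 0 / 2 ^ n = 2 * t / P + ∑' k : ℕ, 4 * t / P * (phi a (2 * Real.pi * (k + 1) / P) *
      Real.sinc (t * (2 * Real.pi * (k + 1) / P))) := by
  have hP0 : 0 < P := by
    have : 0 ≤ ∑ j, |a j| := Finset.sum_nonneg fun j _ => abs_nonneg _
    linarith
  rw [(FV_poisson a hsum ht hP0).tsum_eq, FV_eq_avgc, mul_div_cancel_left₀ _ (by positivity)]
  have h := tsum_no_alias (t := 0) (P := P) (L := P - ∑ j, |a j|) a (f := ind t)
    (fun x hx => ind_far (by linarith)) le_rfl (by linarith)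
  simp only [zero_add] at h
  rw [h]
  ring

end Pool.Agent.H60.SL
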