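import Pool.Agent.H60.SL.KReg

set_option autoImplicit false

open MeasureTheory Set Filter Topology

namespace Pool.Agent.H60.SL

open Pool.Agent.H64.Slab Pool.Agent.H60.Slab Pool.Agent.H60.Big

theorem cube_real_univ (m : ℕ) : (cubeM m).real univ = 2 ^ m := by
  simp only [cubeM, Measure.real, Measure.pi_univ, Measure.restrict_apply_univ,
    Real.volume_Icc, Finset.prod_const, Finset.card_univ, Fintype.card_fin,
    ENNReal.toReal_pow]
  norm_num

/-- expectation of an even function below a quadratic -/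
theorem E_le_quad {m : ℕ} (b : Fin m → ℝ) {ψ : ℝ → ℝ} (hψ : Continuous ψ)
    (heven : ∀ x, ψ (-x) = ψ x) {A B : ℝ} (h : ∀ x, 0 ≤ x → ψ x ≤ A + 3 * B * x ^ 2) :
    (1 / 2 ^ m) * ∫ x, ψ (dot x b) ∂(cubeM m) ≤ A + B * ∑ j, b j ^ 2 := by
  have h1 := psi_le b hψ heven (A := A) (B := B) (by simpa using h 0 le_rfl) (by
    intro x hx
    have h2 : ∫ s in (0 : ℝ)..x, ψ s ≤ ∫ s in (0 : ℝ)..x, (A + 3 * B * s ^ 2) := by
      apply intervalIntegral.integral_mono_on hx
      · exact hψ.intervalIntegrable _ _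
      · apply Continuous.intervalIntegrable; fun_prop
      · intro s hs
        exact h s hs.1
    refine h2.trans (le_of_eq ?_)
    rw [intervalIntegral.integral_add intervalIntegrable_const
      (by apply Continuous.intervalIntegrable; fun_prop), intervalIntegral.integral_const_mul,
      integral_pow, intervalIntegral.integral_const]
    norm_num
    ring)
  rw [div_mul_eq_mul_div, one_mul, div_le_iff₀ (by positivity)]
  linarith

/-- `(s + g)_+ + (g - s)_+` -/
noncomputable def psiO (g s : ℝ) : ℝ := max (s + g) 0 + max (g - s) 0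

theorem psiO_continuous (c : ℝ) : Continuous (psiO c) := by unfold psiO; fun_prop

theorem psiO_even (c s : ℝ) : psiO c (-s) = psiO c s := by
  unfold psiO
  rw [add_comm, show -s + c = c - s by ring, show c - -s = s + c by ring]

/-- one coordinate integrated out -/
theorem FV_one {m : ℕ} (a : Fin (m + 1) → ℝ) (i : Fin (m + 1)) {t : ℝ}
    (ht : 0 ≤ t) (hα : 0 < a i) :
    1 - FV a t 0 / 2 ^ (m + 1) ≤ (1 / (2 * a i)) * ((1 / 2 ^ m) *
      ∫ x, psiO (a i - t) (dot x (fun k => a (i.succAbove k))) ∂(cubeM m)) := by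
  obtain ⟨α, hαe⟩ : ∃ α, a i = α := ⟨_, rfl⟩
  set b : Fin m → ℝ := fun k => a (i.succAbove k) with hbdef
  have hcl := clamp_continuous t
  have h1 := FV_split a i hα ht 0
  rw [hαe] at h1 hα ⊢
  have hd := continuous_dot b
  have hpc := psiO_continuous (α - t)
  have h2 : 2 * α * 2 ^ m - ∫ x, psiO (α - t) (dot x b) ∂(cubeM m) ≤
      ∫ x', (clamp t (0 + dot x' b + α) - clamp t (0 + dot x' b - α)) ∂(cubeM m) := by
    have e1 : 2 * α * 2 ^ m - ∫ x, psiO (α - t) (dot x b) ∂(cubeM m) =
        ∫ x, (2 * α - psiO (α - t) (dot x b)) ∂(cubeM m) := by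
      rw [integral_sub (integrable_const _) (by
        apply integrable_cube_of_continuous; fun_prop), integral_const, cube_real_univ]
      simp only [smul_eq_mul]
      ring
    rw [e1]
    apply integral_mono
    · apply integrable_cube_of_continuous; fun_prop
    · apply integrable_cube_of_continuous
      fun_prop
    · intro x
      simp only
      have e1 := clamp_ge t (0 + dot x b + α)
      have e2 := clamp_le t (0 + dot x b - α)
      rw [show (0 : ℝ) + dot x b + α - t = dot x b + (α - t) by ring] at e1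
      rw [show -((0 : ℝ) + dot x b - α) - t = (α - t) - dot x b by ring] at e2
      unfold psiO
      linarith
  have h3 : α⁻¹ * (2 * α * 2 ^ m - ∫ x, psiO (α - t) (dot x b) ∂(cubeM m)) ≤ FV a t 0 := by
    rw [h1]
    exact mul_le_mul_of_nonneg_left h2 (by positivity)
  have h8 : α⁻¹ * (2 * α * 2 ^ m - ∫ x, psiO (α - t) (dot x b) ∂(cubeM m)) =
      2 ^ (m + 1) * (1 - (1 / (2 * α)) * ((1 / 2 ^ m) *
        ∫ x, psiO (α - t) (dot x b) ∂(cubeM m))) := by
    rw [pow_succ]
    field_simp
  rw [h8] at h3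
  have h9 : 1 - (1 / (2 * α)) * ((1 / 2 ^ m) *
        ∫ x, psiO (α - t) (dot x b) ∂(cubeM m)) ≤ FV a t 0 / 2 ^ (m + 1) := by
    rw [le_div_iff₀ (by positivity)]
    linarith
  linarith

/-- bound A -/
theorem T_le_A {m : ℕ} (a : Fin (m + 1) → ℝ) (i : Fin (m + 1)) {t : ℝ}
    (ht : 0 ≤ t) (hα : 0 < a i) (hg : t < a i) :
    1 - FV a t 0 / 2 ^ (m + 1) ≤ (1 / (2 * a i)) * (2 * (a i - t) +
      (∑ k, a (i.succAbove k) ^ 2) / (12 * (a i - t))) := by
  refine (FV_one a i ht hα).trans (mul_le_mul_of_nonneg_left ?_ (by positivity))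
  have hg0 : 0 < a i - t := by linarith
  refine (E_le_quad _ (psiO_continuous _) (psiO_even _) (A := 2 * (a i - t))
    (B := 1 / (12 * (a i - t))) ?_).trans (le_of_eq ?_)
  · intro x hx
    obtain ⟨g, hge⟩ : ∃ g, a i - t = g := ⟨_, rfl⟩
    rw [hge] at hg0 ⊢
    have e : 3 * (1 / (12 * g)) * x ^ 2 = x ^ 2 / (4 * g) := by field_simp; ring
    rw [e]
    unfold psiO
    rw [max_eq_left (by linarith : 0 ≤ x + g)]
    rcases le_total x g with h | h
    · rw [max_eq_left (by linarith)]
      have : 0 ≤ x ^ 2 / (4 * g) := by positivity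
      linarith
    · rw [max_eq_right (by linarith)]
      have : x - g ≤ x ^ 2 / (4 * g) := by
        rw [le_div_iff₀ (by positivity)]
        nlinarith [sq_nonneg (x - 2 * g)]
      linarith
  · field_simp

/-- bound B -/
theorem T_le_B {m : ℕ} (a : Fin (m + 1) → ℝ) (i : Fin (m + 1)) {t C : ℝ}
    (ht : 0 ≤ t) (hα : 0 < a i) (hC : 0 < C) (hg : |a i - t| ≤ C / 2) :
    1 - FV a t 0 / 2 ^ (m + 1) ≤ (1 / (2 * a i)) * ((a i - t) + C / 2 +
      (∑ k, a (i.succAbove k) ^ 2) / (6 * C)) := by
  refine (FV_one a i ht hα).trans (mul_le_mul_of_nonneg_left ?_ (by positivity))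
  refine (E_le_quad _ (psiO_continuous _) (psiO_even _) (A := (a i - t) + C / 2)
    (B := 1 / (6 * C)) ?_).trans (le_of_eq ?_)
  · intro x hx
    obtain ⟨g, hge⟩ : ∃ g, a i - t = g := ⟨_, rfl⟩
    rw [hge] at hg ⊢
    have hg' := abs_le.1 hg
    have e : 3 * (1 / (6 * C)) * x ^ 2 = x ^ 2 / (2 * C) := by field_simp; ring
    rw [e]
    have e1 : 0 ≤ x ^ 2 / (2 * C) := by positivity
    have e2 : x ≤ C / 2 + x ^ 2 / (2 * C) := by
      have : x - C / 2 ≤ x ^ 2 / (2 * C) := by
        rw [le_div_iff₀ (by positivity)]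
        nlinarith [sq_nonneg (x - C)]
      linarith
    unfold psiO
    rcases le_total 0 (x + g) with h1 | h1
    · rw [max_eq_left h1]
      rcases le_total 0 (g - x) with h | h
      · rw [max_eq_left h]
        linarith
      · rw [max_eq_right h]
        linarith
    · rw [max_eq_right h1, max_eq_right (by linarith)]
      linarith
  · field_simp

/-- bound C -/
theorem T_le_C {m : ℕ} (a : Fin (m + 1) → ℝ) (i : Fin (m + 1)) {t : ℝ}
    (ht : 0 ≤ t) (hα : 0 < a i) (hg : a i < t) :
    1 - FV a t 0 / 2 ^ (m + 1) ≤ (∑ k, a (i.succAbove k) ^ 2) / (24 * a i * (t - a i)) := by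
  have hg0 : 0 < t - a i := by linarith
  refine ((FV_one a i ht hα).trans (mul_le_mul_of_nonneg_left ((E_le_quad _ (psiO_continuous _)
    (psiO_even _) (A := 0) (B := 1 / (12 * (t - a i))) ?_)) (by positivity))).trans (le_of_eq ?_)
  · intro x hx
    obtain ⟨g, hge⟩ : ∃ g, t - a i = g := ⟨_, rfl⟩
    have hge2 : a i - t = -g := by linarith
    rw [hge] at hg0 ⊢
    rw [hge2]
    have e : 3 * (1 / (12 * g)) * x ^ 2 = x ^ 2 / (4 * g) := by field_simp; ring
    rw [e, zero_add]
    unfold psiO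
    rw [max_eq_right (by linarith : -g - x ≤ 0), add_zero]
    apply max_le
    · rw [le_div_iff₀ (by positivity)]
      nlinarith [sq_nonneg (x - 2 * g)]
    · positivity
  · field_simp
    ring

/-- the numerical inequality of the region `al ≥ 47/50` -/
theorem psi_num {α t T : ℝ} (h1 : 47 / 50 ≤ α) (h2 : α ≤ 1) (h3 : 17 / 20 ≤ t)
    (h4 : 3 * t ^ 2 ≤ 10 * (1 - 4 / 7 * α ^ 2))
    (hA : t < α → T ≤ (1 / (2 * α)) * (2 * (α - t) + (1 - α ^ 2) / (12 * (α - t))))
    (hB : |α - t| ≤ 1 / 10 → T ≤ (1 / (2 * α)) * ((α - t) + 1 / 10 + (1 - α ^ 2) / (6 / 5)))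
    (hC : α < t → T ≤ (1 - α ^ 2) / (24 * α * (t - α))) :
    T ≤ T2 t ∨ T ≤ T3 t := by
  have hs2 := s2_lb
  have hs2' := s2_ub
  have hs3 := s3_lb
  have hs3' := s3_ub
  have hα0 : 0 < α := by linarith
  rcases lt_or_ge t (α - 1 / 10) with hcase | hcase
  · -- regime A
    left
    refine (hA (by linarith)).trans ?_
    have hN : 0 ≤ 1 - α ^ 2 := by nlinarith
    have e1 : (1 - α ^ 2) / (12 * (α - t)) ≤ (1 - α ^ 2) / (12 / 10) := by
      apply div_le_div_of_nonneg_left hN (by norm_num)
      linarith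
    have e2 : (1 / (2 * α)) * (2 * (α - t) + (1 - α ^ 2) / (12 * (α - t))) ≤
        (1 / (2 * α)) * (2 * (α - t) + (1 - α ^ 2) / (12 / 10)) := by
      apply mul_le_mul_of_nonneg_left _ (by positivity)
      linarith
    refine e2.trans ?_
    have e3 : (1 / (2 * α)) * (2 * (α - t) + (1 - α ^ 2) / (12 / 10)) =
        (2 * (α - t) + (1 - α ^ 2) / (12 / 10)) / (2 * α) := by ring
    rw [e3, div_le_iff₀ (by positivity), T2]
    have e4 : (1.41421 - t) ^ 2 ≤ (Real.sqrt 2 - t) ^ 2 := by
      apply pow_le_pow_left₀ <;> linarith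
    have e5 : 2 * (α - t) + (1 - α ^ 2) / (12 / 10) ≤ (1.41421 - t) ^ 2 / 2 * (2 * α) := by
      have t1 : 0 ≤ t - 17 / 20 := by linarith
      have t2 : 0 ≤ α - t - 1 / 10 := by linarith
      nlinarith [mul_nonneg t1 t2, mul_nonneg t1 hα0.le, sq_nonneg (α - 1), sq_nonneg (t - 17/20),
        mul_nonneg t1 (sub_nonneg.2 h2), mul_nonneg (sub_nonneg.2 h1) (sub_nonneg.2 h2)]
    nlinarith
  · rcases le_or_gt t (α + 1 / 10) with hcase2 | hcase2
    · -- regime B
      left
      refine (hB (by rw [abs_le]; constructor <;> linarith)).trans ?_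
      have e3 : (1 / (2 * α)) * ((α - t) + 1 / 10 + (1 - α ^ 2) / (6 / 5)) =
          ((α - t) + 1 / 10 + (1 - α ^ 2) / (6 / 5)) / (2 * α) := by ring
      rw [e3, div_le_iff₀ (by positivity), T2]
      have ht11 : t ≤ 1.1 := by linarith
      have e4 : (1.41421 - t) ^ 2 ≤ (Real.sqrt 2 - t) ^ 2 := by
        apply pow_le_pow_left₀ <;> linarith
      have e5 : (α - t) + 1 / 10 + (1 - α ^ 2) / (6 / 5) ≤ (1.41421 - t) ^ 2 / 2 * (2 * α) := by
        -- (c - t)^2 α + t + 1/(4α) ≥ c  with c = 1.41421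
        have k1 : 4 * α * ((α - t) + 1 / 10 + (1 - α ^ 2) / (6 / 5)) ≤
            4 * α * ((1.41421 - t) ^ 2 / 2 * (2 * α)) := by
          have k2 : 0 ≤ (2 * α * (1.41421 - t) - 1) ^ 2 := sq_nonneg _
          have k3 : 4 * α * (α + 1 / 10 + (1 - α ^ 2) / (6 / 5)) ≤ 4 * α * 1.41421 - 1 := by
            have k4 : 0 ≤ (α - 47 / 50) * (1 - α) := mul_nonneg (by linarith) (by linarith)
            nlinarith [mul_nonneg k4 hα0.le]
          nlinarith
        exact le_of_mul_le_mul_left k1 (by positivity)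
      nlinarith
    · -- regime C
      right
      refine (hC (by linarith)).trans ?_
      have hgap : 1 / 10 < t - α := by linarith
      have ht0 : 0 < t := by linarith
      have hmax : t ≤ 1.2847 := by
        have : t ^ 2 ≤ 1.65045 := by nlinarith
        nlinarith
      have key : ∀ a1 N c1 c2 : ℝ, 0 < a1 → a1 ≤ α → 1 - α ^ 2 ≤ N → 0 ≤ c1 → c1 ≤ t - α →
          0 ≤ c2 → c2 ≤ 1.73205 - t → N ≤ 24 * a1 * c1 * (1.73205 * c2 ^ 3 / 8) →
          (1 - α ^ 2) / (24 * α * (t - α)) ≤ T3 t := by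
        intro a1 N c1 c2 g1 g2 g3 g4 g5 g6 g7 g8
        rw [div_le_iff₀ (mul_pos (by positivity) (by linarith)), T3]
        have j1 : c2 ^ 3 ≤ (Real.sqrt 3 - t) ^ 3 := by
          apply pow_le_pow_left₀ g6; linarith
        have j2 : 1.73205 * c2 ^ 3 / 8 ≤ Real.sqrt 3 * (Real.sqrt 3 - t) ^ 3 / 8 := by
          apply div_le_div_of_nonneg_right _ (by norm_num)
          apply mul_le_mul hs3.le j1 (by positivity) (by positivity)
        have j3 : 24 * a1 * c1 ≤ 24 * α * (t - α) := by
          apply mul_le_mul (by linarith) g5 g4 (by positivity)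
        have j4 : 24 * a1 * c1 * (1.73205 * c2 ^ 3 / 8) ≤
            24 * α * (t - α) * (Real.sqrt 3 * (Real.sqrt 3 - t) ^ 3 / 8) := by
          apply mul_le_mul j3 j2 (by positivity)
          exact mul_nonneg (by positivity) (by linarith)
        linarith
      rcases le_total α 0.96 with ha | ha
      · have hN : 1 - α ^ 2 ≤ 0.1164 := by nlinarith
        rcases le_total t 1.06 with c1 | c1
        · exact key 0.94 0.1164 0.1 0.67205 (by norm_num) (by linarith) hN (by norm_num)
            (by linarith) (by norm_num) (by linarith) (by norm_num)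
        rcases le_total t 1.1 with c2 | c2
        · exact key 0.94 0.1164 0.1 0.63205 (by norm_num) (by linarith) hN (by norm_num)
            (by linarith) (by norm_num) (by linarith) (by norm_num)
        rcases le_total t 1.15 with c3 | c3
        · exact key 0.94 0.1164 0.14 0.58205 (by norm_num) (by linarith) hN (by norm_num)
            (by linarith) (by norm_num) (by linarith) (by norm_num)
        rcases le_total t 1.2 with c4 | c4
        · exact key 0.94 0.1164 0.19 0.53205 (by norm_num) (by linarith) hN (by norm_num)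
            (by linarith) (by norm_num) (by linarith) (by norm_num)
        rcases le_total t 1.25 with c5 | c5
        · exact key 0.94 0.1164 0.24 0.48205 (by norm_num) (by linarith) hN (by norm_num)
            (by linarith) (by norm_num) (by linarith) (by norm_num)
        · exact key 0.94 0.1164 0.29 0.44735 (by norm_num) (by linarith) hN (by norm_num)
            (by linarith) (by norm_num) (by linarith) (by norm_num)
      · have hN : 1 - α ^ 2 ≤ 0.0784 := by nlinarith
        have hmax2 : t ≤ 1.257 := by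
          have : t ^ 2 ≤ 1.578 := by nlinarith
          nlinarith
        rcases le_total t 1.15 with c3 | c3
        · exact key 0.96 0.0784 0.1 0.58205 (by norm_num) (by linarith) hN (by norm_num)
            (by linarith) (by norm_num) (by linarith) (by norm_num)
        rcases le_total t 1.2 with c4 | c4
        · exact key 0.96 0.0784 0.15 0.53205 (by norm_num) (by linarith) hN (by norm_num)
            (by linarith) (by norm_num) (by linarith) (by norm_num)
        · exact key 0.96 0.0784 0.2 0.475 (by norm_num) (by linarith) hN (by norm_num)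
            (by linarith) (by norm_num) (by linarith) (by norm_num)

/-- region `a_i ≥ 47/50` -/
theorem psi_region {n : ℕ} (a : Fin (n + 3) → ℝ) (i : Fin (n + 3)) (hsum : ∑ k, a k ^ 2 = 1)
    {t : ℝ} (h1 : 47 / 50 ≤ a i) (h3 : 17 / 20 ≤ t)
    (h4 : 3 * t ^ 2 ≤ 10 * (1 - 4 / 7 * a i ^ 2)) :
    ∃ q, 2 ≤ q ∧ q ≤ 3 ∧ FV (stdVec (n + 3) q) t 0 ≤ FV a t 0 := by
  have hsplit : a i ^ 2 + ∑ k, a (i.succAbove k) ^ 2 = 1 := by
    rw [← hsum, Fin.sum_univ_succAbove _ i]
  have hN : ∑ k, a (i.succAbove k) ^ 2 = 1 - a i ^ 2 := by linarith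
  have hN0 : 0 ≤ ∑ k, a (i.succAbove k) ^ 2 := Finset.sum_nonneg fun _ _ => sq_nonneg _
  have hα0 : 0 < a i := by linarith
  have hα1 : a i ≤ 1 := by nlinarith
  have ht0 : 0 ≤ t := by linarith
  have hpow : (0 : ℝ) < 2 ^ (n + 3) := by positivity
  have ht13 : t ≤ 1.2847 := by
    have : t ^ 2 ≤ 1.65045 := by nlinarith
    nlinarith
  have hs2 := s2_lb
  have hs3 := s3_lb
  rcases psi_num h1 hα1 h3 h4 (T := 1 - FV a t 0 / 2 ^ (n + 3))
    (fun h => by
      have := T_le_A a i ht0 hα0 h
      rwa [hN] at this)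
    (fun h => by
      have := T_le_B a i ht0 hα0 (C := 1 / 5) (by norm_num) (by linarith)
      rw [hN] at this
      refine this.trans (le_of_eq ?_)
      norm_num)
    (fun h => by
      have := T_le_C a i ht0 hα0 h
      rwa [hN] at this) with h | h
  · refine ⟨2, le_rfl, by norm_num, ?_⟩
    have hv2 : FV (stdVec (n + 3) 2) t 0 = 2 ^ (n + 3) * (1 - T2 t) := by
      have := FV_f2 (n + 1) (t := t) (by linarith) (by linarith)
      rw [this]
      congr 1
      rw [vv, T2]
      have := s2_sq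
      nlinarith
    rw [hv2]
    have h5 : 1 - T2 t ≤ FV a t 0 / 2 ^ (n + 3) := by linarith
    rw [le_div_iff₀ hpow] at h5
    linarith
  · refine ⟨3, by norm_num, le_rfl, ?_⟩
    rw [FV_f3 n h3 (by linarith)]
    have h5 : 1 - T3 t ≤ FV a t 0 / 2 ^ (n + 3) := by linarith
    rw [le_div_iff₀ hpow] at h5
    linarith

end Pool.Agent.H60.SL
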