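import Pool.Agent.H60.SL.Inv

set_option autoImplicit false

open MeasureTheory Set Filter Topology

namespace Pool.Agent.H60.SL

open Pool.Agent.H64.Slab Pool.Agent.H60.Slab Pool.Agent.H60.Big

/-- `15 ((3 - z²) sin z - 3 z cos z) / z⁵`. -/
noncomputable def phiB (z : ℝ) : ℝ :=
  15 * ((3 - z ^ 2) * Real.sin z - 3 * z * Real.cos z) / z ^ 5

/-- the pair kernel -/
noncomputable def KK (u v : ℝ) : ℝ :=
  (u ^ 2 * phiB u * Real.sinc v - v ^ 2 * phiB v * Real.sinc u) / (u ^ 2 - v ^ 2)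

theorem poly_sin {ξ : ℝ} (hξ : ξ ≠ 0) (A B C a c : ℝ) :
    ∫ y in a..c, (A + B * y + C * y ^ 2) * Real.sin (ξ * y) =
      (-(A + B * c + C * c ^ 2) * Real.cos (ξ * c) / ξ + (B + 2 * C * c) * Real.sin (ξ * c) / ξ ^ 2 +
        2 * C * Real.cos (ξ * c) / ξ ^ 3) -
      (-(A + B * a + C * a ^ 2) * Real.cos (ξ * a) / ξ + (B + 2 * C * a) * Real.sin (ξ * a) / ξ ^ 2 +
        2 * C * Real.cos (ξ * a) / ξ ^ 3) := by
  apply intervalIntegral.integral_eq_sub_of_hasDerivAt
    (f := fun y => -(A + B * y + C * y ^ 2) * Real.cos (ξ * y) / ξ +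
      (B + 2 * C * y) * Real.sin (ξ * y) / ξ ^ 2 + 2 * C * Real.cos (ξ * y) / ξ ^ 3)
  · intro y _
    have h0 : HasDerivAt (fun y : ℝ => ξ * y) ξ y := by
      simpa using (hasDerivAt_id y).const_mul ξ
    have hc : HasDerivAt (fun y : ℝ => Real.cos (ξ * y)) (-Real.sin (ξ * y) * ξ) y := h0.cos
    have hs : HasDerivAt (fun y : ℝ => Real.sin (ξ * y)) (Real.cos (ξ * y) * ξ) y := h0.sin
    have hP : HasDerivAt (fun y : ℝ => -(A + B * y + C * y ^ 2)) (-(B + 2 * C * y)) y := by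
      have := (((hasDerivAt_id y).const_mul B).const_add A).add
        ((hasDerivAt_pow 2 y).const_mul C)
      refine (this.neg).congr_deriv ?_
      norm_num
      ring
    have hQ : HasDerivAt (fun y : ℝ => B + 2 * C * y) (2 * C) y := by
      have := ((hasDerivAt_id y).const_mul (2 * C)).const_add B
      simpa using this
    have h := (((hP.mul hc).div_const ξ).add ((hQ.mul hs).div_const (ξ ^ 2))).add
      ((hc.const_mul (2 * C)).div_const (ξ ^ 3))
    refine h.congr_deriv ?_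
    field_simp
    ring
  · apply Continuous.intervalIntegrable
    fun_prop

theorem F_odd {p d : ℝ} (hd : 0 < d) (hp : d < p) (y : ℝ) : LL 1 p d (-y) = -LL 1 p d y := by
  obtain ⟨z, hG⟩ := base_good hd hp
  have h1 : HasDerivAt (fun x => LL 2 p d (-x)) (-(-LL 1 p d (-y))) y := by
    have h3 : HasDerivAt (fun x : ℝ => -x) (-1) y := hasDerivAt_neg y
    exact ((hG.hq (-y)).comp y h3).congr_deriv (by ring)
  have h2 : HasDerivAt (fun x => LL 2 p d (-x)) (-LL 1 p d y) y := by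
    have : (fun x => LL 2 p d (-x)) = LL 2 p d := funext hG.q_even
    rw [this]
    exact hG.hq y
  have := h1.unique h2
  linarith

theorem half_supp {g : ℝ → ℝ} {p : ℝ} (hp : 0 ≤ p) (hg : ∀ x, g (-x) = g x)
    (hs : ∀ x, p ≤ x → g x = 0) : ∫ y, g y = 2 * ∫ y in (0 : ℝ)..p, g y := by
  rw [half_even hg]
  congr 1
  rw [intervalIntegral.integral_of_le hp]
  apply setIntegral_eq_of_subset_of_forall_sdiff_eq_zero measurableSet_Ioi
  · intro x hx
    exact hx.1
  · intro x hx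
    apply hs
    by_contra h
    exact hx.2 ⟨hx.1, (not_le.1 h).le⟩

theorem supp_integrable {f : ℝ → ℝ} {p : ℝ} (hf : Continuous f) (hs : ∀ x, p ≤ |x| → f x = 0) :
    Integrable f := by
  apply hf.integrable_of_hasCompactSupport
  apply HasCompactSupport.of_support_subset_isCompact (isCompact_Icc (a := -p) (b := p))
  intro x hx
  by_contra h
  apply hx
  apply hs
  rw [mem_Icc, ← abs_le] at h
  exact (not_le.1 h).le

/-- the sine transform of `LL 1` -/
theorem F_trans {α γ ξ : ℝ} (hγ : 0 < γ) (hαγ : γ < α) (hξ : ξ ≠ 0) :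
    ∫ y, LL 1 (α + γ) (α - γ) y * Real.sin (ξ * y) =
      -4 / ((α ^ 2 - γ ^ 2) * ξ ^ 3) *
        (γ ^ 2 * (Real.sin (α * ξ) - α * ξ * Real.cos (α * ξ)) * Real.sin (γ * ξ) -
         α ^ 2 * (Real.sin (γ * ξ) - γ * ξ * Real.cos (γ * ξ)) * Real.sin (α * ξ)) := by
  have hd : 0 < α - γ := by linarith
  have hp : α - γ < α + γ := by linarith
  have hp0 : 0 < α + γ := by linarith
  obtain ⟨z, hG⟩ := base_good hd hp
  rw [half_supp (p := α + γ) hp0.le
    (by intro x; rw [F_odd hd hp, mul_neg, Real.sin_neg]; ring)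
    (by intro x hx; rw [LL_far (by norm_num) hd hp hx, zero_mul])]
  have hi : ∀ a c : ℝ, IntervalIntegrable (fun y => LL 1 (α + γ) (α - γ) y * Real.sin (ξ * y))
      volume a c := fun a c => by
    apply Continuous.intervalIntegrable
    have := hG.hF
    fun_prop
  rw [← intervalIntegral.integral_add_adjacent_intervals (hi 0 (α - γ)) (hi (α - γ) (α + γ))]
  have e1 : ∫ y in (0 : ℝ)..(α - γ), LL 1 (α + γ) (α - γ) y * Real.sin (ξ * y) =
      ∫ y in (0 : ℝ)..(α - γ), (0 + (-(2 * γ) ^ 3 / (4 * (α + γ) * (α - γ))) * y + 0 * y ^ 2) *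
        Real.sin (ξ * y) := by
    apply intervalIntegral.integral_congr
    intro y hy
    rw [uIcc_of_le hd.le] at hy
    simp only
    rw [F_in hd hp hy.1 hy.2]
    have h1 : α + γ - (α - γ) = 2 * γ := by ring
    rw [h1]
    ring
  have e2 : ∫ y in (α - γ)..(α + γ), LL 1 (α + γ) (α - γ) y * Real.sin (ξ * y) =
      ∫ y in (α - γ)..(α + γ), ((α * γ - (α + γ) ^ 2 / 2) + (α + γ - α * γ / (α + γ)) * y +
        (-1 / 2) * y ^ 2) * Real.sin (ξ * y) := by
    apply intervalIntegral.integral_congr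
    intro y hy
    rw [uIcc_of_le hp.le] at hy
    simp only
    rw [F_out hd hp hy.1 hy.2]
    congr 1
    have h1 : (α + γ) ^ 2 - (α - γ) ^ 2 = 4 * (α * γ) := by ring
    rw [h1]
    field_simp
    ring
  rw [e1, e2, poly_sin hξ, poly_sin hξ]
  have s1 : Real.sin (ξ * (α + γ)) = Real.sin (α * ξ) * Real.cos (γ * ξ) +
      Real.cos (α * ξ) * Real.sin (γ * ξ) := by
    rw [← Real.sin_add]; congr 1; ring
  have s2 : Real.sin (ξ * (α - γ)) = Real.sin (α * ξ) * Real.cos (γ * ξ) -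
      Real.cos (α * ξ) * Real.sin (γ * ξ) := by
    rw [← Real.sin_sub]; congr 1; ring
  have c1 : Real.cos (ξ * (α + γ)) = Real.cos (α * ξ) * Real.cos (γ * ξ) -
      Real.sin (α * ξ) * Real.sin (γ * ξ) := by
    rw [← Real.cos_add]; congr 1; ring
  have c2 : Real.cos (ξ * (α - γ)) = Real.cos (α * ξ) * Real.cos (γ * ξ) +
      Real.sin (α * ξ) * Real.sin (γ * ξ) := by
    rw [← Real.cos_sub]; congr 1; ring
  have z1 : Real.sin (ξ * 0) = 0 := by simp
  have z2 : Real.cos (ξ * 0) = 1 := by simp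
  rw [s1, s2, c1, c2, z1, z2]
  have h2 : α ^ 2 - γ ^ 2 ≠ 0 := by
    have : 0 < (α - γ) * (α + γ) := mul_pos hd hp0
    nlinarith
  have h3 : α ^ 2 - γ ^ 2 = (α + γ) * (α - γ) := by ring
  rw [h3]
  have h4 : α + γ ≠ 0 := hp0.ne'
  have h5 : α - γ ≠ 0 := hd.ne'
  field_simp
  ring

end Pool.Agent.H60.SL
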